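import Pool.Agent.H329.Spec

/-!
Project HP folding (MP_dec383_lc), job Arith. Owner helper329.
Proof (paper 123, section 1(d)). Let F t = fibre of kappa over t. For a nonempty fibre put A = sum of sizes of items in F, m = number of items (<= 6), tau = number of
chords, C = sum of chord sizes. Hypothesis: 48 (A + C) <= (2A + m + 4 tau)^2 + 12 <= (2A+6+4tau)^2+12, i.e. 12(A+C) <= (A+3+2tau)^2+3. (a) tau <= 1: if tau >= 2 then
C >= 2 cmin, A <= 6 amax, tau <= |T|, so 24 cmin <= 12(A+C) <= (6amax+3+2|T|)^2+3 < 24 cmin, contradiction. (b) if tau = 1 with chord t: A >= p t - 2. Otherwise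
A <= p t - 3; f(A) = (A+5)^2+3-12A is convex and f(A) <= f(p t - 3) for 0 <= A <= p t - 3 because p t >= 10 (f(0)=28, f(1)=27, increasing from 1 on, f(7)=63), so
12 C <= f(p-3), i.e. 12(p-3+c) <= (p+2)^2+3, contradiction with n2. (c) Sum over the fibres containing a chord (each contains exactly one by (a)): sum of A over
them >= sum_t (p t - 2) = total of item sizes (n3b). So all inequalities are equalities and all items (sizes >= 1) lie in fibres with a chord. The number of items in
each is <= 6 and the total is 6|T| (n3a), so each is 6. Define phi j = the unique chord t with kappa t = kappa j.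
Keep the statement of TARGET unchanged; auxiliary lemmas before it, in namespace Pool.Agent.H329.ArithAux.
-/

namespace Pool.Agent.H329


open Finset







namespace ArithAux

variable {ι : Type} [DecidableEq ι]

lemma convex_step {A p c : ℕ} (hp : 10 ≤ p) (hA : A + 3 ≤ p) (h : 12 * (A + c) ≤ (A + 5) ^ 2 + 3) :
    12 * (p - 3 + c) ≤ (p + 2) ^ 2 + 3 := by
  obtain ⟨q, rfl⟩ : ∃ q, p = q + 3 := ⟨p - 3, by omega⟩
  have hq : q + 3 - 3 = q := by omega
  rw [hq]
  have hAq : A ≤ q := by omega
  obtain ⟨d, rfl⟩ := Nat.exists_eq_add_of_le hAq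
  nlinarith [Nat.zero_le d, Nat.zero_le A, Nat.zero_le (d * A), mul_self_nonneg (d : ℤ)]

end ArithAux

/-- TARGET -/
theorem Arith_proof : S_Arith := by
  classical
  intro ι _ B J p κ hN hF
  obtain ⟨amax, cmin, ham, hcm, hn1⟩ := hN.n1
  set It := J.filter (fun j => B.item j = true) with hIt
  set Ch := J.filter (fun j => B.item j = false) with hCh
  -- fibre data
  have hdata : ∀ x, (J.filter fun j => κ j = x).Nonempty →
      (It.filter fun j => κ j = x).card ≤ 6 ∧
      12 * (∑ j ∈ It.filter (fun j => κ j = x), B.size j + ∑ j ∈ Ch.filter (fun j => κ j = x), B.size j) ≤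
        (∑ j ∈ It.filter (fun j => κ j = x), B.size j + 3 + 2 * (Ch.filter (fun j => κ j = x)).card) ^ 2 + 3 := by
    intro x hx
    obtain ⟨h1, h2⟩ := hF x hx
    have e1 : (J.filter fun j => κ j = x).filter (fun j => B.item j = true) = It.filter (fun j => κ j = x) := by
      rw [hIt, Finset.filter_filter, Finset.filter_filter]
      apply Finset.filter_congr
      intro j _
      exact and_comm
    have e2 : (J.filter fun j => κ j = x).filter (fun j => ¬ B.item j = true) = Ch.filter (fun j => κ j = x) := by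
      rw [hCh, Finset.filter_filter, Finset.filter_filter]
      apply Finset.filter_congr
      intro j _
      simp [and_comm]
    rw [e1] at h1
    refine ⟨h1, ?_⟩
    have e3 : ∑ j ∈ J.filter (fun j => κ j = x), B.size j =
        ∑ j ∈ It.filter (fun j => κ j = x), B.size j + ∑ j ∈ Ch.filter (fun j => κ j = x), B.size j := by
      rw [← Finset.sum_filter_add_sum_filter_not _ (fun j => B.item j = true), e1, e2]
    have e4 : ∑ j ∈ J.filter (fun j => κ j = x), (if B.item j then 2 * B.size j + 1 else 4) =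
        2 * ∑ j ∈ It.filter (fun j => κ j = x), B.size j + (It.filter (fun j => κ j = x)).card +
          4 * (Ch.filter (fun j => κ j = x)).card := by
      rw [← Finset.sum_filter_add_sum_filter_not _ (fun j => B.item j = true), e1, e2]
      congr 1
      · rw [Finset.sum_congr rfl (g := fun j => 2 * B.size j + 1)]
        · rw [Finset.sum_add_distrib, ← Finset.mul_sum]
          simp
        · intro j hj
          have : B.item j = true := (Finset.mem_filter.mp (Finset.mem_filter.mp hj).1).2
          rw [if_pos this]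
      · rw [Finset.sum_congr rfl (g := fun _ => 4)]
        · rw [Finset.sum_const, smul_eq_mul, mul_comm]
        · intro j hj
          have : B.item j = false := (Finset.mem_filter.mp (Finset.mem_filter.mp hj).1).2
          rw [if_neg (by rw [this]; simp)]
    rw [e3, e4] at h2
    generalize ∑ j ∈ It.filter (fun j => κ j = x), B.size j = A at h2 ⊢
    generalize ∑ j ∈ Ch.filter (fun j => κ j = x), B.size j = C at h2 ⊢
    generalize (It.filter (fun j => κ j = x)).card = m at h1 h2
    generalize (Ch.filter (fun j => κ j = x)).card = T at h2 ⊢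
    have h3 : (2 * A + m + 4 * T) ^ 2 ≤ (2 * A + 6 + 4 * T) ^ 2 := Nat.pow_le_pow_left (by omega) 2
    have h4 : (2 * A + 6 + 4 * T) ^ 2 = 4 * (A + 3 + 2 * T) ^ 2 := by ring
    omega
  -- at most one chord
  have htau : ∀ x, (Ch.filter fun j => κ j = x).card ≤ 1 := by
    intro x
    by_contra hcon
    push Not at hcon
    have hne : (J.filter fun j => κ j = x).Nonempty := by
      obtain ⟨t, ht⟩ := Finset.card_pos.mp (show 0 < (Ch.filter fun j => κ j = x).card by omega)
      rw [Finset.mem_filter, hCh, Finset.mem_filter] at ht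
      exact ⟨t, Finset.mem_filter.mpr ⟨ht.1.1, ht.2⟩⟩
    obtain ⟨h1, h2⟩ := hdata x hne
    have hC : 2 * cmin ≤ ∑ j ∈ Ch.filter (fun j => κ j = x), B.size j := by
      calc 2 * cmin ≤ (Ch.filter (fun j => κ j = x)).card * cmin := Nat.mul_le_mul_right _ hcon
        _ ≤ _ := by
          rw [← smul_eq_mul]
          apply Finset.card_nsmul_le_sum
          intro j hj
          have := Finset.mem_filter.mp (Finset.mem_filter.mp hj).1
          exact hcm j this.1 this.2
    have hA : ∑ j ∈ It.filter (fun j => κ j = x), B.size j ≤ 6 * amax := by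
      calc _ ≤ (It.filter (fun j => κ j = x)).card • amax := by
            apply Finset.sum_le_card_nsmul
            intro j hj
            have := Finset.mem_filter.mp (Finset.mem_filter.mp hj).1
            exact ham j this.1 this.2
        _ ≤ 6 * amax := by rw [smul_eq_mul]; exact Nat.mul_le_mul_right _ h1
    have hT : (Ch.filter (fun j => κ j = x)).card ≤ Ch.card := Finset.card_filter_le _ _
    have h5 : (∑ j ∈ It.filter (fun j => κ j = x), B.size j + 3 + 2 * (Ch.filter (fun j => κ j = x)).card) ^ 2 ≤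
        (6 * amax + 2 * Ch.card + 3) ^ 2 := Nat.pow_le_pow_left (by omega) 2
    omega
  have hinj : ∀ s ∈ Ch, ∀ t ∈ Ch, κ s = κ t → s = t := by
    intro s hs t ht hst
    by_contra hne
    have h1 : ({s, t} : Finset ι) ⊆ Ch.filter (fun j => κ j = κ t) := by
      intro j hj
      rw [Finset.mem_insert, Finset.mem_singleton] at hj
      rcases hj with rfl | rfl
      · exact Finset.mem_filter.mpr ⟨hs, hst⟩
      · exact Finset.mem_filter.mpr ⟨ht, rfl⟩
    have h2 := Finset.card_le_card h1
    rw [Finset.card_pair hne] at h2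
    have := htau (κ t)
    omega
  have hChx : ∀ t ∈ Ch, Ch.filter (fun j => κ j = κ t) = {t} := by
    intro t ht
    ext j
    rw [Finset.mem_filter, Finset.mem_singleton]
    constructor
    · rintro ⟨h1, h2⟩; exact hinj j h1 t ht h2
    · rintro rfl; exact ⟨ht, rfl⟩
  have hneC : ∀ t ∈ Ch, (J.filter fun j => κ j = κ t).Nonempty := by
    intro t ht
    exact ⟨t, Finset.mem_filter.mpr ⟨(Finset.mem_filter.mp ht).1, rfl⟩⟩
  -- (b)
  have hb : ∀ t ∈ Ch, p t - 2 ≤ ∑ j ∈ It.filter (fun j => κ j = κ t), B.size j := by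
    intro t ht
    by_contra hcon
    push Not at hcon
    have ht' := Finset.mem_filter.mp ht
    obtain ⟨h1, h2⟩ := hdata (κ t) (hneC t ht)
    rw [hChx t ht, Finset.sum_singleton, Finset.card_singleton] at h2
    have h3 := ArithAux.convex_step (p := p t) (c := B.size t)
      (A := ∑ j ∈ It.filter (fun j => κ j = κ t), B.size j) (hN.p_ge t ht'.1 ht'.2)
      (by have := hN.p_ge t ht'.1 ht'.2; omega) h2
    have h4 := hN.n2 t ht'.1 ht'.2
    omega
  -- (c)
  let ItC := It.filter (fun j => ∃ t ∈ Ch, κ t = κ j)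
  let ItN := It.filter (fun j => ¬ ∃ t ∈ Ch, κ t = κ j)
  have hbi : ItC = Ch.biUnion (fun t => It.filter (fun j => κ j = κ t)) := by
    ext j
    simp only [ItC, Finset.mem_filter, Finset.mem_biUnion]
    constructor
    · rintro ⟨h1, t, ht, he⟩; exact ⟨t, ht, h1, he.symm⟩
    · rintro ⟨t, ht, h1, he⟩; exact ⟨h1, t, ht, he.symm⟩
  have hpd : (Ch : Set ι).PairwiseDisjoint (fun t => It.filter (fun j => κ j = κ t)) := by
    intro s hs t ht hst
    rw [Function.onFun, Finset.disjoint_left]
    intro j hj hj'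
    rw [Finset.mem_filter] at hj hj'
    exact hst (hinj s hs t ht (hj.2.symm.trans hj'.2))
  have hsumC : ∑ j ∈ ItC, B.size j = ∑ t ∈ Ch, ∑ j ∈ It.filter (fun j => κ j = κ t), B.size j := by
    rw [hbi, Finset.sum_biUnion hpd]
  have hcardC : ItC.card = ∑ t ∈ Ch, (It.filter (fun j => κ j = κ t)).card := by
    rw [hbi, Finset.card_biUnion]
    intro s hs t ht hst
    exact hpd hs ht hst
  have hsplit : ∑ j ∈ It, B.size j = ∑ j ∈ ItC, B.size j + ∑ j ∈ ItN, B.size j :=
    (Finset.sum_filter_add_sum_filter_not It _ _).symm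
  have hsplitc : It.card = ItC.card + ItN.card :=
    (Finset.card_filter_add_card_filter_not (s := It) _).symm
  have hge : ∑ t ∈ Ch, (p t - 2) ≤ ∑ t ∈ Ch, ∑ j ∈ It.filter (fun j => κ j = κ t), B.size j :=
    Finset.sum_le_sum hb
  have h3b : ∑ j ∈ It, B.size j = ∑ t ∈ Ch, (p t - 2) := hN.n3b
  have h3a : It.card = 6 * Ch.card := hN.n3a
  have hN0 : ∑ j ∈ ItN, B.size j = 0 := by omega
  have hItN : ItN = ∅ := by
    by_contra hne
    obtain ⟨j, hj⟩ := Finset.nonempty_iff_ne_empty.mpr hne
    have h1 := (Finset.sum_eq_zero_iff.mp hN0) j hj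
    have h2 := Finset.mem_filter.mp (Finset.mem_filter.mp hj).1
    have := hN.item_pos j h2.1 h2.2
    omega
  have heq : ∑ t ∈ Ch, (p t - 2) = ∑ t ∈ Ch, ∑ j ∈ It.filter (fun j => κ j = κ t), B.size j := by omega
  have heach := (Finset.sum_eq_sum_iff_of_le hb).mp heq
  have hcle : ∀ t ∈ Ch, (It.filter (fun j => κ j = κ t)).card ≤ 6 := fun t ht => (hdata (κ t) (hneC t ht)).1
  have hceq : ∑ t ∈ Ch, (It.filter (fun j => κ j = κ t)).card = ∑ _t ∈ Ch, 6 := by
    rw [Finset.sum_const, smul_eq_mul, ← hcardC]
    rw [hItN, Finset.card_empty] at hsplitc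
    omega
  have hceach := (Finset.sum_eq_sum_iff_of_le hcle).mp hceq
  have hcov : ∀ j ∈ It, ∃ t ∈ Ch, κ t = κ j := by
    intro j hj
    by_contra hcon
    have : j ∈ ItN := Finset.mem_filter.mpr ⟨hj, hcon⟩
    rw [hItN] at this
    simp at this
  let φ : ι → ι := fun j => if h : ∃ t ∈ Ch, κ t = κ j then Classical.choose h else j
  have hφ : ∀ j ∈ It, φ j ∈ Ch ∧ κ (φ j) = κ j := by
    intro j hj
    have h := hcov j hj
    have e : φ j = Classical.choose h := dif_pos h
    rw [e]
    exact Classical.choose_spec h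
  refine ⟨φ, ?_, ?_⟩
  · intro j hj hj'
    have := (hφ j (Finset.mem_filter.mpr ⟨hj, hj'⟩)).1
    rw [hCh, Finset.mem_filter] at this
    exact this
  · intro t ht ht'
    have htC : t ∈ Ch := Finset.mem_filter.mpr ⟨ht, ht'⟩
    have e : J.filter (fun j => B.item j = true ∧ φ j = t) = It.filter (fun j => κ j = κ t) := by
      ext j
      rw [Finset.mem_filter, Finset.mem_filter, hIt, Finset.mem_filter]
      constructor
      · rintro ⟨h1, h2, h3⟩
        have := (hφ j (Finset.mem_filter.mpr ⟨h1, h2⟩)).2
        rw [h3] at this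
        exact ⟨⟨h1, h2⟩, this.symm⟩
      · rintro ⟨⟨h1, h2⟩, h3⟩
        have := hφ j (Finset.mem_filter.mpr ⟨h1, h2⟩)
        exact ⟨h1, h2, hinj _ this.1 t htC (this.2.trans h3)⟩
    rw [e]
    exact ⟨hceach t htC, (heach t htC).symm⟩

end Pool.Agent.H329
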