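import Pool.Agent.H329.Sums

/-!
# The numerical hypotheses of the structure theorem hold for the instance
-/

namespace Pool.Agent.H329

open Finset

namespace NumAux

/-- a side length which is `8u + a` -/
theorem exists_dev {l u D : ℕ} (h1 : 8 * u ≤ l) (h2 : l ≤ 8 * u + D) :
    ∃ a, l = 8 * u + a ∧ a ≤ D := ⟨l - 8 * u, by omega, by omega⟩

theorem item_size {G : Grid} (hG : G.Valid) (j : Lab) (hj : LabOk G j) (hi : j.item = true) :
    1 ≤ Lab.size G j ∧ Lab.size G j ≤ 8 * uu G + 3 * D0 G + 4 := by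
  have hD := D0_le G
  cases j with
  | vH c i =>
    obtain ⟨h1, h2, h3⟩ := hj
    have k1 := code_le G _ (id_le G (show c ≤ G.M by omega) h3).1
    have w1 := hG.w_range c i
    simp only [Lab.size]
    unfold AV
    omega
  | vL c i =>
    obtain ⟨h1, h2, h3, h4⟩ := hj
    have k1 := code_le G _ (id_le G h2 h4).1
    have w1 := hG.w_range c i
    simp only [Lab.size]
    unfold AV
    omega
  | cH c i =>
    obtain ⟨h1, h2, h3⟩ := hj
    have hi : i ≤ G.N := by omega
    have k1 := code_le G _ (id_le G h2 hi).2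
    simp only [Lab.size]
    unfold AC
    omega
  | cL c i =>
    obtain ⟨h1, h2, h3⟩ := hj
    have hi : i ≤ G.N := by omega
    have k1 := code_le G _ (id_le G h2 hi).2
    simp only [Lab.size]
    unfold AC
    omega
  | lr c i =>
    obtain ⟨h1, h2, h3, h4⟩ := hj
    have hs := sides hG h1 h2 h3 h4
    have e1 := hs.UR1
    have e2 := hs.UR2
    have e3 := hs.UL1
    have e4 := hs.UL2
    have e5 := hs.LL1
    have e6 := hs.LL2
    simp only [Lab.size]
    unfold lLR
    omega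
  | b c i =>
    obtain ⟨h1, h2, h3, h4⟩ := hj
    have hs := sides hG h1 h2 h3 h4
    have e1 := hs.UR1
    have e2 := hs.UR2
    have e3 := hs.T1
    have e4 := hs.T2
    have e5 := hs.LL1
    have e6 := hs.LL2
    simp only [Lab.size]
    unfold lB
    omega
  | ch c i => simp [Lab.item] at hi

/-- what is known about a chord -/
theorem chord_facts {G : Grid} (hG : G.Valid) (hex : S_HexIneq) {c i : ℕ} (h1 : 1 ≤ c)
    (h2 : c ≤ G.M) (h3 : 1 ≤ i) (h4 : i ≤ G.N) :
    190 * uu G ^ 2 ≤ cc G c i ∧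
      (pp G c i + 2) ^ 2 + 3 < 12 * (pp G c i - 3 + cc G c i) ∧
      (6 * (8 * uu G + 3 * D0 G + 4) + 2 * (G.M * G.N) + 3) ^ 2 + 3 < 24 * cc G c i := by
  have hs := sides hG h1 h2 h3 h4
  obtain ⟨a, ha, ha'⟩ := exists_dev hs.T1 hs.T2
  obtain ⟨b, hb, hb'⟩ := exists_dev hs.UR1 hs.UR2
  obtain ⟨x, hx, hx'⟩ := exists_dev hs.LL1 hs.LL2
  obtain ⟨d, hd, hd'⟩ := exists_dev hs.UL1 hs.UL2
  have H := hex (D0 G) (uu G) a b x d (G.M * G.N) (by unfold uu; exact le_rfl) (MN_le G) ha' hb'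
    hx' hd'
  simp only at H
  obtain ⟨-, H1, H2, H3⟩ := H
  have e1 : lT G c i + lUR G c i = 16 * uu G + a + b := by omega
  have e2 : lUL G c i + lLL G c i = 16 * uu G + x + d := by omega
  have e3 : pp G c i = 2 * (8 * uu G + a) + 2 * (8 * uu G + d) + (8 * uu G + b) +
      (8 * uu G + x) := by
    unfold pp
    rw [ha, hb, hx, hd]
  have e4 : cc G c i = hexN (16 * uu G + a + b) (16 * uu G + x + d) (8 * uu G + x)
      (8 * uu G + b) - (pp G c i - 2) := by
    unfold cc
    rw [e1, e2, hb, hx]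
  rw [← e3] at H1 H2 H3
  rw [← e4] at H2 H3
  refine ⟨?_, H2, H3⟩
  rw [e4]
  omega

end NumAux

open NumAux

theorem Num_proof (hS : S_Sums) (hI : S_Inst) (hex : S_HexIneq) : S_Num := by
  intro G hG
  obtain ⟨-, -, hlab⟩ := hI G hG
  obtain ⟨hS1, hS2⟩ := hS G hG
  have hJ : ∀ j, j ∈ (labels (toks G)).toFinset ↔ LabOk G j := by
    intro j
    rw [List.mem_toFinset, hlab]
  have hD := D0_le G
  have hu : 100 ≤ uu G := by omega
  have hch : ∀ j, LabOk G j → j.item = false → ∃ c i, j = .ch c i ∧ 1 ≤ c ∧ c ≤ G.M ∧ 1 ≤ i ∧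
      i ≤ G.N := by
    intro j hj hi
    cases j with
    | ch c i => exact ⟨c, i, rfl, hj⟩
    | _ => simp [Lab.item] at hi
  have hpp : ∀ c i, 1 ≤ c → c ≤ G.M → 1 ≤ i → i ≤ G.N → 10 ≤ pp G c i := by
    intro c i h1 h2 h3 h4
    have hs := sides hG h1 h2 h3 h4
    have := hs.T1
    unfold pp
    omega
  have hcard : ((labels (toks G)).toFinset.filter fun j => j.item = false).card = G.M * G.N := by
    rw [Finset.card_eq_sum_ones, sum_chords _ hJ]
    simp
  have hne : 1 ≤ G.M * G.N := Nat.mul_pos hG.M_pos hG.N_pos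
  constructor
  · intro j hj hi
    exact (item_size hG j ((hJ j).1 hj) hi).1
  · intro j hj hi
    obtain ⟨c, i, rfl, h1, h2, h3, h4⟩ := hch j ((hJ j).1 hj) hi
    have h5 := (chord_facts hG hex h1 h2 h3 h4).1
    have h6 : 1 ≤ uu G ^ 2 := Nat.one_le_pow _ _ (by omega)
    change 3 ≤ cc G c i
    omega
  · intro j hj hi
    obtain ⟨c, i, rfl, h1, h2, h3, h4⟩ := hch j ((hJ j).1 hj) hi
    exact hpp c i h1 h2 h3 h4
  · refine ⟨8 * uu G + 3 * D0 G + 4, 190 * uu G ^ 2, ?_, ?_, ?_⟩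
    · intro j hj hi
      exact (item_size hG j ((hJ j).1 hj) hi).2
    · intro j hj hi
      obtain ⟨c, i, rfl, h1, h2, h3, h4⟩ := hch j ((hJ j).1 hj) hi
      exact (chord_facts hG hex h1 h2 h3 h4).1
    · have hcard' : ((labels (toks G)).toFinset.filter fun j => (bd G).item j = false).card =
          G.M * G.N := hcard
      rw [hcard']
      have h1 := MN_le G
      have h2 : 6 * (8 * uu G + 3 * D0 G + 4) + 2 * (G.M * G.N) + 3 ≤ 49 * uu G := by omega
      have h3 := Nat.pow_le_pow_left h2 2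
      have h4 : (49 * uu G) ^ 2 = 2401 * uu G ^ 2 := by ring
      have h5 : 1 ≤ uu G ^ 2 := Nat.one_le_pow _ _ (by omega)
      omega
  · intro j hj hi
    obtain ⟨c, i, rfl, h1, h2, h3, h4⟩ := hch j ((hJ j).1 hj) hi
    exact (chord_facts hG hex h1 h2 h3 h4).2.1
  · exact hS1
  · have h1 : ∑ t ∈ (labels (toks G)).toFinset.filter (fun j => j.item = false),
        (pL G t - 2) = ∑ c ∈ Icc 1 G.M, ∑ i ∈ Icc 1 G.N, (pp G c i - 2) :=
      sum_chords _ hJ (fun t => pL G t - 2)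
    exact hS2.trans h1.symm

end Pool.Agent.H329
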