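import Pool.Agent.H329.FullH
import Pool.Agent.H329.Num

/-!
# Solved instances have good foldings
-/

namespace Pool.Agent.H329

open Finset FA StrAux NumAux

attribute [-instance] Int.instConditionallyCompleteLinearOrder

namespace BackAux

/-- translation of a finite set -/
def tr (o : Pt) (X : Finset Pt) : Finset Pt := X.image fun q => q + o

theorem mem_tr {o : Pt} {X : Finset Pt} {p : Pt} : p ∈ tr o X ↔ p - o ∈ X := by
  unfold tr
  rw [Finset.mem_image]
  constructor
  · rintro ⟨q, hq, rfl⟩
    simpa using hq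
  · intro h
    exact ⟨_, h, by simp⟩

theorem tr_inj (o : Pt) : Function.Injective fun q : Pt => q + o := fun _ _ h =>
  add_right_cancel h

theorem card_tr (o : Pt) (X : Finset Pt) : (tr o X).card = X.card :=
  Finset.card_image_of_injective _ (tr_inj o)

theorem edges_tr (o : Pt) (X : Finset Pt) : edges (tr o X) = edges X := by
  unfold edges
  refine Finset.sum_congr rfl fun d _ => ?_
  have : ((tr o X).filter fun p => p + dir d ∈ tr o X) =
      tr o (X.filter fun p => p + dir d ∈ X) := by
    ext p
    simp only [Finset.mem_filter, mem_tr]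
    rw [show p + dir d - o = p - o + dir d by abel]
  rw [this, card_tr]

/-- edges of a union of disjoint sets -/
theorem sum_edges_le {ι : Type} [DecidableEq ι] (T : Finset ι) (H : ι → Finset Pt) (S : Finset Pt)
    (hS : ∀ t ∈ T, H t ⊆ S) (hd : ∀ s ∈ T, ∀ t ∈ T, s ≠ t → Disjoint (H s) (H t)) :
    ∑ t ∈ T, edges (H t) ≤ edges S := by
  unfold edges
  rw [Finset.sum_comm]
  refine Finset.sum_le_sum fun d _ => ?_
  rw [← Finset.card_biUnion]
  · refine Finset.card_le_card ?_
    intro p hp
    rw [Finset.mem_biUnion] at hp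
    obtain ⟨t, ht, hp⟩ := hp
    rw [Finset.mem_filter] at hp ⊢
    exact ⟨hS t ht hp.1, hS t ht hp.2⟩
  · intro s hs t ht hst
    exact Finset.disjoint_of_subset_left (Finset.filter_subset _ _)
      (Finset.disjoint_of_subset_right (Finset.filter_subset _ _) (hd s hs t ht hst))

theorem mem_hsites {s : List Bool} {L : List (Pt × Bool)} (hL : L.map Prod.snd = s)
    (f : Fin s.length → Pt) (hlen : s.length = L.length)
    (hf : ∀ i : Fin s.length, f i = (L[i.val]'(by rw [← hlen]; exact i.2)).1) (p : Pt) :
    p ∈ hsites s f ↔ (p, true) ∈ L := by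
  subst hL
  unfold hsites
  rw [Finset.mem_image]
  constructor
  · rintro ⟨i, hi, rfl⟩
    rw [Finset.mem_filter] at hi
    have h1 := hi.2
    rw [hf]
    simp only [Fin.getElem_fin, List.getElem_map] at h1
    rw [← h1]
    exact List.getElem_mem _
  · intro h
    obtain ⟨i, hi, he⟩ := List.getElem_of_mem h
    have hi' : i < (L.map Prod.snd).length := by rw [List.length_map]; exact hi
    refine ⟨⟨i, hi'⟩, ?_, ?_⟩
    · rw [Finset.mem_filter]
      refine ⟨Finset.mem_univ _, ?_⟩
      simp only [Fin.getElem_fin, List.getElem_map, he]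
    · rw [hf]
      simp only [he]

end BackAux

open BackAux

theorem Backward_proof' (h1 : S_FullLetters) (h2 : S_FullPath) (h3 : S_FullNodup) (h4 : S_FullH)
    (h5 : S_Contacts) (h6 : S_TokLayout) (h7 : S_Inst) (h8 : S_Sums) (h9 : S_HexCard)
    (h10 : S_HexEdges) (h11 : S_HexIneq) (h12 : S_BinOk) : S_Backward := by
  intro G v h hG hsol
  have hL := h1 G v h hG hsol
  have hlen : (gword G).length = (fullPath G v h).length := by rw [← hL, List.length_map]
  let f : Fin (gword G).length → Pt := fun i =>
    ((fullPath G v h)[i.val]'(by rw [← hlen]; exact i.2)).1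
  have hfold : IsFolding f := by
    constructor
    · intro i j hij
      have hn := h3 G v h hG hsol
      unfold ptsOf at hn
      have := (List.Nodup.getElem_inj_iff hn (i := i.val) (j := j.val)
        (hi := by rw [List.length_map, ← hlen]; exact i.2)
        (hj := by rw [List.length_map, ← hlen]; exact j.2)).1 (by
          rw [List.getElem_map, List.getElem_map]; exact hij)
      exact Fin.ext this
    · intro i j hij
      have hc := h2 G v h hG hsol
      rw [List.isChain_iff_getElem] at hc
      have hj : j.val < (fullPath G v h).length := by rw [← hlen]; exact j.2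
      have := hc i.val (by unfold ptsOf; rw [List.length_map]; omega)
      unfold ptsOf at this
      rw [List.getElem_map, List.getElem_map] at this
      have e2 : (f j) = ((fullPath G v h)[i.val + 1]'(by rw [hij]; exact hj)).1 := by
        simp only [f]
        congr 2
        exact hij.symm
      rw [e2]
      exact this
  refine ⟨f, hfold, ?_⟩
  change gK G ≤ contacts (gword G) f
  obtain ⟨hsep, hnd, hlab⟩ := h7 G hG
  have hJ : ∀ j, j ∈ (labels (toks G)).toFinset ↔ LabOk G j := by
    intro j
    rw [List.mem_toFinset, hlab]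
  have hsize : ∀ j ∈ labels (toks G), 1 ≤ (bd G).size j := by
    intro j hj
    have hj := (hlab j).1 hj
    by_cases hi : j.item = true
    · exact (item_size hG j hj hi).1
    · cases j with
      | ch c i =>
        obtain ⟨a1, a2, a3, a4⟩ := hj
        have := (chord_facts hG h11 a1 a2 a3 a4).1
        have hD := D0_le G
        have hu : 1 ≤ uu G ^ 2 := Nat.one_le_pow _ _ (by omega)
        change 1 ≤ cc G c i
        omega
      | _ => exact absurd rfl hi
  obtain ⟨-, hK, hhh⟩ := h6 Lab (bd G) (toks G) hsep hnd hsize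
  have hcon := h5 (gword G) f hfold
  have hSum := (h8 G hG).2
  -- number of contacts wanted
  have hK' : gK G = 2 * (∑ c ∈ Icc 1 G.M, ∑ i ∈ Icc 1 G.N, (pp G c i - 2)) +
      ∑ c ∈ Icc 1 G.M, ∑ i ∈ Icc 1 G.N, 2 * (cc G c i - 2) := by
    unfold gK
    have e1 : ∑ c ∈ Icc 1 G.M, ∑ i ∈ Icc 1 G.N, 2 * (cc G c i - 2) =
        ∑ j ∈ (labels (toks G)).toFinset.filter (fun j => j.item = false),
          2 * ((bd G).size j - 2) :=
      (sum_chords _ hJ (fun j => 2 * ((bd G).size j - 2))).symm
    rw [hK, ← hSum, e1, Finset.mul_sum,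
      ← Finset.sum_filter_add_sum_filter_not _ (fun j : Lab => j.item = true)]
    congr 1
    · refine Finset.sum_congr rfl fun j hj => ?_
      rw [Finset.mem_filter] at hj
      have : (bd G).item j = true := hj.2
      rw [if_pos this]
      rfl
    · have : ((labels (toks G)).toFinset.filter fun j => ¬ j.item = true) =
          ((labels (toks G)).toFinset.filter fun j => j.item = false) := by
        ext j; simp
      rw [this]
      refine Finset.sum_congr rfl fun j hj => ?_
      rw [Finset.mem_filter] at hj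
      have : ¬ (bd G).item j = true := by
        change ¬ j.item = true
        rw [hj.2]; simp
      rw [if_neg this]
  have hh' : hh (gword G) = ∑ c ∈ Icc 1 G.M, ∑ i ∈ Icc 1 G.N, (cc G c i - 1) := by
    unfold gword
    have e1 : ∑ c ∈ Icc 1 G.M, ∑ i ∈ Icc 1 G.N, (cc G c i - 1) =
        ∑ j ∈ (labels (toks G)).toFinset.filter (fun j => j.item = false),
          ((bd G).size j - 1) :=
      (sum_chords _ hJ (fun j => (bd G).size j - 1)).symm
    rw [hhh, e1,
      ← Finset.sum_filter_add_sum_filter_not _ (fun j : Lab => j.item = true)]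
    have e0 : ∑ j ∈ (labels (toks G)).toFinset with j.item = true,
        (if (bd G).item j = true then 0 else (bd G).size j - 1) = 0 := by
      refine Finset.sum_eq_zero fun j hj => ?_
      rw [Finset.mem_filter] at hj
      have : (bd G).item j = true := hj.2
      rw [if_pos this]
    rw [e0, zero_add]
    have : ((labels (toks G)).toFinset.filter fun j => ¬ j.item = true) =
        ((labels (toks G)).toFinset.filter fun j => j.item = false) := by
      ext j; simp
    rw [this]
    refine Finset.sum_congr rfl fun j hj => ?_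
    rw [Finset.mem_filter] at hj
    have : ¬ (bd G).item j = true := by
      change ¬ j.item = true
      rw [hj.2]; simp
    rw [if_neg this]
  -- edges
  have hok : ∀ s c, (binOf G v h s c).b.Ok (uu G) := fun s c => (h12 G v h hG hsol s c).1
  set S := hsites (gword G) f with hSdef
  have hS : ∀ p, p ∈ S ↔ (p, true) ∈ fullPath G v h :=
    fun p => mem_hsites hL f hlen (fun _ => rfl) p
  let T := Icc 1 G.M ×ˢ Icc 1 G.N
  let H : ℕ × ℕ → Finset Pt := fun t =>
    tr (org (uu G) (t.1 + t.2) t.1) (binOf G v h (t.1 + t.2) t.1).b.hex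
  have hu : 100 ≤ (uu G : ℤ) := (hok 0 0).u_pos
  have hHS : ∀ t ∈ T, H t ⊆ S := by
    intro t ht p hp
    simp only [T, Finset.mem_product, Finset.mem_Icc] at ht
    rw [hS, h4 G v h hG hsol]
    exact ⟨t.1, t.2, ht.1.1, ht.1.2, ht.2.1, ht.2.2, _, mem_tr.1 hp, by simp⟩
  have hbox : ∀ t p, p ∈ H t → InBin (uu G) (t.1 + t.2) t.1 p := by
    intro t p hp
    have hx := mem_tr.1 hp
    have hb := hok (t.1 + t.2) t.1
    generalize (binOf G v h (t.1 + t.2) t.1).b = b at hx hb
    unfold BinP.hex at hx
    rw [Finset.mem_filter, Finset.mem_product, Finset.mem_Icc, Finset.mem_Icc] at hx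
    have e1 := hb.lT2
    have e2 := hb.lUR2
    have e3 := hb.lLL2
    have e4 := hb.lUL2
    have e5 := hb.u_pos
    simp only [BinP.x1, BinP.y1, org, Prod.fst_sub, Prod.snd_sub] at hx
    have g1 : 84 * (uu G : ℤ) * ((t.1 + t.2 : ℕ) : ℤ) =
      84 * ((uu G : ℤ) * ((t.1 + t.2 : ℕ) : ℤ)) := by ring
    have g2 : 8 * (uu G : ℤ) * ((t.1 + t.2 : ℕ) : ℤ) =
      8 * ((uu G : ℤ) * ((t.1 + t.2 : ℕ) : ℤ)) := by ring
    have g3 : 29 * (uu G : ℤ) * (t.1 : ℤ) = 29 * ((uu G : ℤ) * (t.1 : ℤ)) := by ring
    rw [g1, g2, g3] at hx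
    unfold InBin
    omega
  have hdis : ∀ s ∈ T, ∀ t ∈ T, s ≠ t → Disjoint (H s) (H t) := by
    intro s _ t _ hst
    rw [Finset.disjoint_left]
    intro p hp hq
    have := inBin_inj (by omega) (hbox s p hp) (hbox t p hq)
    exact hst (Prod.ext this.2 (by omega))
  have hE := sum_edges_le T H S hHS hdis
  -- each hexagon
  have hone : ∀ c ∈ Icc 1 G.M, ∀ i ∈ Icc 1 G.N,
      2 * (pp G c i - 2) + 2 * (cc G c i - 2) + (cc G c i - 1) ≤ edges (H (c, i)) := by
    intro c hc i hi
    rw [Finset.mem_Icc] at hc hi
    obtain ⟨k1, k2, -⟩ := chord_facts hG h11 hc.1 hc.2 hi.1 hi.2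
    have hsd := sides hG hc.1 hc.2 hi.1 hi.2
    have hD := D0_le G
    have hu2 : uu G ≤ uu G ^ 2 := Nat.le_self_pow (by norm_num) _
    have hpp : 10 ≤ pp G c i := by
      have := hsd.T1
      unfold pp
      omega
    change _ ≤ edges (tr _ _)
    rw [edges_tr]
    have hb := hok (c + i) c
    have c1 := h9 _ _ hb
    have c2 := h10 _ _ hb
    have hreal : real G (c + i) c = true := by
      unfold real
      rw [decide_eq_true_eq]
      omega
    have el : (binOf G v h (c + i) c).b.lT = lT G c i ∧
        (binOf G v h (c + i) c).b.lUR = lUR G c i ∧ (binOf G v h (c + i) c).b.lLL = lLL G c i ∧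
        (binOf G v h (c + i) c).b.lUL = lUL G c i := by
      unfold binOf
      rw [if_pos hreal, Nat.add_sub_cancel_left]
      exact ⟨rfl, rfl, rfl, rfl⟩
    change _ ≤ edges (binOf G v h (c + i) c).b.hex
    generalize (binOf G v h (c + i) c).b = b at *
    obtain ⟨l1, l2, l3, l4⟩ := el
    have ec : cc G c i = b.hex.card - (pp G c i - 2) := by
      rw [c1]
      unfold cc
      have a1 : b.x1.toNat = lT G c i + lUR G c i := by unfold BinP.x1; omega
      have a2 : b.y1.toNat = lUL G c i + lLL G c i := by unfold BinP.y1; omega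
      have a3 : b.s0.toNat = lLL G c i := by unfold BinP.s0; omega
      have a4 : b.lUR.toNat = lUR G c i := by omega
      rw [a1, a2, a3, a4]
    have ep : (2 * b.lT + 2 * b.lUL + b.lUR + b.lLL).toNat = pp G c i := by
      unfold pp
      omega
    rw [ep] at c2
    omega
  have hsum : ∑ c ∈ Icc 1 G.M, ∑ i ∈ Icc 1 G.N,
      (2 * (pp G c i - 2) + 2 * (cc G c i - 2) + (cc G c i - 1)) ≤ ∑ t ∈ T, edges (H t) := by
    rw [Finset.sum_product]
    exact Finset.sum_le_sum fun c hc => Finset.sum_le_sum fun i hi => hone c hc i hi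
  have hsplit : ∑ c ∈ Icc 1 G.M, ∑ i ∈ Icc 1 G.N,
      (2 * (pp G c i - 2) + 2 * (cc G c i - 2) + (cc G c i - 1)) = gK G + hh (gword G) := by
    rw [hK', hh']
    simp only [Finset.sum_add_distrib, Finset.mul_sum]
  omega

end Pool.Agent.H329
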