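import Pool.Agent.H329.Num

/-!
# A solved grid instance gives a folding with many contacts
-/

namespace Pool.Agent.H329

open Finset NumAux

attribute [-instance] Int.instConditionallyCompleteLinearOrder

attribute [local irreducible] uu D0 RR code

namespace BackAux

/-! ### Edges of translates and disjoint unions -/

theorem edges_image_add (S : Finset Pt) (o : Pt) : edges (S.image fun q => q + o) = edges S := by
  unfold edges
  refine Finset.sum_congr rfl fun d _ => ?_
  have hinj : Function.Injective fun q : Pt => q + o := fun a b h => add_right_cancel h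
  have h0 : ((S.image fun q => q + o).filter fun p => p + dir d ∈ S.image fun q => q + o) =
      (S.filter fun p => p + dir d ∈ S).image fun q => q + o := by
    ext p
    simp only [Finset.mem_filter, Finset.mem_image]
    constructor
    · rintro ⟨⟨q, hq, rfl⟩, r, hr, h⟩
      refine ⟨q, ⟨hq, ?_⟩, rfl⟩
      have h2 : q + dir d = r := by
        have h3 : q + dir d + o = r + o := by rw [h]; abel
        exact add_right_cancel h3
      rw [h2]
      exact hr
    · rintro ⟨q, ⟨hq, hq2⟩, rfl⟩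
      exact ⟨⟨q, hq, rfl⟩, q + dir d, hq2, by abel⟩
  rw [h0, Finset.card_image_of_injective _ hinj]

theorem edges_biUnion {β : Type} [DecidableEq β] (I : Finset β) (S : β → Finset Pt)
    (hd : ∀ a ∈ I, ∀ b ∈ I, a ≠ b → Disjoint (S a) (S b)) :
    ∑ a ∈ I, edges (S a) ≤ edges (I.biUnion S) := by
  unfold edges
  rw [Finset.sum_comm]
  apply Finset.sum_le_sum
  intro d _
  rw [← Finset.card_biUnion]
  · apply Finset.card_le_card
    intro p hp
    rw [Finset.mem_biUnion] at hp
    obtain ⟨a, ha, hp⟩ := hp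
    rw [Finset.mem_filter] at hp ⊢
    exact ⟨Finset.mem_biUnion.2 ⟨a, ha, hp.1⟩, Finset.mem_biUnion.2 ⟨a, ha, hp.2⟩⟩
  · intro a ha b hb hab
    exact (hd a ha b hb hab).mono (Finset.filter_subset _ _) (Finset.filter_subset _ _)

/-! ### Contacts of a labelled path -/

/-- A labelled path gives a folding. -/
theorem fold_of_path (hC : S_Contacts) (L : List (Pt × Bool)) (s : List Bool)
    (hs : L.map Prod.snd = s) (hc : (ptsOf L).IsChain Adj) (hn : (ptsOf L).Nodup)
    (H : Finset Pt) (hH : ∀ p, (p, true) ∈ L ↔ p ∈ H) (k : ℕ) (hk : k + hh s ≤ edges H) :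
    HPFold (s, k) := by
  subst hs
  have hl : (L.map Prod.snd).length = (ptsOf L).length := by simp [ptsOf]
  have hl' : (L.map Prod.snd).length = L.length := by simp
  set f : Fin (L.map Prod.snd).length → Pt := fun i => (ptsOf L)[i.val]'(hl ▸ i.isLt) with hf
  have hfold : IsFolding f := by
    constructor
    · intro i j hij
      apply Fin.ext
      exact (List.Nodup.getElem_inj_iff hn).1 hij
    · intro i j hij
      have h1 := List.isChain_iff_getElem.1 hc i.val (by rw [hij]; exact hl ▸ j.isLt)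
      simp only [hf]
      convert h1 using 2
      exact hij.symm
  refine ⟨f, hfold, ?_⟩
  have hsites_eq : hsites (L.map Prod.snd) f = H := by
    ext p
    rw [← hH]
    unfold hsites
    simp only [Finset.mem_image, Finset.mem_filter, Finset.mem_univ, true_and]
    constructor
    · rintro ⟨i, hi, hfi⟩
      have hiL : i.val < L.length := hl' ▸ i.isLt
      have h1 : L[i.val] = (p, true) := by
        apply Prod.ext
        · rw [← hfi]
          simp [hf, ptsOf]
        · have h2 : (L.map Prod.snd)[i.val]'(i.isLt) = true := hi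
          rw [List.getElem_map] at h2
          exact h2
      rw [← h1]
      exact List.getElem_mem hiL
    · intro hp
      obtain ⟨i, hi, h1⟩ := List.mem_iff_getElem.1 hp
      refine ⟨⟨i, by rw [hl']; exact hi⟩, ?_, ?_⟩
      · have h2 : (L.map Prod.snd)[i]'(by rw [hl']; exact hi) = true := by
          rw [List.getElem_map, h1]
        exact h2
      · simp [hf, ptsOf, h1]
  have h1 := hC (L.map Prod.snd) f hfold
  rw [hsites_eq] at h1
  change k ≤ contacts (L.map Prod.snd) f
  omega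

/-! ### The bins -/

/-- the parameters of a real bin -/
theorem bin_real (G : Grid) (v h : ℕ → ℕ → ℕ) {c i : ℕ} (h1 : 1 ≤ c) (h2 : c ≤ G.M) (h3 : 1 ≤ i)
    (h4 : i ≤ G.N) : (binOf G v h (c + i) c).b.lT = lT G c i ∧
      (binOf G v h (c + i) c).b.lUR = lUR G c i ∧ (binOf G v h (c + i) c).b.lLL = lLL G c i ∧
      (binOf G v h (c + i) c).b.lUL = lUL G c i := by
  have hr : real G (c + i) c = true := by
    unfold real
    rw [decide_eq_true_eq]
    omega
  unfold binOf
  rw [if_pos hr]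
  simp only [Nat.add_sub_cancel_left]
  exact ⟨trivial, trivial, trivial, trivial⟩

/-- the number of points of the hexagon -/
theorem hex_card {G : Grid} (hG : G.Valid) (hex : S_HexIneq) (hcard : S_HexCard)
    (v h : ℕ → ℕ → ℕ) {c i : ℕ} (hok : (binOf G v h (c + i) c).b.Ok (uu G)) (h1 : 1 ≤ c)
    (h2 : c ≤ G.M) (h3 : 1 ≤ i) (h4 : i ≤ G.N) :
    (binOf G v h (c + i) c).b.hex.card = cc G c i + (pp G c i - 2) ∧ 3 ≤ cc G c i ∧
      10 ≤ pp G c i := by
  have hs := sides hG h1 h2 h3 h4
  obtain ⟨a, ha, ha'⟩ := exists_dev hs.T1 hs.T2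
  obtain ⟨b, hb, hb'⟩ := exists_dev hs.UR1 hs.UR2
  obtain ⟨x, hx, hx'⟩ := exists_dev hs.LL1 hs.LL2
  obtain ⟨d, hd, hd'⟩ := exists_dev hs.UL1 hs.UL2
  have H := hex (D0 G) (uu G) a b x d (G.M * G.N) (by unfold uu; exact le_rfl) (MN_le G) ha' hb'
    hx' hd'
  simp only at H
  obtain ⟨-, H1, -, -⟩ := H
  have e1 : lT G c i + lUR G c i = 16 * uu G + a + b := by omega
  have e2 : lUL G c i + lLL G c i = 16 * uu G + x + d := by omega
  have e3 : pp G c i = 2 * (8 * uu G + a) + 2 * (8 * uu G + d) + (8 * uu G + b) +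
      (8 * uu G + x) := by
    unfold pp
    rw [ha, hb, hx, hd]
  have hN : hexN (lT G c i + lUR G c i) (lUL G c i + lLL G c i) (lLL G c i) (lUR G c i) =
      hexN (16 * uu G + a + b) (16 * uu G + x + d) (8 * uu G + x) (8 * uu G + b) := by
    rw [e1, e2, hb, hx]
  have hcc : cc G c i = hexN (lT G c i + lUR G c i) (lUL G c i + lLL G c i) (lLL G c i)
      (lUR G c i) - (pp G c i - 2) := rfl
  have hD := D0_le G
  have hu2 : 1 ≤ uu G ^ 2 := Nat.one_le_pow _ _ (by omega)
  obtain ⟨b1, b2, b3, b4⟩ := bin_real G v h h1 h2 h3 h4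
  have hc := hcard (uu G) _ hok
  have x1 : (binOf G v h (c + i) c).b.x1.toNat = lT G c i + lUR G c i := by
    unfold BinP.x1
    rw [b1, b2, ← Nat.cast_add, Int.toNat_natCast]
  have y1 : (binOf G v h (c + i) c).b.y1.toNat = lUL G c i + lLL G c i := by
    unfold BinP.y1
    rw [b3, b4, ← Nat.cast_add, Int.toNat_natCast]
  have s0 : (binOf G v h (c + i) c).b.s0.toNat = lLL G c i := by
    unfold BinP.s0
    rw [b3, Int.toNat_natCast]
  have r0 : (binOf G v h (c + i) c).b.lUR.toNat = lUR G c i := by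
    rw [b2, Int.toNat_natCast]
  rw [x1, y1, s0, r0] at hc
  rw [← e3, ← hN] at H1
  clear hN hcard hex x1 y1 s0 r0 b1 b2 b3 b4 e1 e2
  have e5 : 10 ≤ pp G c i := by omega
  clear e3 ha hb hx hd hs
  rw [hc, hcc]
  generalize hexN (lT G c i + lUR G c i) (lUL G c i + lLL G c i) (lLL G c i) (lUR G c i) = n at *
  clear hc hcc
  refine ⟨?_, ?_, e5⟩
  · omega
  · omega

/-- the edges of the hexagon -/
theorem hex_edges {G : Grid} (hG : G.Valid) (hex : S_HexIneq) (hcard : S_HexCard)
    (hedge : S_HexEdges)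
    (v h : ℕ → ℕ → ℕ) {c i : ℕ} (hok : (binOf G v h (c + i) c).b.Ok (uu G)) (h1 : 1 ≤ c)
    (h2 : c ≤ G.M) (h3 : 1 ≤ i) (h4 : i ≤ G.N) :
    2 * (pp G c i - 2) + 2 * (cc G c i - 2) + (cc G c i - 1) ≤
      edges (binOf G v h (c + i) c).b.hex := by
  obtain ⟨e1, e2, e3⟩ := hex_card hG hex hcard v h hok h1 h2 h3 h4
  have h5 := hedge (uu G) _ hok
  obtain ⟨b1, b2, b3, b4⟩ := bin_real G v h h1 h2 h3 h4
  have h6 : (2 * (binOf G v h (c + i) c).b.lT + 2 * (binOf G v h (c + i) c).b.lUL +
      (binOf G v h (c + i) c).b.lUR + (binOf G v h (c + i) c).b.lLL).toNat = pp G c i := by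
    rw [b1, b2, b3, b4]
    unfold pp
    have h7 : (2 * (lT G c i : ℤ) + 2 * (lUL G c i : ℤ) + (lUR G c i : ℤ) + (lLL G c i : ℤ)) =
        ((2 * lT G c i + 2 * lUL G c i + lUR G c i + lLL G c i : ℕ) : ℤ) := by
      push_cast
      ring
    rw [h7, Int.toNat_natCast]
  rw [h6, e1] at h5
  clear h6 b1 b2 b3 b4 e1 hok hex hcard hedge
  generalize cc G c i = a at *
  generalize pp G c i = b at *
  omega

theorem size_ch (G : Grid) (c i : ℕ) : (bd G).size (Lab.ch c i) = cc G c i := rfl

theorem K_ch (G : Grid) (c i : ℕ) : (if (bd G).item (Lab.ch c i) = true then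
    2 * (bd G).size (Lab.ch c i) else 2 * ((bd G).size (Lab.ch c i) - 2)) =
      2 * (cc G c i - 2) := by
  have h : ¬ (bd G).item (Lab.ch c i) = true := Bool.false_ne_true
  rw [if_neg h, size_ch]

theorem hh_ch (G : Grid) (c i : ℕ) : (if (bd G).item (Lab.ch c i) = true then
    0 else (bd G).size (Lab.ch c i) - 1) = cc G c i - 1 := by
  have h : ¬ (bd G).item (Lab.ch c i) = true := Bool.false_ne_true
  rw [if_neg h, size_ch]

end BackAux

open BackAux

theorem Backward_proof (hFL : S_FullLetters) (hFP : S_FullPath) (hFN : S_FullNodup)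
    (hFH : S_FullH) (hC : S_Contacts) (hTL : S_TokLayout) (hI : S_Inst) (hS : S_Sums)
    (hHC : S_HexCard) (hHE : S_HexEdges) (hex : S_HexIneq) (hOk : S_BinOk) : S_Backward := by
  classical
  intro G v h hG hsol
  obtain ⟨hsep, hnd, hlab⟩ := hI G hG
  have hJ : ∀ j, j ∈ (labels (toks G)).toFinset ↔ LabOk G j := by
    intro j
    rw [List.mem_toFinset, hlab]
  have hpos : ∀ j ∈ labels (toks G), 1 ≤ (bd G).size j := by
    intro j hj
    have hj' := (hlab j).1 hj
    by_cases hi : j.item = true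
    · exact (item_size hG j hj' hi).1
    · cases j with
      | ch c i =>
        have h5 := (chord_facts hG hex hj'.1 hj'.2.1 hj'.2.2.1 hj'.2.2.2).1
        have hD := D0_le G
        have h6 : 1 ≤ uu G ^ 2 := Nat.one_le_pow _ _ (by omega)
        change 1 ≤ cc G c i
        omega
      | _ => simp [Lab.item] at hi
  obtain ⟨-, hK, hhh⟩ := hTL Lab (bd G) (toks G) hsep hnd hpos
  obtain ⟨-, hsum⟩ := hS G hG
  -- the bins
  set I : Finset (ℕ × ℕ) := Icc 1 G.M ×ˢ Icc 1 G.N with hIdef
  set X : ℕ × ℕ → Finset Pt := fun x =>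
    (binOf G v h (x.1 + x.2) x.1).b.hex.image fun q => q + org (uu G) (x.1 + x.2) x.1 with hX
  have hmemI : ∀ x : ℕ × ℕ, x ∈ I ↔ 1 ≤ x.1 ∧ x.1 ≤ G.M ∧ 1 ≤ x.2 ∧ x.2 ≤ G.N := by
    intro x
    rw [hIdef, Finset.mem_product, Finset.mem_Icc, Finset.mem_Icc]
    tauto
  have hok : ∀ x : ℕ × ℕ, (binOf G v h (x.1 + x.2) x.1).b.Ok (uu G) := fun x =>
    (hOk G v h hG hsol _ _).1
  have hbox : ∀ x ∈ I, ∀ p ∈ X x, (84 * (uu G : ℤ) * ((x.1 + x.2 : ℕ) : ℤ) ≤ p.1 ∧
      p.1 ≤ 84 * (uu G : ℤ) * ((x.1 + x.2 : ℕ) : ℤ) + 17 * uu G) ∧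
      (29 * (uu G : ℤ) * (x.1 : ℤ) - 8 * (uu G : ℤ) * ((x.1 + x.2 : ℕ) : ℤ) ≤ p.2 ∧
      p.2 ≤ 29 * (uu G : ℤ) * (x.1 : ℤ) - 8 * (uu G : ℤ) * ((x.1 + x.2 : ℕ) : ℤ) + 17 * uu G) := by
    intro x hx p hp
    rw [hX] at hp
    simp only [Finset.mem_image] at hp
    obtain ⟨q, hq, rfl⟩ := hp
    have hx' := (hmemI x).1 hx
    have hs := sides hG hx'.1 hx'.2.1 hx'.2.2.1 hx'.2.2.2
    have hD := D0_le G
    obtain ⟨b1, b2, b3, b4⟩ := bin_real G v h hx'.1 hx'.2.1 hx'.2.2.1 hx'.2.2.2
    unfold BinP.hex BinP.x1 BinP.y1 at hq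
    rw [Finset.mem_filter, Finset.mem_product, Finset.mem_Icc, Finset.mem_Icc, b1, b2, b3, b4] at hq
    obtain ⟨⟨⟨q1, q2⟩, q3, q4⟩, -⟩ := hq
    have s1 := hs.T2
    have s2 := hs.UR2
    have s3 := hs.LL2
    have s4 := hs.UL2
    simp only [org, Prod.fst_add, Prod.snd_add]
    refine ⟨⟨?_, ?_⟩, ?_, ?_⟩ <;> push_cast <;> omega
  have hu : (0 : ℤ) < uu G := by
    have hD := D0_le G
    omega
  have hdisj : ∀ a ∈ I, ∀ b ∈ I, a ≠ b → Disjoint (X a) (X b) := by
    intro a ha b hb hab
    rw [Finset.disjoint_left]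
    intro p hpa hpb
    obtain ⟨⟨a1, a2⟩, a3, a4⟩ := hbox a ha p hpa
    obtain ⟨⟨b1, b2⟩, b3, b4⟩ := hbox b hb p hpb
    have e1 : a.1 + a.2 = b.1 + b.2 := by
      by_contra hne
      rcases Nat.lt_or_gt_of_ne hne with hlt | hlt
      · have h1 : ((a.1 + a.2 : ℕ) : ℤ) + 1 ≤ ((b.1 + b.2 : ℕ) : ℤ) := by exact_mod_cast hlt
        have h2 := mul_le_mul_of_nonneg_left h1 (by positivity : (0 : ℤ) ≤ 84 * (uu G : ℤ))
        rw [mul_add] at h2
        omega
      · have h1 : ((b.1 + b.2 : ℕ) : ℤ) + 1 ≤ ((a.1 + a.2 : ℕ) : ℤ) := by exact_mod_cast hlt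
        have h2 := mul_le_mul_of_nonneg_left h1 (by positivity : (0 : ℤ) ≤ 84 * (uu G : ℤ))
        rw [mul_add] at h2
        omega
    rw [e1] at a3 a4
    have e2 : a.1 = b.1 := by
      by_contra hne
      rcases Nat.lt_or_gt_of_ne hne with hlt | hlt
      · have h1 : (a.1 : ℤ) + 1 ≤ (b.1 : ℤ) := by exact_mod_cast hlt
        have h2 := mul_le_mul_of_nonneg_left h1 (by positivity : (0 : ℤ) ≤ 29 * (uu G : ℤ))
        rw [mul_add] at h2
        omega
      · have h1 : (b.1 : ℤ) + 1 ≤ (a.1 : ℤ) := by exact_mod_cast hlt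
        have h2 := mul_le_mul_of_nonneg_left h1 (by positivity : (0 : ℤ) ≤ 29 * (uu G : ℤ))
        rw [mul_add] at h2
        omega
    exact hab (Prod.ext e2 (by omega))
  apply fold_of_path hC (fullPath G v h) (gword G) (hFL G v h hG hsol) (hFP G v h hG hsol)
    (hFN G v h hG hsol) (I.biUnion X)
  · intro p
    rw [hFH G v h hG hsol p, Finset.mem_biUnion]
    constructor
    · rintro ⟨c, i, h1, h2, h3, h4, q, hq, rfl⟩
      exact ⟨(c, i), (hmemI _).2 ⟨h1, h2, h3, h4⟩, Finset.mem_image.2 ⟨q, hq, rfl⟩⟩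
    · rintro ⟨x, hx, hp⟩
      obtain ⟨h1, h2, h3, h4⟩ := (hmemI x).1 hx
      obtain ⟨q, hq, rfl⟩ := Finset.mem_image.1 hp
      exact ⟨x.1, x.2, h1, h2, h3, h4, q, hq, rfl⟩
  · refine le_trans ?_ (edges_biUnion I X hdisj)
    have h1 : ∑ x ∈ I, (2 * (pp G x.1 x.2 - 2) + 2 * (cc G x.1 x.2 - 2) + (cc G x.1 x.2 - 1)) ≤
        ∑ x ∈ I, edges (X x) := by
      apply Finset.sum_le_sum
      intro x hx
      obtain ⟨h1, h2, h3, h4⟩ := (hmemI x).1 hx
      rw [hX]
      simp only
      rw [edges_image_add]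
      exact hex_edges hG hex hHC hHE v h (hok x) h1 h2 h3 h4
    refine le_trans (le_of_eq ?_) h1
    have hgK : gK G = ∑ x ∈ I, 2 * (pp G x.1 x.2 - 2) + ∑ x ∈ I, 2 * (cc G x.1 x.2 - 2) := by
      unfold gK
      rw [hK, ← Finset.sum_filter_add_sum_filter_not _ (fun j => j.item = true)]
      congr 1
      · have e1 : ∀ j ∈ (labels (toks G)).toFinset.filter (fun j => j.item = true),
            (if (bd G).item j = true then 2 * (bd G).size j else 2 * ((bd G).size j - 2)) =
            2 * Lab.size G j := by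
          intro j hj
          have hj2 : (bd G).item j = true := (Finset.mem_filter.1 hj).2
          have hj3 : (bd G).size j = Lab.size G j := rfl
          rw [if_pos hj2, hj3]
        rw [Finset.sum_congr rfl e1, ← Finset.mul_sum, hsum, ← Finset.mul_sum, hIdef,
          Finset.sum_product]
      · have e0 : (labels (toks G)).toFinset.filter (fun j => ¬ j.item = true) =
            (labels (toks G)).toFinset.filter (fun j => j.item = false) := by
          apply Finset.filter_congr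
          intro j _
          simp
        rw [e0, sum_chords _ hJ, hIdef, Finset.sum_product]
        refine Finset.sum_congr rfl fun c _ => ?_
        refine Finset.sum_congr rfl fun i _ => ?_
        exact K_ch G c i
    have hhg : hh (gword G) = ∑ x ∈ I, (cc G x.1 x.2 - 1) := by
      unfold gword
      rw [hhh, ← Finset.sum_filter_add_sum_filter_not _ (fun j => j.item = true)]
      have e1 : ∀ j ∈ (labels (toks G)).toFinset.filter (fun j => j.item = true),
            (if (bd G).item j = true then 0 else (bd G).size j - 1) = 0 := by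
          intro j hj
          have hj2 : (bd G).item j = true := (Finset.mem_filter.1 hj).2
          rw [if_pos hj2]
      rw [Finset.sum_congr rfl e1, Finset.sum_const_zero, zero_add]
      have e0 : (labels (toks G)).toFinset.filter (fun j => ¬ j.item = true) =
            (labels (toks G)).toFinset.filter (fun j => j.item = false) := by
        apply Finset.filter_congr
        intro j _
        simp
      rw [e0, sum_chords _ hJ, hIdef, Finset.sum_product]
      refine Finset.sum_congr rfl fun c _ => ?_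
      refine Finset.sum_congr rfl fun i _ => ?_
      exact hh_ch G c i
    rw [hgK, hhg, ← Finset.sum_add_distrib, ← Finset.sum_add_distrib]

end Pool.Agent.H329
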