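import Pool.Agent.H329.Sums

/-!
# The bins of a solved instance are admissible
-/

namespace Pool.Agent.H329

open Finset NumAux

attribute [-instance] Int.instConditionallyCompleteLinearOrder

theorem BinOk_proof : S_BinOk := by
  intro G v h hG hs s c
  have hD := D0_le G
  have hu : 100 ≤ uu G := by omega
  unfold binOf
  by_cases hr : real G s c = true
  · rw [if_pos hr]
    refine ⟨?_, hr.symm⟩
    unfold real at hr
    rw [decide_eq_true_eq] at hr
    obtain ⟨h1, h2, h3, h4, h5⟩ := hr
    have hS := sides hG h2 h3 h4 h5
    have w1 := hG.w_range (c - 1) (s - c)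
    have v1 := hs.v_le (c - 1) (s - c)
    have g1 := hs.h_le c (s - c)
    have g2 := hs.h_le c (s - c - 1)
    obtain ⟨T1, T2, UR1, UR2, LL1, LL2, UL1, UL2, ⟨k1, o1⟩, ⟨k2, o2⟩⟩ := hS
    constructor <;> try dsimp only [BinP.y1]
    · omega
    · omega
    · omega
    · omega
    · omega
    · omega
    · omega
    · omega
    · omega
    · split_ifs <;> omega
    · split_ifs <;> omega
    · omega
    · omega
    · omega
    · omega
    · omega
    · omega
    · omega
    · omega
    · split_ifs <;> omega
    · split_ifs <;> omega
    · omega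
  · rw [if_neg hr]
    refine ⟨?_, by simpa using hr⟩
    constructor <;> (try dsimp only [defBin, BinP.y1]) <;> omega

end Pool.Agent.H329
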