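import Pool.Agent.H329.Spec

/-!
Project HP folding (MP_dec383_lc), job ChgSum. Owner helper329.
Proof: bijection (v,i) -> (x,e) = (v + dir (i+1), i+4) from {(v,i): v in S, v + dir i not in S} to {(x,e): x + dir e in S, x + dir (e+1) not in S}:
indeed x + dir (i+4) = v (dir (i+4) = - dir (i+1)) and x + dir (i+5) = v + dir (i+1) + dir (i+5) = v + dir i. Inverse (x,e) -> (x + dir e, e+2).
Sum over x in U of chg S x counts the second set, because chg S x = 0 unless x is adjacent to S, i.e. x in nbhd S. The identities of dir are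
checked by `decide`/`fin_cases`.
Keep the statement of TARGET unchanged; auxiliary lemmas before it, in namespace Pool.Agent.H329.ChgSumAux.
-/

namespace Pool.Agent.H329


open Finset



namespace ChgSumAux

theorem dir4 (i : Fin 6) (v : Pt) : v + dir (i + 1) + dir (i + 4) = v := by
  obtain ⟨a, b⟩ := v
  fin_cases i <;> simp [dir]

theorem dir5 (i : Fin 6) (v : Pt) : v + dir (i + 1) + dir (i + 4 + 1) = v + dir i := by
  obtain ⟨a, b⟩ := v
  fin_cases i <;> simp [dir]

theorem dir2 (e : Fin 6) (x : Pt) : x + dir e + dir (e + 2 + 1) = x := by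
  obtain ⟨a, b⟩ := x
  fin_cases e <;> simp [dir]

theorem dir3 (e : Fin 6) (x : Pt) : x + dir e + dir (e + 2) = x + dir (e + 1) := by
  obtain ⟨a, b⟩ := x
  fin_cases e <;> simp [dir]

theorem fin1 (i : Fin 6) : i + 4 + 2 = i := by revert i; decide
theorem fin2 (i : Fin 6) : i + 2 + 4 = i := by revert i; decide

end ChgSumAux

open ChgSumAux in
/-- TARGET -/
theorem ChgSum_proof : S_ChgSum := by
  intro S U hU
  have h1 : ∑ x ∈ U, chg S x =
      ((U ×ˢ (univ : Finset (Fin 6))).filter fun q => q.1 + dir q.2 ∈ S ∧ q.1 + dir (q.2 + 1) ∉ S).card := by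
    unfold chg
    rw [← Finset.card_sigma]
    refine Finset.card_bij (fun a _ => (a.1, a.2)) ?_ ?_ ?_
    · rintro ⟨x, e⟩ h
      simpa using h
    · rintro ⟨x, e⟩ _ ⟨x', e'⟩ _ h
      simp only [Prod.mk.injEq] at h
      obtain ⟨rfl, rfl⟩ := h
      rfl
    · rintro ⟨x, e⟩ h
      exact ⟨⟨x, e⟩, by simpa using h, rfl⟩
  rw [h1]
  unfold bdry
  refine Finset.card_nbij' (fun q => (q.1 + dir (q.2 + 1), q.2 + 4))
    (fun q => (q.1 + dir q.2, q.2 + 2)) ?_ ?_ ?_ ?_
  · rintro ⟨v, i⟩ h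
    simp only [coe_filter, mem_product, mem_univ, and_true, Set.mem_ofPred_eq] at h ⊢
    refine ⟨hU ?_, ?_, ?_⟩
    · unfold nbhd
      refine mem_union_right _ (mem_biUnion.2 ⟨v, h.1, mem_image.2 ⟨i + 1, mem_univ _, rfl⟩⟩)
    · rw [dir4]; exact h.1
    · rw [dir5]; exact h.2
  · rintro ⟨x, e⟩ h
    simp only [coe_filter, mem_product, mem_univ, and_true, Set.mem_ofPred_eq] at h ⊢
    refine ⟨h.2.1, ?_⟩
    rw [dir3]; exact h.2.2
  · rintro ⟨v, i⟩ h
    simp only [Prod.mk.injEq]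
    exact ⟨dir4 i v, fin1 i⟩
  · rintro ⟨x, e⟩ h
    simp only [Prod.mk.injEq]
    exact ⟨dir2 e x, fin2 e⟩

end Pool.Agent.H329
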