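import Pool.Agent.H329.Spec

/-!
Project HP folding (MP_dec383_lc), job CodeLe. Owner helper329.
Proof: code G x = sum_{e<24} (x*R)^e <= 24 (n0*R)^24 because (x R)^e <= (n0 R)^e <= (n0 R)^24 as n0 R >= 1; D0 = 32*(24*(n0*R)^24) + 4.
Keep the statement of TARGET unchanged; auxiliary lemmas before it, in namespace Pool.Agent.H329.CodeLeAux.
-/

namespace Pool.Agent.H329



open Finset



/-- TARGET -/
theorem CodeLe_proof : S_CodeLe := by
  intro G x hx
  have hR : 1 ≤ RR G := by unfold RR; omega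
  have hn : 1 ≤ n0 G := by unfold n0; omega
  have h1 : 1 ≤ n0 G * RR G := Nat.mul_pos hn hR
  have h2 : code G x ≤ 24 * (n0 G * RR G) ^ 24 := by
    unfold code
    have h3 : ∀ e ∈ range 24, (x * RR G) ^ e ≤ (n0 G * RR G) ^ 24 := by
      intro e he
      have he' : e ≤ 24 := (Finset.mem_range.1 he).le
      calc (x * RR G) ^ e ≤ (n0 G * RR G) ^ e := Nat.pow_le_pow_left (Nat.mul_le_mul_right _ hx) e
        _ ≤ (n0 G * RR G) ^ 24 := Nat.pow_le_pow_right h1 he'
    calc ∑ e ∈ range 24, (x * RR G) ^ e ≤ (range 24).card • (n0 G * RR G) ^ 24 :=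
          Finset.sum_le_card_nsmul _ _ _ h3
      _ = 24 * (n0 G * RR G) ^ 24 := by rw [Finset.card_range, smul_eq_mul]
  unfold D0
  omega

end Pool.Agent.H329
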