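import Pool.Agent.H329.Spec

/-!
Project HP folding (MP_dec383_lc), job Codes. Owner helper329.
Proof. Let R = RR G = 24 n0^24 + 1. code x = sum_{e<24} x^e R^e. Sum over P: sum_e R^e (sum_{x in P} x^e) and every digit sum_{x in P} x^e <= 24 n0^23 < R (n0 >= 1), same for
Q. So by uniqueness of base R digits sum_{x in P} x^e = sum_{x in Q} x^e for all e < 24. Hence for every integer polynomial f of degree <= 23 (natDegree < 24):
sum_{x in P} f(x) = sum_{x in Q} f(x). Let a be a value occurring in P or Q, E = the set of values (toFinset) of P + Q, |E| <= 24; f = prod_{b in E, b != a} (X - b) has degree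
<= 23, so count a P * prod (a-b) = count a Q * prod (a-b) and the product is nonzero; so count a P = count a Q. Hence P = Q (Multiset.ext).
Keep the statement of TARGET unchanged; auxiliary lemmas before it, in namespace Pool.Agent.H329.CodesAux.
-/

namespace Pool.Agent.H329



open Finset




namespace CodesAux

theorem digits_unique (R : ℕ) (hR : 0 < R) : ∀ (n : ℕ) (a b : ℕ → ℕ), (∀ e < n, a e < R) →
    (∀ e < n, b e < R) → ∑ e ∈ range n, a e * R ^ e = ∑ e ∈ range n, b e * R ^ e →
    ∀ e < n, a e = b e := by
  intro n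
  induction n with
  | zero => intro a b _ _ _ e he; omega
  | succ n ih =>
    intro a b ha hb h e he
    rw [sum_range_succ', sum_range_succ'] at h
    simp only [pow_zero, mul_one, pow_succ] at h
    have e1 : ∀ c : ℕ → ℕ, ∑ k ∈ range n, c (k + 1) * (R ^ k * R) =
        R * ∑ k ∈ range n, c (k + 1) * R ^ k := by
      intro c
      rw [mul_sum]
      exact sum_congr rfl fun k _ => by ring
    rw [e1, e1] at h
    have h0 : a 0 = b 0 := by
      have := congrArg (· % R) h
      simp only [Nat.mul_add_mod] at this
      rwa [Nat.mod_eq_of_lt (ha 0 (by omega)), Nat.mod_eq_of_lt (hb 0 (by omega))] at this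
    have h1 : ∑ k ∈ range n, a (k + 1) * R ^ k = ∑ k ∈ range n, b (k + 1) * R ^ k := by
      rw [h0] at h
      exact Nat.eq_of_mul_eq_mul_left hR (Nat.add_right_cancel h)
    rcases e with _ | e
    · exact h0
    · exact ih (fun k => a (k + 1)) (fun k => b (k + 1)) (fun k hk => ha _ (by omega))
        (fun k hk => hb _ (by omega)) h1 e (by omega)

theorem sum_code (G : Grid) (P : Multiset ℕ) :
    (P.map (code G)).sum = ∑ e ∈ range 24, (P.map fun x => x ^ e).sum * RR G ^ e := by
  induction P using Multiset.induction_on with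
  | empty => simp
  | cons a P ih =>
    simp only [Multiset.map_cons, Multiset.sum_cons, ih, add_mul, sum_add_distrib]
    have hcode : code G a = ∑ e ∈ range 24, a ^ e * RR G ^ e := by
      unfold code
      exact sum_congr rfl fun e _ => by rw [mul_pow]
    rw [hcode]

theorem n0_pos (G : Grid) : 1 ≤ n0 G := by unfold n0; omega

theorem psum_lt (G : Grid) (P : Multiset ℕ) (hP : ∀ x ∈ P, x ≤ n0 G) (hc : P.card ≤ 24) (e : ℕ)
    (he : e < 24) : (P.map fun x => x ^ e).sum < RR G := by
  have h1 : (P.map fun x => x ^ e).sum ≤ P.card • (n0 G ^ 24) := by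
    have := Multiset.sum_le_card_nsmul (P.map fun x => x ^ e) (n0 G ^ 24) ?_
    · simpa using this
    · intro y hy
      rw [Multiset.mem_map] at hy
      obtain ⟨x, hx, rfl⟩ := hy
      calc x ^ e ≤ n0 G ^ e := Nat.pow_le_pow_left (hP x hx) e
        _ ≤ n0 G ^ 24 := Nat.pow_le_pow_right (n0_pos G) he.le
  unfold RR
  rw [smul_eq_mul] at h1
  have h2 : P.card * n0 G ^ 24 ≤ 24 * n0 G ^ 24 := Nat.mul_le_mul_right _ hc
  omega

theorem eval_sum (P : Multiset ℕ) (f : Polynomial ℤ) (hf : f.natDegree < 24) :
    (P.map fun x : ℕ => f.eval (x : ℤ)).sum =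
      ∑ e ∈ range 24, f.coeff e * (((P.map fun x => x ^ e).sum : ℕ) : ℤ) := by
  induction P using Multiset.induction_on with
  | empty => simp
  | cons a P ih =>
    simp only [Multiset.map_cons, Multiset.sum_cons, ih, Nat.cast_add, mul_add, sum_add_distrib]
    congr 1
    rw [Polynomial.eval_eq_sum_range' hf]
    push_cast
    rfl

theorem eval_sum_count (P : Multiset ℕ) (a : ℕ) (f : ℕ → ℤ) (h : ∀ x ∈ P, x ≠ a → f x = 0) :
    (P.map f).sum = P.count a * f a := by
  induction P using Multiset.induction_on with
  | empty => simp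
  | cons b P ih =>
    rw [Multiset.map_cons, Multiset.sum_cons, ih fun x hx => h x (Multiset.mem_cons_of_mem hx)]
    by_cases hb : b = a
    · subst hb
      rw [Multiset.count_cons_self]
      push_cast
      ring
    · rw [h b (Multiset.mem_cons_self b P) hb, Multiset.count_cons_of_ne (Ne.symm hb), zero_add]

end CodesAux

open CodesAux

/-- TARGET -/
theorem Codes_proof : S_Codes := by
  intro G P Q hP hQ hc hs
  rw [sum_code, sum_code] at hs
  have hR : 0 < RR G := by unfold RR; omega
  have hd := digits_unique (RR G) hR 24 _ _ (fun e he => psum_lt G P hP (by omega) e he)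
    (fun e he => psum_lt G Q hQ (by omega) e he) hs
  ext a
  by_cases ha : a ∈ P + Q
  · set E := (P + Q).toFinset.erase a with hE
    have hEc : E.card ≤ 23 := by
      rw [hE, card_erase_of_mem (Multiset.mem_toFinset.2 ha)]
      have := Multiset.toFinset_card_le (P + Q)
      rw [Multiset.card_add] at this
      omega
    set f : Polynomial ℤ := ∏ b ∈ E, (Polynomial.X - Polynomial.C (b : ℤ)) with hf
    have hdeg : f.natDegree < 24 := by
      rw [hf, Polynomial.natDegree_prod_of_monic _ _ fun b _ => Polynomial.monic_X_sub_C _]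
      simp only [Polynomial.natDegree_X_sub_C, sum_const, smul_eq_mul, mul_one]
      omega
    have h0 : ∀ x ∈ P + Q, x ≠ a → f.eval (x : ℤ) = 0 := by
      intro x hx hxa
      rw [hf, Polynomial.eval_prod]
      refine prod_eq_zero (i := x) ?_ (by simp)
      rw [hE, mem_erase, Multiset.mem_toFinset]
      exact ⟨hxa, hx⟩
    have hne : f.eval (a : ℤ) ≠ 0 := by
      rw [hf, Polynomial.eval_prod, prod_ne_zero_iff]
      intro b hb
      rw [hE, mem_erase] at hb
      simp only [Polynomial.eval_sub, Polynomial.eval_X, Polynomial.eval_C]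
      intro h
      exact hb.1 (by exact_mod_cast (sub_eq_zero.1 h).symm)
    have e1 : (P.map fun x : ℕ => f.eval (x : ℤ)).sum = (Q.map fun x : ℕ => f.eval (x : ℤ)).sum := by
      rw [eval_sum P f hdeg, eval_sum Q f hdeg]
      exact sum_congr rfl fun e he => by rw [hd e (mem_range.1 he)]
    rw [eval_sum_count P a (fun x : ℕ => f.eval (x : ℤ)) fun x hx => h0 x (Multiset.mem_add.2 (Or.inl hx)),
      eval_sum_count Q a (fun x : ℕ => f.eval (x : ℤ)) fun x hx => h0 x (Multiset.mem_add.2 (Or.inr hx))] at e1
    exact_mod_cast mul_right_cancel₀ hne e1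
  · rw [Multiset.mem_add, not_or] at ha
    rw [Multiset.count_eq_zero_of_notMem ha.1, Multiset.count_eq_zero_of_notMem ha.2]

end Pool.Agent.H329
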