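import Pool.Agent.H329.Spec
import Pool.Agent.H329.ChgSum

/-!
Project HP folding (MP_dec383_lc), job Euler. Owner helper329.
Proof (paper 123, section 1(b)). Let f0 = |S|, m(v) = #{d: v + dir d in S}, tri(v) = #{d: v + dir d in S and v + dir (d+1) in S} for v in S. Then
bdry S = 6 f0 - sum m(v), and sum_{v in S} chg S v = sum_{v in S} (m(v) - tri(v)). So bdry S - 2 sum chg = 6 f0 - 3 sum m + 2 sum tri.
sum m = 2 f1, f1 = sum over d in {2,3,4} of #{v in S: v + dir d in S} (d and d+3 equal by translation); sum tri = 3 f2, where f2 = #{v in S: v+dir 2, v+dir 3 in S}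
+ #{v in S: v+dir 3, v+dir 4 in S} (the six counts #{v: v, v+dir d, v+dir (d+1) in S} for d even are equal to each other by translation, same for d odd; d=2 even,
d=3 odd). So the claim is f0 - f1 + f2 <= 1. Lexicographic order on Z x Z (first coordinate, then second): dir 2 = (-1,1), dir 3 = (-1,0), dir 4 = (0,-1)
lead to smaller points. For v in S choose: edge v -- v+dir 2 if v+dir 2 in S; edge v -- v+dir 3 if v+dir 3 in S and v+dir 2 not in S; edge v -- v+dir 4 if
v+dir 4 in S and v+dir 3 not in S. The number of chosen edges is exactly f1 - f2. The chosen edges connect S: by strong induction along the lexicographic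
order every v in S is connected by chosen edges to each of its smaller neighbours u in S (if the edge was not chosen, u = v+dir 3 and v+dir 2 in S, and v+dir 2,
v+dir 3 are adjacent and both smaller than v; similarly dir 4, dir 3). Since S is connected (Conn S), the graph of chosen edges on S is connected, hence has
at least f0 - 1 edges (Mathlib: SimpleGraph.Connected.card_vert_le_card_edgeSet_add_one), so f1 - f2 >= f0 - 1.
Keep the statement of TARGET unchanged; auxiliary lemmas before it, in namespace Pool.Agent.H329.EulerAux.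
-/

namespace Pool.Agent.H329


open Finset








namespace EulerAux

/-- number of points whose neighbour in direction `d` is in `S` -/
def Ac (S : Finset Pt) (d : Fin 6) : ℕ := (S.filter fun v => v + dir d ∈ S).card

/-- number of triangles -/
def Tc (S : Finset Pt) (d : Fin 6) : ℕ :=
  (S.filter fun v => v + dir d ∈ S ∧ v + dir (d + 1) ∈ S).card

theorem dir_add_three (d : Fin 6) : dir d + dir (d + 3) = 0 := by
  fin_cases d <;> simp [dir]

theorem dir_add_two (d : Fin 6) : dir d + dir (d + 2) = dir (d + 1) := by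
  fin_cases d <;> simp [dir]

theorem Ac_add_three (S : Finset Pt) (d : Fin 6) : Ac S d ≤ Ac S (d + 3) := by
  unfold Ac
  apply Finset.card_le_card_of_injOn (fun v => v + dir d)
  · intro v hv
    rw [Finset.coe_filter, Set.mem_ofPred_eq] at hv
    rw [Finset.coe_filter, Set.mem_ofPred_eq, add_assoc, dir_add_three, add_zero]
    exact ⟨hv.2, hv.1⟩
  · intro v _ w _ h
    exact add_right_cancel h

theorem Tc_add_two (S : Finset Pt) (d : Fin 6) : Tc S d ≤ Tc S (d + 2) := by
  unfold Tc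
  apply Finset.card_le_card_of_injOn (fun v => v + dir d)
  · intro v hv
    rw [Finset.coe_filter, Set.mem_ofPred_eq] at hv
    have h3 : d + 2 + 1 = d + 3 := by rw [add_assoc]; rfl
    rw [Finset.coe_filter, Set.mem_ofPred_eq, h3, add_assoc, add_assoc, dir_add_three, add_zero,
      dir_add_two]
    exact ⟨hv.2.1, hv.2.2, hv.1⟩
  · intro v _ w _ h
    exact add_right_cancel h

theorem bdry_add (S : Finset Pt) : bdry S + ∑ d : Fin 6, Ac S d = 6 * S.card := by
  have h1 : bdry S = ∑ d : Fin 6, (S.filter fun v => ¬ (v + dir d ∈ S)).card := by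
    unfold bdry
    rw [Finset.card_filter, Finset.sum_product_right]
    apply Finset.sum_congr rfl
    intro d _
    rw [Finset.card_filter]
  rw [h1, ← Finset.sum_add_distrib]
  have h2 : ∀ d : Fin 6, (S.filter fun v => ¬ (v + dir d ∈ S)).card + Ac S d = S.card := by
    intro d
    unfold Ac
    rw [add_comm]
    exact Finset.card_filter_add_card_filter_not _
  rw [Finset.sum_congr rfl fun d _ => h2 d, Finset.sum_const, Finset.card_univ, Fintype.card_fin,
    smul_eq_mul]

theorem chg_add (S : Finset Pt) :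
    ∑ x ∈ S, chg S x + ∑ d : Fin 6, Tc S d = ∑ d : Fin 6, Ac S d := by
  have h1 : ∑ x ∈ S, chg S x =
      ∑ d : Fin 6, (S.filter fun v => v + dir d ∈ S ∧ v + dir (d + 1) ∉ S).card := by
    simp only [chg, Finset.card_filter]
    exact Finset.sum_comm
  rw [h1, ← Finset.sum_add_distrib]
  apply Finset.sum_congr rfl
  intro d _
  unfold Tc Ac
  rw [Finset.card_filter, Finset.card_filter, Finset.card_filter, ← Finset.sum_add_distrib]
  apply Finset.sum_congr rfl
  intro v _
  by_cases h2 : v + dir d ∈ S <;> by_cases h3 : v + dir (d + 1) ∈ S <;> simp [h2, h3]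

/-- the chosen edges -/
def Ch (S : Finset Pt) (v : Pt) (d : Fin 6) : Prop :=
  v + dir d ∈ S ∧ (d = 2 ∨ (d = 3 ∧ v + dir 2 ∉ S) ∨ (d = 4 ∧ v + dir 3 ∉ S))

/-- the graph of the chosen edges -/
def Gr (S : Finset Pt) : SimpleGraph {x : Pt // x ∈ S} where
  Adj u v := u ≠ v ∧ ∃ d, (Ch S u.1 d ∧ v.1 = u.1 + dir d) ∨ (Ch S v.1 d ∧ u.1 = v.1 + dir d)
  symm := ⟨fun _ _ h => ⟨h.1.symm, h.2.imp fun _ h' => h'.symm⟩⟩
  loopless := ⟨fun _ h => h.1 rfl⟩

theorem add_dir_ne (v : Pt) (d : Fin 6) : v + dir d ≠ v := by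
  intro h
  have h1 : dir d = 0 := by simpa using h
  revert h1
  fin_cases d <;> simp [dir]

theorem reach_step (S : Finset Pt) (u v : {x : Pt // x ∈ S}) (d : Fin 6) (h : Ch S u.1 d)
    (hv : v.1 = u.1 + dir d) : (Gr S).Reachable u v := by
  apply SimpleGraph.Adj.reachable
  refine ⟨?_, d, Or.inl ⟨h, hv⟩⟩
  intro h1
  rw [h1] at hv
  exact add_dir_ne _ _ hv.symm

theorem d24 : dir 2 + dir 4 = dir 3 := by simp [dir]
theorem d42 : dir 4 + dir 2 = dir 3 := by simp [dir]

theorem reach_all (S : Finset Pt) (m : ℤ) (hm : ∀ v ∈ S, m ≤ v.1) :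
    ∀ n : ℕ, ∀ u : {x : Pt // x ∈ S}, u.1.1 < m + n → ∀ (d : Fin 6), d = 2 ∨ d = 3 ∨ d = 4 →
      ∀ v : {x : Pt // x ∈ S}, v.1 = u.1 + dir d → (Gr S).Reachable u v := by
  intro n
  induction n with
  | zero =>
    intro u hu
    have := hm u.1 u.2
    simp at hu
    omega
  | succ n ih =>
    intro u hu
    have hd2 : ∀ v : {x : Pt // x ∈ S}, v.1 = u.1 + dir 2 → (Gr S).Reachable u v := by
      intro v hv
      exact reach_step S u v 2 ⟨by rw [← hv]; exact v.2, Or.inl rfl⟩ hv
    have hd3 : ∀ v : {x : Pt // x ∈ S}, v.1 = u.1 + dir 3 → (Gr S).Reachable u v := by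
      intro v hv
      by_cases h2 : u.1 + dir 2 ∈ S
      · obtain ⟨w, hw⟩ : ∃ w : {x : Pt // x ∈ S}, w.1 = u.1 + dir 2 := ⟨⟨_, h2⟩, rfl⟩
        have h3 : (Gr S).Reachable w v := by
          apply ih w _ 4 (by simp) v
          · rw [hv, hw, add_assoc, d24]
          · rw [hw]
            have : (u.1 + dir 2).1 = u.1.1 - 1 := by
              simp [dir]
              omega
            rw [this]
            push_cast at hu
            omega
        exact (hd2 w hw).trans h3
      · exact reach_step S u v 3 ⟨by rw [← hv]; exact v.2, Or.inr (Or.inl ⟨rfl, h2⟩)⟩ hv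
    have hd4 : ∀ v : {x : Pt // x ∈ S}, v.1 = u.1 + dir 4 → (Gr S).Reachable u v := by
      intro v hv
      by_cases h3 : u.1 + dir 3 ∈ S
      · obtain ⟨w, hw⟩ : ∃ w : {x : Pt // x ∈ S}, w.1 = u.1 + dir 3 := ⟨⟨_, h3⟩, rfl⟩
        have h4 : w.1 = v.1 + dir 2 := by rw [hw, hv, add_assoc, d42]
        have h5 : (Gr S).Reachable v w :=
          reach_step S v w 2 ⟨by rw [← h4]; exact w.2, Or.inl rfl⟩ h4
        exact (hd3 w hw).trans h5.symm
      · exact reach_step S u v 4 ⟨by rw [← hv]; exact v.2, Or.inr (Or.inr ⟨rfl, h3⟩)⟩ hv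
    rintro d (rfl | rfl | rfl)
    · exact hd2
    · exact hd3
    · exact hd4

theorem gr_connected (S : Finset Pt) (hne : S.Nonempty) (hS : Conn S) : (Gr S).Connected := by
  obtain ⟨m, hm⟩ : ∃ m : ℤ, ∀ v ∈ S, m ≤ v.1 := by
    obtain ⟨m, hm⟩ := (S.image Prod.fst).bddBelow
    exact ⟨m, fun v hv => hm (Finset.mem_coe.2 (Finset.mem_image_of_mem _ hv))⟩
  have hall : ∀ u v : {x : Pt // x ∈ S}, ∀ d : Fin 6, d = 2 ∨ d = 3 ∨ d = 4 →
      v.1 = u.1 + dir d → (Gr S).Reachable u v := by
    intro u v d hd hv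
    apply reach_all S m hm ((u.1.1 - m).toNat + 1) u _ d hd v hv
    have := hm u.1 u.2
    push_cast
    omega
  have hadj : ∀ u v : {x : Pt // x ∈ S}, Adj u.1 v.1 → (Gr S).Reachable u v := by
    intro u v huv
    obtain ⟨d, hd⟩ := (adj_iff_dir _ _).1 huv
    by_cases hd' : d = 2 ∨ d = 3 ∨ d = 4
    · exact hall u v d hd' hd
    · apply SimpleGraph.Reachable.symm
      apply hall v u (d + 3)
      · revert hd'
        fin_cases d <;> simp
      · rw [hd, add_assoc, dir_add_three, add_zero]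
  haveI : Nonempty {x : Pt // x ∈ S} := hne.to_subtype
  rw [SimpleGraph.connected_iff]
  refine ⟨?_, this⟩
  rintro ⟨p, hp⟩ ⟨q, hq⟩
  have key : ∀ q, Relation.ReflTransGen (fun a b => b ∈ S ∧ Adj a b) p q →
      ∃ hq : q ∈ S, (Gr S).Reachable ⟨p, hp⟩ ⟨q, hq⟩ := by
    intro q h
    induction h with
    | refl => exact ⟨hp, SimpleGraph.Reachable.refl _⟩
    | tail _ h2 ih =>
      obtain ⟨hb, h3⟩ := ih
      exact ⟨h2.1, h3.trans (hadj _ _ h2.2)⟩
  obtain ⟨_, h⟩ := key q (hS p hp q hq)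
  exact h

/-- the set of chosen edges -/
def Es (S : Finset Pt) : Finset (Pt × Fin 6) :=
  ((S.filter fun v => v + dir 2 ∈ S).image fun v => (v, (2 : Fin 6))) ∪
  (((S.filter fun v => v + dir 3 ∈ S ∧ v + dir 2 ∉ S).image fun v => (v, (3 : Fin 6))) ∪
  ((S.filter fun v => v + dir 4 ∈ S ∧ v + dir 3 ∉ S).image fun v => (v, (4 : Fin 6))))

theorem mem_Es (S : Finset Pt) (v : Pt) (d : Fin 6) (hv : v ∈ S) (h : Ch S v d) :
    (v, d) ∈ Es S := by
  unfold Es
  obtain ⟨h1, h2 | ⟨h2, h3⟩ | ⟨h2, h3⟩⟩ := h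
  · subst h2
    apply Finset.mem_union_left
    exact Finset.mem_image.2 ⟨v, Finset.mem_filter.2 ⟨hv, h1⟩, rfl⟩
  · subst h2
    apply Finset.mem_union_right
    apply Finset.mem_union_left
    exact Finset.mem_image.2 ⟨v, Finset.mem_filter.2 ⟨hv, h1, h3⟩, rfl⟩
  · subst h2
    apply Finset.mem_union_right
    apply Finset.mem_union_right
    exact Finset.mem_image.2 ⟨v, Finset.mem_filter.2 ⟨hv, h1, h3⟩, rfl⟩

theorem Es_card (S : Finset Pt) : (Es S).card + Tc S 2 + Tc S 3 ≤ Ac S 2 + Ac S 3 + Ac S 4 := by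
  have h1 : (Es S).card ≤ (S.filter fun v => v + dir 2 ∈ S).card +
      ((S.filter fun v => v + dir 3 ∈ S ∧ v + dir 2 ∉ S).card +
      (S.filter fun v => v + dir 4 ∈ S ∧ v + dir 3 ∉ S).card) := by
    unfold Es
    refine (Finset.card_union_le _ _).trans (add_le_add Finset.card_image_le ?_)
    exact (Finset.card_union_le _ _).trans (add_le_add Finset.card_image_le Finset.card_image_le)
  have h2 : (S.filter fun v => v + dir 3 ∈ S ∧ v + dir 2 ∉ S).card + Tc S 2 = Ac S 3 := by
    unfold Tc Ac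
    rw [Finset.card_filter, Finset.card_filter, Finset.card_filter, ← Finset.sum_add_distrib]
    apply Finset.sum_congr rfl
    intro v _
    have h23 : (2 : Fin 6) + 1 = 3 := rfl
    rw [h23]
    by_cases h2 : v + dir 2 ∈ S <;> by_cases h3 : v + dir 3 ∈ S <;> simp [h2, h3]
  have h3 : (S.filter fun v => v + dir 4 ∈ S ∧ v + dir 3 ∉ S).card + Tc S 3 = Ac S 4 := by
    unfold Tc Ac
    rw [Finset.card_filter, Finset.card_filter, Finset.card_filter, ← Finset.sum_add_distrib]
    apply Finset.sum_congr rfl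
    intro v _
    have h34 : (3 : Fin 6) + 1 = 4 := rfl
    rw [h34]
    by_cases h2 : v + dir 3 ∈ S <;> by_cases h3 : v + dir 4 ∈ S <;> simp [h2, h3]
  unfold Ac at h2 h3 ⊢
  omega

theorem card_le (S : Finset Pt) (hne : S.Nonempty) (hS : Conn S) : S.card ≤ (Es S).card + 1 := by
  classical
  have h1 := (gr_connected S hne hS).card_vert_le_card_edgeSet_add_one
  have h2 : Nat.card {x : Pt // x ∈ S} = S.card := by simp
  have h3 : Nat.card (Gr S).edgeSet ≤ (Es S).card := by
    have h4 : Sym2.map Subtype.val '' (Gr S).edgeSet ⊆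
        (((Es S).image fun q => s(q.1, q.1 + dir q.2) : Finset (Sym2 Pt)) : Set (Sym2 Pt)) := by
      rintro _ ⟨e, he, rfl⟩
      induction e with
      | _ u v =>
        rw [SimpleGraph.mem_edgeSet] at he
        obtain ⟨-, d, ⟨h5, h6⟩ | ⟨h5, h6⟩⟩ := he
        · rw [Finset.coe_image]
          refine ⟨(u.1, d), mem_Es S _ _ u.2 h5, ?_⟩
          rw [Sym2.map_mk, h6]
        · rw [Finset.coe_image]
          refine ⟨(v.1, d), mem_Es S _ _ v.2 h5, ?_⟩
          rw [Sym2.map_mk, h6]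
          exact Sym2.eq_swap
    have h7 := Set.ncard_le_ncard h4 (Finset.finite_toSet _)
    rw [Set.ncard_image_of_injective _ (Sym2.map.injective Subtype.val_injective),
      Set.ncard_coe_finset] at h7
    exact h7.trans Finset.card_image_le
  omega

end EulerAux

/-- TARGET -/
theorem Euler_proof : S_Euler := by
  intro S hne hS
  have h1 := EulerAux.bdry_add S
  have h2 := EulerAux.chg_add S
  have h3 := EulerAux.card_le S hne hS
  have h4 := EulerAux.Es_card S
  have a0 : EulerAux.Ac S 0 ≤ EulerAux.Ac S 3 := EulerAux.Ac_add_three S 0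
  have a1 : EulerAux.Ac S 1 ≤ EulerAux.Ac S 4 := EulerAux.Ac_add_three S 1
  have a2 : EulerAux.Ac S 2 ≤ EulerAux.Ac S 5 := EulerAux.Ac_add_three S 2
  have a3 : EulerAux.Ac S 3 ≤ EulerAux.Ac S 0 := EulerAux.Ac_add_three S 3
  have a4 : EulerAux.Ac S 4 ≤ EulerAux.Ac S 1 := EulerAux.Ac_add_three S 4
  have a5 : EulerAux.Ac S 5 ≤ EulerAux.Ac S 2 := EulerAux.Ac_add_three S 5
  have t0 : EulerAux.Tc S 0 ≤ EulerAux.Tc S 2 := EulerAux.Tc_add_two S 0
  have t1 : EulerAux.Tc S 1 ≤ EulerAux.Tc S 3 := EulerAux.Tc_add_two S 1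
  have t2 : EulerAux.Tc S 2 ≤ EulerAux.Tc S 4 := EulerAux.Tc_add_two S 2
  have t3 : EulerAux.Tc S 3 ≤ EulerAux.Tc S 5 := EulerAux.Tc_add_two S 3
  have t4 : EulerAux.Tc S 4 ≤ EulerAux.Tc S 0 := EulerAux.Tc_add_two S 4
  have t5 : EulerAux.Tc S 5 ≤ EulerAux.Tc S 1 := EulerAux.Tc_add_two S 5
  simp only [Fin.sum_univ_six] at h1 h2
  omega

end Pool.Agent.H329
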