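import Pool.Agent.H329.Spec

/-!
Project HP folding (MP_dec383_lc), job Iso. Owner helper329.
Isoperimetric inequality. Proof: let a,b,s be the numbers of values of p.1, p.2, p.1+p.2 on S. (i) bdry S >= 2(a+b+s): for each occupied line of
direction (1,0) (resp. (0,1), (-1,1)) the two extreme points of S on the line have a neighbour outside S in direction +-. (ii) If the numbers of
values of p.1, p.2, p.1+p.2 are at most a,b,s then 12|S| <= (a+b+s)^2+3, by induction on a+b+s (S empty is trivial; S nonempty gives a,b,s >= 1).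
Removing from S the points with maximal p.1 and the points with maximal p.1+p.2 deletes at most b points: for every value y, the candidates
(X,y) and (Z-y,y) are equal or not both in S (X = max p.1, Z = max (p.1+p.2)). Symmetrically, removing max p.2 and max (p.1+p.2) deletes at most a
points; removing max p.1 and min p.2 deletes at most s points (for a value z of p.1+p.2 the candidates (X,z-X) and (z-Y,Y): both in S forces
z-X>=Y and z-Y<=X so equal). Choose the version whose third number is the smallest, say b<=a,s: 12|S| <= 12 b + (a+b+s-2)^2+3 <= (a+b+s)^2+3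
when 3b+1 <= a+b+s, i.e. unless a=b=s. If a=b=s: the rest T' satisfies 12|T'| <= (3a-2)^2+3 = 9a^2-12a+7, and since 12 divides the left side,
12|T'| <= 9a^2-12a+3 (a even: 9a^2-12a+7 = 7 mod 12; a odd: = 4 mod 12), so 12|S| <= 12a+12|T'| <= 9a^2+3. (iii) combine: 48|S| <= (bdry S)^2+12.
Keep the statement of TARGET unchanged; auxiliary lemmas before it, in namespace Pool.Agent.H329.IsoAux.
-/

namespace Pool.Agent.H329


open Finset




namespace IsoAux

theorem line_le (S : Finset Pt) (d : Fin 6) (l h : Pt → ℤ) (hl : ∀ p, l (p + dir d) = l p)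
    (hh : ∀ p, h p < h (p + dir d)) :
    (S.image l).card ≤ (S.filter fun p => p + dir d ∉ S).card := by
  classical
  refine le_trans (card_le_card ?_) (card_image_le (f := l))
  intro y hy
  rw [mem_image] at hy ⊢
  obtain ⟨p, hp, hpy⟩ := hy
  obtain ⟨q, hq, hmax⟩ := exists_max_image (S.filter fun p => l p = y) h
    ⟨p, mem_filter.2 ⟨hp, hpy⟩⟩
  rw [mem_filter] at hq
  refine ⟨q, mem_filter.2 ⟨hq.1, fun hin => ?_⟩, hq.2⟩
  have := hmax _ (mem_filter.2 ⟨hin, by rw [hl]; exact hq.2⟩)
  have h2 := hh q
  omega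

theorem bdry_eq (S : Finset Pt) :
    bdry S = ∑ d : Fin 6, (S.filter fun p => p + dir d ∉ S).card := by
  classical
  unfold bdry
  rw [card_filter, sum_product_right]
  refine sum_congr rfl (fun d _ => ?_)
  rw [card_filter]

theorem bdry_ge (S : Finset Pt) : 2 * ((S.image Prod.fst).card + (S.image Prod.snd).card +
    (S.image fun p : Pt => p.1 + p.2).card) ≤ bdry S := by
  classical
  rw [bdry_eq, Fin.sum_univ_six]
  have h0 := line_le S 0 Prod.snd Prod.fst (fun p => by simp [dir]) (fun p => by simp [dir])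
  have h1 := line_le S 1 Prod.fst Prod.snd (fun p => by simp [dir]) (fun p => by simp [dir])
  have h2 := line_le S 2 (fun p => p.1 + p.2) Prod.snd (fun p => by simp [dir]; ring)
    (fun p => by simp [dir])
  have h3 := line_le S 3 Prod.snd (fun p => -p.1) (fun p => by simp [dir])
    (fun p => by simp [dir])
  have h4 := line_le S 4 Prod.fst (fun p => -p.2) (fun p => by simp [dir])
    (fun p => by simp [dir])
  have h5 := line_le S 5 (fun p => p.1 + p.2) (fun p => -p.2) (fun p => by simp [dir]; ring)
    (fun p => by simp [dir])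
  omega

/-- one removal step -/
theorem step (S : Finset Pt) (u v t : Pt → ℤ) (X Z : ℤ) (hX : X ∈ S.image u)
    (hZ : Z ∈ S.image v)
    (hinj : ∀ p ∈ S, ∀ q ∈ S, (u p = X ∨ v p = Z) → (u q = X ∨ v q = Z) → t p = t q → p = q) :
    ∃ S' : Finset Pt, S' ⊆ S ∧ S'.card < S.card ∧ (S'.image u).card + 1 ≤ (S.image u).card ∧
      (S'.image v).card + 1 ≤ (S.image v).card ∧ S.card ≤ S'.card + (S.image t).card := by
  classical
  refine ⟨S.filter fun p => ¬ (u p = X ∨ v p = Z), filter_subset _ _, ?_, ?_, ?_, ?_⟩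
  · obtain ⟨p, hp, hpX⟩ := mem_image.1 hX
    refine card_lt_card ⟨filter_subset _ _, fun h => ?_⟩
    have := (mem_filter.1 (h hp)).2
    exact this (Or.inl hpX)
  · have : (S.filter fun p => ¬ (u p = X ∨ v p = Z)).image u ⊆ (S.image u).erase X := by
      intro y hy
      obtain ⟨p, hp, rfl⟩ := mem_image.1 hy
      rw [mem_filter] at hp
      exact mem_erase.2 ⟨fun h => hp.2 (Or.inl h), mem_image_of_mem _ hp.1⟩
    have h1 := card_le_card this
    rw [card_erase_of_mem hX] at h1
    have h2 : 0 < (S.image u).card := card_pos.2 ⟨X, hX⟩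
    omega
  · have : (S.filter fun p => ¬ (u p = X ∨ v p = Z)).image v ⊆ (S.image v).erase Z := by
      intro y hy
      obtain ⟨p, hp, rfl⟩ := mem_image.1 hy
      rw [mem_filter] at hp
      exact mem_erase.2 ⟨fun h => hp.2 (Or.inr h), mem_image_of_mem _ hp.1⟩
    have h1 := card_le_card this
    rw [card_erase_of_mem hZ] at h1
    have h2 : 0 < (S.image v).card := card_pos.2 ⟨Z, hZ⟩
    omega
  · have h1 := card_filter_add_card_filter_not (s := S) (p := fun p => u p = X ∨ v p = Z)
    have h2 : (S.filter fun p => u p = X ∨ v p = Z).card ≤ (S.image t).card := by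
      rw [← card_image_of_injOn (s := S.filter fun p => u p = X ∨ v p = Z) (f := t)]
      · exact card_le_card (image_subset_image (filter_subset _ _))
      · intro p hp q hq hpq
        simp only [coe_filter, Set.mem_setOf_eq] at hp hq
        exact hinj p hp.1 q hq.1 hp.2 hq.2 hpq
    omega

theorem exists_max (S : Finset Pt) (hS : S.Nonempty) (u : Pt → ℤ) :
    ∃ X ∈ S.image u, ∀ p ∈ S, u p ≤ X := by
  obtain ⟨q, hq, hmax⟩ := exists_max_image S u hS
  exact ⟨u q, mem_image_of_mem _ hq, hmax⟩

theorem exists_min (S : Finset Pt) (hS : S.Nonempty) (u : Pt → ℤ) :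
    ∃ X ∈ S.image u, ∀ p ∈ S, X ≤ u p := by
  obtain ⟨q, hq, hmax⟩ := exists_min_image S u hS
  exact ⟨u q, mem_image_of_mem _ hq, hmax⟩

theorem arith {x x' m n n' : ℕ} (h1 : x ≤ x' + m) (h2 : 12 * x' ≤ n' ^ 2 + 3) (h3 : n' + 2 ≤ n)
    (h4 : 3 * m ≤ n) : 12 * x ≤ n ^ 2 + 3 := by
  rcases Nat.lt_or_ge (3 * m) n with h5 | h5
  · have h6 : n' ^ 2 ≤ (n - 2) ^ 2 := Nat.pow_le_pow_left (by omega) 2
    have h7 : 12 * x' ≤ (n - 2) ^ 2 + 3 := by omega
    obtain ⟨k, rfl⟩ : ∃ k, n = k + 2 := ⟨n - 2, by omega⟩
    simp only [Nat.add_sub_cancel] at h7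
    nlinarith
  · have h8 : n = 3 * m := by omega
    subst h8
    have h6 : n' ^ 2 ≤ (3 * m - 2) ^ 2 := Nat.pow_le_pow_left (by omega) 2
    have h7 : 12 * x' ≤ (3 * m - 2) ^ 2 + 3 := by omega
    obtain ⟨k, rfl⟩ : ∃ k, m = k + 1 := ⟨m - 1, by omega⟩
    have e : 3 * (k + 1) - 2 = 3 * k + 1 := by omega
    rw [e] at h7
    rcases Nat.even_or_odd' k with ⟨c, rfl | rfl⟩
    · have h9 : 12 * x' ≤ 36 * (c * c) + 12 * c + 4 := by nlinarith
      have h10 : 12 * x' ≤ 36 * (c * c) + 12 * c := by omega
      nlinarith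
    · have h9 : 12 * x' ≤ 36 * (c * c) + 48 * c + 19 := by nlinarith
      have h10 : 12 * x' ≤ 36 * (c * c) + 48 * c + 12 := by omega
      nlinarith

theorem main : ∀ (k : ℕ) (S : Finset Pt), S.card ≤ k → 12 * S.card ≤
    ((S.image Prod.fst).card + (S.image Prod.snd).card +
      (S.image fun p : Pt => p.1 + p.2).card) ^ 2 + 3 := by
  classical
  intro k
  induction k with
  | zero =>
    intro S hS
    have : S.card = 0 := by omega
    rw [this]; omega
  | succ k ih =>
    intro S hS
    rcases S.eq_empty_or_nonempty with rfl | hne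
    · simp
    obtain ⟨X, hX, hX'⟩ := exists_max S hne Prod.fst
    obtain ⟨Y, hY, hY'⟩ := exists_max S hne Prod.snd
    obtain ⟨Z, hZ, hZ'⟩ := exists_max S hne (fun p : Pt => p.1 + p.2)
    obtain ⟨Y₀, hY₀, hY₀'⟩ := exists_min S hne Prod.snd
    set a := (S.image Prod.fst).card with ha
    set b := (S.image Prod.snd).card with hb
    set s := (S.image fun p : Pt => p.1 + p.2).card with hs
    have hmin : (b ≤ a ∧ b ≤ s) ∨ (a ≤ b ∧ a ≤ s) ∨ (s ≤ a ∧ s ≤ b) := by omega
    rcases hmin with hm | hm | hm
    · obtain ⟨S', hsub, hlt, h1, h2, h3⟩ := step S Prod.fst (fun p : Pt => p.1 + p.2) Prod.snd X Z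
        hX hZ (by
          rintro ⟨p1, p2⟩ hp ⟨q1, q2⟩ hq hp' hq' hpq
          have a1 := hX' _ hp; have a2 := hX' _ hq
          have a3 := hZ' _ hp; have a4 := hZ' _ hq
          simp only at *
          subst hpq
          have : p1 = q1 := by rcases hp' with h | h <;> rcases hq' with h' | h' <;> omega
          rw [this])
      have h4 : (S'.image Prod.snd).card ≤ b := card_le_card (image_subset_image hsub)
      exact arith h3 (ih S' (by omega)) (by omega) (by omega)
    · obtain ⟨S', hsub, hlt, h1, h2, h3⟩ := step S Prod.snd (fun p : Pt => p.1 + p.2) Prod.fst Y Z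
        hY hZ (by
          rintro ⟨p1, p2⟩ hp ⟨q1, q2⟩ hq hp' hq' hpq
          have a1 := hY' _ hp; have a2 := hY' _ hq
          have a3 := hZ' _ hp; have a4 := hZ' _ hq
          simp only at *
          subst hpq
          have : p2 = q2 := by rcases hp' with h | h <;> rcases hq' with h' | h' <;> omega
          rw [this])
      have h4 : (S'.image Prod.fst).card ≤ a := card_le_card (image_subset_image hsub)
      exact arith h3 (ih S' (by omega)) (by omega) (by omega)
    · obtain ⟨S', hsub, hlt, h1, h2, h3⟩ := step S Prod.fst Prod.snd (fun p : Pt => p.1 + p.2) X Y₀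
        hX hY₀ (by
          rintro ⟨p1, p2⟩ hp ⟨q1, q2⟩ hq hp' hq' hpq
          have a1 := hX' _ hp; have a2 := hX' _ hq
          have a3 := hY₀' _ hp; have a4 := hY₀' _ hq
          simp only at *
          have : p1 = q1 := by rcases hp' with h | h <;> rcases hq' with h' | h' <;> omega
          have h5 : p2 = q2 := by omega
          rw [this, h5])
      have h4 : (S'.image fun p : Pt => p.1 + p.2).card ≤ s :=
        card_le_card (image_subset_image hsub)
      exact arith h3 (ih S' (by omega)) (by omega) (by omega)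

end IsoAux

/-- TARGET -/
theorem Iso_proof : S_Iso := by
  intro S
  have h1 := IsoAux.bdry_ge S
  have h2 := IsoAux.main S.card S le_rfl
  have h3 := Nat.pow_le_pow_left h1 2
  nlinarith

end Pool.Agent.H329
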