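import Pool.Agent.H329.Spec
import Pool.Agent.H329.Iso
import Pool.Agent.H329.ChgSum
import Pool.Agent.H329.Euler

/-!
Project HP folding (MP_dec383_lc), job Comp. Owner helper329.
Proof (paper 123, section 1(b)). Components: for p in S let comp p be the set of q in S with ReflTransGen (fun a b => b in S and Adj a b) p q (an equivalence
relation on S); choose a representative rep p in S of each component (e.g. Classical.choose / Quotient.out), and put kappa j = rep of any p in HS j. (1) If x is not in S,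
all neighbours of x in S lie in one component: chg S x <= 1 by chg1/chg0 and x has a neighbour not in S (nonsol), so the directions d with x + dir d in S form
one cyclic interval, consecutive ones are adjacent points. (2) so by `conn` all points of HS j are in one component. Let c = the component with representative t
(nonempty fibre): c = disjoint union of HS j over kappa j = t (cover, disj), |c| = sum |HS j|. (3) For x in c: neighbours in S are in c, so chg c x = chg S x.
For x in S minus c: chg c x = 0. For x not in S: if some neighbour of x is in c then all S-neighbours are, chg c x = chg S x; otherwise chg c x = 0. By chg1, chg0: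
sum_{x in c} chg c x = sum_{kappa j = t} |HB j| (HB j are disjoint since HS j are; sub) and sum_{x not in c} chg c x = sum_{kappa j = t} |PB j| (padj gives the
component of x in PB j; conversely x not in S adjacent to c has chg S x >= 1 (nonsol: mixed neighbourhood) hence by chg0 x in HB j or PB j for some j, so in PB j
(HB j in S), and kappa j = t). (4) S_ChgSum for c: bdry c = sum (|HB|+|PB|). S_Euler for c: bdry c <= 2 sum_{x in c} chg c x + 6 gives sum|PB| <= sum|HB| + 6.
S_Iso for c gives the second inequality.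
Keep the statement of TARGET unchanged; auxiliary lemmas before it, in namespace Pool.Agent.H329.CompAux.
-/

namespace Pool.Agent.H329


open Finset
















namespace CompAux

/-- the cyclic interval lemma -/
theorem cyc (s : Fin 6 → Bool)
    (h : ((univ : Finset (Fin 6)).filter fun d => s d = true ∧ s (d + 1) = false).card ≤ 1)
    (d e : Fin 6) (hd : s d = true) (he : s e = true) :
    (∃ n : Fin 6, d + n = e ∧ ∀ k : Fin 6, k ≤ n → s (d + k) = true) ∨
    (∃ n : Fin 6, e + n = d ∧ ∀ k : Fin 6, k ≤ n → s (e + k) = true) := by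
  revert s d e
  decide

/-- the base relation -/
def B (S : Finset Pt) (a b : Pt) : Prop := a ∈ S ∧ b ∈ S ∧ Adj a b

theorem B_symm {S : Finset Pt} {a b : Pt} (h : B S a b) : B S b a := ⟨h.2.1, h.1, h.2.2.symm⟩

/-- the connectedness relation -/
def C (S : Finset Pt) (a b : Pt) : Prop := Relation.ReflTransGen (B S) a b

theorem C_symm {S : Finset Pt} {a b : Pt} (h : C S a b) : C S b a := by
  unfold C at *
  induction h with
  | refl => exact Relation.ReflTransGen.refl
  | tail _ h2 ih => exact Relation.ReflTransGen.head (B_symm h2) ih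

theorem C_trans {S : Finset Pt} {a b c : Pt} (h : C S a b) (h' : C S b c) : C S a c :=
  Relation.ReflTransGen.trans h h'

theorem C_mem {S : Finset Pt} {a b : Pt} (h : C S a b) (ha : a ∈ S) : b ∈ S := by
  unfold C at h
  induction h with
  | refl => exact ha
  | tail _ h2 _ => exact h2.2.1

/-- setoid -/
def cs (S : Finset Pt) : Setoid Pt where
  r := C S
  iseqv := ⟨fun _ => Relation.ReflTransGen.refl, C_symm, C_trans⟩

/-- representative -/
noncomputable def rep (S : Finset Pt) (p : Pt) : Pt := Quotient.out (Quotient.mk (cs S) p)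

theorem rep_eq_iff (S : Finset Pt) (p q : Pt) : rep S p = rep S q ↔ C S p q := by
  unfold rep
  rw [Quotient.out_inj]
  exact Quotient.eq (r := cs S)

theorem dir_adj (x : Pt) (d : Fin 6) : Adj (x + dir d) (x + dir (d + 1)) := by
  unfold Adj
  fin_cases d <;> simp [dir]

theorem adj_dir (x : Pt) (d : Fin 6) : Adj x (x + dir d) := (adj_iff_dir _ _).2 ⟨d, rfl⟩

theorem run (S : Finset Pt) (x : Pt) (d : Fin 6) (n : ℕ) (hn : n < 6)
    (h : ∀ k : Fin 6, k.val ≤ n → x + dir (d + k) ∈ S) :
    C S (x + dir d) (x + dir (d + ⟨n, hn⟩)) := by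
  induction n with
  | zero =>
      have : d + ⟨0, hn⟩ = d := by
        have : (⟨0, hn⟩ : Fin 6) = 0 := rfl
        rw [this, add_zero]
      rw [this]
      exact Relation.ReflTransGen.refl
  | succ n ih =>
      have h1 := ih (by omega) (fun k hk => h k (by omega))
      refine Relation.ReflTransGen.tail h1 ?_
      have h2 : d + ⟨n + 1, hn⟩ = d + ⟨n, by omega⟩ + 1 := by
        rw [add_assoc]
        congr 1
        apply Fin.ext
        simp [Fin.val_add]
        omega
      refine ⟨h ⟨n, by omega⟩ (by simp), h ⟨n + 1, hn⟩ (by simp), ?_⟩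
      rw [h2]
      exact dir_adj _ _

theorem nbr_conn (S : Finset Pt) (x : Pt) (hx : chg S x ≤ 1) (d e : Fin 6)
    (hd : x + dir d ∈ S) (he : x + dir e ∈ S) : C S (x + dir d) (x + dir e) := by
  have := cyc (fun d => decide (x + dir d ∈ S)) (by
    unfold chg at hx
    simpa using hx) d e (by simpa using hd) (by simpa using he)
  rcases this with ⟨n, hn, h⟩ | ⟨n, hn, h⟩
  · have := run S x d n.val n.isLt (fun k hk => by
      have := h k (by rw [Fin.le_def]; exact hk)
      simpa using this)
    simpa [hn] using this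
  · have := run S x e n.val n.isLt (fun k hk => by
      have := h k (by rw [Fin.le_def]; exact hk)
      simpa using this)
    apply C_symm
    simpa [hn] using this

theorem chg_ne_zero {c : Finset Pt} {x : Pt} (h : chg c x ≠ 0) : ∃ d, x + dir d ∈ c := by
  unfold chg at h
  obtain ⟨d, hd⟩ := Finset.card_pos.1 (Nat.pos_of_ne_zero h)
  exact ⟨d, (Finset.mem_filter.1 hd).2.1⟩

theorem chg_congr {c S : Finset Pt} {x : Pt} (h : ∀ d, x + dir d ∈ c ↔ x + dir d ∈ S) :
    chg c x = chg S x := by
  unfold chg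
  congr 1
  ext d
  simp [h]

section

variable {ι : Type} [DecidableEq ι] {J : Finset ι} {S : Finset Pt}
  {HS HB PB : ι → Finset Pt} (T : Tight J S HS HB PB)
include T

theorem chg_le (x : Pt) : chg S x ≤ 1 := by
  by_cases h : ∃ j ∈ J, x ∈ HB j ∨ x ∈ PB j
  · exact (T.chg1 x h).le
  · rw [T.chg0 x h]; exact Nat.zero_le _

theorem HS_sub {j : ι} (hj : j ∈ J) {p : Pt} (hp : p ∈ HS j) : p ∈ S := (T.cover p).2 ⟨j, hj, hp⟩

theorem HS_conn {j : ι} (hj : j ∈ J) {p q : Pt} (hp : p ∈ HS j) (hq : q ∈ HS j) : C S p q := by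
  have h := T.conn j hj p hp q hq
  have hpS := HS_sub T hj hp
  clear hq
  induction h with
  | refl => exact Relation.ReflTransGen.refl
  | @tail b c _ h2 ih =>
    have hb : b ∈ S := C_mem ih hpS
    refine C_trans ih ?_
    obtain ⟨hc, h3 | ⟨x, hx, h3, h4⟩⟩ := h2
    · exact Relation.ReflTransGen.single ⟨hb, hc, h3⟩
    · obtain ⟨d, rfl⟩ := (adj_iff_dir _ _).1 h3.symm
      obtain ⟨e, rfl⟩ := (adj_iff_dir _ _).1 h4
      exact nbr_conn S x (chg_le T x) d e hb hc

end

end CompAux

open CompAux in
/-- TARGET -/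
theorem Comp_proof : S_Comp := by
  classical
  intro ι _ J S HS HB PB T
  let κ : ι → Pt := fun j => if h : (HS j).Nonempty then rep S h.choose else 0
  have hκ : ∀ j ∈ J, ∀ p ∈ HS j, rep S p = κ j := by
    intro j hj p hp
    have hne : (HS j).Nonempty := ⟨p, hp⟩
    have : κ j = rep S hne.choose := by simp only [κ]; rw [dif_pos hne]
    rw [this, rep_eq_iff]
    exact HS_conn T hj hp hne.choose_spec
  refine ⟨κ, ?_⟩
  intro t ht
  set c : Finset Pt := S.filter (fun q => rep S q = t) with hc
  have hcS : c ⊆ S := Finset.filter_subset _ _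
  -- basic closure facts
  have hclos : ∀ a b, a ∈ c → C S a b → b ∈ c := by
    intro a b ha hab
    rw [hc, Finset.mem_filter] at ha ⊢
    exact ⟨C_mem hab ha.1, by rw [← ha.2]; exact ((rep_eq_iff S a b).2 hab).symm⟩
  have hcc : ∀ a b, a ∈ c → b ∈ c → C S a b := by
    intro a b ha hb
    rw [hc, Finset.mem_filter] at ha hb
    exact (rep_eq_iff S a b).1 (ha.2.trans hb.2.symm)
  have hadj : ∀ a b, a ∈ c → b ∈ S → Adj a b → b ∈ c := by
    intro a b ha hb hab
    exact hclos a b ha (Relation.ReflTransGen.single ⟨hcS ha, hb, hab⟩)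
  have hHSc : ∀ j ∈ J, κ j = t → ∀ p ∈ HS j, p ∈ c := by
    intro j hj hjt p hp
    rw [hc, Finset.mem_filter]
    exact ⟨HS_sub T hj hp, (hκ j hj p hp).trans hjt⟩
  have hcHS : ∀ j ∈ J, ∀ p ∈ HS j, p ∈ c → κ j = t := by
    intro j hj p hp hpc
    rw [hc, Finset.mem_filter] at hpc
    rw [← hκ j hj p hp]; exact hpc.2
  set F := J.filter (fun j => κ j = t) with hF
  have hFJ : ∀ j ∈ F, j ∈ J ∧ κ j = t := fun j hj => Finset.mem_filter.1 hj
  -- c as a union
  have hcu : c = F.biUnion HS := by
    ext p
    rw [Finset.mem_biUnion]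
    constructor
    · intro hp
      obtain ⟨j, hj, hpj⟩ := (T.cover p).1 (hcS hp)
      exact ⟨j, Finset.mem_filter.2 ⟨hj, hcHS j hj p hpj hp⟩, hpj⟩
    · rintro ⟨j, hj, hpj⟩
      exact hHSc j (hFJ j hj).1 (hFJ j hj).2 p hpj
  have hcard : c.card = ∑ j ∈ F, (HS j).card := by
    rw [hcu, Finset.card_biUnion]
    intro i hi j hj hij
    exact T.disj i (hFJ i hi).1 j (hFJ j hj).1 hij
  have hne : c.Nonempty := by
    obtain ⟨j, hj⟩ := ht
    obtain ⟨p, hp⟩ := T.nonempty j (hFJ j hj).1
    exact ⟨p, hHSc j (hFJ j hj).1 (hFJ j hj).2 p hp⟩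
  have hconn : Conn c := by
    intro p hp q hq
    have h := hcc p q hp hq
    clear hq
    unfold C at h
    induction h with
    | refl => exact Relation.ReflTransGen.refl
    | @tail a b h1 h2 ih =>
      refine Relation.ReflTransGen.tail ih ⟨?_, h2.2.2⟩
      exact hclos p b hp (Relation.ReflTransGen.tail h1 h2)
  -- the numbers of changes
  have hchgc : ∀ x ∈ c, chg c x = chg S x := by
    intro x hx
    apply chg_congr
    intro d
    exact ⟨fun h => hcS h, fun h => hadj x _ hx h (adj_dir x d)⟩
  have hchgo : ∀ x, x ∉ S → ∀ d, x + dir d ∈ c → chg c x = chg S x := by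
    intro x _ d hd
    apply chg_congr
    intro e
    refine ⟨fun h => hcS h, fun h => ?_⟩
    exact hclos _ _ hd (nbr_conn S x (chg_le T x) d e (hcS hd) h)
  have hsum1 : ∑ x ∈ c, chg c x = ∑ j ∈ F, (HB j).card := by
    have h1 : ∑ x ∈ c, chg c x = ∑ x ∈ c, if x ∈ F.biUnion HB then 1 else 0 := by
      apply Finset.sum_congr rfl
      intro x hx
      rw [hchgc x hx]
      split_ifs with hxu
      · obtain ⟨j, hj, hxj⟩ := Finset.mem_biUnion.1 hxu
        exact T.chg1 x ⟨j, (hFJ j hj).1, Or.inl hxj⟩
      · apply T.chg0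
        rintro ⟨j, hj, hxj | hxj⟩
        · exact hxu (Finset.mem_biUnion.2 ⟨j, Finset.mem_filter.2
            ⟨hj, hcHS j hj x (T.sub j hj hxj) hx⟩, hxj⟩)
        · exact (Finset.disjoint_left.1 (T.pout j hj) hxj) (hcS hx)
    rw [h1, ← Finset.card_filter, Finset.filter_mem_eq_inter,
      Finset.inter_eq_right.2, Finset.card_biUnion]
    · intro i hi j hj hij
      exact Finset.disjoint_of_subset_left (T.sub i (hFJ i hi).1)
        (Finset.disjoint_of_subset_right (T.sub j (hFJ j hj).1)
          (T.disj i (hFJ i hi).1 j (hFJ j hj).1 hij))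
    · intro x hx
      obtain ⟨j, hj, hxj⟩ := Finset.mem_biUnion.1 hx
      exact hHSc j (hFJ j hj).1 (hFJ j hj).2 x (T.sub j (hFJ j hj).1 hxj)
  have hsum2 : ∑ x ∈ nbhd c \ c, chg c x = ∑ j ∈ F, (PB j).card := by
    have h1 : ∑ x ∈ nbhd c \ c, chg c x =
        ∑ x ∈ nbhd c \ c, if x ∈ F.biUnion PB then 1 else 0 := by
      apply Finset.sum_congr rfl
      intro x hx
      have hxc : x ∉ c := (Finset.mem_sdiff.1 hx).2
      split_ifs with hxu
      · obtain ⟨j, hj, hxj⟩ := Finset.mem_biUnion.1 hxu
        obtain ⟨p, hp, hxp⟩ := T.padj j (hFJ j hj).1 x hxj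
        obtain ⟨d, rfl⟩ := (adj_iff_dir _ _).1 hxp
        have hpc := hHSc j (hFJ j hj).1 (hFJ j hj).2 _ hp
        rw [hchgo x (Finset.disjoint_left.1 (T.pout j (hFJ j hj).1) hxj) d hpc]
        exact T.chg1 x ⟨j, (hFJ j hj).1, Or.inr hxj⟩
      · by_contra hne0
        obtain ⟨d, hd⟩ := chg_ne_zero hne0
        have hxS : x ∉ S := fun h => hxc (hadj _ _ hd h (adj_dir x d).symm)
        rw [hchgo x hxS d hd] at hne0
        apply hne0
        apply T.chg0
        rintro ⟨j, hj, hxj | hxj⟩
        · exact hxS (HS_sub T hj (T.sub j hj hxj))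
        · obtain ⟨p, hp, hxp⟩ := T.padj j hj x hxj
          obtain ⟨e, rfl⟩ := (adj_iff_dir _ _).1 hxp
          have hpc : x + dir e ∈ c :=
            hclos _ _ hd (nbr_conn S x (chg_le T x) d e (hcS hd) (HS_sub T hj hp))
          exact hxu (Finset.mem_biUnion.2 ⟨j, Finset.mem_filter.2
            ⟨hj, hcHS j hj _ hp hpc⟩, hxj⟩)
    rw [h1, ← Finset.card_filter, Finset.filter_mem_eq_inter,
      Finset.inter_eq_right.2, Finset.card_biUnion]
    · intro i hi j hj hij
      exact T.pdisj i (hFJ i hi).1 j (hFJ j hj).1 hij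
    · intro x hx
      obtain ⟨j, hj, hxj⟩ := Finset.mem_biUnion.1 hx
      obtain ⟨p, hp, hxp⟩ := T.padj j (hFJ j hj).1 x hxj
      have hpc := hHSc j (hFJ j hj).1 (hFJ j hj).2 _ hp
      rw [Finset.mem_sdiff]
      refine ⟨?_, fun h => (Finset.disjoint_left.1 (T.pout j (hFJ j hj).1) hxj) (hcS h)⟩
      obtain ⟨d, rfl⟩ := (adj_iff_dir _ _).1 hxp.symm
      unfold nbhd
      exact Finset.mem_union_right _ (Finset.mem_biUnion.2 ⟨p, hpc,
        Finset.mem_image.2 ⟨d, Finset.mem_univ _, rfl⟩⟩)
  have hb : bdry c = ∑ j ∈ F, ((HB j).card + (PB j).card) := by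
    rw [ChgSum_proof c (nbhd c) (Finset.Subset.refl _)]
    have hsub : c ⊆ nbhd c := Finset.subset_union_left
    rw [← Finset.sum_sdiff hsub, hsum1, hsum2, Finset.sum_add_distrib, add_comm]
  have hE := Euler_proof c hne hconn
  have hI := Iso_proof c
  rw [hsum1, hb, Finset.sum_add_distrib] at hE
  rw [hb, hcard] at hI
  exact ⟨by omega, hI⟩

end Pool.Agent.H329

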