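import Pool.Agent.H329.Spec

/-!
Project HP folding (MP_dec383_lc), job Contacts. Owner helper329.
Proof: Let n = s.length. Ordered-by-index pairs (i,j), i<j, both H, with f i, f j adjacent: those with j = i+1 are counted by hh s (consecutive nodes are
always adjacent), those with j >= i+2 by contacts. On the other hand unordered pairs of adjacent points of hsites s f are counted by edges: every unordered
adjacent pair {p,q} has exactly one representation q = p + dir d with d in {0,1,2} (adj_iff_dir; dir (d+3) = - dir d). f is injective, so unordered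
pairs of H-indices correspond to unordered pairs of H-sites.
Keep the statement of TARGET unchanged; auxiliary lemmas before it, in namespace Pool.Agent.H329.ContactsAux.
-/

namespace Pool.Agent.H329


open Finset




namespace ContactsAux

theorem not_adj_self (p : Pt) : ¬ Adj p p := by
  unfold Adj
  simp

/-- `q` is the neighbour of `p` in one of the directions `0, 1, 2`. -/
def Pos (p q : Pt) : Prop := ∃ d ∈ ({0, 1, 2} : Finset (Fin 6)), q = p + dir d

instance (p q : Pt) : Decidable (Pos p q) := by unfold Pos; infer_instance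

theorem dir_pos : ∀ d : Fin 6, (∃ e ∈ ({0, 1, 2} : Finset (Fin 6)), dir d = dir e) ↔
    ¬ ∃ e ∈ ({0, 1, 2} : Finset (Fin 6)), dir d + dir e = 0 := by
  decide

theorem dir_inj : ∀ d e : Fin 6, dir d = dir e → d = e := by
  decide

theorem pos_iff {p q : Pt} (h : Adj p q) : Pos p q ↔ ¬ Pos q p := by
  obtain ⟨d, rfl⟩ := (adj_iff_dir p q).1 h
  have h1 : Pos p (p + dir d) ↔ ∃ e ∈ ({0, 1, 2} : Finset (Fin 6)), dir d = dir e := by
    unfold Pos
    simp only [add_right_inj]
  have h2 : Pos (p + dir d) p ↔ ∃ e ∈ ({0, 1, 2} : Finset (Fin 6)), dir d + dir e = 0 := by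
    unfold Pos
    refine exists_congr fun e => and_congr_right fun _ => ?_
    rw [add_assoc, left_eq_add]
  rw [h1, h2]
  exact dir_pos d

theorem Pos.adj {p q : Pt} (h : Pos p q) : Adj p q := by
  obtain ⟨d, _, hd⟩ := h
  exact (adj_iff_dir p q).2 ⟨d, hd⟩

theorem card_symm {α : Type} [DecidableEq α] (C : Finset (α × α))
    (hC : ∀ p ∈ C, p.swap ∈ C) (P : α × α → Prop) [DecidablePred P]
    (hP : ∀ p ∈ C, (P p ↔ ¬ P p.swap)) : C.card = 2 * (C.filter P).card := by
  rw [← Finset.card_filter_add_card_filter_not (s := C) P]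
  have h : (C.filter fun p => ¬ P p).card = (C.filter P).card := by
    refine Finset.card_nbij' Prod.swap Prod.swap ?_ ?_ ?_ ?_
    · intro p hp
      simp only [Finset.coe_filter, Set.mem_ofPred_eq] at hp ⊢
      refine ⟨hC p hp.1, ?_⟩
      by_contra hcon
      exact hp.2 ((hP p hp.1).2 hcon)
    · intro p hp
      simp only [Finset.coe_filter, Set.mem_ofPred_eq] at hp ⊢
      exact ⟨hC p hp.1, (hP p hp.1).1 hp.2⟩
    · intro p _
      simp
    · intro p _
      simp
  rw [h]
  ring

/-- ordered pairs of `H` indices at adjacent sites -/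
def CC (s : List Bool) (f : Fin s.length → Pt) : Finset (Fin s.length × Fin s.length) :=
  univ.filter fun p => s[p.1] = true ∧ s[p.2] = true ∧ Adj (f p.1) (f p.2)

theorem mem_CC {s : List Bool} {f : Fin s.length → Pt} {p : Fin s.length × Fin s.length} :
    p ∈ CC s f ↔ s[p.1] = true ∧ s[p.2] = true ∧ Adj (f p.1) (f p.2) := by
  simp [CC]

theorem CC_swap {s : List Bool} {f : Fin s.length → Pt} : ∀ p ∈ CC s f, p.swap ∈ CC s f := by
  intro p hp
  rw [mem_CC] at hp ⊢
  exact ⟨hp.2.1, hp.1, hp.2.2.symm⟩

theorem card_lt (s : List Bool) (f : Fin s.length → Pt) :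
    (CC s f).card = 2 * ((CC s f).filter fun p => p.1 < p.2).card := by
  refine card_symm _ CC_swap _ ?_
  intro p hp
  rw [mem_CC] at hp
  have hne : p.1 ≠ p.2 := by
    intro h
    have h3 := hp.2.2
    rw [h] at h3
    exact not_adj_self _ h3
  simp only [Prod.fst_swap, Prod.snd_swap, not_lt]
  constructor
  · intro h
    exact h.le
  · intro h
    exact lt_of_le_of_ne h hne

theorem card_pos (s : List Bool) (f : Fin s.length → Pt) :
    (CC s f).card = 2 * ((CC s f).filter fun p => Pos (f p.1) (f p.2)).card := by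
  refine card_symm _ CC_swap _ ?_
  intro p hp
  rw [mem_CC] at hp
  exact pos_iff hp.2.2

theorem card_hh (s : List Bool) (f : Fin s.length → Pt) (hf : IsFolding f) :
    (((CC s f).filter fun p => p.1 < p.2).filter fun p => ¬ (p.1.val + 2 ≤ p.2.val)).card
      = hh s := by
  unfold hh
  rw [← List.toFinset_card_of_nodup (List.Nodup.filter _ List.nodup_range)]
  refine Finset.card_bij (fun p _ => p.1.val) ?_ ?_ ?_
  · intro p hp
    simp only [Finset.mem_filter, mem_CC] at hp
    obtain ⟨⟨⟨h1, h2, h3⟩, h4⟩, h5⟩ := hp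
    have h6 : p.2.val = p.1.val + 1 := by
      have : p.1.val < p.2.val := h4
      omega
    have h7 := p.2.isLt
    simp only [List.mem_toFinset, List.mem_filter, List.mem_range, Bool.and_eq_true]
    refine ⟨by omega, ?_, ?_⟩
    · rw [List.getD_eq_getElem _ _ p.1.isLt]
      exact h1
    · rw [List.getD_eq_getElem _ _ (by omega)]
      have h8 : s[p.1.val + 1]'(by omega) = s[p.2] := by
        simp only [Fin.getElem_fin, h6]
      rw [h8]
      exact h2
  · intro p hp q hq h
    simp only [Finset.mem_filter, mem_CC] at hp hq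
    obtain ⟨⟨_, h4⟩, h5⟩ := hp
    obtain ⟨⟨_, h4'⟩, h5'⟩ := hq
    have a1 : p.1.val < p.2.val := h4
    have a2 : q.1.val < q.2.val := h4'
    have h' : p.1.val = q.1.val := h
    ext
    · exact h'
    · omega
  · intro i hi
    simp only [List.mem_toFinset, List.mem_filter, List.mem_range, Bool.and_eq_true] at hi
    obtain ⟨h1, h2, h3⟩ := hi
    rw [List.getD_eq_getElem _ _ (by omega)] at h2 h3
    refine ⟨(⟨i, by omega⟩, ⟨i + 1, by omega⟩), ?_, rfl⟩
    simp only [Finset.mem_filter, mem_CC]
    refine ⟨⟨⟨h2, h3, ?_⟩, ?_⟩, ?_⟩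
    · exact hf.2 _ _ rfl
    · simp [Fin.lt_def]
    · simp

theorem card_contacts (s : List Bool) (f : Fin s.length → Pt) :
    (((CC s f).filter fun p => p.1 < p.2).filter fun p => (p.1.val + 2 ≤ p.2.val)).card
      = contacts s f := by
  unfold contacts
  congr 1
  ext p
  simp only [Finset.mem_filter, mem_CC, Finset.mem_univ, true_and]
  constructor
  · rintro ⟨⟨⟨h1, h2, h3⟩, h4⟩, h5⟩
    exact ⟨h5, h1, h2, h3⟩
  · rintro ⟨h5, h1, h2, h3⟩
    refine ⟨⟨⟨h1, h2, h3⟩, ?_⟩, h5⟩
    rw [Fin.lt_def]
    omega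

theorem card_edges (s : List Bool) (f : Fin s.length → Pt) (hf : Function.Injective f) :
    ((CC s f).filter fun p => Pos (f p.1) (f p.2)).card = edges (hsites s f) := by
  have h1 : ((CC s f).filter fun p => Pos (f p.1) (f p.2)) =
      ({0, 1, 2} : Finset (Fin 6)).biUnion fun d =>
        (univ : Finset (Fin s.length × Fin s.length)).filter fun p =>
          s[p.1] = true ∧ s[p.2] = true ∧ f p.2 = f p.1 + dir d := by
    ext p
    simp only [Finset.mem_filter, mem_CC, Finset.mem_biUnion, Finset.mem_univ, true_and]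
    constructor
    · rintro ⟨⟨a1, a2, a3⟩, d, hd, a4⟩
      exact ⟨d, hd, a1, a2, a4⟩
    · rintro ⟨d, hd, a1, a2, a4⟩
      exact ⟨⟨a1, a2, Pos.adj ⟨d, hd, a4⟩⟩, d, hd, a4⟩
  rw [h1, Finset.card_biUnion]
  · unfold edges
    refine Finset.sum_congr rfl fun d _ => ?_
    refine Finset.card_bij (fun p _ => f p.1) ?_ ?_ ?_
    · intro p hp
      simp only [Finset.mem_filter, Finset.mem_univ, true_and] at hp
      obtain ⟨a1, a2, a3⟩ := hp
      simp only [Finset.mem_filter, hsites, Finset.mem_image, Finset.mem_univ, true_and]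
      exact ⟨⟨p.1, a1, rfl⟩, ⟨p.2, a2, a3⟩⟩
    · intro p hp q hq h
      simp only [Finset.mem_filter, Finset.mem_univ, true_and] at hp hq
      have e1 : p.1 = q.1 := hf h
      have e2 : p.2 = q.2 := by
        apply hf
        rw [hp.2.2, hq.2.2, e1]
      exact Prod.ext e1 e2
    · intro x hx
      simp only [Finset.mem_filter, hsites, Finset.mem_image, Finset.mem_univ, true_and] at hx
      obtain ⟨⟨i, hi, rfl⟩, ⟨j, hj, hij⟩⟩ := hx
      refine ⟨(i, j), ?_, rfl⟩
      simp only [Finset.mem_filter, Finset.mem_univ, true_and]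
      exact ⟨hi, hj, hij⟩
  · intro d _ e _ hde
    rw [Function.onFun, Finset.disjoint_left]
    intro p hp hq
    simp only [Finset.mem_filter, Finset.mem_univ, true_and] at hp hq
    apply hde
    apply dir_inj
    have := hp.2.2.symm.trans hq.2.2
    exact add_left_cancel this

end ContactsAux

open ContactsAux in
/-- TARGET -/
theorem Contacts_proof : S_Contacts := by
  intro s f hf
  have h1 := card_lt s f
  have h2 := card_pos s f
  rw [card_edges s f hf.1] at h2
  have h3 := Finset.card_filter_add_card_filter_not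
    (s := (CC s f).filter fun p => p.1 < p.2) (fun p => p.1.val + 2 ≤ p.2.val)
  rw [card_hh s f hf, card_contacts s f] at h3
  omega

end Pool.Agent.H329
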