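import Pool.Agent.NPC.Dec
import Pool.Agent.NPC.Sat2

/-!
# HP folding on the triangular lattice: basic definitions
-/

namespace Pool.Agent.H329

open Finset

/-- The point `a + b ω` of the triangular lattice, `ω = e^{iπ/3}`, is the pair `(a, b)`. -/
abbrev Pt : Type := ℤ × ℤ

/-- Two points of the triangular lattice are adjacent when their distance is `1`; the squared norm
of `a + b ω` is `a² + a b + b²`. -/
def Adj (p q : Pt) : Prop :=
  (q.1 - p.1) ^ 2 + (q.1 - p.1) * (q.2 - p.2) + (q.2 - p.2) ^ 2 = 1

instance (p q : Pt) : Decidable (Adj p q) := by unfold Adj; infer_instance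

/-- The number of contacts of the placement `f` of the word `s` (`true` is `H`, `false` is `P`). -/
def contacts (s : List Bool) (f : Fin s.length → Pt) : ℕ :=
  ((univ : Finset (Fin s.length × Fin s.length)).filter fun p =>
    p.1.val + 2 ≤ p.2.val ∧ s[p.1] = true ∧ s[p.2] = true ∧ Adj (f p.1) (f p.2)).card

/-- `f` is a folding of a chain with `n` nodes: a self-avoiding walk. -/
def IsFolding {n : ℕ} (f : Fin n → Pt) : Prop :=
  Function.Injective f ∧ ∀ i j : Fin n, i.val + 1 = j.val → Adj (f i) (f j)

/-- The HP folding problem on the triangular lattice: given a word `s` over `{H, P}` and a number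
`k`, is there a folding of `s` with at least `k` contacts? -/
def HPFold (x : List Bool × ℕ) : Prop :=
  ∃ f : Fin x.1.length → Pt, IsFolding f ∧ x.2 ≤ contacts x.1 f

/-! ### Directions -/

/-- The six directions in cyclic order. -/
def dir : Fin 6 → Pt := ![(1, 0), (0, 1), (-1, 1), (-1, 0), (0, -1), (1, -1)]

theorem adj_iff_dir (p q : Pt) : Adj p q ↔ ∃ d : Fin 6, q = p + dir d := by
  constructor
  · intro h
    unfold Adj at h
    have h1 : (q.1 - p.1) ≤ 1 ∧ -1 ≤ (q.1 - p.1) := by
      constructor <;> nlinarith [sq_nonneg ((q.1 - p.1) + 2 * (q.2 - p.2))]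
    have h2 : (q.2 - p.2) ≤ 1 ∧ -1 ≤ (q.2 - p.2) := by
      constructor <;> nlinarith [sq_nonneg (2 * (q.1 - p.1) + (q.2 - p.2))]
    obtain ⟨p1, p2⟩ := p
    obtain ⟨q1, q2⟩ := q
    simp only at h h1 h2
    have e1 : q1 - p1 = -1 ∨ q1 - p1 = 0 ∨ q1 - p1 = 1 := by omega
    have e2 : q2 - p2 = -1 ∨ q2 - p2 = 0 ∨ q2 - p2 = 1 := by omega
    rcases e1 with e1 | e1 | e1 <;> rcases e2 with e2 | e2 | e2 <;> rw [e1, e2] at h <;>
      norm_num at h
    · exact ⟨3, by simp [dir]; omega⟩
    · exact ⟨2, by simp [dir]; omega⟩
    · exact ⟨4, by simp [dir]; omega⟩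
    · exact ⟨1, by simp [dir]; omega⟩
    · exact ⟨5, by simp [dir]; omega⟩
    · exact ⟨0, by simp [dir]; omega⟩
  · rintro ⟨d, rfl⟩
    unfold Adj
    fin_cases d <;> simp [dir]

theorem Adj.symm {p q : Pt} (h : Adj p q) : Adj q p := by
  unfold Adj at *
  nlinarith

/-! ### Counting in finite sets of points -/

/-- Number of edges inside `S`. -/
def edges (S : Finset Pt) : ℕ :=
  ∑ d ∈ ({0, 1, 2} : Finset (Fin 6)), (S.filter fun p => p + dir d ∈ S).card

/-- Number of pairs `(p, d)` with `p ∈ S` and `p + dir d ∉ S`. -/
def bdry (S : Finset Pt) : ℕ := ((S ×ˢ (univ : Finset (Fin 6))).filter fun q => q.1 + dir q.2 ∉ S).card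

/-- Number of changes around the site `x`. -/
def chg (S : Finset Pt) (x : Pt) : ℕ :=
  ((univ : Finset (Fin 6)).filter fun d => x + dir d ∈ S ∧ x + dir (d + 1) ∉ S).card

/-- The set of sites in `S` or adjacent to a site of `S`. -/
def nbhd (S : Finset Pt) : Finset Pt := S ∪ S.biUnion fun p => univ.image fun d => p + dir d

/-- Number of indices `i` with `s i = s (i+1) = H`. -/
def hh (s : List Bool) : ℕ :=
  ((List.range (s.length - 1)).filter fun i => s.getD i false && s.getD (i + 1) false).length

/-- The set of `H`-sites. -/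
def hsites (s : List Bool) (f : Fin s.length → Pt) : Finset Pt :=
  (univ.filter fun i => s[i] = true).image f

/-! ### Blocks, tokens and words -/

/-- Kinds and sizes of blocks. -/
structure BlkData (ι : Type) where
  /-- is it an item (otherwise a chord)? -/
  item : ι → Bool
  /-- size -/
  size : ι → ℕ

/-- Tokens: gaps and blocks. -/
inductive Tok (ι : Type) : Type
  | gap (n : ℕ) : Tok ι
  | blk (j : ι) : Tok ι

/-- `H (P H)^{a-1}` -/
def itemWord (a : ℕ) : List Bool := (List.range (2 * a - 1)).map fun i => i % 2 == 0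

/-- The word of a block. -/
def BlkData.blkWord {ι : Type} (B : BlkData ι) (j : ι) : List Bool :=
  if B.item j then itemWord (B.size j) else List.replicate (B.size j) true

/-- The word of a token. -/
def BlkData.tokWord {ι : Type} (B : BlkData ι) : Tok ι → List Bool
  | .gap n => List.replicate n false
  | .blk j => B.blkWord j

/-- The word of a list of tokens. -/
def BlkData.word {ι : Type} (B : BlkData ι) (l : List (Tok ι)) : List Bool := l.flatMap B.tokWord

/-- Is the token a gap? -/
def Tok.isGap {ι : Type} : Tok ι → Bool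
  | .gap _ => true
  | .blk _ => false

/-- The labels of the blocks occurring in a token. -/
def Tok.labs {ι : Type} : Tok ι → List ι
  | .gap _ => []
  | .blk j => [j]

/-- The labels of the blocks occurring in a list of tokens. -/
def labels {ι : Type} (l : List (Tok ι)) : List ι := l.flatMap Tok.labs

/-- Contribution of a token to the target number of contacts. -/
def BlkData.kval {ι : Type} (B : BlkData ι) : Tok ι → ℕ
  | .gap _ => 0
  | .blk j => if B.item j then 2 * B.size j else 2 * (B.size j - 2)

/-- The target number of contacts. -/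
def BlkData.K {ι : Type} (B : BlkData ι) (l : List (Tok ι)) : ℕ := (l.map B.kval).sum

/-- Separated token lists: they start and end with a gap, no two blocks are consecutive, and gaps
have length at least two. -/
structure Sep {ι : Type} (l : List (Tok ι)) : Prop where
  head : ∃ n t, l = Tok.gap n :: t
  last : ∃ n t, l = t ++ [Tok.gap n]
  chain : l.IsChain fun a b => a.isGap = true ∨ b.isGap = true
  two : ∀ n, Tok.gap n ∈ l → 2 ≤ n

end Pool.Agent.H329
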