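import Pool.Agent.H329.Spec

/-!
Project HP folding (MP_dec383_lc), job EdgesBdry. Owner helper329.
Proof: 6|S| = #{(p,d): p + dir d in S} + bdry S, and the first number is sum over the six d of #{p in S: p + dir d in S}; the terms for d and d+3 are equal
(bijection p -> p + dir d, dir (d+3) = - dir d), so it is 2 * edges S.
Keep the statement of TARGET unchanged; auxiliary lemmas before it, in namespace Pool.Agent.H329.EdgesBdryAux.
-/

namespace Pool.Agent.H329


open Finset



namespace EdgesBdryAux

theorem in_eq (S : Finset Pt) (v : Pt) :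
    (S.filter (fun p => p + v ∈ S)).card = (S.filter (fun p => p + -v ∈ S)).card := by
  apply Finset.card_nbij' (fun p => p + v) (fun p => p + -v)
  · intro p hp
    simp only [Finset.coe_filter, Set.mem_ofPred_eq, add_neg_cancel_right] at hp ⊢
    exact ⟨hp.2, hp.1⟩
  · intro p hp
    simp only [Finset.coe_filter, Set.mem_ofPred_eq, neg_add_cancel_right] at hp ⊢
    exact ⟨hp.2, hp.1⟩
  · intro p _
    simp
  · intro p _
    simp

theorem in_out (S : Finset Pt) (d : Fin 6) :
    (S.filter (fun p => p + dir d ∈ S)).card + (S.filter (fun p => p + dir d ∉ S)).card =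
      S.card :=
  Finset.card_filter_add_card_filter_not _

theorem bdry_eq (S : Finset Pt) :
    bdry S = ∑ d : Fin 6, (S.filter (fun p => p + dir d ∉ S)).card := by
  unfold bdry
  rw [Finset.card_filter, Finset.sum_product_right]
  apply Finset.sum_congr rfl
  intro d _
  rw [Finset.card_filter]

end EdgesBdryAux

/-- TARGET -/
theorem EdgesBdry_proof : S_EdgesBdry := by
  intro S
  have e3 := EdgesBdryAux.in_eq S (dir 0)
  have e4 := EdgesBdryAux.in_eq S (dir 1)
  have e5 := EdgesBdryAux.in_eq S (dir 2)
  have d3 : -dir 0 = dir 3 := by decide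
  have d4 : -dir 1 = dir 4 := by decide
  have d5 : -dir 2 = dir 5 := by decide
  rw [d3] at e3
  rw [d4] at e4
  rw [d5] at e5
  have h0 := EdgesBdryAux.in_out S 0
  have h1 := EdgesBdryAux.in_out S 1
  have h2 := EdgesBdryAux.in_out S 2
  have h3 := EdgesBdryAux.in_out S 3
  have h4 := EdgesBdryAux.in_out S 4
  have h5 := EdgesBdryAux.in_out S 5
  have he : edges S = (S.filter (fun p => p + dir 0 ∈ S)).card +
      (S.filter (fun p => p + dir 1 ∈ S)).card + (S.filter (fun p => p + dir 2 ∈ S)).card := by
    unfold edges
    rw [Finset.sum_insert (by decide), Finset.sum_insert (by decide), Finset.sum_singleton,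
      add_assoc]
  rw [EdgesBdryAux.bdry_eq, Fin.sum_univ_six, he]
  omega

end Pool.Agent.H329
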