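import Pool.Agent.H329.Spec

/-!
Project HP folding (MP_dec383_lc), job Force. Owner helper329.
Proof (paper 123, section 3 FORWARD). (1) beta c i = 1 implies beta (c+1) i = 1 unless i = i0 and c in {c0-1, c0} (V-equation at (c,i): left side >= 1, the bracket terms vanish). Going
up, since beta c' i = 1 implies c' <= M: so beta c i = 1 implies i = i0 and c <= c0. (2) l c i = 1 implies beta c i = 1 unless i = i0 and c in {c0, c0+1} (V-equation at
(c-1,i): brackets vanish). (3) if beta c i0 = 1 and c < c0: C-equation at (c,i0): brackets vanish (c != c0), so l c i0 >= 1, = 1. If c < c0-1: V-equation at (c,i0): 1 + l (c+1) i0 <= beta (c+1) i0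
<= 1, so beta (c+1) i0 = 1, l (c+1) i0 = 0, but (3) for c+1 < c0 gives l (c+1) i0 = 1, contradiction. If c = c0-1: C-equation at (c,i0-1): left side >= l c i0 = 1 and brackets vanish
(c != c0), so l c (i0-1) = 1, so by (2) beta c (i0-1) = 1 contradicting (1). Hence beta c i = 1 implies (c,i) = (c0,i0). (4) l c i = 1: by (2) either beta c i = 1, done, or i = i0, c in
{c0,c0+1}; if c = c0+1: C-equation at (c0+1,i0-1): l (c0+1) i0 = 1 <= l (c0+1) (i0-1), so l (c0+1)(i0-1) = 1, by (2) beta (c0+1) (i0-1) = 1, contradiction.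
Keep the statement of TARGET unchanged; auxiliary lemmas before it, in namespace Pool.Agent.H329.ForceAux.
-/

namespace Pool.Agent.H329


open Finset



namespace ForceAux

/-- going up -/
theorem up {M : ℕ} {p : ℕ → Prop} (h1 : ∀ c, p c → c ≤ M) {c1 : ℕ}
    (h2 : ∀ c, c1 < c → p c → p (c + 1)) {c : ℕ} (hc : c1 < c) (hp : p c) : False := by
  have h3 : ∀ k, p (c + k) := by
    intro k
    induction k with
    | zero => exact hp
    | succ k ih => exact h2 (c + k) (by omega) ih
  have := h1 _ (h3 (M + 1))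
  omega

end ForceAux

/-- TARGET -/
theorem Force_proof : S_Force := by
  intro M N c0 i0 β l nv nc hc0 hc0M hi0 hi0N hβ hl hβr hlr hV hC
  -- (1)
  have s1 : ∀ c i, β c i = 1 → ¬ (i = i0 ∧ c ≤ c0) → β (c + 1) i = 1 := by
    intro c i h hn
    obtain ⟨h1, h2, h3, h4⟩ := hβr c i h
    have hv := hV c i h2 h3 h4
    rw [if_neg (by omega), if_neg (by omega)] at hv
    have := hβ (c + 1) i
    omega
  have one : ∀ c i, β c i = 1 → i = i0 ∧ c ≤ c0 := by
    intro c i h
    by_contra hn
    by_cases hi : i = i0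
    · have hc : c0 < c := by
        by_contra h'
        exact hn ⟨hi, by omega⟩
      exact ForceAux.up (M := M) (p := fun c => β c i = 1) (fun c h => (hβr c i h).2.1)
        (c1 := c0) (fun c' hc' h' => s1 c' i h' (fun h'' => by omega)) hc h
    · have hpos : 0 < c := (hβr c i h).1
      exact ForceAux.up (M := M) (p := fun c => β c i = 1) (fun c h => (hβr c i h).2.1)
        (c1 := 0) (fun c' hc' h' => s1 c' i h' (fun h'' => hi h''.1)) hpos h
  -- (2)
  have two : ∀ c i, l c i = 1 → ¬ (i = i0 ∧ (c = c0 ∨ c = c0 + 1)) → β c i = 1 := by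
    intro c i h hn
    obtain ⟨h1, h2, h3, h4⟩ := hlr c i h
    obtain ⟨c', rfl⟩ : ∃ c', c = c' + 1 := ⟨c - 1, by omega⟩
    have hv := hV c' i (by omega) h3 h4
    rw [if_neg (by omega), if_neg (by omega)] at hv
    have := hβ (c' + 1) i
    omega
  -- (3)
  have t1 : ∀ c, β c i0 = 1 → c < c0 → l c i0 = 1 := by
    intro c h hc
    obtain ⟨h1, h2, h3, h4⟩ := hβr c i0 h
    have hv := hC c i0 h1 h2 h4
    rw [if_neg (by omega), if_neg (by omega)] at hv
    have := hl c i0
    omega
  have three : ∀ c i, β c i = 1 → c = c0 ∧ i = i0 := by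
    intro c i h
    obtain ⟨rfl, hc⟩ := one c i h
    refine ⟨?_, rfl⟩
    by_contra hne
    have hlt : c < c0 := by omega
    obtain ⟨h1, h2, h3, h4⟩ := hβr c i h
    have hl1 := t1 c h hlt
    by_cases hc1 : c + 1 = c0
    · have hv := hC c (i - 1) h1 h2 (by omega)
      rw [if_neg (by omega), if_neg (by omega), Nat.sub_add_cancel hi0] at hv
      have h5 := hl c (i - 1)
      have h6 : l c (i - 1) = 1 := by omega
      have h7 := two c (i - 1) h6 (by omega)
      have h8 := one c (i - 1) h7
      omega
    · have hv := hV c i h2 h3 h4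
      rw [if_neg (by omega), if_neg (by omega)] at hv
      have h5 := hβ (c + 1) i
      have h6 : β (c + 1) i = 1 := by omega
      have h7 := t1 (c + 1) h6 (by omega)
      omega
  refine ⟨three, ?_⟩
  intro c i h
  by_cases hn : i = i0 ∧ (c = c0 ∨ c = c0 + 1)
  · obtain ⟨rfl, hc | hc⟩ := hn
    · exact ⟨hc, rfl⟩
    · exfalso
      obtain ⟨h1, h2, h3, h4⟩ := hlr c i h
      have hv := hC c (i - 1) h1 h2 (by omega)
      rw [if_neg (by omega), if_neg (by omega), Nat.sub_add_cancel hi0] at hv
      have h5 := hl c (i - 1)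
      have h6 : l c (i - 1) = 1 := by omega
      have h7 := two c (i - 1) h6 (by omega)
      have h8 := one c (i - 1) h7
      omega
  · exact three c i (two c i h hn)

end Pool.Agent.H329
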