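import Pool.Agent.H329.Spec

/-!
# Forward direction: from a folding with many contacts to a solution of the grid problem
-/

namespace Pool.Agent.H329

namespace FwdAux

open Finset

/-! ### Ids -/

theorem pair_inj {K c i c' i' : ℕ} (hi : i < K) (hi' : i' < K)
    (h : c * K + i = c' * K + i') : c = c' ∧ i = i' := by
  have h1 : (c * K + i) / K = c := by
    rw [mul_comm, Nat.mul_add_div (by omega), Nat.div_eq_of_lt hi, add_zero]
  have h2 : (c' * K + i') / K = c' := by
    rw [mul_comm, Nat.mul_add_div (by omega), Nat.div_eq_of_lt hi', add_zero]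
  have h3 : c = c' := by rw [← h1, ← h2, h]
  subst h3
  exact ⟨rfl, by omega⟩

variable {G : Grid}

theorem idV_inj {c i c' i' : ℕ} (hi : i ≤ G.N) (hi' : i' ≤ G.N) :
    idV G c i = idV G c' i' ↔ c = c' ∧ i = i' := by
  constructor
  · intro h
    unfold idV at h
    exact pair_inj (K := G.N + 1) (by omega) (by omega) (by omega)
  · rintro ⟨rfl, rfl⟩; rfl

theorem idC_inj {c i c' i' : ℕ} (hi : i ≤ G.N) (hi' : i' ≤ G.N) :
    idC G c i = idC G c' i' ↔ c = c' ∧ i = i' := by
  constructor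
  · intro h
    unfold idC at h
    exact pair_inj (K := G.N + 1) (by omega) (by omega) (by omega)
  · rintro ⟨rfl, rfl⟩; rfl

theorem idVC {c i c' i' : ℕ} : idV G c i ≠ idC G c' i' := by
  unfold idV idC; omega

theorem idCV {c i c' i' : ℕ} : idC G c i ≠ idV G c' i' := by
  unfold idV idC; omega

theorem id_le {c i : ℕ} (hc : c ≤ G.M) (hi : i ≤ G.N) : idV G c i ≤ n0 G ∧ idC G c i ≤ n0 G := by
  unfold idV idC n0
  have : c * (G.N + 1) ≤ G.M * (G.N + 1) := Nat.mul_le_mul_right _ hc
  have h2 : 2 * (G.M + 1) * (G.N + 1) = 2 * (G.M * (G.N + 1)) + 2 * (G.N + 1) := by ring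
  omega

/-! ### Positive and negative parts of the sizes -/

/-- positive ids of a label -/
def pos (G : Grid) : Lab → Multiset ℕ
  | .vH c i => {idV G c i}
  | .vL c i => {idV G c i}
  | .cH c i => {idC G c i}
  | .cL c i => {idC G c i}
  | .lr c i => {idC G c (i - 1), idV G (c - 1) i}
  | .b c i => {idV G c i, idC G c i}
  | .ch _ _ => 0

/-- negative ids of a label -/
def neg (G : Grid) : Lab → Multiset ℕ
  | .lr c i => {idC G c i}
  | .b c i => {idV G (c - 1) i}
  | _ => 0

/-- small part of a label -/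
def sm (G : Grid) : Lab → ℕ
  | .vH _ _ => 2
  | .vL c i => 2 - G.w c i
  | .cH _ _ => 1
  | .cL _ _ => 0
  | .lr _ _ => 1
  | .b c i => 4 - G.w c i
  | .ch _ _ => 0

theorem code_le_u (h5 : S_CodeLe) {x : ℕ} (hx : x ≤ n0 G) : 32 * code G x + 4 ≤ uu G := by
  have := h5 G x hx
  unfold uu
  nlinarith

theorem labOk_bd {j : Lab} (hj : LabOk G j) : match j with
    | .vH c i => c ≤ G.M ∧ i ≤ G.N
    | .vL c i => c ≤ G.M ∧ i ≤ G.N
    | .cH c i => c ≤ G.M ∧ i ≤ G.N
    | .cL c i => c ≤ G.M ∧ i ≤ G.N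
    | .lr c i => 1 ≤ c ∧ c ≤ G.M ∧ 1 ≤ i ∧ i ≤ G.N
    | .b c i => 1 ≤ c ∧ c ≤ G.M ∧ 1 ≤ i ∧ i ≤ G.N
    | .ch c i => 1 ≤ c ∧ c ≤ G.M ∧ 1 ≤ i ∧ i ≤ G.N := by
  cases j <;> simp only [LabOk] at hj ⊢ <;> omega

theorem size_id (hG : G.Valid) (h5 : S_CodeLe) {j : Lab} (hj : LabOk G j) (hi : j.item = true) :
    Lab.size G j + 32 * ((neg G j).map (code G)).sum =
      8 * uu G + 32 * ((pos G j).map (code G)).sum + sm G j := by
  have hb := labOk_bd hj
  cases j with
  | vH c i =>
    have hw := hG.w_range c i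
    simp only [Lab.size, AV, neg, pos, sm, Multiset.map_zero, Multiset.sum_zero,
      Multiset.map_singleton, Multiset.sum_singleton]
    omega
  | vL c i =>
    have hw := hG.w_range c i
    simp only [Lab.size, AV, neg, pos, sm, Multiset.map_zero, Multiset.sum_zero,
      Multiset.map_singleton, Multiset.sum_singleton]
    omega
  | cH c i =>
    simp only [Lab.size, AC, neg, pos, sm, Multiset.map_zero, Multiset.sum_zero,
      Multiset.map_singleton, Multiset.sum_singleton]
    omega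
  | cL c i =>
    simp only [Lab.size, AC, neg, pos, sm, Multiset.map_zero, Multiset.sum_zero,
      Multiset.map_singleton, Multiset.sum_singleton]
    omega
  | lr c i =>
    have hb' : 1 ≤ c ∧ c ≤ G.M ∧ 1 ≤ i ∧ i ≤ G.N := hb
    have hw := hG.w_range (c - 1) i
    have e1 := code_le_u h5 (id_le (G := G) (c := c) (i := i) (by omega) (by omega)).2
    simp only [Lab.size, lLR, lUL, lLL, lUR, AC, AV, neg, pos, sm,
      Multiset.map_singleton, Multiset.sum_singleton, Multiset.insert_eq_cons, Multiset.map_cons,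
      Multiset.sum_cons]
    omega
  | b c i =>
    have hb' : 1 ≤ c ∧ c ≤ G.M ∧ 1 ≤ i ∧ i ≤ G.N := hb
    have hw := hG.w_range (c - 1) i
    have hw' := hG.w_range c i
    have e1 := code_le_u h5 (id_le (G := G) (c := c - 1) (i := i) (by omega) (by omega)).1
    simp only [Lab.size, lB, lT, lLL, lUR, AC, AV, neg, pos, sm,
      Multiset.map_singleton, Multiset.sum_singleton, Multiset.insert_eq_cons, Multiset.map_cons,
      Multiset.sum_cons]
    omega
  | ch c i => simp [Lab.item] at hi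

/-- target multiset of a bin -/
def tgt (G : Grid) (c i : ℕ) : Multiset ℕ :=
  {idV G c i, idV G c i, idV G (c - 1) i, idC G c (i - 1), idC G c (i - 1), idC G c i}

theorem pp_id (hG : G.Valid) {c i : ℕ} :
    pp G c i - 2 = 48 * uu G + 32 * ((tgt G c i).map (code G)).sum + (10 - 2 * G.w c i) := by
  have hw := hG.w_range (c - 1) i
  have hw' := hG.w_range c i
  simp only [pp, lT, lUL, lUR, lLL, AC, AV, tgt,
    Multiset.map_singleton, Multiset.sum_singleton, Multiset.insert_eq_cons, Multiset.map_cons,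
    Multiset.sum_cons]
  omega

/-! ### Counting -/

theorem count_pos_V {j : Lab} (hj : LabOk G j) {c i : ℕ} (hi : i ≤ G.N) :
    (pos G j).count (idV G c i) = (if j = .vH c i then 1 else 0) + (if j = .vL c i then 1 else 0) +
      (if j = .b c i then 1 else 0) + (if j = .lr (c + 1) i then 1 else 0) := by
  have hb := labOk_bd hj
  cases j with
  | vH c' i' =>
    have hb' : c' ≤ G.M ∧ i' ≤ G.N := hb
    simp [pos, Multiset.count_singleton, idV_inj hi hb'.2, eq_comm]
  | vL c' i' =>
    have hb' : c' ≤ G.M ∧ i' ≤ G.N := hb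
    simp [pos, Multiset.count_singleton, idV_inj hi hb'.2, eq_comm]
  | cH c' i' =>
    simp [pos, idVC]
  | cL c' i' =>
    simp [pos, idVC]
  | lr c' i' =>
    have hb' : 1 ≤ c' ∧ c' ≤ G.M ∧ 1 ≤ i' ∧ i' ≤ G.N := hb
    simp only [pos, Multiset.insert_eq_cons, Multiset.count_cons, Multiset.count_singleton,
      idV_inj hi hb'.2.2.2, idVC, reduceCtorEq, if_false, Lab.lr.injEq]
    by_cases h : c' = c + 1 ∧ i' = i
    · rw [if_pos h, if_pos (by omega)]
    · rw [if_neg h, if_neg (by omega)]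
  | b c' i' =>
    have hb' : 1 ≤ c' ∧ c' ≤ G.M ∧ 1 ≤ i' ∧ i' ≤ G.N := hb
    simp [pos, Multiset.count_cons, Multiset.count_singleton,
      idV_inj hi hb'.2.2.2, eq_comm]
    exact idCV
  | ch c' i' => simp [pos]

theorem count_neg_V {j : Lab} (hj : LabOk G j) {c i : ℕ} (hi : i ≤ G.N) :
    (neg G j).count (idV G c i) = (if j = .b (c + 1) i then 1 else 0) := by
  have hb := labOk_bd hj
  cases j with
  | vH c' i' => simp [neg]
  | vL c' i' => simp [neg]
  | cH c' i' => simp [neg]
  | cL c' i' => simp [neg]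
  | lr c' i' => simp [neg, idVC]
  | b c' i' =>
    have hb' : 1 ≤ c' ∧ c' ≤ G.M ∧ 1 ≤ i' ∧ i' ≤ G.N := hb
    simp only [neg, Multiset.count_singleton, idV_inj hi hb'.2.2.2, Lab.b.injEq]
    by_cases h : c' = c + 1 ∧ i' = i
    · rw [if_pos h, if_pos (by omega)]
    · rw [if_neg h, if_neg (by omega)]
  | ch c' i' => simp [neg]

theorem count_pos_C {j : Lab} (hj : LabOk G j) {c i : ℕ} (hi : i ≤ G.N) :
    (pos G j).count (idC G c i) = (if j = .cH c i then 1 else 0) + (if j = .cL c i then 1 else 0) +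
      (if j = .b c i then 1 else 0) + (if j = .lr c (i + 1) then 1 else 0) := by
  have hb := labOk_bd hj
  cases j with
  | vH c' i' => simp [pos, idCV]
  | vL c' i' => simp [pos, idCV]
  | cH c' i' =>
    have hb' : c' ≤ G.M ∧ i' ≤ G.N := hb
    simp [pos, Multiset.count_singleton, idC_inj hi hb'.2, eq_comm]
  | cL c' i' =>
    have hb' : c' ≤ G.M ∧ i' ≤ G.N := hb
    simp [pos, Multiset.count_singleton, idC_inj hi hb'.2, eq_comm]
  | lr c' i' =>
    have hb' : 1 ≤ c' ∧ c' ≤ G.M ∧ 1 ≤ i' ∧ i' ≤ G.N := hb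
    have hb2 : i' - 1 ≤ G.N := by omega
    simp only [pos, Multiset.insert_eq_cons, Multiset.count_cons, Multiset.count_singleton,
      idC_inj hi hb2, idCV, reduceCtorEq, if_false, Lab.lr.injEq]
    by_cases h : c' = c ∧ i' = i + 1
    · rw [if_pos h, if_pos (by omega)]
    · rw [if_neg h, if_neg (by omega)]
  | b c' i' =>
    have hb' : 1 ≤ c' ∧ c' ≤ G.M ∧ 1 ≤ i' ∧ i' ≤ G.N := hb
    simp [pos, Multiset.count_singleton, idC_inj hi hb'.2.2.2, idCV, eq_comm]
  | ch c' i' => simp [pos]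

theorem count_neg_C {j : Lab} (hj : LabOk G j) {c i : ℕ} (hi : i ≤ G.N) :
    (neg G j).count (idC G c i) = (if j = .lr c i then 1 else 0) := by
  have hb := labOk_bd hj
  cases j with
  | vH c' i' => simp [neg]
  | vL c' i' => simp [neg]
  | cH c' i' => simp [neg]
  | cL c' i' => simp [neg]
  | b c' i' => simp [neg, idCV]
  | lr c' i' =>
    have hb' : 1 ≤ c' ∧ c' ≤ G.M ∧ 1 ≤ i' ∧ i' ≤ G.N := hb
    simp [neg, Multiset.count_singleton, idC_inj hi hb'.2.2.2, eq_comm]
  | ch c' i' => simp [neg]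

theorem count_tgt_V {c0 i0 c i : ℕ} (h1 : 1 ≤ c0) (hi0 : i0 ≤ G.N) (hi : i ≤ G.N) :
    (tgt G c0 i0).count (idV G c i) =
      (if c = c0 ∧ i = i0 then 2 else 0) + (if c + 1 = c0 ∧ i = i0 then 1 else 0) := by
  simp only [tgt, Multiset.insert_eq_cons, Multiset.count_cons, Multiset.count_singleton,
      idV_inj hi hi0, idVC, if_false]
  split_ifs <;> omega

theorem count_tgt_C {c0 i0 c i : ℕ} (h1 : 1 ≤ i0) (hi0 : i0 ≤ G.N) (hi : i ≤ G.N) :
    (tgt G c0 i0).count (idC G c i) =
      (if c = c0 ∧ i + 1 = i0 then 2 else 0) + (if c = c0 ∧ i = i0 then 1 else 0) := by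
  have h2 : i0 - 1 ≤ G.N := by omega
  simp only [tgt, Multiset.insert_eq_cons, Multiset.count_cons, Multiset.count_singleton,
      idC_inj hi hi0, idC_inj hi h2, idCV, if_false]
  split_ifs <;> omega

/-! ### One bin -/

/-- membership indicator -/
def chi (S : Finset Lab) (j : Lab) : ℕ := if j ∈ S then 1 else 0

theorem sum_ind (S : Finset Lab) (a : Lab) : ∑ j ∈ S, (if j = a then 1 else 0) = chi S a := by
  unfold chi
  rw [Finset.sum_ite_eq']

theorem chi_le (S : Finset Lab) (a : Lab) : chi S a ≤ 1 := by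
  unfold chi; split_ifs <;> omega

theorem chi_one {S : Finset Lab} {a : Lab} : chi S a = 1 ↔ a ∈ S := by
  unfold chi; split_ifs with h <;> simp [h]

theorem chi_zero {S : Finset Lab} {a : Lab} : chi S a = 0 ↔ a ∉ S := by
  unfold chi; split_ifs with h <;> simp [h]

/-- The hypotheses about the set of items of a bin. -/
structure IsBin (G : Grid) (c0 i0 : ℕ) (S : Finset Lab) : Prop where
  c_pos : 1 ≤ c0
  c_le : c0 ≤ G.M
  i_pos : 1 ≤ i0
  i_le : i0 ≤ G.N
  ok : ∀ j ∈ S, LabOk G j
  item : ∀ j ∈ S, j.item = true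
  card : S.card = 6
  sum : ∑ j ∈ S, Lab.size G j = pp G c0 i0 - 2

theorem pos_card (j : Lab) : (pos G j).card ≤ 2 := by
  cases j <;> simp [pos]

theorem neg_card (j : Lab) : (neg G j).card ≤ 1 := by
  cases j <;> simp [neg]

theorem sm_le (hG : G.Valid) (j : Lab) : sm G j ≤ 3 := by
  cases j with
  | vH c i => simp [sm]
  | vL c i => simp only [sm]; omega
  | cH c i => simp [sm]
  | cL c i => simp [sm]
  | lr c i => simp [sm]
  | b c i => have := hG.w_range c i; simp only [sm]; omega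
  | ch c i => simp [sm]

theorem map_sum_code (S : Finset Lab) (f : Lab → Multiset ℕ) :
    ((∑ j ∈ S, f j).map (code G)).sum = ∑ j ∈ S, ((f j).map (code G)).sum := by
  classical
  induction S using Finset.induction_on with
  | empty => simp
  | insert a s ha ih => rw [Finset.sum_insert ha, Finset.sum_insert ha, Multiset.map_add,
      Multiset.sum_add, ih]

theorem bin_eqs (hG : G.Valid) (h4 : S_Codes) (h5 : S_CodeLe) {c0 i0 : ℕ} {S : Finset Lab}
    (hS : IsBin G c0 i0 S) :
    (∑ j ∈ S, sm G j = 10 - 2 * G.w c0 i0) ∧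
    (∑ j ∈ S, pos G j = tgt G c0 i0 + ∑ j ∈ S, neg G j) := by
  have e1 : ∑ j ∈ S, (Lab.size G j + 32 * ((neg G j).map (code G)).sum) =
      ∑ j ∈ S, (8 * uu G + 32 * ((pos G j).map (code G)).sum + sm G j) :=
    Finset.sum_congr rfl fun j hj => size_id hG h5 (hS.ok j hj) (hS.item j hj)
  rw [Finset.sum_add_distrib, Finset.sum_add_distrib, Finset.sum_add_distrib, hS.sum,
    Finset.sum_const, hS.card, ← Finset.mul_sum, ← Finset.mul_sum, pp_id hG, smul_eq_mul] at e1
  have e2 : ∑ j ∈ S, sm G j ≤ 18 := by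
    calc ∑ j ∈ S, sm G j ≤ ∑ j ∈ S, 3 := Finset.sum_le_sum fun j _ => sm_le hG j
      _ = 18 := by rw [Finset.sum_const, hS.card]; rfl
  have hw := hG.w_range c0 i0
  refine ⟨by omega, ?_⟩
  have e3 : ∑ j ∈ S, ((pos G j).map (code G)).sum =
      ((tgt G c0 i0).map (code G)).sum + ∑ j ∈ S, ((neg G j).map (code G)).sum := by omega
  apply h4 G
  · intro x hx
    rw [Multiset.mem_sum] at hx
    obtain ⟨j, hj, hx⟩ := hx
    have hb := labOk_bd (hS.ok j hj)
    cases j with
    | vH c i => simp only [pos, Multiset.mem_singleton] at hx; subst hx; exact (id_le hb.1 hb.2).1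
    | vL c i => simp only [pos, Multiset.mem_singleton] at hx; subst hx; exact (id_le hb.1 hb.2).1
    | cH c i => simp only [pos, Multiset.mem_singleton] at hx; subst hx; exact (id_le hb.1 hb.2).2
    | cL c i => simp only [pos, Multiset.mem_singleton] at hx; subst hx; exact (id_le hb.1 hb.2).2
    | lr c i =>
      have hb' : 1 ≤ c ∧ c ≤ G.M ∧ 1 ≤ i ∧ i ≤ G.N := hb
      simp only [pos, Multiset.insert_eq_cons, Multiset.mem_cons, Multiset.mem_singleton] at hx
      rcases hx with rfl | rfl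
      · exact (id_le (by omega) (by omega)).2
      · exact (id_le (by omega) (by omega)).1
    | b c i =>
      have hb' : 1 ≤ c ∧ c ≤ G.M ∧ 1 ≤ i ∧ i ≤ G.N := hb
      simp only [pos, Multiset.insert_eq_cons, Multiset.mem_cons, Multiset.mem_singleton] at hx
      rcases hx with rfl | rfl
      · exact (id_le (by omega) (by omega)).1
      · exact (id_le (by omega) (by omega)).2
    | ch c i => simp [pos] at hx
  · intro x hx
    rw [Multiset.mem_add] at hx
    rcases hx with hx | hx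
    · have h1 := hS.c_le
      have h2 := hS.i_le
      simp only [tgt, Multiset.insert_eq_cons, Multiset.mem_cons, Multiset.mem_singleton] at hx
      rcases hx with rfl | rfl | rfl | rfl | rfl | rfl
      · exact (id_le (by omega) (by omega)).1
      · exact (id_le (by omega) (by omega)).1
      · exact (id_le (by omega) (by omega)).1
      · exact (id_le (by omega) (by omega)).2
      · exact (id_le (by omega) (by omega)).2
      · exact (id_le (by omega) (by omega)).2
    · rw [Multiset.mem_sum] at hx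
      obtain ⟨j, hj, hx⟩ := hx
      have hb := labOk_bd (hS.ok j hj)
      cases j with
      | vH c i => simp [neg] at hx
      | vL c i => simp [neg] at hx
      | cH c i => simp [neg] at hx
      | cL c i => simp [neg] at hx
      | lr c i =>
        have hb' : 1 ≤ c ∧ c ≤ G.M ∧ 1 ≤ i ∧ i ≤ G.N := hb
        simp only [neg, Multiset.mem_singleton] at hx
        subst hx
        exact (id_le (by omega) (by omega)).2
      | b c i =>
        have hb' : 1 ≤ c ∧ c ≤ G.M ∧ 1 ≤ i ∧ i ≤ G.N := hb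
        simp only [neg, Multiset.mem_singleton] at hx
        subst hx
        exact (id_le (by omega) (by omega)).1
      | ch c i => simp [neg] at hx
  · rw [Multiset.card_add, Multiset.card_sum, Multiset.card_sum]
    have a1 : ∑ j ∈ S, (pos G j).card ≤ 12 := by
      calc ∑ j ∈ S, (pos G j).card ≤ ∑ j ∈ S, 2 := Finset.sum_le_sum fun j _ => pos_card j
        _ = 12 := by rw [Finset.sum_const, hS.card]; rfl
    have a2 : ∑ j ∈ S, (neg G j).card ≤ 6 := by
      calc ∑ j ∈ S, (neg G j).card ≤ ∑ j ∈ S, 1 := Finset.sum_le_sum fun j _ => neg_card j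
        _ = 6 := by rw [Finset.sum_const, hS.card]; rfl
    have a3 : (tgt G c0 i0).card = 6 := by simp [tgt]
    omega
  · rw [Multiset.map_add, Multiset.sum_add, map_sum_code, map_sum_code, e3]

theorem count_sum' (S : Finset Lab) (f : Lab → Multiset ℕ) (x : ℕ) :
    (∑ j ∈ S, f j).count x = ∑ j ∈ S, (f j).count x := Multiset.count_sum'

/-- the two families of equations of a bin -/
theorem bin_V (hG : G.Valid) (h4 : S_Codes) (h5 : S_CodeLe) {c0 i0 : ℕ} {S : Finset Lab}
    (hS : IsBin G c0 i0 S) {c i : ℕ} (hi : i ≤ G.N) :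
    (chi S (.vH c i) + chi S (.vL c i)) + chi S (.b c i) + chi S (.lr (c + 1) i) =
      (if c = c0 ∧ i = i0 then 2 else 0) + (if c + 1 = c0 ∧ i = i0 then 1 else 0) +
        chi S (.b (c + 1) i) := by
  have h := congrArg (Multiset.count (idV G c i)) (bin_eqs hG h4 h5 hS).2
  rw [Multiset.count_add, count_sum', count_sum', count_tgt_V hS.c_pos hS.i_le hi,
    Finset.sum_congr rfl fun j hj => count_pos_V (hS.ok j hj) hi,
    Finset.sum_congr rfl fun j hj => count_neg_V (hS.ok j hj) hi] at h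
  simp only [Finset.sum_add_distrib, sum_ind] at h
  exact h

theorem bin_C (hG : G.Valid) (h4 : S_Codes) (h5 : S_CodeLe) {c0 i0 : ℕ} {S : Finset Lab}
    (hS : IsBin G c0 i0 S) {c i : ℕ} (hi : i ≤ G.N) :
    (chi S (.cH c i) + chi S (.cL c i)) + chi S (.b c i) + chi S (.lr c (i + 1)) =
      (if c = c0 ∧ i + 1 = i0 then 2 else 0) + (if c = c0 ∧ i = i0 then 1 else 0) +
        chi S (.lr c i) := by
  have h := congrArg (Multiset.count (idC G c i)) (bin_eqs hG h4 h5 hS).2
  rw [Multiset.count_add, count_sum', count_sum', count_tgt_C hS.i_pos hS.i_le hi,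
    Finset.sum_congr rfl fun j hj => count_pos_C (hS.ok j hj) hi,
    Finset.sum_congr rfl fun j hj => count_neg_C (hS.ok j hj) hi] at h
  simp only [Finset.sum_add_distrib, sum_ind] at h
  exact h

theorem bin_force (hG : G.Valid) (h4 : S_Codes) (h5 : S_CodeLe) (h6 : S_Force) {c0 i0 : ℕ}
    {S : Finset Lab} (hS : IsBin G c0 i0 S) :
    (∀ c i, Lab.b c i ∈ S → c = c0 ∧ i = i0) ∧ (∀ c i, Lab.lr c i ∈ S → c = c0 ∧ i = i0) := by
  have := h6 G.M G.N c0 i0 (fun c i => chi S (.b c i)) (fun c i => chi S (.lr c i))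
    (fun c i => chi S (.vH c i) + chi S (.vL c i)) (fun c i => chi S (.cH c i) + chi S (.cL c i))
    hS.c_pos hS.c_le hS.i_pos hS.i_le (fun c i => chi_le _ _) (fun c i => chi_le _ _)
    (fun c i h => by have := hS.ok _ (chi_one.1 h); exact this)
    (fun c i h => by have := hS.ok _ (chi_one.1 h); exact this)
    (fun c i _ _ hi => bin_V hG h4 h5 hS hi)
    (fun c i _ _ hi => bin_C hG h4 h5 hS hi)
  exact ⟨fun c i h => this.1 c i (chi_one.2 h), fun c i h => this.2 c i (chi_one.2 h)⟩

/-- contents of a bin -/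
theorem bin_cont (hG : G.Valid) (h4 : S_Codes) (h5 : S_CodeLe) (h6 : S_Force) {c0 i0 : ℕ}
    {S : Finset Lab} (hS : IsBin G c0 i0 S) (hb : Lab.b c0 i0 ∈ S) (hl : Lab.lr c0 i0 ∈ S) :
    (∀ c i, i ≤ G.N → chi S (.vH c i) + chi S (.vL c i) =
      (if c = c0 ∧ i = i0 then 1 else 0) + (if c + 1 = c0 ∧ i = i0 then 1 else 0)) ∧
    (∀ c i, i ≤ G.N → chi S (.cH c i) + chi S (.cL c i) =
      (if c = c0 ∧ i = i0 then 1 else 0) + (if c = c0 ∧ i + 1 = i0 then 1 else 0)) := by
  obtain ⟨f1, f2⟩ := bin_force hG h4 h5 h6 hS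
  have eb : ∀ c i, chi S (.b c i) = if c = c0 ∧ i = i0 then 1 else 0 := by
    intro c i
    by_cases h : Lab.b c i ∈ S
    · rw [chi_one.2 h, if_pos (f1 c i h)]
    · rw [chi_zero.2 h, if_neg]
      rintro ⟨rfl, rfl⟩; exact h hb
  have el : ∀ c i, chi S (.lr c i) = if c = c0 ∧ i = i0 then 1 else 0 := by
    intro c i
    by_cases h : Lab.lr c i ∈ S
    · rw [chi_one.2 h, if_pos (f2 c i h)]
    · rw [chi_zero.2 h, if_neg]
      rintro ⟨rfl, rfl⟩; exact h hl
  constructor
  · intro c i hi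
    have := bin_V hG h4 h5 hS (c := c) hi
    rw [eb, eb, el] at this
    split_ifs at this ⊢ <;> omega
  · intro c i hi
    have := bin_C hG h4 h5 hS (c := c) hi
    rw [eb, el, el] at this
    split_ifs at this ⊢ <;> omega

/-- the balance equation of a bin -/
theorem bin_small (hG : G.Valid) (h4 : S_Codes) (h5 : S_CodeLe) (h6 : S_Force) {c0 i0 : ℕ}
    {S : Finset Lab} (hS : IsBin G c0 i0 S) (hb : Lab.b c0 i0 ∈ S) (hl : Lab.lr c0 i0 ∈ S) :
    G.w c0 i0 * chi S (.vH c0 i0) + chi S (.cH c0 i0) + G.w (c0 - 1) i0 * chi S (.vH (c0 - 1) i0) +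
      chi S (.cH c0 (i0 - 1)) = G.w (c0 - 1) i0 + 1 := by
  obtain ⟨g1, g2⟩ := bin_cont hG h4 h5 h6 hS hb hl
  have hc1 := hS.c_pos
  have hi1 := hS.i_pos
  have hiN := hS.i_le
  obtain ⟨f1, f2⟩ := bin_force hG h4 h5 h6 hS
  let C : Finset Lab := {Lab.b c0 i0, Lab.lr c0 i0, Lab.vH c0 i0, Lab.vL c0 i0,
    Lab.vH (c0 - 1) i0, Lab.vL (c0 - 1) i0, Lab.cH c0 i0, Lab.cL c0 i0, Lab.cH c0 (i0 - 1),
    Lab.cL c0 (i0 - 1)}
  have hsub : S ⊆ C := by
    intro j hj
    have hbd := labOk_bd (hS.ok j hj)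
    have hit := hS.item j hj
    cases j with
    | vH c i =>
      have hb' : c ≤ G.M ∧ i ≤ G.N := hbd
      have h := g1 c i hb'.2
      rw [chi_one.2 hj] at h
      have : (c = c0 ∧ i = i0) ∨ (c + 1 = c0 ∧ i = i0) := by
        by_contra hcon
        push Not at hcon
        rw [if_neg (by tauto), if_neg (by tauto)] at h
        omega
      rcases this with ⟨rfl, rfl⟩ | ⟨h1, rfl⟩
      · simp [C]
      · have : c = c0 - 1 := by omega
        subst this
        simp [C]
    | vL c i =>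
      have hb' : c ≤ G.M ∧ i ≤ G.N := hbd
      have h := g1 c i hb'.2
      rw [chi_one.2 hj] at h
      have : (c = c0 ∧ i = i0) ∨ (c + 1 = c0 ∧ i = i0) := by
        by_contra hcon
        push Not at hcon
        rw [if_neg (by tauto), if_neg (by tauto)] at h
        omega
      rcases this with ⟨rfl, rfl⟩ | ⟨h1, rfl⟩
      · simp [C]
      · have : c = c0 - 1 := by omega
        subst this
        simp [C]
    | cH c i =>
      have hb' : c ≤ G.M ∧ i ≤ G.N := hbd
      have h := g2 c i hb'.2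
      rw [chi_one.2 hj] at h
      have : (c = c0 ∧ i = i0) ∨ (c = c0 ∧ i + 1 = i0) := by
        by_contra hcon
        push Not at hcon
        rw [if_neg (by tauto), if_neg (by tauto)] at h
        omega
      rcases this with ⟨rfl, rfl⟩ | ⟨rfl, h1⟩
      · simp [C]
      · have : i = i0 - 1 := by omega
        subst this
        simp [C]
    | cL c i =>
      have hb' : c ≤ G.M ∧ i ≤ G.N := hbd
      have h := g2 c i hb'.2
      rw [chi_one.2 hj] at h
      have : (c = c0 ∧ i = i0) ∨ (c = c0 ∧ i + 1 = i0) := by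
        by_contra hcon
        push Not at hcon
        rw [if_neg (by tauto), if_neg (by tauto)] at h
        omega
      rcases this with ⟨rfl, rfl⟩ | ⟨rfl, h1⟩
      · simp [C]
      · have : i = i0 - 1 := by omega
        subst this
        simp [C]
    | lr c i => obtain ⟨rfl, rfl⟩ := f2 c i hj; simp [C]
    | b c i => obtain ⟨rfl, rfl⟩ := f1 c i hj; simp [C]
    | ch c i => simp [Lab.item] at hit
  have hsum : ∑ j ∈ S, sm G j = ∑ j ∈ C, chi S j * sm G j := by
    rw [← Finset.sum_subset hsub (f := fun j => chi S j * sm G j)]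
    · exact Finset.sum_congr rfl fun j hj => by rw [chi_one.2 hj, one_mul]
    · intro j _ hj
      rw [chi_zero.2 hj, zero_mul]
  have n1 : c0 ≠ c0 - 1 := by omega
  have n2 : i0 ≠ i0 - 1 := by omega
  have hC : ∑ j ∈ C, chi S j * sm G j = chi S (Lab.b c0 i0) * sm G (Lab.b c0 i0) +
      (chi S (Lab.lr c0 i0) * sm G (Lab.lr c0 i0) + (chi S (Lab.vH c0 i0) * sm G (Lab.vH c0 i0) +
      (chi S (Lab.vL c0 i0) * sm G (Lab.vL c0 i0) +
      (chi S (Lab.vH (c0 - 1) i0) * sm G (Lab.vH (c0 - 1) i0) +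
      (chi S (Lab.vL (c0 - 1) i0) * sm G (Lab.vL (c0 - 1) i0) +
      (chi S (Lab.cH c0 i0) * sm G (Lab.cH c0 i0) + (chi S (Lab.cL c0 i0) * sm G (Lab.cL c0 i0) +
      (chi S (Lab.cH c0 (i0 - 1)) * sm G (Lab.cH c0 (i0 - 1)) +
      chi S (Lab.cL c0 (i0 - 1)) * sm G (Lab.cL c0 (i0 - 1)))))))))) := by
    simp only [C]
    rw [Finset.sum_insert (by simp), Finset.sum_insert (by simp), Finset.sum_insert (by simp [n1]),
      Finset.sum_insert (by simp [n1]), Finset.sum_insert (by simp), Finset.sum_insert (by simp),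
      Finset.sum_insert (by simp [n2]), Finset.sum_insert (by simp [n2]),
      Finset.sum_insert (by simp), Finset.sum_singleton]
  have hfin := (bin_eqs hG h4 h5 hS).1
  rw [hsum, hC, chi_one.2 hb, chi_one.2 hl] at hfin
  simp only [sm] at hfin
  have q1 := g1 c0 i0 hiN
  rw [if_pos ⟨rfl, rfl⟩, if_neg (by omega)] at q1
  have q2 := g1 (c0 - 1) i0 hiN
  rw [if_neg (by omega), if_pos ⟨by omega, rfl⟩] at q2
  have q3 := g2 c0 i0 hiN
  rw [if_pos ⟨rfl, rfl⟩, if_neg (by omega)] at q3
  have q4 := g2 c0 (i0 - 1) (by omega)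
  rw [if_neg (by omega), if_pos ⟨rfl, by omega⟩] at q4
  have hw1 := hG.w_range c0 i0
  have hw2 := hG.w_range (c0 - 1) i0
  rcases hw1 with hw1 | hw1 <;> rcases hw2 with hw2 | hw2 <;> rw [hw1, hw2] at hfin ⊢ <;> omega

end FwdAux

open FwdAux Finset in
/-- From a folding with many contacts to a solution of the grid problem. -/
theorem Forward_proof (h1 : S_Structure) (h2 : S_Inst) (h3 : S_Num) (h4 : S_Codes)
    (h5 : S_CodeLe) (h6 : S_Force) : S_Forward := by
  intro G hG hfold
  obtain ⟨i1, i2, i3⟩ := h2 G hG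
  obtain ⟨φ, p1, p2⟩ := h1 Lab (bd G) (toks G) (pL G) i1 i2 (h3 G hG) hfold
  have hmem : ∀ j, j ∈ (labels (toks G)).toFinset ↔ LabOk G j := by
    intro j; rw [List.mem_toFinset, i3]
  have hitem : ∀ j, (bd G).item j = j.item := fun j => rfl
  have q1 : ∀ j, LabOk G j → j.item = true →
      ∃ c i, φ j = .ch c i ∧ 1 ≤ c ∧ c ≤ G.M ∧ 1 ≤ i ∧ i ≤ G.N := by
    intro j hj hi
    obtain ⟨a1, a2⟩ := p1 j ((hmem j).2 hj) hi
    rw [hmem] at a1
    rw [hitem] at a2
    cases hφ : φ j with
    | ch c i => rw [hφ] at a1; exact ⟨c, i, rfl, a1⟩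
    | _ => rw [hφ] at a2; simp [Lab.item] at a2
  let S : ℕ → ℕ → Finset Lab := fun c i =>
    (labels (toks G)).toFinset.filter fun j => (bd G).item j = true ∧ φ j = .ch c i
  have hS : ∀ c i, 1 ≤ c → c ≤ G.M → 1 ≤ i → i ≤ G.N → IsBin G c i (S c i) := by
    intro c i hc hc' hi hi'
    obtain ⟨a1, a2⟩ := p2 (.ch c i) ((hmem _).2 ⟨hc, hc', hi, hi'⟩) rfl
    refine ⟨hc, hc', hi, hi', ?_, ?_, a1, a2⟩
    · intro j hj
      exact (hmem j).1 (Finset.mem_filter.1 hj).1
    · intro j hj
      exact (Finset.mem_filter.1 hj).2.1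
  have memS : ∀ j c i, j ∈ S c i ↔ (LabOk G j ∧ j.item = true ∧ φ j = .ch c i) := by
    intro j c i
    simp only [S, Finset.mem_filter, hmem, hitem]
  have hb : ∀ c i, 1 ≤ c → c ≤ G.M → 1 ≤ i → i ≤ G.N → Lab.b c i ∈ S c i := by
    intro c i hc hc' hi hi'
    have ok : LabOk G (.b c i) := ⟨hc, hc', hi, hi'⟩
    obtain ⟨c', i', e, b1, b2, b3, b4⟩ := q1 _ ok rfl
    have hm : Lab.b c i ∈ S c' i' := (memS _ _ _).2 ⟨ok, rfl, e⟩
    obtain ⟨rfl, rfl⟩ := (bin_force hG h4 h5 h6 (hS c' i' b1 b2 b3 b4)).1 c i hm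
    exact hm
  have hl : ∀ c i, 1 ≤ c → c ≤ G.M → 1 ≤ i → i ≤ G.N → Lab.lr c i ∈ S c i := by
    intro c i hc hc' hi hi'
    have ok : LabOk G (.lr c i) := ⟨hc, hc', hi, hi'⟩
    obtain ⟨c', i', e, b1, b2, b3, b4⟩ := q1 _ ok rfl
    have hm : Lab.lr c i ∈ S c' i' := (memS _ _ _).2 ⟨ok, rfl, e⟩
    obtain ⟨rfl, rfl⟩ := (bin_force hG h4 h5 h6 (hS c' i' b1 b2 b3 b4)).2 c i hm
    exact hm
  -- where the heavy items go
  have hv : ∀ c i, LabOk G (.vH c i) → φ (.vH c i) = .ch c i ∨ φ (.vH c i) = .ch (c + 1) i := by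
    intro c i ok
    obtain ⟨c', i', e, b1, b2, b3, b4⟩ := q1 _ ok rfl
    have hm : Lab.vH c i ∈ S c' i' := (memS _ _ _).2 ⟨ok, rfl, e⟩
    have g := (bin_cont hG h4 h5 h6 (hS c' i' b1 b2 b3 b4) (hb c' i' b1 b2 b3 b4)
      (hl c' i' b1 b2 b3 b4)).1 c i ok.2.2
    rw [chi_one.2 hm] at g
    have : (c = c' ∧ i = i') ∨ (c + 1 = c' ∧ i = i') := by
      by_contra hcon
      push Not at hcon
      rw [if_neg (by tauto), if_neg (by tauto)] at g
      omega
    rcases this with ⟨rfl, rfl⟩ | ⟨rfl, rfl⟩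
    · exact Or.inl e
    · exact Or.inr e
  have hh' : ∀ c i, LabOk G (.cH c i) → φ (.cH c i) = .ch c i ∨ φ (.cH c i) = .ch c (i + 1) := by
    intro c i ok
    obtain ⟨c', i', e, b1, b2, b3, b4⟩ := q1 _ ok rfl
    have hm : Lab.cH c i ∈ S c' i' := (memS _ _ _).2 ⟨ok, rfl, e⟩
    have g := (bin_cont hG h4 h5 h6 (hS c' i' b1 b2 b3 b4) (hb c' i' b1 b2 b3 b4)
      (hl c' i' b1 b2 b3 b4)).2 c i (labOk_bd ok).2
    rw [chi_one.2 hm] at g
    have : (c = c' ∧ i = i') ∨ (c = c' ∧ i + 1 = i') := by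
      by_contra hcon
      push Not at hcon
      rw [if_neg (by tauto), if_neg (by tauto)] at g
      omega
    rcases this with ⟨rfl, rfl⟩ | ⟨rfl, rfl⟩
    · exact Or.inl e
    · exact Or.inr e
  have nochz : ∀ j i, LabOk G j → j.item = true → φ j ≠ .ch 0 i := by
    intro j i ok it e
    obtain ⟨c', i', e', b1, b2, b3, b4⟩ := q1 _ ok it
    rw [e] at e'
    simp only [Lab.ch.injEq] at e'
    omega
  have nochz' : ∀ j c, LabOk G j → j.item = true → φ j ≠ .ch c 0 := by
    intro j c ok it e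
    obtain ⟨c', i', e', b1, b2, b3, b4⟩ := q1 _ ok it
    rw [e] at e'
    simp only [Lab.ch.injEq] at e'
    omega
  have nochN : ∀ j c, LabOk G j → j.item = true → φ j ≠ .ch c (G.N + 1) := by
    intro j c ok it e
    obtain ⟨c', i', e', b1, b2, b3, b4⟩ := q1 _ ok it
    rw [e] at e'
    simp only [Lab.ch.injEq] at e'
    omega
  let v : ℕ → ℕ → ℕ := fun c i => chi (S c i) (.vH c i)
  let h : ℕ → ℕ → ℕ := fun c i => if i = 0 then G.hL c else chi (S c i) (.cH c i)
  refine ⟨v, h, ?_, ?_, ?_, ?_, ?_, ?_, ?_⟩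
  · intro c i; exact chi_le _ _
  · intro c i
    by_cases hi : i = 0
    · simp only [h, if_pos hi]; exact hG.hL_range c
    · simp only [h, if_neg hi]; exact chi_le _ _
  · intro i
    refine chi_zero.2 fun hm => ?_
    obtain ⟨ok, it, e⟩ := (memS _ _ _).1 hm
    exact nochz _ _ ok it e
  · intro i
    refine chi_zero.2 fun hm => ?_
    obtain ⟨ok, it, e⟩ := (memS _ _ _).1 hm
    simp only [LabOk] at ok
    omega
  · intro c _ _
    simp only [h, if_pos]
  · intro c hc hc'
    have hN := hG.N_pos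
    simp only [h, if_neg (show ¬ G.N = 0 by omega)]
    by_cases hR : G.hR c = 1
    · have ok : LabOk G (.cH c G.N) := ⟨hc, hc', Or.inr (Or.inr ⟨rfl, hR⟩)⟩
      rw [hR, chi_one, memS]
      refine ⟨ok, rfl, ?_⟩
      rcases hh' c G.N ok with e | e
      · exact e
      · exact absurd e (nochN _ _ ok rfl)
    · have h0 : G.hR c = 0 := by have := hG.hR_range c; omega
      rw [h0, chi_zero]
      intro hm
      obtain ⟨ok, it, e⟩ := (memS _ _ _).1 hm
      simp only [LabOk] at ok
      omega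
  · intro c i hc hc' hi hi'
    have key := bin_small hG h4 h5 h6 (hS c i hc hc' hi hi') (hb c i hc hc' hi hi')
      (hl c i hc hc' hi hi')
    have k1 : chi (S c i) (.vH (c - 1) i) + v (c - 1) i = 1 := by
      have ok : LabOk G (.vH (c - 1) i) := ⟨by omega, hi, hi'⟩
      rcases hv _ _ ok with e | e
      · have a1 : v (c - 1) i = 1 := chi_one.2 ((memS _ _ _).2 ⟨ok, rfl, e⟩)
        have a2 : chi (S c i) (.vH (c - 1) i) = 0 := by
          rw [chi_zero]
          intro hm
          obtain ⟨_, _, e'⟩ := (memS _ _ _).1 hm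
          rw [e] at e'
          simp only [Lab.ch.injEq] at e'
          omega
        omega
      · rw [show c - 1 + 1 = c by omega] at e
        have a1 : chi (S c i) (.vH (c - 1) i) = 1 := chi_one.2 ((memS _ _ _).2 ⟨ok, rfl, e⟩)
        have a2 : v (c - 1) i = 0 := by
          refine chi_zero.2 fun hm => ?_
          obtain ⟨_, _, e'⟩ := (memS _ _ _).1 hm
          rw [e] at e'
          simp only [Lab.ch.injEq] at e'
          omega
        omega
    have k2 : chi (S c i) (.cH c (i - 1)) + h c (i - 1) = 1 := by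
      by_cases hi1 : i - 1 = 0
      · have hh1 : h c (i - 1) = G.hL c := by simp only [h, if_pos hi1]
        rw [hh1, hi1]
        have hi2 : i = 1 := by omega
        subst hi2
        have hN := hG.N_pos
        have hL := hG.hL_range c
        by_cases hL1 : G.hL c = 1
        · have : chi (S c 1) (.cH c 0) = 0 := by
            rw [chi_zero]
            intro hm
            obtain ⟨ok, _, _⟩ := (memS _ _ _).1 hm
            simp only [LabOk] at ok
            omega
          omega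
        · have ok : LabOk G (.cH c 0) := ⟨hc, hc', Or.inr (Or.inl ⟨rfl, hL1⟩)⟩
          have : chi (S c 1) (.cH c 0) = 1 := by
            rw [chi_one, memS]
            refine ⟨ok, rfl, ?_⟩
            rcases hh' c 0 ok with e | e
            · exact absurd e (nochz' _ _ ok rfl)
            · exact e
          omega
      · have hh1 : h c (i - 1) = chi (S c (i - 1)) (.cH c (i - 1)) := by
          simp only [h, if_neg hi1]
        rw [hh1]
        have ok : LabOk G (.cH c (i - 1)) := ⟨hc, hc', Or.inl ⟨by omega, by omega⟩⟩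
        rcases hh' _ _ ok with e | e
        · have a1 : chi (S c (i - 1)) (.cH c (i - 1)) = 1 :=
            chi_one.2 ((memS _ _ _).2 ⟨ok, rfl, e⟩)
          have a2 : chi (S c i) (.cH c (i - 1)) = 0 := by
            rw [chi_zero]
            intro hm
            obtain ⟨_, _, e'⟩ := (memS _ _ _).1 hm
            rw [e] at e'
            simp only [Lab.ch.injEq] at e'
            omega
          omega
        · rw [show i - 1 + 1 = i by omega] at e
          have a1 : chi (S c i) (.cH c (i - 1)) = 1 := chi_one.2 ((memS _ _ _).2 ⟨ok, rfl, e⟩)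
          have a2 : chi (S c (i - 1)) (.cH c (i - 1)) = 0 := by
            refine chi_zero.2 fun hm => ?_
            obtain ⟨_, _, e'⟩ := (memS _ _ _).1 hm
            rw [e] at e'
            simp only [Lab.ch.injEq] at e'
            omega
          omega
    have k3 : h c i = chi (S c i) (.cH c i) := by simp only [h, if_neg (show ¬ i = 0 by omega)]
    have k4 : v c i = chi (S c i) (.vH c i) := rfl
    rw [← k3, ← k4] at key
    have c1 : chi (S c i) (.vH (c - 1) i) = 1 - v (c - 1) i := by omega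
    have c2 : chi (S c i) (.cH c (i - 1)) = 1 - h c (i - 1) := by omega
    rw [c1, c2] at key
    have l1 : v (c - 1) i ≤ 1 := by omega
    have l2 : h c (i - 1) ≤ 1 := by omega
    have l3 : v c i ≤ 1 := chi_le _ _
    have hw1 := hG.w_range c i
    have hw2 := hG.w_range (c - 1) i
    rcases hw1 with hw1 | hw1 <;> rcases hw2 with hw2 | hw2 <;> rw [hw1, hw2] at key ⊢ <;> omega

end Pool.Agent.H329
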