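import Pool.Agent.H329.StrAux

/-!
# Where the points of the whole folding lie
-/

namespace Pool.Agent.H329

attribute [-instance] Int.instConditionallyCompleteLinearOrder

namespace FA

open StrAux

theorem mem_shift {o : Pt} {l : List (Pt × Bool)} {p : Pt} {c : Bool} :
    (p, c) ∈ shift o l ↔ ((p.1 - o.1, p.2 - o.2), c) ∈ l := by
  unfold shift
  rw [List.mem_map]
  constructor
  · rintro ⟨⟨⟨a, b⟩, d⟩, h, he⟩
    simp only [Prod.mk.injEq] at he
    obtain ⟨rfl, rfl⟩ := he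
    simpa using h
  · intro h
    refine ⟨_, h, ?_⟩
    simp

theorem ptsOf_shift (o : Pt) (l : List (Pt × Bool)) :
    ptsOf (shift o l) = (ptsOf l).map fun p => (p.1 + o.1, p.2 + o.2) := by
  simp [ptsOf, shift, Function.comp_def]

theorem mem_ptsOf_shift {o : Pt} {l : List (Pt × Bool)} {p : Pt} :
    p ∈ ptsOf (shift o l) ↔ ((p.1 - o.1, p.2 - o.2) : Pt) ∈ ptsOf l := by
  rw [mem_ptsOf, mem_ptsOf, mem_shift, mem_shift]

theorem ptsOf_mask (r : Bool) (l : List (Pt × Bool)) : ptsOf (mask r l) = ptsOf l := by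
  simp [ptsOf, mask, Function.comp_def]

/-- The bin of a side of the group `(s,c)`. -/
def cell : Side → ℕ → ℕ → ℕ × ℕ
  | .LR, s, c | .UR, s, c | .CH, s, c | .T, s, c => (s, c)
  | .UL, s, c => (s + 1, c)
  | .B, s, c | .LL, s, c => (s + 1, c + 1)

theorem cell_org (u : ℤ) (σ : Side) (s c : ℕ) :
    org u (cell σ s c).1 (cell σ s c).2 = ((sideO u σ).1 + (org u s c).1, (sideO u σ).2 + (org u s c).2) := by
  cases σ <;> simp only [cell, org, sideO] <;> refine Prod.ext ?_ ?_ <;> push_cast <;> ring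

theorem cell_bin (G : Grid) (v h : ℕ → ℕ → ℕ) (σ : Side) (s c : ℕ) :
    (grpOf G v h s c).bin σ = binOf G v h (cell σ s c).1 (cell σ s c).2 := by
  cases σ <;> rfl

theorem cell_inj {σ : Side} {s c s' c' : ℕ} (h : cell σ s c = cell σ s' c') : s = s' ∧ c = c' := by
  cases σ <;> simp only [cell, Prod.mk.injEq] at h <;> omega

theorem cell_fst (σ : Side) (s c : ℕ) : (cell σ s c).1 = s ∨ (cell σ s c).1 = s + 1 := by
  cases σ <;> simp [cell]

theorem cell_snd (σ : Side) (s c : ℕ) : (cell σ s c).2 = c ∨ (cell σ s c).2 = c + 1 := by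
  cases σ <;> simp [cell]

/-- corridor region of the group `(s,c)` -/
def InCor (u : ℤ) (s c : ℕ) (p : Pt) : Prop :=
  84 * (u * s) + 20 * u + 1 ≤ p.1 ∧ p.1 ≤ 84 * (u * s) + 80 * u - 1 ∧
  29 * (u * c) - 8 * (u * s) ≤ p.2 ∧ p.2 ≤ 29 * (u * c) - 8 * (u * s) + 29 * u - 1

/-- region of the bin `(s,c)` -/
def InBin (u : ℤ) (s c : ℕ) (p : Pt) : Prop :=
  84 * (u * s) - 4 * u ≤ p.1 ∧ p.1 ≤ 84 * (u * s) + 20 * u ∧
  29 * (u * c) - 8 * (u * s) - 3 * u ≤ p.2 ∧ p.2 ≤ 29 * (u * c) - 8 * (u * s) + 24 * u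

/-- point of the strand `σ` of the bin `(s,c)` -/
def InStr (G : Grid) (v h : ℕ → ℕ → ℕ) (σ : Side) (s c : ℕ) (p : Pt) : Prop :=
  ((p.1 - (org (uu G) s c).1, p.2 - (org (uu G) s c).2) : Pt) ∈
    ptsOf (strand (uu G) (binOf G v h s c).b σ)

theorem mul_gap {u a b : ℤ} (k : ℤ) (hk : 0 < k) (hu : 0 < u) {s s' : ℕ}
    (h : k * (u * s) + a = k * (u * s') + b) (h1 : a - b < k * u) (h2 : b - a < k * u) :
    s = s' := by
  rcases lt_trichotomy s s' with hlt | heq | hlt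
  · exfalso
    have : (s : ℤ) + 1 ≤ s' := by exact_mod_cast hlt
    have h3 : u * s + u ≤ u * s' := by nlinarith
    have h4 : k * (u * s + u) ≤ k * (u * s') := by nlinarith
    nlinarith
  · exact heq
  · exfalso
    have : (s' : ℤ) + 1 ≤ s := by exact_mod_cast hlt
    have h3 : u * s' + u ≤ u * s := by nlinarith
    have h4 : k * (u * s' + u) ≤ k * (u * s) := by nlinarith
    nlinarith

theorem mul_gap' {u a b : ℤ} (k : ℤ) (hk : 0 < k) (hu : 0 < u) {s s' : ℕ}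
    (h : k * (u * s) + a = k * (u * s') + b) (h1 : b < a) (h2 : a - b < k * u) : False := by
  have : s = s' := mul_gap k hk hu h h2 (by nlinarith)
  subst this
  omega

theorem inCor_inj {u : ℤ} (hu : 0 < u) {s c s' c' : ℕ} {p : Pt} (h1 : InCor u s c p)
    (h2 : InCor u s' c' p) : s = s' ∧ c = c' := by
  obtain ⟨a1, a2, a3, a4⟩ := h1
  obtain ⟨b1, b2, b3, b4⟩ := h2
  have e : s = s' := mul_gap 84 (by norm_num) hu (a := p.1 - 84 * (u * s)) (b := p.1 - 84 * (u * s'))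
    (by ring) (by omega) (by omega)
  subst e
  refine ⟨rfl, mul_gap 29 (by norm_num) hu (a := p.2 - 29 * (u * c)) (b := p.2 - 29 * (u * c'))
    (by ring) (by omega) (by omega)⟩

theorem inBin_inj {u : ℤ} (hu : 0 < u) {s c s' c' : ℕ} {p : Pt} (h1 : InBin u s c p)
    (h2 : InBin u s' c' p) : s = s' ∧ c = c' := by
  obtain ⟨a1, a2, a3, a4⟩ := h1
  obtain ⟨b1, b2, b3, b4⟩ := h2
  have e : s = s' := mul_gap 84 (by norm_num) hu (a := p.1 - 84 * (u * s)) (b := p.1 - 84 * (u * s'))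
    (by ring) (by omega) (by omega)
  subst e
  refine ⟨rfl, mul_gap 29 (by norm_num) hu (a := p.2 - 29 * (u * c)) (b := p.2 - 29 * (u * c'))
    (by ring) (by omega) (by omega)⟩

theorem inCor_inBin {u : ℤ} (hu : 0 < u) {s c s' c' : ℕ} {p : Pt} (h1 : InCor u s c p)
    (h2 : InBin u s' c' p) : False := by
  obtain ⟨a1, a2, a3, a4⟩ := h1
  obtain ⟨b1, b2, b3, b4⟩ := h2
  exact mul_gap' 84 (by norm_num) hu (s := s) (s' := s') (a := p.1 - 84 * (u * s))
    (b := p.1 - 84 * (u * s')) (by ring) (by omega) (by omega)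

/-- region of the connection at the top -/
def InTop (u : ℤ) (M s : ℕ) (p : Pt) : Prop :=
  (p.1 = 84 * (u * s) + 50 * u ∧ 29 * (u * M) + 29 * u - 8 * (u * s) ≤ p.2 ∧
    p.2 ≤ 29 * (u * M) + 29 * u - 8 * (u * s) + 26 * u) ∨
  (p.2 = 29 * (u * M) + 29 * u - 8 * (u * s) + 26 * u ∧ 84 * (u * s) + 50 * u ≤ p.1 ∧
    p.1 ≤ 84 * (u * s) + 134 * u) ∨
  (p.1 = 84 * (u * s) + 134 * u ∧ 29 * (u * M) + 29 * u - 8 * (u * s) - 8 * u ≤ p.2 ∧
    p.2 ≤ 29 * (u * M) + 29 * u - 8 * (u * s) + 26 * u)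

/-- region of the connection at the bottom -/
def InBot (u : ℤ) (s : ℕ) (p : Pt) : Prop :=
  (p.1 = 84 * (u * s) + 50 * u ∧ - 8 * (u * s) - 12 * u ≤ p.2 ∧ p.2 ≤ - 8 * (u * s) - 1) ∨
  (p.2 = - 8 * (u * s) - 12 * u ∧ 84 * (u * s) + 50 * u ≤ p.1 ∧ p.1 ≤ 84 * (u * s) + 134 * u) ∨
  (p.1 = 84 * (u * s) + 134 * u ∧ - 8 * (u * s) - 12 * u ≤ p.2 ∧ p.2 ≤ - 8 * (u * s) - 8 * u - 1)

theorem mem_topPath {G : Grid} {s : ℕ} {p : Pt} (hp : p ∈ topPath G s) :
    InTop (uu G) G.M s p := by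
  unfold topPath at hp
  simp only [mem_runs_cons, mem_runs_nil, or_false] at hp
  unfold InTop
  have e : (29 * (uu G : ℤ) * ((G.M + 1 : ℕ) : ℤ)) = 29 * ((uu G : ℤ) * G.M) + 29 * uu G := by
    push_cast; ring
  have e2 : 84 * (uu G : ℤ) * s = 84 * ((uu G : ℤ) * s) := by ring
  have e3 : 8 * (uu G : ℤ) * s = 8 * ((uu G : ℤ) * s) := by ring
  rw [e, e2, e3] at hp
  rcases hp with ⟨j, h0, h1, h2, h3⟩ | ⟨j, h0, h1, h2, h3⟩ | ⟨j, h0, h1, h2, h3⟩
  · left; omega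
  · right; left; omega
  · right; right; omega

theorem mem_botPath {G : Grid} {s : ℕ} {p : Pt} (hp : p ∈ botPath G s) :
    InBot (uu G) s p := by
  unfold botPath at hp
  simp only [mem_runs_cons, mem_runs_nil, or_false] at hp
  unfold InBot
  have e2 : 84 * (uu G : ℤ) * s = 84 * ((uu G : ℤ) * s) := by ring
  have e3 : -8 * (uu G : ℤ) * s = -8 * ((uu G : ℤ) * s) := by ring
  rw [e2, e3] at hp
  rcases hp with ⟨j, h0, h1, h2, h3⟩ | ⟨j, h0, h1, h2, h3⟩ | ⟨j, h0, h1, h2, h3⟩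
  · left; omega
  · right; left; omega
  · right; right; omega

theorem nodup_topPath {G : Grid} {s : ℕ} (hu : 0 < (uu G : ℤ)) : (topPath G s).Nodup := by
  unfold topPath
  refine nodup_runs_cons (by simp) (nodup_runs_cons (by simp) (nodup_runs_cons (by simp)
    (by simp [runs]) ?_) ?_) ?_
  · intro x j _ _ _ _
    simp [mem_runs_nil]
  · intro x j h0 h1 h2 h3
    simp only [mem_runs_cons, mem_runs_nil, or_false]
    rintro ⟨k, k0, k1, k2, k3⟩
    omega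
  · intro x j h0 h1 h2 h3
    simp only [mem_runs_cons, mem_runs_nil, or_false]
    rintro (⟨k, k0, k1, k2, k3⟩ | ⟨k, k0, k1, k2, k3⟩) <;> omega

theorem nodup_botPath {G : Grid} {s : ℕ} (hu : 0 < (uu G : ℤ)) : (botPath G s).Nodup := by
  unfold botPath
  refine nodup_runs_cons (by simp) (nodup_runs_cons (by simp) (nodup_runs_cons (by simp)
    (by simp [runs]) ?_) ?_) ?_
  · intro x j _ _ _ _
    simp [mem_runs_nil]
  · intro x j h0 h1 h2 h3
    simp only [mem_runs_cons, mem_runs_nil, or_false]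
    rintro ⟨k, k0, k1, k2, k3⟩
    omega
  · intro x j h0 h1 h2 h3
    simp only [mem_runs_cons, mem_runs_nil, or_false]
    rintro (⟨k, k0, k1, k2, k3⟩ | ⟨k, k0, k1, k2, k3⟩) <;> omega

end FA

end Pool.Agent.H329
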