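import Pool.Agent.H329.FullNodup

/-!
# The `H`-sites of the whole folding
-/

namespace Pool.Agent.H329

attribute [-instance] Int.instConditionallyCompleteLinearOrder

open FA StrAux

namespace FA

theorem mem_mask {r : Bool} {l : List (Pt × Bool)} {p : Pt} :
    (p, true) ∈ mask r l ↔ r = true ∧ (p, true) ∈ l := by
  unfold mask
  rw [List.mem_map]
  constructor
  · rintro ⟨⟨a, b⟩, h, he⟩
    simp only [Prod.mk.injEq, Bool.and_eq_true] at he
    obtain ⟨rfl, rfl, rfl⟩ := he
    exact ⟨rfl, h⟩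
  · rintro ⟨rfl, h⟩
    exact ⟨_, h, rfl⟩

theorem mem_fullPath {G : Grid} {v h : ℕ → ℕ → ℕ} {p : Pt} :
    (p, true) ∈ fullPath G v h ↔ ∃ s c, s < 2 * (G.M + G.N) ∧ c ≤ G.M ∧
      (p, true) ∈ shift (org (uu G) s c) ((grpOf G v h s c).path (uu G)) := by
  rw [fullPath_eq, List.mem_flatMap]
  constructor
  · rintro ⟨s, hs, hp⟩
    rw [List.mem_range] at hs
    rcases mem_part hp with hp | ⟨_, _, hf⟩ | ⟨_, _, hf⟩
    · obtain ⟨c, hc, hp⟩ := mem_corPath.1 hp
      exact ⟨s, c, hs, hc, hp⟩
    · simp at hf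
    · simp at hf
  · rintro ⟨s, c, hs, hc, hp⟩
    refine ⟨s, List.mem_range.2 hs, ?_⟩
    have := mem_corPath.2 ⟨c, hc, hp⟩
    unfold part
    split_ifs
    · exact List.mem_append_left _ this
    · exact List.mem_append_left _ (List.mem_reverse.2 this)

end FA

theorem FullH_proof (h1 : S_BinOk) (h2 : S_GrpPts) (h3 : S_StrandHex) : S_FullH := by
  intro G v h hG hsol p
  have hok : ∀ s c, (binOf G v h s c).b.Ok (uu G) := fun s c => (h1 G v h hG hsol s c).1
  have hr : ∀ s c, (binOf G v h s c).r = real G s c := fun s c => (h1 G v h hG hsol s c).2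
  have hgrp : ∀ s c, (p, true) ∈ shift (org (uu G) s c) ((grpOf G v h s c).path (uu G)) ↔
      ∃ σ, real G (cell σ s c).1 (cell σ s c).2 = true ∧
        ((p.1 - (org (uu G) (cell σ s c).1 (cell σ s c).2).1,
          p.2 - (org (uu G) (cell σ s c).1 (cell σ s c).2).2), true) ∈
          strand (uu G) (binOf G v h (cell σ s c).1 (cell σ s c).2).b σ := by
    intro s c
    rw [mem_shift, (h2 _ _ ⟨hok _ _, hok _ _, hok _ _⟩).2.2 _ rfl]
    apply exists_congr
    intro σ
    rw [Grp.st, mem_shift, mem_mask, cell_bin, hr, cell_org]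
    have e1 : p.1 - (org (uu G) s c).1 - (sideO (uu G) σ).1 =
        p.1 - ((sideO (uu G) σ).1 + (org (uu G) s c).1) := by ring
    have e2 : p.2 - (org (uu G) s c).2 - (sideO (uu G) σ).2 =
        p.2 - ((sideO (uu G) σ).2 + (org (uu G) s c).2) := by ring
    simp only [e1, e2]
  rw [mem_fullPath]
  constructor
  · rintro ⟨s, c, _, _, hp⟩
    obtain ⟨σ, hreal, hq⟩ := (hgrp s c).1 hp
    generalize (cell σ s c).1 = s' at *
    generalize (cell σ s c).2 = c' at *
    have hr' := hreal
    unfold real at hr'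
    rw [decide_eq_true_eq] at hr'
    obtain ⟨r1, r2, r3, r4, r5⟩ := hr'
    have hx := (h3 _ _ (hok s' c') _).1 ⟨σ, hq⟩
    refine ⟨c', s' - c', r2, r3, r4, r5,
      ((p.1 - (org (uu G) s' c').1, p.2 - (org (uu G) s' c').2) : Pt), ?_, ?_⟩
    · rw [show c' + (s' - c') = s' by omega]
      exact hx
    · rw [show c' + (s' - c') = s' by omega]
      refine Prod.ext ?_ ?_ <;> simp
  · rintro ⟨c, i, c1, c2, i1, i2, q, hq, rfl⟩
    obtain ⟨σ, hσ⟩ := (h3 _ _ (hok (c + i) c) q).2 hq
    have hreal : real G (c + i) c = true := by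
      unfold real
      rw [decide_eq_true_eq]
      omega
    have hmain : ∀ s c', cell σ s c' = (c + i, c) → s < 2 * (G.M + G.N) → c' ≤ G.M →
        ∃ s c', s < 2 * (G.M + G.N) ∧ c' ≤ G.M ∧ (q + org (uu G) (c + i) c, true) ∈
          shift (org (uu G) s c') ((grpOf G v h s c').path (uu G)) := by
      intro s c' hc hs hc'
      refine ⟨s, c', hs, hc', (hgrp s c').2 ⟨σ, ?_, ?_⟩⟩
      · rw [hc]
        exact hreal
      · rw [hc]
        simpa using hσ
    cases σ with
    | LR => exact hmain (c + i) c rfl (by omega) c2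
    | UR => exact hmain (c + i) c rfl (by omega) c2
    | CH => exact hmain (c + i) c rfl (by omega) c2
    | T => exact hmain (c + i) c rfl (by omega) c2
    | UL =>
      refine hmain (c + i - 1) c ?_ (by omega) c2
      change (c + i - 1 + 1, c) = (c + i, c)
      rw [Nat.sub_add_cancel (by omega)]
    | B =>
      refine hmain (c + i - 1) (c - 1) ?_ (by omega) (by omega)
      change (c + i - 1 + 1, c - 1 + 1) = (c + i, c)
      rw [Nat.sub_add_cancel (by omega), Nat.sub_add_cancel (by omega)]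
    | LL =>
      refine hmain (c + i - 1) (c - 1) ?_ (by omega) (by omega)
      change (c + i - 1 + 1, c - 1 + 1) = (c + i, c)
      rw [Nat.sub_add_cancel (by omega), Nat.sub_add_cancel (by omega)]

end Pool.Agent.H329
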