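import Pool.Agent.H329.Spec

/-!
# Letters of the whole folding
-/

namespace Pool.Agent.H329

attribute [-instance] Int.instConditionallyCompleteLinearOrder

namespace FullAux

theorem map_snd_ps (l : List Pt) : (ps l).map Prod.snd = List.replicate l.length false := by
  induction l with
  | nil => rfl
  | cons a l ih =>
    simp only [ps, List.map_cons, List.length_cons, List.replicate_succ] at *
    rw [ih]

theorem map_fst_ps (l : List Pt) : (ps l).map Prod.fst = l := by
  simp [ps, Function.comp_def]

theorem map_snd_shift (o : Pt) (l : List (Pt × Bool)) :
    (shift o l).map Prod.snd = l.map Prod.snd := by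
  simp [shift, Function.comp_def]

theorem length_seg (p d : Pt) (n : ℤ) : (seg p d n).length = n.toNat := by simp [seg]

theorem itemWord_reverse (a : ℕ) : (itemWord a).reverse = itemWord a := by
  unfold itemWord
  apply List.ext_getElem
  · simp
  · intro i h1 h2
    simp only [List.length_reverse, List.length_map, List.length_range] at h1 h2
    rw [List.getElem_reverse]
    simp only [List.getElem_map, List.getElem_range, List.length_map, List.length_range]
    have : (2 * a - 1 - 1 - i) % 2 = i % 2 := by omega
    rw [this]

theorem tokWord_reverse {ι : Type} (B : BlkData ι) (t : Tok ι) :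
    (B.tokWord t).reverse = B.tokWord t := by
  cases t with
  | gap n => simp [BlkData.tokWord]
  | blk j =>
    simp only [BlkData.tokWord, BlkData.blkWord]
    split_ifs
    · exact itemWord_reverse _
    · simp

theorem word_reverse {ι : Type} (B : BlkData ι) (l : List (Tok ι)) :
    B.word l.reverse = (B.word l).reverse := by
  unfold BlkData.word
  induction l with
  | nil => rfl
  | cons t l ih =>
    rw [List.reverse_cons, List.flatMap_append, ih]
    simp only [List.flatMap_cons, List.flatMap_nil, List.append_nil, List.reverse_append,
      tokWord_reverse]

theorem word_append {ι : Type} (B : BlkData ι) (l l' : List (Tok ι)) :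
    B.word (l ++ l') = B.word l ++ B.word l' := by
  simp [BlkData.word, List.flatMap_append]

theorem word_cons {ι : Type} (B : BlkData ι) (t : Tok ι) (l : List (Tok ι)) :
    B.word (t :: l) = B.tokWord t ++ B.word l := by
  simp [BlkData.word]

theorem uu_pos (G : Grid) : 100 ≤ uu G := by
  unfold uu
  nlinarith [Nat.zero_le (D0 G)]

theorem length_topPath (G : Grid) (s : ℕ) : (topPath G s).length = 144 * uu G + 1 := by
  have := uu_pos G
  simp only [topPath, runs, List.length_append, length_seg, List.length_nil]
  omega

theorem length_botPath (G : Grid) (s : ℕ) : (botPath G s).length = 100 * uu G - 1 := by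
  have := uu_pos G
  simp only [botPath, runs, List.length_append, length_seg, List.length_nil]
  omega

end FullAux

open FullAux

theorem FullLetters_proof (h1 : S_GrpPath) (h2 : S_GrpWord) (h3 : S_BinOk) : S_FullLetters := by
  intro G v h hG hsol
  have hok : ∀ s c, (grpOf G v h s c).Ok (uu G) := fun s c =>
    ⟨(h3 G v h hG hsol _ _).1, (h3 G v h hG hsol _ _).1, (h3 G v h hG hsol _ _).1⟩
  have hgrp : ∀ s c, c ≤ G.M → ((grpOf G v h s c).path (uu G)).map Prod.snd =
      (bd G).word (grp G s c) := by
    intro s c hc
    rw [(h1 _ _ (hok s c)).2, h2 G v h hG hsol s c hc]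
  have hcor : ∀ s, (corPath G v h s).map Prod.snd = (bd G).word (cor G s) := by
    intro s
    unfold corPath cor BlkData.word
    rw [List.map_flatMap, List.flatMap_assoc]
    apply List.flatMap_congr
    intro c hc
    rw [List.mem_range] at hc
    rw [map_snd_shift, hgrp s c (by omega)]
    rfl
  have hcor2 : ∀ r, (cor2Path G v h r).map Prod.snd = (bd G).word (cor2 G r) := by
    intro r
    unfold cor2Path cor2
    simp only [List.map_append, List.map_reverse, hcor, map_snd_ps, length_topPath,
      length_botPath, word_append, word_cons, word_reverse, BlkData.tokWord]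
    simp [BlkData.word]
  unfold fullPath gword toks BlkData.word
  rw [List.map_flatMap, List.flatMap_assoc]
  apply List.flatMap_congr
  intro r _
  exact hcor2 r

end Pool.Agent.H329
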