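import Pool.Agent.H329.FullAux

/-!
# The whole folding visits no point twice; its `H`-sites
-/

namespace Pool.Agent.H329

attribute [-instance] Int.instConditionallyCompleteLinearOrder

namespace FA

open StrAux

/-- a pair of consecutive terms -/
theorem flatMap_two {α : Type} (f : ℕ → List α) (n : ℕ) :
    (List.range n).flatMap (fun r => f (2 * r) ++ f (2 * r + 1)) =
      (List.range (2 * n)).flatMap f := by
  induction n with
  | zero => rfl
  | succ n ih =>
    rw [List.range_succ, List.flatMap_append, ih, show 2 * (n + 1) = 2 * n + 1 + 1 by ring,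
      List.range_succ, List.range_succ, List.flatMap_append, List.flatMap_append]
    simp

/-- The part of the folding belonging to the corridor `s`. -/
def part (G : Grid) (v h : ℕ → ℕ → ℕ) (s : ℕ) : List (Pt × Bool) :=
  if s % 2 = 0 then corPath G v h s ++ ps (topPath G s)
  else (corPath G v h s).reverse ++ ps (botPath G s)

theorem fullPath_eq (G : Grid) (v h : ℕ → ℕ → ℕ) :
    fullPath G v h = (List.range (2 * (G.M + G.N))).flatMap (part G v h) := by
  rw [← flatMap_two]
  unfold fullPath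
  apply List.flatMap_congr
  intro r _
  unfold cor2Path part
  rw [if_pos (by omega), if_neg (by omega), List.append_assoc]

/-- membership in a corridor path -/
theorem mem_corPath {G : Grid} {v h : ℕ → ℕ → ℕ} {s : ℕ} {q : Pt × Bool} :
    q ∈ corPath G v h s ↔
      ∃ c, c ≤ G.M ∧ q ∈ shift (org (uu G) s c) ((grpOf G v h s c).path (uu G)) := by
  unfold corPath
  rw [List.mem_flatMap]
  constructor
  · rintro ⟨c, hc, h⟩
    exact ⟨c, by rw [List.mem_range] at hc; omega, h⟩
  · rintro ⟨c, hc, h⟩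
    exact ⟨c, by rw [List.mem_range]; omega, h⟩

theorem mem_part {G : Grid} {v h : ℕ → ℕ → ℕ} {s : ℕ} {q : Pt × Bool} (hq : q ∈ part G v h s) :
    q ∈ corPath G v h s ∨ (s % 2 = 0 ∧ q.1 ∈ topPath G s ∧ q.2 = false) ∨
      (s % 2 = 1 ∧ q.1 ∈ botPath G s ∧ q.2 = false) := by
  obtain ⟨p, c⟩ := q
  unfold part at hq
  split_ifs at hq with h0
  · rw [List.mem_append, mem_ps] at hq
    rcases hq with hq | ⟨rfl, hq⟩
    · exact Or.inl hq
    · exact Or.inr (Or.inl ⟨h0, hq, rfl⟩)
  · rw [List.mem_append, mem_ps, List.mem_reverse] at hq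
    rcases hq with hq | ⟨rfl, hq⟩
    · exact Or.inl hq
    · exact Or.inr (Or.inr ⟨by omega, hq, rfl⟩)

section

variable {G : Grid} {v h : ℕ → ℕ → ℕ}

/-- classification of the points of a group -/
theorem grp_mem (hok : ∀ s c, (binOf G v h s c).b.Ok (uu G)) (h2 : S_GrpPts)
    {s c : ℕ} {p : Pt}
    (hp : p ∈ ptsOf (shift (org (uu G) s c) ((grpOf G v h s c).path (uu G)))) :
    InCor (uu G) s c p ∨ ∃ σ, InStr G v h σ (cell σ s c).1 (cell σ s c).2 p := by
  rw [mem_ptsOf_shift] at hp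
  rcases (h2 _ _ ⟨hok _ _, hok _ _, hok _ _⟩).2.1 _ hp with h3 | ⟨σ, h3⟩
  · left
    simp only [org] at h3
    have e1 : 84 * (uu G : ℤ) * s = 84 * ((uu G : ℤ) * s) := by ring
    have e2 : 8 * (uu G : ℤ) * s = 8 * ((uu G : ℤ) * s) := by ring
    have e3 : 29 * (uu G : ℤ) * c = 29 * ((uu G : ℤ) * c) := by ring
    rw [e1, e2, e3] at h3
    unfold InCor
    omega
  · right
    refine ⟨σ, ?_⟩
    unfold InStr
    rw [Grp.st, mem_ptsOf_shift, ptsOf_mask, cell_bin] at h3
    rw [cell_org]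
    convert h3 using 2 <;> ring

theorem inStr_inBin (hok : ∀ s c, (binOf G v h s c).b.Ok (uu G)) (h2 : S_StrandBox)
    {σ : Side} {s c : ℕ} {p : Pt} (hp : InStr G v h σ s c p) : InBin (uu G) s c p := by
  have h3 := h2 _ _ _ (hok s c) _ hp
  simp only [org] at h3
  have e1 : 84 * (uu G : ℤ) * s = 84 * ((uu G : ℤ) * s) := by ring
  have e2 : 8 * (uu G : ℤ) * s = 8 * ((uu G : ℤ) * s) := by ring
  have e3 : 29 * (uu G : ℤ) * c = 29 * ((uu G : ℤ) * c) := by ring
  rw [e1, e2, e3] at h3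
  unfold InBin
  omega

/-- different groups are disjoint -/
theorem grp_disj (hok : ∀ s c, (binOf G v h s c).b.Ok (uu G)) (h2 : S_GrpPts)
    (h3 : S_StrandBox) (h4 : S_StrandDisj) {s c s' c' : ℕ} {p : Pt}
    (hp : p ∈ ptsOf (shift (org (uu G) s c) ((grpOf G v h s c).path (uu G))))
    (hp' : p ∈ ptsOf (shift (org (uu G) s' c') ((grpOf G v h s' c').path (uu G)))) :
    s = s' ∧ c = c' := by
  have hu : 0 < (uu G : ℤ) := by
    have := (hok 0 0).u_pos
    omega
  rcases grp_mem hok h2 hp with a | ⟨σ, a⟩ <;> rcases grp_mem hok h2 hp' with b | ⟨τ, b⟩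
  · exact inCor_inj hu a b
  · exact (inCor_inBin hu a (inStr_inBin hok h3 b)).elim
  · exact (inCor_inBin hu b (inStr_inBin hok h3 a)).elim
  · have hc := inBin_inj hu (inStr_inBin hok h3 a) (inStr_inBin hok h3 b)
    by_cases hστ : σ = τ
    · subst hστ
      exact cell_inj (Prod.ext hc.1 hc.2)
    · exfalso
      unfold InStr at a b
      rw [← hc.1, ← hc.2] at b
      exact h4 _ _ _ _ (hok _ _) hστ _ a b

theorem nodup_corPath (hok : ∀ s c, (binOf G v h s c).b.Ok (uu G)) (h2 : S_GrpPts)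
    (h3 : S_StrandBox) (h4 : S_StrandDisj) (s : ℕ) : (ptsOf (corPath G v h s)).Nodup := by
  unfold corPath ptsOf
  rw [List.map_flatMap, List.nodup_flatMap]
  refine ⟨?_, ?_⟩
  · intro c _
    change (ptsOf (shift (org (uu G) s c) ((grpOf G v h s c).path (uu G)))).Nodup
    rw [ptsOf_shift]
    refine List.Nodup.map ?_ (h2 _ _ ⟨hok _ _, hok _ _, hok _ _⟩).1
    intro a b hab
    simp only [Prod.mk.injEq] at hab
    exact Prod.ext (by omega) (by omega)
  · refine List.Nodup.pairwise_of_forall_ne List.nodup_range ?_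
    intro c _ c' _ hcc p hp hp'
    exact hcc (grp_disj hok h2 h3 h4 hp hp').2

/-- points of the corridor path: where they are -/
theorem corPath_pts (hok : ∀ s c, (binOf G v h s c).b.Ok (uu G)) (h2 : S_GrpPts)
    (h3 : S_StrandBox) {s : ℕ} {p : Pt} (hp : p ∈ ptsOf (corPath G v h s)) :
    (∃ c, c ≤ G.M ∧ InCor (uu G) s c p) ∨ (∃ s' c', (s' = s ∨ s' = s + 1) ∧ c' ≤ G.M + 1 ∧
      InBin (uu G) s' c' p) := by
  unfold ptsOf at hp
  rw [List.mem_map] at hp
  obtain ⟨q, hq, rfl⟩ := hp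
  obtain ⟨c, hc, hq⟩ := mem_corPath.1 hq
  have : q.1 ∈ ptsOf (shift (org (uu G) s c) ((grpOf G v h s c).path (uu G))) :=
    List.mem_map.2 ⟨q, hq, rfl⟩
  rcases grp_mem hok h2 this with a | ⟨σ, a⟩
  · exact Or.inl ⟨c, hc, a⟩
  · refine Or.inr ⟨_, _, cell_fst σ s c, ?_, inStr_inBin hok h3 a⟩
    have := cell_snd σ s c
    omega

end

/-- upper bound for the row coordinate -/
theorem mul_mono {u : ℤ} (hu : 0 < u) {c M : ℕ} (h : c ≤ M) : u * c ≤ u * M := by
  have : (c : ℤ) ≤ M := by exact_mod_cast h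
  nlinarith

theorem mul_mono1 {u : ℤ} (hu : 0 < u) {c M : ℕ} (h : c ≤ M + 1) : u * c ≤ u * M + u := by
  have : (c : ℤ) ≤ M + 1 := by exact_mod_cast h
  nlinarith

theorem inTop_inCor {u : ℤ} (hu : 100 ≤ u) {M s s' c : ℕ} (hc : c ≤ M) {p : Pt}
    (h1 : InTop u M s p) (h2 : InCor u s' c p) : False := by
  have hm := mul_mono (by omega : 0 < u) hc
  have hx : 84 * (u * s) + 50 * u ≤ p.1 ∧ p.1 ≤ 84 * (u * s) + 134 * u := by
    rcases h1 with h1 | h1 | h1 <;> omega
  obtain ⟨a1, a2, a3, a4⟩ := h2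
  have hs : s' = s ∨ s' = s + 1 := by
    rcases lt_trichotomy p.1 (84 * (u * s) + 84 * u) with h | h | h
    · left
      exact mul_gap 84 (by norm_num) (by omega : 0 < u) (a := p.1 - 84 * (u * s'))
        (b := p.1 - 84 * (u * s)) (by ring) (by omega) (by omega)
    · left
      exact mul_gap 84 (by norm_num) (by omega : 0 < u) (a := p.1 - 84 * (u * s'))
        (b := p.1 - 84 * (u * s)) (by ring) (by omega) (by omega)
    · right
      refine mul_gap 84 (by norm_num) (by omega : 0 < u) (a := p.1 - 84 * (u * s'))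
        (b := p.1 - 84 * (u * s) - 84 * u) (by push_cast; ring) (by omega) (by omega)
  rcases hs with rfl | rfl
  · rcases h1 with h1 | h1 | h1 <;> omega
  · have e : u * ((s + 1 : ℕ) : ℤ) = u * s + u := by push_cast; ring
    rw [e] at a1 a2 a3 a4
    rcases h1 with h1 | h1 | h1 <;> omega

theorem inBot_inCor {u : ℤ} (hu : 100 ≤ u) {s s' c : ℕ} {p : Pt}
    (h1 : InBot u s p) (h2 : InCor u s' c p) : False := by
  have hm : 0 ≤ u * (c : ℤ) := by positivity
  have hx : 84 * (u * s) + 50 * u ≤ p.1 ∧ p.1 ≤ 84 * (u * s) + 134 * u := by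
    rcases h1 with h1 | h1 | h1 <;> omega
  obtain ⟨a1, a2, a3, a4⟩ := h2
  have hs : s' = s ∨ s' = s + 1 := by
    rcases lt_trichotomy p.1 (84 * (u * s) + 84 * u) with h | h | h
    · left
      exact mul_gap 84 (by norm_num) (by omega : 0 < u) (a := p.1 - 84 * (u * s'))
        (b := p.1 - 84 * (u * s)) (by ring) (by omega) (by omega)
    · left
      exact mul_gap 84 (by norm_num) (by omega : 0 < u) (a := p.1 - 84 * (u * s'))
        (b := p.1 - 84 * (u * s)) (by ring) (by omega) (by omega)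
    · right
      refine mul_gap 84 (by norm_num) (by omega : 0 < u) (a := p.1 - 84 * (u * s'))
        (b := p.1 - 84 * (u * s) - 84 * u) (by push_cast; ring) (by omega) (by omega)
  rcases hs with rfl | rfl
  · rcases h1 with h1 | h1 | h1 <;> omega
  · have e : u * ((s + 1 : ℕ) : ℤ) = u * s + u := by push_cast; ring
    rw [e] at a1 a2 a3 a4
    rcases h1 with h1 | h1 | h1 <;> omega

theorem inTop_inBin {u : ℤ} (hu : 100 ≤ u) {M s s' c : ℕ} (hc : c ≤ M + 1) {p : Pt}
    (h1 : InTop u M s p) (h2 : InBin u s' c p) : False := by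
  have hm := mul_mono1 (by omega : 0 < u) hc
  have hx : 84 * (u * s) + 50 * u ≤ p.1 ∧ p.1 ≤ 84 * (u * s) + 134 * u := by
    rcases h1 with h1 | h1 | h1 <;> omega
  obtain ⟨a1, a2, a3, a4⟩ := h2
  have hs : s' = s + 1 := by
    refine mul_gap 84 (by norm_num) (by omega : 0 < u) (a := p.1 - 84 * (u * s'))
        (b := p.1 - 84 * (u * s) - 84 * u) (by push_cast; ring) (by omega) (by omega)
  subst hs
  have e : u * ((s + 1 : ℕ) : ℤ) = u * s + u := by push_cast; ring
  rw [e] at a1 a2 a3 a4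
  rcases h1 with h1 | h1 | h1 <;> omega

theorem inBot_inBin {u : ℤ} (hu : 100 ≤ u) {s s' c : ℕ} {p : Pt}
    (h1 : InBot u s p) (h2 : InBin u s' c p) : False := by
  have hm : 0 ≤ u * (c : ℤ) := by positivity
  have hx : 84 * (u * s) + 50 * u ≤ p.1 ∧ p.1 ≤ 84 * (u * s) + 134 * u := by
    rcases h1 with h1 | h1 | h1 <;> omega
  obtain ⟨a1, a2, a3, a4⟩ := h2
  have hs : s' = s + 1 := by
    refine mul_gap 84 (by norm_num) (by omega : 0 < u) (a := p.1 - 84 * (u * s'))
        (b := p.1 - 84 * (u * s) - 84 * u) (by push_cast; ring) (by omega) (by omega)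
  subst hs
  have e : u * ((s + 1 : ℕ) : ℤ) = u * s + u := by push_cast; ring
  rw [e] at a1 a2 a3 a4
  rcases h1 with h1 | h1 | h1 <;> omega

/-- x-range of connections -/
theorem con_x {u : ℤ} (hu : 100 ≤ u) {M s : ℕ} {p : Pt} (h1 : InTop u M s p ∨ InBot u s p) :
    84 * (u * s) + 50 * u ≤ p.1 ∧ p.1 ≤ 84 * (u * s) + 134 * u := by
  rcases h1 with (h1 | h1 | h1) | (h1 | h1 | h1) <;> omega

/-- two connections meeting have indices differing by at most one -/
theorem con_step {u : ℤ} (hu : 100 ≤ u) {s s' : ℕ} (hs : s < s') {p : Pt}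
    (h1 : 84 * (u * s) + 50 * u ≤ p.1 ∧ p.1 ≤ 84 * (u * s) + 134 * u)
    (h2 : 84 * (u * s') + 50 * u ≤ p.1 ∧ p.1 ≤ 84 * (u * s') + 134 * u) :
    s' = s + 1 ∧ p.1 = 84 * (u * s) + 134 * u := by
  have hlt : (s : ℤ) + 1 ≤ s' := by exact_mod_cast hs
  have h3 : u * s + u ≤ u * s' := by nlinarith
  refine ⟨?_, by omega⟩
  refine mul_gap 84 (by norm_num) (by omega : 0 < u) (a := p.1 - 84 * (u * s'))
        (b := p.1 - 84 * (u * s) - 84 * u) (by push_cast; ring) (by omega) (by omega)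

theorem con_disj {u : ℤ} (hu : 100 ≤ u) {M s s' : ℕ} (hs : s < s') {p : Pt}
    (h1 : (s % 2 = 0 ∧ InTop u M s p) ∨ (s % 2 = 1 ∧ InBot u s p))
    (h2 : (s' % 2 = 0 ∧ InTop u M s' p) ∨ (s' % 2 = 1 ∧ InBot u s' p)) : False := by
  have x1 := con_x hu (M := M) (h1.imp And.right And.right)
  have x2 := con_x hu (M := M) (h2.imp And.right And.right)
  obtain ⟨rfl, hx⟩ := con_step hu hs x1 x2
  have hm : 0 ≤ u * (M : ℤ) := by positivity
  have e : u * ((s + 1 : ℕ) : ℤ) = u * s + u := by push_cast; ring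
  rcases h1 with ⟨p1, h1⟩ | ⟨p1, h1⟩ <;> rcases h2 with ⟨p2, h2⟩ | ⟨p2, h2⟩
  · omega
  · unfold InBot at h2
    rw [e] at h2
    unfold InTop at h1
    omega
  · unfold InTop at h2
    rw [e] at h2
    unfold InBot at h1
    omega
  · omega

end FA

open FA StrAux

theorem FullNodup_proof (h1 : S_BinOk) (h2 : S_GrpPts) (h3 : S_StrandBox) (h4 : S_StrandDisj) :
    S_FullNodup := by
  intro G v h hG hsol
  have hok : ∀ s c, (binOf G v h s c).b.Ok (uu G) := fun s c => (h1 G v h hG hsol s c).1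
  have hu : 100 ≤ (uu G : ℤ) := (hok 0 0).u_pos
  have hcon : ∀ s (q : Pt × Bool), q ∈ part G v h s → q.1 ∈ ptsOf (corPath G v h s) ∨
      ((s % 2 = 0 ∧ InTop (uu G) G.M s q.1) ∨ (s % 2 = 1 ∧ InBot (uu G) s q.1)) := by
    intro s q hq
    rcases mem_part hq with h | ⟨a, b, _⟩ | ⟨a, b, _⟩
    · exact Or.inl (List.mem_map.2 ⟨q, h, rfl⟩)
    · exact Or.inr (Or.inl ⟨a, mem_topPath b⟩)
    · exact Or.inr (Or.inr ⟨a, mem_botPath b⟩)
  have hcc : ∀ s s' p, p ∈ ptsOf (corPath G v h s) →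
      ((s' % 2 = 0 ∧ InTop (uu G) G.M s' p) ∨ (s' % 2 = 1 ∧ InBot (uu G) s' p)) → False := by
    intro s s' p hp hc
    rcases corPath_pts hok h2 h3 hp with ⟨c, hcM, a⟩ | ⟨s'', c, hs, hcM, a⟩
    · rcases hc with ⟨_, b⟩ | ⟨_, b⟩
      · exact inTop_inCor hu hcM b a
      · exact inBot_inCor hu b a
    · rcases hc with ⟨_, b⟩ | ⟨_, b⟩
      · exact inTop_inBin hu hcM b a
      · exact inBot_inBin hu b a
  rw [fullPath_eq]
  unfold ptsOf
  rw [List.map_flatMap, List.nodup_flatMap]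
  refine ⟨?_, ?_⟩
  · intro s _
    change (ptsOf (part G v h s)).Nodup
    have hn := nodup_corPath hok h2 h3 h4 s
    unfold part
    split_ifs with h0
    · rw [ptsOf_append, ptsOf_ps]
      refine nodup_app hn (nodup_topPath (by omega)) ?_
      intro p hp hq
      exact hcc s s p hp (Or.inl ⟨h0, mem_topPath hq⟩)
    · rw [ptsOf_append, ptsOf_ps]
      refine nodup_app ?_ (nodup_botPath (by omega)) ?_
      · unfold ptsOf at hn ⊢
        rw [List.map_reverse]
        exact List.nodup_reverse.2 hn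
      · intro p hp hq
        refine hcc s s p ?_ (Or.inr ⟨by omega, mem_botPath hq⟩)
        unfold ptsOf at hp ⊢
        rw [List.map_reverse, List.mem_reverse] at hp
        exact hp
  · have key : ∀ s s', s < s' → ∀ p, p ∈ (part G v h s).map Prod.fst →
        p ∈ (part G v h s').map Prod.fst → False := by
      intro s s' hs p hp hp'
      rw [List.mem_map] at hp hp'
      obtain ⟨q, hq, rfl⟩ := hp
      obtain ⟨q', hq', hqq⟩ := hp'
      have a := hcon s q hq
      have b := hcon s' q' hq'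
      rw [hqq] at b
      rcases a with a | a <;> rcases b with b | b
      · unfold ptsOf at a b
        rw [List.mem_map] at a b
        obtain ⟨x, hx, hx1⟩ := a
        obtain ⟨y, hy, hy1⟩ := b
        obtain ⟨c, hc, hx⟩ := mem_corPath.1 hx
        obtain ⟨c', hc', hy⟩ := mem_corPath.1 hy
        have := grp_disj hok h2 h3 h4 (p := q.1) (List.mem_map.2 ⟨x, hx, hx1⟩)
          (List.mem_map.2 ⟨y, hy, hy1⟩)
        omega
      · exact hcc _ _ _ a b
      · exact hcc _ _ _ b a
      · exact con_disj hu hs a b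
    refine List.Nodup.pairwise_of_forall_ne List.nodup_range ?_
    intro s _ s' _ hne p hp hp'
    rcases lt_or_gt_of_ne hne with hlt | hlt
    · exact key s s' hlt p hp hp'
    · exact key s' s hlt p hp' hp

end Pool.Agent.H329
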