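import Pool.Agent.H329.StrAux

/-!
# The folding is a path
-/

set_option autoImplicit false

namespace Pool.Agent.H329.FPAux

open Pool.Agent.H329 Pool.Agent.H329.StrAux

attribute [-instance] Int.instConditionallyCompleteLinearOrder

/-- the point of the corridor `s` at the bottom of row `c` -/
def PP (G : Grid) (s c : ℕ) : Pt :=
  (84 * (uu G : ℤ) * s + 50 * uu G, 29 * (uu G : ℤ) * c - 8 * (uu G : ℤ) * s)

theorem ptsOf_reverse (l : List (Pt × Bool)) : ptsOf l.reverse = (ptsOf l).reverse := by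
  unfold ptsOf
  rw [List.map_reverse]

theorem ptsOf_flatMap (l : List ℕ) (f : ℕ → List (Pt × Bool)) :
    ptsOf (l.flatMap f) = l.flatMap fun c => ptsOf (f c) := by
  unfold ptsOf
  rw [List.map_flatMap]

theorem ptsOf_shift (o : Pt) (l : List (Pt × Bool)) :
    ptsOf (shift o l) = (ptsOf l).map fun p => ((p.1 + o.1, p.2 + o.2) : Pt) := by
  unfold ptsOf shift
  rw [List.map_map, List.map_map]
  rfl

theorem isPath_shift {p q : Pt} {l : List Pt} (o : Pt) (h : IsPath p l q) :
    IsPath (p.1 + o.1, p.2 + o.2) (l.map fun p => ((p.1 + o.1, p.2 + o.2) : Pt))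
      (q.1 + o.1, q.2 + o.2) := by
  obtain ⟨h1, h2⟩ := h
  have e : (l.map fun p => ((p.1 + o.1, p.2 + o.2) : Pt)) ++ [((q.1 + o.1, q.2 + o.2) : Pt)] =
      (l ++ [q]).map fun p => ((p.1 + o.1, p.2 + o.2) : Pt) := by
    rw [List.map_append]
    rfl
  constructor
  · rw [e, List.head?_map, h1]
    rfl
  · rw [e, List.isChain_map]
    refine h2.imp fun a b hab => ?_
    unfold Adj at *
    simp only [add_sub_add_right_eq_sub]
    exact hab

theorem isPath_reverse {p q r : Pt} {l : List Pt} (h : IsPath p l q) (hr : Adj p r) :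
    IsPath q (q :: l.reverse) r := by
  obtain ⟨h1, h2⟩ := h
  have e : q :: l.reverse = (l ++ [q]).reverse := by simp
  constructor
  · rfl
  · rw [e, List.isChain_append]
    refine ⟨?_, by simp, ?_⟩
    · rw [List.isChain_reverse]
      exact h2.imp fun a b hab => hab.symm
    · intro x hx y hy
      rw [List.getLast?_reverse, h1] at hx
      simp only [Option.mem_def, Option.some.injEq, List.head?_cons] at hx hy
      subst hx
      subst hy
      exact hr

theorem seg_succ (p d : Pt) {n : ℤ} (hn : 0 ≤ n) :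
    seg p d (n + 1) = seg p d n ++ [(p.1 + n * d.1, p.2 + n * d.2)] := by
  rw [seg_eq, seg_eq, show (n + 1).toNat = n.toNat + 1 by omega, List.range_succ, List.map_append]
  simp only [List.map_cons, List.map_nil]
  rw [Int.toNat_of_nonneg hn]

theorem adj_dirs : Adj ((0, 0) : Pt) (0, 1) ∧ Adj ((0, 0) : Pt) (1, 0) ∧
    Adj ((0, 0) : Pt) (0, -1) := by
  unfold Adj
  simp

theorem top_gen (p q : Pt) (U : ℤ) (hU : 0 ≤ U) (h1 : p.1 + 84 * U = q.1)
    (h2 : p.2 - 8 * U = q.2) :
    runs p [((0, 1), 26 * U), ((1, 0), 84 * U), ((0, -1), 34 * U + 1)] =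
      runs p [((0, 1), 26 * U), ((1, 0), 84 * U), ((0, -1), 34 * U)] ++ [q] := by
  simp only [runs, List.append_nil]
  rw [seg_succ _ _ (by positivity)]
  simp only [← List.append_assoc]
  congr 1
  rw [List.cons.injEq]
  refine ⟨Prod.ext ?_ ?_, rfl⟩
  · simp only
    linarith
  · simp only
    linarith

theorem top_eq (G : Grid) (s : ℕ) : topPath G s = runs (PP G s (G.M + 1))
    [((0, 1), 26 * (uu G : ℤ)), ((1, 0), 84 * (uu G : ℤ)), ((0, -1), 34 * (uu G : ℤ))] ++
      [PP G (s + 1) (G.M + 1)] := by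
  unfold topPath
  refine top_gen (PP G s (G.M + 1)) (PP G (s + 1) (G.M + 1)) (uu G) (by positivity) ?_ ?_
  · simp only [PP]
    push_cast
    ring
  · simp only [PP]
    push_cast
    ring

theorem isPath_top (G : Grid) (s : ℕ) : IsPath (PP G s (G.M + 1)) (runs (PP G s (G.M + 1))
    [((0, 1), 26 * (uu G : ℤ)), ((1, 0), 84 * (uu G : ℤ)), ((0, -1), 34 * (uu G : ℤ))])
      (PP G (s + 1) (G.M + 1)) := by
  obtain ⟨d1, d2, d3⟩ := adj_dirs
  have h := isPath_runs (p := PP G s (G.M + 1))
    (rs := [((0, 1), 26 * (uu G : ℤ)), ((1, 0), 84 * (uu G : ℤ)), ((0, -1), 34 * (uu G : ℤ))])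
    (by
      intro r hr
      simp only [List.mem_cons, List.not_mem_nil, or_false] at hr
      rcases hr with rfl | rfl | rfl
      · exact ⟨by positivity, d1⟩
      · exact ⟨by positivity, d2⟩
      · exact ⟨by positivity, d3⟩)
  refine isPath_cast h rfl ?_
  simp only [runsEnd, PP]
  refine Prod.ext ?_ ?_ <;> push_cast <;> ring

theorem isPath_bot (G : Grid) (hu : 1 ≤ (uu G : ℤ)) (s : ℕ) :
    IsPath ((PP G s 0).1, (PP G s 0).2 - 1) (botPath G s) (PP G (s + 1) 0) := by
  obtain ⟨d1, d2, d3⟩ := adj_dirs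
  have h := isPath_runs
    (p := (84 * (uu G : ℤ) * s + 50 * uu G, - 8 * (uu G : ℤ) * s - 1))
    (rs := [((0, -1), 12 * (uu G : ℤ) - 1), ((1, 0), 84 * (uu G : ℤ)), ((0, 1), 4 * (uu G : ℤ))])
    (by
      intro r hr
      simp only [List.mem_cons, List.not_mem_nil, or_false] at hr
      rcases hr with rfl | rfl | rfl
      · exact ⟨by simp only; omega, d3⟩
      · exact ⟨by positivity, d2⟩
      · exact ⟨by positivity, d1⟩)
  refine isPath_cast h ?_ ?_
  · simp only [PP]
    refine Prod.ext ?_ ?_ <;> push_cast <;> ring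
  · simp only [runsEnd, PP]
    refine Prod.ext ?_ ?_ <;> push_cast <;> ring

end Pool.Agent.H329.FPAux

namespace Pool.Agent.H329

open StrAux FPAux

attribute [-instance] Int.instConditionallyCompleteLinearOrder

/-- the path of a corridor -/
theorem isPath_cor (hG : S_GrpPath) (hB : S_BinOk) {G : Grid} {v h : ℕ → ℕ → ℕ} (hV : G.Valid)
    (hS : G.Sol v h) (s : ℕ) :
    IsPath (PP G s 0) (ptsOf (corPath G v h s)) (PP G s (G.M + 1)) := by
  unfold corPath
  rw [ptsOf_flatMap]
  refine isPath_flatMap (f := fun c => PP G s c) fun c hc => ?_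
  have hok : (grpOf G v h s c).Ok (uu G) :=
    ⟨(hB G v h hV hS s c).1, (hB G v h hV hS (s + 1) c).1, (hB G v h hV hS (s + 1) (c + 1)).1⟩
  have h1 := (hG (uu G) (grpOf G v h s c) hok).1
  rw [ptsOf_shift]
  refine isPath_cast (isPath_shift (org (uu G) s c) h1) ?_ ?_
  · simp only [PP, org]
    refine Prod.ext ?_ ?_ <;> push_cast <;> ring
  · simp only [PP, org]
    refine Prod.ext ?_ ?_ <;> push_cast <;> ring

theorem isPath_cor2 (hG : S_GrpPath) (hB : S_BinOk) {G : Grid} {v h : ℕ → ℕ → ℕ} (hV : G.Valid)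
    (hS : G.Sol v h) (r : ℕ) :
    IsPath (PP G (2 * r) 0) (ptsOf (cor2Path G v h r)) (PP G (2 * (r + 1)) 0) := by
  have hu : 1 ≤ (uu G : ℤ) := by
    have := (hB G v h hV hS 0 0).1.u_pos
    omega
  unfold cor2Path
  rw [ptsOf_append, ptsOf_append, ptsOf_append, ptsOf_ps, ptsOf_ps, ptsOf_reverse, top_eq]
  refine isPath_append (isPath_cor hG hB hV hS (2 * r)) ?_
  rw [List.append_assoc]
  refine isPath_append (isPath_top G (2 * r)) ?_
  have h1 := isPath_cor hG hB hV hS (2 * r + 1)
  have h2 : Adj (PP G (2 * r + 1) 0) ((PP G (2 * r + 1) 0).1, (PP G (2 * r + 1) 0).2 - 1) := by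
    unfold Adj
    simp
  have h3 := isPath_reverse h1 h2
  have h5 := isPath_bot G hu (2 * r + 1)
  rw [show 2 * r + 1 + 1 = 2 * (r + 1) by ring] at h5
  have h4 := isPath_append h3 h5
  rw [List.cons_append] at h4
  rw [List.singleton_append]
  exact h4

theorem FullPath_proof (hG : S_GrpPath) (hB : S_BinOk) : S_FullPath := by
  intro G v h hV hS
  unfold fullPath
  rw [ptsOf_flatMap]
  have h1 := isPath_flatMap (f := fun r => PP G (2 * r) 0)
    (L := fun r => ptsOf (cor2Path G v h r)) (n := G.M + G.N)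
    fun r _ => isPath_cor2 hG hB hV hS r
  exact (List.isChain_append.1 h1.2).1

end Pool.Agent.H329
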