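import Pool.Agent.H329.Inst

/-!
# Geometry of the folding: definitions

Everything is given by explicit lists of lattice points.  Lists describe half-open paths: the first
point is included, the end point is not.
-/

namespace Pool.Agent.H329

attribute [-instance] Int.instConditionallyCompleteLinearOrder

/-- The half-open path with `n` steps in direction `d` starting at `p`. -/
def seg (p d : Pt) (n : ℤ) : List Pt :=
  (List.range n.toNat).map fun j => (p.1 + (j : ℤ) * d.1, p.2 + (j : ℤ) * d.2)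

/-- A sequence of runs. -/
def runs : Pt → List (Pt × ℤ) → List Pt
  | _, [] => []
  | p, (d, n) :: rs => seg p d n ++ runs (p.1 + n * d.1, p.2 + n * d.2) rs

/-- Where a sequence of runs ends. -/
def runsEnd : Pt → List (Pt × ℤ) → Pt
  | p, [] => p
  | p, (d, n) :: rs => runsEnd (p.1 + n * d.1, p.2 + n * d.2) rs

/-- `l` is a half-open path from `p` to `q`. -/
def IsPath (p : Pt) (l : List Pt) (q : Pt) : Prop :=
  (l ++ [q]).head? = some p ∧ (l ++ [q]).IsChain Adj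

/-- The zigzag of an item of size `a`: sites `h`, `h + d1`, `h + d1 + d2`, ... (the `H`-sites are the
points `h + j (d1 + d2)`, `j < a`). -/
def zig (h d1 d2 : Pt) (a : ℤ) : List (Pt × Bool) :=
  (List.range (2 * a - 1).toNat).map fun j =>
    (((h.1 + ((j / 2 : ℕ) : ℤ) * (d1.1 + d2.1) + (if j % 2 = 0 then 0 else d1.1),
      h.2 + ((j / 2 : ℕ) : ℤ) * (d1.2 + d2.2) + (if j % 2 = 0 then 0 else d1.2)) : Pt),
      (j % 2 == 0))

/-- Label all points with `P`. -/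
def ps (l : List Pt) : List (Pt × Bool) := l.map fun p => (p, false)

/-- Label all points with `H`. -/
def hs (l : List Pt) : List (Pt × Bool) := l.map fun p => (p, true)

/-- Parameters of a bin: four side lengths of its hexagon and the states of its corners. -/
structure BinP where
  lT : ℤ
  lUR : ℤ
  lLL : ℤ
  lUL : ℤ
  t0 : ℤ
  t1 : ℤ
  e2 : ℤ
  e3 : ℤ
  e4 : ℤ
  e5 : ℤ

namespace BinP

variable (b : BinP)

def x1 : ℤ := b.lT + b.lUR
def y1 : ℤ := b.lUL + b.lLL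
def s0 : ℤ := b.lLL
def s1 : ℤ := b.lUL + b.lLL + b.lT
def lLR : ℤ := b.lUL + b.lLL - b.lUR
def lB : ℤ := b.lT + b.lUR - b.lLL
def aT : ℤ := b.lT + b.t0 - b.t1 - 1
def aUR : ℤ := b.lUR + b.t1 - b.e2 - 1
def aLR : ℤ := b.lLR + b.e2 - b.e3
def aB : ℤ := b.lB + b.e3 - b.e4
def aLL : ℤ := b.lLL + b.e4 - b.e5
def aUL : ℤ := b.lUL + b.e5 - b.t0

/-- right-most interior vertex of row `y` -/
def xr (y : ℤ) : ℤ := min (b.x1 - 1) (b.s1 - 1 - y)

/-- left-most interior vertex of row `y` -/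
def xl (y : ℤ) : ℤ := max 1 (b.s0 + 1 - y)

/-- the hexagon -/
def hex : Finset Pt :=
  (Finset.Icc (0 : ℤ) b.x1 ×ˢ Finset.Icc (0 : ℤ) b.y1).filter fun p =>
    b.s0 ≤ p.1 + p.2 ∧ p.1 + p.2 ≤ b.s1

end BinP

/-- The seven strands of a bin. -/
inductive Side : Type
  | LR | UR | CH | T | B | LL | UL
  deriving DecidableEq

/-- Entry point of a strand (included). -/
def entryPt (u : ℤ) : Side → Pt
  | .LR => (20 * u, u)
  | .UR => (20 * u, 9 * u)
  | .CH => (20 * u, 21 * u)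
  | .T => (20 * u, 23 * u)
  | .B => (-4 * u, -3 * u)
  | .LL => (-4 * u, -u)
  | .UL => (-4 * u, 12 * u)

/-- Exit point of a strand (excluded). -/
def exitPt (u : ℤ) : Side → Pt
  | .LR => (20 * u + 1, 2 * u)
  | .UR => (20 * u + 1, 17 * u)
  | .CH => (20 * u + 1, 24 * u)
  | .T => (20 * u + 1, 22 * u)
  | .B => (-4 * u - 1, -2 * u)
  | .LL => (-4 * u - 1, 0)
  | .UL => (-4 * u - 1, 13 * u)

/-- Runs of the entry part (half-open path from the entry point to the first `H`). -/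
def enRuns (u : ℤ) (b : BinP) : Side → List (Pt × ℤ)
  | .LR => [((-1, 0), 3 * u), ((0, -1), u + 1 - b.e3), ((-1, 0), 17 * u - b.x1 - 1), ((-1, 1), 1)]
  | .UR => [((-1, 0), 3 * u), ((0, -1), 9 * u - b.lLR - b.e2), ((-1, 0), 17 * u - b.x1 - 1 + b.e2),
      ((-1, 0), 1)]
  | .CH => [((-1, 0), 20 * u - b.lT - 1 + b.t1), ((0, -1), 21 * u - b.y1 - min b.t1 1), ((0, -1), 1)]
  | .T => [((-1, 0), 20 * u - 1 + b.t0), ((0, -1), 23 * u - b.y1 - 1), ((1, -1), 1)]
  | .B => [((1, 0), 4 * u + b.x1 + b.e3), ((0, 1), 3 * u - 1), ((-1, 1), 1)]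
  | .LL => [((1, 0), 4 * u + b.s0 - 1 + b.e4), ((0, 1), u - b.e4), ((0, 1), 1)]
  | .UL => [((1, 0), 3 * u), ((0, -1), 12 * u - b.s0 - 1 + b.e5), ((1, 0), u - 1), ((1, 0), 1)]

/-- Runs of the exit part (half-open path from the ring site after the last `H` to the exit
point). -/
def exRuns (u : ℤ) (b : BinP) : Side → List (Pt × ℤ)
  | .LR => [((1, 0), 17 * u - b.x1 - 1), ((0, -1), b.lLR + b.e2 - 1 - 2 * u), ((1, 0), 3 * u + 1)]
  | .UR => [((0, 1), 17 * u - b.y1 + 1 - b.t1), ((1, 0), 20 * u - 1 - b.lT + b.t1)]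
  | .CH => [((-1, 1), 1), ((0, 1), 24 * u - b.y1 - 2 + max (b.t0 - 1) 0),
      ((1, 0), 20 * u + 2 + min b.t0 1)]
  | .T => [((0, 1), 22 * u - b.y1 - 1), ((1, 0), 20 * u + 1 - b.lT + b.t1)]
  | .B => [((0, -1), 2 * u - 1), ((-1, 0), b.s0 + b.e4 + 4 * u + 1)]
  | .LL => [((-1, 0), u - 1 + b.e5), ((0, -1), b.s0 - b.e5), ((-1, 0), 3 * u + 1)]
  | .UL => [((-1, 0), u - 1), ((0, -1), b.y1 + 1 - b.t0 - 13 * u), ((-1, 0), 3 * u + 1)]

/-- First `H`-site of a strand. -/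
def firstH (b : BinP) : Side → Pt
  | .LR => (b.x1, b.e3)
  | .UR => (b.x1 - b.e2, b.lLR + b.e2)
  | .CH => (b.lT + 1 - b.t1, b.y1 - 1 + min b.t1 1)
  | .T => (2 - b.t0, b.y1)
  | .B => (b.x1 - 1 + b.e3, 0)
  | .LL => (b.s0 - 1 + b.e4, 1 - b.e4)
  | .UL => (0, b.s0 + 1 - b.e5)

/-- The two steps of the zigzag. -/
def zd1 : Side → Pt
  | .LR => (1, 0)
  | .UR => (0, 1)
  | .CH => (0, 0)
  | .T => (0, 1)
  | .B => (0, -1)
  | .LL => (-1, 0)
  | .UL => (-1, 1)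

@[inherit_doc zd1]
def zd2 : Side → Pt
  | .LR => (-1, 1)
  | .UR => (-1, 0)
  | .CH => (0, 0)
  | .T => (1, -1)
  | .B => (-1, 1)
  | .LL => (0, 1)
  | .UL => (1, 0)

/-- Sizes of the items at the sides (for the chord: its number of vertices is not given here). -/
def asz (b : BinP) : Side → ℤ
  | .LR => b.aLR
  | .UR => b.aUR
  | .CH => 0
  | .T => b.aT
  | .B => b.aB
  | .LL => b.aLL
  | .UL => b.aUL

/-- The end vertex of the chord. -/
def u0pt (b : BinP) : Pt := (1 - min b.t0 1, b.y1 - max (b.t0 - 1) 0)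

/-- The right-most interior vertices, from top to bottom. -/
def chordA (b : BinP) : List Pt :=
  (List.range (b.y1 - 1).toNat).map fun j => (b.xr (b.y1 - 1 - j), b.y1 - 1 - j)

/-- The interior vertices of row `y = j + 1` which are not right-most, right to left for even `j`,
left to right for odd `j`. -/
def chordRow (b : BinP) (j : ℕ) : List Pt :=
  if j % 2 = 0 then seg (b.xr (j + 1) - 1, (j + 1 : ℤ)) (-1, 0) (b.xr (j + 1) - b.xl (j + 1))
  else seg (b.xl (j + 1), (j + 1 : ℤ)) (1, 0) (b.xr (j + 1) - b.xl (j + 1))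

/-- The vertices of the chord. -/
def chordCore (b : BinP) : List Pt :=
  firstH b .CH :: (chordA b ++ ((List.range (b.y1 - 1).toNat).flatMap (chordRow b) ++ [u0pt b]))

/-- The core of a strand. -/
def core (b : BinP) : Side → List (Pt × Bool)
  | .CH => hs (chordCore b)
  | σ => zig (firstH b σ) (zd1 σ) (zd2 σ) (asz b σ)

/-- The first site after the core. -/
def exStart (b : BinP) : Side → Pt
  | .LR => (b.x1 + 1, b.lLR + b.e2 - 1)
  | .UR => (b.lT + 2 - b.t1, b.y1 - 1 + b.t1)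
  | .CH => ((u0pt b).1 - 1, (u0pt b).2 + 1)
  | .T => (b.lT - b.t1, b.y1 + 1)
  | .B => (b.s0 + b.e4, -1)
  | .LL => (b.e5 - 1, b.s0 - b.e5)
  | .UL => (-1, b.y1 + 1 - b.t0)

/-- A strand of a bin: half-open path from `entryPt` to `exitPt`. -/
def strand (u : ℤ) (b : BinP) (σ : Side) : List (Pt × Bool) :=
  ps (runs (entryPt u σ) (enRuns u b σ)) ++ (core b σ ++ ps (runs (exStart b σ) (exRuns u b σ)))

/-- Number of `P`s before the core. -/
def enLen (u : ℤ) (b : BinP) : Side → ℤ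
  | .LR => 21 * u - b.x1 - b.e3 + 1
  | .UR => 29 * u - b.lLR - b.x1
  | .CH => 41 * u - b.lT - b.y1 + b.t1 - min b.t1 1
  | .T => 43 * u + b.t0 - b.y1 - 1
  | .B => 7 * u + b.x1 + b.e3
  | .LL => 5 * u + b.s0
  | .UL => 16 * u - b.s0 - 1 + b.e5

/-- Number of `P`s after the core. -/
def exLen (u : ℤ) (b : BinP) : Side → ℤ
  | .LR => 18 * u - b.x1 + b.lLR + b.e2 - 1
  | .UR => 37 * u - b.y1 - b.lT
  | .CH => 44 * u + 1 + b.t0 - b.y1
  | .T => 42 * u - b.y1 - b.lT + b.t1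
  | .B => 6 * u + b.s0 + b.e4
  | .LL => 4 * u + b.s0
  | .UL => b.y1 - 9 * u + 1 - b.t0

/-- Admissible bin parameters at scale `u`. -/
structure BinP.Ok (u : ℤ) (b : BinP) : Prop where
  u_pos : 100 ≤ u
  lT1 : 8 * u ≤ b.lT
  lT2 : 100 * (b.lT - 8 * u) ≤ u
  lUR1 : 8 * u ≤ b.lUR
  lUR2 : 100 * (b.lUR - 8 * u) ≤ u
  lLL1 : 8 * u ≤ b.lLL
  lLL2 : 100 * (b.lLL - 8 * u) ≤ u
  lUL1 : 8 * u ≤ b.lUL
  lUL2 : 100 * (b.lUL - 8 * u) ≤ u
  t0a : 0 ≤ b.t0
  t0b : b.t0 ≤ 2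
  t1a : 0 ≤ b.t1
  t1b : b.t1 ≤ 2
  e2a : 0 ≤ b.e2
  e2b : b.e2 ≤ 1
  e3a : 0 ≤ b.e3
  e3b : b.e3 ≤ 1
  e4a : 0 ≤ b.e4
  e4b : b.e4 ≤ 1
  e5a : 0 ≤ b.e5
  e5b : b.e5 ≤ 1
  par : b.y1 % 2 = 0

/-! ### Corridor pieces -/

/-- A horizontal run to the right of length `dist` with `n` detours. -/
def padR (p : Pt) (dist n : ℤ) : List Pt :=
  ((List.range n.toNat).flatMap fun j =>
    [(p.1 + (j : ℤ), p.2), (p.1 + (j : ℤ), p.2 + 1)]) ++ seg (p.1 + n, p.2) (1, 0) (dist - n)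

/-- A horizontal run to the left of length `dist` with `n` detours. -/
def padL (p : Pt) (dist n : ℤ) : List Pt :=
  ((List.range n.toNat).flatMap fun j =>
    [(p.1 - (j : ℤ), p.2), (p.1 - (j : ℤ) - 1, p.2 + 1)]) ++ seg (p.1 - n, p.2) (-1, 0) (dist - n)

/-- Names of the corridor pieces. -/
inductive Pc : Type
  | A0 | A1 | C0a | C1a | C2a | C0b | C1b | C2b | B0 | B1
  | V0a | V1a | V2a | V3a | V0b | V1b | V2b | V3b
  deriving DecidableEq

/-- The corridor piece with `n` detours (local coordinates of the group). -/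
def piece (u n : ℤ) : Pc → List Pt
  | .A0 => runs (50 * u, 0) [((0, 1), u)] ++ padL (50 * u, u) (30 * u) n
  | .A1 => padR (20 * u + 1, 2 * u) (30 * u - 1) n ++ runs (50 * u, 2 * u) [((0, 1), u)]
  | .C0a => runs (50 * u, 3 * u) [((0, 1), 6 * u)] ++ padL (50 * u, 9 * u) (30 * u) n
  | .C1a => padR (20 * u + 1, 17 * u) (20 * u - 1) n ++
      runs (40 * u, 17 * u) [((0, -1), 6 * u), ((1, 0), 20 * u), ((0, -1), 7 * u), ((1, 0), 20 * u)]
  | .C2a => runs (80 * u - 1, 5 * u) [((-1, 0), 10 * u - 1), ((0, 1), 8 * u)] ++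
      (padL (70 * u, 13 * u) (20 * u) n ++ runs (50 * u, 13 * u) [((0, 1), 5 * u)])
  | .C0b => runs (50 * u, 3 * u) [((0, 1), u)] ++ padR (50 * u, 4 * u) (30 * u) n
  | .C1b => padL (80 * u - 1, 5 * u) (40 * u - 1) n ++
      runs (40 * u, 5 * u) [((0, 1), 4 * u), ((-1, 0), 20 * u)]
  | .C2b => padR (20 * u + 1, 17 * u) (30 * u - 1) n ++ runs (50 * u, 17 * u) [((0, 1), u)]
  | .B0 => padR (50 * u, 18 * u) (30 * u) n
  | .B1 => padL (80 * u - 1, 19 * u) (30 * u - 1) n ++ runs (50 * u, 19 * u) [((0, 1), u)]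
  | .V0a => runs (50 * u, 20 * u) [((0, 1), 3 * u)] ++ padL (50 * u, 23 * u) (30 * u) n
  | .V1a => padR (20 * u + 1, 22 * u) (29 * u - 1) n ++
      runs (49 * u, 22 * u) [((0, -1), u), ((-1, 0), 29 * u)]
  | .V2a => padR (20 * u + 1, 24 * u) (40 * u - 1) n ++
      runs (60 * u, 24 * u) [((0, -1), 4 * u), ((1, 0), 20 * u)]
  | .V3a => runs (80 * u - 1, 21 * u) [((-1, 0), 10 * u - 1), ((0, 1), 5 * u)] ++
      (padL (70 * u, 26 * u) (20 * u) n ++ runs (50 * u, 26 * u) [((0, 1), 3 * u)])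
  | .V0b => padR (50 * u, 20 * u) (30 * u) n
  | .V1b => padL (80 * u - 1, 21 * u) (60 * u - 1) n
  | .V2b => padR (20 * u + 1, 24 * u) (29 * u - 1) n ++
      runs (49 * u, 24 * u) [((0, -1), u), ((-1, 0), 29 * u)]
  | .V3b => padR (20 * u + 1, 22 * u) (30 * u - 1) n ++ runs (50 * u, 22 * u) [((0, 1), 7 * u)]

/-- Number of points of the piece without detours. -/
def pcLen (u : ℤ) : Pc → ℤ
  | .A0 => 31 * u
  | .A1 => 31 * u - 1
  | .C0a => 36 * u
  | .C1a => 73 * u - 1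
  | .C2a => 43 * u - 1
  | .C0b => 31 * u
  | .C1b => 64 * u - 1
  | .C2b => 31 * u - 1
  | .B0 => 30 * u
  | .B1 => 31 * u - 1
  | .V0a => 33 * u
  | .V1a => 59 * u - 1
  | .V2a => 64 * u - 1
  | .V3a => 38 * u - 1
  | .V0b => 30 * u
  | .V1b => 60 * u - 1
  | .V2b => 59 * u - 1
  | .V3b => 37 * u - 1

/-- Start point (included) of a piece. -/
def pcStart (u : ℤ) : Pc → Pt
  | .A0 => (50 * u, 0)
  | .A1 => (20 * u + 1, 2 * u)
  | .C0a => (50 * u, 3 * u)
  | .C1a => (20 * u + 1, 17 * u)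
  | .C2a => (80 * u - 1, 5 * u)
  | .C0b => (50 * u, 3 * u)
  | .C1b => (80 * u - 1, 5 * u)
  | .C2b => (20 * u + 1, 17 * u)
  | .B0 => (50 * u, 18 * u)
  | .B1 => (80 * u - 1, 19 * u)
  | .V0a => (50 * u, 20 * u)
  | .V1a => (20 * u + 1, 22 * u)
  | .V2a => (20 * u + 1, 24 * u)
  | .V3a => (80 * u - 1, 21 * u)
  | .V0b => (50 * u, 20 * u)
  | .V1b => (80 * u - 1, 21 * u)
  | .V2b => (20 * u + 1, 24 * u)
  | .V3b => (20 * u + 1, 22 * u)

/-- End point (excluded) of a piece. -/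
def pcEnd (u : ℤ) : Pc → Pt
  | .A0 => (20 * u, u)
  | .A1 => (50 * u, 3 * u)
  | .C0a => (20 * u, 9 * u)
  | .C1a => (80 * u, 4 * u)
  | .C2a => (50 * u, 18 * u)
  | .C0b => (80 * u, 4 * u)
  | .C1b => (20 * u, 9 * u)
  | .C2b => (50 * u, 18 * u)
  | .B0 => (80 * u, 18 * u)
  | .B1 => (50 * u, 20 * u)
  | .V0a => (20 * u, 23 * u)
  | .V1a => (20 * u, 21 * u)
  | .V2a => (80 * u, 20 * u)
  | .V3a => (50 * u, 29 * u)
  | .V0b => (80 * u, 20 * u)
  | .V1b => (20 * u, 21 * u)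
  | .V2b => (20 * u, 23 * u)
  | .V3b => (50 * u, 29 * u)

/-- Two pieces never used together in a group: different orders of the same gadget. -/
def Pc.slab : Pc → ℕ
  | .A0 | .A1 => 0
  | .C0a | .C1a | .C2a => 1
  | .C0b | .C1b | .C2b => 2
  | .B0 | .B1 => 3
  | .V0a | .V1a | .V2a | .V3a => 4
  | .V0b | .V1b | .V2b | .V3b => 5

/-- The vertical range of a slab. -/
def Pc.ylo : Pc → ℤ
  | .A0 | .A1 => 0
  | .C0a | .C1a | .C2a | .C0b | .C1b | .C2b => 3
  | .B0 | .B1 => 18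
  | _ => 20

@[inherit_doc Pc.ylo]
def Pc.yhi : Pc → ℤ
  | .A0 | .A1 => 3
  | .C0a | .C1a | .C2a | .C0b | .C1b | .C2b => 18
  | .B0 | .B1 => 20
  | _ => 29

/-! ### The path of a group -/

/-- Translation of a labelled list. -/
def shift (o : Pt) (l : List (Pt × Bool)) : List (Pt × Bool) :=
  l.map fun q => ((q.1.1 + o.1, q.1.2 + o.2), q.2)

/-- Erase the letters of a virtual bin. -/
def mask (r : Bool) (l : List (Pt × Bool)) : List (Pt × Bool) := l.map fun q => (q.1, q.2 && r)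

/-- A bin together with the information whether it is real. -/
structure RB where
  b : BinP
  r : Bool

/-- The three bins of a group: `(s,c)`, `(s+1,c)`, `(s+1,c+1)`, and the two order bits. -/
structure Grp where
  b0 : RB
  b1 : RB
  b2 : RB
  hh : Bool
  vv : Bool

/-- The bin of a side. -/
def Grp.bin (g : Grp) : Side → RB
  | .LR | .UR | .CH | .T => g.b0
  | .UL => g.b1
  | .B | .LL => g.b2

/-- The local origin of the bin of a side. -/
def sideO (u : ℤ) : Side → Pt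
  | .LR | .UR | .CH | .T => (0, 0)
  | .UL => (84 * u, -8 * u)
  | .B | .LL => (84 * u, 21 * u)

/-- The strand of a side of a group. -/
def Grp.st (u : ℤ) (g : Grp) (σ : Side) : List (Pt × Bool) :=
  shift (sideO u σ) (mask (g.bin σ).r (strand u (g.bin σ).b σ))

def Grp.en (u : ℤ) (g : Grp) (σ : Side) : ℤ := enLen u (g.bin σ).b σ

def Grp.ex (u : ℤ) (g : Grp) (σ : Side) : ℤ := exLen u (g.bin σ).b σ

/-- The piece `x` brought to total length `tot`. -/
def pcs (u : ℤ) (x : Pc) (tot : ℤ) : List (Pt × Bool) := ps (piece u (tot - pcLen u x) x)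

/-- The path of a group. -/
def Grp.path (u : ℤ) (g : Grp) : List (Pt × Bool) :=
  pcs u .A0 (38 * u - g.en u .LR) ++ g.st u .LR ++ pcs u .A1 (43 * u - g.ex u .LR) ++
  (if g.hh then
    pcs u .C0a (43 * u - g.en u .UR) ++ g.st u .UR ++
      pcs u .C1a (96 * u - g.ex u .UR - g.en u .UL) ++ g.st u .UL ++
      pcs u .C2a (52 * u - g.ex u .UL)
  else
    pcs u .C0b (43 * u - g.en u .UL) ++ g.st u .UL ++
      pcs u .C1b (96 * u - g.ex u .UL - g.en u .UR) ++ g.st u .UR ++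
      pcs u .C2b (52 * u - g.ex u .UR)) ++
  pcs u .B0 (55 * u - g.en u .B) ++ g.st u .B ++ pcs u .B1 (47 * u - g.ex u .B) ++
  (if g.vv then
    pcs u .V0a (62 * u - g.en u .T) ++ g.st u .T ++
      pcs u .V1a (96 * u - g.ex u .T - g.en u .CH) ++ g.st u .CH ++
      pcs u .V2a (116 * u - g.ex u .CH - g.en u .LL) ++ g.st u .LL ++
      pcs u .V3a (57 * u - g.ex u .LL)
  else
    pcs u .V0b (62 * u - g.en u .LL) ++ g.st u .LL ++
      pcs u .V1b (96 * u - g.ex u .LL - g.en u .CH) ++ g.st u .CH ++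
      pcs u .V2b (116 * u - g.ex u .CH - g.en u .T) ++ g.st u .T ++
      pcs u .V3b (57 * u - g.ex u .T))

end Pool.Agent.H329
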