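import Pool.Agent.H329.Geo

/-!
# The folding of a solved grid instance: definitions
-/

namespace Pool.Agent.H329

attribute [-instance] Int.instConditionallyCompleteLinearOrder

/-- The default (virtual) bin. -/
def defBin (u : ℤ) : BinP := ⟨8 * u, 8 * u, 8 * u, 8 * u, 0, 1, 1, 1, 1, 0⟩

/-- The bin in column `s` with row number `c`, for a solution `v, h` of the grid. -/
def binOf (G : Grid) (v h : ℕ → ℕ → ℕ) (s c : ℕ) : RB :=
  if real G s c then
    ⟨{ lT := lT G c (s - c)
       lUR := lUR G c (s - c)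
       lLL := lLL G c (s - c)
       lUL := lUL G c (s - c)
       t0 := if G.w (c - 1) (s - c) = 1 then (h c (s - c - 1) : ℤ)
         else (v (c - 1) (s - c) : ℤ) + h c (s - c - 1)
       t1 := (h c (s - c) : ℤ) + 1 - v (c - 1) (s - c)
       e2 := 1 - v (c - 1) (s - c)
       e3 := 1 - v (c - 1) (s - c)
       e4 := 1 - v (c - 1) (s - c)
       e5 := if G.w (c - 1) (s - c) = 1 then 0 else (v (c - 1) (s - c) : ℤ) }, true⟩
  else ⟨defBin (uu G), false⟩

/-- The group `(s,c)`. -/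
def grpOf (G : Grid) (v h : ℕ → ℕ → ℕ) (s c : ℕ) : Grp :=
  ⟨binOf G v h s c, binOf G v h (s + 1) c, binOf G v h (s + 1) (c + 1),
    (real G s c || real G (s + 1) c) && (h c (s - c) == 1),
    real G s c && (v c (s - c) == 1)⟩

/-- The origin of the bin and the group `(s,c)`. -/
def org (u : ℤ) (s c : ℕ) : Pt := (84 * u * s, 29 * u * c - 8 * u * s)

/-- The path of the corridor `s`. -/
def corPath (G : Grid) (v h : ℕ → ℕ → ℕ) (s : ℕ) : List (Pt × Bool) :=
  (List.range (G.M + 1)).flatMap fun c => shift (org (uu G) s c) ((grpOf G v h s c).path (uu G))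

/-- Connection at the top, between the corridors `s` and `s + 1`. -/
def topPath (G : Grid) (s : ℕ) : List Pt :=
  runs (84 * (uu G : ℤ) * s + 50 * uu G, 29 * (uu G : ℤ) * (G.M + 1 : ℕ) - 8 * (uu G : ℤ) * s)
    [((0, 1), 26 * (uu G : ℤ)), ((1, 0), 84 * (uu G : ℤ)), ((0, -1), 34 * (uu G : ℤ) + 1)]

/-- Connection at the bottom, between the corridors `s` and `s + 1`. -/
def botPath (G : Grid) (s : ℕ) : List Pt :=
  runs (84 * (uu G : ℤ) * s + 50 * uu G, - 8 * (uu G : ℤ) * s - 1)
    [((0, -1), 12 * (uu G : ℤ) - 1), ((1, 0), 84 * (uu G : ℤ)), ((0, 1), 4 * (uu G : ℤ))]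

/-- The path of the corridors `2 r` and `2 r + 1` with the connections. -/
def cor2Path (G : Grid) (v h : ℕ → ℕ → ℕ) (r : ℕ) : List (Pt × Bool) :=
  corPath G v h (2 * r) ++ (ps (topPath G (2 * r)) ++
    ((corPath G v h (2 * r + 1)).reverse ++ ps (botPath G (2 * r + 1))))

/-- The whole folding. -/
def fullPath (G : Grid) (v h : ℕ → ℕ → ℕ) : List (Pt × Bool) :=
  (List.range (G.M + G.N)).flatMap (cor2Path G v h)

/-- The letters of the core of a side of a group. -/
def Grp.coreL (g : Grp) (σ : Side) : List Bool := (mask (g.bin σ).r (core (g.bin σ).b σ)).map Prod.snd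

/-- `n` letters `P`. -/
def pp0 (n : ℤ) : List Bool := List.replicate n.toNat false

/-- The word of a group. -/
def Grp.letters (u : ℤ) (g : Grp) : List Bool :=
  pp0 (38 * u) ++ g.coreL .LR ++ pp0 (86 * u) ++
  (if g.hh then g.coreL .UR ++ pp0 (96 * u) ++ g.coreL .UL
    else g.coreL .UL ++ pp0 (96 * u) ++ g.coreL .UR) ++
  pp0 (107 * u) ++ g.coreL .B ++ pp0 (109 * u) ++
  (if g.vv then g.coreL .T ++ pp0 (96 * u) ++ g.coreL .CH ++ pp0 (116 * u) ++ g.coreL .LL
    else g.coreL .LL ++ pp0 (96 * u) ++ g.coreL .CH ++ pp0 (116 * u) ++ g.coreL .T) ++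
  pp0 (57 * u)

/-- All bins of a group are admissible. -/
structure Grp.Ok (u : ℤ) (g : Grp) : Prop where
  b0 : g.b0.b.Ok u
  b1 : g.b1.b.Ok u
  b2 : g.b2.b.Ok u

end Pool.Agent.H329
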