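import Pool.Agent.H329.Inst

/-!
# The grid instance of a 3SAT formula
-/

namespace Pool.Agent.H329

open Pool.Agent.NPC

/-- Wire of a literal. -/
def wireLit (l : Lit ℕ) : ℕ := if l.1 then 4 * l.2 + 1 else 4 * l.2 + 3

/-- Number of variables. -/
def nvar (φ : List (Lit ℕ × Lit ℕ × Lit ℕ)) : ℕ := 3 * φ.length

/-- Is wire `i` incident to the row pair `j`? -/
def incid (φ : List (Lit ℕ × Lit ℕ × Lit ℕ)) (j i : ℕ) : Bool :=
  if j < nvar φ then i == 4 * j + 1 || i == 4 * j + 3
  else if j < nvar φ + φ.length then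
    i % 2 == 0 || (match φ[j - nvar φ]? with
      | some c => i == wireLit c.1 || (i == wireLit c.2.1 || i == wireLit c.2.2)
      | none => false)
  else i == 4 * (j - nvar φ - φ.length) + 1 || i == 4 * (j - nvar φ - φ.length) + 3

/-- The grid instance of a formula: generators, clauses, absorbers. -/
def gridOf (φ : List (Lit ℕ × Lit ℕ × Lit ℕ)) : Grid where
  M := 2 * (2 * nvar φ + φ.length)
  N := 4 * nvar φ
  w c i := if c % 2 = 1 ∧ incid φ ((c - 1) / 2) i = true then 1 else 2
  hL c := if (c - 1) / 2 < nvar φ then 1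
    else if (c - 1) / 2 < nvar φ + φ.length then (if c % 2 = 1 then 0 else 1) else 0
  hR c := if (c - 1) / 2 < nvar φ then 0
    else if (c - 1) / 2 < nvar φ + φ.length then (if c % 2 = 1 then 1 else 0) else 1

end Pool.Agent.H329
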