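import Pool.Agent.H329.Spec

/-!
Project HP folding (MP_dec383_lc), job GridSat: the grid instance of a formula.
-/

namespace Pool.Agent.H329




open Pool.Agent.NPC

open Finset



namespace GridSatAux

/-- One row pair: `V`, `V'` values of the wires before and after, `x` in between, `h`, `k` the
horizontal values. -/
structure Row (N : ℕ) (inc : ℕ → Bool) (V V' x h k : ℕ → ℕ) : Prop where
  hV : ∀ i, V i ≤ 1
  hV' : ∀ i, V' i ≤ 1
  hx : ∀ i, x i ≤ 1
  hh : ∀ i, h i ≤ 1
  hk : ∀ i, k i ≤ 1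
  e1 : ∀ i, 1 ≤ i → i ≤ N → (if inc i = true then 1 else 2) * x i + h i = 2 * V i + h (i - 1)
  e2 : ∀ i, 1 ≤ i → i ≤ N → 2 * V' i + k i = (if inc i = true then 1 else 2) * x i + k (i - 1)

/-! ### Analysis of rows -/

theorem Row.non {N : ℕ} {inc : ℕ → Bool} {V V' x h k : ℕ → ℕ} (R : Row N inc V V' x h k) {i : ℕ}
    (h1 : 1 ≤ i) (h2 : i ≤ N) (hi : inc i = false) :
    V' i = V i ∧ h i = h (i - 1) ∧ k i = k (i - 1) := by
  have e1 := R.e1 i h1 h2
  have e2 := R.e2 i h1 h2
  rw [hi] at e1 e2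
  simp only [Bool.false_eq_true, if_false] at e1 e2
  have a1 := R.hV i
  have a2 := R.hV' i
  have a3 := R.hx i
  have a4 := R.hh i
  have a5 := R.hk i
  have a6 := R.hh (i - 1)
  have a7 := R.hk (i - 1)
  refine ⟨?_, ?_, ?_⟩ <;> omega

theorem Row.inc' {N : ℕ} {inc : ℕ → Bool} {V V' x h k : ℕ → ℕ} (R : Row N inc V V' x h k) {i : ℕ}
    (h1 : 1 ≤ i) (h2 : i ≤ N) (hi : inc i = true) :
    x i + h i = 2 * V i + h (i - 1) ∧ 2 * V' i + k i = x i + k (i - 1) := by
  have e1 := R.e1 i h1 h2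
  have e2 := R.e2 i h1 h2
  rw [hi] at e1 e2
  simp only [if_true, one_mul] at e1 e2
  exact ⟨e1, e2⟩

/-- no change between `a` and `b` when no wire is incident -/
theorem Row.const {N : ℕ} {inc : ℕ → Bool} {V V' x h k : ℕ → ℕ} (R : Row N inc V V' x h k)
    {a : ℕ} : ∀ b, a ≤ b → b ≤ N → (∀ i, a < i → i ≤ b → inc i = false) →
      h b = h a ∧ k b = k a := by
  intro b
  induction b with
  | zero =>
    intro hab _ _
    have : a = 0 := by omega
    subst this
    exact ⟨rfl, rfl⟩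
  | succ b ih =>
    intro hab hb hi
    rcases Nat.lt_or_ge b a with h1 | h1
    · have : a = b + 1 := by omega
      subst this
      exact ⟨rfl, rfl⟩
    · have h2 := ih h1 (by omega) fun i hi1 hi2 => hi i hi1 (by omega)
      have h3 := R.non (i := b + 1) (by omega) hb (hi (b + 1) (by omega) le_rfl)
      rw [Nat.add_sub_cancel] at h3
      exact ⟨h3.2.1.trans h2.1, h3.2.2.trans h2.2⟩

/-- a generator row: exactly one of the two wires gets `1` -/
theorem Row.gen {N : ℕ} {inc : ℕ → Bool} {V V' x h k : ℕ → ℕ} (R : Row N inc V V' x h k)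
    {p q : ℕ} (hp : 1 ≤ p) (hpq : p < q) (hq : q ≤ N) (hinc : ∀ i, inc i = true ↔ i = p ∨ i = q)
    (hVp : V p = 0) (hVq : V q = 0) (s1 : h 0 = 1) (s2 : k 0 = 1) (t1 : h N = 0) (t2 : k N = 0) :
    V' p + V' q = 1 := by
  have hn : ∀ i, i ≠ p → i ≠ q → inc i = false := by
    intro i h1 h2
    by_contra h3
    rw [Bool.not_eq_false] at h3
    rcases (hinc i).1 h3 with h4 | h4
    · exact h1 h4
    · exact h2 h4
  have c1 := R.const (a := 0) (p - 1) (by omega) (by omega)
    fun i h1 h2 => hn i (by omega) (by omega)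
  have c2 := R.const (a := p) (q - 1) (by omega) (by omega)
    fun i h1 h2 => hn i (by omega) (by omega)
  have c3 := R.const (a := q) N hq le_rfl fun i h1 h2 => hn i (by omega) (by omega)
  have d1 := R.inc' hp (by omega) ((hinc p).2 (Or.inl rfl))
  have d2 := R.inc' (i := q) (by omega) hq ((hinc q).2 (Or.inr rfl))
  have a1 := R.hV' p
  have a2 := R.hV' q
  have a3 := R.hx p
  have a4 := R.hx q
  have a5 := R.hh p
  have a6 := R.hk p
  have a7 := R.hh q
  have a8 := R.hk q
  omega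

/-- a clause row: nothing changes, and some incident wire carries `1` -/
theorem Row.cl {N : ℕ} {inc : ℕ → Bool} {V V' x h k : ℕ → ℕ} (R : Row N inc V V' x h k)
    (s1 : h 0 = 0) (s2 : k 0 = 1) : ∀ m, m ≤ N → h m + k m = 1 ∧
      (∀ i, 1 ≤ i → i ≤ m → V' i = V i) ∧
      ((∀ i, 1 ≤ i → i ≤ m → inc i = true → V i = 0) → h m = 0) := by
  intro m
  induction m with
  | zero =>
    intro _
    refine ⟨by omega, fun i h1 h2 => by omega, fun _ => s1⟩
  | succ m ih =>
    intro hm
    obtain ⟨i1, i2, i3⟩ := ih (by omega)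
    have a1 := R.hV (m + 1)
    have a2 := R.hV' (m + 1)
    have a3 := R.hx (m + 1)
    have a4 := R.hh (m + 1)
    have a5 := R.hk (m + 1)
    have a6 := R.hh m
    have a7 := R.hk m
    cases hi : inc (m + 1) with
    | false =>
      have h3 := R.non (i := m + 1) (by omega) hm hi
      rw [Nat.add_sub_cancel] at h3
      refine ⟨by omega, fun i h1 h2 => ?_, fun h4 => ?_⟩
      · rcases Nat.lt_or_ge i (m + 1) with h5 | h5
        · exact i2 i h1 (by omega)
        · have : i = m + 1 := by omega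
          subst this
          exact h3.1
      · rw [h3.2.1]
        exact i3 fun i h5 h6 => h4 i h5 (by omega)
    | true =>
      have h3 := R.inc' (i := m + 1) (by omega) hm hi
      rw [Nat.add_sub_cancel] at h3
      refine ⟨by omega, fun i h1 h2 => ?_, fun h4 => ?_⟩
      · rcases Nat.lt_or_ge i (m + 1) with h5 | h5
        · exact i2 i h1 (by omega)
        · have : i = m + 1 := by omega
          subst this
          omega
      · have h5 := h4 (m + 1) (by omega) le_rfl hi
        have h6 := i3 fun i h5 h6 => h4 i h5 (by omega)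
        omega

/-! ### Construction of rows -/

theorem genRow (N : ℕ) (inc : ℕ → Bool) (V V' : ℕ → ℕ) (hV : ∀ i, V i ≤ 1) (hV' : ∀ i, V' i ≤ 1)
    (p : ℕ) (hp : 1 ≤ p) (hpN : p ≤ N) (hinc : inc p = true) (h0 : V p = 0) (h1 : V' p = 1)
    (hne : ∀ i, i ≠ p → V' i = V i) (hi : ∀ i, inc i = true → i ≠ p → V i = 0) :
    ∃ x h k : ℕ → ℕ, Row N inc V V' x h k ∧ h 0 = 1 ∧ k 0 = 1 ∧ h N = 0 ∧ k N = 0 := by
  refine ⟨fun i => if i = p then 1 else V i, fun i => if i < p then 1 else 0,
    fun i => if i < p then 1 else 0, ⟨hV, hV', ?_, ?_, ?_, ?_, ?_⟩, ?_, ?_, ?_, ?_⟩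
  · intro i
    split_ifs
    · exact le_rfl
    · exact hV i
  · intro i
    split_ifs <;> omega
  · intro i
    split_ifs <;> omega
  · intro i h2 h3
    by_cases h4 : i = p
    · subst h4
      rw [if_pos hinc, if_pos rfl, if_neg (lt_irrefl _), if_pos (by omega), h0]
    · have h5 : (if inc i = true then 1 else 2) * V i = 2 * V i := by
        by_cases h6 : inc i = true
        · rw [hi i h6 h4, mul_zero, mul_zero]
        · rw [if_neg h6]
      rw [if_neg h4, h5]
      split_ifs <;> omega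
  · intro i h2 h3
    by_cases h4 : i = p
    · subst h4
      rw [if_pos hinc, if_pos rfl, if_neg (lt_irrefl _), if_pos (by omega), h1]
    · have h5 : (if inc i = true then 1 else 2) * V i = 2 * V i := by
        by_cases h6 : inc i = true
        · rw [hi i h6 h4, mul_zero, mul_zero]
        · rw [if_neg h6]
      rw [if_neg h4, h5, hne i h4]
      split_ifs <;> omega
  · exact if_pos (by omega)
  · exact if_pos (by omega)
  · exact if_neg (by omega)
  · exact if_neg (by omega)

theorem absRow (N : ℕ) (inc : ℕ → Bool) (V V' : ℕ → ℕ) (hV : ∀ i, V i ≤ 1) (hV' : ∀ i, V' i ≤ 1)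
    (p : ℕ) (hp : 1 ≤ p) (hpN : p ≤ N) (hinc : inc p = true) (h0 : V p = 1) (h1 : V' p = 0)
    (hne : ∀ i, i ≠ p → V' i = V i) (hi : ∀ i, inc i = true → i ≠ p → V i = 0) :
    ∃ x h k : ℕ → ℕ, Row N inc V V' x h k ∧ h 0 = 0 ∧ k 0 = 0 ∧ h N = 1 ∧ k N = 1 := by
  refine ⟨V, fun i => if i < p then 0 else 1,
    fun i => if i < p then 0 else 1, ⟨hV, hV', hV, ?_, ?_, ?_, ?_⟩, ?_, ?_, ?_, ?_⟩
  · intro i
    split_ifs <;> omega
  · intro i
    split_ifs <;> omega
  · intro i h2 h3
    by_cases h4 : i = p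
    · subst h4
      rw [if_pos hinc, if_neg (lt_irrefl _), if_pos (by omega), h0]
    · have h5 : (if inc i = true then 1 else 2) * V i = 2 * V i := by
        by_cases h6 : inc i = true
        · rw [hi i h6 h4, mul_zero, mul_zero]
        · rw [if_neg h6]
      rw [h5]
      split_ifs <;> omega
  · intro i h2 h3
    by_cases h4 : i = p
    · subst h4
      rw [if_pos hinc, if_neg (lt_irrefl _), if_pos (by omega), h1, h0]
    · have h5 : (if inc i = true then 1 else 2) * V i = 2 * V i := by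
        by_cases h6 : inc i = true
        · rw [hi i h6 h4, mul_zero, mul_zero]
        · rw [if_neg h6]
      rw [h5, hne i h4]
      split_ifs <;> omega
  · exact if_pos (by omega)
  · exact if_pos (by omega)
  · exact if_neg (by omega)
  · exact if_neg (by omega)

theorem clRow (N : ℕ) (inc : ℕ → Bool) (V : ℕ → ℕ) (hV : ∀ i, V i ≤ 1)
    (heven : ∀ i, i % 2 = 0 → inc i = true ∧ V i = 0) (hN : V (N + 1) = 0)
    (hex : ∃ p, 1 ≤ p ∧ p ≤ N ∧ inc p = true ∧ V p = 1) :
    ∃ x h k : ℕ → ℕ, Row N inc V V x h k ∧ h 0 = 0 ∧ k 0 = 1 ∧ h N = 1 ∧ k N = 0 := by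
  classical
  obtain ⟨s, hs⟩ : ∃ s : ℕ → ℕ, ∀ i, s i =
      if (∃ p, inc p = true ∧ V p = 1 ∧ p ≤ i) ∧ ¬ (inc (i + 1) = true ∧ V (i + 1) = 1)
      then 1 else 0 := ⟨_, fun _ => rfl⟩
  have hs1 : ∀ i, s i ≤ 1 := by
    intro i
    rw [hs]
    split_ifs <;> omega
  -- the jump
  have hjump : ∀ i, 1 ≤ i → inc i = true → V i = 1 → s (i - 1) = 0 ∧ s i = 1 := by
    intro i h1 h2 h3
    have h4 : i % 2 = 1 := by
      by_contra h5
      have := (heven i (by omega)).2
      omega
    constructor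
    · rw [hs, if_neg]
      rintro ⟨-, h5⟩
      rw [Nat.sub_add_cancel h1] at h5
      exact h5 ⟨h2, h3⟩
    · rw [hs, if_pos]
      refine ⟨⟨i, h2, h3, le_rfl⟩, ?_⟩
      rintro ⟨-, h5⟩
      have := (heven (i + 1) (by omega)).2
      omega
  -- elsewhere
  have hold : ∀ i, 1 ≤ i → i % 2 = 1 → ¬ (inc i = true ∧ V i = 1) → s i = s (i - 1) := by
    intro i h1 h2 h3
    rw [hs, hs, Nat.sub_add_cancel h1]
    have h4 : ¬ (inc (i + 1) = true ∧ V (i + 1) = 1) := by
      rintro ⟨-, h5⟩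
      have := (heven (i + 1) (by omega)).2
      omega
    have h5 : (∃ p, inc p = true ∧ V p = 1 ∧ p ≤ i) ↔
        (∃ p, inc p = true ∧ V p = 1 ∧ p ≤ i - 1) := by
      constructor
      · rintro ⟨p, h6, h7, h8⟩
        refine ⟨p, h6, h7, ?_⟩
        by_contra h9
        have : p = i := by omega
        subst this
        exact h3 ⟨h6, h7⟩
      · rintro ⟨p, h6, h7, h8⟩
        exact ⟨p, h6, h7, by omega⟩
    simp only [h5, h4, h3, not_false_eq_true, and_true]
  have hdrop : ∀ i, 1 ≤ i → i % 2 = 0 → s i ≤ s (i - 1) := by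
    intro i h1 h2
    have h3 := (heven i h2).2
    by_cases h4 : s (i - 1) = 0
    · rw [h4]
      rw [hs] at h4
      rw [hs, if_neg]
      rintro ⟨⟨p, h6, h7, h8⟩, -⟩
      have h9 : p ≠ i := by
        rintro rfl
        omega
      rw [if_pos] at h4
      · omega
      · refine ⟨⟨p, h6, h7, by omega⟩, ?_⟩
        rintro ⟨-, h10⟩
        rw [Nat.sub_add_cancel h1] at h10
        omega
    · have := hs1 i
      have := hs1 (i - 1)
      omega
  -- values of `x`
  refine ⟨fun i => if V i = 1 then 1 else s (i - 1) - s i, s, fun i => 1 - s i,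
    ⟨hV, hV, ?_, hs1, ?_, ?_, ?_⟩, ?_, ?_, ?_, ?_⟩
  · intro i
    have := hs1 (i - 1)
    split_ifs <;> omega
  · intro i
    omega
  · intro i h1 h2
    have b1 := hs1 i
    have b2 := hs1 (i - 1)
    have b3 := hV i
    by_cases h3 : V i = 1
    · rw [if_pos h3]
      by_cases h4 : inc i = true
      · have h5 := hjump i h1 h4 h3
        rw [if_pos h4]
        omega
      · have h5 : i % 2 = 1 := by
          by_contra h6
          exact h4 (heven i (by omega)).1
        have h6 := hold i h1 h5 (fun h => h4 h.1)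
        rw [if_neg h4]
        omega
    · rw [if_neg h3]
      have h7 : s i ≤ s (i - 1) := by
        rcases Nat.mod_two_eq_zero_or_one i with h5 | h5
        · exact hdrop i h1 h5
        · exact (hold i h1 h5 (fun h => h3 h.2)).le
      by_cases h4 : inc i = true
      · rw [if_pos h4]
        omega
      · have h5 : i % 2 = 1 := by
          by_contra h6
          exact h4 (heven i (by omega)).1
        have h6 := hold i h1 h5 (fun h => h4 h.1)
        rw [if_neg h4]
        omega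
  · intro i h1 h2
    have b1 := hs1 i
    have b2 := hs1 (i - 1)
    have b3 := hV i
    by_cases h3 : V i = 1
    · rw [if_pos h3]
      by_cases h4 : inc i = true
      · have h5 := hjump i h1 h4 h3
        rw [if_pos h4]
        omega
      · have h5 : i % 2 = 1 := by
          by_contra h6
          exact h4 (heven i (by omega)).1
        have h6 := hold i h1 h5 (fun h => h4 h.1)
        rw [if_neg h4]
        omega
    · rw [if_neg h3]
      have h7 : s i ≤ s (i - 1) := by
        rcases Nat.mod_two_eq_zero_or_one i with h5 | h5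
        · exact hdrop i h1 h5
        · exact (hold i h1 h5 (fun h => h3 h.2)).le
      by_cases h4 : inc i = true
      · rw [if_pos h4]
        omega
      · have h5 : i % 2 = 1 := by
          by_contra h6
          exact h4 (heven i (by omega)).1
        have h6 := hold i h1 h5 (fun h => h4 h.1)
        rw [if_neg h4]
        omega
  · rw [hs, if_neg]
    rintro ⟨⟨p, -, h2, h3⟩, -⟩
    have : p = 0 := by omega
    subst this
    have := (heven 0 rfl).2
    omega
  · have : s 0 = 0 := by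
      rw [hs, if_neg]
      rintro ⟨⟨p, -, h2, h3⟩, -⟩
      have : p = 0 := by omega
      subst this
      have := (heven 0 rfl).2
      omega
    dsimp only
    omega
  · rw [hs, if_pos]
    obtain ⟨p, -, h2, h3, h4⟩ := hex
    exact ⟨⟨p, h3, h4, h2⟩, fun h => by omega⟩
  · have : s N = 1 := by
      rw [hs, if_pos]
      obtain ⟨p, -, h2, h3, h4⟩ := hex
      exact ⟨⟨p, h3, h4, h2⟩, fun h => by omega⟩
    dsimp only
    omega

/-! ### The incidence relation -/

variable {φ : List (Lit ℕ × Lit ℕ × Lit ℕ)}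

theorem incid_gen {j i : ℕ} (hj : j < nvar φ) :
    incid φ j i = true ↔ i = 4 * j + 1 ∨ i = 4 * j + 3 := by
  unfold incid
  rw [if_pos hj]
  simp

theorem incid_abs {j i : ℕ} (hj : nvar φ + φ.length ≤ j) :
    incid φ j i = true ↔ i = 4 * (j - nvar φ - φ.length) + 1 ∨
      i = 4 * (j - nvar φ - φ.length) + 3 := by
  unfold incid
  rw [if_neg (by omega), if_neg (by omega)]
  simp

theorem incid_cl {m i : ℕ} (hm : m < φ.length) :
    incid φ (nvar φ + m) i = true ↔ i % 2 = 0 ∨ i = wireLit φ[m].1 ∨ i = wireLit φ[m].2.1 ∨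
      i = wireLit φ[m].2.2 := by
  unfold incid
  rw [if_neg (by omega), if_pos (by omega), Nat.add_sub_cancel_left, List.getElem?_eq_getElem hm]
  simp

theorem w_odd (j i : ℕ) : (gridOf φ).w (2 * j + 1) i = if incid φ j i = true then 1 else 2 := by
  change (if (2 * j + 1) % 2 = 1 ∧ incid φ ((2 * j + 1 - 1) / 2) i = true then 1 else 2) = _
  have h1 : (2 * j + 1 - 1) / 2 = j := by omega
  have h2 : (2 * j + 1) % 2 = 1 := by omega
  rw [h1]
  simp only [h2, true_and]

theorem w_even (j i : ℕ) : (gridOf φ).w (2 * j) i = 2 := by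
  change (if (2 * j) % 2 = 1 ∧ incid φ ((2 * j - 1) / 2) i = true then 1 else 2) = _
  rw [if_neg]
  rintro ⟨h, -⟩
  omega

theorem hL_odd (j : ℕ) : (gridOf φ).hL (2 * j + 1) = if j < nvar φ then 1 else 0 := by
  change (if (2 * j + 1 - 1) / 2 < nvar φ then 1
    else if (2 * j + 1 - 1) / 2 < nvar φ + φ.length then (if (2 * j + 1) % 2 = 1 then 0 else 1)
      else 0) = _
  have h1 : (2 * j + 1 - 1) / 2 = j := by omega
  have h2 : (2 * j + 1) % 2 = 1 := by omega
  rw [h1, h2]
  split_ifs <;> first | rfl | omega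

theorem hL_even (j : ℕ) : (gridOf φ).hL (2 * j + 2) = if j < nvar φ + φ.length then 1 else 0 := by
  change (if (2 * j + 2 - 1) / 2 < nvar φ then 1
    else if (2 * j + 2 - 1) / 2 < nvar φ + φ.length then (if (2 * j + 2) % 2 = 1 then 0 else 1)
      else 0) = _
  have h1 : (2 * j + 2 - 1) / 2 = j := by omega
  have h2 : (2 * j + 2) % 2 = 0 := by omega
  rw [h1, h2]
  split_ifs <;> first | rfl | omega

theorem hR_odd (j : ℕ) : (gridOf φ).hR (2 * j + 1) = if j < nvar φ then 0 else 1 := by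
  change (if (2 * j + 1 - 1) / 2 < nvar φ then 0
    else if (2 * j + 1 - 1) / 2 < nvar φ + φ.length then (if (2 * j + 1) % 2 = 1 then 1 else 0)
      else 1) = _
  have h1 : (2 * j + 1 - 1) / 2 = j := by omega
  have h2 : (2 * j + 1) % 2 = 1 := by omega
  rw [h1, h2]
  split_ifs <;> first | rfl | omega

theorem hR_even (j : ℕ) : (gridOf φ).hR (2 * j + 2) = if j < nvar φ + φ.length then 0 else 1 := by
  change (if (2 * j + 2 - 1) / 2 < nvar φ then 0
    else if (2 * j + 2 - 1) / 2 < nvar φ + φ.length then (if (2 * j + 2) % 2 = 1 then 1 else 0)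
      else 1) = _
  have h1 : (2 * j + 2 - 1) / 2 = j := by omega
  have h2 : (2 * j + 2) % 2 = 0 := by omega
  rw [h1, h2]
  split_ifs <;> first | rfl | omega

/-! ### Validity -/

theorem valid (hφ : φ ≠ []) : (gridOf φ).Valid := by
  have hK : 1 ≤ φ.length := List.length_pos_iff.2 hφ
  have hn : nvar φ = 3 * φ.length := rfl
  have hM : (gridOf φ).M = 2 * (2 * nvar φ + φ.length) := rfl
  have hN : (gridOf φ).N = 4 * nvar φ := rfl
  have hpar : ∀ c, c = 0 ∨ (∃ j, c = 2 * j + 1) ∨ ∃ j, c = 2 * j + 2 := by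
    intro c
    rcases Nat.even_or_odd' c with ⟨j, hj | hj⟩
    · rcases Nat.eq_zero_or_pos j with h | h
      · exact Or.inl (by omega)
      · exact Or.inr (Or.inr ⟨j - 1, by omega⟩)
    · exact Or.inr (Or.inl ⟨j, hj⟩)
  have hL0 : ∀ c, (gridOf φ).hL c ≤ 1 := by
    intro c
    change (if (c - 1) / 2 < nvar φ then 1
      else if (c - 1) / 2 < nvar φ + φ.length then (if c % 2 = 1 then 0 else 1) else 0) ≤ 1
    split_ifs <;> omega
  have hR0 : ∀ c, (gridOf φ).hR c ≤ 1 := by
    intro c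
    change (if (c - 1) / 2 < nvar φ then 0
      else if (c - 1) / 2 < nvar φ + φ.length then (if c % 2 = 1 then 1 else 0) else 1) ≤ 1
    split_ifs <;> omega
  refine ⟨by omega, by omega, ?_, fun i => w_even 0 i, ?_, hL0, hR0, ?_⟩
  · intro c i
    change (if c % 2 = 1 ∧ incid φ ((c - 1) / 2) i = true then 1 else 2) = 1 ∨
      (if c % 2 = 1 ∧ incid φ ((c - 1) / 2) i = true then 1 else 2) = 2
    split_ifs
    · exact Or.inl rfl
    · exact Or.inr rfl
  · intro c i
    rcases Nat.even_or_odd' c with ⟨j, hj | hj⟩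
    · left
      rw [hj]
      exact w_even j i
    · right
      rw [hj]
      exact w_even (j + 1) i
  · refine Finset.sum_nbij' (fun c => (gridOf φ).M + 1 - c) (fun c => (gridOf φ).M + 1 - c)
      ?_ ?_ ?_ ?_ ?_
    · intro c hc
      rw [Finset.mem_Icc] at hc ⊢
      omega
    · intro c hc
      rw [Finset.mem_Icc] at hc ⊢
      omega
    · intro c hc
      rw [Finset.mem_Icc] at hc
      omega
    · intro c hc
      rw [Finset.mem_Icc] at hc
      omega
    · intro c hc
      rw [Finset.mem_Icc] at hc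
      rcases hpar c with rfl | ⟨j, rfl⟩ | ⟨j, rfl⟩
      · omega
      · have h1 : (gridOf φ).M + 1 - (2 * j + 1) = 2 * (2 * nvar φ + φ.length - 1 - j) + 2 := by
          omega
        rw [h1, hL_odd, hR_even]
        split_ifs <;> omega
      · have h1 : (gridOf φ).M + 1 - (2 * j + 2) = 2 * (2 * nvar φ + φ.length - 1 - j) + 1 := by
          omega
        rw [h1, hL_even, hR_odd]
        split_ifs <;> omega

/-! ### From a solution to an assignment -/

theorem row_of_sol {v h : ℕ → ℕ → ℕ} (S : (gridOf φ).Sol v h) {j : ℕ}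
    (hj : j < 2 * nvar φ + φ.length) :
    Row (4 * nvar φ) (incid φ j) (v (2 * j)) (v (2 * j + 2)) (v (2 * j + 1)) (h (2 * j + 1))
      (h (2 * j + 2)) := by
  have hM : (gridOf φ).M = 2 * (2 * nvar φ + φ.length) := rfl
  have hN : (gridOf φ).N = 4 * nvar φ := rfl
  refine ⟨S.v_le _, S.v_le _, S.v_le _, S.h_le _, S.h_le _, ?_, ?_⟩
  · intro i h1 h2
    have h3 := S.eq (2 * j + 1) i (by omega) (by omega) h1 (by omega)
    rw [Nat.add_sub_cancel, w_odd, w_even] at h3
    exact h3
  · intro i h1 h2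
    have h3 := S.eq (2 * j + 2) i (by omega) (by omega) h1 (by omega)
    have h4 : 2 * j + 2 = 2 * (j + 1) := by ring
    have h5 : 2 * j + 2 - 1 = 2 * j + 1 := by omega
    rw [h5, w_odd] at h3
    rw [h4, w_even] at h3
    rw [h4]
    exact h3

theorem bounds_of_sol {v h : ℕ → ℕ → ℕ} (S : (gridOf φ).Sol v h) {j : ℕ}
    (hj : j < 2 * nvar φ + φ.length) :
    h (2 * j + 1) 0 = (if j < nvar φ then 1 else 0) ∧
    h (2 * j + 2) 0 = (if j < nvar φ + φ.length then 1 else 0) ∧
    h (2 * j + 1) (4 * nvar φ) = (if j < nvar φ then 0 else 1) ∧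
    h (2 * j + 2) (4 * nvar φ) = (if j < nvar φ + φ.length then 0 else 1) := by
  have hM : (gridOf φ).M = 2 * (2 * nvar φ + φ.length) := rfl
  refine ⟨?_, ?_, ?_, ?_⟩
  · rw [← hL_odd]
    exact S.h_zero _ (by omega) (by omega)
  · rw [← hL_even]
    exact S.h_zero _ (by omega) (by omega)
  · rw [← hR_odd]
    exact S.h_N _ (by omega) (by omega)
  · rw [← hR_even]
    exact S.h_N _ (by omega) (by omega)

/-- the values after the generators -/
theorem gen_of_sol {v h : ℕ → ℕ → ℕ} (S : (gridOf φ).Sol v h) : ∀ j, j ≤ nvar φ →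
    (∀ a, a < j → v (2 * j) (4 * a + 1) + v (2 * j) (4 * a + 3) = 1) ∧
    (∀ a, j ≤ a → a < nvar φ → v (2 * j) (4 * a + 1) = 0 ∧ v (2 * j) (4 * a + 3) = 0) := by
  intro j
  induction j with
  | zero =>
    intro _
    exact ⟨fun a ha => by omega, fun a _ _ => ⟨S.v_zero _, S.v_zero _⟩⟩
  | succ j ih =>
    intro hj
    obtain ⟨i1, i2⟩ := ih (by omega)
    have R := row_of_sol S (j := j) (by omega)
    obtain ⟨b1, b2, b3, b4⟩ := bounds_of_sol S (j := j) (by omega)
    rw [if_pos (by omega)] at b1 b2 b3 b4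
    have hz := i2 j le_rfl (by omega)
    have hg := R.gen (p := 4 * j + 1) (q := 4 * j + 3) (by omega) (by omega) (by omega)
      (fun i => incid_gen (by omega)) hz.1 hz.2 b1 b2 b3 b4
    have hne : ∀ i, 1 ≤ i → i ≤ 4 * nvar φ → i ≠ 4 * j + 1 → i ≠ 4 * j + 3 →
        v (2 * j + 2) i = v (2 * j) i := by
      intro i h1 h2 h3 h4
      refine (R.non h1 h2 ?_).1
      by_contra h5
      rw [Bool.not_eq_false, incid_gen (by omega)] at h5
      omega
    have he : 2 * (j + 1) = 2 * j + 2 := by ring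
    rw [he]
    constructor
    · intro a ha
      rcases Nat.lt_or_ge a j with h1 | h1
      · rw [hne _ (by omega) (by omega) (by omega) (by omega),
          hne _ (by omega) (by omega) (by omega) (by omega)]
        exact i1 a h1
      · have : a = j := by omega
        subst this
        exact hg
    · intro a h1 h2
      rw [hne _ (by omega) (by omega) (by omega) (by omega),
          hne _ (by omega) (by omega) (by omega) (by omega)]
      exact i2 a (by omega) h2

/-- even wires carry `0` after the generators -/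
theorem even_of_sol {v h : ℕ → ℕ → ℕ} (S : (gridOf φ).Sol v h) : ∀ j, j ≤ nvar φ →
    ∀ i, 1 ≤ i → i ≤ 4 * nvar φ → i % 2 = 0 → v (2 * j) i = 0 := by
  intro j
  induction j with
  | zero =>
    intro _ i _ _ _
    exact S.v_zero i
  | succ j ih =>
    intro hj i h1 h2 h3
    have R := row_of_sol S (j := j) (by omega)
    have he : 2 * (j + 1) = 2 * j + 2 := by ring
    rw [he]
    rw [(R.non h1 h2 ?_).1]
    · exact ih (by omega) i h1 h2 h3
    · by_contra h5
      rw [Bool.not_eq_false, incid_gen (by omega)] at h5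
      omega

/-- the values do not change in the clause rows -/
theorem cl_of_sol {v h : ℕ → ℕ → ℕ} (S : (gridOf φ).Sol v h) : ∀ m, m ≤ φ.length →
    ∀ i, 1 ≤ i → i ≤ 4 * nvar φ → v (2 * (nvar φ + m)) i = v (2 * nvar φ) i := by
  intro m
  induction m with
  | zero =>
    intro _ i _ _
    rfl
  | succ m ih =>
    intro hm i h1 h2
    have R := row_of_sol S (j := nvar φ + m) (by omega)
    obtain ⟨b1, b2, b3, b4⟩ := bounds_of_sol S (j := nvar φ + m) (by omega)
    rw [if_neg (by omega)] at b1 b3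
    rw [if_pos (by omega)] at b2 b4
    have h3 := (R.cl b1 b2 (4 * nvar φ) le_rfl).2.1 i h1 h2
    have he : 2 * (nvar φ + (m + 1)) = 2 * (nvar φ + m) + 2 := by ring
    rw [he, h3]
    exact ih (by omega) i h1 h2

theorem sat_of_sol (hb : Bounded3 φ) {v h : ℕ → ℕ → ℕ} (S : (gridOf φ).Sol v h) : SAT3 φ := by
  obtain ⟨g1, -⟩ := gen_of_sol S (nvar φ) le_rfl
  have g2 := even_of_sol S (nvar φ) le_rfl
  refine ⟨fun a => decide (v (2 * nvar φ) (4 * a + 1) = 1), fun c hc => ?_⟩
  obtain ⟨m, hm, rfl⟩ := List.getElem_of_mem hc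
  have R := row_of_sol S (j := nvar φ + m) (by omega)
  obtain ⟨b1, b2, b3, b4⟩ := bounds_of_sol S (j := nvar φ + m) (by omega)
  rw [if_neg (by omega)] at b1 b3
  rw [if_pos (by omega)] at b2 b4
  have h3 := (R.cl b1 b2 (4 * nvar φ) le_rfl).2.2
  obtain ⟨i, hi1, hi2, hi3, hi4⟩ : ∃ i, 1 ≤ i ∧ i ≤ 4 * nvar φ ∧
      incid φ (nvar φ + m) i = true ∧ v (2 * (nvar φ + m)) i ≠ 0 := by
    by_contra hcon
    push Not at hcon
    have := h3 fun i h1 h2 h3 => hcon i h1 h2 h3
    omega
  rw [cl_of_sol S m (by omega) i hi1 hi2] at hi4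
  have hb' := hb _ hc
  have hn : nvar φ = 3 * φ.length := rfl
  have key : ∀ l : Lit ℕ, l.2 < 3 * φ.length → i = wireLit l →
      decide (v (2 * nvar φ) (4 * l.2 + 1) = 1) = l.1 := by
    rintro ⟨b, a⟩ ha hl
    have ha' : a < nvar φ := by
      rw [hn]
      exact ha
    have h5 := g1 a ha'
    cases b with
    | true =>
      have : i = 4 * a + 1 := hl
      subst this
      have := S.v_le (2 * nvar φ) (4 * a + 1)
      change decide (v (2 * nvar φ) (4 * a + 1) = 1) = true
      rw [decide_eq_true_eq]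
      omega
    | false =>
      have : i = 4 * a + 3 := hl
      subst this
      have := S.v_le (2 * nvar φ) (4 * a + 3)
      change decide (v (2 * nvar φ) (4 * a + 1) = 1) = false
      rw [decide_eq_false_iff_not]
      omega
  rcases (incid_cl hm).1 hi3 with h4 | h4 | h4 | h4
  · exact absurd (g2 i hi1 hi2 h4) hi4
  · exact Or.inl (key _ hb'.1 h4)
  · exact Or.inr (Or.inl (key _ hb'.2.1 h4))
  · exact Or.inr (Or.inr (key _ hb'.2.2 h4))

/-! ### From an assignment to a solution -/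

/-- the value of a wire under an assignment -/
def lit (τ : ℕ → Bool) (i : ℕ) : Bool :=
  if i % 4 = 1 then τ (i / 4) else if i % 4 = 3 then !τ (i / 4) else false

/-- the values of the wires after `j` row pairs -/
def VV (φ : List (Lit ℕ × Lit ℕ × Lit ℕ)) (τ : ℕ → Bool) (j i : ℕ) : ℕ :=
  if lit τ i = true ∧ i / 4 < nvar φ ∧ i / 4 < j ∧ j ≤ nvar φ + φ.length + i / 4 then 1 else 0

theorem VV_le (τ : ℕ → Bool) (j i : ℕ) : VV φ τ j i ≤ 1 := by
  unfold VV
  split_ifs <;> omega

theorem lit_iff (τ : ℕ → Bool) (i : ℕ) : lit τ i = true ↔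
    i = 4 * (i / 4) + (if τ (i / 4) = true then 1 else 3) := by
  unfold lit
  cases h : τ (i / 4)
  · simp only [Bool.not_false, Bool.false_eq_true, if_false]
    constructor
    · intro h1
      split_ifs at h1 with h2 h3
      · omega
    · intro h1
      have h2 : i % 4 = 3 := by omega
      rw [if_neg (by omega), if_pos h2]
  · simp only [if_true, Bool.not_true]
    constructor
    · intro h1
      split_ifs at h1 with h2 h3
      · omega
    · intro h1
      have h2 : i % 4 = 1 := by omega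
      rw [if_pos h2]

/-- the wire of the variable `a` that carries `1` -/
def pw (τ : ℕ → Bool) (a : ℕ) : ℕ := 4 * a + if τ a = true then 1 else 3

theorem lit_iff' (τ : ℕ → Bool) (i : ℕ) : lit τ i = true ↔ i = pw τ (i / 4) := lit_iff τ i

theorem pw_div (τ : ℕ → Bool) (a : ℕ) : pw τ a / 4 = a := by
  unfold pw
  split_ifs <;> omega

theorem pw_mem (τ : ℕ → Bool) (a : ℕ) : pw τ a = 4 * a + 1 ∨ pw τ a = 4 * a + 3 := by
  unfold pw
  split_ifs
  · exact Or.inl rfl
  · exact Or.inr rfl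

theorem VV_gen (τ : ℕ → Bool) {j : ℕ} (hj : j < nvar φ) :
    ∃ x h k : ℕ → ℕ, Row (4 * nvar φ) (incid φ j) (VV φ τ j) (VV φ τ (j + 1)) x h k ∧
      h 0 = 1 ∧ k 0 = 1 ∧ h (4 * nvar φ) = 0 ∧ k (4 * nvar φ) = 0 := by
  have hp := pw_mem τ j
  have hd := pw_div τ j
  refine genRow _ _ _ _ (VV_le τ j) (VV_le τ (j + 1)) (pw τ j) (by omega) (by omega)
    ((incid_gen hj).2 hp) ?_ ?_ ?_ ?_
  · unfold VV
    rw [if_neg]
    rintro ⟨-, -, h1, -⟩
    omega
  · unfold VV
    rw [if_pos]
    refine ⟨(lit_iff' τ _).2 (by rw [hd]), ?_, ?_, ?_⟩ <;> omega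
  · intro i hi
    unfold VV
    by_cases hl : lit τ i = true
    · have h1 : i / 4 ≠ j := by
        rintro rfl
        exact hi ((lit_iff' τ i).1 hl)
      simp only [hl, true_and]
      congr 1
      rw [eq_iff_iff]
      omega
    · simp only [hl, false_and, if_false, Bool.false_eq_true]
  · intro i hi hne
    unfold VV
    rw [if_neg]
    rintro ⟨-, -, h1, -⟩
    rcases (incid_gen hj).1 hi with h2 | h2 <;> omega

theorem VV_abs (τ : ℕ → Bool) {j : ℕ} (hj : nvar φ + φ.length ≤ j)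
    (hj2 : j < 2 * nvar φ + φ.length) :
    ∃ x h k : ℕ → ℕ, Row (4 * nvar φ) (incid φ j) (VV φ τ j) (VV φ τ (j + 1)) x h k ∧
      h 0 = 0 ∧ k 0 = 0 ∧ h (4 * nvar φ) = 1 ∧ k (4 * nvar φ) = 1 := by
  obtain ⟨a, rfl⟩ : ∃ a, j = nvar φ + φ.length + a := ⟨j - (nvar φ + φ.length), by omega⟩
  have ha : nvar φ + φ.length + a - nvar φ - φ.length = a := by omega
  have hp := pw_mem τ a
  have hd := pw_div τ a
  refine absRow _ _ _ _ (VV_le τ _) (VV_le τ _) (pw τ a) (by omega) (by omega)
    ((incid_abs hj).2 (by rw [ha]; exact hp)) ?_ ?_ ?_ ?_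
  · unfold VV
    rw [if_pos]
    refine ⟨(lit_iff' τ _).2 (by rw [hd]), ?_, ?_, ?_⟩ <;> omega
  · unfold VV
    rw [if_neg]
    rintro ⟨-, -, -, h1⟩
    omega
  · intro i hi
    unfold VV
    by_cases hl : lit τ i = true
    · have h1 : i / 4 ≠ a := by
        rintro rfl
        exact hi ((lit_iff' τ i).1 hl)
      simp only [hl, true_and]
      congr 1
      rw [eq_iff_iff]
      omega
    · simp only [hl, false_and, if_false, Bool.false_eq_true]
  · intro i hi hne
    unfold VV
    rw [if_neg]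
    rintro ⟨h0, -, -, h1⟩
    rw [incid_abs hj, ha] at hi
    have h3 : i / 4 = a := by omega
    apply hne
    rw [← h3]
    exact (lit_iff' τ i).1 h0

theorem VV_cl (hb : Bounded3 φ) (τ : ℕ → Bool)
    (hτ : ∀ c ∈ φ, τ c.1.2 = c.1.1 ∨ τ c.2.1.2 = c.2.1.1 ∨ τ c.2.2.2 = c.2.2.1)
    {m : ℕ} (hm : m < φ.length) :
    ∃ x h k : ℕ → ℕ, Row (4 * nvar φ) (incid φ (nvar φ + m)) (VV φ τ (nvar φ + m))
      (VV φ τ (nvar φ + m + 1)) x h k ∧
      h 0 = 0 ∧ k 0 = 1 ∧ h (4 * nvar φ) = 1 ∧ k (4 * nvar φ) = 0 := by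
  have hsame : VV φ τ (nvar φ + m + 1) = VV φ τ (nvar φ + m) := by
    funext i
    unfold VV
    by_cases hl : lit τ i = true
    · simp only [hl, true_and]
      congr 1
      rw [eq_iff_iff]
      omega
    · simp only [hl, false_and, if_false, Bool.false_eq_true]
  rw [hsame]
  refine clRow _ _ _ (VV_le τ _) ?_ ?_ ?_
  · intro i hi
    refine ⟨(incid_cl hm).2 (Or.inl hi), ?_⟩
    unfold VV
    rw [if_neg]
    rintro ⟨h0, -⟩
    unfold lit at h0
    rw [if_neg (by omega), if_neg (by omega)] at h0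
    exact absurd h0 (by decide)
  · unfold VV
    rw [if_neg]
    rintro ⟨-, h0, -⟩
    omega
  · have hn : nvar φ = 3 * φ.length := rfl
    have key : ∀ l : Lit ℕ, l.2 < 3 * φ.length → τ l.2 = l.1 →
        1 ≤ wireLit l ∧ wireLit l ≤ 4 * nvar φ ∧ VV φ τ (nvar φ + m) (wireLit l) = 1 := by
      rintro ⟨b, a⟩ ha hl
      have ha' : a < nvar φ := by
        rw [hn]
        exact ha
      have hl' : τ a = b := hl
      have hw : wireLit (b, a) = pw τ a := by
        unfold wireLit pw
        rw [hl']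
        cases b
        · simp
        · simp
      have hp := pw_mem τ a
      have hd := pw_div τ a
      rw [hw]
      refine ⟨by omega, by omega, ?_⟩
      unfold VV
      rw [if_pos]
      refine ⟨(lit_iff' τ _).2 (by rw [hd]), ?_, ?_, ?_⟩ <;> omega
    have hmem : φ[m] ∈ φ := List.getElem_mem hm
    have hb' := hb _ hmem
    rcases hτ _ hmem with h | h | h
    · obtain ⟨k1, k2, k3⟩ := key _ hb'.1 h
      exact ⟨_, k1, k2, (incid_cl hm).2 (Or.inr (Or.inl rfl)), k3⟩
    · obtain ⟨k1, k2, k3⟩ := key _ hb'.2.1 h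
      exact ⟨_, k1, k2, (incid_cl hm).2 (Or.inr (Or.inr (Or.inl rfl))), k3⟩
    · obtain ⟨k1, k2, k3⟩ := key _ hb'.2.2 h
      exact ⟨_, k1, k2, (incid_cl hm).2 (Or.inr (Or.inr (Or.inr rfl))), k3⟩

theorem sol_of_sat (hb : Bounded3 φ) (hs : SAT3 φ) : ∃ v h, (gridOf φ).Sol v h := by
  obtain ⟨τ, hτ⟩ := hs
  have hrow : ∀ j, ∃ x h k : ℕ → ℕ, (∀ i, x i ≤ 1) ∧ (∀ i, h i ≤ 1) ∧ (∀ i, k i ≤ 1) ∧
      (j < 2 * nvar φ + φ.length →
        Row (4 * nvar φ) (incid φ j) (VV φ τ j) (VV φ τ (j + 1)) x h k ∧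
        h 0 = (if j < nvar φ then 1 else 0) ∧
        k 0 = (if j < nvar φ + φ.length then 1 else 0) ∧
        h (4 * nvar φ) = (if j < nvar φ then 0 else 1) ∧
        k (4 * nvar φ) = (if j < nvar φ + φ.length then 0 else 1)) := by
    intro j
    rcases Nat.lt_or_ge j (nvar φ) with h1 | h1
    · obtain ⟨x, h, k, R, b1, b2, b3, b4⟩ := VV_gen (φ := φ) τ h1
      refine ⟨x, h, k, R.hx, R.hh, R.hk, fun _ => ⟨R, ?_, ?_, ?_, ?_⟩⟩
      · rw [if_pos h1]; exact b1
      · rw [if_pos (by omega)]; exact b2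
      · rw [if_pos h1]; exact b3
      · rw [if_pos (by omega)]; exact b4
    · rcases Nat.lt_or_ge j (nvar φ + φ.length) with h2 | h2
      · obtain ⟨m, rfl⟩ : ∃ m, j = nvar φ + m := ⟨j - nvar φ, by omega⟩
        obtain ⟨x, h, k, R, b1, b2, b3, b4⟩ := VV_cl hb τ hτ (m := m) (by omega)
        refine ⟨x, h, k, R.hx, R.hh, R.hk, fun _ => ⟨R, ?_, ?_, ?_, ?_⟩⟩
        · rw [if_neg (by omega)]; exact b1
        · rw [if_pos h2]; exact b2
        · rw [if_neg (by omega)]; exact b3
        · rw [if_pos h2]; exact b4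
      · rcases Nat.lt_or_ge j (2 * nvar φ + φ.length) with h3 | h3
        · obtain ⟨x, h, k, R, b1, b2, b3, b4⟩ := VV_abs (φ := φ) τ h2 h3
          refine ⟨x, h, k, R.hx, R.hh, R.hk, fun _ => ⟨R, ?_, ?_, ?_, ?_⟩⟩
          · rw [if_neg (by omega)]; exact b1
          · rw [if_neg (by omega)]; exact b2
          · rw [if_neg (by omega)]; exact b3
          · rw [if_neg (by omega)]; exact b4
        · exact ⟨fun _ => 0, fun _ => 0, fun _ => 0, fun _ => Nat.zero_le _, fun _ => Nat.zero_le _,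
            fun _ => Nat.zero_le _, fun h4 => absurd h4 (by omega)⟩
  choose X H K hX hH hK hR using hrow
  obtain ⟨v, hv⟩ : ∃ v : ℕ → ℕ → ℕ, ∀ c i, v c i =
      if c % 2 = 0 then VV φ τ (c / 2) i else X (c / 2) i := ⟨_, fun _ _ => rfl⟩
  obtain ⟨h, hh⟩ : ∃ h : ℕ → ℕ → ℕ, ∀ c i, h c i =
      if c % 2 = 0 then K (c / 2 - 1) i else H (c / 2) i := ⟨_, fun _ _ => rfl⟩
  have hM : (gridOf φ).M = 2 * (2 * nvar φ + φ.length) := rfl
  have hN : (gridOf φ).N = 4 * nvar φ := rfl
  have hv0 : ∀ j i, v (2 * j) i = VV φ τ j i := by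
    intro j i
    have h1 : 2 * j / 2 = j := by omega
    rw [hv, if_pos (by omega), h1]
  have hv1 : ∀ j i, v (2 * j + 1) i = X j i := by
    intro j i
    have h1 : (2 * j + 1) / 2 = j := by omega
    rw [hv, if_neg (by omega), h1]
  have hh1 : ∀ j i, h (2 * j + 1) i = H j i := by
    intro j i
    have h1 : (2 * j + 1) / 2 = j := by omega
    rw [hh, if_neg (by omega), h1]
  have hh2 : ∀ j i, h (2 * j + 2) i = K j i := by
    intro j i
    have h1 : (2 * j + 2) / 2 - 1 = j := by omega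
    rw [hh, if_pos (by omega), h1]
  have hpar : ∀ c, 1 ≤ c → c ≤ (gridOf φ).M → ∃ j, j < 2 * nvar φ + φ.length ∧
      (c = 2 * j + 1 ∨ c = 2 * j + 2) := fun c h1 h2 => ⟨(c - 1) / 2, by omega, by omega⟩
  refine ⟨v, h, ?_, ?_, ?_, ?_, ?_, ?_, ?_⟩
  · intro c i
    rw [hv]
    split_ifs
    · exact VV_le τ _ i
    · exact hX _ i
  · intro c i
    rw [hh]
    split_ifs
    · exact hK _ i
    · exact hH _ i
  · intro i
    have h1 := hv0 0 i
    rw [mul_zero] at h1
    rw [h1]
    unfold VV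
    rw [if_neg]
    rintro ⟨-, -, h2, -⟩
    omega
  · intro i
    rw [hM, hv0]
    unfold VV
    rw [if_neg]
    rintro ⟨-, h1, -, h2⟩
    omega
  · intro c h1 h2
    obtain ⟨j, hj, rfl | rfl⟩ := hpar c h1 h2
    · rw [hh1, hL_odd]
      exact (hR j hj).2.1
    · rw [hh2, hL_even]
      exact (hR j hj).2.2.1
  · intro c h1 h2
    obtain ⟨j, hj, rfl | rfl⟩ := hpar c h1 h2
    · rw [hh1, hR_odd]
      exact (hR j hj).2.2.2.1
    · rw [hh2, hR_even]
      exact (hR j hj).2.2.2.2
  · intro c i h1 h2 h3 h4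
    obtain ⟨j, hj, rfl | rfl⟩ := hpar c h1 h2
    · have h5 := (hR j hj).1.e1 i h3 (by omega)
      rw [Nat.add_sub_cancel, w_odd, w_even, hv1, hv0, hh1, hh1]
      exact h5
    · have h5 := (hR j hj).1.e2 i h3 (by omega)
      have h6 : 2 * j + 2 - 1 = 2 * j + 1 := by omega
      have h7 : (gridOf φ).w (2 * j + 2) i = 2 := w_even (j + 1) i
      have h8 : v (2 * j + 2) i = VV φ τ (j + 1) i := hv0 (j + 1) i
      rw [h6, w_odd, h7, h8, hv1, hh2, hh2]
      exact h5

end GridSatAux

/-- TARGET -/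
theorem GridSat_proof : S_GridSat := by
  intro φ _ hb hφ
  exact ⟨GridSatAux.valid hφ, fun hs => GridSatAux.sol_of_sat hb hs,
    fun ⟨_, _, S⟩ => GridSatAux.sat_of_sol hb S⟩

end Pool.Agent.H329
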