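import Pool.Agent.H329.Geo

/-!
# Auxiliary lemmas on segments, runs and padded runs
-/

namespace Pool.Agent.H329.PcAux

open Pool.Agent.H329

attribute [-instance] Int.instConditionallyCompleteLinearOrder

/-! ### Paths -/

theorem path_nil (p : Pt) : IsPath p [] p := by
  refine ⟨rfl, ?_⟩
  simp

theorem path_append {p q r : Pt} {l m : List Pt} (h1 : IsPath p l q) (h2 : IsPath q m r) :
    IsPath p (l ++ m) r := by
  obtain ⟨a1, a2⟩ := h1
  obtain ⟨b1, b2⟩ := h2
  constructor
  · cases l with
    | nil =>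
      simp only [List.nil_append, List.head?_cons, Option.some.injEq] at a1
      subst a1
      simpa using b1
    | cons x l =>
      simpa using a1
  · rw [List.append_assoc, List.isChain_append]
    rw [List.isChain_append] at a2
    refine ⟨a2.1, b2, ?_⟩
    intro x hx y hy
    rw [b1] at hy
    simp only [Option.mem_def, Option.some.injEq] at hy
    subst hy
    exact a2.2.2 x hx q (by simp)

theorem path_congr {p p' q q' : Pt} {l : List Pt} (h : IsPath p l q) (hp : p = p') (hq : q = q') :
    IsPath p' l q' := by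
  subst hp; subst hq; exact h

theorem path_cons {p q r : Pt} {l : List Pt} (h : Adj p q) (h2 : IsPath q l r) :
    IsPath p (p :: l) r := by
  have h1 : IsPath p [p] q := by
    refine ⟨rfl, ?_⟩
    simpa using h
  exact path_append h1 h2

theorem adj_add (p d : Pt) (hd : Adj (0, 0) d) (q : Pt) (h1 : q.1 = p.1 + d.1)
    (h2 : q.2 = p.2 + d.2) : Adj p q := by
  unfold Adj at *
  simp only [sub_zero] at hd
  rw [h1, h2]
  simpa using hd

/-! ### Segments -/

theorem coe_list (l : List ℕ) : (do let a ← l; pure (a : ℤ)) = l.map (fun a : ℕ => (a : ℤ)) := by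
  have h : ∀ l : List ℕ, l.flatMap (fun a : ℕ => [(a : ℤ)]) = l.map (fun a : ℕ => (a : ℤ)) := by
    intro l
    induction l with
    | nil => rfl
    | cons a l ih => simp [List.flatMap_cons, ih]
  exact h l

theorem seg_def (p d : Pt) (n : ℤ) : seg p d n =
    (List.range n.toNat).map fun j : ℕ => ((p.1 + (j : ℤ) * d.1, p.2 + (j : ℤ) * d.2) : Pt) := by
  unfold seg
  rw [coe_list, List.map_map]
  rfl

theorem padR_def (p : Pt) (dist n : ℤ) : padR p dist n =
    ((List.range n.toNat).flatMap fun j : ℕ =>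
      [((p.1 + (j : ℤ), p.2) : Pt), (p.1 + (j : ℤ), p.2 + 1)]) ++
      seg (p.1 + n, p.2) (1, 0) (dist - n) := by
  unfold padR
  rw [coe_list, List.flatMap_map]

theorem padL_def (p : Pt) (dist n : ℤ) : padL p dist n =
    ((List.range n.toNat).flatMap fun j : ℕ =>
      [((p.1 - (j : ℤ), p.2) : Pt), (p.1 - (j : ℤ) - 1, p.2 + 1)]) ++
      seg (p.1 - n, p.2) (-1, 0) (dist - n) := by
  unfold padL
  rw [coe_list, List.flatMap_map]

theorem seg_length (p d : Pt) (n : ℤ) : (seg p d n).length = n.toNat := by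
  simp [seg_def]

theorem mem_seg (p d : Pt) (n : ℤ) (q : Pt) :
    q ∈ seg p d n ↔ ∃ j : ℤ, 0 ≤ j ∧ j < n ∧ q.1 = p.1 + j * d.1 ∧ q.2 = p.2 + j * d.2 := by
  simp only [seg_def, List.mem_map, List.mem_range]
  constructor
  · rintro ⟨j, hj, rfl⟩
    exact ⟨j, by omega, by omega, rfl, rfl⟩
  · rintro ⟨j, h0, h1, h2, h3⟩
    refine ⟨j.toNat, by omega, ?_⟩
    have : ((j.toNat : ℕ) : ℤ) = j := by omega
    rw [this]
    exact Prod.ext h2.symm h3.symm

theorem seg_succ (p d : Pt) (n : ℕ) :
    seg p d ((n + 1 : ℕ) : ℤ) = p :: seg (p.1 + d.1, p.2 + d.2) d n := by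
  simp only [seg_def]
  have h1 : (((n + 1 : ℕ) : ℤ)).toNat = n + 1 := by omega
  have h2 : ((n : ℤ)).toNat = n := by omega
  rw [h1, h2, List.range_succ_eq_map, List.map_cons, List.map_map]
  congr 1
  · simp
  · apply List.map_congr_left
    intro j _
    simp only [Function.comp, Prod.mk.injEq]
    push_cast
    constructor <;> ring

theorem seg_zero (p d : Pt) : seg p d 0 = [] := by simp [seg_def]

theorem seg_path_nat (d : Pt) (hd : Adj (0, 0) d) (n : ℕ) : ∀ p : Pt,
    IsPath p (seg p d n) (p.1 + n * d.1, p.2 + n * d.2) := by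
  induction n with
  | zero =>
    intro p
    rw [Nat.cast_zero, seg_zero]
    refine path_congr (path_nil p) rfl ?_
    ext <;> simp
  | succ n ih =>
    intro p
    rw [seg_succ]
    refine path_congr (path_cons (adj_add p d hd _ rfl rfl) (ih _)) rfl ?_
    ext
    · push_cast; ring
    · push_cast; ring

theorem seg_path (p d : Pt) (hd : Adj (0, 0) d) (n : ℤ) (hn : 0 ≤ n) :
    IsPath p (seg p d n) (p.1 + n * d.1, p.2 + n * d.2) := by
  obtain ⟨m, rfl⟩ := Int.eq_ofNat_of_zero_le hn
  exact seg_path_nat d hd m p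

theorem seg_nodup (p d : Pt) (hd : d.1 ≠ 0 ∨ d.2 ≠ 0) (n : ℤ) : (seg p d n).Nodup := by
  rw [seg_def]
  apply List.Nodup.map _ List.nodup_range
  intro i j hij
  simp only [Prod.mk.injEq, add_right_inj, mul_eq_mul_right_iff] at hij
  rcases hd with h | h
  · rcases hij.1 with h1 | h1
    · exact_mod_cast h1
    · exact absurd h1 h
  · rcases hij.2 with h1 | h1
    · exact_mod_cast h1
    · exact absurd h1 h

theorem mem_segR (p : Pt) (n : ℤ) (q : Pt) :
    q ∈ seg p (1, 0) n ↔ q.2 = p.2 ∧ p.1 ≤ q.1 ∧ q.1 < p.1 + n := by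
  rw [mem_seg]
  constructor
  · rintro ⟨j, h0, h1, h2, h3⟩
    simp only [mul_one, mul_zero] at h2 h3
    omega
  · rintro ⟨h1, h2, h3⟩
    refine ⟨q.1 - p.1, by omega, by omega, ?_, ?_⟩ <;> simp only [mul_one, mul_zero] <;> omega

theorem mem_segL (p : Pt) (n : ℤ) (q : Pt) :
    q ∈ seg p (-1, 0) n ↔ q.2 = p.2 ∧ p.1 - n < q.1 ∧ q.1 ≤ p.1 := by
  rw [mem_seg]
  constructor
  · rintro ⟨j, h0, h1, h2, h3⟩
    simp only [mul_neg, mul_one, mul_zero] at h2 h3
    omega
  · rintro ⟨h1, h2, h3⟩
    refine ⟨p.1 - q.1, by omega, by omega, ?_, ?_⟩ <;>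
      simp only [mul_neg, mul_one, mul_zero] <;> omega

theorem mem_segU (p : Pt) (n : ℤ) (q : Pt) :
    q ∈ seg p (0, 1) n ↔ q.1 = p.1 ∧ p.2 ≤ q.2 ∧ q.2 < p.2 + n := by
  rw [mem_seg]
  constructor
  · rintro ⟨j, h0, h1, h2, h3⟩
    simp only [mul_one, mul_zero] at h2 h3
    omega
  · rintro ⟨h1, h2, h3⟩
    refine ⟨q.2 - p.2, by omega, by omega, ?_, ?_⟩ <;> simp only [mul_one, mul_zero] <;> omega

theorem mem_segD (p : Pt) (n : ℤ) (q : Pt) :
    q ∈ seg p (0, -1) n ↔ q.1 = p.1 ∧ p.2 - n < q.2 ∧ q.2 ≤ p.2 := by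
  rw [mem_seg]
  constructor
  · rintro ⟨j, h0, h1, h2, h3⟩
    simp only [mul_neg, mul_one, mul_zero] at h2 h3
    omega
  · rintro ⟨h1, h2, h3⟩
    refine ⟨p.2 - q.2, by omega, by omega, ?_, ?_⟩ <;>
      simp only [mul_neg, mul_one, mul_zero] <;> omega

/-! ### Runs -/

theorem runs_path (rs : List (Pt × ℤ)) : ∀ p : Pt, (∀ r ∈ rs, Adj (0, 0) r.1 ∧ 0 ≤ r.2) →
    IsPath p (runs p rs) (runsEnd p rs) := by
  induction rs with
  | nil => intro p _; exact path_nil p
  | cons r rs ih =>
    intro p h
    obtain ⟨d, n⟩ := r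
    have h1 := h (d, n) (by simp)
    simp only [runs, runsEnd]
    exact path_append (seg_path p d h1.1 n h1.2) (ih _ fun r hr => h r (by simp [hr]))

/-! ### Detours -/

theorem flatMap_length_two {α : Type} (f g : ℕ → α) (n : ℕ) :
    ((List.range n).flatMap fun j => [f j, g j]).length = 2 * n := by
  induction n with
  | zero => rfl
  | succ n ih =>
    rw [List.range_succ, List.flatMap_append, List.length_append, ih]
    simp; omega

theorem padR_length (p : Pt) (dist n : ℤ) :
    (padR p dist n).length = 2 * n.toNat + (dist - n).toNat := by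
  rw [padR_def, List.length_append, seg_length, flatMap_length_two]

theorem padL_length (p : Pt) (dist n : ℤ) :
    (padL p dist n).length = 2 * n.toNat + (dist - n).toNat := by
  rw [padL_def, List.length_append, seg_length, flatMap_length_two]

theorem detR_path (p : Pt) (n : ℕ) :
    IsPath p ((List.range n).flatMap fun j : ℕ =>
      [((p.1 + (j : ℤ), p.2) : Pt), (p.1 + (j : ℤ), p.2 + 1)]) (p.1 + n, p.2) := by
  induction n with
  | zero =>
    refine path_congr (path_nil p) rfl ?_
    ext <;> simp
  | succ n ih =>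
    rw [List.range_succ, List.flatMap_append]
    refine path_append ih ?_
    simp only [List.flatMap_cons, List.flatMap_nil, List.append_nil]
    refine path_cons (q := (p.1 + (n : ℤ), p.2 + 1)) ?_ (path_cons ?_ (path_nil _))
    · exact adj_add _ (0, 1) (by decide) _ (by simp) (by simp)
    · exact adj_add _ (1, -1) (by decide) _ (by push_cast; ring) (by simp)

theorem detL_path (p : Pt) (n : ℕ) :
    IsPath p ((List.range n).flatMap fun j : ℕ =>
      [((p.1 - (j : ℤ), p.2) : Pt), (p.1 - (j : ℤ) - 1, p.2 + 1)]) (p.1 - n, p.2) := by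
  induction n with
  | zero =>
    refine path_congr (path_nil p) rfl ?_
    ext <;> simp
  | succ n ih =>
    rw [List.range_succ, List.flatMap_append]
    refine path_append ih ?_
    simp only [List.flatMap_cons, List.flatMap_nil, List.append_nil]
    refine path_cons (q := (p.1 - (n : ℤ) - 1, p.2 + 1)) ?_ (path_cons ?_ (path_nil _))
    · exact adj_add _ (-1, 1) (by decide) _ (by ring) (by simp)
    · exact adj_add _ (0, -1) (by decide) _ (by push_cast; ring) (by simp)

theorem padR_path (p : Pt) (dist n : ℤ) (h0 : 0 ≤ n) (h1 : n ≤ dist) :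
    IsPath p (padR p dist n) (p.1 + dist, p.2) := by
  rw [padR_def]
  obtain ⟨m, rfl⟩ := Int.eq_ofNat_of_zero_le h0
  have e : ((m : ℤ)).toNat = m := by omega
  rw [e]
  refine path_congr (path_append (detR_path p m) (seg_path _ (1, 0) (by decide) _ (by omega))) rfl ?_
  ext
  · simp
  · simp

theorem padL_path (p : Pt) (dist n : ℤ) (h0 : 0 ≤ n) (h1 : n ≤ dist) :
    IsPath p (padL p dist n) (p.1 - dist, p.2) := by
  rw [padL_def]
  obtain ⟨m, rfl⟩ := Int.eq_ofNat_of_zero_le h0
  have e : ((m : ℤ)).toNat = m := by omega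
  rw [e]
  refine path_congr (path_append (detL_path p m) (seg_path _ (-1, 0) (by decide) _ (by omega))) rfl ?_
  ext
  · simp
  · simp

theorem mem_padR (p : Pt) (dist n : ℤ) (h0 : 0 ≤ n) (h1 : n ≤ dist) (q : Pt) :
    q ∈ padR p dist n ↔ (q.2 = p.2 ∧ p.1 ≤ q.1 ∧ q.1 < p.1 + dist) ∨
      (q.2 = p.2 + 1 ∧ p.1 ≤ q.1 ∧ q.1 < p.1 + n) := by
  rw [padR_def]
  rw [List.mem_append, mem_segR, List.mem_flatMap]
  constructor
  · rintro (⟨j, hj, hq⟩ | h)
    · rw [List.mem_range] at hj
      simp only [List.mem_cons, List.not_mem_nil, or_false] at hq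
      rcases hq with rfl | rfl
      · left; refine ⟨rfl, ?_, ?_⟩ <;> simp only <;> omega
      · right; refine ⟨rfl, ?_, ?_⟩ <;> simp only <;> omega
    · left; simp only at h; omega
  · rintro (h | h)
    · by_cases hc : q.1 < p.1 + n
      · left
        refine ⟨(q.1 - p.1).toNat, by rw [List.mem_range]; omega, ?_⟩
        simp only [List.mem_cons, List.not_mem_nil, or_false]
        left
        apply Prod.ext
        · simp only; omega
        · simp only; omega
      · right
        simp only; omega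
    · left
      refine ⟨(q.1 - p.1).toNat, by rw [List.mem_range]; omega, ?_⟩
      simp only [List.mem_cons, List.not_mem_nil, or_false]
      right
      apply Prod.ext
      · simp only; omega
      · simp only; omega

theorem mem_padL (p : Pt) (dist n : ℤ) (h0 : 0 ≤ n) (h1 : n ≤ dist) (q : Pt) :
    q ∈ padL p dist n ↔ (q.2 = p.2 ∧ p.1 - dist < q.1 ∧ q.1 ≤ p.1) ∨
      (q.2 = p.2 + 1 ∧ p.1 - n ≤ q.1 ∧ q.1 < p.1) := by
  rw [padL_def]
  rw [List.mem_append, mem_segL, List.mem_flatMap]
  constructor
  · rintro (⟨j, hj, hq⟩ | h)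
    · rw [List.mem_range] at hj
      simp only [List.mem_cons, List.not_mem_nil, or_false] at hq
      rcases hq with rfl | rfl
      · left; refine ⟨rfl, ?_, ?_⟩ <;> simp only <;> omega
      · right; refine ⟨rfl, ?_, ?_⟩ <;> simp only <;> omega
    · left; simp only at h; omega
  · rintro (h | h)
    · by_cases hc : p.1 - n < q.1
      · left
        refine ⟨(p.1 - q.1).toNat, by rw [List.mem_range]; omega, ?_⟩
        simp only [List.mem_cons, List.not_mem_nil, or_false]
        left
        apply Prod.ext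
        · simp only; omega
        · simp only; omega
      · right
        simp only; omega
    · left
      refine ⟨(p.1 - q.1 - 1).toNat, by rw [List.mem_range]; omega, ?_⟩
      simp only [List.mem_cons, List.not_mem_nil, or_false]
      right
      apply Prod.ext
      · simp only; omega
      · simp only; omega

theorem mem_padR' (p : Pt) (dist n : ℤ) (q : Pt) :
    q ∈ padR p dist n ↔ (q.2 = p.2 ∧ p.1 ≤ q.1 ∧ q.1 < p.1 + n) ∨
      (q.2 = p.2 + 1 ∧ p.1 ≤ q.1 ∧ q.1 < p.1 + n) ∨
      (q.2 = p.2 ∧ p.1 + n ≤ q.1 ∧ q.1 < p.1 + dist) := by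
  rw [padR_def, List.mem_append, mem_segR, List.mem_flatMap]
  constructor
  · rintro (⟨j, hj, hq⟩ | h)
    · rw [List.mem_range] at hj
      simp only [List.mem_cons, List.not_mem_nil, or_false] at hq
      rcases hq with rfl | rfl
      · left; refine ⟨rfl, ?_, ?_⟩ <;> simp only <;> omega
      · right; left; refine ⟨rfl, ?_, ?_⟩ <;> simp only <;> omega
    · right; right; simp only at h; omega
  · rintro (h | h | h)
    · left
      refine ⟨(q.1 - p.1).toNat, by rw [List.mem_range]; omega, ?_⟩
      simp only [List.mem_cons, List.not_mem_nil, or_false]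
      left
      apply Prod.ext
      · simp only; omega
      · simp only; omega
    · left
      refine ⟨(q.1 - p.1).toNat, by rw [List.mem_range]; omega, ?_⟩
      simp only [List.mem_cons, List.not_mem_nil, or_false]
      right
      apply Prod.ext
      · simp only; omega
      · simp only; omega
    · right
      simp only; omega

theorem mem_padL' (p : Pt) (dist n : ℤ) (q : Pt) :
    q ∈ padL p dist n ↔ (q.2 = p.2 ∧ p.1 - n < q.1 ∧ q.1 ≤ p.1) ∨
      (q.2 = p.2 + 1 ∧ p.1 - n ≤ q.1 ∧ q.1 < p.1) ∨
      (q.2 = p.2 ∧ p.1 - dist < q.1 ∧ q.1 ≤ p.1 - n) := by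
  rw [padL_def, List.mem_append, mem_segL, List.mem_flatMap]
  constructor
  · rintro (⟨j, hj, hq⟩ | h)
    · rw [List.mem_range] at hj
      simp only [List.mem_cons, List.not_mem_nil, or_false] at hq
      rcases hq with rfl | rfl
      · left; refine ⟨rfl, ?_, ?_⟩ <;> simp only <;> omega
      · right; left; refine ⟨rfl, ?_, ?_⟩ <;> simp only <;> omega
    · right; right; simp only at h; omega
  · rintro (h | h | h)
    · left
      refine ⟨(p.1 - q.1).toNat, by rw [List.mem_range]; omega, ?_⟩
      simp only [List.mem_cons, List.not_mem_nil, or_false]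
      left
      apply Prod.ext
      · simp only; omega
      · simp only; omega
    · left
      refine ⟨(p.1 - q.1 - 1).toNat, by rw [List.mem_range]; omega, ?_⟩
      simp only [List.mem_cons, List.not_mem_nil, or_false]
      right
      apply Prod.ext
      · simp only; omega
      · simp only; omega
    · right
      simp only; omega

theorem detR_nodup (p : Pt) (n : ℕ) : ((List.range n).flatMap fun j : ℕ =>
      [((p.1 + (j : ℤ), p.2) : Pt), (p.1 + (j : ℤ), p.2 + 1)]).Nodup := by
  rw [List.nodup_flatMap]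
  constructor
  · intro j _
    simp
  · apply List.Nodup.pairwise_of_forall_ne List.nodup_range
    intro a _ b _ hab q h1 h2
    simp only [List.mem_cons, List.not_mem_nil, or_false] at h1 h2
    apply hab
    rcases h1 with rfl | rfl <;> rcases h2 with h2 | h2 <;>
      · have := congrArg Prod.fst h2
        simp only at this
        omega

theorem detL_nodup (p : Pt) (n : ℕ) : ((List.range n).flatMap fun j : ℕ =>
      [((p.1 - (j : ℤ), p.2) : Pt), (p.1 - (j : ℤ) - 1, p.2 + 1)]).Nodup := by
  rw [List.nodup_flatMap]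
  constructor
  · intro j _
    simp
  · apply List.Nodup.pairwise_of_forall_ne List.nodup_range
    intro a _ b _ hab q h1 h2
    simp only [List.mem_cons, List.not_mem_nil, or_false] at h1 h2
    apply hab
    rcases h1 with rfl | rfl <;> rcases h2 with h2 | h2 <;>
      · have e1 := congrArg Prod.fst h2
        have e2 := congrArg Prod.snd h2
        simp only at e1 e2
        omega

theorem padR_nodup (p : Pt) (dist n : ℤ) : (padR p dist n).Nodup := by
  rw [padR_def]
  rw [List.nodup_append]
  refine ⟨detR_nodup p _, seg_nodup _ _ (by simp) _, ?_⟩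
  intro a ha b hb hab
  subst hab
  rw [mem_segR] at hb
  rw [List.mem_flatMap] at ha
  obtain ⟨j, hj, ha⟩ := ha
  rw [List.mem_range] at hj
  simp only [List.mem_cons, List.not_mem_nil, or_false] at ha
  rcases ha with rfl | rfl <;> simp only at hb <;> omega

theorem padL_nodup (p : Pt) (dist n : ℤ) : (padL p dist n).Nodup := by
  rw [padL_def]
  rw [List.nodup_append]
  refine ⟨detL_nodup p _, seg_nodup _ _ (by simp) _, ?_⟩
  intro a ha b hb hab
  subst hab
  rw [mem_segL] at hb
  rw [List.mem_flatMap] at ha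
  obtain ⟨j, hj, ha⟩ := ha
  rw [List.mem_range] at hj
  simp only [List.mem_cons, List.not_mem_nil, or_false] at ha
  rcases ha with rfl | rfl <;> simp only at hb <;> omega

end Pool.Agent.H329.PcAux
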