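import Pool.Agent.H329.Spec
import Pool.Agent.H329.PcAux

/-!
# The path of a group
-/

namespace Pool.Agent.H329

attribute [-instance] Int.instConditionallyCompleteLinearOrder

set_option linter.unusedSimpArgs false
set_option linter.unnecessarySeqFocus false

namespace GrpAux

open PcAux

/-! ### Bounds for the numbers of letters -/

theorem en_bd {u : ℤ} {b : BinP} (h : b.Ok u) :
    (49 * u ≤ 10 * enLen u b .LR ∧ 10 * enLen u b .LR ≤ 51 * u) ∧
    (49 * u ≤ 10 * enLen u b .UR ∧ 10 * enLen u b .UR ≤ 51 * u) ∧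
    (169 * u ≤ 10 * enLen u b .CH ∧ 10 * enLen u b .CH ≤ 171 * u) ∧
    (269 * u ≤ 10 * enLen u b .T ∧ 10 * enLen u b .T ≤ 271 * u) ∧
    (229 * u ≤ 10 * enLen u b .B ∧ 10 * enLen u b .B ≤ 231 * u) ∧
    (129 * u ≤ 10 * enLen u b .LL ∧ 10 * enLen u b .LL ≤ 131 * u) ∧
    (79 * u ≤ 10 * enLen u b .UL ∧ 10 * enLen u b .UL ≤ 81 * u) := by
  obtain ⟨h1, h2, h3, h4, h5, h6, h7, h8, h9, h10, h11, h12, h13, h14, h15, h16, h17, h18, h19,
    h20, h21, h22⟩ := h
  simp only [enLen, BinP.x1, BinP.y1, BinP.s0, BinP.lLR] at *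
  omega

theorem ex_bd {u : ℤ} {b : BinP} (h : b.Ok u) :
    (99 * u ≤ 10 * exLen u b .LR ∧ 10 * exLen u b .LR ≤ 101 * u) ∧
    (129 * u ≤ 10 * exLen u b .UR ∧ 10 * exLen u b .UR ≤ 131 * u) ∧
    (279 * u ≤ 10 * exLen u b .CH ∧ 10 * exLen u b .CH ≤ 281 * u) ∧
    (179 * u ≤ 10 * exLen u b .T ∧ 10 * exLen u b .T ≤ 181 * u) ∧
    (139 * u ≤ 10 * exLen u b .B ∧ 10 * exLen u b .B ≤ 141 * u) ∧
    (119 * u ≤ 10 * exLen u b .LL ∧ 10 * exLen u b .LL ≤ 121 * u) ∧
    (69 * u ≤ 10 * exLen u b .UL ∧ 10 * exLen u b .UL ≤ 71 * u) := by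
  obtain ⟨h1, h2, h3, h4, h5, h6, h7, h8, h9, h10, h11, h12, h13, h14, h15, h16, h17, h18, h19,
    h20, h21, h22⟩ := h
  simp only [exLen, BinP.x1, BinP.y1, BinP.s0, BinP.lLR] at *
  omega

/-! ### Points and letters of the components -/

theorem ptsOf_append (l m : List (Pt × Bool)) : ptsOf (l ++ m) = ptsOf l ++ ptsOf m := by
  simp [ptsOf]

theorem ptsOf_ps (l : List Pt) : ptsOf (ps l) = l := by
  simp [ptsOf, ps, Function.comp_def]

theorem ptsOf_mask (r : Bool) (l : List (Pt × Bool)) : ptsOf (mask r l) = ptsOf l := by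
  simp [ptsOf, mask, Function.comp_def]

theorem ptsOf_shift (o : Pt) (l : List (Pt × Bool)) :
    ptsOf (shift o l) = (ptsOf l).map fun p => ((p.1 + o.1, p.2 + o.2) : Pt) := by
  simp [ptsOf, shift, Function.comp_def]

theorem path_shift {p q : Pt} {l : List Pt} (o : Pt) (h : IsPath p l q) :
    IsPath (p.1 + o.1, p.2 + o.2) (l.map fun p => ((p.1 + o.1, p.2 + o.2) : Pt))
      (q.1 + o.1, q.2 + o.2) := by
  obtain ⟨h1, h2⟩ := h
  have e : (l.map fun p => ((p.1 + o.1, p.2 + o.2) : Pt)) ++ [((q.1 + o.1, q.2 + o.2) : Pt)] =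
      (l ++ [q]).map fun p => ((p.1 + o.1, p.2 + o.2) : Pt) := by
    simp
  constructor
  · rw [e, List.head?_map, h1]
    rfl
  · rw [e, List.isChain_map]
    refine h2.imp ?_
    intro a b hab
    unfold Adj at *
    have e1 : (b.1 + o.1) - (a.1 + o.1) = b.1 - a.1 := by ring
    have e2 : (b.2 + o.2) - (a.2 + o.2) = b.2 - a.2 := by ring
    simp only [e1, e2]
    exact hab

theorem pcs_path (hPc : S_Piece) {u : ℤ} (hu : 100 ≤ u) (x : Pc) {tot : ℤ}
    (h0 : pcLen u x ≤ tot) (h1 : tot ≤ pcLen u x + pcCap u x) :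
    IsPath (pcStart u x) (ptsOf (pcs u x tot)) (pcEnd u x) := by
  rw [pcs, ptsOf_ps]
  exact (hPc u _ x hu (by omega) (by omega)).1

theorem pcs_letters (hPc : S_Piece) {u : ℤ} (hu : 100 ≤ u) (x : Pc) {tot : ℤ}
    (h0 : pcLen u x ≤ tot) (h1 : tot ≤ pcLen u x + pcCap u x) :
    (pcs u x tot).map Prod.snd = pp0 tot := by
  have h := (hPc u (tot - pcLen u x) x hu (by omega) (by omega)).2.1
  have e : (piece u (tot - pcLen u x) x).length = tot.toNat := by omega
  rw [pcs, ps, pp0, List.map_map, ← e]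
  simp [Function.comp_def]

theorem bin_ok {u : ℤ} {g : Grp} (hg : g.Ok u) (σ : Side) : (g.bin σ).b.Ok u := by
  cases σ
  all_goals first
    | exact hg.b0
    | exact hg.b1
    | exact hg.b2

theorem st_path (hS : S_StrandPath) {u : ℤ} {g : Grp} (hg : g.Ok u) (σ : Side) {p q : Pt}
    (hp : p = ((entryPt u σ).1 + (sideO u σ).1, (entryPt u σ).2 + (sideO u σ).2))
    (hq : q = ((exitPt u σ).1 + (sideO u σ).1, (exitPt u σ).2 + (sideO u σ).2)) :
    IsPath p (ptsOf (g.st u σ)) q := by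
  rw [Grp.st, ptsOf_shift, ptsOf_mask, hp, hq]
  exact path_shift _ (hS u _ σ (bin_ok hg σ))

theorem st_letters (hL : S_StrandLetters) {u : ℤ} {g : Grp} (hg : g.Ok u) (σ : Side) :
    (g.st u σ).map Prod.snd = pp0 (g.en u σ) ++ (g.coreL σ ++ pp0 (g.ex u σ)) := by
  have h := (hL u _ σ (bin_ok hg σ)).2.2
  have e1 : ∀ (o : Pt) (l : List (Pt × Bool)), (shift o l).map Prod.snd = l.map Prod.snd := by
    intro o l; simp [shift, Function.comp_def]
  have e2 : ∀ (r : Bool) (l : List (Pt × Bool)), (mask r l).map Prod.snd =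
      (l.map Prod.snd).map fun x => x && r := by
    intro o l; simp [mask, Function.comp_def]
  have e3 : ∀ (r : Bool) (n : ℤ), (pp0 n).map (fun x => x && r) = pp0 n := by
    intro r n; simp [pp0]
  rw [Grp.st, e1, e2, h, List.map_append, List.map_append, e3, e3, Grp.coreL, e2]
  rfl

theorem pp0_add {a b c : ℤ} (ha : 0 ≤ a) (hb : 0 ≤ b) (hc : c = a + b) :
    pp0 c = pp0 a ++ pp0 b := by
  rw [pp0, pp0, pp0, List.replicate_append_replicate]
  congr 1
  omega

/-! ### The four blocks -/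

/-- first block -/
def blkA (u : ℤ) (g : Grp) : List (Pt × Bool) :=
  pcs u .A0 (38 * u - g.en u .LR) ++ g.st u .LR ++ pcs u .A1 (43 * u - g.ex u .LR)

/-- second block -/
def blkC (u : ℤ) (g : Grp) : List (Pt × Bool) :=
  if g.hh then
    pcs u .C0a (43 * u - g.en u .UR) ++ g.st u .UR ++
      pcs u .C1a (96 * u - g.ex u .UR - g.en u .UL) ++ g.st u .UL ++
      pcs u .C2a (52 * u - g.ex u .UL)
  else
    pcs u .C0b (43 * u - g.en u .UL) ++ g.st u .UL ++
      pcs u .C1b (96 * u - g.ex u .UL - g.en u .UR) ++ g.st u .UR ++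
      pcs u .C2b (52 * u - g.ex u .UR)

/-- third block -/
def blkB (u : ℤ) (g : Grp) : List (Pt × Bool) :=
  pcs u .B0 (55 * u - g.en u .B) ++ g.st u .B ++ pcs u .B1 (47 * u - g.ex u .B)

/-- last block -/
def blkV (u : ℤ) (g : Grp) : List (Pt × Bool) :=
  if g.vv then
    pcs u .V0a (62 * u - g.en u .T) ++ g.st u .T ++
      pcs u .V1a (96 * u - g.ex u .T - g.en u .CH) ++ g.st u .CH ++
      pcs u .V2a (116 * u - g.ex u .CH - g.en u .LL) ++ g.st u .LL ++
      pcs u .V3a (57 * u - g.ex u .LL)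
  else
    pcs u .V0b (62 * u - g.en u .LL) ++ g.st u .LL ++
      pcs u .V1b (96 * u - g.ex u .LL - g.en u .CH) ++ g.st u .CH ++
      pcs u .V2b (116 * u - g.ex u .CH - g.en u .T) ++ g.st u .T ++
      pcs u .V3b (57 * u - g.ex u .T)

theorem path_eq (u : ℤ) (g : Grp) : g.path u = blkA u g ++ (blkC u g ++ (blkB u g ++ blkV u g)) := by
  simp only [Grp.path, blkA, blkC, blkB, blkV, List.append_assoc]

/-- the bounds used below -/
theorem bds {u : ℤ} {g : Grp} (hg : g.Ok u) :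
    (100 ≤ u) ∧
    (49 * u ≤ 10 * g.en u .LR ∧ 10 * g.en u .LR ≤ 51 * u) ∧
    (49 * u ≤ 10 * g.en u .UR ∧ 10 * g.en u .UR ≤ 51 * u) ∧
    (169 * u ≤ 10 * g.en u .CH ∧ 10 * g.en u .CH ≤ 171 * u) ∧
    (269 * u ≤ 10 * g.en u .T ∧ 10 * g.en u .T ≤ 271 * u) ∧
    (229 * u ≤ 10 * g.en u .B ∧ 10 * g.en u .B ≤ 231 * u) ∧
    (129 * u ≤ 10 * g.en u .LL ∧ 10 * g.en u .LL ≤ 131 * u) ∧
    (79 * u ≤ 10 * g.en u .UL ∧ 10 * g.en u .UL ≤ 81 * u) ∧
    (99 * u ≤ 10 * g.ex u .LR ∧ 10 * g.ex u .LR ≤ 101 * u) ∧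
    (129 * u ≤ 10 * g.ex u .UR ∧ 10 * g.ex u .UR ≤ 131 * u) ∧
    (279 * u ≤ 10 * g.ex u .CH ∧ 10 * g.ex u .CH ≤ 281 * u) ∧
    (179 * u ≤ 10 * g.ex u .T ∧ 10 * g.ex u .T ≤ 181 * u) ∧
    (139 * u ≤ 10 * g.ex u .B ∧ 10 * g.ex u .B ≤ 141 * u) ∧
    (119 * u ≤ 10 * g.ex u .LL ∧ 10 * g.ex u .LL ≤ 121 * u) ∧
    (69 * u ≤ 10 * g.ex u .UL ∧ 10 * g.ex u .UL ≤ 71 * u) := by
  obtain ⟨a1, a2, a3, a4, -, -, -⟩ := en_bd hg.b0
  obtain ⟨-, -, -, -, -, -, a7⟩ := en_bd hg.b1
  obtain ⟨-, -, -, -, a5, a6, -⟩ := en_bd hg.b2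
  obtain ⟨c1, c2, c3, c4, -, -, -⟩ := ex_bd hg.b0
  obtain ⟨-, -, -, -, -, -, c7⟩ := ex_bd hg.b1
  obtain ⟨-, -, -, -, c5, c6, -⟩ := ex_bd hg.b2
  exact ⟨hg.b0.u_pos, a1, a2, a3, a4, a5, a6, a7, c1, c2, c3, c4, c5, c6, c7⟩

theorem blkA_path (hS : S_StrandPath) (hPc : S_Piece) {u : ℤ} {g : Grp} (hg : g.Ok u) :
    IsPath (50 * u, 0) (ptsOf (blkA u g)) (50 * u, 3 * u) := by
  obtain ⟨hu, b1, b2, b3, b4, b5, b6, b7, c1, c2, c3, c4, c5, c6, c7⟩ := bds hg
  simp only [blkA, ptsOf_append]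
  refine path_append (path_append (pcs_path hPc hu .A0 ?_ ?_) (st_path hS hg .LR ?_ ?_))
    (pcs_path hPc hu .A1 ?_ ?_)
  all_goals first
    | (simp only [pcLen, pcCap]; omega)
    | (apply Prod.ext <;> simp only [pcEnd, pcStart, entryPt, exitPt, sideO] <;> omega)

theorem blkB_path (hS : S_StrandPath) (hPc : S_Piece) {u : ℤ} {g : Grp} (hg : g.Ok u) :
    IsPath (50 * u, 18 * u) (ptsOf (blkB u g)) (50 * u, 20 * u) := by
  obtain ⟨hu, b1, b2, b3, b4, b5, b6, b7, c1, c2, c3, c4, c5, c6, c7⟩ := bds hg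
  simp only [blkB, ptsOf_append]
  refine path_append (path_append (pcs_path hPc hu .B0 ?_ ?_) (st_path hS hg .B ?_ ?_))
    (pcs_path hPc hu .B1 ?_ ?_)
  all_goals first
    | (simp only [pcLen, pcCap]; omega)
    | (apply Prod.ext <;> simp only [pcEnd, pcStart, entryPt, exitPt, sideO] <;> omega)

theorem blkC_path (hS : S_StrandPath) (hPc : S_Piece) {u : ℤ} {g : Grp} (hg : g.Ok u) :
    IsPath (50 * u, 3 * u) (ptsOf (blkC u g)) (50 * u, 18 * u) := by
  obtain ⟨hu, b1, b2, b3, b4, b5, b6, b7, c1, c2, c3, c4, c5, c6, c7⟩ := bds hg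
  unfold blkC
  split_ifs
  · simp only [ptsOf_append]
    refine path_append (path_append (path_append (path_append (pcs_path hPc hu .C0a ?_ ?_)
      (st_path hS hg .UR ?_ ?_)) (pcs_path hPc hu .C1a ?_ ?_)) (st_path hS hg .UL ?_ ?_))
      (pcs_path hPc hu .C2a ?_ ?_)
    all_goals first
      | (simp only [pcLen, pcCap]; omega)
      | (apply Prod.ext <;> simp only [pcEnd, pcStart, entryPt, exitPt, sideO] <;> omega)
  · simp only [ptsOf_append]
    refine path_append (path_append (path_append (path_append (pcs_path hPc hu .C0b ?_ ?_)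
      (st_path hS hg .UL ?_ ?_)) (pcs_path hPc hu .C1b ?_ ?_)) (st_path hS hg .UR ?_ ?_))
      (pcs_path hPc hu .C2b ?_ ?_)
    all_goals first
      | (simp only [pcLen, pcCap]; omega)
      | (apply Prod.ext <;> simp only [pcEnd, pcStart, entryPt, exitPt, sideO] <;> omega)

theorem blkV_path (hS : S_StrandPath) (hPc : S_Piece) {u : ℤ} {g : Grp} (hg : g.Ok u) :
    IsPath (50 * u, 20 * u) (ptsOf (blkV u g)) (50 * u, 29 * u) := by
  obtain ⟨hu, b1, b2, b3, b4, b5, b6, b7, c1, c2, c3, c4, c5, c6, c7⟩ := bds hg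
  unfold blkV
  split_ifs
  · simp only [ptsOf_append]
    refine path_append (path_append (path_append (path_append (path_append (path_append
      (pcs_path hPc hu .V0a ?_ ?_) (st_path hS hg .T ?_ ?_)) (pcs_path hPc hu .V1a ?_ ?_))
      (st_path hS hg .CH ?_ ?_)) (pcs_path hPc hu .V2a ?_ ?_)) (st_path hS hg .LL ?_ ?_))
      (pcs_path hPc hu .V3a ?_ ?_)
    all_goals first
      | (simp only [pcLen, pcCap]; omega)
      | (apply Prod.ext <;> simp only [pcEnd, pcStart, entryPt, exitPt, sideO] <;> omega)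
  · simp only [ptsOf_append]
    refine path_append (path_append (path_append (path_append (path_append (path_append
      (pcs_path hPc hu .V0b ?_ ?_) (st_path hS hg .LL ?_ ?_)) (pcs_path hPc hu .V1b ?_ ?_))
      (st_path hS hg .CH ?_ ?_)) (pcs_path hPc hu .V2b ?_ ?_)) (st_path hS hg .T ?_ ?_))
      (pcs_path hPc hu .V3b ?_ ?_)
    all_goals first
      | (simp only [pcLen, pcCap]; omega)
      | (apply Prod.ext <;> simp only [pcEnd, pcStart, entryPt, exitPt, sideO] <;> omega)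

theorem pp0_app {a b : ℤ} (ha : 0 ≤ a) (hb : 0 ≤ b) (l : List Bool) :
    pp0 a ++ (pp0 b ++ l) = pp0 (a + b) ++ l := by
  rw [pp0_add ha hb rfl, List.append_assoc]

theorem blkA_letters (hL : S_StrandLetters) (hPc : S_Piece) {u : ℤ} {g : Grp} (hg : g.Ok u) :
    (blkA u g).map Prod.snd = pp0 (38 * u) ++ (g.coreL .LR ++ pp0 (43 * u)) := by
  obtain ⟨hu, b1, b2, b3, b4, b5, b6, b7, c1, c2, c3, c4, c5, c6, c7⟩ := bds hg
  have e1 : pp0 (38 * u) = pp0 (38 * u - g.en u .LR) ++ pp0 (g.en u .LR) :=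
    pp0_add (by omega) (by omega) (by omega)
  have e2 : pp0 (43 * u) = pp0 (g.ex u .LR) ++ pp0 (43 * u - g.ex u .LR) :=
    pp0_add (by omega) (by omega) (by omega)
  rw [e1, e2]
  simp only [blkA, List.map_append]
  rw [pcs_letters hPc hu .A0 (by simp only [pcLen]; omega) (by simp only [pcLen, pcCap]; omega),
    pcs_letters hPc hu .A1 (by simp only [pcLen]; omega) (by simp only [pcLen, pcCap]; omega),
    st_letters hL hg .LR]
  simp only [List.append_assoc]

theorem blkB_letters (hL : S_StrandLetters) (hPc : S_Piece) {u : ℤ} {g : Grp} (hg : g.Ok u) :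
    (blkB u g).map Prod.snd = pp0 (55 * u) ++ (g.coreL .B ++ pp0 (47 * u)) := by
  obtain ⟨hu, b1, b2, b3, b4, b5, b6, b7, c1, c2, c3, c4, c5, c6, c7⟩ := bds hg
  have e1 : pp0 (55 * u) = pp0 (55 * u - g.en u .B) ++ pp0 (g.en u .B) :=
    pp0_add (by omega) (by omega) (by omega)
  have e2 : pp0 (47 * u) = pp0 (g.ex u .B) ++ pp0 (47 * u - g.ex u .B) :=
    pp0_add (by omega) (by omega) (by omega)
  rw [e1, e2]
  simp only [blkB, List.map_append]
  rw [pcs_letters hPc hu .B0 (by simp only [pcLen]; omega) (by simp only [pcLen, pcCap]; omega),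
    pcs_letters hPc hu .B1 (by simp only [pcLen]; omega) (by simp only [pcLen, pcCap]; omega),
    st_letters hL hg .B]
  simp only [List.append_assoc]

theorem blkC_letters (hL : S_StrandLetters) (hPc : S_Piece) {u : ℤ} {g : Grp} (hg : g.Ok u) :
    (blkC u g).map Prod.snd = pp0 (43 * u) ++ ((if g.hh then
        g.coreL .UR ++ (pp0 (96 * u) ++ g.coreL .UL)
      else g.coreL .UL ++ (pp0 (96 * u) ++ g.coreL .UR)) ++ pp0 (52 * u)) := by
  obtain ⟨hu, b1, b2, b3, b4, b5, b6, b7, c1, c2, c3, c4, c5, c6, c7⟩ := bds hg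
  unfold blkC
  split_ifs
  · have e1 : pp0 (43 * u) = pp0 (43 * u - g.en u .UR) ++ pp0 (g.en u .UR) :=
      pp0_add (by omega) (by omega) (by omega)
    have e2 : pp0 (52 * u) = pp0 (g.ex u .UL) ++ pp0 (52 * u - g.ex u .UL) :=
      pp0_add (by omega) (by omega) (by omega)
    have e3 : pp0 (96 * u) = pp0 (g.ex u .UR) ++
        (pp0 (96 * u - g.ex u .UR - g.en u .UL) ++ pp0 (g.en u .UL)) := by
      rw [pp0_add (a := g.ex u .UR) (b := 96 * u - g.ex u .UR) (by omega) (by omega) (by omega),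
        pp0_add (a := 96 * u - g.ex u .UR - g.en u .UL) (b := g.en u .UL) (by omega) (by omega)
          (c := 96 * u - g.ex u .UR) (by omega)]
    rw [e1, e2, e3]
    simp only [List.map_append]
    rw [pcs_letters hPc hu .C0a (by simp only [pcLen]; omega) (by simp only [pcLen, pcCap]; omega),
      pcs_letters hPc hu .C1a (by simp only [pcLen]; omega) (by simp only [pcLen, pcCap]; omega),
      pcs_letters hPc hu .C2a (by simp only [pcLen]; omega) (by simp only [pcLen, pcCap]; omega),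
      st_letters hL hg .UR, st_letters hL hg .UL]
    simp only [List.append_assoc]
  · have e1 : pp0 (43 * u) = pp0 (43 * u - g.en u .UL) ++ pp0 (g.en u .UL) :=
      pp0_add (by omega) (by omega) (by omega)
    have e2 : pp0 (52 * u) = pp0 (g.ex u .UR) ++ pp0 (52 * u - g.ex u .UR) :=
      pp0_add (by omega) (by omega) (by omega)
    have e3 : pp0 (96 * u) = pp0 (g.ex u .UL) ++
        (pp0 (96 * u - g.ex u .UL - g.en u .UR) ++ pp0 (g.en u .UR)) := by
      rw [pp0_add (a := g.ex u .UL) (b := 96 * u - g.ex u .UL) (by omega) (by omega) (by omega),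
        pp0_add (a := 96 * u - g.ex u .UL - g.en u .UR) (b := g.en u .UR) (by omega) (by omega)
          (c := 96 * u - g.ex u .UL) (by omega)]
    rw [e1, e2, e3]
    simp only [List.map_append]
    rw [pcs_letters hPc hu .C0b (by simp only [pcLen]; omega) (by simp only [pcLen, pcCap]; omega),
      pcs_letters hPc hu .C1b (by simp only [pcLen]; omega) (by simp only [pcLen, pcCap]; omega),
      pcs_letters hPc hu .C2b (by simp only [pcLen]; omega) (by simp only [pcLen, pcCap]; omega),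
      st_letters hL hg .UR, st_letters hL hg .UL]
    simp only [List.append_assoc]

theorem blkV_letters (hL : S_StrandLetters) (hPc : S_Piece) {u : ℤ} {g : Grp} (hg : g.Ok u) :
    (blkV u g).map Prod.snd = pp0 (62 * u) ++ ((if g.vv then
        g.coreL .T ++ (pp0 (96 * u) ++ (g.coreL .CH ++ (pp0 (116 * u) ++ g.coreL .LL)))
      else g.coreL .LL ++ (pp0 (96 * u) ++ (g.coreL .CH ++ (pp0 (116 * u) ++ g.coreL .T)))) ++
      pp0 (57 * u)) := by
  obtain ⟨hu, b1, b2, b3, b4, b5, b6, b7, c1, c2, c3, c4, c5, c6, c7⟩ := bds hg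
  unfold blkV
  split_ifs
  · have e1 : pp0 (62 * u) = pp0 (62 * u - g.en u .T) ++ pp0 (g.en u .T) :=
      pp0_add (by omega) (by omega) (by omega)
    have e2 : pp0 (57 * u) = pp0 (g.ex u .LL) ++ pp0 (57 * u - g.ex u .LL) :=
      pp0_add (by omega) (by omega) (by omega)
    have e3 : pp0 (96 * u) = pp0 (g.ex u .T) ++
        (pp0 (96 * u - g.ex u .T - g.en u .CH) ++ pp0 (g.en u .CH)) := by
      rw [pp0_add (a := g.ex u .T) (b := 96 * u - g.ex u .T) (by omega) (by omega) (by omega),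
        pp0_add (a := 96 * u - g.ex u .T - g.en u .CH) (b := g.en u .CH) (by omega) (by omega)
          (c := 96 * u - g.ex u .T) (by omega)]
    have e4 : pp0 (116 * u) = pp0 (g.ex u .CH) ++
        (pp0 (116 * u - g.ex u .CH - g.en u .LL) ++ pp0 (g.en u .LL)) := by
      rw [pp0_add (a := g.ex u .CH) (b := 116 * u - g.ex u .CH) (by omega) (by omega) (by omega),
        pp0_add (a := 116 * u - g.ex u .CH - g.en u .LL) (b := g.en u .LL) (by omega) (by omega)
          (c := 116 * u - g.ex u .CH) (by omega)]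
    rw [e1, e2, e3, e4]
    simp only [List.map_append]
    rw [pcs_letters hPc hu .V0a (by simp only [pcLen]; omega) (by simp only [pcLen, pcCap]; omega),
      pcs_letters hPc hu .V1a (by simp only [pcLen]; omega) (by simp only [pcLen, pcCap]; omega),
      pcs_letters hPc hu .V2a (by simp only [pcLen]; omega) (by simp only [pcLen, pcCap]; omega),
      pcs_letters hPc hu .V3a (by simp only [pcLen]; omega) (by simp only [pcLen, pcCap]; omega),
      st_letters hL hg .T, st_letters hL hg .CH, st_letters hL hg .LL]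
    simp only [List.append_assoc]
  · have e1 : pp0 (62 * u) = pp0 (62 * u - g.en u .LL) ++ pp0 (g.en u .LL) :=
      pp0_add (by omega) (by omega) (by omega)
    have e2 : pp0 (57 * u) = pp0 (g.ex u .T) ++ pp0 (57 * u - g.ex u .T) :=
      pp0_add (by omega) (by omega) (by omega)
    have e3 : pp0 (96 * u) = pp0 (g.ex u .LL) ++
        (pp0 (96 * u - g.ex u .LL - g.en u .CH) ++ pp0 (g.en u .CH)) := by
      rw [pp0_add (a := g.ex u .LL) (b := 96 * u - g.ex u .LL) (by omega) (by omega) (by omega),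
        pp0_add (a := 96 * u - g.ex u .LL - g.en u .CH) (b := g.en u .CH) (by omega) (by omega)
          (c := 96 * u - g.ex u .LL) (by omega)]
    have e4 : pp0 (116 * u) = pp0 (g.ex u .CH) ++
        (pp0 (116 * u - g.ex u .CH - g.en u .T) ++ pp0 (g.en u .T)) := by
      rw [pp0_add (a := g.ex u .CH) (b := 116 * u - g.ex u .CH) (by omega) (by omega) (by omega),
        pp0_add (a := 116 * u - g.ex u .CH - g.en u .T) (b := g.en u .T) (by omega) (by omega)
          (c := 116 * u - g.ex u .CH) (by omega)]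
    rw [e1, e2, e3, e4]
    simp only [List.map_append]
    rw [pcs_letters hPc hu .V0b (by simp only [pcLen]; omega) (by simp only [pcLen, pcCap]; omega),
      pcs_letters hPc hu .V1b (by simp only [pcLen]; omega) (by simp only [pcLen, pcCap]; omega),
      pcs_letters hPc hu .V2b (by simp only [pcLen]; omega) (by simp only [pcLen, pcCap]; omega),
      pcs_letters hPc hu .V3b (by simp only [pcLen]; omega) (by simp only [pcLen, pcCap]; omega),
      st_letters hL hg .T, st_letters hL hg .CH, st_letters hL hg .LL]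
    simp only [List.append_assoc]

end GrpAux

open GrpAux PcAux in
theorem GrpPath_proof (hS : S_StrandPath) (hL : S_StrandLetters) (hPc : S_Piece) :
    S_GrpPath := by
  intro u g hg
  have hu : 100 ≤ u := hg.b0.u_pos
  constructor
  · rw [path_eq]
    simp only [ptsOf_append]
    exact path_append (blkA_path hS hPc hg) (path_append (blkC_path hS hPc hg)
      (path_append (blkB_path hS hPc hg) (blkV_path hS hPc hg)))
  · rw [path_eq]
    simp only [List.map_append]
    rw [blkA_letters hL hPc hg, blkC_letters hL hPc hg, blkB_letters hL hPc hg,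
      blkV_letters hL hPc hg]
    have e1 : pp0 (86 * u) = pp0 (43 * u) ++ pp0 (43 * u) :=
      pp0_add (by omega) (by omega) (by omega)
    have e2 : pp0 (107 * u) = pp0 (52 * u) ++ pp0 (55 * u) :=
      pp0_add (by omega) (by omega) (by omega)
    have e3 : pp0 (109 * u) = pp0 (47 * u) ++ pp0 (62 * u) :=
      pp0_add (by omega) (by omega) (by omega)
    unfold Grp.letters
    rw [e1, e2, e3]
    cases g.hh <;> cases g.vv <;>
      simp only [if_true, if_false, Bool.false_eq_true, List.append_assoc]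

end Pool.Agent.H329
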