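import Pool.Agent.H329.StrandAux6

/-!
# The points of the path of a group
-/

namespace Pool.Agent.H329.GPAux

open Pool.Agent.H329

attribute [-instance] Int.instConditionallyCompleteLinearOrder

/-- Parts of the path of a group. -/
inductive Part : Type
  | pc (x : Pc) : Part
  | st (σ : Side) : Part
  deriving DecidableEq

/-- The list of the parts. -/
def parts (h v : Bool) : List Part :=
  [.pc .A0, .st .LR, .pc .A1] ++
  (if h then [.pc .C0a, .st .UR, .pc .C1a, .st .UL, .pc .C2a]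
    else [.pc .C0b, .st .UL, .pc .C1b, .st .UR, .pc .C2b]) ++
  [.pc .B0, .st .B, .pc .B1] ++
  (if v then [.pc .V0a, .st .T, .pc .V1a, .st .CH, .pc .V2a, .st .LL, .pc .V3a]
    else [.pc .V0b, .st .LL, .pc .V1b, .st .CH, .pc .V2b, .st .T, .pc .V3b])

/-- The total length of a piece. -/
def tot (u : ℤ) (g : Grp) : Pc → ℤ
  | .A0 => 38 * u - g.en u .LR
  | .A1 => 43 * u - g.ex u .LR
  | .C0a => 43 * u - g.en u .UR
  | .C1a => 96 * u - g.ex u .UR - g.en u .UL
  | .C2a => 52 * u - g.ex u .UL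
  | .C0b => 43 * u - g.en u .UL
  | .C1b => 96 * u - g.ex u .UL - g.en u .UR
  | .C2b => 52 * u - g.ex u .UR
  | .B0 => 55 * u - g.en u .B
  | .B1 => 47 * u - g.ex u .B
  | .V0a => 62 * u - g.en u .T
  | .V1a => 96 * u - g.ex u .T - g.en u .CH
  | .V2a => 116 * u - g.ex u .CH - g.en u .LL
  | .V3a => 57 * u - g.ex u .LL
  | .V0b => 62 * u - g.en u .LL
  | .V1b => 96 * u - g.ex u .LL - g.en u .CH
  | .V2b => 116 * u - g.ex u .CH - g.en u .T
  | .V3b => 57 * u - g.ex u .T

/-- The content of a part. -/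
def cont (u : ℤ) (g : Grp) : Part → List (Pt × Bool)
  | .pc x => pcs u x (tot u g x)
  | .st σ => g.st u σ

theorem path_eq (u : ℤ) (g : Grp) : g.path u = (parts g.hh g.vv).flatMap (cont u g) := by
  unfold Grp.path parts
  cases g.hh <;> cases g.vv <;>
    simp only [if_true, Bool.false_eq_true, if_false, List.cons_append, List.nil_append,
      List.flatMap_cons, List.flatMap_nil, List.append_nil, List.append_assoc, cont, tot]

theorem tot_bd {u : ℤ} {g : Grp} (hg : g.Ok u) (x : Pc) :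
    0 ≤ tot u g x - pcLen u x ∧ tot u g x - pcLen u x ≤ pcCap u x := by
  have h0 := SDAux.okf hg.b0
  have h1 := SDAux.okf hg.b1
  have h2 := SDAux.okf hg.b2
  cases x <;> simp only [tot, pcLen, pcCap, Grp.en, Grp.ex, enLen, exLen, Grp.bin] <;> omega

/-- Which parts may occur together. -/
def compat : Part → Part → Bool
  | .pc x, .pc y => x != y && (x.slab == y.slab || (decide (x.yhi ≤ y.ylo) || decide (y.yhi ≤ x.ylo)))
  | .st σ, .st τ => σ != τ
  | _, _ => true

theorem parts_pw (h v : Bool) : (parts h v).Pairwise fun a b => compat a b = true := by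
  cases h <;> cases v <;> decide

theorem st_mem (σ : Side) (h v : Bool) : Part.st σ ∈ parts h v := by
  cases h <;> cases v <;> cases σ <;> decide

theorem ptsOf_ps (l : List Pt) : ptsOf (ps l) = l := by
  simp [ptsOf, ps, Function.comp_def]

theorem ptsOf_st (u : ℤ) (g : Grp) (σ : Side) : ptsOf (g.st u σ) =
    (ptsOf (strand u (g.bin σ).b σ)).map fun p => (p.1 + (sideO u σ).1, p.2 + (sideO u σ).2) := by
  simp only [Grp.st, ptsOf, shift, mask, List.map_map, Function.comp_def]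

theorem mem_st {u : ℤ} {g : Grp} {σ : Side} {p : Pt} (h : p ∈ ptsOf (g.st u σ)) :
    (p.1 - (sideO u σ).1, p.2 - (sideO u σ).2) ∈ ptsOf (strand u (g.bin σ).b σ) := by
  rw [ptsOf_st, List.mem_map] at h
  obtain ⟨q, h1, rfl⟩ := h
  simpa using h1

theorem bin_ok {u : ℤ} {g : Grp} (hg : g.Ok u) (σ : Side) : (g.bin σ).b.Ok u := by
  cases σ
  · exact hg.b0
  · exact hg.b0
  · exact hg.b0
  · exact hg.b0
  · exact hg.b2
  · exact hg.b2
  · exact hg.b1

section main

variable {u : ℤ} {g : Grp} (hg : g.Ok u)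

include hg

theorem mem_cont_pc (h4 : S_Piece) {x : Pc} {p : Pt} (h : p ∈ ptsOf (cont u g (.pc x))) :
    p ∈ piece u (tot u g x - pcLen u x) x ∧ 20 * u + 1 ≤ p.1 ∧ p.1 ≤ 80 * u - 1 ∧
      x.ylo * u ≤ p.2 ∧ p.2 ≤ x.yhi * u - 1 := by
  simp only [cont, pcs, ptsOf_ps] at h
  have hb := tot_bd hg x
  exact ⟨h, (h4 u _ x (SDAux.okf hg.b0).1.1 hb.1 hb.2).2.2.2 p h⟩

theorem mem_cont_st (h1 : S_StrandBox) {σ : Side} {p : Pt} (h : p ∈ ptsOf (cont u g (.st σ))) :
    -4 * u ≤ p.1 - (sideO u σ).1 ∧ p.1 - (sideO u σ).1 ≤ 20 * u ∧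
      -3 * u ≤ p.2 - (sideO u σ).2 ∧ p.2 - (sideO u σ).2 ≤ 24 * u :=
  h1 u _ σ (bin_ok hg σ) _ (mem_st h)

theorem cont_disj (h1 : S_StrandBox) (h3 : S_StrandDisj) (h4 : S_Piece) (h5 : S_PieceDisj)
    {a b : Part} (hab : compat a b = true) {p : Pt} (ha : p ∈ ptsOf (cont u g a))
    (hb : p ∈ ptsOf (cont u g b)) : False := by
  have hu : 100 ≤ u := (SDAux.okf hg.b0).1.1
  rcases a with x | σ <;> rcases b with y | τ
  · obtain ⟨ha1, ha2, ha3, ha4, ha5⟩ := mem_cont_pc hg h4 ha
    obtain ⟨hb1, hb2, hb3, hb4, hb5⟩ := mem_cont_pc hg h4 hb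
    simp only [compat, Bool.and_eq_true, Bool.or_eq_true, bne_iff_ne, beq_iff_eq,
      decide_eq_true_eq] at hab
    obtain ⟨hne, hab | hab | hab⟩ := hab
    · have b1 := tot_bd hg x
      have b2 := tot_bd hg y
      exact h5 u _ _ x y hu b1.1 b1.2 b2.1 b2.2 hab hne p ha1 hb1
    · have := mul_le_mul_of_nonneg_right hab (by omega : (0 : ℤ) ≤ u)
      omega
    · have := mul_le_mul_of_nonneg_right hab (by omega : (0 : ℤ) ≤ u)
      omega
  · have k1 := mem_cont_pc hg h4 ha
    have k2 := mem_cont_st hg h1 hb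
    cases τ <;> simp only [sideO] at k2 <;> omega
  · have k1 := mem_cont_pc hg h4 hb
    have k2 := mem_cont_st hg h1 ha
    cases σ <;> simp only [sideO] at k2 <;> omega
  · have hne : σ ≠ τ := by simpa [compat] using hab
    by_cases hO : sideO u σ = sideO u τ
    · have hbin : g.bin σ = g.bin τ := by
        cases σ <;> cases τ <;> first | rfl | (simp only [sideO, Prod.mk.injEq] at hO; omega)
      have m1 := mem_st (u := u) (g := g) (σ := σ) ha
      have m2 := mem_st (u := u) (g := g) (σ := τ) hb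
      rw [← hO, ← hbin] at m2
      exact h3 u _ σ τ (bin_ok hg σ) hne _ m1 m2
    · have k1 := mem_cont_st hg h1 ha
      have k2 := mem_cont_st hg h1 hb
      cases σ <;> cases τ <;> first
        | exact hO rfl
        | (simp only [sideO] at k1 k2; omega)

theorem nodup_cont (h2 : S_StrandNodup) (h4 : S_Piece) (a : Part) :
    (ptsOf (cont u g a)).Nodup := by
  rcases a with x | σ
  · simp only [cont, pcs, ptsOf_ps]
    have hb := tot_bd hg x
    exact (h4 u _ x (SDAux.okf hg.b0).1.1 hb.1 hb.2).2.2.1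
  · simp only [cont, ptsOf_st]
    refine (h2 u _ σ (bin_ok hg σ)).map ?_
    rintro ⟨x, y⟩ ⟨x', y'⟩ h
    simp only [Prod.mk.injEq] at h ⊢
    omega

end main

theorem ptsOf_path (u : ℤ) (g : Grp) :
    ptsOf (g.path u) = (parts g.hh g.vv).flatMap fun a => ptsOf (cont u g a) := by
  rw [path_eq, ptsOf, List.map_flatMap]
  rfl

end Pool.Agent.H329.GPAux

namespace Pool.Agent.H329

open GPAux

theorem GrpPts_proof (h1 : S_StrandBox) (h2 : S_StrandNodup) (h3 : S_StrandDisj) (h4 : S_Piece)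
    (h5 : S_PieceDisj) : S_GrpPts := by
  intro u g hg
  have hu : 100 ≤ u := (SDAux.okf hg.b0).1.1
  refine ⟨?_, ?_, ?_⟩
  · rw [ptsOf_path, List.nodup_flatMap]
    refine ⟨fun a _ => nodup_cont hg h2 h4 a, ?_⟩
    refine (parts_pw g.hh g.vv).imp ?_
    intro a b hab p hp hq
    exact cont_disj hg h1 h3 h4 h5 hab hp hq
  · intro p hp
    rw [ptsOf_path, List.mem_flatMap] at hp
    obtain ⟨a, -, ha⟩ := hp
    rcases a with x | σ
    · left
      obtain ⟨-, k1, k2, k3, k4⟩ := mem_cont_pc hg h4 ha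
      refine ⟨k1, k2, ?_, ?_⟩
      · cases x <;> simp only [Pc.ylo] at k3 <;> omega
      · cases x <;> simp only [Pc.yhi] at k4 <;> omega
    · exact Or.inr ⟨σ, ha⟩
  · intro q hq
    rw [path_eq, List.mem_flatMap]
    constructor
    · rintro ⟨a, -, ha⟩
      rcases a with x | σ
      · simp only [cont, pcs, ps, List.mem_map] at ha
        obtain ⟨p, -, rfl⟩ := ha
        cases hq
      · exact ⟨σ, ha⟩
    · rintro ⟨σ, h⟩
      exact ⟨.st σ, st_mem σ _ _, h⟩

end Pool.Agent.H329
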