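import Pool.Agent.H329.Spec

/-!
# The word of a group
-/

namespace Pool.Agent.H329

attribute [-instance] Int.instConditionallyCompleteLinearOrder

attribute [local irreducible] uu code AV AC hexN

namespace GWAux

theorem itemWord_length (a : ℕ) : (itemWord a).length = 2 * a - 1 := by simp [itemWord]

theorem mask_snd (r : Bool) (l : List (Pt × Bool)) :
    (mask r l).map Prod.snd = (l.map Prod.snd).map fun x => x && r := by
  unfold mask
  rw [List.map_map, List.map_map]
  rfl

theorem map_false (l : List Bool) :
    (l.map fun x => x && false) = List.replicate l.length false := by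
  induction l with
  | nil => rfl
  | cons a t ih => rw [List.map_cons, ih, List.length_cons, List.replicate_succ]; simp

theorem map_true (l : List Bool) : (l.map fun x => x && true) = l := by
  simp

/-- letters of a masked core of an item -/
theorem core_item (hC : S_CoreLetters) {rb : RB} {u : ℤ} (hok : rb.b.Ok u) {σ : Side}
    (hσ : σ ≠ Side.CH) : (mask rb.r (core rb.b σ)).map Prod.snd =
      if rb.r = true then itemWord (asz rb.b σ).toNat
      else List.replicate (2 * (asz rb.b σ).toNat - 1) false := by
  rw [mask_snd, ((hC u rb.b hok).1 σ hσ).2]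
  cases rb.r with
  | true => rw [map_true]; rfl
  | false => rw [map_false, itemWord_length]; rfl

/-- letters of a masked chord -/
theorem core_ch (hC : S_CoreLetters) {rb : RB} {u : ℤ} (hok : rb.b.Ok u) :
    (mask rb.r (core rb.b .CH)).map Prod.snd =
      List.replicate (hexN rb.b.x1.toNat rb.b.y1.toNat rb.b.s0.toNat rb.b.lUR.toNat -
      ((2 * rb.b.lT + 2 * rb.b.lUL + rb.b.lUR + rb.b.lLL).toNat - 2)) rb.r := by
  rw [mask_snd, (hC u rb.b hok).2]
  cases rb.r with
  | true => rw [map_true]
  | false => rw [map_false, List.length_replicate]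

theorem binOf_real {G : Grid} {v h : ℕ → ℕ → ℕ} {s c : ℕ} (hr : real G s c = true) :
    binOf G v h s c = ⟨{ lT := lT G c (s - c)
                         lUR := lUR G c (s - c)
                         lLL := lLL G c (s - c)
                         lUL := lUL G c (s - c)
                         t0 := if G.w (c - 1) (s - c) = 1 then (h c (s - c - 1) : ℤ)
                           else (v (c - 1) (s - c) : ℤ) + h c (s - c - 1)
                         t1 := (h c (s - c) : ℤ) + 1 - v (c - 1) (s - c)
                         e2 := 1 - v (c - 1) (s - c)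
                         e3 := 1 - v (c - 1) (s - c)
                         e4 := 1 - v (c - 1) (s - c)
                         e5 := if G.w (c - 1) (s - c) = 1 then 0 else (v (c - 1) (s - c) : ℤ) },
                       true⟩ := by
  unfold binOf
  rw [if_pos hr]

theorem binOf_virt {G : Grid} {v h : ℕ → ℕ → ℕ} {s c : ℕ} (hr : real G s c = false) :
    binOf G v h s c = ⟨defBin (uu G), false⟩ := by
  unfold binOf
  rw [if_neg (by simp [hr])]

theorem real_iff {G : Grid} {s c : ℕ} :
    real G s c = true ↔ (c ≤ s ∧ 1 ≤ c ∧ c ≤ G.M ∧ 1 ≤ s - c ∧ s - c ≤ G.N) := by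
  unfold real
  simp

theorem real_iff' {G : Grid} {s c : ℕ} :
    real G s c = false ↔ ¬ (c ≤ s ∧ 1 ≤ c ∧ c ≤ G.M ∧ 1 ≤ s - c ∧ s - c ≤ G.N) := by
  unfold real
  simp

variable {G : Grid} {v h : ℕ → ℕ → ℕ}

theorem pp0_nat (n : ℕ) : pp0 ((n : ℤ)) = List.replicate n false := by simp [pp0]

theorem pp0_mul (k n : ℕ) : pp0 ((k : ℤ) * (n : ℤ)) = List.replicate (k * n) false := by
  rw [← Nat.cast_mul, pp0_nat]

/-- The letters of the sides of the bin `(s,c)`. -/
def cl (G : Grid) (v h : ℕ → ℕ → ℕ) (s c : ℕ) (σ : Side) : List Bool :=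
  (mask (binOf G v h s c).r (core (binOf G v h s c).b σ)).map Prod.snd

theorem tok_item {j : Lab} (hj : j.item = true) :
    (bd G).tokWord (.blk j) = itemWord (Lab.size G j) := by
  simp [BlkData.tokWord, BlkData.blkWord, bd, hj]

theorem tok_gap (n : ℕ) : (bd G).tokWord (.gap n) = List.replicate n false := rfl

variable (hC : S_CoreLetters) (hB : S_BinOk) (hG : G.Valid) (hS : G.Sol v h)

include hC hB hG hS in
theorem cl_LR_real {s c : ℕ} (hr : real G s c = true) :
    cl G v h s c .LR = (bd G).tokWord (.blk (.lr c (s - c))) := by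
  have hok := (hB G v h hG hS s c).1
  unfold cl
  rw [core_item hC hok (by decide), if_pos (by rw [(hB G v h hG hS s c).2, hr]), tok_item rfl]
  have h1 := hok.u_pos
  have h2 := hok.lT1
  have h3 := hok.lT2
  have h4 := hok.lUR1
  have h5 := hok.lUR2
  have h6 := hok.lLL1
  have h7 := hok.lLL2
  have h8 := hok.lUL1
  have h9 := hok.lUL2
  rw [binOf_real hr] at h2 h3 h4 h5 h6 h7 h8 h9 ⊢
  simp only [asz, BinP.aLR, BinP.lLR] at h2 h3 h4 h5 h6 h7 h8 h9 ⊢
  refine congrArg itemWord ?_
  simp only [Lab.size, H329.lLR]
  omega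

include hC hB hG hS in
theorem cl_B_real {s c : ℕ} (hr : real G s c = true) :
    cl G v h s c .B = (bd G).tokWord (.blk (.b c (s - c))) := by
  have hok := (hB G v h hG hS s c).1
  unfold cl
  rw [core_item hC hok (by decide), if_pos (by rw [(hB G v h hG hS s c).2, hr]), tok_item rfl]
  have h1 := hok.u_pos
  have h2 := hok.lT1
  have h3 := hok.lT2
  have h4 := hok.lUR1
  have h5 := hok.lUR2
  have h6 := hok.lLL1
  have h7 := hok.lLL2
  have h8 := hok.lUL1
  have h9 := hok.lUL2
  rw [binOf_real hr] at h2 h3 h4 h5 h6 h7 h8 h9 ⊢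
  simp only [asz, BinP.aB, BinP.lB] at h2 h3 h4 h5 h6 h7 h8 h9 ⊢
  refine congrArg itemWord ?_
  simp only [Lab.size, H329.lB]
  omega

include hC hB hG hS in
theorem cl_UR_real {s c : ℕ} (hr : real G s c = true) :
    cl G v h s c .UR = itemWord (AC G c (s - c) + h c (s - c)) := by
  have hok := (hB G v h hG hS s c).1
  unfold cl
  rw [core_item hC hok (by decide), if_pos (by rw [(hB G v h hG hS s c).2, hr])]
  rw [binOf_real hr]
  simp only [asz, BinP.aUR, H329.lUR]
  refine congrArg itemWord ?_
  push_cast
  omega

include hC hB hG hS in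
theorem cl_UL_real {s c : ℕ} (hr : real G s c = true) :
    cl G v h s c .UL = itemWord (AC G c (s - c - 1) + 1 - h c (s - c - 1)) := by
  have hok := (hB G v h hG hS s c).1
  unfold cl
  rw [core_item hC hok (by decide), if_pos (by rw [(hB G v h hG hS s c).2, hr])]
  rw [binOf_real hr]
  simp only [asz, BinP.aUL, H329.lUL]
  refine congrArg itemWord ?_
  have := hS.h_le c (s - c - 1)
  push_cast
  split_ifs <;> omega

include hC hB hG hS in
theorem cl_T_real {s c : ℕ} (hr : real G s c = true) :
    cl G v h s c .T = itemWord (AV G c (s - c) + G.w c (s - c) * v c (s - c)) := by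
  have hok := (hB G v h hG hS s c).1
  unfold cl
  rw [core_item hC hok (by decide), if_pos (by rw [(hB G v h hG hS s c).2, hr])]
  obtain ⟨r1, r2, r3, r4, r5⟩ := real_iff.1 hr
  have heq := hS.eq c (s - c) r2 r3 r4 r5
  rw [binOf_real hr]
  simp only [asz, BinP.aT, H329.lT]
  refine congrArg itemWord ?_
  have w1 := hG.w_range (c - 1) (s - c)
  have w2 := hG.w_range c (s - c)
  rcases w1 with w1 | w1 <;> rcases w2 with w2 | w2 <;> rw [w1, w2] at heq <;> simp [w1, w2] <;>
    omega

include hC hB hG hS in
theorem cl_LL_real {s c : ℕ} (hr : real G s c = true) :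
    cl G v h s c .LL = itemWord (AV G (c - 1) (s - c) + G.w (c - 1) (s - c) *
      (1 - v (c - 1) (s - c))) := by
  have hok := (hB G v h hG hS s c).1
  unfold cl
  rw [core_item hC hok (by decide), if_pos (by rw [(hB G v h hG hS s c).2, hr])]
  rw [binOf_real hr]
  simp only [asz, BinP.aLL, H329.lLL]
  refine congrArg itemWord ?_
  have w1 := hG.w_range (c - 1) (s - c)
  have hv := hS.v_le (c - 1) (s - c)
  rcases w1 with w1 | w1
  · rw [w1, if_pos rfl]
    omega
  · rw [w1, if_neg (by norm_num)]
    omega

include hC hB hG hS in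
theorem cl_CH_real {s c : ℕ} (hr : real G s c = true) :
    cl G v h s c .CH = (bd G).tokWord (.blk (.ch c (s - c))) := by
  have hok := (hB G v h hG hS s c).1
  unfold cl
  rw [core_ch hC hok, (hB G v h hG hS s c).2, hr, binOf_real hr]
  simp only [BinP.x1, BinP.y1, BinP.s0, BlkData.tokWord, BlkData.blkWord, bd, Lab.item, Lab.size,
    cc, pp, Bool.false_eq_true, if_false]
  have e1 : ((H329.lT G c (s - c) : ℤ) + (H329.lUR G c (s - c) : ℤ)).toNat =
    H329.lT G c (s - c) + H329.lUR G c (s - c) := by omega
  have e2 : ((H329.lUL G c (s - c) : ℤ) + (H329.lLL G c (s - c) : ℤ)).toNat =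
    H329.lUL G c (s - c) + H329.lLL G c (s - c) := by omega
  have e3 : (2 * (H329.lT G c (s - c) : ℤ) + 2 * (H329.lUL G c (s - c) : ℤ) +
      (H329.lUR G c (s - c) : ℤ) + (H329.lLL G c (s - c) : ℤ)).toNat =
    2 * H329.lT G c (s - c) + 2 * H329.lUL G c (s - c) + H329.lUR G c (s - c) +
      H329.lLL G c (s - c) := by omega
  rw [e1, e2, e3, Int.toNat_natCast, Int.toNat_natCast]

include hC hB hG hS in
theorem cl_virt {s c : ℕ} (hr : real G s c = false) {σ : Side} (hσ : σ ≠ Side.CH) :
    cl G v h s c σ = List.replicate (2 * (asz (defBin (uu G)) σ).toNat - 1) false := by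
  have hok := (hB G v h hG hS s c).1
  unfold cl
  rw [core_item hC hok hσ, if_neg (by rw [(hB G v h hG hS s c).2, hr]; simp), binOf_virt hr]

include hC hB hG hS in
theorem cl_CH_virt {s c : ℕ} (hr : real G s c = false) :
    cl G v h s c .CH = (bd G).tokWord (.gap (hexN (16 * uu G) (16 * uu G) (8 * uu G) (8 * uu G) -
      (48 * uu G - 2))) := by
  have hok := (hB G v h hG hS s c).1
  unfold cl
  rw [core_ch hC hok, (hB G v h hG hS s c).2, hr, binOf_virt hr, tok_gap]
  simp only [BinP.x1, BinP.y1, BinP.s0, defBin]
  have e1 : (8 * (uu G : ℤ) + 8 * (uu G : ℤ)).toNat = 16 * uu G := by omega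
  have e2 : (8 * (uu G : ℤ)).toNat = 8 * uu G := by omega
  have e3 : (2 * (8 * (uu G : ℤ)) + 2 * (8 * (uu G : ℤ)) + 8 * (uu G : ℤ) + 8 * (uu G : ℤ)).toNat =
    48 * uu G := by omega
  rw [e1, e2, e3]

theorem u_pos' (hB : S_BinOk) (hG : G.Valid) (hS : G.Sol v h) : 100 ≤ uu G := by
  have := (hB G v h hG hS 0 0).1.u_pos
  omega

end GWAux

open GWAux in
/-- The word of a group is the word of its tokens. -/
theorem GrpWord_proof (hC : S_CoreLetters) (hB : S_BinOk) : S_GrpWord := by
  intro G v h hG hS s c hc
  have hu := u_pos' hB hG hS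
  -- the four gadgets
  have E1 : cl G v h s c .LR = (bd G).tokWord
      (if real G s c then .blk (.lr c (s - c)) else .gap (16 * uu G - 1)) := by
    cases hr : real G s c with
    | true => rw [if_pos rfl]; exact cl_LR_real hC hB hG hS hr
    | false =>
      rw [if_neg (by simp), tok_gap, cl_virt hC hB hG hS hr (by decide)]
      refine congrArg (fun n => List.replicate n false) ?_
      simp only [asz, BinP.aLR, BinP.lLR, defBin]
      omega
  have E2 : cl G v h (s + 1) (c + 1) .B = (bd G).tokWord
      (if real G (s + 1) (c + 1) then .blk (.b (c + 1) (s - c)) else .gap (16 * uu G - 1)) := by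
    cases hr : real G (s + 1) (c + 1) with
    | true =>
      rw [if_pos rfl, cl_B_real hC hB hG hS hr]
      rw [show s + 1 - (c + 1) = s - c by omega]
    | false =>
      rw [if_neg (by simp), tok_gap, cl_virt hC hB hG hS hr (by decide)]
      refine congrArg (fun n => List.replicate n false) ?_
      simp only [asz, BinP.aB, BinP.lB, defBin]
      omega
  have E3 : cl G v h s c .CH = (bd G).tokWord
      (if real G s c then .blk (.ch c (s - c)) else
        .gap (hexN (16 * uu G) (16 * uu G) (8 * uu G) (8 * uu G) - (48 * uu G - 2))) := by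
    cases hr : real G s c with
    | true => rw [if_pos rfl]; exact cl_CH_real hC hB hG hS hr
    | false => rw [if_neg (by simp)]; exact cl_CH_virt hC hB hG hS hr
  have UR0 : real G s c = false → cl G v h s c .UR = List.replicate (16 * uu G - 3) false := by
    intro hr
    rw [cl_virt hC hB hG hS hr (by decide)]
    refine congrArg (fun n => List.replicate n false) ?_
    simp only [asz, BinP.aUR, defBin]
    omega
  have UL0 : real G (s + 1) c = false →
      cl G v h (s + 1) c .UL = List.replicate (16 * uu G - 1) false := by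
    intro hr
    rw [cl_virt hC hB hG hS hr (by decide)]
    refine congrArg (fun n => List.replicate n false) ?_
    simp only [asz, BinP.aUL, defBin]
    omega
  have T0 : real G s c = false → cl G v h s c .T = List.replicate (16 * uu G - 5) false := by
    intro hr
    rw [cl_virt hC hB hG hS hr (by decide)]
    refine congrArg (fun n => List.replicate n false) ?_
    simp only [asz, BinP.aT, defBin]
    omega
  have LL0 : real G (s + 1) (c + 1) = false →
      cl G v h (s + 1) (c + 1) .LL = List.replicate (16 * uu G + 1) false := by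
    intro hr
    rw [cl_virt hC hB hG hS hr (by decide)]
    refine congrArg (fun n => List.replicate n false) ?_
    simp only [asz, BinP.aLL, defBin]
    omega
  have URr := fun hr : real G s c = true => cl_UR_real hC hB hG hS hr
  have Tr := fun hr : real G s c = true => cl_T_real hC hB hG hS hr
  have ULr : real G (s + 1) c = true →
      cl G v h (s + 1) c .UL = itemWord (AC G c (s - c) + 1 - h c (s - c)) := by
    intro hr
    obtain ⟨r1, r2, r3, r4, r5⟩ := real_iff.1 hr
    rw [cl_UL_real hC hB hG hS hr]
    rw [show s + 1 - c - 1 = s - c by omega]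
  have LLr : real G (s + 1) (c + 1) = true →
      cl G v h (s + 1) (c + 1) .LL =
        itemWord (AV G c (s - c) + G.w c (s - c) * (1 - v c (s - c))) := by
    intro hr
    rw [cl_LL_real hC hB hG hS hr]
    rw [show s + 1 - (c + 1) = s - c by omega, show c + 1 - 1 = c by omega]
  have E4 : (if ((real G s c || real G (s + 1) c) && (h c (s - c) == 1)) = true then
        cl G v h s c .UR ++ pp0 (96 * (uu G : ℤ)) ++ cl G v h (s + 1) c .UL
      else cl G v h (s + 1) c .UL ++ pp0 (96 * (uu G : ℤ)) ++ cl G v h s c .UR) =
      (bd G).tokWord (tokCa G s c) ++ pp0 (96 * (uu G : ℤ)) ++ (bd G).tokWord (tokCb G s c) := by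
    have hh1 := hS.h_le c (s - c)
    have tH : (bd G).tokWord (.blk (.cH c (s - c))) = itemWord (AC G c (s - c) + 1) := tok_item rfl
    have tL : (bd G).tokWord (.blk (.cL c (s - c))) = itemWord (AC G c (s - c)) := tok_item rfl
    unfold tokCa tokCb
    cases hr : real G s c with
    | true =>
      cases hr2 : real G (s + 1) c with
      | true =>
        rw [URr hr, ULr hr2]
        simp only [Bool.or_true, Bool.true_and, if_true, tH, tL]
        by_cases h1 : h c (s - c) = 1
        · simp [h1]
        · have h0 : h c (s - c) = 0 := by omega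
          simp [h0]
      | false =>
        obtain ⟨r1, r2, r3, r4, r5⟩ := real_iff.1 hr
        have r6 := real_iff'.1 hr2
        have hN : s - c = G.N := by omega
        have hR := hS.h_N c r2 r3
        rw [← hN] at hR
        rw [URr hr, UL0 hr2]
        simp only [Bool.or_false, Bool.true_and, if_true, Bool.false_eq_true, if_false]
        by_cases h1 : h c (s - c) = 1
        · rw [if_pos (show G.hR c = 1 by omega), if_pos (show G.hR c = 1 by omega), tH, tok_gap]
          simp [h1]
        · have h0 : h c (s - c) = 0 := by omega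
          rw [if_neg (show ¬ G.hR c = 1 by omega), if_neg (show ¬ G.hR c = 1 by omega), tL, tok_gap]
          simp [h0]
    | false =>
      cases hr2 : real G (s + 1) c with
      | true =>
        obtain ⟨r1, r2, r3, r4, r5⟩ := real_iff.1 hr2
        have r6 := real_iff'.1 hr
        have h0 : s - c = 0 := by omega
        have hL := hS.h_zero c r2 r3
        rw [← h0] at hL
        rw [UR0 hr, ULr hr2]
        simp only [Bool.or_true, Bool.true_and, if_true, Bool.false_eq_true, if_false]
        by_cases h1 : h c (s - c) = 1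
        · rw [if_pos (show G.hL c = 1 by omega), if_pos (show G.hL c = 1 by omega), tL, tok_gap]
          simp [h1]
        · have h0 : h c (s - c) = 0 := by omega
          rw [if_neg (show ¬ G.hL c = 1 by omega), if_neg (show ¬ G.hL c = 1 by omega), tH, tok_gap]
          simp [h0]
      | false =>
        rw [UR0 hr, UL0 hr2]
        simp only [Bool.or_false, Bool.false_and, Bool.false_eq_true, if_false, tok_gap]
  have E5 : (if (real G s c && (v c (s - c) == 1)) = true then
        cl G v h s c .T ++ pp0 (96 * (uu G : ℤ)) ++ cl G v h s c .CH ++ pp0 (116 * (uu G : ℤ)) ++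
          cl G v h (s + 1) (c + 1) .LL
      else cl G v h (s + 1) (c + 1) .LL ++ pp0 (96 * (uu G : ℤ)) ++ cl G v h s c .CH ++
          pp0 (116 * (uu G : ℤ)) ++ cl G v h s c .T) =
      (bd G).tokWord (if real G (s + 1) (c + 1) then .blk (.vH c (s - c))
        else .gap (16 * uu G + 1)) ++ pp0 (96 * (uu G : ℤ)) ++ cl G v h s c .CH ++
        pp0 (116 * (uu G : ℤ)) ++
      (bd G).tokWord (if real G s c then .blk (.vL c (s - c)) else .gap (16 * uu G - 5)) := by
    have hv1 := hS.v_le c (s - c)
    have tH : (bd G).tokWord (.blk (.vH c (s - c))) =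
      itemWord (AV G c (s - c) + G.w c (s - c)) := tok_item rfl
    have tL : (bd G).tokWord (.blk (.vL c (s - c))) = itemWord (AV G c (s - c)) := tok_item rfl
    cases hr : real G s c with
    | true =>
      cases hr2 : real G (s + 1) (c + 1) with
      | true =>
        rw [Tr hr, LLr hr2]
        simp only [Bool.true_and, if_true, tH, tL]
        by_cases h1 : v c (s - c) = 1
        · simp [h1]
        · have h0 : v c (s - c) = 0 := by omega
          simp [h0]
      | false =>
        obtain ⟨r1, r2, r3, r4, r5⟩ := real_iff.1 hr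
        have r6 := real_iff'.1 hr2
        have hM : c = G.M := by omega
        have h0 : v c (s - c) = 0 := by rw [hM]; exact hS.v_M _
        rw [Tr hr, LL0 hr2]
        simp [h0, tL, tok_gap]
    | false =>
      cases hr2 : real G (s + 1) (c + 1) with
      | true =>
        obtain ⟨r1, r2, r3, r4, r5⟩ := real_iff.1 hr2
        have r6 := real_iff'.1 hr
        have hc0 : c = 0 := by omega
        have h0 : v c (s - c) = 0 := by rw [hc0]; exact hS.v_zero _
        rw [T0 hr, LLr hr2]
        simp [h0, tH, tok_gap]
      | false =>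
        rw [T0 hr, LL0 hr2]
        simp [tok_gap]
  have key : (grpOf G v h s c).letters (uu G) =
      pp0 (38 * (uu G : ℤ)) ++ cl G v h s c .LR ++ pp0 (86 * (uu G : ℤ)) ++
      (if ((real G s c || real G (s + 1) c) && (h c (s - c) == 1)) = true then
        cl G v h s c .UR ++ pp0 (96 * (uu G : ℤ)) ++ cl G v h (s + 1) c .UL
      else cl G v h (s + 1) c .UL ++ pp0 (96 * (uu G : ℤ)) ++ cl G v h s c .UR) ++
      pp0 (107 * (uu G : ℤ)) ++ cl G v h (s + 1) (c + 1) .B ++ pp0 (109 * (uu G : ℤ)) ++
      (if (real G s c && (v c (s - c) == 1)) = true then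
        cl G v h s c .T ++ pp0 (96 * (uu G : ℤ)) ++ cl G v h s c .CH ++ pp0 (116 * (uu G : ℤ)) ++
          cl G v h (s + 1) (c + 1) .LL
      else cl G v h (s + 1) (c + 1) .LL ++ pp0 (96 * (uu G : ℤ)) ++ cl G v h s c .CH ++
          pp0 (116 * (uu G : ℤ)) ++ cl G v h s c .T) ++ pp0 (57 * (uu G : ℤ)) := rfl
  rw [key, E4, E5, E1, E2, E3]
  have g : ∀ k : ℕ, pp0 ((k : ℤ) * (uu G : ℤ)) = (bd G).tokWord (.gap (k * uu G)) :=
    fun k => pp0_mul k _
  have g38 := g 38
  have g86 := g 86
  have g96 := g 96
  have g107 := g 107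
  have g109 := g 109
  have g116 := g 116
  have g57 := g 57
  norm_cast at g38 g86 g96 g107 g109 g116 g57 ⊢
  simp only [g38, g86, g96, g107, g109, g116, g57, BlkData.word, grp, List.flatMap_cons,
    List.flatMap_nil, List.append_nil, List.append_assoc]

end Pool.Agent.H329
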