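import Pool.Agent.H329.Spec

/-!
# Counting: the letters of the cores, the number of points and of edges of a hexagon
-/

namespace Pool.Agent.H329

attribute [-instance] Int.instConditionallyCompleteLinearOrder

namespace HexAux

/-- an increasing arithmetic sum -/
theorem sum_up (a : ℤ) (ha : 0 ≤ a) (n : ℕ) :
    2 * ∑ j ∈ Finset.range n, max 0 ((j : ℤ) + 1 - a) = max 0 (n - a) * (max 0 (n - a) + 1) := by
  induction n with
  | zero =>
    rw [Finset.sum_range_zero, max_eq_left (by simp; omega)]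
    ring
  | succ n ih =>
    rw [Finset.sum_range_succ, mul_add, ih]
    rcases lt_or_ge (n : ℤ) a with h | h
    · have h1 : max (0 : ℤ) (n - a) = 0 := max_eq_left (by omega)
      have h2 : max (0 : ℤ) ((n : ℤ) + 1 - a) = 0 := max_eq_left (by omega)
      have h3 : max (0 : ℤ) (((n + 1 : ℕ) : ℤ) - a) = 0 := max_eq_left (by push_cast; omega)
      rw [h1, h2, h3]
      ring
    · have h1 : max (0 : ℤ) (n - a) = n - a := max_eq_right (by omega)
      have h2 : max (0 : ℤ) ((n : ℤ) + 1 - a) = n + 1 - a := max_eq_right (by omega)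
      have h3 : max (0 : ℤ) (((n + 1 : ℕ) : ℤ) - a) = n + 1 - a := by
        rw [max_eq_right (by push_cast; omega)]
        push_cast
        ring
      rw [h1, h2, h3]
      ring

/-- a decreasing arithmetic sum -/
theorem sum_down (a : ℤ) (ha : 1 ≤ a) (n : ℕ) :
    2 * ∑ j ∈ Finset.range n, max 0 (a - ((j : ℤ) + 1)) =
      a * (a - 1) - max 0 (a - 1 - n) * (max 0 (a - 1 - n) + 1) := by
  induction n with
  | zero =>
    rw [Finset.sum_range_zero, max_eq_right (by simp; omega)]
    push_cast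
    ring
  | succ n ih =>
    rw [Finset.sum_range_succ, mul_add, ih]
    rcases le_or_gt (a - 1) n with h | h
    · have h1 : max (0 : ℤ) (a - 1 - n) = 0 := max_eq_left (by omega)
      have h2 : max (0 : ℤ) (a - ((n : ℤ) + 1)) = 0 := max_eq_left (by omega)
      have h3 : max (0 : ℤ) (a - 1 - ((n + 1 : ℕ) : ℤ)) = 0 := max_eq_left (by push_cast; omega)
      rw [h1, h2, h3]
      ring
    · have h1 : max (0 : ℤ) (a - 1 - n) = a - 1 - n := max_eq_right (by omega)
      have h2 : max (0 : ℤ) (a - ((n : ℤ) + 1)) = a - 1 - n := by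
        rw [max_eq_right (by omega)]
        ring
      have h3 : max (0 : ℤ) (a - 1 - ((n + 1 : ℕ) : ℤ)) = a - 2 - n := by
        rw [max_eq_right (by push_cast; omega)]
        push_cast
        ring
      rw [h1, h2, h3]
      ring

/-- the number `hexN` as an integer -/
theorem hexN_cast (x1 y1 s r : ℤ) (hx : 0 ≤ x1) (hy : 0 ≤ y1) (hs : 0 ≤ s) (hr : 0 ≤ r)
    (hle : s * (s + 1) + r * (r + 1) ≤ 2 * ((x1 + 1) * (y1 + 1))) :
    2 * ((hexN x1.toNat y1.toNat s.toNat r.toNat : ℕ) : ℤ) =
      2 * ((x1 + 1) * (y1 + 1)) - s * (s + 1) - r * (r + 1) := by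
  obtain ⟨x, rfl⟩ := Int.eq_ofNat_of_zero_le hx
  obtain ⟨y, rfl⟩ := Int.eq_ofNat_of_zero_le hy
  obtain ⟨s, rfl⟩ := Int.eq_ofNat_of_zero_le hs
  obtain ⟨r, rfl⟩ := Int.eq_ofNat_of_zero_le hr
  rw [Int.toNat_natCast, Int.toNat_natCast, Int.toNat_natCast, Int.toNat_natCast]
  unfold hexN
  have h1 : 2 ∣ s * (s + 1) := (Nat.even_mul_succ_self s).two_dvd
  have h2 : 2 ∣ r * (r + 1) := (Nat.even_mul_succ_self r).two_dvd
  obtain ⟨m, hm⟩ := h1
  obtain ⟨k, hk⟩ := h2
  rw [hm, hk, Nat.mul_div_cancel_left _ (by norm_num), Nat.mul_div_cancel_left _ (by norm_num)]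
  have hm' : (s : ℤ) * (s + 1) = 2 * m := by exact_mod_cast hm
  have hk' : (r : ℤ) * (r + 1) = 2 * k := by exact_mod_cast hk
  rw [hm', hk'] at hle ⊢
  have hle' : m + k ≤ (x + 1) * (y + 1) := by
    have : (m : ℤ) + k ≤ (x + 1) * (y + 1) := by linarith
    exact_mod_cast this
  have e : ((x + 1) * (y + 1) - m - k) + (m + k) = (x + 1) * (y + 1) := by omega
  have e' : (((x + 1) * (y + 1) - m - k : ℕ) : ℤ) + (m + k) = (x + 1) * (y + 1) := by
    exact_mod_cast e
  linarith

theorem list_sum_range (f : ℕ → ℕ) (n : ℕ) :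
    ((List.range n).map f).sum = ∑ i ∈ Finset.range n, f i := by
  induction n with
  | zero => simp
  | succ n ih => rw [List.range_succ, List.map_append, List.sum_append, ih, Finset.sum_range_succ]; simp

end HexAux

open HexAux

theorem HexEdges_proof : S_HexEdges := by
  intro u b hb
  have key : ∀ (d : Fin 6) (g : Pt → ℤ) (lo hi : ℤ) (n : ℕ), ((hi + 1 - lo).toNat = n) →
      (∀ p ∈ b.hex, lo ≤ g p ∧ g p ≤ hi) →
      (∀ p ∈ b.hex, ∀ q ∈ b.hex, p + dir d ∉ b.hex → q + dir d ∉ b.hex → g p = g q → p = q) →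
      b.hex.card ≤ (b.hex.filter fun p => p + dir d ∈ b.hex).card + n := by
    intro d g lo hi n hn h1 h2
    rw [← Finset.card_filter_add_card_filter_not (s := b.hex) (fun p => p + dir d ∈ b.hex)]
    apply Nat.add_le_add_left
    rw [← hn, ← Int.card_Icc]
    apply Finset.card_le_card_of_injOn g
    · intro p hp
      have hp' := Finset.mem_filter.1 (Finset.mem_coe.1 hp)
      exact Finset.mem_coe.2 (Finset.mem_Icc.2 (h1 p hp'.1))
    · intro p hp q hq hpq
      have hp' := Finset.mem_filter.1 (Finset.mem_coe.1 hp)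
      have hq' := Finset.mem_filter.1 (Finset.mem_coe.1 hq)
      exact h2 p hp'.1 q hq'.1 hp'.2 hq'.2 hpq
  have mem : ∀ p : Pt, p ∈ b.hex ↔ (0 ≤ p.1 ∧ p.1 ≤ b.x1 ∧ 0 ≤ p.2 ∧ p.2 ≤ b.y1 ∧
      b.s0 ≤ p.1 + p.2 ∧ p.1 + p.2 ≤ b.s1) := by
    intro p
    unfold BinP.hex
    rw [Finset.mem_filter, Finset.mem_product, Finset.mem_Icc, Finset.mem_Icc]
    tauto
  obtain ⟨u1, a1, a2, a3, a4, a5, a6, a7, a8, _, _, _, _, _, _, _, _, _, _, _, _, _⟩ := hb
  have k0 := key 0 (fun p => p.2) 0 b.y1 (b.y1 + 1).toNat (by omega)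
    (fun p hp => by
      rw [mem] at hp
      exact ⟨hp.2.2.1, hp.2.2.2.1⟩)
    (fun p hp q hq hp' hq' he => by
      rw [mem] at hp hq hp' hq'
      simp [dir] at hp' hq' he
      apply Prod.ext
      · by_contra hne
        have := hp' (by omega)
        have := hq' (by omega)
        omega
      · exact he)
  have k1 := key 1 (fun p => p.1) 0 b.x1 (b.x1 + 1).toNat (by omega)
    (fun p hp => by
      rw [mem] at hp
      exact ⟨hp.1, hp.2.1⟩)
    (fun p hp q hq hp' hq' he => by
      rw [mem] at hp hq hp' hq'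
      simp [dir] at hp' hq' he
      apply Prod.ext
      · exact he
      · by_contra hne
        have := hp' (by omega) (by omega) (by omega)
        have := hq' (by omega) (by omega) (by omega)
        omega)
  have k2 := key 2 (fun p => p.1 + p.2) b.s0 b.s1 (b.s1 + 1 - b.s0).toNat (by omega)
    (fun p hp => by
      rw [mem] at hp
      exact ⟨hp.2.2.2.2.1, hp.2.2.2.2.2⟩)
    (fun p hp q hq hp' hq' he => by
      rw [mem] at hp hq hp' hq'
      simp [dir] at hp' hq' he
      have : p.1 = q.1 := by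
        by_contra hne
        by_cases h1 : 1 ≤ p.1
        · have := hp' (by omega) (by omega) (by omega)
          by_cases h2 : 1 ≤ q.1
          · have := hq' (by omega) (by omega) (by omega)
            omega
          · omega
        · by_cases h2 : 1 ≤ q.1
          · have := hq' (by omega) (by omega) (by omega)
            omega
          · omega
      apply Prod.ext
      · exact this
      · omega)
  have he : edges b.hex = (b.hex.filter fun p => p + dir 0 ∈ b.hex).card +
      (b.hex.filter fun p => p + dir 1 ∈ b.hex).card +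
      (b.hex.filter fun p => p + dir 2 ∈ b.hex).card := by
    unfold edges
    rw [Finset.sum_insert (by decide), Finset.sum_insert (by decide), Finset.sum_singleton,
      add_assoc]
  rw [he]
  unfold BinP.x1 at k1
  unfold BinP.y1 at k0
  unfold BinP.s0 BinP.s1 at k2
  omega

theorem HexCard_proof : S_HexCard := by
  intro u b hb
  obtain ⟨u1, a1, a2, a3, a4, a5, a6, a7, a8, _, _, _, _, _, _, _, _, _, _, _, _, _⟩ := hb
  have mem : ∀ p : Pt, p ∈ b.hex ↔ (0 ≤ p.1 ∧ p.1 ≤ b.x1 ∧ 0 ≤ p.2 ∧ p.2 ≤ b.y1 ∧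
      b.s0 ≤ p.1 + p.2 ∧ p.1 + p.2 ≤ b.s1) := by
    intro p
    unfold BinP.hex
    rw [Finset.mem_filter, Finset.mem_product, Finset.mem_Icc, Finset.mem_Icc]
    tauto
  have hx : b.x1 = b.lT + b.lUR := rfl
  have hy : b.y1 = b.lUL + b.lLL := rfl
  have h0 : b.s0 = b.lLL := rfl
  have h1 : b.s1 = b.lUL + b.lLL + b.lT := rfl
  have hfib : ∀ j ∈ Finset.range (b.y1.toNat + 1),
      (((b.hex.filter fun p => p.2.toNat = j).card : ℕ) : ℤ) =
        (b.x1 + 1) - max 0 ((j : ℤ) + 1 - (b.y1 - b.lUR + 1)) -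
          max 0 (b.s0 + 1 - ((j : ℤ) + 1)) := by
    intro j hj
    rw [Finset.mem_range] at hj
    have hcard : (b.hex.filter fun p => p.2.toNat = j).card =
        (Finset.Icc (max 0 (b.s0 - j)) (min b.x1 (b.s1 - j))).card := by
      symm
      apply Finset.card_bij (fun x _ => ((x, (j : ℤ)) : Pt))
      · intro x hx'
        rw [Finset.mem_Icc] at hx'
        rw [Finset.mem_filter, mem]
        simp only [Int.toNat_natCast, and_true]
        omega
      · intro x _ y _ h
        exact (Prod.ext_iff.1 h).1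
      · intro p hp
        rw [Finset.mem_filter, mem] at hp
        refine ⟨p.1, ?_, ?_⟩
        · rw [Finset.mem_Icc]
          omega
        · apply Prod.ext
          · rfl
          · change (j : ℤ) = p.2
            omega
    rw [hcard, Int.card_Icc]
    omega
  have hsum : ((b.hex.card : ℕ) : ℤ) = ∑ j ∈ Finset.range (b.y1.toNat + 1),
      ((b.x1 + 1) - max 0 ((j : ℤ) + 1 - (b.y1 - b.lUR + 1)) -
          max 0 (b.s0 + 1 - ((j : ℤ) + 1))) := by
    rw [Finset.card_eq_sum_card_fiberwise (f := fun p : Pt => p.2.toNat)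
      (t := Finset.range (b.y1.toNat + 1))]
    · push_cast
      exact Finset.sum_congr rfl hfib
    · intro p hp
      have := (mem p).1 hp
      simp only [Finset.coe_range, Set.mem_Iio]
      omega
  have e1 := sum_up (b.y1 - b.lUR + 1) (by omega) (b.y1.toNat + 1)
  have e2 := sum_down (b.s0 + 1) (by omega) (b.y1.toNat + 1)
  have hcast : (((b.y1.toNat + 1 : ℕ)) : ℤ) = b.y1 + 1 := by push_cast; omega
  rw [hcast] at e1 e2
  have m1 : max 0 (b.y1 + 1 - (b.y1 - b.lUR + 1)) = b.lUR := by omega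
  have m2 : max 0 (b.s0 + 1 - 1 - (b.y1 + 1)) = 0 := by omega
  rw [m1] at e1
  rw [m2] at e2
  rw [Finset.sum_sub_distrib, Finset.sum_sub_distrib, Finset.sum_const, Finset.card_range,
    nsmul_eq_mul, hcast] at hsum
  have hN := hexN_cast b.x1 b.y1 b.s0 b.lUR (by omega) (by omega) (by omega) (by omega)
    (by rw [hx, hy, h0]; nlinarith)
  have : (2 : ℤ) * ((b.hex.card : ℕ) : ℤ) =
      2 * ((hexN b.x1.toNat b.y1.toNat b.s0.toNat b.lUR.toNat : ℕ) : ℤ) := by
    rw [hN, hsum]
    linarith
  omega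

namespace HexAux

/-- letters of a zigzag -/
theorem zig_letters (h d1 d2 : Pt) (a : ℤ) (ha : 1 ≤ a) :
    (zig h d1 d2 a).map Prod.snd = itemWord a.toNat := by
  unfold zig itemWord
  rw [List.map_map]
  have : (2 * a - 1).toNat = 2 * a.toNat - 1 := by omega
  rw [this]
  rfl

theorem hs_letters (l : List Pt) : (hs l).map Prod.snd = List.replicate l.length true := by
  unfold hs
  rw [List.map_map]
  induction l with
  | nil => rfl
  | cons a l ih => rw [List.map_cons, ih, List.length_cons, List.replicate_succ]; rfl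

theorem coe_list (l : List ℕ) :
    (do let a ← l; pure ((a : ℕ) : ℤ)) = l.map fun j : ℕ => (j : ℤ) := by
  induction l with
  | nil => rfl
  | cons a l ih => rw [List.map_cons, ← ih]; rfl

theorem seg_length (p d : Pt) (n : ℤ) : (seg p d n).length = n.toNat := by
  unfold seg
  rw [coe_list, List.length_map, List.length_map, List.length_range]

theorem chordRow_length (b : BinP) (j : ℕ) :
    (chordRow b j).length = (b.xr (j + 1) - b.xl (j + 1)).toNat := by
  unfold chordRow
  split_ifs <;> rw [seg_length]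

end HexAux

theorem CoreLetters_proof : S_CoreLetters := by
  intro u b hb
  obtain ⟨u1, a1, a2, a3, a4, a5, a6, a7, a8, _, _, _, _, _, _, _, _, _, _, _, _, _⟩ := hb
  have hx : b.x1 = b.lT + b.lUR := rfl
  have hy : b.y1 = b.lUL + b.lLL := rfl
  have h0 : b.s0 = b.lLL := rfl
  have h1 : b.s1 = b.lUL + b.lLL + b.lT := rfl
  constructor
  · intro σ hσ
    have h3 : 3 ≤ asz b σ := by
      cases σ
      · change 3 ≤ b.lUL + b.lLL - b.lUR + b.e2 - b.e3
        omega
      · change 3 ≤ b.lUR + b.t1 - b.e2 - 1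
        omega
      · exact absurd rfl hσ
      · change 3 ≤ b.lT + b.t0 - b.t1 - 1
        omega
      · change 3 ≤ b.lT + b.lUR - b.lLL + b.e3 - b.e4
        omega
      · change 3 ≤ b.lLL + b.e4 - b.e5
        omega
      · change 3 ≤ b.lUL + b.e5 - b.t0
        omega
    refine ⟨h3, ?_⟩
    have h4 : core b σ = zig (firstH b σ) (zd1 σ) (zd2 σ) (asz b σ) := by
      cases σ <;> first | rfl | exact absurd rfl hσ
    rw [h4, zig_letters _ _ _ _ (by omega)]
  · change (hs (chordCore b)).map Prod.snd = _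
    rw [hs_letters]
    congr 1
    unfold chordCore chordA
    rw [coe_list, List.length_cons, List.length_append, List.length_append, List.length_map,
      List.length_map, List.length_range, List.length_flatMap, List.length_singleton,
      list_sum_range]
    have hrow : ∀ j ∈ Finset.range (b.y1 - 1).toNat, (((chordRow b j).length : ℕ) : ℤ) =
        (b.x1 - 2) - max 0 ((j : ℤ) + 1 - (b.y1 - b.lUR)) - max 0 (b.s0 - ((j : ℤ) + 1)) := by
      intro j hj
      rw [Finset.mem_range] at hj
      rw [chordRow_length]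
      unfold BinP.xr BinP.xl
      omega
    have hsum : ((∑ j ∈ Finset.range (b.y1 - 1).toNat, (chordRow b j).length : ℕ) : ℤ) =
        ∑ j ∈ Finset.range (b.y1 - 1).toNat,
        ((b.x1 - 2) - max 0 ((j : ℤ) + 1 - (b.y1 - b.lUR)) - max 0 (b.s0 - ((j : ℤ) + 1))) := by
      push_cast
      exact Finset.sum_congr rfl hrow
    have e1 := sum_up (b.y1 - b.lUR) (by omega) (b.y1 - 1).toNat
    have e2 := sum_down b.s0 (by omega) (b.y1 - 1).toNat
    have hcast : (((b.y1 - 1).toNat : ℕ) : ℤ) = b.y1 - 1 := by omega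
    rw [hcast] at e1 e2
    have m1 : max 0 (b.y1 - 1 - (b.y1 - b.lUR)) = b.lUR - 1 := by omega
    have m2 : max 0 (b.s0 - 1 - (b.y1 - 1)) = 0 := by omega
    rw [m1] at e1
    rw [m2] at e2
    rw [Finset.sum_sub_distrib, Finset.sum_sub_distrib, Finset.sum_const, Finset.card_range,
      nsmul_eq_mul, hcast] at hsum
    have hN := hexN_cast b.x1 b.y1 b.s0 b.lUR (by omega) (by omega) (by omega) (by omega)
      (by rw [hx, hy, h0]; nlinarith)
    set L := ∑ j ∈ Finset.range (b.y1 - 1).toNat, (chordRow b j).length with hL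
    set N := hexN b.x1.toNat b.y1.toNat b.s0.toNat b.lUR.toNat with hNd
    have hmain : (N : ℤ) = (b.y1 - 1) + (L : ℤ) + (2 * b.lT + 2 * b.lUL + b.lUR + b.lLL) := by
      have : 2 * (N : ℤ) = 2 * ((b.y1 - 1) + (L : ℤ) +
          (2 * b.lT + 2 * b.lUL + b.lUR + b.lLL)) := by
        rw [hN, hsum]
        have e3 : 2 * ((b.y1 - 1) * (b.x1 - 2)) =
          2 * ((b.x1 + 1) * (b.y1 + 1)) - 2 * (b.y1 - 1) - 4 * b.y1 - 4 * b.x1 + 0 := by ring
        rw [hx, hy, h0] at *
        linarith
      linarith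
    omega

end Pool.Agent.H329
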