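import Pool.Agent.H329.Spec

/-!
Project HP folding (MP_dec383_lc), job HexIneq. Owner helper329.
Pure arithmetic. First prove the exact identity for hexN: s(s+1)/2 is exact (2 divides s(s+1)) and hexN does not truncate, i.e.
2*hexN x1 y1 s0 r + s0(s0+1) + r(r+1) = 2(x1+1)(y1+1) for x1=16u+a+b, y1=16u+c+d, s0=8u+c, r=8u+b. Then with p = 48u+2a+2d+b+c:
12 n - 3 = (p+3)^2 - q, where q = (2a+2d+b+c)^2 - 12(a+b)(c+d) + 6b^2+6c^2 <= 100 D^2 (check by ring in Z). The inequalities follow from u >= 100 (D+1)^2 (in particular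
D*D <= u/100, D <= u/100), n >= 192u^2+24u etc. Work in Z or with nlinarith after setting explicit bounds: p <= 48u+6D, n >= 192u^2 + 24u.
Keep the statement of TARGET unchanged; auxiliary lemmas before it, in namespace Pool.Agent.H329.HexIneqAux.
-/

namespace Pool.Agent.H329



open Finset



namespace HexIneqAux

theorem hexN_eq (x1 y1 s0 r : ℕ) (h : s0 * (s0 + 1) + r * (r + 1) ≤ 2 * ((x1 + 1) * (y1 + 1))) :
    2 * hexN x1 y1 s0 r + (s0 * (s0 + 1) + r * (r + 1)) = 2 * ((x1 + 1) * (y1 + 1)) := by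
  obtain ⟨k1, h1⟩ := (Nat.even_mul_succ_self s0).two_dvd
  obtain ⟨k2, h2⟩ := (Nat.even_mul_succ_self r).two_dvd
  unfold hexN
  generalize (x1 + 1) * (y1 + 1) = P at h ⊢
  have e1 : s0 * (s0 + 1) = 2 * k1 := h1
  have e2 : r * (r + 1) = 2 * k2 := h2
  rw [e1, e2] at h ⊢
  rw [Nat.mul_div_cancel_left _ (by norm_num), Nat.mul_div_cancel_left _ (by norm_num)]
  omega

end HexIneqAux

/-- TARGET -/
theorem HexIneq_proof : S_HexIneq := by
  intro D u a b c d T hu hT ha hb hc hd p n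
  have hu0 : 100 * (D + 1) ≤ u := le_trans (by nlinarith) hu
  have hDD : 100 * (D * D) ≤ u := le_trans (by nlinarith) hu
  have hu1 : 100 ≤ u := by omega
  have hsq : 100 * u ≤ u * u := Nat.mul_le_mul_right u hu1
  have hP : (16 * u + 1) * (16 * u + 1) ≤ (16 * u + a + b + 1) * (16 * u + c + d + 1) :=
    Nat.mul_le_mul (by omega) (by omega)
  have hS1 : (100 * (8 * u + c)) * (100 * (8 * u + c + 1)) ≤ (801 * u) * (801 * u) :=
    Nat.mul_le_mul (by omega) (by omega)
  have hS2 : (100 * (8 * u + b)) * (100 * (8 * u + b + 1)) ≤ (801 * u) * (801 * u) :=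
    Nat.mul_le_mul (by omega) (by omega)
  have key := HexIneqAux.hexN_eq (16 * u + a + b) (16 * u + c + d) (8 * u + c) (8 * u + b)
    (by nlinarith)
  have hn : n = hexN (16 * u + a + b) (16 * u + c + d) (8 * u + c) (8 * u + b) := rfl
  have hp : p = 48 * u + 2 * a + 2 * d + b + c := by
    show 2 * (8 * u + a) + 2 * (8 * u + d) + (8 * u + b) + (8 * u + c) = _
    ring
  have key' : 2 * n + ((8 * u + c) * (8 * u + c + 1) + (8 * u + b) * (8 * u + b + 1)) =
    2 * ((16 * u + a + b + 1) * (16 * u + c + d + 1)) := key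
  clear_value n p
  have hpu : 100 * p ≤ 4806 * u := by omega
  have hB : p + 190 * u ^ 2 ≤ n := by nlinarith
  have hp4 : 4800 ≤ p := by omega
  have hnp : p + 2 ≤ n := by nlinarith
  have hq1 : (2 * a + 2 * d + b + c) * (2 * a + 2 * d + b + c) ≤ (6 * D) * (6 * D) :=
    Nat.mul_le_mul (by omega) (by omega)
  have hq2 : b * b ≤ D * D := Nat.mul_le_mul hb hb
  have hq3 : c * c ≤ D * D := Nat.mul_le_mul hc hc
  have hq4 : 0 ≤ (a + b) * (c + d) := Nat.zero_le _
  refine ⟨key, hB, ?_, ?_⟩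
  · have e : p - 3 + (n - (p - 2)) = n - 1 := by omega
    rw [e]
    have h1 : (p + 2) ^ 2 + 3 + 12 < 12 * n := by
      subst hp
      nlinarith
    omega
  · have hX : (100 * (6 * (8 * u + 3 * D + 4) + 2 * T + 3)) *
        (100 * (6 * (8 * u + 3 * D + 4) + 2 * T + 3)) ≤ (4827 * u) * (4827 * u) :=
      Nat.mul_le_mul (by omega) (by omega)
    have h2 : 190 * u ^ 2 ≤ n - (p - 2) := by omega
    have h3 : 24 * (190 * u ^ 2) ≤ 24 * (n - (p - 2)) := Nat.mul_le_mul_left 24 h2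
    refine lt_of_lt_of_le ?_ h3
    nlinarith

end Pool.Agent.H329
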