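import Pool.Agent.H329.Spec

/-!
Project HP folding (MP_dec383_lc), job InNP. Owner helper329.
Imports are starting files (the NPC library: Poly combinators in Enc.lean, Num.lean, decoding in Dec.lean; see inNPP_of in Dec.lean and its uses, e.g. grep for inNPP_of in the starting
tree). Certificate for (s,k): the list of steps (list of numbers < 6, or pairs of integers) of length s.length - 1, or the list of points translated so that the first is 0 (coordinates bounded
by s.length in absolute value, so the size of the certificate is polynomial in the size of s). The test: length, adjacency of consecutive points, all points different, and the number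
of contacts (count over pairs of indices) >= k. Prove Poly of the test with the combinators (List.range, map, filter, all, zipIdx, getD, ...). Foldings can be translated.
Keep the statement of TARGET unchanged; auxiliary lemmas before it, in namespace Pool.Agent.H329.InNPAux.
-/

namespace Pool.Agent.H329


open Pool.Agent.NPC

open Finset

namespace InNPAux

/-- adjacency of pairs of natural numbers -/
def nadj (p q : ℕ × ℕ) : Bool :=
  (decide (p.1 + 1 = q.1) && decide (p.2 = q.2)) || (decide (p.1 = q.1) && decide (p.2 + 1 = q.2)) ||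
  (decide (p.1 = q.1 + 1) && decide (p.2 + 1 = q.2)) || (decide (p.1 = q.1 + 1) && decide (p.2 = q.2)) ||
  (decide (p.1 = q.1) && decide (p.2 = q.2 + 1)) || (decide (p.1 + 1 = q.1) && decide (p.2 = q.2 + 1))

/-- cast to a point -/
def cst (p : ℕ × ℕ) : Pt := ((p.1 : ℤ), (p.2 : ℤ))

theorem cst_inj {p q : ℕ × ℕ} : cst p = cst q ↔ p = q := by
  simp [cst, Prod.ext_iff]

theorem nadj_iff (p q : ℕ × ℕ) : nadj p q = true ↔ Adj (cst p) (cst q) := by
  obtain ⟨a, b⟩ := p
  obtain ⟨c, d⟩ := q
  rw [adj_iff_dir]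
  simp only [nadj, cst, Bool.or_eq_true, Bool.and_eq_true, decide_eq_true_eq]
  constructor
  · rintro (((((h | h) | h) | h) | h) | h)
    · exact ⟨0, by simp [dir]; omega⟩
    · exact ⟨1, by simp [dir]; omega⟩
    · exact ⟨2, by simp [dir]; omega⟩
    · exact ⟨3, by simp [dir]; omega⟩
    · exact ⟨4, by simp [dir]; omega⟩
    · exact ⟨5, by simp [dir]; omega⟩
  · rintro ⟨e, he⟩
    fin_cases e <;> simp [dir] at he <;> omega

/-- list of all pairs -/
def prs (n : ℕ) : List (ℕ × ℕ) := (List.range n).flatMap fun i => (List.range n).map fun j => (i, j)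

theorem mem_prs {n : ℕ} {p : ℕ × ℕ} : p ∈ prs n ↔ p.1 < n ∧ p.2 < n := by
  obtain ⟨a, b⟩ := p
  simp [prs]

theorem nodup_prs (n : ℕ) : (prs n).Nodup := by
  have : prs n = (List.range n) ×ˢ (List.range n) := rfl
  rw [this]
  exact List.Nodup.product List.nodup_range List.nodup_range

/-- pairs which are counted -/
def cp (s : List Bool) (w : List (ℕ × ℕ)) (p : ℕ × ℕ) : Bool :=
  decide (p.1 + 2 ≤ p.2) && s.getD p.1 false && s.getD p.2 false &&
    nadj (w.getD p.1 (0, 0)) (w.getD p.2 (0, 0))

/-- test of a pair -/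
def tp (w : List (ℕ × ℕ)) (p : ℕ × ℕ) : Bool :=
  (!(decide (p.1 + 1 = p.2)) || nadj (w.getD p.1 (0, 0)) (w.getD p.2 (0, 0))) &&
  (decide (p.1 = p.2) || !(decide (w.getD p.1 (0, 0) = w.getD p.2 (0, 0))))

/-- the test -/
def R (x : (List Bool × ℕ) × List (ℕ × ℕ)) : Bool :=
  ((prs x.1.1.length).all (tp x.2)) &&
    decide (x.1.2 ≤ ((prs x.1.1.length).filter (cp x.1.1 x.2)).length)

section PolyR

open Poly

theorem poly_nadj {α : Type} [TEnc α] {p q : α → ℕ × ℕ} (hp : Poly p) (hq : Poly q) :
    Poly (fun a => nadj (p a) (q a)) := by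
  have p1 := fst hp
  have p2 := snd hp
  have q1 := fst hq
  have q2 := snd hq
  exact or (or (or (or (or (and (decide_eq (succ p1) q1) (decide_eq p2 q2))
    (and (decide_eq p1 q1) (decide_eq (succ p2) q2)))
    (and (decide_eq p1 (succ q1)) (decide_eq (succ p2) q2)))
    (and (decide_eq p1 (succ q1)) (decide_eq p2 q2)))
    (and (decide_eq p1 q1) (decide_eq p2 (succ q2))))
    (and (decide_eq (succ p1) q1) (decide_eq p2 (succ q2)))

theorem poly_prs {α β : Type} [TEnc α] [TEnc β] {l : α → List β} (hl : Poly l) :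
    Poly (fun a => prs (l a).length) := by
  have h1 : Poly (fun a => List.range (l a).length) := range_length hl
  refine flatMap (F := fun a i => (List.range (l a).length).map fun j => (i, j)) h1 ?_
  refine map (F := fun (p : α × ℕ) j => (p.2, j)) (h1.comp (fst id)) ?_
  exact pair (snd (fst id)) (snd id)

theorem poly_R : Poly R := by
  have hs : Poly (fun x : (List Bool × ℕ) × List (ℕ × ℕ) => x.1.1) := fst (fst id)
  have hw : Poly (fun x : ((List Bool × ℕ) × List (ℕ × ℕ)) × (ℕ × ℕ) => x.1.2) := snd (fst id)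
  have hs' : Poly (fun x : ((List Bool × ℕ) × List (ℕ × ℕ)) × (ℕ × ℕ) => x.1.1.1) :=
    fst (fst (fst id))
  have h1 : Poly (fun x : ((List Bool × ℕ) × List (ℕ × ℕ)) × (ℕ × ℕ) => x.2.1) := fst (snd id)
  have h2 : Poly (fun x : ((List Bool × ℕ) × List (ℕ × ℕ)) × (ℕ × ℕ) => x.2.2) := snd (snd id)
  have e1 : Poly (fun x : ((List Bool × ℕ) × List (ℕ × ℕ)) × (ℕ × ℕ) =>
      x.1.2.getD x.2.1 (0, 0)) := getD hw h1 (const _)
  have e2 : Poly (fun x : ((List Bool × ℕ) × List (ℕ × ℕ)) × (ℕ × ℕ) =>
      x.1.2.getD x.2.2 (0, 0)) := getD hw h2 (const _)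
  have e3 : Poly (fun x : ((List Bool × ℕ) × List (ℕ × ℕ)) × (ℕ × ℕ) =>
      x.1.1.1.getD x.2.1 false) := getD hs' h1 (const _)
  have e4 : Poly (fun x : ((List Bool × ℕ) × List (ℕ × ℕ)) × (ℕ × ℕ) =>
      x.1.1.1.getD x.2.2 false) := getD hs' h2 (const _)
  have en := poly_nadj e1 e2
  refine and (all (p := fun (x : (List Bool × ℕ) × List (ℕ × ℕ)) p => tp x.2 p) (poly_prs hs) ?_) ?_
  · exact and (or (not (decide_eq (succ h1) h2)) en) (or (decide_eq h1 h2) (not (decide_eq e1 e2)))
  · refine decide_le (snd (fst id)) (length (filter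
      (p := fun (x : (List Bool × ℕ) × List (ℕ × ℕ)) p => cp x.1.1 x.2 p) (poly_prs hs) ?_))
    exact and (and (and (decide_le (succ (succ h1)) h2) e3) e4) en

end PolyR

/-- the number counted by the test -/
theorem count_eq (s : List Bool) (w : List (ℕ × ℕ)) (f : Fin s.length → Pt)
    (hf : ∀ i j : Fin s.length, Adj (f i) (f j) ↔
      nadj (w.getD i.1 (0, 0)) (w.getD j.1 (0, 0)) = true) :
    ((prs s.length).filter (cp s w)).length = contacts s f := by
  unfold contacts
  rw [← List.toFinset_card_of_nodup ((nodup_prs s.length).filter _)]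
  symm
  refine Finset.card_bij (fun p _ => (p.1.1, p.2.1)) ?_ ?_ ?_
  · rintro ⟨i, j⟩ h
    simp only [Finset.mem_filter, Finset.mem_univ, true_and] at h
    obtain ⟨h1, h2, h3, h4⟩ := h
    rw [List.mem_toFinset, List.mem_filter, mem_prs]
    refine ⟨⟨i.2, j.2⟩, ?_⟩
    rw [hf] at h4
    have e2 : s.getD i.1 false = true := by
      rw [List.getD_eq_getElem _ _ i.2]; exact h2
    have e3 : s.getD j.1 false = true := by
      rw [List.getD_eq_getElem _ _ j.2]; exact h3
    simp only [cp, e2, e3, h4, Bool.and_true, decide_eq_true_eq]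
    exact h1
  · rintro ⟨i, j⟩ _ ⟨i', j'⟩ _ h
    simp only [Prod.mk.injEq] at h ⊢
    exact ⟨Fin.ext h.1, Fin.ext h.2⟩
  · rintro ⟨a, b⟩ h
    rw [List.mem_toFinset, List.mem_filter, mem_prs] at h
    obtain ⟨⟨ha, hb⟩, h⟩ := h
    simp only at ha hb
    simp only [cp, Bool.and_eq_true, decide_eq_true_eq] at h
    obtain ⟨⟨⟨h1, h2⟩, h3⟩, h4⟩ := h
    refine ⟨(⟨a, ha⟩, ⟨b, hb⟩), ?_, rfl⟩
    simp only [Finset.mem_filter, Finset.mem_univ, true_and]
    refine ⟨h1, ?_, ?_, (hf _ _).2 h4⟩
    · rw [List.getD_eq_getElem _ _ ha] at h2; exact h2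
    · rw [List.getD_eq_getElem _ _ hb] at h3; exact h3

/-- soundness of the test -/
theorem sound (x : List Bool × ℕ) (w : List (ℕ × ℕ)) (h : R (x, w) = true) : HPFold x := by
  simp only [R, Bool.and_eq_true, List.all_eq_true, decide_eq_true_eq] at h
  obtain ⟨h1, h2⟩ := h
  let f : Fin x.1.length → Pt := fun i => cst (w.getD i.1 (0, 0))
  have hf : ∀ i j : Fin x.1.length, Adj (f i) (f j) ↔
      nadj (w.getD i.1 (0, 0)) (w.getD j.1 (0, 0)) = true := fun i j => (nadj_iff _ _).symm
  refine ⟨f, ⟨?_, ?_⟩, ?_⟩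
  · intro i j hij
    have h3 := h1 (i.1, j.1) (mem_prs.2 ⟨i.2, j.2⟩)
    have h4 := cst_inj.1 hij
    simp only [tp, Bool.and_eq_true, Bool.or_eq_true, decide_eq_true_eq, Bool.not_eq_true',
      decide_eq_false_iff_not] at h3
    rcases h3.2 with h5 | h5
    · exact Fin.ext h5
    · exact absurd h4 h5
  · intro i j hij
    have h3 := h1 (i.1, j.1) (mem_prs.2 ⟨i.2, j.2⟩)
    simp only [tp, Bool.and_eq_true, Bool.or_eq_true, decide_eq_true_eq, Bool.not_eq_true',
      decide_eq_false_iff_not] at h3
    rcases h3.1 with h5 | h5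
    · exact absurd hij h5
    · exact (hf i j).2 h5
  · rw [← count_eq x.1 w f hf]
    exact h2

theorem adj_bound {p q : Pt} (h : Adj p q) : |q.1 - p.1| ≤ 1 ∧ |q.2 - p.2| ≤ 1 := by
  obtain ⟨d, rfl⟩ := (adj_iff_dir p q).1 h
  fin_cases d <;> simp [dir]

theorem fold_bound {n : ℕ} {f : Fin n → Pt} (hf : IsFolding f) (hn : 0 < n) :
    ∀ i : ℕ, ∀ h : i < n, |(f ⟨i, h⟩).1 - (f ⟨0, hn⟩).1| ≤ i ∧ |(f ⟨i, h⟩).2 - (f ⟨0, hn⟩).2| ≤ i := by
  intro i
  induction i with
  | zero => intro h; simp
  | succ i ih =>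
    intro h
    obtain ⟨h1, h2⟩ := ih (by omega)
    obtain ⟨h3, h4⟩ := adj_bound (hf.2 ⟨i, by omega⟩ ⟨i + 1, h⟩ rfl)
    rw [abs_le] at h1 h2 h3 h4
    push_cast
    constructor
    · rw [abs_le]; constructor <;> omega
    · rw [abs_le]; constructor <;> omega

theorem sz_pt_le (m a b : ℕ) (ha : a ≤ m) (hb : b ≤ m) : sz (a, b) ≤ 8 * m + 3 := by
  rw [sz_pair]
  have h1 := sz_nat_le a
  have h2 := sz_nat_le b
  have h3 := Poly.size_le_self a
  have h4 := Poly.size_le_self b
  omega

/-- completeness of the test -/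
theorem complete (x : List Bool × ℕ) (h : HPFold x) :
    ∃ w : List (ℕ × ℕ), sz w ≤ (Polynomial.X * (16 * Polynomial.X + 4) + 1 : Polynomial ℕ).eval (sz x)
      ∧ R (x, w) = true := by
  obtain ⟨s, k⟩ := x
  obtain ⟨f, hf, hk⟩ := h
  simp only at f hf hk
  rcases Nat.eq_zero_or_pos s.length with hn | hn
  · refine ⟨[], by simp, ?_⟩
    have hc : contacts s f = 0 := by
      unfold contacts
      rw [Finset.card_eq_zero, Finset.eq_empty_iff_forall_notMem]
      rintro ⟨i, j⟩ _
      have := i.2
      omega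
    rw [hc] at hk
    have hk0 : k = 0 := by omega
    have hs : s = [] := List.length_eq_zero_iff.1 hn
    subst hs hk0
    simp [R, prs]
  · have hb := fold_bound hf hn
    let g : Fin s.length → ℕ × ℕ := fun i => (((f i).1 - (f ⟨0, hn⟩).1 + s.length).toNat,
      ((f i).2 - (f ⟨0, hn⟩).2 + s.length).toNat)
    have hg : ∀ i, cst (g i) = f i + (-(f ⟨0, hn⟩).1 + s.length, -(f ⟨0, hn⟩).2 + s.length) := by
      intro i
      obtain ⟨h1, h2⟩ := hb i.1 i.2
      have h3 := i.2
      rw [abs_le] at h1 h2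
      apply Prod.ext
      · simp only [cst, g, Prod.fst_add]
        rw [Int.toNat_of_nonneg (by have := h1.1; simp only [Fin.eta] at this; omega)]
        ring
      · simp only [cst, g, Prod.snd_add]
        rw [Int.toNat_of_nonneg (by have := h2.1; simp only [Fin.eta] at this; omega)]
        ring
    have hg2 : ∀ i, (g i).1 ≤ 2 * s.length ∧ (g i).2 ≤ 2 * s.length := by
      intro i
      obtain ⟨h1, h2⟩ := hb i.1 i.2
      have h3 := i.2
      rw [abs_le] at h1 h2
      simp only [Fin.eta] at h1 h2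
      simp only [g]
      omega
    have hget : ∀ i : Fin s.length, (List.ofFn g).getD i.1 (0, 0) = g i := by
      intro i
      rw [List.getD_eq_getElem _ _ (by rw [List.length_ofFn]; exact i.2), List.getElem_ofFn]
    have hadj : ∀ i j : Fin s.length, Adj (f i) (f j) ↔
        nadj ((List.ofFn g).getD i.1 (0, 0)) ((List.ofFn g).getD j.1 (0, 0)) = true := by
      intro i j
      rw [hget, hget, nadj_iff, hg, hg]
      unfold Adj
      simp only [Prod.fst_add, Prod.snd_add, add_sub_add_right_eq_sub]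
    refine ⟨List.ofFn g, ?_, ?_⟩
    · have h1 := sz_le_length_mul (List.ofFn g) (16 * s.length + 3) (by
        intro a ha
        rw [List.mem_ofFn] at ha
        obtain ⟨i, rfl⟩ := ha
        have h2 := sz_pt_le (2 * s.length) (g i).1 (g i).2 (hg2 i).1 (hg2 i).2
        have h3 : ((g i).1, (g i).2) = g i := rfl
        rw [h3] at h2
        omega)
      rw [List.length_ofFn] at h1
      have h2 := length_lt_sz s
      have h3 : s.length ≤ sz (s, k) := by rw [sz_pair]; omega
      refine h1.trans ?_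
      simp only [Polynomial.eval_add, Polynomial.eval_mul, Polynomial.eval_X,
        Polynomial.eval_ofNat, Polynomial.eval_one]
      refine Nat.add_le_add_right (Nat.mul_le_mul h3 ?_) 1
      omega
    · simp only [R, Bool.and_eq_true, List.all_eq_true, decide_eq_true_eq]
      refine ⟨?_, ?_⟩
      · rintro ⟨a, b⟩ hab
        obtain ⟨ha, hb'⟩ := mem_prs.1 hab
        simp only at ha hb'
        simp only [tp, Bool.and_eq_true, Bool.or_eq_true, decide_eq_true_eq, Bool.not_eq_true',
          decide_eq_false_iff_not]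
        constructor
        · by_cases hc : a + 1 = b
          · right
            exact (hadj ⟨a, ha⟩ ⟨b, hb'⟩).1 (hf.2 ⟨a, ha⟩ ⟨b, hb'⟩ hc)
          · left; exact hc
        · by_cases hc : a = b
          · left; exact hc
          · right
            intro he
            have e1 := hget ⟨a, ha⟩
            have e2 := hget ⟨b, hb'⟩
            simp only at e1 e2
            rw [e1, e2] at he
            have e3 : cst (g ⟨a, ha⟩) = cst (g ⟨b, hb'⟩) := by rw [he]
            rw [hg, hg, add_left_inj] at e3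
            have := hf.1 e3
            simp only [Fin.mk.injEq] at this
            exact hc this
      · rw [count_eq s (List.ofFn g) f hadj]
        exact hk

end InNPAux

/-- TARGET -/
theorem InNP_proof : S_InNP := by
  refine inNPP_of (R := InNPAux.R) InNPAux.poly_R
    (Polynomial.X * (16 * Polynomial.X + 4) + 1) fun x => ?_
  exact ⟨InNPAux.complete x, fun ⟨w, _, hw⟩ => InNPAux.sound x w hw⟩

end Pool.Agent.H329
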