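import Pool.Agent.H329.Defs

/-!
# The grid problem and the word built from a grid instance
-/

namespace Pool.Agent.H329

open Finset

/-! ### The grid problem -/

/-- Data of the grid problem. -/
structure Grid where
  /-- number of rows -/
  M : ℕ
  /-- number of wires -/
  N : ℕ
  /-- weights of the wire classes -/
  w : ℕ → ℕ → ℕ
  /-- left boundary values of the rows -/
  hL : ℕ → ℕ
  /-- right boundary values of the rows -/
  hR : ℕ → ℕ

/-- Validity of grid data. -/
structure Grid.Valid (G : Grid) : Prop where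
  M_pos : 1 ≤ G.M
  N_pos : 1 ≤ G.N
  w_range : ∀ c i, G.w c i = 1 ∨ G.w c i = 2
  w_zero : ∀ i, G.w 0 i = 2
  w_pair : ∀ c i, G.w c i = 2 ∨ G.w (c + 1) i = 2
  hL_range : ∀ c, G.hL c ≤ 1
  hR_range : ∀ c, G.hR c ≤ 1
  balance : ∑ c ∈ Icc 1 G.M, G.hL c = ∑ c ∈ Icc 1 G.M, G.hR c

/-- Solutions of the grid problem. -/
structure Grid.Sol (G : Grid) (v h : ℕ → ℕ → ℕ) : Prop where
  v_le : ∀ c i, v c i ≤ 1
  h_le : ∀ c i, h c i ≤ 1
  v_zero : ∀ i, v 0 i = 0
  v_M : ∀ i, v G.M i = 0
  h_zero : ∀ c, 1 ≤ c → c ≤ G.M → h c 0 = G.hL c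
  h_N : ∀ c, 1 ≤ c → c ≤ G.M → h c G.N = G.hR c
  eq : ∀ c i, 1 ≤ c → c ≤ G.M → 1 ≤ i → i ≤ G.N →
    G.w c i * v c i + h c i = G.w (c - 1) i * v (c - 1) i + h c (i - 1)

/-! ### Codes and sizes -/

variable (G : Grid)

/-- Bound on the class numbers. -/
def n0 : ℕ := 2 * (G.M + 1) * (G.N + 1) + 2

/-- Number of the class `V(c,i)`. -/
def idV (c i : ℕ) : ℕ := 2 * (c * (G.N + 1) + i) + 1

/-- Number of the class `C(c,i)`. -/
def idC (c i : ℕ) : ℕ := 2 * (c * (G.N + 1) + i) + 2

/-- The radix. -/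
def RR : ℕ := 24 * n0 G ^ 24 + 1

/-- The code of a class number. -/
def code (x : ℕ) : ℕ := ∑ e ∈ range 24, (x * RR G) ^ e

/-- Bound for the deviations. -/
def D0 : ℕ := 32 * (24 * (n0 G * RR G) ^ 24) + 4

/-- The unit of length. -/
def uu : ℕ := 100 * (D0 G + 1) ^ 2

/-- Size of the light items of class `V(c,i)`. -/
def AV (c i : ℕ) : ℕ := 8 * uu G + 32 * code G (idV G c i) + (2 - G.w c i)

/-- Size of the light items of class `C(c,i)`. -/
def AC (c i : ℕ) : ℕ := 8 * uu G + 32 * code G (idC G c i)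

/-- Side lengths of the hexagon of the bin `(c,i)`. -/
def lT (c i : ℕ) : ℕ := AV G c i + 2

@[inherit_doc lT]
def lUR (c i : ℕ) : ℕ := AC G c i + 1

@[inherit_doc lT]
def lLL (c i : ℕ) : ℕ := AV G (c - 1) i + G.w (c - 1) i - 1

@[inherit_doc lT]
def lUL (c i : ℕ) : ℕ := AC G c (i - 1) + 1

@[inherit_doc lT]
def lLR (c i : ℕ) : ℕ := lUL G c i + lLL G c i - lUR G c i

@[inherit_doc lT]
def lB (c i : ℕ) : ℕ := lT G c i + lUR G c i - lLL G c i

/-- Number of lattice points of the hexagon `0 ≤ x ≤ x1`, `0 ≤ y ≤ y1`, `s0 ≤ x + y ≤ x1 + y1 - r`. -/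
def hexN (x1 y1 s0 r : ℕ) : ℕ := (x1 + 1) * (y1 + 1) - s0 * (s0 + 1) / 2 - r * (r + 1) / 2

/-- Perimeter of the bin `(c,i)`. -/
def pp (c i : ℕ) : ℕ := 2 * lT G c i + 2 * lUL G c i + lUR G c i + lLL G c i

/-- Size of the chord of the bin `(c,i)`. -/
def cc (c i : ℕ) : ℕ :=
  hexN (lT G c i + lUR G c i) (lUL G c i + lLL G c i) (lLL G c i) (lUR G c i) - (pp G c i - 2)

/-- Labels of blocks: heavy and light items of the classes `V(c,i)`, `C(c,i)`, the two fillers and
the chord of the bin `(c,i)`. -/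
inductive Lab : Type
  | vH (c i : ℕ) : Lab
  | vL (c i : ℕ) : Lab
  | cH (c i : ℕ) : Lab
  | cL (c i : ℕ) : Lab
  | lr (c i : ℕ) : Lab
  | b (c i : ℕ) : Lab
  | ch (c i : ℕ) : Lab
  deriving DecidableEq

/-- Is the block an item? -/
def Lab.item : Lab → Bool
  | .ch _ _ => false
  | _ => true

/-- The size of a block. -/
def Lab.size : Lab → ℕ
  | .vH c i => AV G c i + G.w c i
  | .vL c i => AV G c i
  | .cH c i => AC G c i + 1
  | .cL c i => AC G c i
  | .lr c i => lLR G c i
  | .b c i => lB G c i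
  | .ch c i => cc G c i

/-- The block data of the instance. -/
def bd : BlkData Lab := ⟨Lab.item, Lab.size G⟩

/-- Is the bin in column `s` and with row number `c` a real bin `(c, s - c)`? -/
def real (s c : ℕ) : Bool := decide (c ≤ s ∧ 1 ≤ c ∧ c ≤ G.M ∧ 1 ≤ s - c ∧ s - c ≤ G.N)

/-- First token of the `C`-gadget of the group `(s,c)`. -/
def tokCa (s c : ℕ) : Tok Lab :=
  if real G s c then
    if real G (s + 1) c then .blk (.cH c (s - c))
    else if G.hR c = 1 then .blk (.cH c (s - c)) else .gap (16 * uu G - 1)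
  else if real G (s + 1) c then
    if G.hL c = 1 then .gap (16 * uu G - 3) else .blk (.cH c (s - c))
  else .gap (16 * uu G - 1)

/-- Second token of the `C`-gadget of the group `(s,c)`. -/
def tokCb (s c : ℕ) : Tok Lab :=
  if real G s c then
    if real G (s + 1) c then .blk (.cL c (s - c))
    else if G.hR c = 1 then .gap (16 * uu G - 1) else .blk (.cL c (s - c))
  else if real G (s + 1) c then
    if G.hL c = 1 then .blk (.cL c (s - c)) else .gap (16 * uu G - 3)
  else .gap (16 * uu G - 3)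

/-- The tokens of the group `(s,c)`. -/
def grp (s c : ℕ) : List (Tok Lab) :=
  [ .gap (38 * uu G),
    if real G s c then .blk (.lr c (s - c)) else .gap (16 * uu G - 1),
    .gap (86 * uu G),
    tokCa G s c,
    .gap (96 * uu G),
    tokCb G s c,
    .gap (107 * uu G),
    if real G (s + 1) (c + 1) then .blk (.b (c + 1) (s - c)) else .gap (16 * uu G - 1),
    .gap (109 * uu G),
    if real G (s + 1) (c + 1) then .blk (.vH c (s - c)) else .gap (16 * uu G + 1),
    .gap (96 * uu G),
    if real G s c then .blk (.ch c (s - c)) else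
      .gap (hexN (16 * uu G) (16 * uu G) (8 * uu G) (8 * uu G) - (48 * uu G - 2)),
    .gap (116 * uu G),
    if real G s c then .blk (.vL c (s - c)) else .gap (16 * uu G - 5),
    .gap (57 * uu G) ]

/-- The tokens of the corridor `s`. -/
def cor (s : ℕ) : List (Tok Lab) := (List.range (G.M + 1)).flatMap (grp G s)

/-- The tokens of two consecutive corridors. -/
def cor2 (r : ℕ) : List (Tok Lab) :=
  cor G (2 * r) ++ Tok.gap (144 * uu G + 1) ::
    ((cor G (2 * r + 1)).reverse ++ [Tok.gap (100 * uu G - 1)])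

/-- All tokens. -/
def toks : List (Tok Lab) := (List.range (G.M + G.N)).flatMap (cor2 G)

/-- The word of the grid instance. -/
def gword : List Bool := (bd G).word (toks G)

/-- The target number of contacts of the grid instance. -/
def gK : ℕ := (bd G).K (toks G)

end Pool.Agent.H329
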