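import Pool.Agent.H329.Spec

/-!
# The token list of an instance
-/

namespace Pool.Agent.H329

namespace InstPAux

attribute [local irreducible] uu D0 RR code n0

/-- Position of the group in which a label occurs. -/
def key : Lab → ℕ × ℕ
  | .vH c i => (c, i)
  | .vL c i => (c, i)
  | .cH c i => (c, i)
  | .cL c i => (c, i)
  | .lr c i => (c, i)
  | .b c i => (c - 1, i)
  | .ch c i => (c, i)

theorem real_iff (G : Grid) (s c : ℕ) : real G s c = true ↔
    (c ≤ s ∧ 1 ≤ c ∧ c ≤ G.M ∧ 1 ≤ s - c ∧ s - c ≤ G.N) := by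
  simp [real]

theorem real_not (G : Grid) (s c : ℕ) : real G s c = false ↔
    ¬ (c ≤ s ∧ 1 ≤ c ∧ c ≤ G.M ∧ 1 ≤ s - c ∧ s - c ≤ G.N) := by
  rw [← real_iff]; simp

/-- A list is alternating: starts and ends with a gap. -/
structure Alt {ι : Type} (l : List (Tok ι)) : Prop where
  head : ∀ x ∈ l.head?, x.isGap = true
  last : ∀ x ∈ l.getLast?, x.isGap = true
  chain : l.IsChain fun a b => a.isGap = true ∨ b.isGap = true
  two : ∀ n, Tok.gap n ∈ l → 2 ≤ n

theorem Alt.nil {ι : Type} : Alt ([] : List (Tok ι)) := by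
  refine ⟨by simp, by simp, by simp, by simp⟩

theorem Alt.append {ι : Type} {l₁ l₂ : List (Tok ι)} (h₁ : Alt l₁) (h₂ : Alt l₂) :
    Alt (l₁ ++ l₂) := by
  refine ⟨?_, ?_, ?_, ?_⟩
  · intro x hx
    rw [List.head?_append] at hx
    cases h : l₁.head? with
    | none => rw [h] at hx; exact h₂.head x (by simpa using hx)
    | some y => rw [h] at hx; exact h₁.head x (by rw [h]; simpa using hx)
  · intro x hx
    rw [List.getLast?_append] at hx
    cases h : l₂.getLast? with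
    | none => rw [h] at hx; exact h₁.last x (by simpa using hx)
    | some y => rw [h] at hx; exact h₂.last x (by rw [h]; simpa using hx)
  · rw [List.isChain_append]
    exact ⟨h₁.chain, h₂.chain, fun x hx y _ => Or.inl (h₁.last x hx)⟩
  · intro n hn
    rcases List.mem_append.mp hn with h | h
    · exact h₁.two n h
    · exact h₂.two n h

theorem Alt.reverse {ι : Type} {l : List (Tok ι)} (h : Alt l) : Alt l.reverse := by
  refine ⟨?_, ?_, ?_, ?_⟩
  · intro x hx
    rw [List.head?_reverse] at hx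
    exact h.last x hx
  · intro x hx
    rw [List.getLast?_reverse] at hx
    exact h.head x hx
  · rw [List.isChain_reverse]
    exact h.chain.imp fun a b hab => hab.symm
  · intro n hn
    exact h.two n (List.mem_reverse.mp hn)

theorem Alt.flatMap {ι α : Type} (l : List α) (f : α → List (Tok ι)) (h : ∀ x ∈ l, Alt (f x)) :
    Alt (l.flatMap f) := by
  induction l with
  | nil => exact Alt.nil
  | cons a l ih =>
    rw [List.flatMap_cons]
    exact (h a (by simp)).append (ih fun x hx => h x (by simp [hx]))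

theorem Alt.gap {ι : Type} {n : ℕ} (hn : 2 ≤ n) : Alt ([Tok.gap n] : List (Tok ι)) := by
  refine ⟨by simp [Tok.isGap], by simp [Tok.isGap], by simp, ?_⟩
  intro m hm
  simp at hm
  omega

/-- gap, anything, rest -/
theorem Alt.cons2 {ι : Type} {n : ℕ} (hn : 2 ≤ n) (x : Tok ι) (hx : ∀ m, x = Tok.gap m → 2 ≤ m)
    {l : List (Tok ι)} (h : Alt l) (hl : l ≠ []) : Alt (Tok.gap n :: x :: l) := by
  refine ⟨by simp [Tok.isGap], ?_, ?_, ?_⟩
  · intro y hy
    have : (Tok.gap n :: x :: l).getLast? = l.getLast? := by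
      obtain ⟨z, t, rfl⟩ := List.exists_cons_of_ne_nil hl
      simp [List.getLast?_cons_cons]
    rw [this] at hy
    exact h.last y hy
  · obtain ⟨z, t, rfl⟩ := List.exists_cons_of_ne_nil hl
    rw [List.isChain_cons_cons, List.isChain_cons_cons]
    exact ⟨Or.inl rfl, Or.inr (h.head z (by simp)), h.chain⟩
  · intro m hm
    rcases List.mem_cons.mp hm with h1 | h1
    · cases h1; exact hn
    · rcases List.mem_cons.mp h1 with h2 | h2
      · exact hx m h2.symm
      · exact h.two m h2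

theorem uu_ge (G : Grid) : 100 ≤ uu G := by
  rw [uu.eq_1]
  have : 1 ≤ (D0 G + 1) ^ 2 := Nat.one_le_pow _ _ (by omega)
  omega

theorem hex_gap {u : ℕ} (hu : 100 ≤ u) :
    2 ≤ hexN (16 * u) (16 * u) (8 * u) (8 * u) - (48 * u - 2) := by
  unfold hexN
  have e : 8 * u * (8 * u + 1) / 2 = 4 * u * (8 * u + 1) := by
    have : 8 * u * (8 * u + 1) = 2 * (4 * u * (8 * u + 1)) := by ring
    rw [this, Nat.mul_div_cancel_left _ (by norm_num)]
  rw [e]
  have h2 : (16 * u + 1) * (16 * u + 1) = 256 * (u * u) + 32 * u + 1 := by ring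
  have h3 : 4 * u * (8 * u + 1) = 32 * (u * u) + 4 * u := by ring
  rw [h2, h3]
  have h4 : 100 * u ≤ u * u := Nat.mul_le_mul_right u hu
  omega

theorem ca_gap (G : Grid) (s c m : ℕ) (h : tokCa G s c = Tok.gap m) : 2 ≤ m := by
  have hu := uu_ge G
  unfold tokCa at h
  split_ifs at h
  all_goals first
    | (simp only [reduceCtorEq] at h)
    | (simp only [Tok.gap.injEq] at h; omega)

theorem cb_gap (G : Grid) (s c m : ℕ) (h : tokCb G s c = Tok.gap m) : 2 ≤ m := by
  have hu := uu_ge G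
  unfold tokCb at h
  split_ifs at h
  all_goals first
    | (simp only [reduceCtorEq] at h)
    | (simp only [Tok.gap.injEq] at h; omega)

theorem ite_gap {p : Prop} [Decidable p] {j : Lab} {n m : ℕ} (hn : 2 ≤ n)
    (h : (if p then Tok.blk j else Tok.gap n) = Tok.gap m) : 2 ≤ m := by
  split_ifs at h
  · simp only [Tok.gap.injEq] at h; omega

theorem grp_ne (G : Grid) (s c : ℕ) : grp G s c ≠ [] := by simp [grp]

theorem grp_alt (G : Grid) (s c : ℕ) : Alt (grp G s c) := by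
  have hu := uu_ge G
  have hx := hex_gap hu
  unfold grp
  refine Alt.cons2 (by omega) _ (fun m h => ite_gap (by omega) h) ?_ (by simp)
  refine Alt.cons2 (by omega) _ (fun m h => ca_gap G s c m h) ?_ (by simp)
  refine Alt.cons2 (by omega) _ (fun m h => cb_gap G s c m h) ?_ (by simp)
  refine Alt.cons2 (by omega) _ (fun m h => ite_gap (by omega) h) ?_ (by simp)
  refine Alt.cons2 (by omega) _ (fun m h => ite_gap (by omega) h) ?_ (by simp)
  refine Alt.cons2 (by omega) _ (fun m h => ite_gap hx h) ?_ (by simp)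
  refine Alt.cons2 (by omega) _ (fun m h => ite_gap (by omega) h) ?_ (by simp)
  exact Alt.gap (by omega)

theorem cor_alt (G : Grid) (s : ℕ) : Alt (cor G s) :=
  Alt.flatMap _ _ fun c _ => grp_alt G s c

theorem cor2_alt (G : Grid) (r : ℕ) : Alt (cor2 G r) := by
  have hu := uu_ge G
  unfold cor2
  have e : Tok.gap (144 * uu G + 1) :: ((cor G (2 * r + 1)).reverse ++ [Tok.gap (100 * uu G - 1)]) =
      [Tok.gap (144 * uu G + 1)] ++ ((cor G (2 * r + 1)).reverse ++ [Tok.gap (100 * uu G - 1)]) :=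
    rfl
  rw [e]
  exact (cor_alt G _).append ((Alt.gap (by omega)).append
    ((cor_alt G _).reverse.append (Alt.gap (by omega))))

theorem toks_alt (G : Grid) : Alt (toks G) := Alt.flatMap _ _ fun r _ => cor2_alt G r

theorem Alt.sep {ι : Type} {l : List (Tok ι)} (h : Alt l) (hl : l ≠ []) : Sep l := by
  refine ⟨?_, ?_, h.chain, h.two⟩
  · obtain ⟨z, t, rfl⟩ := List.exists_cons_of_ne_nil hl
    have := h.head z (by simp)
    cases z with
    | gap n => exact ⟨n, t, rfl⟩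
    | blk j => simp [Tok.isGap] at this
  · have h1 := List.dropLast_append_getLast hl
    have h2 := h.last (l.getLast hl) (by rw [List.getLast?_eq_getLast_of_ne_nil hl]; rfl)
    cases h3 : l.getLast hl with
    | gap n =>
      refine ⟨n, l.dropLast, ?_⟩
      rw [← h3]
      exact h1.symm
    | blk j => rw [h3] at h2; simp [Tok.isGap] at h2

theorem toks_ne (G : Grid) (hG : G.Valid) : toks G ≠ [] := by
  intro h
  unfold toks at h
  rw [List.flatMap_eq_nil_iff] at h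
  have := h 0 (by rw [List.mem_range]; have := hG.M_pos; omega)
  simp [cor2] at this

/-! ### Labels -/

theorem labels_append {ι : Type} (l₁ l₂ : List (Tok ι)) :
    labels (l₁ ++ l₂) = labels l₁ ++ labels l₂ := by simp [labels]

theorem labels_flatMap {ι α : Type} (l : List α) (f : α → List (Tok ι)) :
    labels (l.flatMap f) = l.flatMap fun x => labels (f x) := by
  simp [labels, List.flatMap_assoc]

theorem labels_reverse {ι : Type} (l : List (Tok ι)) : labels l.reverse = (labels l).reverse := by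
  unfold labels
  rw [List.reverse_flatMap]
  congr 1
  funext x
  cases x <;> simp [Tok.labs]

theorem mem_labs_ite {p : Prop} [Decidable p] {j x : Lab} {n : ℕ} :
    j ∈ Tok.labs (if p then Tok.blk x else Tok.gap n) ↔ p ∧ j = x := by
  split_ifs with h <;> simp [Tok.labs, h]

theorem labs_gap {ι : Type} (n : ℕ) : Tok.labs (Tok.gap n : Tok ι) = [] := rfl

theorem mem_ca (G : Grid) (s c : ℕ) (j : Lab) : j ∈ Tok.labs (tokCa G s c) ↔
    ((real G s c = true ∧ real G (s + 1) c = true) ∨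
      (real G s c = true ∧ ¬ real G (s + 1) c = true ∧ G.hR c = 1) ∨
      (¬ real G s c = true ∧ real G (s + 1) c = true ∧ G.hL c ≠ 1)) ∧ j = .cH c (s - c) := by
  unfold tokCa
  split_ifs <;> simp_all [Tok.labs]

theorem mem_cb (G : Grid) (s c : ℕ) (j : Lab) : j ∈ Tok.labs (tokCb G s c) ↔
    ((real G s c = true ∧ real G (s + 1) c = true) ∨
      (real G s c = true ∧ ¬ real G (s + 1) c = true ∧ G.hR c ≠ 1) ∨
      (¬ real G s c = true ∧ real G (s + 1) c = true ∧ G.hL c = 1)) ∧ j = .cL c (s - c) := by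
  unfold tokCb
  split_ifs <;> simp_all [Tok.labs]

theorem real0 (G : Grid) (c i : ℕ) : real G (c + i) c = true ↔
    1 ≤ c ∧ c ≤ G.M ∧ 1 ≤ i ∧ i ≤ G.N := by
  rw [real_iff]
  constructor
  · rintro ⟨h1, h2, h3, h4, h5⟩
    refine ⟨h2, h3, ?_, ?_⟩ <;> omega
  · rintro ⟨h2, h3, h4, h5⟩
    refine ⟨?_, h2, h3, ?_, ?_⟩ <;> omega

theorem real1 (G : Grid) (c i : ℕ) : real G (c + i + 1) c = true ↔
    1 ≤ c ∧ c ≤ G.M ∧ i + 1 ≤ G.N := by
  rw [real_iff]
  constructor
  · rintro ⟨h1, h2, h3, h4, h5⟩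
    refine ⟨h2, h3, ?_⟩
    omega
  · rintro ⟨h2, h3, h4⟩
    refine ⟨?_, h2, h3, ?_, ?_⟩ <;> omega

theorem real2 (G : Grid) (c i : ℕ) : real G (c + i + 1) (c + 1) = true ↔
    c + 1 ≤ G.M ∧ 1 ≤ i ∧ i ≤ G.N := by
  rw [real_iff]
  constructor
  · rintro ⟨h1, h2, h3, h4, h5⟩
    refine ⟨h3, ?_, ?_⟩ <;> omega
  · rintro ⟨h2, h3, h4⟩
    refine ⟨?_, ?_, h2, ?_, ?_⟩ <;> omega

theorem realn (G : Grid) {s c : ℕ} (h : s < c) : ¬ real G s c = true ∧ ¬ real G (s + 1) c = true ∧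
    ¬ real G (s + 1) (c + 1) = true := by
  rw [real_iff, real_iff, real_iff]
  refine ⟨?_, ?_, ?_⟩
  · rintro ⟨h1, -⟩; omega
  · rintro ⟨-, -, -, h1, -⟩; omega
  · rintro ⟨h1, -⟩; omega

theorem mem_grp (G : Grid) (hN : 1 ≤ G.N) (s c : ℕ) (j : Lab) :
    j ∈ labels (grp G s c) ↔ LabOk G j ∧ c ≤ s ∧ key j = (c, s - c) := by
  have e : j ∈ labels (grp G s c) ↔ (real G s c = true ∧ j = .lr c (s - c)) ∨
      j ∈ Tok.labs (tokCa G s c) ∨ j ∈ Tok.labs (tokCb G s c) ∨
      (real G (s + 1) (c + 1) = true ∧ j = .b (c + 1) (s - c)) ∨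
      (real G (s + 1) (c + 1) = true ∧ j = .vH c (s - c)) ∨
      (real G s c = true ∧ j = .ch c (s - c)) ∨ (real G s c = true ∧ j = .vL c (s - c)) := by
    unfold labels grp
    simp only [List.flatMap_cons, List.flatMap_nil, List.mem_append, mem_labs_ite, labs_gap,
      List.not_mem_nil, false_or, or_false]
  rw [e, mem_ca, mem_cb]
  clear e
  rcases Nat.lt_or_ge s c with hsc | hsc
  · obtain ⟨h1, h2, h3⟩ := realn G hsc
    simp [h1, h2, h3, Nat.not_le.mpr hsc]
  obtain ⟨i, rfl⟩ := Nat.exists_eq_add_of_le hsc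
  rw [real0, real1, real2, Nat.add_sub_cancel_left]
  cases j <;> simp only [LabOk, key, reduceCtorEq, and_false, false_or, or_false, Lab.vH.injEq,
    Lab.vL.injEq, Lab.cH.injEq, Lab.cL.injEq, Lab.lr.injEq, Lab.b.injEq, Lab.ch.injEq,
    Prod.mk.injEq, Nat.le_add_right, true_and]
  case vH c' i' =>
    constructor
    · rintro ⟨h, rfl, rfl⟩; exact ⟨h, rfl, rfl⟩
    · rintro ⟨h, rfl, rfl⟩; exact ⟨h, rfl, rfl⟩
  case vL c' i' =>
    constructor
    · rintro ⟨h, rfl, rfl⟩; exact ⟨h, rfl, rfl⟩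
    · rintro ⟨h, rfl, rfl⟩; exact ⟨h, rfl, rfl⟩
  case cH c' i' =>
    constructor
    · rintro ⟨h, rfl, rfl⟩
      refine ⟨?_, rfl, rfl⟩
      rcases h with ⟨⟨h1, h2, h3, h4⟩, -, -, h5⟩ | ⟨⟨h1, h2, h3, h4⟩, h5, h6⟩ | ⟨h5, ⟨h1, h2, h3⟩, h6⟩
      · exact ⟨h1, h2, Or.inl ⟨h3, h5⟩⟩
      · refine ⟨h1, h2, Or.inr (Or.inr ⟨?_, h6⟩)⟩
        by_contra h7
        exact h5 ⟨h1, h2, by omega⟩
      · refine ⟨h1, h2, Or.inr (Or.inl ⟨?_, h6⟩)⟩
        by_contra h7
        exact h5 ⟨h1, h2, by omega, by omega⟩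
    · rintro ⟨⟨h1, h2, h⟩, rfl, rfl⟩
      refine ⟨?_, rfl, rfl⟩
      rcases h with ⟨h3, h4⟩ | ⟨h3, h4⟩ | ⟨h3, h4⟩
      · exact Or.inl ⟨⟨h1, h2, h3, by omega⟩, h1, h2, h4⟩
      · refine Or.inr (Or.inr ⟨?_, ⟨h1, h2, by omega⟩, h4⟩)
        rintro ⟨-, -, h5, -⟩
        omega
      · refine Or.inr (Or.inl ⟨⟨h1, h2, by omega, by omega⟩, ?_, h4⟩)
        rintro ⟨-, -, h5⟩
        omega
  case cL c' i' =>
    constructor
    · rintro ⟨h, rfl, rfl⟩
      refine ⟨?_, rfl, rfl⟩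
      rcases h with ⟨⟨h1, h2, h3, h4⟩, -, -, h5⟩ | ⟨⟨h1, h2, h3, h4⟩, h5, h6⟩ | ⟨h5, ⟨h1, h2, h3⟩, h6⟩
      · exact ⟨h1, h2, Or.inl ⟨h3, h5⟩⟩
      · refine ⟨h1, h2, Or.inr (Or.inr ⟨?_, h6⟩)⟩
        by_contra h7
        exact h5 ⟨h1, h2, by omega⟩
      · refine ⟨h1, h2, Or.inr (Or.inl ⟨?_, h6⟩)⟩
        by_contra h7
        exact h5 ⟨h1, h2, by omega, by omega⟩
    · rintro ⟨⟨h1, h2, h⟩, rfl, rfl⟩
      refine ⟨?_, rfl, rfl⟩
      rcases h with ⟨h3, h4⟩ | ⟨h3, h4⟩ | ⟨h3, h4⟩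
      · exact Or.inl ⟨⟨h1, h2, h3, by omega⟩, h1, h2, h4⟩
      · refine Or.inr (Or.inr ⟨?_, ⟨h1, h2, by omega⟩, h4⟩)
        rintro ⟨-, -, h5, -⟩
        omega
      · refine Or.inr (Or.inl ⟨⟨h1, h2, by omega, by omega⟩, ?_, h4⟩)
        rintro ⟨-, -, h5⟩
        omega
  case lr c' i' =>
    constructor
    · rintro ⟨h, rfl, rfl⟩; exact ⟨h, rfl, rfl⟩
    · rintro ⟨h, rfl, rfl⟩; exact ⟨h, rfl, rfl⟩
  case b c' i' =>
    constructor
    · rintro ⟨⟨h1, h2, h3⟩, rfl, rfl⟩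
      exact ⟨⟨by omega, h1, h2, h3⟩, by omega, rfl⟩
    · rintro ⟨⟨h0, h1, h2, h3⟩, h4, rfl⟩
      have : c' = c + 1 := by omega
      subst this
      exact ⟨⟨h1, h2, h3⟩, rfl, rfl⟩
  case ch c' i' =>
    constructor
    · rintro ⟨h, rfl, rfl⟩; exact ⟨h, rfl, rfl⟩
    · rintro ⟨h, rfl, rfl⟩; exact ⟨h, rfl, rfl⟩

theorem nodup_labs_ite {p : Prop} [Decidable p] {x : Lab} {n : ℕ} :
    (Tok.labs (if p then Tok.blk x else Tok.gap n)).Nodup := by
  split_ifs <;> simp [Tok.labs]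

theorem nodup_labs {ι : Type} (x : Tok ι) : (Tok.labs x).Nodup := by
  cases x <;> simp [Tok.labs]

/-- constructor number -/
def tag : Lab → ℕ
  | .lr _ _ => 0
  | .cH _ _ => 1
  | .cL _ _ => 2
  | .b _ _ => 3
  | .vH _ _ => 4
  | .ch _ _ => 5
  | .vL _ _ => 6

theorem sub_ite {p : Prop} [Decidable p] {x : Lab} {n : ℕ} :
    ((Tok.labs (if p then Tok.blk x else Tok.gap n)).map tag).Sublist [tag x] := by
  split_ifs <;> simp [Tok.labs]

theorem sub_ca (G : Grid) (s c : ℕ) : ((Tok.labs (tokCa G s c)).map tag).Sublist [1] := by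
  unfold tokCa
  split_ifs <;> simp [Tok.labs, tag]

theorem sub_cb (G : Grid) (s c : ℕ) : ((Tok.labs (tokCb G s c)).map tag).Sublist [2] := by
  unfold tokCb
  split_ifs <;> simp [Tok.labs, tag]

theorem nodup_aux (n0 n1 n2 n3 n4 n5 n6 n7 : ℕ) (t0 t1 t2 t3 t4 t5 t6 : Tok Lab)
    (h0 : (t0.labs.map tag).Sublist [0]) (h1 : (t1.labs.map tag).Sublist [1])
    (h2 : (t2.labs.map tag).Sublist [2]) (h3 : (t3.labs.map tag).Sublist [3])
    (h4 : (t4.labs.map tag).Sublist [4]) (h5 : (t5.labs.map tag).Sublist [5])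
    (h6 : (t6.labs.map tag).Sublist [6]) :
    (labels [.gap n0, t0, .gap n1, t1, .gap n2, t2, .gap n3, t3, .gap n4, t4, .gap n5, t5,
      .gap n6, t6, .gap n7]).Nodup := by
  have h : ((labels [.gap n0, t0, .gap n1, t1, .gap n2, t2, .gap n3, t3, .gap n4, t4, .gap n5, t5,
      .gap n6, t6, .gap n7]).map tag).Sublist [0, 1, 2, 3, 4, 5, 6] := by
    unfold labels
    simp only [List.flatMap_cons, List.flatMap_nil, labs_gap, List.nil_append, List.append_nil,
      List.map_append]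
    exact h0.append (h1.append (h2.append (h3.append (h4.append (h5.append h6)))))
  exact List.Nodup.of_map tag (h.nodup (by decide))

theorem grp_nodup (G : Grid) (s c : ℕ) : (labels (grp G s c)).Nodup := by
  unfold grp
  exact nodup_aux _ _ _ _ _ _ _ _ _ _ _ _ _ _ _ sub_ite (sub_ca G s c) (sub_cb G s c) sub_ite
    sub_ite sub_ite sub_ite

theorem disj_of_key {l₁ l₂ : List Lab} {P : ℕ × ℕ → Prop} (h₁ : ∀ j ∈ l₁, P (key j))
    (h₂ : ∀ j ∈ l₂, ¬ P (key j)) : l₁.Disjoint l₂ := fun j hj hj' => h₂ j hj' (h₁ j hj)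

theorem mem_cor (G : Grid) (hN : 1 ≤ G.N) (s : ℕ) (j : Lab) :
    j ∈ labels (cor G s) ↔ LabOk G j ∧ (key j).1 + (key j).2 = s := by
  unfold cor
  rw [labels_flatMap, List.mem_flatMap]
  constructor
  · rintro ⟨c, -, h⟩
    rw [mem_grp G hN] at h
    obtain ⟨h1, h2, h3⟩ := h
    refine ⟨h1, ?_⟩
    rw [h3]
    simp only
    omega
  · rintro ⟨h1, h2⟩
    refine ⟨(key j).1, ?_, ?_⟩
    · rw [List.mem_range]
      cases j <;> simp only [LabOk, key] at h1 ⊢ <;> omega
    · rw [mem_grp G hN]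
      refine ⟨h1, by omega, ?_⟩
      ext
      · rfl
      · simp only
        omega

theorem cor_nodup (G : Grid) (hN : 1 ≤ G.N) (s : ℕ) : (labels (cor G s)).Nodup := by
  unfold cor
  rw [labels_flatMap, List.nodup_flatMap]
  refine ⟨fun c _ => grp_nodup G s c, ?_⟩
  refine List.Nodup.pairwise_of_forall_ne List.nodup_range ?_
  intro a _ b _ hab j hj hj'
  rw [mem_grp G hN] at hj hj'
  apply hab
  have := hj.2.2.symm.trans hj'.2.2
  exact (Prod.mk.injEq _ _ _ _ ▸ this).1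

theorem labels_cor2 (G : Grid) (r : ℕ) : labels (cor2 G r) =
    labels (cor G (2 * r)) ++ (labels (cor G (2 * r + 1))).reverse := by
  unfold cor2
  rw [labels_append]
  have e : labels (Tok.gap (144 * uu G + 1) ::
      ((cor G (2 * r + 1)).reverse ++ [Tok.gap (100 * uu G - 1)])) =
      labels ((cor G (2 * r + 1)).reverse ++ [Tok.gap (100 * uu G - 1)]) := by
    unfold labels
    rw [List.flatMap_cons, labs_gap, List.nil_append]
  rw [e, labels_append, labels_reverse]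
  simp [labels, labs_gap]

theorem mem_cor2 (G : Grid) (hN : 1 ≤ G.N) (r : ℕ) (j : Lab) :
    j ∈ labels (cor2 G r) ↔ LabOk G j ∧ ((key j).1 + (key j).2) / 2 = r := by
  rw [labels_cor2, List.mem_append, List.mem_reverse, mem_cor G hN, mem_cor G hN]
  constructor
  · rintro (⟨h1, h2⟩ | ⟨h1, h2⟩)
    · exact ⟨h1, by omega⟩
    · exact ⟨h1, by omega⟩
  · rintro ⟨h1, h2⟩
    rcases Nat.mod_two_eq_zero_or_one ((key j).1 + (key j).2) with h | h
    · exact Or.inl ⟨h1, by omega⟩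
    · exact Or.inr ⟨h1, by omega⟩

theorem cor2_nodup (G : Grid) (hN : 1 ≤ G.N) (r : ℕ) : (labels (cor2 G r)).Nodup := by
  rw [labels_cor2, List.nodup_append]
  refine ⟨cor_nodup G hN _, List.nodup_reverse.mpr (cor_nodup G hN _), ?_⟩
  intro j hj j' hj' he
  subst he
  rw [List.mem_reverse, mem_cor G hN] at hj'
  rw [mem_cor G hN] at hj
  omega

theorem mem_toks (G : Grid) (hG : G.Valid) (j : Lab) : j ∈ labels (toks G) ↔ LabOk G j := by
  have hN := hG.N_pos
  unfold toks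
  rw [labels_flatMap, List.mem_flatMap]
  constructor
  · rintro ⟨r, -, h⟩
    exact ((mem_cor2 G hN r j).mp h).1
  · intro h
    refine ⟨((key j).1 + (key j).2) / 2, ?_, (mem_cor2 G hN _ j).mpr ⟨h, rfl⟩⟩
    rw [List.mem_range]
    have : (key j).1 + (key j).2 < 2 * (G.M + G.N) := by
      have := hG.M_pos
      cases j <;> simp only [LabOk, key] at h ⊢ <;> omega
    omega

theorem toks_nodup (G : Grid) (hG : G.Valid) : (labels (toks G)).Nodup := by
  have hN := hG.N_pos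
  unfold toks
  rw [labels_flatMap, List.nodup_flatMap]
  refine ⟨fun r _ => cor2_nodup G hN r, ?_⟩
  refine List.Nodup.pairwise_of_forall_ne List.nodup_range ?_
  intro a _ b _ hab j hj hj'
  rw [mem_cor2 G hN] at hj hj'
  exact hab (hj.2.symm.trans hj'.2)

end InstPAux

theorem Inst_proof : S_Inst := fun G hG =>
  ⟨(InstPAux.toks_alt G).sep (InstPAux.toks_ne G hG), InstPAux.toks_nodup G hG,
    InstPAux.mem_toks G hG⟩

end Pool.Agent.H329
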