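import Pool.Agent.H329.Spec
import Pool.Agent.H329.ChgSum

/-!
Project HP folding (MP_dec383_lc), job Local. Owner helper329.
Proof (paper 123, section 1(a)). Put need x = 1 if x in A else 0. Call x solitary if for all d: (x in S iff x + dir d not in S), i.e. all six neighbours are of
the other type (type = membership in S). (1) If x is not solitary then chg S x >= need x + sol x, where sol x = number of d such that y = x + dir d is
solitary, of the other type, and not link x y. Reason: for such d, the neighbours x + dir (d-1), x + dir (d+1) of x are also neighbours of y, hence of the type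
of x. So around x the positions of the other type form cyclic runs, every such d is a run by itself, and if need x = 1 then a linked y0 of the other type
lies in another run; the number of runs is chg S x when x is not solitary (chg counts positions d with x+dir d in S and x+dir(d+1) not in S; the number of
positions with the roles exchanged is the same). (2) A neighbour of a solitary point is not solitary (same reason), and is of the other type.
(3) a solitary y has at least 4 neighbours x with not link x y (IsLink.deg). Sum over a large finite set U containing nbhd S, A, ...: bdry S =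
sum chg >= sum_{x not solitary} need x + sum_{x not solitary} sol x >= |A| - #{solitary in A} + 4 #solitary >= |A| + 3 #solitary. (All solitary x are in
nbhd S.) With bdry S <= |A|: no solitary point, and chg S x = need x for all x. Suggestion for (1): for fixed x everything depends only on the type of
x, the 6 types of the neighbours, and for each d the bit (solitary and unlinked), the bit (linked): a finite statement about functions Fin 6 -> Bool, which can be
proved by `decide` on Fin 6 -> Bool (64 cases times ...) or by the run argument: injection from the set of such d and the run of y0 to changes.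
Keep the statement of TARGET unchanged; auxiliary lemmas before it, in namespace Pool.Agent.H329.LocalAux.
-/

namespace Pool.Agent.H329


open Finset








namespace LocalAux

/-- a solitary point -/
def soli (S : Finset Pt) (x : Pt) : Prop := ∀ d : Fin 6, ¬ (x ∈ S ↔ x + dir d ∈ S)

instance (S : Finset Pt) (x : Pt) : Decidable (soli S x) := by unfold soli; infer_instance

theorem dir_two (d : Fin 6) : dir d + dir (d + 2) = dir (d + 1) := by
  revert d; decide

theorem dir_four (d : Fin 6) : dir d + dir (d + 4) = dir (d + 5) := by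
  revert d; decide

theorem dir_three (d : Fin 6) : dir d + dir (d + 3) = 0 := by
  revert d; decide

theorem dir_inj : ∀ d e : Fin 6, dir d = dir e → d = e := by decide

theorem finA : ∀ a0 a1 a2 a3 a4 a5 b : Bool, (∃ d, ![a0, a1, a2, a3, a4, a5] d = b) →
    ((univ : Finset (Fin 6)).filter fun d => ![a0, a1, a2, a3, a4, a5] d ≠ b ∧
      ![a0, a1, a2, a3, a4, a5] (d + 1) = b ∧ ![a0, a1, a2, a3, a4, a5] (d + 5) = b).card ≤
    ((univ : Finset (Fin 6)).filter fun d => ![a0, a1, a2, a3, a4, a5] d = true ∧
      ![a0, a1, a2, a3, a4, a5] (d + 1) = false).card := by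
  decide

theorem finB : ∀ a0 a1 a2 a3 a4 a5 b : Bool, (∃ d, ![a0, a1, a2, a3, a4, a5] d = b) →
    ∀ d0 : Fin 6, ![a0, a1, a2, a3, a4, a5] d0 ≠ b →
    ((univ : Finset (Fin 6)).filter fun d => ![a0, a1, a2, a3, a4, a5] d ≠ b ∧
      ![a0, a1, a2, a3, a4, a5] (d + 1) = b ∧ ![a0, a1, a2, a3, a4, a5] (d + 5) = b ∧
      d ≠ d0).card + 1 ≤
    ((univ : Finset (Fin 6)).filter fun d => ![a0, a1, a2, a3, a4, a5] d = true ∧
      ![a0, a1, a2, a3, a4, a5] (d + 1) = false).card := by
  decide

/-- the type of the neighbours as a vector -/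
theorem vec6 (a : Fin 6 → Bool) : ![a 0, a 1, a 2, a 3, a 4, a 5] = a := by
  funext i; fin_cases i <;> rfl

/-- the next neighbour of `x` is a neighbour of `x + dir d` -/
theorem nb1 (x : Pt) (d : Fin 6) : x + dir (d + 1) = x + dir d + dir (d + 2) := by
  rw [add_assoc, dir_two]

theorem nb5 (x : Pt) (d : Fin 6) : x + dir (d + 5) = x + dir d + dir (d + 4) := by
  rw [add_assoc, dir_four]

theorem nb0 (x : Pt) (d : Fin 6) : x = x + dir d + dir (d + 3) := by
  rw [add_assoc, dir_three, add_zero]

/-- around a solitary neighbour -/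
theorem soli_nb {S : Finset Pt} {x : Pt} {d : Fin 6} (h : soli S (x + dir d)) :
    ¬ (x ∈ S ↔ x + dir d ∈ S) ∧ (x + dir (d + 1) ∈ S ↔ x ∈ S) ∧ (x + dir (d + 5) ∈ S ↔ x ∈ S) := by
  have h1 := h (d + 2)
  have h2 := h (d + 4)
  have h3 := h (d + 3)
  rw [← nb1] at h1
  rw [← nb5] at h2
  rw [← nb0] at h3
  tauto

/-- a neighbour of a solitary point is not solitary -/
theorem soli_not {S : Finset Pt} {x : Pt} {d : Fin 6} (h : soli S (x + dir d)) : ¬ soli S x := by
  intro h'
  have h1 := soli_nb h
  have h2 := h' (d + 1)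
  tauto

open Classical in
/-- number of solitary unlinked neighbours -/
noncomputable def sol (S : Finset Pt) (link : Pt → Pt → Prop) (x : Pt) : Finset (Fin 6) :=
  (univ : Finset (Fin 6)).filter fun d => soli S (x + dir d) ∧ ¬ link x (x + dir d)

/-- claim (1) -/
theorem claim1 {S A : Finset Pt} {link : Pt → Pt → Prop} (hl : IsLink link)
    (hA : ∀ x, x ∈ A ↔ ∃ y, link x y ∧ (x ∈ S ↔ y ∉ S)) {x : Pt} (hx : ¬ soli S x) :
    (if x ∈ A then 1 else 0) + (sol S link x).card ≤ chg S x := by
  classical
  set a : Fin 6 → Bool := fun d => decide (x + dir d ∈ S) with ha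
  set b : Bool := decide (x ∈ S) with hb
  have hex : ∃ d, a d = b := by
    unfold soli at hx
    push Not at hx
    obtain ⟨d, hd⟩ := hx
    exact ⟨d, by simp only [ha, hb, decide_eq_decide]; tauto⟩
  have hchg : chg S x = ((univ : Finset (Fin 6)).filter fun d => a d = true ∧ a (d + 1) = false).card := by
    unfold chg
    congr 1
    apply filter_congr
    intro d _
    simp only [ha, decide_eq_true_eq, decide_eq_false_iff_not]
  have hv := vec6 a
  have hsol : ∀ d ∈ sol S link x, a d ≠ b ∧ a (d + 1) = b ∧ a (d + 5) = b := by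
    intro d hd
    rw [sol, mem_filter] at hd
    obtain ⟨h1, h2, h3⟩ := soli_nb hd.2.1
    simp only [ha, hb, ne_eq, decide_eq_decide]
    exact ⟨by tauto, h2, h3⟩
  by_cases hxA : x ∈ A
  · rw [if_pos hxA, hchg]
    obtain ⟨y, hy, hyS⟩ := (hA x).1 hxA
    obtain ⟨d0, rfl⟩ := (adj_iff_dir x y).1 (hl.adj x y hy)
    have hd0 : a d0 ≠ b := by
      simp only [ha, hb, ne_eq, decide_eq_decide]; tauto
    have h1 := finB (a 0) (a 1) (a 2) (a 3) (a 4) (a 5) b (by rw [hv]; exact hex) d0
      (by rw [hv]; exact hd0)
    rw [hv] at h1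
    refine le_trans ?_ h1
    rw [add_comm]
    apply Nat.add_le_add_right
    apply card_le_card
    intro d hd
    have h2 := hsol d hd
    rw [mem_filter]
    refine ⟨mem_univ _, h2.1, h2.2.1, h2.2.2, ?_⟩
    rintro rfl
    rw [sol, mem_filter] at hd
    exact hd.2.2 hy
  · rw [if_neg hxA, zero_add, hchg]
    have h1 := finA (a 0) (a 1) (a 2) (a 3) (a 4) (a 5) b (by rw [hv]; exact hex)
    rw [hv] at h1
    refine le_trans ?_ h1
    apply card_le_card
    intro d hd
    rw [mem_filter]
    exact ⟨mem_univ _, hsol d hd⟩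

open Classical in
/-- claim (3) -/
theorem claim3 {link : Pt → Pt → Prop} (hl : IsLink link) (y : Pt) :
    4 ≤ ((univ : Finset (Fin 6)).filter fun e => ¬ link (y + dir e) y).card := by
  have h1 : ((univ : Finset (Fin 6)).filter fun e => link (y + dir e) y).card ≤ 2 := by
    by_contra hcon
    push Not at hcon
    obtain ⟨e1, h1, e2, h2, e3, h3, h12, h13, h23⟩ := two_lt_card.1 hcon
    rw [mem_filter] at h1 h2 h3
    rcases hl.deg y _ _ _ (hl.symm _ _ h1.2) (hl.symm _ _ h2.2) (hl.symm _ _ h3.2) with h | h | h
    · exact h12 (dir_inj _ _ (add_left_cancel h))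
    · exact h13 (dir_inj _ _ (add_left_cancel h))
    · exact h23 (dir_inj _ _ (add_left_cancel h))
  have h2 := card_filter_add_card_filter_not (s := (univ : Finset (Fin 6))) (fun e => link (y + dir e) y)
  rw [card_univ, Fintype.card_fin] at h2
  omega

theorem mem_nbhd_of_chg {S : Finset Pt} {x : Pt} {d : Fin 6} (h : x + dir d ∈ S) : x ∈ nbhd S := by
  unfold nbhd
  rw [mem_union, mem_biUnion]
  right
  exact ⟨x + dir d, h, mem_image.2 ⟨d + 3, mem_univ _, (nb0 x d).symm⟩⟩

theorem soli_mem_nbhd {S : Finset Pt} {x : Pt} (h : soli S x) : x ∈ nbhd S := by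
  by_cases hx : x ∈ S
  · exact mem_union_left _ hx
  · have := h 0
    exact mem_nbhd_of_chg (d := 0) (by tauto)

end LocalAux

open LocalAux in
/-- TARGET -/
theorem Local_proof : S_Local := by
  classical
  intro S A link hl hA hle
  set N := nbhd S with hN
  set U : Finset Pt := (N ∪ A) ∪ N.biUnion fun p => univ.image fun d => p + dir d with hU
  have hNU : N ⊆ U := fun x hx => mem_union_left _ (mem_union_left _ hx)
  have hAU : A ⊆ U := fun x hx => mem_union_left _ (mem_union_right _ hx)
  have hnU : ∀ x ∈ N, ∀ d : Fin 6, x + dir d ∈ U := fun x hx d =>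
    mem_union_right _ (mem_biUnion.2 ⟨x, hx, mem_image.2 ⟨d, mem_univ _, rfl⟩⟩)
  have hsum := ChgSum_proof S U hNU
  set Sol : Finset Pt := N.filter fun x => soli S x with hSol
  have hSolmem : ∀ x, x ∈ Sol ↔ soli S x := fun x => by
    rw [hSol, mem_filter]
    exact ⟨fun h => h.2, fun h => ⟨soli_mem_nbhd h, h⟩⟩
  have hSolU : Sol ⊆ U := (filter_subset _ _).trans hNU
  -- double counting
  have hdc : 4 * Sol.card ≤ ∑ x ∈ U \ Sol, (sol S link x).card := by
    have h1 : 4 * Sol.card ≤ (Sol.sigma fun y =>
        (univ : Finset (Fin 6)).filter fun e => ¬ link (y + dir e) y).card := by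
      rw [card_sigma]
      have := card_nsmul_le_sum Sol (fun y => ((univ : Finset (Fin 6)).filter
        fun e => ¬ link (y + dir e) y).card) 4 (fun y _ => claim3 hl y)
      rw [smul_eq_mul, mul_comm] at this
      exact this
    refine h1.trans ?_
    rw [← card_sigma]
    apply card_le_card_of_injOn (fun q : (_ : Pt) × Fin 6 => (⟨q.1 + dir q.2, q.2 + 3⟩ : (_ : Pt) × Fin 6))
    · rintro ⟨y, e⟩ hq
      obtain ⟨hq1, hq2⟩ := mem_sigma.1 (mem_coe.1 hq)
      have hq3 : ¬ link (y + dir e) y := (mem_filter.1 hq2).2
      have hy : soli S y := (hSolmem y).1 hq1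
      have e1 : y + dir e + dir (e + 3) = y := (nb0 y e).symm
      rw [mem_coe, mem_sigma]
      simp only
      refine ⟨?_, ?_⟩
      · rw [mem_sdiff]
        refine ⟨hnU y (soli_mem_nbhd hy) e, ?_⟩
        rw [hSolmem]
        apply soli_not (d := e + 3)
        rw [e1]; exact hy
      · rw [sol, mem_filter, e1]
        exact ⟨mem_univ _, hy, hq3⟩
    · rintro ⟨y, e⟩ _ ⟨z, f⟩ _ h
      simp only [Sigma.mk.injEq, heq_eq_eq] at h
      obtain ⟨h1, h2⟩ := h
      have h3 : e = f := add_right_cancel h2
      subst h3
      rw [add_right_cancel h1]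
  -- lower bound
  have hlow : ∑ x ∈ U \ Sol, ((if x ∈ A then 1 else 0) + (sol S link x).card) ≤
      ∑ x ∈ U \ Sol, chg S x := by
    apply sum_le_sum
    intro x hx
    rw [mem_sdiff, hSolmem] at hx
    exact claim1 hl hA hx.2
  rw [sum_add_distrib] at hlow
  have hsplit : ∑ x ∈ U \ Sol, chg S x + ∑ x ∈ Sol, chg S x = ∑ x ∈ U, chg S x :=
    sum_sdiff hSolU
  have hAc : A.card ≤ ∑ x ∈ U \ Sol, (if x ∈ A then 1 else 0) + Sol.card := by
    rw [← card_filter]
    refine (card_le_card ?_).trans (card_union_le _ _)
    intro x hx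
    rw [mem_union, mem_filter, mem_sdiff]
    by_cases h : x ∈ Sol
    · exact Or.inr h
    · exact Or.inl ⟨⟨hAU hx, h⟩, hx⟩
  have hSol0 : Sol.card = 0 := by omega
  have hnot : ∀ x, ¬ soli S x := by
    intro x hx
    rw [← hSolmem, card_eq_zero.1 hSol0] at hx
    exact absurd hx (notMem_empty _)
  have hone : ∀ x, (if x ∈ A then 1 else 0) ≤ chg S x := fun x =>
    le_trans (Nat.le_add_right _ _) (claim1 hl hA (hnot x))
  have hAU' : ∑ x ∈ U, (if x ∈ A then 1 else 0) = A.card := by
    rw [← card_filter]
    congr 1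
    ext x
    rw [mem_filter]
    exact ⟨fun h => h.2, fun h => ⟨hAU h, h⟩⟩
  have heq : ∀ x ∈ U, (if x ∈ A then 1 else 0) = chg S x := by
    rw [← sum_eq_sum_iff_of_le (fun x _ => hone x)]
    apply le_antisymm (sum_le_sum fun x _ => hone x)
    rw [hAU', ← hsum]
    exact hle
  intro x
  refine ⟨?_, ?_⟩
  · by_cases hxU : x ∈ U
    · exact (heq x hxU).symm
    · rw [if_neg (fun h => hxU (hAU h))]
      unfold chg
      rw [card_eq_zero, filter_eq_empty_iff]
      intro d _ h
      exact hxU (hNU (mem_nbhd_of_chg h.1))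
  · have := hnot x
    unfold soli at this
    push Not at this
    exact this

end Pool.Agent.H329
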