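import Pool.Agent.H329.Spec
import Pool.Agent.H329.PcAux

/-!
# The corridor pieces
-/

namespace Pool.Agent.H329

attribute [-instance] Int.instConditionallyCompleteLinearOrder

set_option linter.unusedSimpArgs false
set_option linter.unnecessarySeqFocus false

namespace PcAux

theorem piece_bounds (u n : ℤ) (x : Pc) (hu : 100 ≤ u) (h0 : 0 ≤ n) (h1 : n ≤ pcCap u x) :
    ∀ p ∈ piece u n x, 20 * u + 1 ≤ p.1 ∧ p.1 ≤ 80 * u - 1 ∧ x.ylo * u ≤ p.2 ∧
      p.2 ≤ x.yhi * u - 1 := by
  intro p hp
  cases x <;>
    simp only [piece, runs, List.append_nil, List.mem_append, mem_segR, mem_segL, mem_segU, mem_segD,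
      mem_padR', mem_padL', mul_zero, mul_one, mul_neg, add_zero, pcCap, Pc.ylo, Pc.yhi] at hp h1 ⊢ <;>
    omega

theorem piece_length (u n : ℤ) (x : Pc) (hu : 100 ≤ u) (h0 : 0 ≤ n) (h1 : n ≤ pcCap u x) :
    ((piece u n x).length : ℤ) = pcLen u x + n := by
  cases x <;>
    simp only [piece, runs, List.append_nil, List.length_append, seg_length, padR_length,
      padL_length, pcCap, pcLen] at h1 ⊢ <;>
    omega

theorem nodup_app {l m : List Pt} (h1 : l.Nodup) (h2 : m.Nodup) (h3 : ∀ p, p ∈ l → p ∈ m → False) :
    (l ++ m).Nodup := by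
  rw [List.nodup_append]
  refine ⟨h1, h2, ?_⟩
  intro a ha b hb hab
  subst hab
  exact h3 a ha hb

theorem piece_nodup (u n : ℤ) (x : Pc) (hu : 100 ≤ u) (h1 : n ≤ pcCap u x) :
    (piece u n x).Nodup := by
  cases x <;>
    simp only [piece, runs, List.append_nil, pcCap, mul_zero, mul_one, mul_neg, add_zero] at h1 ⊢ <;>
    (repeat' first
      | exact padR_nodup _ _ _
      | exact padL_nodup _ _ _
      | exact seg_nodup _ _ (Or.inl (by decide)) _
      | exact seg_nodup _ _ (Or.inr (by decide)) _
      | apply nodup_app) <;>
    (intro p hp hq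
     simp only [List.mem_append, mem_segR, mem_segL, mem_segU, mem_segD,
       mem_padR', mem_padL'] at hp hq
     omega)

theorem adjR : Adj (0, 0) (1, 0) := by decide
theorem adjL : Adj (0, 0) (-1, 0) := by decide
theorem adjU : Adj (0, 0) (0, 1) := by decide
theorem adjD : Adj (0, 0) (0, -1) := by decide

theorem piece_path (u n : ℤ) (x : Pc) (hu : 100 ≤ u) (h0 : 0 ≤ n) (h1 : n ≤ pcCap u x) :
    IsPath (pcStart u x) (piece u n x) (pcEnd u x) := by
  cases x
  case A0 =>
    simp only [piece, pcStart, pcEnd, pcCap] at h1 ⊢
    refine path_append (runs_path _ _ ?_) (path_congr (padL_path _ _ _ h0 (by omega)) ?_ ?_)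
    · simp only [List.forall_mem_cons, adjR, adjL, adjU, adjD, true_and, List.not_mem_nil,
        false_imp_iff, implies_true, and_true]
      omega
    · apply Prod.ext <;> simp only [runsEnd, mul_zero, mul_one, mul_neg, add_zero] <;> omega
    · apply Prod.ext <;> simp only [runsEnd, mul_zero, mul_one, mul_neg, add_zero] <;> omega
  case A1 =>
    simp only [piece, pcStart, pcEnd, pcCap] at h1 ⊢
    refine path_append (padR_path _ _ _ h0 (by omega)) (path_congr (runs_path _ _ ?_) ?_ ?_)
    · simp only [List.forall_mem_cons, adjR, adjL, adjU, adjD, true_and, List.not_mem_nil,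
        false_imp_iff, implies_true, and_true]
      omega
    · apply Prod.ext <;> simp only [runsEnd, mul_zero, mul_one, mul_neg, add_zero] <;> omega
    · apply Prod.ext <;> simp only [runsEnd, mul_zero, mul_one, mul_neg, add_zero] <;> omega
  case C0a =>
    simp only [piece, pcStart, pcEnd, pcCap] at h1 ⊢
    refine path_append (runs_path _ _ ?_) (path_congr (padL_path _ _ _ h0 (by omega)) ?_ ?_)
    · simp only [List.forall_mem_cons, adjR, adjL, adjU, adjD, true_and, List.not_mem_nil,
        false_imp_iff, implies_true, and_true]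
      omega
    · apply Prod.ext <;> simp only [runsEnd, mul_zero, mul_one, mul_neg, add_zero] <;> omega
    · apply Prod.ext <;> simp only [runsEnd, mul_zero, mul_one, mul_neg, add_zero] <;> omega
  case C1a =>
    simp only [piece, pcStart, pcEnd, pcCap] at h1 ⊢
    refine path_append (padR_path _ _ _ h0 (by omega)) (path_congr (runs_path _ _ ?_) ?_ ?_)
    · simp only [List.forall_mem_cons, adjR, adjL, adjU, adjD, true_and, List.not_mem_nil,
        false_imp_iff, implies_true, and_true]
      omega
    · apply Prod.ext <;> simp only [runsEnd, mul_zero, mul_one, mul_neg, add_zero] <;> omega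
    · apply Prod.ext <;> simp only [runsEnd, mul_zero, mul_one, mul_neg, add_zero] <;> omega
  case C2a =>
    simp only [piece, pcStart, pcEnd, pcCap] at h1 ⊢
    refine path_append (runs_path _ _ ?_) (path_append
      (path_congr (padL_path _ _ _ h0 (by omega)) ?_ rfl) (path_congr (runs_path _ _ ?_) ?_ ?_))
    · simp only [List.forall_mem_cons, adjR, adjL, adjU, adjD, true_and, List.not_mem_nil,
        false_imp_iff, implies_true, and_true]
      omega
    · apply Prod.ext <;> simp only [runsEnd, mul_zero, mul_one, mul_neg, add_zero] <;> omega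
    · simp only [List.forall_mem_cons, adjR, adjL, adjU, adjD, true_and, List.not_mem_nil,
        false_imp_iff, implies_true, and_true]
      omega
    · apply Prod.ext <;> simp only [runsEnd, mul_zero, mul_one, mul_neg, add_zero] <;> omega
    · apply Prod.ext <;> simp only [runsEnd, mul_zero, mul_one, mul_neg, add_zero] <;> omega
  case C0b =>
    simp only [piece, pcStart, pcEnd, pcCap] at h1 ⊢
    refine path_append (runs_path _ _ ?_) (path_congr (padR_path _ _ _ h0 (by omega)) ?_ ?_)
    · simp only [List.forall_mem_cons, adjR, adjL, adjU, adjD, true_and, List.not_mem_nil,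
        false_imp_iff, implies_true, and_true]
      omega
    · apply Prod.ext <;> simp only [runsEnd, mul_zero, mul_one, mul_neg, add_zero] <;> omega
    · apply Prod.ext <;> simp only [runsEnd, mul_zero, mul_one, mul_neg, add_zero] <;> omega
  case C1b =>
    simp only [piece, pcStart, pcEnd, pcCap] at h1 ⊢
    refine path_append (padL_path _ _ _ h0 (by omega)) (path_congr (runs_path _ _ ?_) ?_ ?_)
    · simp only [List.forall_mem_cons, adjR, adjL, adjU, adjD, true_and, List.not_mem_nil,
        false_imp_iff, implies_true, and_true]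
      omega
    · apply Prod.ext <;> simp only [runsEnd, mul_zero, mul_one, mul_neg, add_zero] <;> omega
    · apply Prod.ext <;> simp only [runsEnd, mul_zero, mul_one, mul_neg, add_zero] <;> omega
  case C2b =>
    simp only [piece, pcStart, pcEnd, pcCap] at h1 ⊢
    refine path_append (padR_path _ _ _ h0 (by omega)) (path_congr (runs_path _ _ ?_) ?_ ?_)
    · simp only [List.forall_mem_cons, adjR, adjL, adjU, adjD, true_and, List.not_mem_nil,
        false_imp_iff, implies_true, and_true]
      omega
    · apply Prod.ext <;> simp only [runsEnd, mul_zero, mul_one, mul_neg, add_zero] <;> omega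
    · apply Prod.ext <;> simp only [runsEnd, mul_zero, mul_one, mul_neg, add_zero] <;> omega
  case B0 =>
    simp only [piece, pcStart, pcEnd, pcCap] at h1 ⊢
    refine path_congr (padR_path _ _ _ h0 (by omega)) rfl ?_
    · apply Prod.ext <;> simp only [runsEnd, mul_zero, mul_one, mul_neg, add_zero] <;> omega
  case B1 =>
    simp only [piece, pcStart, pcEnd, pcCap] at h1 ⊢
    refine path_append (padL_path _ _ _ h0 (by omega)) (path_congr (runs_path _ _ ?_) ?_ ?_)
    · simp only [List.forall_mem_cons, adjR, adjL, adjU, adjD, true_and, List.not_mem_nil,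
        false_imp_iff, implies_true, and_true]
      omega
    · apply Prod.ext <;> simp only [runsEnd, mul_zero, mul_one, mul_neg, add_zero] <;> omega
    · apply Prod.ext <;> simp only [runsEnd, mul_zero, mul_one, mul_neg, add_zero] <;> omega
  case V0a =>
    simp only [piece, pcStart, pcEnd, pcCap] at h1 ⊢
    refine path_append (runs_path _ _ ?_) (path_congr (padL_path _ _ _ h0 (by omega)) ?_ ?_)
    · simp only [List.forall_mem_cons, adjR, adjL, adjU, adjD, true_and, List.not_mem_nil,
        false_imp_iff, implies_true, and_true]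
      omega
    · apply Prod.ext <;> simp only [runsEnd, mul_zero, mul_one, mul_neg, add_zero] <;> omega
    · apply Prod.ext <;> simp only [runsEnd, mul_zero, mul_one, mul_neg, add_zero] <;> omega
  case V1a =>
    simp only [piece, pcStart, pcEnd, pcCap] at h1 ⊢
    refine path_append (padR_path _ _ _ h0 (by omega)) (path_congr (runs_path _ _ ?_) ?_ ?_)
    · simp only [List.forall_mem_cons, adjR, adjL, adjU, adjD, true_and, List.not_mem_nil,
        false_imp_iff, implies_true, and_true]
      omega
    · apply Prod.ext <;> simp only [runsEnd, mul_zero, mul_one, mul_neg, add_zero] <;> omega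
    · apply Prod.ext <;> simp only [runsEnd, mul_zero, mul_one, mul_neg, add_zero] <;> omega
  case V2a =>
    simp only [piece, pcStart, pcEnd, pcCap] at h1 ⊢
    refine path_append (padR_path _ _ _ h0 (by omega)) (path_congr (runs_path _ _ ?_) ?_ ?_)
    · simp only [List.forall_mem_cons, adjR, adjL, adjU, adjD, true_and, List.not_mem_nil,
        false_imp_iff, implies_true, and_true]
      omega
    · apply Prod.ext <;> simp only [runsEnd, mul_zero, mul_one, mul_neg, add_zero] <;> omega
    · apply Prod.ext <;> simp only [runsEnd, mul_zero, mul_one, mul_neg, add_zero] <;> omega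
  case V3a =>
    simp only [piece, pcStart, pcEnd, pcCap] at h1 ⊢
    refine path_append (runs_path _ _ ?_) (path_append
      (path_congr (padL_path _ _ _ h0 (by omega)) ?_ rfl) (path_congr (runs_path _ _ ?_) ?_ ?_))
    · simp only [List.forall_mem_cons, adjR, adjL, adjU, adjD, true_and, List.not_mem_nil,
        false_imp_iff, implies_true, and_true]
      omega
    · apply Prod.ext <;> simp only [runsEnd, mul_zero, mul_one, mul_neg, add_zero] <;> omega
    · simp only [List.forall_mem_cons, adjR, adjL, adjU, adjD, true_and, List.not_mem_nil,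
        false_imp_iff, implies_true, and_true]
      omega
    · apply Prod.ext <;> simp only [runsEnd, mul_zero, mul_one, mul_neg, add_zero] <;> omega
    · apply Prod.ext <;> simp only [runsEnd, mul_zero, mul_one, mul_neg, add_zero] <;> omega
  case V0b =>
    simp only [piece, pcStart, pcEnd, pcCap] at h1 ⊢
    refine path_congr (padR_path _ _ _ h0 (by omega)) rfl ?_
    · apply Prod.ext <;> simp only [runsEnd, mul_zero, mul_one, mul_neg, add_zero] <;> omega
  case V1b =>
    simp only [piece, pcStart, pcEnd, pcCap] at h1 ⊢
    refine path_congr (padL_path _ _ _ h0 (by omega)) rfl ?_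
    · apply Prod.ext <;> simp only [runsEnd, mul_zero, mul_one, mul_neg, add_zero] <;> omega
  case V2b =>
    simp only [piece, pcStart, pcEnd, pcCap] at h1 ⊢
    refine path_append (padR_path _ _ _ h0 (by omega)) (path_congr (runs_path _ _ ?_) ?_ ?_)
    · simp only [List.forall_mem_cons, adjR, adjL, adjU, adjD, true_and, List.not_mem_nil,
        false_imp_iff, implies_true, and_true]
      omega
    · apply Prod.ext <;> simp only [runsEnd, mul_zero, mul_one, mul_neg, add_zero] <;> omega
    · apply Prod.ext <;> simp only [runsEnd, mul_zero, mul_one, mul_neg, add_zero] <;> omega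
  case V3b =>
    simp only [piece, pcStart, pcEnd, pcCap] at h1 ⊢
    refine path_append (padR_path _ _ _ h0 (by omega)) (path_congr (runs_path _ _ ?_) ?_ ?_)
    · simp only [List.forall_mem_cons, adjR, adjL, adjU, adjD, true_and, List.not_mem_nil,
        false_imp_iff, implies_true, and_true]
      omega
    · apply Prod.ext <;> simp only [runsEnd, mul_zero, mul_one, mul_neg, add_zero] <;> omega
    · apply Prod.ext <;> simp only [runsEnd, mul_zero, mul_one, mul_neg, add_zero] <;> omega

theorem piece_disj (u n m : ℤ) (x y : Pc) (hu : 100 ≤ u) (h0 : 0 ≤ n) (h1 : n ≤ pcCap u x)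
    (h2 : 0 ≤ m) (h3 : m ≤ pcCap u y) (hs : x.slab = y.slab) (hxy : x ≠ y) :
    ∀ p ∈ piece u n x, p ∉ piece u m y := by
  intro p hp hq
  cases x <;> cases y <;> first
    | exact absurd rfl hxy
    | exact absurd hs (by decide)
    | (simp only [piece, runs, List.append_nil, List.mem_append, mem_segR, mem_segL, mem_segU,
        mem_segD, mem_padR', mem_padL', mul_zero, mul_one, mul_neg, add_zero, pcCap] at hp hq h1 h3
       omega)

end PcAux

theorem Piece_proof : S_Piece := by
  intro u n x hu h0 h1
  exact ⟨PcAux.piece_path u n x hu h0 h1, PcAux.piece_length u n x hu h0 h1,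
    PcAux.piece_nodup u n x hu h1, PcAux.piece_bounds u n x hu h0 h1⟩

theorem PieceDisj_proof : S_PieceDisj := by
  intro u n m x y hu h0 h1 h2 h3 hs hxy
  exact PcAux.piece_disj u n m x y hu h0 h1 h2 h3 hs hxy

end Pool.Agent.H329
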