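import Pool.Agent.H329.Spec

/-!
Project HP folding (MP_dec383_lc), job PolyRed. Owner helper329.
Imports are starting files. Polynomial-time computability of the reduction, with the combinators of Pool/Agent/NPC/Enc.lean, Num.lean (Poly.pair, map, flatMap, filter, add, mul,
sub, div, mod, ite, decide_lt, getElem?, sum, ...; UPoly n := Poly (fun a => List.replicate (n a) ()) for numbers in unary: UPoly.add, mul, eval, range, length, of_le).
Suggested way: (1) M, N (of gridOf φ) are UPoly (multiples of φ.length); n0, RR, D0, uu are UPoly (built from UPoly.add, mul, const; powers with constant exponents by iterated mul,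
a lemma UPoly (n^k)); so is a common bound UB for all sizes (e.g. (1000 * uu)^2). (2) w, hL, hR, incid, idV, idC, code (a sum over range 24 of powers: rewrite as a constant number of
multiplications/additions), AV, AC, l.., hexN, pp, cc are Poly as functions of (φ, c, i) (binary numbers). (3) The tokens: encode Tok Lab by something encodable: since Tok and Lab have no TEnc
instance, give directly the word of a group as a function of (φ, s, c): gword = flatMap over List.range of corridors of flatMap of groups of a list of pieces; each piece is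
itemWord a, List.replicate n b with n <= UB (sizes are bounded by UB, so they are UPoly by UPoly.of_le after capping: replace n by min n UB and show equality); reversed corridors:
the word of the reversed token list is the reverse of the word (itemWord and replicate are palindromes). Similarly gK = sum over tokens of kval, a sum of sums (Poly.sum, map, range).
Labels c, i in tokens are numbers c <= M, s - c <= 2(M+N).
Keep the statement of TARGET unchanged; auxiliary lemmas before it, in namespace Pool.Agent.H329.PolyRedAux.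
-/

namespace Pool.Agent.H329




open Pool.Agent.NPC

namespace PolyRedAux

open Pool.Agent.NPC

abbrev Fm : Type := List (Lit ℕ × Lit ℕ × Lit ℕ)

/-! #### Powers and sums -/

section gen

variable {α : Type} [TEnc α]

theorem ucongr {m n : α → ℕ} (hm : UPoly m) (h : ∀ a, m a = n a) : UPoly n := by
  have : m = n := funext h
  rwa [← this]

theorem ppow {m : α → ℕ} (hm : NPC.Poly m) (k : ℕ) : NPC.Poly (fun a => m a ^ k) := by
  induction k with
  | zero => exact (NPC.Poly.const 1).congr fun a => by simp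
  | succ k ih => exact (NPC.Poly.mul ih hm).congr fun a => by rw [pow_succ]

theorem upow {m : α → ℕ} (hm : UPoly m) (k : ℕ) : UPoly (fun a => m a ^ k) := by
  induction k with
  | zero => exact ucongr (UPoly.const 1) fun a => by simp
  | succ k ih => exact ucongr (UPoly.mul ih hm) fun a => by rw [pow_succ]

theorem psum {f : ℕ → α → ℕ} (hf : ∀ e, NPC.Poly (f e)) (n : ℕ) :
    NPC.Poly (fun a => ∑ e ∈ Finset.range n, f e a) := by
  induction n with
  | zero => exact (NPC.Poly.const 0).congr fun a => by simp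
  | succ k ih => exact (NPC.Poly.add ih (hf k)).congr fun a => by rw [Finset.sum_range_succ]

theorem usum {f : ℕ → α → ℕ} (hf : ∀ e, UPoly (f e)) (n : ℕ) :
    UPoly (fun a => ∑ e ∈ Finset.range n, f e a) := by
  induction n with
  | zero => exact ucongr (UPoly.const 0) fun a => by simp
  | succ k ih => exact ucongr (UPoly.add ih (hf k)) fun a => by rw [Finset.sum_range_succ]

theorem replicateP {n : α → ℕ} (hn : UPoly n) (b : Bool) :
    NPC.Poly (fun a => List.replicate (n a) b) :=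
  (NPC.Poly.map (F := fun _ _ => b) hn (NPC.Poly.const b)).congr fun a => by simp

end gen

/-! #### The parameters of the grid -/

section par

variable {α : Type} [TEnc α] {φ : α → Fm} {c i s x : α → ℕ}

theorem u_nvar (hφ : NPC.Poly φ) : UPoly (fun a => nvar (φ a)) :=
  UPoly.mul (UPoly.const 3) (UPoly.length hφ)

theorem u_M (hφ : NPC.Poly φ) : UPoly (fun a => (gridOf (φ a)).M) :=
  UPoly.mul (UPoly.const 2)
    (UPoly.add (UPoly.mul (UPoly.const 2) (u_nvar hφ)) (UPoly.length hφ))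

theorem u_N (hφ : NPC.Poly φ) : UPoly (fun a => (gridOf (φ a)).N) :=
  UPoly.mul (UPoly.const 4) (u_nvar hφ)

theorem u_n0 (hφ : NPC.Poly φ) : UPoly (fun a => n0 (gridOf (φ a))) :=
  UPoly.add (UPoly.mul (UPoly.mul (UPoly.const 2) (UPoly.add (u_M hφ) (UPoly.const 1)))
    (UPoly.add (u_N hφ) (UPoly.const 1))) (UPoly.const 2)

theorem u_RR (hφ : NPC.Poly φ) : UPoly (fun a => RR (gridOf (φ a))) :=
  UPoly.add (UPoly.mul (UPoly.const 24) (upow (u_n0 hφ) 24)) (UPoly.const 1)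

theorem u_D0 (hφ : NPC.Poly φ) : UPoly (fun a => D0 (gridOf (φ a))) :=
  UPoly.add (UPoly.mul (UPoly.const 32) (UPoly.mul (UPoly.const 24)
    (upow (UPoly.mul (u_n0 hφ) (u_RR hφ)) 24))) (UPoly.const 4)

theorem u_uu (hφ : NPC.Poly φ) : UPoly (fun a => uu (gridOf (φ a))) :=
  UPoly.mul (UPoly.const 100) (upow (UPoly.add (u_D0 hφ) (UPoly.const 1)) 2)

theorem p_idV (hφ : NPC.Poly φ) (hc : NPC.Poly c) (hi : NPC.Poly i) :
    NPC.Poly (fun a => idV (gridOf (φ a)) (c a) (i a)) :=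
  NPC.Poly.add (NPC.Poly.mul (NPC.Poly.const 2) (NPC.Poly.add (NPC.Poly.mul hc (NPC.Poly.add (u_N hφ).toPoly
    (NPC.Poly.const 1))) hi)) (NPC.Poly.const 1)

theorem p_idC (hφ : NPC.Poly φ) (hc : NPC.Poly c) (hi : NPC.Poly i) :
    NPC.Poly (fun a => idC (gridOf (φ a)) (c a) (i a)) :=
  NPC.Poly.add (NPC.Poly.mul (NPC.Poly.const 2) (NPC.Poly.add (NPC.Poly.mul hc (NPC.Poly.add (u_N hφ).toPoly
    (NPC.Poly.const 1))) hi)) (NPC.Poly.const 2)

theorem p_code (hφ : NPC.Poly φ) (hx : NPC.Poly x) : NPC.Poly (fun a => code (gridOf (φ a)) (x a)) :=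
  psum (f := fun e a => (x a * RR (gridOf (φ a))) ^ e)
    (fun e => ppow (NPC.Poly.mul hx (u_RR hφ).toPoly) e) 24

theorem u_code (hφ : NPC.Poly φ) (hx : UPoly x) : UPoly (fun a => code (gridOf (φ a)) (x a)) :=
  usum (f := fun e a => (x a * RR (gridOf (φ a))) ^ e)
    (fun e => upow (UPoly.mul hx (u_RR hφ)) e) 24

theorem p_wireLit {l : α → Lit ℕ} (hl : NPC.Poly l) : NPC.Poly (fun a => wireLit (l a)) :=
  NPC.Poly.ite (p := fun a => (l a).1 = true) (NPC.Poly.decide_bool (NPC.Poly.fst hl))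
    (NPC.Poly.add (NPC.Poly.mul (NPC.Poly.const 4) (NPC.Poly.snd hl)) (NPC.Poly.const 1))
    (NPC.Poly.add (NPC.Poly.mul (NPC.Poly.const 4) (NPC.Poly.snd hl)) (NPC.Poly.const 3))

theorem p_beq {m n : α → ℕ} (hm : NPC.Poly m) (hn : NPC.Poly n) : NPC.Poly (fun a => (m a == n a)) :=
  (NPC.Poly.decide_eq hm hn).congr fun _ => rfl

theorem p_incid (hφ : NPC.Poly φ) (hj : NPC.Poly c) (hi : NPC.Poly i) :
    NPC.Poly (fun a => incid (φ a) (c a) (i a)) := by
  have hn : NPC.Poly (fun a => nvar (φ a)) := (u_nvar hφ).toPoly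
  have hl : NPC.Poly (fun a => (φ a).length) := NPC.Poly.length hφ
  have hi' : NPC.Poly (fun p : α × (Lit ℕ × Lit ℕ × Lit ℕ) => i p.1) :=
    hi.comp (NPC.Poly.fst NPC.Poly.id)
  have h4 := NPC.Poly.optCases (o := fun a => (φ a)[c a - nvar (φ a)]?) (g := fun _ => false)
      (h := fun a d => (i a == wireLit d.1 || (i a == wireLit d.2.1 || i a == wireLit d.2.2)))
      (NPC.Poly.getElem? hφ (NPC.Poly.sub hj hn)) (NPC.Poly.const false)
      (NPC.Poly.or (p_beq hi' (p_wireLit (NPC.Poly.fst (NPC.Poly.snd NPC.Poly.id))))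
      (NPC.Poly.or (p_beq hi' (p_wireLit (NPC.Poly.fst (NPC.Poly.snd (NPC.Poly.snd NPC.Poly.id)))))
        (p_beq hi' (p_wireLit (NPC.Poly.snd (NPC.Poly.snd (NPC.Poly.snd NPC.Poly.id)))))))
  have h5 : NPC.Poly (fun a => i a % 2 == 0 || (match (φ a)[c a - nvar (φ a)]? with
      | some d => i a == wireLit d.1 || (i a == wireLit d.2.1 || i a == wireLit d.2.2)
      | none => false)) := by
    refine NPC.Poly.or (p_beq (NPC.Poly.mod hi (NPC.Poly.const 2)) (NPC.Poly.const 0)) (h4.congr fun a => ?_)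
    cases (φ a)[c a - nvar (φ a)]? <;> rfl
  have hw : ∀ {t : α → ℕ}, NPC.Poly t → NPC.Poly (fun a => (i a == 4 * t a + 1 || i a == 4 * t a + 3)) :=
    fun ht => NPC.Poly.or (p_beq hi (NPC.Poly.add (NPC.Poly.mul (NPC.Poly.const 4) ht) (NPC.Poly.const 1)))
      (p_beq hi (NPC.Poly.add (NPC.Poly.mul (NPC.Poly.const 4) ht) (NPC.Poly.const 3)))
  exact NPC.Poly.ite (p := fun a => c a < nvar (φ a)) (NPC.Poly.decide_lt hj hn) (hw hj)
    (NPC.Poly.ite (p := fun a => c a < nvar (φ a) + (φ a).length)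
      (NPC.Poly.decide_lt hj (NPC.Poly.add hn hl)) h5
      (hw (NPC.Poly.sub (NPC.Poly.sub hj hn) hl)))

theorem p_w (hφ : NPC.Poly φ) (hc : NPC.Poly c) (hi : NPC.Poly i) :
    NPC.Poly (fun a => (gridOf (φ a)).w (c a) (i a)) :=
  NPC.Poly.ite (p := fun a => c a % 2 = 1 ∧ incid (φ a) ((c a - 1) / 2) (i a) = true)
    (NPC.Poly.decide_and (NPC.Poly.decide_eq (NPC.Poly.mod hc (NPC.Poly.const 2)) (NPC.Poly.const 1))
      (NPC.Poly.decide_bool (p_incid hφ (NPC.Poly.div (NPC.Poly.sub hc (NPC.Poly.const 1)) (NPC.Poly.const 2)) hi)))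
    (NPC.Poly.const 1) (NPC.Poly.const 2)

theorem p_odd (hc : NPC.Poly c) (m n : ℕ) :
    NPC.Poly (fun a => if c a % 2 = 1 then m else n) :=
  NPC.Poly.ite (p := fun a => c a % 2 = 1)
    (NPC.Poly.decide_eq (NPC.Poly.mod hc (NPC.Poly.const 2)) (NPC.Poly.const 1)) (NPC.Poly.const m) (NPC.Poly.const n)

theorem p_hL (hφ : NPC.Poly φ) (hc : NPC.Poly c) : NPC.Poly (fun a => (gridOf (φ a)).hL (c a)) :=
  NPC.Poly.ite (p := fun a => (c a - 1) / 2 < nvar (φ a))
    (NPC.Poly.decide_lt (NPC.Poly.div (NPC.Poly.sub hc (NPC.Poly.const 1)) (NPC.Poly.const 2)) (u_nvar hφ).toPoly)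
    (NPC.Poly.const 1)
    (NPC.Poly.ite (p := fun a => (c a - 1) / 2 < nvar (φ a) + (φ a).length)
      (NPC.Poly.decide_lt (NPC.Poly.div (NPC.Poly.sub hc (NPC.Poly.const 1)) (NPC.Poly.const 2))
        (NPC.Poly.add (u_nvar hφ).toPoly (NPC.Poly.length hφ)))
      (p_odd hc 0 1) (NPC.Poly.const 0))

theorem p_hR (hφ : NPC.Poly φ) (hc : NPC.Poly c) : NPC.Poly (fun a => (gridOf (φ a)).hR (c a)) :=
  NPC.Poly.ite (p := fun a => (c a - 1) / 2 < nvar (φ a))
    (NPC.Poly.decide_lt (NPC.Poly.div (NPC.Poly.sub hc (NPC.Poly.const 1)) (NPC.Poly.const 2)) (u_nvar hφ).toPoly)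
    (NPC.Poly.const 0)
    (NPC.Poly.ite (p := fun a => (c a - 1) / 2 < nvar (φ a) + (φ a).length)
      (NPC.Poly.decide_lt (NPC.Poly.div (NPC.Poly.sub hc (NPC.Poly.const 1)) (NPC.Poly.const 2))
        (NPC.Poly.add (u_nvar hφ).toPoly (NPC.Poly.length hφ)))
      (p_odd hc 1 0) (NPC.Poly.const 1))

theorem p_AV (hφ : NPC.Poly φ) (hc : NPC.Poly c) (hi : NPC.Poly i) :
    NPC.Poly (fun a => AV (gridOf (φ a)) (c a) (i a)) :=
  NPC.Poly.add (NPC.Poly.add (NPC.Poly.mul (NPC.Poly.const 8) (u_uu hφ).toPoly)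
    (NPC.Poly.mul (NPC.Poly.const 32) (p_code hφ (p_idV hφ hc hi))))
    (NPC.Poly.sub (NPC.Poly.const 2) (p_w hφ hc hi))

theorem p_AC (hφ : NPC.Poly φ) (hc : NPC.Poly c) (hi : NPC.Poly i) :
    NPC.Poly (fun a => AC (gridOf (φ a)) (c a) (i a)) :=
  NPC.Poly.add (NPC.Poly.mul (NPC.Poly.const 8) (u_uu hφ).toPoly)
    (NPC.Poly.mul (NPC.Poly.const 32) (p_code hφ (p_idC hφ hc hi)))

theorem p_lT (hφ : NPC.Poly φ) (hc : NPC.Poly c) (hi : NPC.Poly i) :
    NPC.Poly (fun a => lT (gridOf (φ a)) (c a) (i a)) :=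
  NPC.Poly.add (p_AV hφ hc hi) (NPC.Poly.const 2)

theorem p_lUR (hφ : NPC.Poly φ) (hc : NPC.Poly c) (hi : NPC.Poly i) :
    NPC.Poly (fun a => lUR (gridOf (φ a)) (c a) (i a)) :=
  NPC.Poly.add (p_AC hφ hc hi) (NPC.Poly.const 1)

theorem p_lLL (hφ : NPC.Poly φ) (hc : NPC.Poly c) (hi : NPC.Poly i) :
    NPC.Poly (fun a => lLL (gridOf (φ a)) (c a) (i a)) :=
  NPC.Poly.sub (NPC.Poly.add (p_AV hφ (NPC.Poly.sub hc (NPC.Poly.const 1)) hi)
    (p_w hφ (NPC.Poly.sub hc (NPC.Poly.const 1)) hi)) (NPC.Poly.const 1)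

theorem p_lUL (hφ : NPC.Poly φ) (hc : NPC.Poly c) (hi : NPC.Poly i) :
    NPC.Poly (fun a => lUL (gridOf (φ a)) (c a) (i a)) :=
  NPC.Poly.add (p_AC hφ hc (NPC.Poly.sub hi (NPC.Poly.const 1))) (NPC.Poly.const 1)

theorem p_lLR (hφ : NPC.Poly φ) (hc : NPC.Poly c) (hi : NPC.Poly i) :
    NPC.Poly (fun a => lLR (gridOf (φ a)) (c a) (i a)) :=
  NPC.Poly.sub (NPC.Poly.add (p_lUL hφ hc hi) (p_lLL hφ hc hi)) (p_lUR hφ hc hi)

theorem p_lB (hφ : NPC.Poly φ) (hc : NPC.Poly c) (hi : NPC.Poly i) :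
    NPC.Poly (fun a => lB (gridOf (φ a)) (c a) (i a)) :=
  NPC.Poly.sub (NPC.Poly.add (p_lT hφ hc hi) (p_lUR hφ hc hi)) (p_lLL hφ hc hi)

theorem p_hexN {x1 y1 s0 r : α → ℕ} (h1 : NPC.Poly x1) (h2 : NPC.Poly y1) (h3 : NPC.Poly s0) (h4 : NPC.Poly r) :
    NPC.Poly (fun a => hexN (x1 a) (y1 a) (s0 a) (r a)) :=
  NPC.Poly.sub (NPC.Poly.sub (NPC.Poly.mul (NPC.Poly.add h1 (NPC.Poly.const 1)) (NPC.Poly.add h2 (NPC.Poly.const 1)))
    (NPC.Poly.div (NPC.Poly.mul h3 (NPC.Poly.add h3 (NPC.Poly.const 1))) (NPC.Poly.const 2)))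
    (NPC.Poly.div (NPC.Poly.mul h4 (NPC.Poly.add h4 (NPC.Poly.const 1))) (NPC.Poly.const 2))

theorem p_pp (hφ : NPC.Poly φ) (hc : NPC.Poly c) (hi : NPC.Poly i) :
    NPC.Poly (fun a => pp (gridOf (φ a)) (c a) (i a)) :=
  NPC.Poly.add (NPC.Poly.add (NPC.Poly.add (NPC.Poly.mul (NPC.Poly.const 2) (p_lT hφ hc hi))
    (NPC.Poly.mul (NPC.Poly.const 2) (p_lUL hφ hc hi))) (p_lUR hφ hc hi)) (p_lLL hφ hc hi)

theorem p_cc (hφ : NPC.Poly φ) (hc : NPC.Poly c) (hi : NPC.Poly i) :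
    NPC.Poly (fun a => cc (gridOf (φ a)) (c a) (i a)) :=
  NPC.Poly.sub (p_hexN (NPC.Poly.add (p_lT hφ hc hi) (p_lUR hφ hc hi))
    (NPC.Poly.add (p_lUL hφ hc hi) (p_lLL hφ hc hi)) (p_lLL hφ hc hi) (p_lUR hφ hc hi))
    (NPC.Poly.sub (p_pp hφ hc hi) (NPC.Poly.const 2))

theorem p_real (hφ : NPC.Poly φ) (hs : NPC.Poly s) (hc : NPC.Poly c) :
    NPC.Poly (fun a => real (gridOf (φ a)) (s a) (c a)) :=
  NPC.Poly.decide_and (NPC.Poly.decide_le hc hs) (NPC.Poly.decide_and (NPC.Poly.decide_le (NPC.Poly.const 1) hc)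
    (NPC.Poly.decide_and (NPC.Poly.decide_le hc (u_M hφ).toPoly)
      (NPC.Poly.decide_and (NPC.Poly.decide_le (NPC.Poly.const 1) (NPC.Poly.sub hs hc))
        (NPC.Poly.decide_le (NPC.Poly.sub hs hc) (u_N hφ).toPoly))))

end par

/-! #### Tokens as pairs of numbers -/

/-- Kind and size of a token. -/
def view (G : Grid) : Tok Lab → ℕ × ℕ
  | .gap n => (0, n)
  | .blk j => (if j.item = true then 1 else 2, j.size G)

/-- Word of a token given by kind and size. -/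
def vword (p : ℕ × ℕ) : List Bool :=
  if p.1 = 0 then List.replicate p.2 false
  else if p.1 = 1 then itemWord p.2 else List.replicate p.2 true

/-- Contribution of a token given by kind and size. -/
def vk (p : ℕ × ℕ) : ℕ :=
  if p.1 = 0 then 0 else if p.1 = 1 then 2 * p.2 else 2 * (p.2 - 2)

theorem tokWord_eq (G : Grid) (t : Tok Lab) : (bd G).tokWord t = vword (view G t) := by
  cases t with
  | gap n => simp [view, vword, BlkData.tokWord]
  | blk j =>
    cases h : j.item <;> simp [view, vword, BlkData.tokWord, BlkData.blkWord, bd, h]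

theorem kval_eq (G : Grid) (t : Tok Lab) : (bd G).kval t = vk (view G t) := by
  cases t with
  | gap n => simp [view, vk, BlkData.kval]
  | blk j =>
    cases h : j.item <;> simp [view, vk, BlkData.kval, bd, h]

theorem word_eq (G : Grid) (l : List (Tok Lab)) :
    (bd G).word l = (l.map (view G)).flatMap vword := by
  unfold BlkData.word
  rw [List.flatMap_map]
  congr 1
  funext t
  exact tokWord_eq G t

theorem K_eq (G : Grid) (l : List (Tok Lab)) :
    (bd G).K l = ((l.map (view G)).map vk).sum := by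
  unfold BlkData.K
  rw [List.map_map]
  congr 2
  funext t
  exact kval_eq G t

section tok

variable {α : Type} [TEnc α] {φ : α → Fm} {c i s x : α → ℕ}

theorem v_gap (φ : α → Fm) {n : α → ℕ} (hn : NPC.Poly n) :
    NPC.Poly (fun a => view (gridOf (φ a)) (Tok.gap (n a))) :=
  NPC.Poly.pair (NPC.Poly.const 0) hn

theorem v_vH (hφ : NPC.Poly φ) (hc : NPC.Poly c) (hi : NPC.Poly i) :
    NPC.Poly (fun a => view (gridOf (φ a)) (Tok.blk (Lab.vH (c a) (i a)))) :=
  NPC.Poly.pair (NPC.Poly.const 1) (NPC.Poly.add (p_AV hφ hc hi) (p_w hφ hc hi))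

theorem v_vL (hφ : NPC.Poly φ) (hc : NPC.Poly c) (hi : NPC.Poly i) :
    NPC.Poly (fun a => view (gridOf (φ a)) (Tok.blk (Lab.vL (c a) (i a)))) :=
  NPC.Poly.pair (NPC.Poly.const 1) (p_AV hφ hc hi)

theorem v_cH (hφ : NPC.Poly φ) (hc : NPC.Poly c) (hi : NPC.Poly i) :
    NPC.Poly (fun a => view (gridOf (φ a)) (Tok.blk (Lab.cH (c a) (i a)))) :=
  NPC.Poly.pair (NPC.Poly.const 1) (NPC.Poly.add (p_AC hφ hc hi) (NPC.Poly.const 1))

theorem v_cL (hφ : NPC.Poly φ) (hc : NPC.Poly c) (hi : NPC.Poly i) :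
    NPC.Poly (fun a => view (gridOf (φ a)) (Tok.blk (Lab.cL (c a) (i a)))) :=
  NPC.Poly.pair (NPC.Poly.const 1) (p_AC hφ hc hi)

theorem v_lr (hφ : NPC.Poly φ) (hc : NPC.Poly c) (hi : NPC.Poly i) :
    NPC.Poly (fun a => view (gridOf (φ a)) (Tok.blk (Lab.lr (c a) (i a)))) :=
  NPC.Poly.pair (NPC.Poly.const 1) (p_lLR hφ hc hi)

theorem v_b (hφ : NPC.Poly φ) (hc : NPC.Poly c) (hi : NPC.Poly i) :
    NPC.Poly (fun a => view (gridOf (φ a)) (Tok.blk (Lab.b (c a) (i a)))) :=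
  NPC.Poly.pair (NPC.Poly.const 1) (p_lB hφ hc hi)

theorem v_ch (hφ : NPC.Poly φ) (hc : NPC.Poly c) (hi : NPC.Poly i) :
    NPC.Poly (fun a => view (gridOf (φ a)) (Tok.blk (Lab.ch (c a) (i a)))) :=
  NPC.Poly.pair (NPC.Poly.const 2) (p_cc hφ hc hi)

theorem v_ite {b : α → Bool} {t t' : α → Tok Lab} (hb : NPC.Poly b)
    (ht : NPC.Poly (fun a => view (gridOf (φ a)) (t a)))
    (ht' : NPC.Poly (fun a => view (gridOf (φ a)) (t' a))) :
    NPC.Poly (fun a => view (gridOf (φ a)) (if b a = true then t a else t' a)) :=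
  (NPC.Poly.ite (p := fun a => b a = true) (NPC.Poly.decide_bool hb) ht ht').congr fun a => by
    split_ifs <;> rfl

theorem v_ite' {m : α → ℕ} {t t' : α → Tok Lab} (hm : NPC.Poly m)
    (ht : NPC.Poly (fun a => view (gridOf (φ a)) (t a)))
    (ht' : NPC.Poly (fun a => view (gridOf (φ a)) (t' a))) :
    NPC.Poly (fun a => view (gridOf (φ a)) (if m a = 1 then t a else t' a)) :=
  (NPC.Poly.ite (p := fun a => m a = 1) (NPC.Poly.decide_eq hm (NPC.Poly.const 1)) ht ht').congr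
    fun a => by split_ifs <;> rfl

theorem v_tokCa (hφ : NPC.Poly φ) (hs : NPC.Poly s) (hc : NPC.Poly c) :
    NPC.Poly (fun a => view (gridOf (φ a)) (tokCa (gridOf (φ a)) (s a) (c a))) := by
  have hsc := NPC.Poly.sub hs hc
  have hs1 := NPC.Poly.add hs (NPC.Poly.const 1)
  have hu : ∀ k : ℕ, NPC.Poly (fun a => k * uu (gridOf (φ a))) := fun k =>
    NPC.Poly.mul (NPC.Poly.const k) (u_uu hφ).toPoly
  have hg : ∀ k l : ℕ, NPC.Poly (fun a => view (gridOf (φ a))
      (Tok.gap (k * uu (gridOf (φ a)) - l))) := fun k l =>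
    v_gap φ (NPC.Poly.sub (hu k) (NPC.Poly.const l))
  unfold tokCa
  exact v_ite (p_real hφ hs hc)
    (v_ite (p_real hφ hs1 hc) (v_cH hφ hc hsc) (v_ite' (p_hR hφ hc) (v_cH hφ hc hsc) (hg 16 1)))
    (v_ite (p_real hφ hs1 hc) (v_ite' (p_hL hφ hc) (hg 16 3) (v_cH hφ hc hsc)) (hg 16 1))

theorem v_tokCb (hφ : NPC.Poly φ) (hs : NPC.Poly s) (hc : NPC.Poly c) :
    NPC.Poly (fun a => view (gridOf (φ a)) (tokCb (gridOf (φ a)) (s a) (c a))) := by
  have hsc := NPC.Poly.sub hs hc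
  have hs1 := NPC.Poly.add hs (NPC.Poly.const 1)
  have hu : ∀ k : ℕ, NPC.Poly (fun a => k * uu (gridOf (φ a))) := fun k =>
    NPC.Poly.mul (NPC.Poly.const k) (u_uu hφ).toPoly
  have hg : ∀ k l : ℕ, NPC.Poly (fun a => view (gridOf (φ a))
      (Tok.gap (k * uu (gridOf (φ a)) - l))) := fun k l =>
    v_gap φ (NPC.Poly.sub (hu k) (NPC.Poly.const l))
  unfold tokCb
  exact v_ite (p_real hφ hs hc)
    (v_ite (p_real hφ hs1 hc) (v_cL hφ hc hsc) (v_ite' (p_hR hφ hc) (hg 16 1) (v_cL hφ hc hsc)))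
    (v_ite (p_real hφ hs1 hc) (v_ite' (p_hL hφ hc) (v_cL hφ hc hsc) (hg 16 3)) (hg 16 3))

theorem p_grp (hφ : NPC.Poly φ) (hs : NPC.Poly s) (hc : NPC.Poly c) :
    NPC.Poly (fun a => (grp (gridOf (φ a)) (s a) (c a)).map (view (gridOf (φ a)))) := by
  have hsc := NPC.Poly.sub hs hc
  have hs1 := NPC.Poly.add hs (NPC.Poly.const 1)
  have hc1 := NPC.Poly.add hc (NPC.Poly.const 1)
  have hu : ∀ k : ℕ, NPC.Poly (fun a => k * uu (gridOf (φ a))) := fun k =>
    NPC.Poly.mul (NPC.Poly.const k) (u_uu hφ).toPoly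
  have hg : ∀ k : ℕ, NPC.Poly (fun a => view (gridOf (φ a)) (Tok.gap (k * uu (gridOf (φ a))))) :=
    fun k => v_gap φ (hu k)
  have hgs : ∀ k l : ℕ, NPC.Poly (fun a => view (gridOf (φ a))
      (Tok.gap (k * uu (gridOf (φ a)) - l))) := fun k l =>
    v_gap φ (NPC.Poly.sub (hu k) (NPC.Poly.const l))
  have hga : ∀ k l : ℕ, NPC.Poly (fun a => view (gridOf (φ a))
      (Tok.gap (k * uu (gridOf (φ a)) + l))) := fun k l =>
    v_gap φ (NPC.Poly.add (hu k) (NPC.Poly.const l))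
  have hr := p_real hφ hs hc
  have hr1 := p_real hφ hs1 hc1
  exact NPC.Poly.cons (hg 38)
    (NPC.Poly.cons (v_ite hr (v_lr hφ hc hsc) (hgs 16 1))
    (NPC.Poly.cons (hg 86)
    (NPC.Poly.cons (v_tokCa hφ hs hc)
    (NPC.Poly.cons (hg 96)
    (NPC.Poly.cons (v_tokCb hφ hs hc)
    (NPC.Poly.cons (hg 107)
    (NPC.Poly.cons (v_ite hr1 (v_b hφ hc1 hsc) (hgs 16 1))
    (NPC.Poly.cons (hg 109)
    (NPC.Poly.cons (v_ite hr1 (v_vH hφ hc hsc) (hga 16 1))
    (NPC.Poly.cons (hg 96)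
    (NPC.Poly.cons (v_ite hr (v_ch hφ hc hsc)
      (v_gap φ (NPC.Poly.sub (p_hexN (hu 16) (hu 16) (hu 8) (hu 8))
        (NPC.Poly.sub (hu 48) (NPC.Poly.const 2)))))
    (NPC.Poly.cons (hg 116)
    (NPC.Poly.cons (v_ite hr (v_vL hφ hc hsc) (hgs 16 5))
    (NPC.Poly.cons (hg 57) (NPC.Poly.const [])))))))))))))))

theorem p_cor (hφ : NPC.Poly φ) (hs : NPC.Poly s) :
    NPC.Poly (fun a => (cor (gridOf (φ a)) (s a)).map (view (gridOf (φ a)))) :=
  (NPC.Poly.flatMap (F := fun a d => (grp (gridOf (φ a)) (s a) d).map (view (gridOf (φ a))))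
    (UPoly.range (UPoly.add (u_M hφ) (UPoly.const 1)))
    (p_grp (hφ.comp (NPC.Poly.fst NPC.Poly.id)) (hs.comp (NPC.Poly.fst NPC.Poly.id))
      (NPC.Poly.snd NPC.Poly.id))).congr fun a => by rw [cor, List.map_flatMap]

theorem p_cor2 (hφ : NPC.Poly φ) (hs : NPC.Poly s) :
    NPC.Poly (fun a => (cor2 (gridOf (φ a)) (s a)).map (view (gridOf (φ a)))) := by
  have h2 := NPC.Poly.mul (NPC.Poly.const 2) hs
  have hu : ∀ k : ℕ, NPC.Poly (fun a => k * uu (gridOf (φ a))) := fun k =>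
    NPC.Poly.mul (NPC.Poly.const k) (u_uu hφ).toPoly
  refine (NPC.Poly.append (p_cor hφ h2) (NPC.Poly.cons
    (v_gap φ (NPC.Poly.add (hu 144) (NPC.Poly.const 1)))
    (NPC.Poly.append (NPC.Poly.reverse (p_cor hφ (NPC.Poly.add h2 (NPC.Poly.const 1))))
      (NPC.Poly.cons (v_gap φ (NPC.Poly.sub (hu 100) (NPC.Poly.const 1)))
        (NPC.Poly.const []))))).congr fun a => ?_
  simp only [cor2, List.map_append, List.map_cons, List.map_reverse, List.map_nil]

theorem p_toks (hφ : NPC.Poly φ) :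
    NPC.Poly (fun a => (toks (gridOf (φ a))).map (view (gridOf (φ a)))) :=
  (NPC.Poly.flatMap (F := fun a d => (cor2 (gridOf (φ a)) d).map (view (gridOf (φ a))))
    (UPoly.range (UPoly.add (u_M hφ) (u_N hφ)))
    (p_cor2 (hφ.comp (NPC.Poly.fst NPC.Poly.id)) (NPC.Poly.snd NPC.Poly.id))).congr
    fun a => by rw [toks, List.map_flatMap]

end tok

/-! #### Bounds -/

/-- Bound for the class numbers. -/
def XX (G : Grid) : ℕ := 2 * ((G.M + 1) * (G.N + 1) + (2 * (G.M + G.N) + 1)) + 2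

/-- Bound for the item sizes. -/
def AA (G : Grid) : ℕ := 8 * uu G + 32 * code G (XX G) + 2

/-- Bound for the sizes of tokens. -/
def UB (G : Grid) : ℕ := (2 * AA G + 4) ^ 2 + (16 * uu G + 1) ^ 2 + 200 * uu G + 2

theorem u_UB {α : Type} [TEnc α] {φ : α → Fm} (hφ : NPC.Poly φ) :
    UPoly (fun a => UB (gridOf (φ a))) := by
  have hX : UPoly (fun a => XX (gridOf (φ a))) :=
    UPoly.add (UPoly.mul (UPoly.const 2) (UPoly.add (UPoly.mul
      (UPoly.add (u_M hφ) (UPoly.const 1)) (UPoly.add (u_N hφ) (UPoly.const 1)))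
      (UPoly.add (UPoly.mul (UPoly.const 2) (UPoly.add (u_M hφ) (u_N hφ))) (UPoly.const 1))))
      (UPoly.const 2)
  have hA : UPoly (fun a => AA (gridOf (φ a))) :=
    UPoly.add (UPoly.add (UPoly.mul (UPoly.const 8) (u_uu hφ))
      (UPoly.mul (UPoly.const 32) (u_code hφ hX))) (UPoly.const 2)
  exact UPoly.add (UPoly.add (UPoly.add
    (upow (UPoly.add (UPoly.mul (UPoly.const 2) hA) (UPoly.const 4)) 2)
    (upow (UPoly.add (UPoly.mul (UPoly.const 16) (u_uu hφ)) (UPoly.const 1)) 2))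
    (UPoly.mul (UPoly.const 200) (u_uu hφ))) (UPoly.const 2)

theorem code_mono (G : Grid) {x y : ℕ} (h : x ≤ y) : code G x ≤ code G y := by
  unfold code
  exact Finset.sum_le_sum fun e _ => Nat.pow_le_pow_left (Nat.mul_le_mul_right _ h) _

theorem idV_le (G : Grid) {c i : ℕ} (hc : c ≤ G.M + 1) (hi : i ≤ 2 * (G.M + G.N) + 1) :
    idV G c i ≤ XX G := by
  have := Nat.mul_le_mul_right (G.N + 1) hc
  unfold idV XX
  omega

theorem idC_le (G : Grid) {c i : ℕ} (hc : c ≤ G.M + 1) (hi : i ≤ 2 * (G.M + G.N) + 1) :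
    idC G c i ≤ XX G := by
  have := Nat.mul_le_mul_right (G.N + 1) hc
  unfold idC XX
  omega

theorem w_le (φ : Fm) (c i : ℕ) : (gridOf φ).w c i ≤ 2 := by
  simp only [gridOf]
  split_ifs <;> omega

section bound

variable (φ : Fm) {c i : ℕ} (hc : c ≤ (gridOf φ).M + 1)
  (hi : i ≤ 2 * ((gridOf φ).M + (gridOf φ).N) + 1)

include hc hi

theorem AVw_le : AV (gridOf φ) c i + (gridOf φ).w c i ≤ AA (gridOf φ) := by
  have h1 := code_mono (gridOf φ) (idV_le _ hc hi)
  have h2 := w_le φ c i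
  unfold AV AA
  omega

theorem AV_le : AV (gridOf φ) c i ≤ AA (gridOf φ) :=
  (Nat.le_add_right _ _).trans (AVw_le φ hc hi)

theorem AC_le : AC (gridOf φ) c i + 1 ≤ AA (gridOf φ) := by
  have h1 := code_mono (gridOf φ) (idC_le _ hc hi)
  unfold AC AA
  omega

theorem lT_le : lT (gridOf φ) c i ≤ AA (gridOf φ) + 2 := by
  have := AV_le φ hc hi
  unfold lT
  omega

theorem lUR_le : lUR (gridOf φ) c i ≤ AA (gridOf φ) := AC_le φ hc hi

theorem lUL_le : lUL (gridOf φ) c i ≤ AA (gridOf φ) :=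
  AC_le φ hc ((Nat.sub_le i 1).trans hi)

theorem lLL_le : lLL (gridOf φ) c i ≤ AA (gridOf φ) := by
  have := AVw_le φ ((Nat.sub_le c 1).trans hc) hi
  unfold lLL
  omega

omit hc hi in
theorem small_le {n : ℕ} (h : n ≤ 2 * AA (gridOf φ) + 4) : n ≤ UB (gridOf φ) := by
  have h1 : 2 * AA (gridOf φ) + 4 ≤ (2 * AA (gridOf φ) + 4) ^ 2 := Nat.le_self_pow (by norm_num) _
  unfold UB
  omega

omit hc hi in
theorem gap_le {n : ℕ} (h : n ≤ 200 * uu (gridOf φ) + 2) : n ≤ UB (gridOf φ) := by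
  unfold UB
  omega

omit hc hi in
theorem vgap_le {n : ℕ} (h : n ≤ 200 * uu (gridOf φ) + 2) :
    (view (gridOf φ) (Tok.gap n)).2 ≤ UB (gridOf φ) := gap_le φ h

theorem size_le : (Lab.vH c i).size (gridOf φ) ≤ UB (gridOf φ) ∧
    (Lab.vL c i).size (gridOf φ) ≤ UB (gridOf φ) ∧
    (Lab.cH c i).size (gridOf φ) ≤ UB (gridOf φ) ∧
    (Lab.cL c i).size (gridOf φ) ≤ UB (gridOf φ) ∧
    (Lab.lr c i).size (gridOf φ) ≤ UB (gridOf φ) ∧
    (Lab.b c i).size (gridOf φ) ≤ UB (gridOf φ) ∧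
    (Lab.ch c i).size (gridOf φ) ≤ UB (gridOf φ) := by
  have h1 := AVw_le φ hc hi
  have h2 := AC_le φ hc hi
  have h3 := lT_le φ hc hi
  have h4 := lUR_le φ hc hi
  have h5 := lUL_le φ hc hi
  have h6 := lLL_le φ hc hi
  refine ⟨small_le φ ?_, small_le φ ?_, small_le φ ?_, small_le φ ?_,
    small_le φ ?_, small_le φ ?_, ?_⟩
  · change AV (gridOf φ) c i + (gridOf φ).w c i ≤ _
    omega
  · change AV (gridOf φ) c i ≤ _
    omega
  · change AC (gridOf φ) c i + 1 ≤ _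
    omega
  · change AC (gridOf φ) c i ≤ _
    omega
  · change lLR (gridOf φ) c i ≤ _
    unfold lLR
    omega
  · change lB (gridOf φ) c i ≤ _
    unfold lB
    omega
  · change cc (gridOf φ) c i ≤ _
    have h7 : (lT (gridOf φ) c i + lUR (gridOf φ) c i + 1) *
        (lUL (gridOf φ) c i + lLL (gridOf φ) c i + 1) ≤
        (2 * AA (gridOf φ) + 4) * (2 * AA (gridOf φ) + 4) :=
      Nat.mul_le_mul (by omega) (by omega)
    rw [← sq] at h7
    unfold cc hexN UB
    omega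

end bound

theorem grp_le (φ : Fm) {s c : ℕ} (hc : c ≤ (gridOf φ).M)
    (hs : s ≤ 2 * ((gridOf φ).M + (gridOf φ).N) + 1) :
    ∀ t ∈ grp (gridOf φ) s c, (view (gridOf φ) t).2 ≤ UB (gridOf φ) := by
  have hi : s - c ≤ 2 * ((gridOf φ).M + (gridOf φ).N) + 1 := (Nat.sub_le s c).trans hs
  obtain ⟨a1, a2, a3, a4, a5, a6, a7⟩ := size_le φ (hc.trans (Nat.le_succ _)) hi
  obtain ⟨b1, b2, b3, b4, b5, b6, b7⟩ := size_le φ (Nat.add_le_add_right hc 1) hi
  have hhex : hexN (16 * uu (gridOf φ)) (16 * uu (gridOf φ)) (8 * uu (gridOf φ))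
      (8 * uu (gridOf φ)) - (48 * uu (gridOf φ) - 2) ≤ UB (gridOf φ) := by
    unfold hexN UB
    rw [sq (16 * uu (gridOf φ) + 1)]
    omega
  intro t ht
  simp only [grp, List.mem_cons, List.not_mem_nil, or_false] at ht
  rcases ht with rfl | rfl | rfl | rfl | rfl | rfl | rfl | rfl | rfl | rfl | rfl | rfl | rfl |
    rfl | rfl
  · exact vgap_le φ (by omega)
  · split_ifs
    · exact a5
    · exact vgap_le φ (by omega)
  · exact vgap_le φ (by omega)
  · unfold tokCa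
    split_ifs <;> first | exact vgap_le φ (by omega) | exact a3
  · exact vgap_le φ (by omega)
  · unfold tokCb
    split_ifs <;> first | exact vgap_le φ (by omega) | exact a4
  · exact vgap_le φ (by omega)
  · split_ifs
    · exact b6
    · exact vgap_le φ (by omega)
  · exact vgap_le φ (by omega)
  · split_ifs
    · exact a1
    · exact vgap_le φ (by omega)
  · exact vgap_le φ (by omega)
  · split_ifs
    · exact a7
    · exact hhex
  · exact vgap_le φ (by omega)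
  · split_ifs
    · exact a2
    · exact vgap_le φ (by omega)
  · exact vgap_le φ (by omega)

theorem cor_le (φ : Fm) {s : ℕ} (hs : s ≤ 2 * ((gridOf φ).M + (gridOf φ).N) + 1) :
    ∀ t ∈ cor (gridOf φ) s, (view (gridOf φ) t).2 ≤ UB (gridOf φ) := by
  intro t ht
  rw [cor, List.mem_flatMap] at ht
  obtain ⟨c, hc, ht⟩ := ht
  rw [List.mem_range] at hc
  exact grp_le φ (by omega) hs t ht

theorem toks_le (φ : Fm) : ∀ t ∈ toks (gridOf φ), (view (gridOf φ) t).2 ≤ UB (gridOf φ) := by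
  intro t ht
  rw [toks, List.mem_flatMap] at ht
  obtain ⟨r, hr, ht⟩ := ht
  rw [List.mem_range] at hr
  simp only [cor2, List.mem_append, List.mem_cons, List.mem_reverse, List.not_mem_nil,
    or_false] at ht
  rcases ht with ht | rfl | ht | rfl
  · exact cor_le φ (by omega) t ht
  · exact vgap_le φ (by omega)
  · exact cor_le φ (by omega) t ht
  · exact vgap_le φ (by omega)

/-! #### Words -/

theorem p_itemWord {α : Type} [TEnc α] {n : α → ℕ} (hn : UPoly n) :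
    NPC.Poly (fun a => itemWord (n a)) := by
  have h1 : UPoly (fun a => 2 * n a - 1) :=
    UPoly.of_le (NPC.Poly.sub (NPC.Poly.mul (NPC.Poly.const 2) hn.toPoly) (NPC.Poly.const 1))
      (UPoly.mul (UPoly.const 2) hn) fun a => Nat.sub_le _ _
  exact NPC.Poly.map (F := fun _ i => (i % 2 == 0)) h1.range
    (p_beq (NPC.Poly.mod (NPC.Poly.snd NPC.Poly.id) (NPC.Poly.const 2)) (NPC.Poly.const 0))

theorem p_vword {α : Type} [TEnc α] {k n : α → ℕ} (hk : NPC.Poly k) (hn : UPoly n) :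
    NPC.Poly (fun a => vword (k a, n a)) :=
  NPC.Poly.ite (p := fun a => k a = 0) (NPC.Poly.decide_eq hk (NPC.Poly.const 0))
    (replicateP hn false)
    (NPC.Poly.ite (p := fun a => k a = 1) (NPC.Poly.decide_eq hk (NPC.Poly.const 1))
      (p_itemWord hn) (replicateP hn true))

theorem p_vk {α : Type} [TEnc α] {p : α → ℕ × ℕ} (hp : NPC.Poly p) :
    NPC.Poly (fun a => vk (p a)) :=
  NPC.Poly.ite (p := fun a => (p a).1 = 0)
    (NPC.Poly.decide_eq (NPC.Poly.fst hp) (NPC.Poly.const 0)) (NPC.Poly.const 0)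
    (NPC.Poly.ite (p := fun a => (p a).1 = 1)
      (NPC.Poly.decide_eq (NPC.Poly.fst hp) (NPC.Poly.const 1))
      (NPC.Poly.mul (NPC.Poly.const 2) (NPC.Poly.snd hp))
      (NPC.Poly.mul (NPC.Poly.const 2) (NPC.Poly.sub (NPC.Poly.snd hp) (NPC.Poly.const 2))))

theorem p_word : NPC.Poly (fun φ : Fm => gword (gridOf φ)) := by
  have h1 := p_toks (φ := fun φ : Fm => φ) NPC.Poly.id
  have hU : UPoly (fun x : Fm × (ℕ × ℕ) => UB (gridOf x.1)) :=
    u_UB (φ := fun x : Fm × (ℕ × ℕ) => x.1) (NPC.Poly.fst NPC.Poly.id)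
  have h2 : UPoly (fun x : Fm × (ℕ × ℕ) => min x.2.2 (UB (gridOf x.1))) :=
    UPoly.of_le (NPC.Poly.min (NPC.Poly.snd (NPC.Poly.snd NPC.Poly.id)) hU.toPoly) hU
      fun x => min_le_right _ _
  have h3 : NPC.Poly (fun x : Fm × (ℕ × ℕ) =>
      vword (x.2.1, min x.2.2 (UB (gridOf x.1)))) :=
    p_vword (NPC.Poly.fst (NPC.Poly.snd NPC.Poly.id)) h2
  refine (NPC.Poly.flatMap (F := fun (φ : Fm) (p : ℕ × ℕ) =>
    vword (p.1, min p.2 (UB (gridOf φ)))) h1 h3).congr fun φ => ?_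
  unfold gword
  rw [word_eq]
  refine List.flatMap_congr ?_
  intro p hp
  rw [List.mem_map] at hp
  obtain ⟨t, ht, rfl⟩ := hp
  rw [min_eq_left (toks_le φ t ht)]

theorem p_K : NPC.Poly (fun φ : Fm => gK (gridOf φ)) := by
  have h1 := p_toks (φ := fun φ : Fm => φ) NPC.Poly.id
  refine (NPC.Poly.sum (NPC.Poly.map (F := fun (_ : Fm) (p : ℕ × ℕ) => vk p) h1
    (p_vk (NPC.Poly.snd NPC.Poly.id)))).congr fun φ => ?_
  unfold gK
  rw [K_eq]

end PolyRedAux

/-- TARGET -/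
theorem PolyRed_proof : S_PolyRed :=
  NPC.Poly.pair PolyRedAux.p_word PolyRedAux.p_K

end Pool.Agent.H329
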