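import Pool.Agent.H329.Spec

/-!
# From a folding with many contacts to a tight set
-/

set_option autoImplicit false
set_option linter.unusedSectionVars false
set_option linter.unusedVariables false

namespace Pool.Agent.H329.PosAux

open Finset Pool.Agent.H329

/-- length of a block -/
def blen {ι : Type} (B : BlkData ι) (j : ι) : ℕ := if B.item j then 2 * B.size j - 1 else B.size j

theorem blkWord_length {ι : Type} (B : BlkData ι) (j : ι) :
    (B.blkWord j).length = blen B j := by
  unfold BlkData.blkWord blen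
  split_ifs
  · simp [itemWord]
  · simp

theorem blkWord_getD {ι : Type} (B : BlkData ι) (j : ι) (k : ℕ) :
    (B.blkWord j).getD k false = true ↔ k < blen B j ∧ (B.item j = true → k % 2 = 0) := by
  unfold BlkData.blkWord blen
  by_cases h : B.item j = true
  · simp only [h, if_true, itemWord]
    by_cases hk : k < 2 * B.size j - 1
    · simp [List.getD, hk]
    · simp [List.getD, hk]
  · have h' : B.item j = false := by simpa using h
    simp only [h', Bool.false_eq_true, if_false]
    by_cases hk : k < B.size j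
    · simp [List.getD, hk]
    · simp [List.getD, hk]

/-- positions of the letters `H` of a block -/
def HP {ι : Type} (B : BlkData ι) (o : ι → ℕ) (j : ι) : Finset ℕ :=
  if B.item j then (range (B.size j)).image (fun i => o j + 2 * i)
  else (range (B.size j)).image (fun i => o j + i)

/-- positions of the letters `H` with a neighbour `P` -/
def HBP {ι : Type} (B : BlkData ι) (o : ι → ℕ) (j : ι) : Finset ℕ :=
  if B.item j then HP B o j else {o j, o j + B.size j - 1}

/-- positions of the letters `P` with a neighbour `H` -/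
def PBP {ι : Type} (B : BlkData ι) (o : ι → ℕ) (j : ι) : Finset ℕ :=
  if B.item j then (range (B.size j + 1)).image (fun i => o j - 1 + 2 * i)
  else {o j - 1, o j + B.size j}

section

variable {ι : Type} {B : BlkData ι} {o : ι → ℕ}

theorem mem_HP {j : ι} {k : ℕ} : k ∈ HP B o j ↔
    o j ≤ k ∧ k < o j + blen B j ∧ (B.item j = true → (k - o j) % 2 = 0) := by
  unfold HP blen
  by_cases h : B.item j = true
  · simp only [h, if_true, mem_image, mem_range, forall_true_left]
    constructor
    · rintro ⟨i, hi, rfl⟩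
      omega
    · rintro ⟨h1, h2, h3⟩
      exact ⟨(k - o j) / 2, by omega, by omega⟩
  · have h' : B.item j = false := by simpa using h
    simp only [h', Bool.false_eq_true, if_false, mem_image, mem_range, false_implies, and_true]
    constructor
    · rintro ⟨i, hi, rfl⟩
      omega
    · rintro ⟨h1, h2⟩
      exact ⟨k - o j, by omega, by omega⟩

theorem mem_HP_item {j : ι} {k : ℕ} (h : B.item j = true) : k ∈ HP B o j ↔
    ∃ i, i < B.size j ∧ o j + 2 * i = k := by
  unfold HP
  simp only [h, if_true, mem_image, mem_range]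

theorem mem_HP_chord {j : ι} {k : ℕ} (h : B.item j = false) : k ∈ HP B o j ↔
    o j ≤ k ∧ k < o j + B.size j := by
  rw [mem_HP]
  unfold blen
  simp [h]

theorem card_HP (j : ι) : (HP B o j).card = B.size j := by
  unfold HP
  split_ifs
  · rw [card_image_of_injective _ (fun a b h => by simpa using h), card_range]
  · rw [card_image_of_injective _ (fun a b h => by simpa using h), card_range]

theorem HBP_sub (hs : ∀ j, B.item j = false → 3 ≤ B.size j) (j : ι) : HBP B o j ⊆ HP B o j := by
  unfold HBP
  by_cases h : B.item j = true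
  · simp [h]
  · have h' : B.item j = false := by simpa using h
    have := hs j h'
    intro k hk
    simp only [h', Bool.false_eq_true, if_false, mem_insert, mem_singleton] at hk
    rw [mem_HP_chord h']
    omega

theorem mem_HBP_chord {j : ι} {k : ℕ} (h : B.item j = false) : k ∈ HBP B o j ↔
    k = o j ∨ k = o j + B.size j - 1 := by
  unfold HBP
  simp [h]

theorem mem_PBP_item {j : ι} {k : ℕ} (h : B.item j = true) : k ∈ PBP B o j ↔
    ∃ i, i < B.size j + 1 ∧ o j - 1 + 2 * i = k := by
  unfold PBP
  simp only [h, if_true, mem_image, mem_range]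

theorem mem_PBP_chord {j : ι} {k : ℕ} (h : B.item j = false) : k ∈ PBP B o j ↔
    k = o j - 1 ∨ k = o j + B.size j := by
  unfold PBP
  simp [h]

end

/-- the hypotheses on the positions, in a convenient form -/
structure Ctx {ι : Type} (B : BlkData ι) (J : Finset ι) (o : ι → ℕ) (s : List Bool) : Prop where
  pos : ∀ j ∈ J, 1 ≤ o j
  fit : ∀ j ∈ J, o j + blen B j < s.length
  disj : ∀ i ∈ J, ∀ j ∈ J, i ≠ j → o i + blen B i < o j - 1 ∨ o j + blen B j < o i - 1
  letter : ∀ k, s.getD k false = true ↔ ∃ j ∈ J, k ∈ HP B o j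
  item1 : ∀ j ∈ J, B.item j = true → 1 ≤ B.size j
  chord3 : ∀ j ∈ J, B.item j = false → 3 ≤ B.size j

theorem Ctx.of {ι : Type} [DecidableEq ι] {B : BlkData ι} {J : Finset ι} {o : ι → ℕ}
    {s : List Bool} (h : Layout B J o s) (h1 : ∀ j ∈ J, B.item j = true → 1 ≤ B.size j)
    (h3 : ∀ j ∈ J, B.item j = false → 3 ≤ B.size j) : Ctx B J o s where
  pos := h.pos
  fit := fun j hj => by rw [← blkWord_length]; exact h.fit j hj
  disj := fun i hi j hj hij => by
    rw [← blkWord_length, ← blkWord_length]; exact h.disj i hi j hj hij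
  letter := fun k => by
    rw [h.letter k]
    refine exists_congr fun j => and_congr_right fun _ => ?_
    rw [blkWord_getD, blkWord_length, mem_HP]
    constructor
    · rintro ⟨a, b, _, c⟩
      exact ⟨a, b, c⟩
    · rintro ⟨a, b, c⟩
      exact ⟨a, b, by omega, c⟩
  item1 := h1
  chord3 := h3

section

variable {ι : Type} {B : BlkData ι} {J : Finset ι} {o : ι → ℕ} {s : List Bool}

theorem Ctx.blen_pos (c : Ctx B J o s) {j : ι} (hj : j ∈ J) : 1 ≤ blen B j := by
  unfold blen
  by_cases h : B.item j = true
  · have := c.item1 j hj h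
    simp only [h, if_true]
    omega
  · have h' : B.item j = false := by simpa using h
    have := c.chord3 j hj h'
    simp only [h', Bool.false_eq_true, if_false]
    omega

theorem Ctx.HBP_sub (c : Ctx B J o s) {j : ι} (hj : j ∈ J) : HBP B o j ⊆ HP B o j := by
  by_cases h : B.item j = true
  · unfold HBP
    simp [h]
  · have h' : B.item j = false := by simpa using h
    have := c.chord3 j hj h'
    intro k hk
    rw [mem_HBP_chord h'] at hk
    rw [mem_HP_chord h']
    omega

theorem HP_range {j : ι} {k : ℕ} (hk : k ∈ HP B o j) : o j ≤ k ∧ k < o j + blen B j := by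
  rw [mem_HP] at hk
  exact ⟨hk.1, hk.2.1⟩

theorem Ctx.PBP_range (c : Ctx B J o s) {j : ι} (hj : j ∈ J) {k : ℕ} (hk : k ∈ PBP B o j) :
    o j - 1 ≤ k ∧ k ≤ o j + blen B j := by
  have h0 := c.pos j hj
  unfold blen
  by_cases h : B.item j = true
  · have := c.item1 j hj h
    rw [mem_PBP_item h] at hk
    obtain ⟨i, hi, rfl⟩ := hk
    simp only [h, if_true]
    omega
  · have h' : B.item j = false := by simpa using h
    rw [mem_PBP_chord h'] at hk
    simp only [h', Bool.false_eq_true, if_false]
    omega

/-- a position in the extended range of a block with letter `H` is an `H` of this block -/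
theorem Ctx.ext (c : Ctx B J o s) {j : ι} (hj : j ∈ J) {k : ℕ} (h1 : o j - 1 ≤ k)
    (h2 : k ≤ o j + blen B j) : s.getD k false = true ↔ k ∈ HP B o j := by
  rw [c.letter k]
  constructor
  · rintro ⟨i, hi, hk⟩
    by_cases hij : i = j
    · rwa [← hij]
    · exfalso
      have h3 := HP_range hk
      have h4 := c.disj i hi j hj hij
      have h5 := c.pos i hi
      have h6 := c.pos j hj
      omega
  · intro h
    exact ⟨j, hj, h⟩

theorem Ctx.HP_lt (c : Ctx B J o s) {j : ι} (hj : j ∈ J) {k : ℕ} (hk : k ∈ HP B o j) :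
    k < s.length := by
  have := HP_range hk
  have := c.fit j hj
  omega

theorem Ctx.PBP_lt (c : Ctx B J o s) {j : ι} (hj : j ∈ J) {k : ℕ} (hk : k ∈ PBP B o j) :
    k < s.length := by
  have := c.PBP_range hj hk
  have := c.fit j hj
  omega

theorem Ctx.PBP_not (c : Ctx B J o s) {j : ι} (hj : j ∈ J) {k : ℕ} (hk : k ∈ PBP B o j) :
    ¬ s.getD k false = true := by
  have h0 := c.pos j hj
  have h1 := c.PBP_range hj hk
  rw [c.ext hj h1.1 h1.2]
  by_cases h : B.item j = true
  · rw [mem_PBP_item h] at hk
    rw [mem_HP_item h]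
    rintro ⟨i, hi, rfl⟩
    obtain ⟨i', hi', h3⟩ := hk
    omega
  · have h' : B.item j = false := by simpa using h
    rw [mem_PBP_chord h'] at hk
    rw [mem_HP_chord h']
    omega

theorem Ctx.card_HBP (c : Ctx B J o s) {j : ι} (hj : j ∈ J) :
    (HBP B o j).card = if B.item j then B.size j else 2 := by
  by_cases h : B.item j = true
  · unfold HBP
    simp only [h, if_true]
    exact card_HP j
  · have h' : B.item j = false := by simpa using h
    have := c.chord3 j hj h'
    unfold HBP
    simp only [h', Bool.false_eq_true, if_false]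
    exact card_pair (by omega)

theorem Ctx.card_PBP (c : Ctx B J o s) {j : ι} (hj : j ∈ J) :
    (PBP B o j).card = if B.item j then B.size j + 1 else 2 := by
  by_cases h : B.item j = true
  · unfold PBP
    simp only [h, if_true]
    rw [card_image_of_injective _ (fun a b h => by simpa using h), card_range]
  · have h' : B.item j = false := by simpa using h
    have := c.chord3 j hj h'
    have := c.pos j hj
    unfold PBP
    simp only [h', Bool.false_eq_true, if_false]
    exact card_pair (by omega)

/-- the positions with a neighbour of the other letter -/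
theorem Ctx.boundary (c : Ctx B J o s) {k : ℕ} (hk : k < s.length) :
    (∃ l, l < s.length ∧ (l = k + 1 ∨ k = l + 1) ∧
      (s.getD k false = true ↔ ¬ s.getD l false = true)) ↔
    ∃ j ∈ J, k ∈ HBP B o j ∨ k ∈ PBP B o j := by
  constructor
  · rintro ⟨l, hl, hkl, hx⟩
    by_cases hk1 : s.getD k false = true
    · have hl1 := hx.1 hk1
      obtain ⟨j, hj, hkj⟩ := (c.letter k).1 hk1
      refine ⟨j, hj, Or.inl ?_⟩
      by_cases h : B.item j = true
      · unfold HBP
        simpa only [h, if_true] using hkj
      · have h' : B.item j = false := by simpa using h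
        have h5 := c.chord3 j hj h'
        have h6 : l ∉ HP B o j := fun h7 => hl1 ((c.letter l).2 ⟨j, hj, h7⟩)
        rw [mem_HP_chord h'] at h6 hkj
        rw [mem_HBP_chord h']
        omega
    · have hl1 : s.getD l false = true := by
        by_contra h
        exact hk1 (hx.2 h)
      obtain ⟨j, hj, hlj⟩ := (c.letter l).1 hl1
      refine ⟨j, hj, Or.inr ?_⟩
      have h0 := c.pos j hj
      have h6 : k ∉ HP B o j := fun h7 => hk1 ((c.letter k).2 ⟨j, hj, h7⟩)
      by_cases h : B.item j = true
      · rw [mem_HP_item h] at hlj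
        obtain ⟨i, hi, rfl⟩ := hlj
        rw [mem_PBP_item h]
        rcases hkl with h7 | h7
        · exact ⟨i, by omega, by omega⟩
        · exact ⟨i + 1, by omega, by omega⟩
      · have h' : B.item j = false := by simpa using h
        rw [mem_HP_chord h'] at h6 hlj
        rw [mem_PBP_chord h']
        omega
  · rintro ⟨j, hj, hkj⟩
    have h0 := c.pos j hj
    have hf := c.fit j hj
    have hb := c.blen_pos hj
    rcases hkj with hkj | hkj
    · have hk1 : s.getD k false = true := (c.letter k).2 ⟨j, hj, c.HBP_sub hj hkj⟩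
      have hr := HP_range (c.HBP_sub hj hkj)
      by_cases h : B.item j = true
      · refine ⟨k + 1, by omega, Or.inl rfl, ?_⟩
        have h2 : ¬ s.getD (k + 1) false = true := by
          rw [c.ext hj (by omega) (by omega), mem_HP]
          have h3 := c.HBP_sub hj hkj
          rw [mem_HP] at h3
          rintro ⟨h4, h5, h6⟩
          have := h6 h
          have := h3.2.2 h
          omega
        exact ⟨fun _ => h2, fun _ => hk1⟩
      · have h' : B.item j = false := by simpa using h
        have h5 := c.chord3 j hj h'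
        have hbl : blen B j = B.size j := by unfold blen; simp [h']
        rw [mem_HBP_chord h'] at hkj
        rcases hkj with rfl | rfl
        · refine ⟨o j - 1, by omega, Or.inr (by omega), ?_⟩
          have h2 : ¬ s.getD (o j - 1) false = true := by
            rw [c.ext hj (by omega) (by omega), mem_HP]
            omega
          exact ⟨fun _ => h2, fun _ => hk1⟩
        · refine ⟨o j + B.size j, by omega, Or.inl (by omega), ?_⟩
          have h2 : ¬ s.getD (o j + B.size j) false = true := by
            rw [c.ext hj (by omega) (by omega), mem_HP]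
            omega
          exact ⟨fun _ => h2, fun _ => hk1⟩
    · have hk1 := c.PBP_not hj hkj
      have hr := c.PBP_range hj hkj
      by_cases h : B.item j = true
      · have h5 := c.item1 j hj h
        rw [mem_PBP_item h] at hkj
        obtain ⟨i, hi, rfl⟩ := hkj
        by_cases hi2 : i < B.size j
        · refine ⟨o j + 2 * i, ?_, Or.inl (by omega), ?_⟩
          · exact c.HP_lt hj ((mem_HP_item h).2 ⟨i, hi2, rfl⟩)
          · have h2 : s.getD (o j + 2 * i) false = true :=
              (c.letter _).2 ⟨j, hj, (mem_HP_item h).2 ⟨i, hi2, rfl⟩⟩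
            exact ⟨fun h3 => absurd h3 hk1, fun h3 => absurd h2 h3⟩
        · refine ⟨o j + 2 * (i - 1), ?_, Or.inr (by omega), ?_⟩
          · exact c.HP_lt hj ((mem_HP_item h).2 ⟨i - 1, by omega, rfl⟩)
          · have h2 : s.getD (o j + 2 * (i - 1)) false = true :=
              (c.letter _).2 ⟨j, hj, (mem_HP_item h).2 ⟨i - 1, by omega, rfl⟩⟩
            exact ⟨fun h3 => absurd h3 hk1, fun h3 => absurd h2 h3⟩
      · have h' : B.item j = false := by simpa using h
        have h5 := c.chord3 j hj h'
        rw [mem_PBP_chord h'] at hkj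
        rcases hkj with rfl | rfl
        · have h6 : o j ∈ HP B o j := (mem_HP_chord h').2 (by omega)
          refine ⟨o j, c.HP_lt hj h6, Or.inl (by omega), ?_⟩
          have h2 : s.getD (o j) false = true := (c.letter _).2 ⟨j, hj, h6⟩
          exact ⟨fun h3 => absurd h3 hk1, fun h3 => absurd h2 h3⟩
        · have h6 : o j + B.size j - 1 ∈ HP B o j := (mem_HP_chord h').2 (by omega)
          refine ⟨o j + B.size j - 1, c.HP_lt hj h6, Or.inr (by omega), ?_⟩
          have h2 : s.getD (o j + B.size j - 1) false = true := (c.letter _).2 ⟨j, hj, h6⟩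
          exact ⟨fun h3 => absurd h3 hk1, fun h3 => absurd h2 h3⟩

theorem Ctx.pdisj (c : Ctx B J o s) {i j : ι} (hi : i ∈ J) (hj : j ∈ J) (hij : i ≠ j) {k l : ℕ}
    (h1 : o i - 1 ≤ k) (h2 : k ≤ o i + blen B i) (h3 : o j - 1 ≤ l) (h4 : l ≤ o j + blen B j) :
    k ≠ l := by
  rintro rfl
  have := c.disj i hi j hj hij
  have := c.pos i hi
  have := c.pos j hj
  omega

/-- number of consecutive pairs `HH` -/
theorem Ctx.hh_eq [DecidableEq ι] (c : Ctx B J o s) :
    hh s = ∑ j ∈ J, (if B.item j then 0 else B.size j - 1) := by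
  have h1 : hh s = ((range (s.length - 1)).filter
      (fun i => s.getD i false = true ∧ s.getD (i + 1) false = true)).card := by
    unfold hh
    rw [← List.toFinset_card_of_nodup]
    · congr 1
      ext i
      simp
    · exact (List.nodup_range).filter _
  have h2 : (range (s.length - 1)).filter
      (fun i => s.getD i false = true ∧ s.getD (i + 1) false = true) =
      (J.filter (fun j => B.item j = false)).biUnion
        (fun j => Finset.Ico (o j) (o j + (B.size j - 1))) := by
    ext i
    simp only [mem_filter, mem_range, mem_biUnion, mem_Ico]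
    constructor
    · rintro ⟨h3, h4, h5⟩
      obtain ⟨j, hj, hij⟩ := (c.letter i).1 h4
      have h6 := HP_range hij
      have h7 : i + 1 ∈ HP B o j := (c.ext hj (by omega) (by omega)).1 h5
      have h8 : B.item j = false := by
        by_contra h
        have h' : B.item j = true := by simpa using h
        rw [mem_HP] at hij h7
        have := hij.2.2 h'
        have := h7.2.2 h'
        omega
      rw [mem_HP_chord h8] at hij h7
      exact ⟨j, ⟨hj, h8⟩, by omega, by omega⟩
    · rintro ⟨j, ⟨hj, h8⟩, h9, h10⟩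
      have h11 : i + 1 ∈ HP B o j := (mem_HP_chord h8).2 (by omega)
      have := c.HP_lt hj h11
      exact ⟨by omega, (c.letter _).2 ⟨j, hj, (mem_HP_chord h8).2 (by omega)⟩,
        (c.letter _).2 ⟨j, hj, h11⟩⟩
  rw [h1, h2, card_biUnion]
  · rw [sum_filter]
    refine sum_congr rfl fun j _ => ?_
    by_cases h : B.item j = true
    · simp [h]
    · have h' : B.item j = false := by simpa using h
      simp [h']
  · intro i hi j hj hij
    rw [mem_coe, mem_filter] at hi hj
    show Disjoint (Finset.Ico (o i) (o i + (B.size i - 1)))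
      (Finset.Ico (o j) (o j + (B.size j - 1)))
    rw [Finset.disjoint_left]
    intro k hk hk'
    rw [mem_Ico] at hk hk'
    have hbi : blen B i = B.size i := by unfold blen; simp [hi.2]
    have hbj : blen B j = B.size j := by unfold blen; simp [hj.2]
    exact c.pdisj hi.1 hj.1 hij (k := k) (l := k) (by omega) (by omega) (by omega) (by omega) rfl

end

/-- the folding as a function of the position -/
noncomputable def FF (s : List Bool) (f : Fin s.length → Pt) (k : ℕ) : Pt :=
  if h : k < s.length then f ⟨k, h⟩ else (0, 0)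

section

variable {s : List Bool} {f : Fin s.length → Pt}

theorem FF_inj (hf : IsFolding f) {k l : ℕ} (hk : k < s.length) (hl : l < s.length)
    (h : FF s f k = FF s f l) : k = l := by
  unfold FF at h
  rw [dif_pos hk, dif_pos hl] at h
  exact Fin.mk.inj_iff.1 (hf.1 h)

theorem FF_adj (hf : IsFolding f) {k : ℕ} (hk : k + 1 < s.length) :
    Adj (FF s f k) (FF s f (k + 1)) := by
  unfold FF
  rw [dif_pos hk, dif_pos (by omega)]
  exact hf.2 _ _ rfl

theorem mem_hsites {x : Pt} :
    x ∈ hsites s f ↔ ∃ k, k < s.length ∧ s.getD k false = true ∧ FF s f k = x := by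
  unfold hsites
  simp only [mem_image, mem_filter, mem_univ, true_and]
  constructor
  · rintro ⟨i, hi, rfl⟩
    refine ⟨i.val, i.isLt, ?_, ?_⟩
    · rw [List.getD_eq_getElem _ _ i.isLt]
      exact hi
    · unfold FF
      rw [dif_pos i.isLt]
  · rintro ⟨k, hk, h1, h2⟩
    refine ⟨⟨k, hk⟩, ?_, ?_⟩
    · rw [List.getD_eq_getElem _ _ hk] at h1
      exact h1
    · unfold FF at h2
      rwa [dif_pos hk] at h2

theorem FF_mem (hf : IsFolding f) {k : ℕ} (hk : k < s.length) :
    FF s f k ∈ hsites s f ↔ s.getD k false = true := by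
  rw [mem_hsites]
  constructor
  · rintro ⟨l, hl, h1, h2⟩
    rwa [← FF_inj hf hl hk h2]
  · intro h
    exact ⟨k, hk, h, rfl⟩

/-- chain neighbours -/
def lnk (s : List Bool) (f : Fin s.length → Pt) (x y : Pt) : Prop :=
  ∃ k l, k < s.length ∧ l < s.length ∧ (l = k + 1 ∨ k = l + 1) ∧ FF s f k = x ∧ FF s f l = y

theorem lnk_isLink (hf : IsFolding f) : IsLink (lnk s f) where
  symm := by
    rintro x y ⟨k, l, hk, hl, hkl, rfl, rfl⟩
    exact ⟨l, k, hl, hk, hkl.symm, rfl, rfl⟩
  adj := by
    rintro x y ⟨k, l, hk, hl, hkl, rfl, rfl⟩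
    rcases hkl with rfl | rfl
    · exact FF_adj hf hl
    · exact (FF_adj hf hk).symm
  deg := by
    rintro x y1 y2 y3 ⟨k1, l1, hk1, hl1, h1, rfl, rfl⟩ ⟨k2, l2, hk2, hl2, h2, e2, rfl⟩
      ⟨k3, l3, hk3, hl3, h3, e3, rfl⟩
    have g2 := FF_inj hf hk2 hk1 e2
    have g3 := FF_inj hf hk3 hk1 e3
    subst g2
    subst g3
    have : l1 = l2 ∨ l1 = l3 ∨ l2 = l3 := by omega
    rcases this with h | h | h
    · exact Or.inl (by rw [h])
    · exact Or.inr (Or.inl (by rw [h]))
    · exact Or.inr (Or.inr (by rw [h]))

end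

section

variable {ι : Type} [DecidableEq ι] {B : BlkData ι} {J : Finset ι} {o : ι → ℕ} {s : List Bool}
  {f : Fin s.length → Pt}

/-- images of position sets -/
noncomputable def img (s : List Bool) (f : Fin s.length → Pt) (K : Finset ℕ) : Finset Pt :=
  K.image (FF s f)

theorem mem_img {K : Finset ℕ} {x : Pt} : x ∈ img s f K ↔ ∃ k ∈ K, FF s f k = x := by
  unfold img
  simp

theorem card_img (hf : IsFolding f) {K : Finset ℕ} (hK : ∀ k ∈ K, k < s.length) :
    (img s f K).card = K.card := by
  unfold img
  exact card_image_of_injOn fun a ha b hb h => FF_inj hf (hK a ha) (hK b hb) h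

theorem boundary_site (c : Ctx B J o s) (hf : IsFolding f) (x : Pt) :
    (∃ j ∈ J, x ∈ img s f (HBP B o j) ∨ x ∈ img s f (PBP B o j)) ↔
      ∃ y, lnk s f x y ∧ (x ∈ hsites s f ↔ y ∉ hsites s f) := by
  constructor
  · rintro ⟨j, hj, hx⟩
    have h1 : ∃ k, k < s.length ∧ FF s f k = x ∧ (k ∈ HBP B o j ∨ k ∈ PBP B o j) := by
      rcases hx with hx | hx
      · obtain ⟨k, hk, rfl⟩ := mem_img.1 hx
        exact ⟨k, c.HP_lt hj (c.HBP_sub hj hk), rfl, Or.inl hk⟩
      · obtain ⟨k, hk, rfl⟩ := mem_img.1 hx
        exact ⟨k, c.PBP_lt hj hk, rfl, Or.inr hk⟩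
    obtain ⟨k, hk, rfl, hkj⟩ := h1
    obtain ⟨l, hl, hkl, h2⟩ := (c.boundary hk).2 ⟨j, hj, hkj⟩
    refine ⟨FF s f l, ⟨k, l, hk, hl, hkl, rfl, rfl⟩, ?_⟩
    rw [FF_mem hf hk, FF_mem hf hl]
    exact h2
  · rintro ⟨y, ⟨k, l, hk, hl, hkl, rfl, rfl⟩, h⟩
    rw [FF_mem hf hk, FF_mem hf hl] at h
    obtain ⟨j, hj, h1⟩ := (c.boundary hk).1 ⟨l, hl, hkl, h⟩
    refine ⟨j, hj, ?_⟩
    rcases h1 with h1 | h1
    · exact Or.inl (mem_img.2 ⟨k, h1, rfl⟩)
    · exact Or.inr (mem_img.2 ⟨k, h1, rfl⟩)

theorem img_disj (c : Ctx B J o s) (hf : IsFolding f) {i j : ι} (hi : i ∈ J) (hj : j ∈ J)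
    (hij : i ≠ j) {K L : Finset ℕ} (hK : ∀ k ∈ K, o i - 1 ≤ k ∧ k ≤ o i + blen B i)
    (hL : ∀ k ∈ L, o j - 1 ≤ k ∧ k ≤ o j + blen B j) :
    Disjoint (img s f K) (img s f L) := by
  rw [Finset.disjoint_left]
  intro x hx hx'
  obtain ⟨k, hk, rfl⟩ := mem_img.1 hx
  obtain ⟨l, hl, hkl⟩ := mem_img.1 hx'
  have h1 := hK k hk
  have h2 := hL l hl
  have h3 := c.fit i hi
  have h4 := c.fit j hj
  have h5 := FF_inj hf (k := l) (l := k) (by omega) (by omega) hkl
  exact c.pdisj hi hj hij h1.1 h1.2 h2.1 h2.2 h5.symm

theorem cover (c : Ctx B J o s) (hf : IsFolding f) (x : Pt) :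
    x ∈ hsites s f ↔ ∃ j ∈ J, x ∈ img s f (HP B o j) := by
  rw [mem_hsites]
  constructor
  · rintro ⟨k, hk, h1, rfl⟩
    obtain ⟨j, hj, h2⟩ := (c.letter k).1 h1
    exact ⟨j, hj, mem_img.2 ⟨k, h2, rfl⟩⟩
  · rintro ⟨j, hj, h1⟩
    obtain ⟨k, hk, rfl⟩ := mem_img.1 h1
    exact ⟨k, c.HP_lt hj hk, (c.letter k).2 ⟨j, hj, hk⟩, rfl⟩

/-- connection inside a block -/
theorem conn_block (c : Ctx B J o s) (hf : IsFolding f) {j : ι} (hj : j ∈ J) :
    ∀ p ∈ img s f (HP B o j), ∀ q ∈ img s f (HP B o j), Relation.ReflTransGen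
    (fun a b => b ∈ hsites s f ∧ (Adj a b ∨ ∃ x, x ∉ hsites s f ∧ Adj a x ∧ Adj x b)) p q := by
  set R : Pt → Pt → Prop := fun a b => b ∈ hsites s f ∧
    (Adj a b ∨ ∃ x, x ∉ hsites s f ∧ Adj a x ∧ Adj x b) with hR
  have h0 := c.pos j hj
  have hfit := c.fit j hj
  -- one step
  by_cases h : B.item j = true
  · have hbl : blen B j = 2 * B.size j - 1 := by unfold blen; simp [h]
    have step : ∀ i, i + 1 < B.size j → R (FF s f (o j + 2 * i)) (FF s f (o j + 2 * (i + 1))) ∧
        R (FF s f (o j + 2 * (i + 1))) (FF s f (o j + 2 * i)) := by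
      intro i hi
      have m1 : FF s f (o j + 2 * i) ∈ hsites s f := (cover c hf _).2
        ⟨j, hj, mem_img.2 ⟨_, (mem_HP_item h).2 ⟨i, by omega, rfl⟩, rfl⟩⟩
      have m2 : FF s f (o j + 2 * (i + 1)) ∈ hsites s f := (cover c hf _).2
        ⟨j, hj, mem_img.2 ⟨_, (mem_HP_item h).2 ⟨i + 1, by omega, rfl⟩, rfl⟩⟩
      have m3 : FF s f (o j + 2 * i + 1) ∉ hsites s f := by
        rw [FF_mem hf (by omega)]
        refine c.PBP_not hj ((mem_PBP_item h).2 ⟨i + 1, by omega, by omega⟩)
      have a1 : Adj (FF s f (o j + 2 * i)) (FF s f (o j + 2 * i + 1)) := FF_adj hf (by omega)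
      have a2 : Adj (FF s f (o j + 2 * i + 1)) (FF s f (o j + 2 * (i + 1))) :=
        FF_adj hf (k := o j + 2 * i + 1) (by omega)
      exact ⟨⟨m2, Or.inr ⟨_, m3, a1, a2⟩⟩, ⟨m1, Or.inr ⟨_, m3, a2.symm, a1.symm⟩⟩⟩
    have up : ∀ n i, i + n < B.size j →
        Relation.ReflTransGen R (FF s f (o j + 2 * i)) (FF s f (o j + 2 * (i + n))) ∧
        Relation.ReflTransGen R (FF s f (o j + 2 * (i + n))) (FF s f (o j + 2 * i)) := by
      intro n
      induction n with
      | zero => intro i _; exact ⟨Relation.ReflTransGen.refl, Relation.ReflTransGen.refl⟩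
      | succ n ih =>
        intro i hi
        obtain ⟨u1, u2⟩ := ih i (by omega)
        obtain ⟨v1, v2⟩ := step (i + n) (by omega)
        exact ⟨u1.tail v1, Relation.ReflTransGen.head v2 u2⟩
    intro p hp q hq
    obtain ⟨k, hk, rfl⟩ := mem_img.1 hp
    obtain ⟨l, hl, rfl⟩ := mem_img.1 hq
    obtain ⟨i, hi, rfl⟩ := (mem_HP_item h).1 hk
    obtain ⟨i', hi', rfl⟩ := (mem_HP_item h).1 hl
    rcases le_total i i' with hii | hii
    · have := (up (i' - i) i (by omega)).1
      rwa [Nat.add_sub_cancel' hii] at this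
    · have := (up (i - i') i' (by omega)).2
      rwa [Nat.add_sub_cancel' hii] at this
  · have h' : B.item j = false := by simpa using h
    have hbl : blen B j = B.size j := by unfold blen; simp [h']
    have step : ∀ i, i + 1 < B.size j → R (FF s f (o j + i)) (FF s f (o j + (i + 1))) ∧
        R (FF s f (o j + (i + 1))) (FF s f (o j + i)) := by
      intro i hi
      have m1 : FF s f (o j + i) ∈ hsites s f := (cover c hf _).2
        ⟨j, hj, mem_img.2 ⟨_, (mem_HP_chord h').2 (by omega), rfl⟩⟩
      have m2 : FF s f (o j + (i + 1)) ∈ hsites s f := (cover c hf _).2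
        ⟨j, hj, mem_img.2 ⟨_, (mem_HP_chord h').2 (by omega), rfl⟩⟩
      have a1 : Adj (FF s f (o j + i)) (FF s f (o j + (i + 1))) :=
        FF_adj hf (k := o j + i) (by omega)
      exact ⟨⟨m2, Or.inl a1⟩, ⟨m1, Or.inl a1.symm⟩⟩
    have up : ∀ n i, i + n < B.size j →
        Relation.ReflTransGen R (FF s f (o j + i)) (FF s f (o j + (i + n))) ∧
        Relation.ReflTransGen R (FF s f (o j + (i + n))) (FF s f (o j + i)) := by
      intro n
      induction n with
      | zero => intro i _; exact ⟨Relation.ReflTransGen.refl, Relation.ReflTransGen.refl⟩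
      | succ n ih =>
        intro i hi
        obtain ⟨u1, u2⟩ := ih i (by omega)
        obtain ⟨v1, v2⟩ := step (i + n) (by omega)
        exact ⟨u1.tail v1, Relation.ReflTransGen.head v2 u2⟩
    intro p hp q hq
    obtain ⟨k, hk, rfl⟩ := mem_img.1 hp
    obtain ⟨l, hl, rfl⟩ := mem_img.1 hq
    rw [mem_HP_chord h'] at hk hl
    rcases le_total k l with hii | hii
    · have := (up (l - k) (k - o j) (by omega)).1
      rwa [show o j + (k - o j) = k by omega, show o j + (k - o j + (l - k)) = l by omega] at this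
    · have := (up (k - l) (l - o j) (by omega)).2
      rwa [show o j + (l - o j) = l by omega, show o j + (l - o j + (k - l)) = k by omega] at this

theorem padj_block (c : Ctx B J o s) (hf : IsFolding f) {j : ι} (hj : j ∈ J) :
    ∀ x ∈ img s f (PBP B o j), ∃ p ∈ img s f (HP B o j), Adj x p := by
  intro x hx
  obtain ⟨k, hk, rfl⟩ := mem_img.1 hx
  have h0 := c.pos j hj
  have hfit := c.fit j hj
  have hlt := c.PBP_lt hj hk
  by_cases h : B.item j = true
  · have h5 := c.item1 j hj h
    rw [mem_PBP_item h] at hk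
    obtain ⟨i, hi, rfl⟩ := hk
    by_cases hi2 : i < B.size j
    · have hm : o j + 2 * i ∈ HP B o j := (mem_HP_item h).2 ⟨i, hi2, rfl⟩
      refine ⟨FF s f (o j + 2 * i), mem_img.2 ⟨_, hm, rfl⟩, ?_⟩
      have h7 : o j + 2 * i = (o j - 1 + 2 * i) + 1 := by omega
      have h8 := c.HP_lt hj hm
      rw [h7]
      exact FF_adj hf (by omega)
    · have hm : o j + 2 * (i - 1) ∈ HP B o j := (mem_HP_item h).2 ⟨i - 1, by omega, rfl⟩
      refine ⟨FF s f (o j + 2 * (i - 1)), mem_img.2 ⟨_, hm, rfl⟩, ?_⟩
      have h7 : o j - 1 + 2 * i = (o j + 2 * (i - 1)) + 1 := by omega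
      rw [h7] at hlt ⊢
      exact (FF_adj hf hlt).symm
  · have h' : B.item j = false := by simpa using h
    have h5 := c.chord3 j hj h'
    rw [mem_PBP_chord h'] at hk
    rcases hk with rfl | rfl
    · have hm : o j ∈ HP B o j := (mem_HP_chord h').2 (by omega)
      refine ⟨FF s f (o j), mem_img.2 ⟨_, hm, rfl⟩, ?_⟩
      have h8 := c.HP_lt hj hm
      have h7 : o j = (o j - 1) + 1 := by omega
      have h9 : Adj (FF s f (o j - 1)) (FF s f ((o j - 1) + 1)) := FF_adj hf (by omega)
      rwa [← h7] at h9
    · have hm : o j + B.size j - 1 ∈ HP B o j := (mem_HP_chord h').2 (by omega)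
      refine ⟨FF s f (o j + B.size j - 1), mem_img.2 ⟨_, hm, rfl⟩, ?_⟩
      have h9 : Adj (FF s f (o j + B.size j - 1)) (FF s f ((o j + B.size j - 1) + 1)) :=
        FF_adj hf (by omega)
      rw [show (o j + B.size j - 1) + 1 = o j + B.size j by omega] at h9
      exact h9.symm

end

end Pool.Agent.H329.PosAux

namespace Pool.Agent.H329

open Finset PosAux

theorem Pos_proof (hE : S_EdgesBdry) (hC : S_Contacts) (hL : S_Local) : S_Pos := by
  intro ι _ B J o s hlay h1 h3 h6 f hf hcon
  have c : Ctx B J o s := Ctx.of hlay h1 h3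
  set S := hsites s f with hS
  set HS : ι → Finset Pt := fun j => img s f (HP B o j) with hHS
  set HB : ι → Finset Pt := fun j => img s f (HBP B o j) with hHB
  set PB : ι → Finset Pt := fun j => img s f (PBP B o j) with hPB
  have cHS : ∀ j ∈ J, (HS j).card = B.size j := fun j hj => by
    rw [hHS]
    simp only
    rw [card_img hf (fun k hk => c.HP_lt hj hk), card_HP]
  have cHB : ∀ j ∈ J, (HB j).card = if B.item j then B.size j else 2 := fun j hj => by
    rw [hHB]
    simp only
    rw [card_img hf (fun k hk => c.HP_lt hj (c.HBP_sub hj hk)), c.card_HBP hj]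
  have cPB : ∀ j ∈ J, (PB j).card = if B.item j then B.size j + 1 else 2 := fun j hj => by
    rw [hPB]
    simp only
    rw [card_img hf (fun k hk => c.PBP_lt hj hk), c.card_PBP hj]
  have rH : ∀ j ∈ J, ∀ k ∈ HP B o j, o j - 1 ≤ k ∧ k ≤ o j + blen B j := fun j hj k hk => by
    have := HP_range hk
    omega
  have rP : ∀ j ∈ J, ∀ k ∈ PBP B o j, o j - 1 ≤ k ∧ k ≤ o j + blen B j :=
    fun j hj k hk => c.PBP_range hj hk
  have hSU : S = J.biUnion HS := by
    ext x
    rw [mem_biUnion]
    exact cover c hf x
  have hScard : S.card = ∑ j ∈ J, B.size j := by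
    rw [hSU, card_biUnion]
    · exact sum_congr rfl cHS
    · intro i hi j hj hij
      exact img_disj c hf hi hj hij (rH i hi) (rH j hj)
  set A : Finset Pt := J.biUnion (fun j => HB j ∪ PB j) with hA
  have pout : ∀ j ∈ J, Disjoint (PB j) S := by
    intro j hj
    rw [Finset.disjoint_left]
    intro x hx hx'
    obtain ⟨k, hk, rfl⟩ := mem_img.1 hx
    rw [hS, FF_mem hf (c.PBP_lt hj hk)] at hx'
    exact c.PBP_not hj hk hx'
  have sub : ∀ j ∈ J, HB j ⊆ HS j := fun j hj => image_subset_image (c.HBP_sub hj)
  have hSsub : ∀ j ∈ J, HS j ⊆ S := fun j hj x hx => (cover c hf x).2 ⟨j, hj, hx⟩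
  have hAcard : A.card = ∑ j ∈ J, ((HB j).card + (PB j).card) := by
    rw [hA, card_biUnion]
    · refine sum_congr rfl fun j hj => ?_
      rw [card_union_of_disjoint]
      refine Disjoint.symm (Finset.disjoint_of_subset_right ?_ (pout j hj))
      exact (sub j hj).trans (hSsub j hj)
    · intro i hi j hj hij
      have e1 : ∀ i, HB i ∪ PB i = img s f (HBP B o i ∪ PBP B o i) := by
        intro i
        rw [hHB, hPB]
        simp only [img]
        rw [image_union]
      show Disjoint (HB i ∪ PB i) (HB j ∪ PB j)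
      rw [e1 i, e1 j]
      refine img_disj c hf hi hj hij ?_ ?_
      · intro k hk
        rcases mem_union.1 hk with hk | hk
        · exact rH i hi k (c.HBP_sub hi hk)
        · exact rP i hi k hk
      · intro k hk
        rcases mem_union.1 hk with hk | hk
        · exact rH j hj k (c.HBP_sub hj hk)
        · exact rP j hj k hk
  have hAmem : ∀ x, x ∈ A ↔ ∃ j ∈ J, x ∈ HB j ∨ x ∈ PB j := by
    intro x
    rw [hA]
    simp only [mem_biUnion, mem_union]
  have hAl : ∀ x, x ∈ A ↔ ∃ y, lnk s f x y ∧ (x ∈ S ↔ y ∉ S) := by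
    intro x
    rw [hAmem x]
    exact boundary_site c hf x
  -- the boundary is small
  have hb : bdry S ≤ A.card := by
    have e1 := hE S
    have e2 := hC s f hf
    have e3 := c.hh_eq
    have e4 : A.card = ∑ j ∈ J, (if B.item j then 2 * B.size j + 1 else 4) := by
      rw [hAcard]
      refine sum_congr rfl fun j hj => ?_
      rw [cHB j hj, cPB j hj]
      split_ifs <;> omega
    have e5 : ∑ j ∈ J, (if B.item j then 2 * B.size j + 1 else 4) +
        (∑ j ∈ J, (if B.item j then 0 else 6)) =
        ∑ j ∈ J, (if B.item j then 2 * B.size j else 10) +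
        ∑ j ∈ J, (if B.item j then 1 else 0) := by
      rw [← sum_add_distrib, ← sum_add_distrib]
      refine sum_congr rfl fun j hj => ?_
      split_ifs <;> omega
    have e6 : ∑ j ∈ J, (if B.item j then (0 : ℕ) else 6) =
        6 * (J.filter fun j => B.item j = false).card := by
      rw [card_filter, mul_sum]
      refine sum_congr rfl fun j hj => ?_
      by_cases h : B.item j = true
      · simp [h]
      · have h' : B.item j = false := by simpa using h
        simp [h']
    have e7 : ∑ j ∈ J, (if B.item j then (1 : ℕ) else 0) =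
        (J.filter fun j => B.item j = true).card := by
      rw [card_filter]
    have e8 : 6 * ∑ j ∈ J, B.size j = ∑ j ∈ J, (if B.item j then 2 * B.size j else 10) +
        2 * (∑ j ∈ J, (if B.item j then 2 * B.size j else 2 * (B.size j - 2))) +
        2 * ∑ j ∈ J, (if B.item j then 0 else B.size j - 1) := by
      rw [mul_sum, mul_sum, mul_sum, ← sum_add_distrib, ← sum_add_distrib]
      refine sum_congr rfl fun j hj => ?_
      by_cases h : B.item j = true
      · simp only [h, if_true]
        omega
      · have h' : B.item j = false := by simpa using h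
        have := h3 j hj h'
        simp only [h', Bool.false_eq_true, if_false]
        omega
    rw [← hS] at e2
    rw [e6, e7] at e5
    omega
  have hloc := hL S A (lnk s f) (lnk_isLink hf) hAl hb
  refine ⟨S, HS, HB, PB, ?_, cHS, cHB, cPB⟩
  exact
    { disj := fun i hi j hj hij => img_disj c hf hi hj hij (rH i hi) (rH j hj)
      cover := fun x => cover c hf x
      nonempty := fun j hj => by
        rw [← card_pos, cHS j hj]
        by_cases h : B.item j = true
        · exact h1 j hj h
        · have h' : B.item j = false := by simpa using h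
          have := h3 j hj h'
          omega
      sub := sub
      pout := pout
      pdisj := fun i hi j hj hij => img_disj c hf hi hj hij (rP i hi) (rP j hj)
      chg1 := fun x hx => by
        have := (hloc x).1
        rwa [if_pos ((hAmem x).2 hx)] at this
      chg0 := fun x hx => by
        have := (hloc x).1
        rwa [if_neg (fun h => hx ((hAmem x).1 h))] at this
      nonsol := fun x => (hloc x).2
      conn := fun j hj => conn_block c hf hj
      padj := fun j hj => padj_block c hf hj }

end Pool.Agent.H329
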