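import Pool.Agent.H329.Geo2
import Pool.Agent.H329.Grd

/-!
# Statements of the project

Every `S_...` is a proposition to be proved in its own file as `..._proof : S_...`.
-/

namespace Pool.Agent.H329

open Finset Pool.Agent.NPC

attribute [-instance] Int.instConditionallyCompleteLinearOrder

/-! ### Part A: structure theorem -/

/-- isoperimetric inequality -/
def S_Iso : Prop := ∀ S : Finset Pt, 48 * S.card ≤ bdry S ^ 2 + 12

/-- the boundary is the total number of changes -/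
def S_ChgSum : Prop := ∀ S U : Finset Pt, nbhd S ⊆ U → bdry S = ∑ x ∈ U, chg S x

def S_EdgesBdry : Prop := ∀ S : Finset Pt, 2 * edges S + bdry S = 6 * S.card

def S_Contacts : Prop := ∀ (s : List Bool) (f : Fin s.length → Pt), IsFolding f →
  contacts s f + hh s = edges (hsites s f)

/-- connected sets of points -/
def Conn (S : Finset Pt) : Prop :=
  ∀ p ∈ S, ∀ q ∈ S, Relation.ReflTransGen (fun a b => b ∈ S ∧ Adj a b) p q

def S_Euler : Prop := ∀ S : Finset Pt, S.Nonempty → Conn S →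
  bdry S ≤ 2 * (∑ x ∈ S, chg S x) + 6

/-- a symmetric relation between adjacent points, at most two partners for each point -/
structure IsLink (link : Pt → Pt → Prop) : Prop where
  symm : ∀ x y, link x y → link y x
  adj : ∀ x y, link x y → Adj x y
  deg : ∀ x y1 y2 y3, link x y1 → link x y2 → link x y3 → y1 = y2 ∨ y1 = y3 ∨ y2 = y3

def S_Local : Prop := ∀ (S A : Finset Pt) (link : Pt → Pt → Prop), IsLink link →
  (∀ x, x ∈ A ↔ ∃ y, link x y ∧ (x ∈ S ↔ y ∉ S)) → bdry S ≤ A.card →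
  ∀ x, (chg S x = if x ∈ A then 1 else 0) ∧ ∃ d : Fin 6, (x ∈ S ↔ x + dir d ∈ S)

/-- Data of a tight set: blocks `j ∈ J` with their `H`-sites `HS j`, those which need a change
`HB j`, and the `P`-sites which need a change `PB j`. -/
structure Tight {ι : Type} [DecidableEq ι] (J : Finset ι) (S : Finset Pt)
    (HS HB PB : ι → Finset Pt) : Prop where
  disj : ∀ i ∈ J, ∀ j ∈ J, i ≠ j → Disjoint (HS i) (HS j)
  cover : ∀ x, x ∈ S ↔ ∃ j ∈ J, x ∈ HS j
  nonempty : ∀ j ∈ J, (HS j).Nonempty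
  sub : ∀ j ∈ J, HB j ⊆ HS j
  pout : ∀ j ∈ J, Disjoint (PB j) S
  pdisj : ∀ i ∈ J, ∀ j ∈ J, i ≠ j → Disjoint (PB i) (PB j)
  chg1 : ∀ x, (∃ j ∈ J, x ∈ HB j ∨ x ∈ PB j) → chg S x = 1
  chg0 : ∀ x, (¬ ∃ j ∈ J, x ∈ HB j ∨ x ∈ PB j) → chg S x = 0
  nonsol : ∀ x, ∃ d : Fin 6, (x ∈ S ↔ x + dir d ∈ S)
  conn : ∀ j ∈ J, ∀ p ∈ HS j, ∀ q ∈ HS j, Relation.ReflTransGen
    (fun a b => b ∈ S ∧ (Adj a b ∨ ∃ x, x ∉ S ∧ Adj a x ∧ Adj x b)) p q
  padj : ∀ j ∈ J, ∀ x ∈ PB j, ∃ p ∈ HS j, Adj x p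

def S_Comp : Prop := ∀ (ι : Type) [DecidableEq ι] (J : Finset ι) (S : Finset Pt)
  (HS HB PB : ι → Finset Pt), Tight J S HS HB PB →
  ∃ κ : ι → Pt, ∀ t, (J.filter fun j => κ j = t).Nonempty →
    ∑ j ∈ J.filter (fun j => κ j = t), (PB j).card ≤
      ∑ j ∈ J.filter (fun j => κ j = t), (HB j).card + 6 ∧
    48 * ∑ j ∈ J.filter (fun j => κ j = t), (HS j).card ≤
      (∑ j ∈ J.filter (fun j => κ j = t), ((HB j).card + (PB j).card)) ^ 2 + 12

/-- The conclusion of the structure theorem. -/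
def Packing {ι : Type} [DecidableEq ι] (B : BlkData ι) (J : Finset ι) (p : ι → ℕ) : Prop :=
  ∃ φ : ι → ι, (∀ j ∈ J, B.item j = true → φ j ∈ J ∧ B.item (φ j) = false) ∧
    ∀ t ∈ J, B.item t = false →
      (J.filter fun j => B.item j = true ∧ φ j = t).card = 6 ∧
      (∑ j ∈ J.filter (fun j => B.item j = true ∧ φ j = t), B.size j) = p t - 2

/-- The numerical hypotheses of the structure theorem. -/
structure NumHyp {ι : Type} [DecidableEq ι] (B : BlkData ι) (J : Finset ι) (p : ι → ℕ) : Prop where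
  item_pos : ∀ j ∈ J, B.item j = true → 1 ≤ B.size j
  chord_ge : ∀ j ∈ J, B.item j = false → 3 ≤ B.size j
  p_ge : ∀ j ∈ J, B.item j = false → 10 ≤ p j
  n1 : ∃ amax cmin : ℕ, (∀ j ∈ J, B.item j = true → B.size j ≤ amax) ∧
    (∀ j ∈ J, B.item j = false → cmin ≤ B.size j) ∧
    (6 * amax + 2 * (J.filter fun j => B.item j = false).card + 3) ^ 2 + 3 < 24 * cmin
  n2 : ∀ t ∈ J, B.item t = false → (p t + 2) ^ 2 + 3 < 12 * (p t - 3 + B.size t)
  n3a : (J.filter fun j => B.item j = true).card = 6 * (J.filter fun j => B.item j = false).card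
  n3b : ∑ j ∈ J.filter (fun j => B.item j = true), B.size j =
    ∑ t ∈ J.filter (fun j => B.item j = false), (p t - 2)

/-- final arithmetic of the structure theorem -/
def S_Arith : Prop := ∀ (ι : Type) [DecidableEq ι] (B : BlkData ι) (J : Finset ι) (p : ι → ℕ)
  (κ : ι → Pt), NumHyp B J p →
  (∀ t, (J.filter fun j => κ j = t).Nonempty →
    ((J.filter fun j => κ j = t).filter fun j => B.item j = true).card ≤ 6 ∧
    48 * ∑ j ∈ J.filter (fun j => κ j = t), B.size j ≤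
      (∑ j ∈ J.filter (fun j => κ j = t), (if B.item j then 2 * B.size j + 1 else 4)) ^ 2 + 12) →
  Packing B J p

/-- Positions of the blocks in a word. -/
structure Layout {ι : Type} [DecidableEq ι] (B : BlkData ι) (J : Finset ι) (o : ι → ℕ)
    (s : List Bool) : Prop where
  pos : ∀ j ∈ J, 1 ≤ o j
  fit : ∀ j ∈ J, o j + (B.blkWord j).length < s.length
  disj : ∀ i ∈ J, ∀ j ∈ J, i ≠ j →
    o i + (B.blkWord i).length < o j - 1 ∨ o j + (B.blkWord j).length < o i - 1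
  letter : ∀ k, s.getD k false = true ↔
    ∃ j ∈ J, o j ≤ k ∧ k < o j + (B.blkWord j).length ∧ (B.blkWord j).getD (k - o j) false = true

/-- from a folding with many contacts to a tight set -/
def S_Pos : Prop := ∀ (ι : Type) [DecidableEq ι] (B : BlkData ι) (J : Finset ι) (o : ι → ℕ)
  (s : List Bool), Layout B J o s →
  (∀ j ∈ J, B.item j = true → 1 ≤ B.size j) → (∀ j ∈ J, B.item j = false → 3 ≤ B.size j) →
  (J.filter fun j => B.item j = true).card = 6 * (J.filter fun j => B.item j = false).card →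
  ∀ f : Fin s.length → Pt, IsFolding f →
  ∑ j ∈ J, (if B.item j then 2 * B.size j else 2 * (B.size j - 2)) ≤ contacts s f →
  ∃ (S : Finset Pt) (HS HB PB : ι → Finset Pt), Tight J S HS HB PB ∧
    (∀ j ∈ J, (HS j).card = B.size j) ∧
    (∀ j ∈ J, (HB j).card = if B.item j then B.size j else 2) ∧
    (∀ j ∈ J, (PB j).card = if B.item j then B.size j + 1 else 2)

/-- separated token lists have a layout -/
def S_TokLayout : Prop := ∀ (ι : Type) [DecidableEq ι] (B : BlkData ι) (l : List (Tok ι)), Sep l →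
  (labels l).Nodup → (∀ j ∈ labels l, 1 ≤ B.size j) →
  (∃ o, Layout B (labels l).toFinset o (B.word l)) ∧
  B.K l = ∑ j ∈ (labels l).toFinset, (if B.item j then 2 * B.size j else 2 * (B.size j - 2)) ∧
  hh (B.word l) = ∑ j ∈ (labels l).toFinset, (if B.item j then 0 else B.size j - 1)

/-- the structure theorem -/
def S_Structure : Prop := ∀ (ι : Type) [DecidableEq ι] (B : BlkData ι) (l : List (Tok ι))
  (p : ι → ℕ), Sep l → (labels l).Nodup → NumHyp B (labels l).toFinset p →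
  HPFold (B.word l, B.K l) → Packing B (labels l).toFinset p

/-! ### Part B: numbers -/

/-- `B_h`-property of the codes -/
def S_Codes : Prop := ∀ (G : Grid) (P Q : Multiset ℕ), (∀ x ∈ P, x ≤ n0 G) → (∀ x ∈ Q, x ≤ n0 G) →
  P.card + Q.card ≤ 24 → (P.map (code G)).sum = (Q.map (code G)).sum → P = Q

/-- codes are at most `24 (n0 RR)^24` -/
def S_CodeLe : Prop := ∀ (G : Grid) (x : ℕ), x ≤ n0 G → 32 * code G x + 4 ≤ D0 G

/-- fillers are used only in their own bins -/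
def S_Force : Prop := ∀ (M N c0 i0 : ℕ) (β l nv nc : ℕ → ℕ → ℕ),
  1 ≤ c0 → c0 ≤ M → 1 ≤ i0 → i0 ≤ N →
  (∀ c i, β c i ≤ 1) → (∀ c i, l c i ≤ 1) →
  (∀ c i, β c i = 1 → 1 ≤ c ∧ c ≤ M ∧ 1 ≤ i ∧ i ≤ N) →
  (∀ c i, l c i = 1 → 1 ≤ c ∧ c ≤ M ∧ 1 ≤ i ∧ i ≤ N) →
  (∀ c i, c ≤ M → 1 ≤ i → i ≤ N → nv c i + β c i + l (c + 1) i =
    (if c = c0 ∧ i = i0 then 2 else 0) + (if c + 1 = c0 ∧ i = i0 then 1 else 0) + β (c + 1) i) →
  (∀ c i, 1 ≤ c → c ≤ M → i ≤ N → nc c i + β c i + l c (i + 1) =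
    (if c = c0 ∧ i + 1 = i0 then 2 else 0) + (if c = c0 ∧ i = i0 then 1 else 0) + l c i) →
  (∀ c i, β c i = 1 → c = c0 ∧ i = i0) ∧ (∀ c i, l c i = 1 → c = c0 ∧ i = i0)

/-- which labels occur -/
def LabOk (G : Grid) : Lab → Prop
  | .vH c i => c + 1 ≤ G.M ∧ 1 ≤ i ∧ i ≤ G.N
  | .vL c i => 1 ≤ c ∧ c ≤ G.M ∧ 1 ≤ i ∧ i ≤ G.N
  | .cH c i => 1 ≤ c ∧ c ≤ G.M ∧ ((1 ≤ i ∧ i + 1 ≤ G.N) ∨ (i = 0 ∧ G.hL c ≠ 1) ∨
      (i = G.N ∧ G.hR c = 1))
  | .cL c i => 1 ≤ c ∧ c ≤ G.M ∧ ((1 ≤ i ∧ i + 1 ≤ G.N) ∨ (i = 0 ∧ G.hL c = 1) ∨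
      (i = G.N ∧ G.hR c ≠ 1))
  | .lr c i => 1 ≤ c ∧ c ≤ G.M ∧ 1 ≤ i ∧ i ≤ G.N
  | .b c i => 1 ≤ c ∧ c ≤ G.M ∧ 1 ≤ i ∧ i ≤ G.N
  | .ch c i => 1 ≤ c ∧ c ≤ G.M ∧ 1 ≤ i ∧ i ≤ G.N

/-- the token list of an instance: separated, labels without repetitions, and which occur -/
def S_Inst : Prop := ∀ G : Grid, G.Valid → Sep (toks G) ∧ (labels (toks G)).Nodup ∧
  ∀ j, j ∈ labels (toks G) ↔ LabOk G j

/-- perimeter function on labels -/
def pL (G : Grid) : Lab → ℕ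
  | .ch c i => pp G c i
  | _ => 0

/-- sums over the labels -/
def S_Sums : Prop := ∀ G : Grid, G.Valid →
  ((labels (toks G)).toFinset.filter fun j => j.item = true).card =
    6 * ((labels (toks G)).toFinset.filter fun j => j.item = false).card ∧
  ∑ j ∈ (labels (toks G)).toFinset.filter (fun j => j.item = true), Lab.size G j =
    ∑ c ∈ Icc 1 G.M, ∑ i ∈ Icc 1 G.N, (pp G c i - 2)

/-- inequalities for a hexagon with sides close to `8u` -/
def S_HexIneq : Prop := ∀ D u a b c d T : ℕ, 100 * (D + 1) ^ 2 ≤ u → T ≤ D →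
  a ≤ D → b ≤ D → c ≤ D → d ≤ D →
  -- lT = 8u+a, lUR = 8u+b, lLL = 8u+c, lUL = 8u+d
  let p := 2 * (8 * u + a) + 2 * (8 * u + d) + (8 * u + b) + (8 * u + c)
  let n := hexN (16 * u + a + b) (16 * u + c + d) (8 * u + c) (8 * u + b)
  2 * hexN (16 * u + a + b) (16 * u + c + d) (8 * u + c) (8 * u + b) +
      ((8 * u + c) * (8 * u + c + 1) + (8 * u + b) * (8 * u + b + 1)) =
    2 * ((16 * u + a + b + 1) * (16 * u + c + d + 1)) ∧
  p + 190 * u ^ 2 ≤ n ∧ (p + 2) ^ 2 + 3 < 12 * (p - 3 + (n - (p - 2))) ∧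
  (6 * (8 * u + 3 * D + 4) + 2 * T + 3) ^ 2 + 3 < 24 * (n - (p - 2))

/-- numerical hypotheses for the instance -/
def S_Num : Prop := ∀ G : Grid, G.Valid → NumHyp (bd G) (labels (toks G)).toFinset (pL G)

/-- forward direction -/
def S_Forward : Prop := ∀ G : Grid, G.Valid → HPFold (gword G, gK G) → ∃ v h, G.Sol v h

/-- the grid instance of a formula -/
def S_GridSat : Prop := ∀ φ : List (Lit ℕ × Lit ℕ × Lit ℕ), Distinct3 φ → Bounded3 φ → φ ≠ [] →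
  (gridOf φ).Valid ∧ (SAT3 φ ↔ ∃ v h, (gridOf φ).Sol v h)

/-! ### Part C: geometry -/

/-- the points of a labelled list -/
def ptsOf (l : List (Pt × Bool)) : List Pt := l.map Prod.fst

def S_StrandPath : Prop := ∀ (u : ℤ) (b : BinP) (σ : Side), b.Ok u →
  IsPath (entryPt u σ) (ptsOf (strand u b σ)) (exitPt u σ)

def S_StrandNodup : Prop := ∀ (u : ℤ) (b : BinP) (σ : Side), b.Ok u → (ptsOf (strand u b σ)).Nodup

def S_StrandDisj : Prop := ∀ (u : ℤ) (b : BinP) (σ τ : Side), b.Ok u → σ ≠ τ →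
  ∀ p ∈ ptsOf (strand u b σ), p ∉ ptsOf (strand u b τ)

def S_StrandBox : Prop := ∀ (u : ℤ) (b : BinP) (σ : Side), b.Ok u →
  ∀ p ∈ ptsOf (strand u b σ), -4 * u ≤ p.1 ∧ p.1 ≤ 20 * u ∧ -3 * u ≤ p.2 ∧ p.2 ≤ 24 * u

/-- letters of a strand -/
def S_StrandLetters : Prop := ∀ (u : ℤ) (b : BinP) (σ : Side), b.Ok u →
  0 ≤ enLen u b σ ∧ 0 ≤ exLen u b σ ∧
  (strand u b σ).map Prod.snd =
    pp0 (enLen u b σ) ++ ((core b σ).map Prod.snd ++ pp0 (exLen u b σ))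

/-- letters of a core -/
def S_CoreLetters : Prop := ∀ (u : ℤ) (b : BinP), b.Ok u →
  (∀ σ, σ ≠ Side.CH → 3 ≤ asz b σ ∧ (core b σ).map Prod.snd = itemWord (asz b σ).toNat) ∧
  (core b .CH).map Prod.snd = List.replicate
    (hexN b.x1.toNat b.y1.toNat b.s0.toNat b.lUR.toNat -
      ((2 * b.lT + 2 * b.lUL + b.lUR + b.lLL).toNat - 2)) true

/-- the `H`-sites of the strands of a bin are the hexagon -/
def S_StrandHex : Prop := ∀ (u : ℤ) (b : BinP), b.Ok u →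
  ∀ p, (∃ σ, (p, true) ∈ strand u b σ) ↔ p ∈ b.hex

def S_HexCard : Prop := ∀ (u : ℤ) (b : BinP), b.Ok u →
  b.hex.card = hexN b.x1.toNat b.y1.toNat b.s0.toNat b.lUR.toNat

/-- edges of a hexagon -/
def S_HexEdges : Prop := ∀ (u : ℤ) (b : BinP), b.Ok u →
  3 * b.hex.card ≤ edges b.hex + ((2 * b.lT + 2 * b.lUL + b.lUR + b.lLL).toNat + 3)

/-- the largest allowed number of detours -/
def pcCap (u : ℤ) : Pc → ℤ
  | .C1b | .V0b => 22 * u
  | _ => 12 * u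

def S_Piece : Prop := ∀ (u n : ℤ) (x : Pc), 100 ≤ u → 0 ≤ n → n ≤ pcCap u x →
  IsPath (pcStart u x) (piece u n x) (pcEnd u x) ∧
  ((piece u n x).length : ℤ) = pcLen u x + n ∧ (piece u n x).Nodup ∧
  ∀ p ∈ piece u n x, 20 * u + 1 ≤ p.1 ∧ p.1 ≤ 80 * u - 1 ∧ x.ylo * u ≤ p.2 ∧ p.2 ≤ x.yhi * u - 1

def S_PieceDisj : Prop := ∀ (u n m : ℤ) (x y : Pc), 100 ≤ u → 0 ≤ n → n ≤ pcCap u x → 0 ≤ m →
  m ≤ pcCap u y → x.slab = y.slab → x ≠ y → ∀ p ∈ piece u n x, p ∉ piece u m y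

/-- the path of a group is a path with the right letters -/
def S_GrpPath : Prop := ∀ (u : ℤ) (g : Grp), g.Ok u →
  IsPath (50 * u, 0) (ptsOf (g.path u)) (50 * u, 29 * u) ∧
  (g.path u).map Prod.snd = g.letters u

/-- points of a group path: in the corridor, or in one of the strands -/
def S_GrpPts : Prop := ∀ (u : ℤ) (g : Grp), g.Ok u → (ptsOf (g.path u)).Nodup ∧
  (∀ p ∈ ptsOf (g.path u), (20 * u + 1 ≤ p.1 ∧ p.1 ≤ 80 * u - 1 ∧ 0 ≤ p.2 ∧ p.2 ≤ 29 * u - 1) ∨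
    ∃ σ, p ∈ ptsOf (g.st u σ)) ∧
  (∀ q : Pt × Bool, q.2 = true → (q ∈ g.path u ↔ ∃ σ, q ∈ g.st u σ))

/-! ### Part D: assembly -/

/-- the bins of a solved instance are admissible, and have the right sizes -/
def S_BinOk : Prop := ∀ (G : Grid) (v h : ℕ → ℕ → ℕ), G.Valid → G.Sol v h → ∀ s c,
  (binOf G v h s c).b.Ok (uu G) ∧ (binOf G v h s c).r = real G s c

/-- the word of a group is the word of its tokens -/
def S_GrpWord : Prop := ∀ (G : Grid) (v h : ℕ → ℕ → ℕ), G.Valid → G.Sol v h → ∀ s c, c ≤ G.M →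
  (grpOf G v h s c).letters (uu G) = (bd G).word (grp G s c)

def S_FullLetters : Prop := ∀ (G : Grid) (v h : ℕ → ℕ → ℕ), G.Valid → G.Sol v h →
  (fullPath G v h).map Prod.snd = gword G

def S_FullPath : Prop := ∀ (G : Grid) (v h : ℕ → ℕ → ℕ), G.Valid → G.Sol v h →
  (ptsOf (fullPath G v h)).IsChain Adj

def S_FullNodup : Prop := ∀ (G : Grid) (v h : ℕ → ℕ → ℕ), G.Valid → G.Sol v h →
  (ptsOf (fullPath G v h)).Nodup

/-- the `H`-sites of the folding are the translated hexagons of the real bins -/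
def S_FullH : Prop := ∀ (G : Grid) (v h : ℕ → ℕ → ℕ), G.Valid → G.Sol v h → ∀ p : Pt,
  (p, true) ∈ fullPath G v h ↔ ∃ c i, 1 ≤ c ∧ c ≤ G.M ∧ 1 ≤ i ∧ i ≤ G.N ∧
    ∃ q ∈ (binOf G v h (c + i) c).b.hex, p = q + org (uu G) (c + i) c

def S_Backward : Prop := ∀ (G : Grid) (v h : ℕ → ℕ → ℕ), G.Valid → G.Sol v h →
  HPFold (gword G, gK G)

/-! ### Part E: complexity -/

def S_PolyRed : Prop := Poly (fun φ : List (Lit ℕ × Lit ℕ × Lit ℕ) =>
  (gword (gridOf φ), gK (gridOf φ)))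

def S_InNP : Prop := InNPP HPFold

/-! ### The final theorem -/

theorem final (hF : S_Forward) (hB : S_Backward) (hG : S_GridSat) (hP : S_PolyRed)
    (hN : S_InNP) : InNPP HPFold ∧ NPHardP HPFold := by
  refine ⟨hN, HardI.toNPHardP ?_⟩
  refine HardPr.toHardI (Pr := fun _ => True) ?_
  refine HardPr.trans hardPr_SAT3b hP (fun _ _ => trivial) ?_
  rintro φ ⟨h1, h2, h3⟩
  obtain ⟨hv, hs⟩ := hG φ h1 h2 h3
  rw [hs]
  constructor
  · rintro ⟨v, h, hsol⟩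
    exact hB _ v h hv hsol
  · intro h
    exact hF _ hv h

end Pool.Agent.H329
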