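import Pool.Agent.H329.Spec

/-!
# Auxiliary lemmas on segments, runs, zigzags and strands
-/

namespace Pool.Agent.H329.StrAux

open Pool.Agent.H329

attribute [-instance] Int.instConditionallyCompleteLinearOrder

/-! ### Segments -/

theorem seg_eq (p d : Pt) (n : ℤ) : seg p d n = (List.range n.toNat).map fun j : ℕ =>
    ((p.1 + (j : ℤ) * d.1, p.2 + (j : ℤ) * d.2) : Pt) := by
  unfold seg
  simp only [List.bind_eq_flatMap, List.pure_def, List.map_flatMap, List.map_cons, List.map_nil]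
  induction List.range n.toNat with
  | nil => rfl
  | cons a l ih => rw [List.flatMap_cons, ih]; rfl

theorem mem_seg {x p d : Pt} {n : ℤ} : x ∈ seg p d n ↔
    ∃ j : ℤ, 0 ≤ j ∧ j < n ∧ x.1 = p.1 + j * d.1 ∧ x.2 = p.2 + j * d.2 := by
  rw [seg_eq]
  rw [List.mem_map]
  constructor
  · rintro ⟨j, hj, rfl⟩
    rw [List.mem_range] at hj
    exact ⟨j, by omega, by omega, rfl, rfl⟩
  · rintro ⟨j, h0, h1, h2, h3⟩
    refine ⟨j.toNat, by rw [List.mem_range]; omega, ?_⟩
    rw [Int.toNat_of_nonneg h0]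
    exact Prod.ext h2.symm h3.symm

theorem length_seg (p d : Pt) (n : ℤ) : (seg p d n).length = n.toNat := by
  simp [seg_eq]

theorem nodup_seg {p d : Pt} {n : ℤ} (hd : d.1 ≠ 0 ∨ d.2 ≠ 0) : (seg p d n).Nodup := by
  rw [seg_eq]
  refine (List.nodup_map_iff_inj_on List.nodup_range).2 ?_
  intro a _ b _ h
  have h1 := congrArg Prod.fst h
  have h2 := congrArg Prod.snd h
  simp only at h1 h2
  rcases hd with hd | hd
  · have := mul_right_cancel₀ hd (add_left_cancel h1)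
    exact_mod_cast this
  · have := mul_right_cancel₀ hd (add_left_cancel h2)
    exact_mod_cast this

theorem nodup_app {α : Type} {l m : List α} (h1 : l.Nodup) (h2 : m.Nodup)
    (h : ∀ x ∈ l, x ∉ m) : (l ++ m).Nodup :=
  List.Nodup.append h1 h2 fun x hx hy => h x hx hy

/-! ### Paths -/

theorem isPath_nil (p : Pt) : IsPath p [] p := ⟨rfl, by simp⟩

theorem isPath_append {p q r : Pt} {l m : List Pt} (h1 : IsPath p l q) (h2 : IsPath q m r) :
    IsPath p (l ++ m) r := by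
  obtain ⟨a1, a2⟩ := h1
  obtain ⟨b1, b2⟩ := h2
  constructor
  · cases l with
    | nil =>
      simp only [List.nil_append, List.head?_cons, Option.some.injEq] at a1
      subst a1
      simpa using b1
    | cons x l => simpa using a1
  · rw [List.append_assoc]
    rw [List.isChain_append] at a2 ⊢
    refine ⟨a2.1, b2, ?_⟩
    intro x hx y hy
    rw [b1] at hy
    refine a2.2.2 x hx y ?_
    simpa using hy

theorem isPath_single {p q : Pt} (h : Adj p q) : IsPath p [p] q := by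
  constructor
  · rfl
  · simpa using h

theorem isPath_cast {p p' q q' : Pt} {l : List Pt} (h : IsPath p l q) (h1 : p = p') (h2 : q = q') :
    IsPath p' l q' := by
  subst h1
  subst h2
  exact h

theorem adj_add {p d : Pt} (hd : Adj (0, 0) d) : Adj p (p.1 + d.1, p.2 + d.2) := by
  unfold Adj at *
  simp only [sub_zero] at hd
  simp only [add_sub_cancel_left]
  exact hd

theorem isPath_map {f : ℕ → Pt} {n : ℕ} (h : ∀ j, j < n → Adj (f j) (f (j + 1))) :
    IsPath (f 0) ((List.range n).map f) (f n) := by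
  induction n with
  | zero => exact isPath_nil _
  | succ k ih =>
    rw [List.range_succ, List.map_append]
    exact isPath_append (ih fun j hj => h j (by omega)) (isPath_single (h k (by omega)))

theorem isPath_flatMap {f : ℕ → Pt} {L : ℕ → List Pt} {n : ℕ}
    (h : ∀ j, j < n → IsPath (f j) (L j) (f (j + 1))) :
    IsPath (f 0) ((List.range n).flatMap L) (f n) := by
  induction n with
  | zero => exact isPath_nil _
  | succ k ih =>
    rw [List.range_succ, List.flatMap_append]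
    refine isPath_append (ih fun j hj => h j (by omega)) ?_
    simpa using h k (by omega)

theorem isPath_seg {p d : Pt} {n : ℤ} (hn : 0 ≤ n) (hd : Adj (0, 0) d) :
    IsPath p (seg p d n) (p.1 + n * d.1, p.2 + n * d.2) := by
  have h := isPath_map (f := fun j : ℕ => ((p.1 + (j : ℤ) * d.1, p.2 + (j : ℤ) * d.2) : Pt))
    (n := n.toNat) (fun j _ => by
      have := adj_add (p := (p.1 + (j : ℤ) * d.1, p.2 + (j : ℤ) * d.2)) hd
      refine cast (congrArg _ ?_) this
      refine Prod.ext ?_ ?_ <;> push_cast <;> ring)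
  rw [← seg_eq] at h
  refine isPath_cast h ?_ ?_
  · simp
  · rw [Int.toNat_of_nonneg hn]

/-- a segment with a given end point -/
theorem isPath_seg' {p d q : Pt} {n : ℤ} (hn : 1 ≤ n) (hd : Adj (0, 0) d)
    (hq : Adj (p.1 + (n - 1) * d.1, p.2 + (n - 1) * d.2) q) : IsPath p (seg p d n) q := by
  have e : seg p d n = seg p d (n - 1) ++ [(p.1 + (n - 1) * d.1, p.2 + (n - 1) * d.2)] := by
    rw [seg_eq, seg_eq, show n.toNat = (n - 1).toNat + 1 by omega, List.range_succ, List.map_append]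
    simp only [List.map_cons, List.map_nil]
    rw [Int.toNat_of_nonneg (by omega)]
  rw [e]
  exact isPath_append (isPath_seg (by omega) hd) (isPath_single hq)

/-! ### Runs -/

theorem mem_runs_nil {x p : Pt} : x ∈ runs p [] ↔ False := by simp [runs]

theorem mem_runs_cons {x p d : Pt} {n : ℤ} {rs : List (Pt × ℤ)} : x ∈ runs p ((d, n) :: rs) ↔
    (∃ j : ℤ, 0 ≤ j ∧ j < n ∧ x.1 = p.1 + j * d.1 ∧ x.2 = p.2 + j * d.2) ∨
      x ∈ runs (p.1 + n * d.1, p.2 + n * d.2) rs := by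
  rw [runs, List.mem_append, mem_seg]

theorem isPath_runs {p : Pt} {rs : List (Pt × ℤ)} (h : ∀ r ∈ rs, 0 ≤ r.2 ∧ Adj (0, 0) r.1) :
    IsPath p (runs p rs) (runsEnd p rs) := by
  induction rs generalizing p with
  | nil => exact isPath_nil p
  | cons r rs ih =>
    obtain ⟨d, n⟩ := r
    rw [runs, runsEnd]
    have h1 := h (d, n) (by simp)
    exact isPath_append (isPath_seg h1.1 h1.2) (ih fun r hr => h r (by simp [hr]))

theorem length_runs (p : Pt) (rs : List (Pt × ℤ)) :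
    (runs p rs).length = (rs.map fun r => r.2.toNat).sum := by
  induction rs generalizing p with
  | nil => rfl
  | cons r rs ih =>
    obtain ⟨d, n⟩ := r
    rw [runs, List.length_append, length_seg, ih]
    simp

theorem nodup_runs_cons {p d : Pt} {n : ℤ} {rs : List (Pt × ℤ)} (hd : d.1 ≠ 0 ∨ d.2 ≠ 0)
    (h1 : (runs (p.1 + n * d.1, p.2 + n * d.2) rs).Nodup)
    (h2 : ∀ x : Pt, ∀ j : ℤ, 0 ≤ j → j < n → x.1 = p.1 + j * d.1 → x.2 = p.2 + j * d.2 →
      x ∉ runs (p.1 + n * d.1, p.2 + n * d.2) rs) : (runs p ((d, n) :: rs)).Nodup := by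
  rw [runs]
  refine nodup_app (nodup_seg hd) h1 ?_
  intro x hx
  obtain ⟨j, a, b, c, e⟩ := mem_seg.1 hx
  exact h2 x j a b c e

/-! ### Zigzags -/

theorem mem_zig {x : Pt} {c : Bool} {h d1 d2 : Pt} {a : ℤ} : (x, c) ∈ zig h d1 d2 a ↔
    (c = true ∧ ∃ k : ℤ, 0 ≤ k ∧ k < a ∧ x.1 = h.1 + k * (d1.1 + d2.1) ∧
      x.2 = h.2 + k * (d1.2 + d2.2)) ∨
    (c = false ∧ ∃ k : ℤ, 0 ≤ k ∧ k < a - 1 ∧ x.1 = h.1 + k * (d1.1 + d2.1) + d1.1 ∧
      x.2 = h.2 + k * (d1.2 + d2.2) + d1.2) := by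
  unfold zig
  rw [List.mem_map]
  constructor
  · rintro ⟨j, hj, he⟩
    rw [List.mem_range] at hj
    rw [Prod.mk.injEq] at he
    obtain ⟨he, hc⟩ := he
    have he1 := congrArg Prod.fst he
    have he2 := congrArg Prod.snd he
    simp only at he1 he2
    rcases Nat.mod_two_eq_zero_or_one j with h0 | h0
    · left
      simp only [h0, ite_true, add_zero, beq_self_eq_true] at he1 he2 hc
      exact ⟨hc.symm, ((j / 2 : ℕ) : ℤ), by omega, by omega, he1.symm, he2.symm⟩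
    · right
      simp only [h0, one_ne_zero, ite_false] at he1 he2 hc
      exact ⟨by simpa using hc.symm, ((j / 2 : ℕ) : ℤ), by omega, by omega, he1.symm, he2.symm⟩
  · rintro (⟨rfl, k, h0, h1, h2, h3⟩ | ⟨rfl, k, h0, h1, h2, h3⟩)
    · refine ⟨2 * k.toNat, by rw [List.mem_range]; omega, ?_⟩
      have e1 : 2 * k.toNat / 2 = k.toNat := by omega
      have e2 : 2 * k.toNat % 2 = 0 := by omega
      rw [e1, e2, Int.toNat_of_nonneg h0]
      simp only [ite_true, add_zero]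
      rw [← h2, ← h3]
      rfl
    · refine ⟨2 * k.toNat + 1, by rw [List.mem_range]; omega, ?_⟩
      have e1 : (2 * k.toNat + 1) / 2 = k.toNat := by omega
      have e2 : (2 * k.toNat + 1) % 2 = 1 := by omega
      rw [e1, e2, Int.toNat_of_nonneg h0]
      simp only [one_ne_zero, ite_false]
      rw [← h2, ← h3]
      rfl

theorem mem_ptsOf {x : Pt} {l : List (Pt × Bool)} :
    x ∈ ptsOf l ↔ (x, true) ∈ l ∨ (x, false) ∈ l := by
  unfold ptsOf
  rw [List.mem_map]
  constructor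
  · rintro ⟨⟨y, c⟩, h, rfl⟩
    cases c
    · exact Or.inr h
    · exact Or.inl h
  · rintro (h | h)
    · exact ⟨_, h, rfl⟩
    · exact ⟨_, h, rfl⟩

theorem mem_pts_zig {x : Pt} {h d1 d2 : Pt} {a : ℤ} : x ∈ ptsOf (zig h d1 d2 a) ↔
    (∃ k : ℤ, 0 ≤ k ∧ k < a ∧ x.1 = h.1 + k * (d1.1 + d2.1) ∧ x.2 = h.2 + k * (d1.2 + d2.2)) ∨
    (∃ k : ℤ, 0 ≤ k ∧ k < a - 1 ∧ x.1 = h.1 + k * (d1.1 + d2.1) + d1.1 ∧
      x.2 = h.2 + k * (d1.2 + d2.2) + d1.2) := by
  rw [mem_ptsOf, mem_zig, mem_zig]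
  simp

theorem isPath_zig {h d1 d2 : Pt} {a : ℤ} (ha : 1 ≤ a) (h1 : Adj (0, 0) d1)
    (h2 : Adj (0, 0) d2) : IsPath h (ptsOf (zig h d1 d2 a))
      (h.1 + (a - 1) * (d1.1 + d2.1) + d1.1, h.2 + (a - 1) * (d1.2 + d2.2) + d1.2) := by
  have e : ptsOf (zig h d1 d2 a) = (List.range (2 * a - 1).toNat).map fun j : ℕ =>
      ((h.1 + ((j / 2 : ℕ) : ℤ) * (d1.1 + d2.1) + (if j % 2 = 0 then 0 else d1.1),
      h.2 + ((j / 2 : ℕ) : ℤ) * (d1.2 + d2.2) + (if j % 2 = 0 then 0 else d1.2)) : Pt) := by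
    unfold ptsOf zig
    rw [List.map_map]
    rfl
  rw [e]
  have hp := isPath_map (f := fun j : ℕ =>
      ((h.1 + ((j / 2 : ℕ) : ℤ) * (d1.1 + d2.1) + (if j % 2 = 0 then 0 else d1.1),
      h.2 + ((j / 2 : ℕ) : ℤ) * (d1.2 + d2.2) + (if j % 2 = 0 then 0 else d1.2)) : Pt))
      (n := (2 * a - 1).toNat) (fun j _ => by
        rcases Nat.mod_two_eq_zero_or_one j with h0 | h0
        · have e1 : (j + 1) % 2 = 1 := by omega
          have e2 : (j + 1) / 2 = j / 2 := by omega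
          simp only [h0, e1, e2, ite_true, one_ne_zero, ite_false, add_zero]
          exact adj_add h1
        · have e1 : (j + 1) % 2 = 0 := by omega
          have e2 : (j + 1) / 2 = j / 2 + 1 := by omega
          simp only [h0, e1, e2, ite_true, one_ne_zero, ite_false, add_zero]
          refine cast (congrArg _ ?_) (adj_add (p := (h.1 + ((j / 2 : ℕ) : ℤ) * (d1.1 + d2.1) + d1.1,
            h.2 + ((j / 2 : ℕ) : ℤ) * (d1.2 + d2.2) + d1.2)) h2)
          refine Prod.ext ?_ ?_ <;> push_cast <;> ring)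
  refine isPath_cast hp ?_ ?_
  · simp
  · have e1 : (2 * a - 1).toNat % 2 = 1 := by omega
    have e2 : (((2 * a - 1).toNat / 2 : ℕ) : ℤ) = a - 1 := by omega
    simp only [e1, e2, one_ne_zero, ite_false]

theorem length_zig (h d1 d2 : Pt) (a : ℤ) : (zig h d1 d2 a).length = (2 * a - 1).toNat := by
  simp [zig]

theorem zig_letters (h d1 d2 : Pt) {a : ℤ} : (zig h d1 d2 a).map Prod.snd = itemWord a.toNat := by
  unfold zig itemWord
  rw [List.map_map, show (2 * a - 1).toNat = 2 * a.toNat - 1 by omega]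
  rfl

theorem nodup_zig {h d1 d2 : Pt} {a : ℤ}
    (hdet : d1.1 * (d1.2 + d2.2) - d1.2 * (d1.1 + d2.1) ≠ 0) : (ptsOf (zig h d1 d2 a)).Nodup := by
  have e : ptsOf (zig h d1 d2 a) = (List.range (2 * a - 1).toNat).map fun j : ℕ =>
      ((h.1 + ((j / 2 : ℕ) : ℤ) * (d1.1 + d2.1) + (if j % 2 = 0 then 0 else d1.1),
      h.2 + ((j / 2 : ℕ) : ℤ) * (d1.2 + d2.2) + (if j % 2 = 0 then 0 else d1.2)) : Pt) := by
    unfold ptsOf zig
    rw [List.map_map]
    rfl
  rw [e]
  refine (List.nodup_map_iff_inj_on List.nodup_range).2 ?_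
  intro i _ j _ hij
  have h1 := congrArg Prod.fst hij
  have h2 := congrArg Prod.snd hij
  simp only at h1 h2
  have hs : ∀ i : ℕ, (if i % 2 = 0 then (0 : ℤ) else d1.1) = ((i % 2 : ℕ) : ℤ) * d1.1 := by
    intro i
    rcases Nat.mod_two_eq_zero_or_one i with h0 | h0 <;> simp [h0]
  have hs' : ∀ i : ℕ, (if i % 2 = 0 then (0 : ℤ) else d1.2) = ((i % 2 : ℕ) : ℤ) * d1.2 := by
    intro i
    rcases Nat.mod_two_eq_zero_or_one i with h0 | h0 <;> simp [h0]
  rw [hs, hs] at h1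
  rw [hs', hs'] at h2
  have k1 : (((i / 2 : ℕ) : ℤ) - ((j / 2 : ℕ) : ℤ)) *
      (d1.1 * (d1.2 + d2.2) - d1.2 * (d1.1 + d2.1)) = 0 := by
    linear_combination d1.1 * h2 - d1.2 * h1
  have k2 : (((i % 2 : ℕ) : ℤ) - ((j % 2 : ℕ) : ℤ)) *
      (d1.1 * (d1.2 + d2.2) - d1.2 * (d1.1 + d2.1)) = 0 := by
    linear_combination (d1.2 + d2.2) * h1 - (d1.1 + d2.1) * h2
  rcases mul_eq_zero.1 k1 with k1 | k1
  · rcases mul_eq_zero.1 k2 with k2 | k2
    · omega
    · exact absurd k2 hdet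
  · exact absurd k1 hdet

/-! ### Letters -/

theorem ptsOf_append (l m : List (Pt × Bool)) : ptsOf (l ++ m) = ptsOf l ++ ptsOf m := by
  simp [ptsOf]

theorem ptsOf_ps (l : List Pt) : ptsOf (ps l) = l := by
  unfold ptsOf ps
  rw [List.map_map]
  exact List.map_id l

theorem ptsOf_hs (l : List Pt) : ptsOf (hs l) = l := by
  unfold ptsOf hs
  rw [List.map_map]
  exact List.map_id l

theorem ps_snd (l : List Pt) : (ps l).map Prod.snd = List.replicate l.length false := by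
  unfold ps
  rw [List.map_map]
  simp [Function.comp_def]

theorem hs_snd (l : List Pt) : (hs l).map Prod.snd = List.replicate l.length true := by
  unfold hs
  rw [List.map_map]
  simp [Function.comp_def]

theorem mem_ps {x : Pt} {c : Bool} {l : List Pt} : (x, c) ∈ ps l ↔ c = false ∧ x ∈ l := by
  unfold ps
  rw [List.mem_map]
  constructor
  · rintro ⟨y, hy, he⟩
    rw [Prod.mk.injEq] at he
    obtain ⟨rfl, rfl⟩ := he
    exact ⟨rfl, hy⟩
  · rintro ⟨rfl, h⟩
    exact ⟨x, h, rfl⟩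

theorem mem_hs {x : Pt} {c : Bool} {l : List Pt} : (x, c) ∈ hs l ↔ c = true ∧ x ∈ l := by
  unfold hs
  rw [List.mem_map]
  constructor
  · rintro ⟨y, hy, he⟩
    rw [Prod.mk.injEq] at he
    obtain ⟨rfl, rfl⟩ := he
    exact ⟨rfl, hy⟩
  · rintro ⟨rfl, h⟩
    exact ⟨x, h, rfl⟩

theorem ptsOf_strand (u : ℤ) (b : BinP) (σ : Side) : ptsOf (strand u b σ) =
    runs (entryPt u σ) (enRuns u b σ) ++ (ptsOf (core b σ) ++
      runs (exStart b σ) (exRuns u b σ)) := by
  unfold strand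
  rw [ptsOf_append, ptsOf_append, ptsOf_ps, ptsOf_ps]

/-! ### The chord -/

theorem chordA_eq (b : BinP) : chordA b = (List.range (b.y1 - 1).toNat).map fun j : ℕ =>
    ((b.xr (b.y1 - 1 - j), b.y1 - 1 - j) : Pt) := by
  unfold chordA
  simp only [List.bind_eq_flatMap, List.pure_def, List.map_flatMap, List.map_cons, List.map_nil]
  induction List.range (b.y1 - 1).toNat with
  | nil => rfl
  | cons a l ih => rw [List.flatMap_cons, ih]; rfl

theorem mem_chordA {b : BinP} {p : Pt} : p ∈ chordA b ↔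
    1 ≤ p.2 ∧ p.2 ≤ b.y1 - 1 ∧ p.1 = b.xr p.2 := by
  rw [chordA_eq]
  rw [List.mem_map]
  constructor
  · rintro ⟨j, hj, rfl⟩
    rw [List.mem_range] at hj
    exact ⟨by simp only; omega, by simp only; omega, rfl⟩
  · rintro ⟨h1, h2, h3⟩
    refine ⟨(b.y1 - 1 - p.2).toNat, by rw [List.mem_range]; omega, ?_⟩
    have e : b.y1 - 1 - (((b.y1 - 1 - p.2).toNat : ℕ) : ℤ) = p.2 := by omega
    rw [e, ← h3]

theorem mem_chordRow {b : BinP} {j : ℕ} {p : Pt} : p ∈ chordRow b j ↔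
    p.2 = (j : ℤ) + 1 ∧ b.xl p.2 ≤ p.1 ∧ p.1 ≤ b.xr p.2 - 1 := by
  unfold chordRow
  split_ifs with h
  · rw [mem_seg]
    constructor
    · rintro ⟨k, a, b1, c, d⟩
      simp only at c d
      have e : p.2 = (j : ℤ) + 1 := by omega
      rw [e]
      refine ⟨rfl, by omega, by omega⟩
    · rintro ⟨a, b1, c⟩
      rw [a] at b1 c
      exact ⟨b.xr ((j : ℤ) + 1) - 1 - p.1, by omega, by omega, by simp only; omega,
        by simp only; omega⟩
  · rw [mem_seg]
    constructor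
    · rintro ⟨k, a, b1, c, d⟩
      simp only at c d
      have e : p.2 = (j : ℤ) + 1 := by omega
      rw [e]
      refine ⟨rfl, by omega, by omega⟩
    · rintro ⟨a, b1, c⟩
      rw [a] at b1 c
      exact ⟨p.1 - b.xl ((j : ℤ) + 1), by omega, by omega, by simp only; omega,
        by simp only; omega⟩

theorem mem_chordRows {b : BinP} {p : Pt} :
    p ∈ (List.range (b.y1 - 1).toNat).flatMap (chordRow b) ↔
    1 ≤ p.2 ∧ p.2 ≤ b.y1 - 1 ∧ b.xl p.2 ≤ p.1 ∧ p.1 ≤ b.xr p.2 - 1 := by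
  rw [List.mem_flatMap]
  constructor
  · rintro ⟨j, hj, h⟩
    rw [List.mem_range] at hj
    rw [mem_chordRow] at h
    exact ⟨by omega, by omega, h.2⟩
  · rintro ⟨h1, h2, h3⟩
    refine ⟨(p.2 - 1).toNat, by rw [List.mem_range]; omega, ?_⟩
    rw [mem_chordRow]
    exact ⟨by omega, h3⟩

theorem mem_chordCore {b : BinP} {p : Pt} : p ∈ chordCore b ↔
    (p.1 = b.lT + 1 - b.t1 ∧ p.2 = b.y1 - 1 + min b.t1 1) ∨
    (1 ≤ p.2 ∧ p.2 ≤ b.y1 - 1 ∧ p.1 = b.xr p.2) ∨
    (1 ≤ p.2 ∧ p.2 ≤ b.y1 - 1 ∧ b.xl p.2 ≤ p.1 ∧ p.1 ≤ b.xr p.2 - 1) ∨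
    (p.1 = 1 - min b.t0 1 ∧ p.2 = b.y1 - max (b.t0 - 1) 0) := by
  unfold chordCore
  rw [List.mem_cons, List.mem_append, List.mem_append, mem_chordA, mem_chordRows,
    List.mem_singleton, Prod.ext_iff, Prod.ext_iff]
  rfl

end Pool.Agent.H329.StrAux
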