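import Pool.Agent.H329.Spec

/-!
# Membership in the strands (auxiliary for `S_StrandDisj` and `S_StrandHex`)
-/

namespace Pool.Agent.H329.SDAux

open Pool.Agent.H329

attribute [-instance] Int.instConditionallyCompleteLinearOrder

theorem mem_seg {x y : ℤ} {p d : Pt} {n : ℤ} (h : (x, y) ∈ seg p d n) :
    ∃ j : ℤ, 0 ≤ j ∧ j < n ∧ x = p.1 + j * d.1 ∧ y = p.2 + j * d.2 := by
  simp only [seg, List.mem_map, List.pure_def, List.bind_eq_flatMap, List.mem_flatMap,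
    List.mem_range, List.mem_singleton] at h
  obtain ⟨_, ⟨j, hj, rfl⟩, he⟩ := h
  obtain ⟨h1, h2⟩ := Prod.mk.inj he
  exact ⟨j, by omega, by omega, h1.symm, h2.symm⟩

theorem seg_mem {x y : ℤ} {p d : Pt} {n : ℤ} (j : ℤ) (h0 : 0 ≤ j) (h1 : j < n)
    (hx : x = p.1 + j * d.1) (hy : y = p.2 + j * d.2) : (x, y) ∈ seg p d n := by
  simp only [seg, List.mem_map, List.pure_def, List.bind_eq_flatMap, List.mem_flatMap,
    List.mem_range, List.mem_singleton]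
  refine ⟨_, ⟨j.toNat, by omega, rfl⟩, ?_⟩
  have : ((j.toNat : ℕ) : ℤ) = j := Int.toNat_of_nonneg h0
  rw [this, hx, hy]

theorem segR {x y a c n : ℤ} (h : (x, y) ∈ seg (a, c) (1, 0) n) : y = c ∧ a ≤ x ∧ x < a + n := by
  obtain ⟨j, h1, h2, h3, h4⟩ := mem_seg h
  simp only at h3 h4; omega

theorem segL {x y a c n : ℤ} (h : (x, y) ∈ seg (a, c) (-1, 0) n) : y = c ∧ a - n < x ∧ x ≤ a := by
  obtain ⟨j, h1, h2, h3, h4⟩ := mem_seg h
  simp only at h3 h4; omega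

theorem segU {x y a c n : ℤ} (h : (x, y) ∈ seg (a, c) (0, 1) n) : x = a ∧ c ≤ y ∧ y < c + n := by
  obtain ⟨j, h1, h2, h3, h4⟩ := mem_seg h
  simp only at h3 h4; omega

theorem segD {x y a c n : ℤ} (h : (x, y) ∈ seg (a, c) (0, -1) n) : x = a ∧ c - n < y ∧ y ≤ c := by
  obtain ⟨j, h1, h2, h3, h4⟩ := mem_seg h
  simp only at h3 h4; omega

theorem seg1 {x y a c : ℤ} {d : Pt} (h : (x, y) ∈ seg (a, c) d 1) : x = a ∧ y = c := by
  obtain ⟨j, h1, h2, h3, h4⟩ := mem_seg h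
  have : j = 0 := by omega
  subst this
  simp only at h3 h4; omega

theorem zig_mem {x y : ℤ} {t : Bool} {h d1 d2 : Pt} {a : ℤ} (hm : ((x, y), t) ∈ zig h d1 d2 a) :
    (t = true ∧ ∃ j : ℤ, 0 ≤ j ∧ j < a ∧ x = h.1 + j * (d1.1 + d2.1) ∧
      y = h.2 + j * (d1.2 + d2.2)) ∨
    (t = false ∧ ∃ j : ℤ, 0 ≤ j ∧ j < a - 1 ∧ x = h.1 + j * (d1.1 + d2.1) + d1.1 ∧
      y = h.2 + j * (d1.2 + d2.2) + d1.2) := by
  simp only [zig, List.mem_map, List.mem_range] at hm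
  obtain ⟨k, hk, he⟩ := hm
  obtain ⟨he1, h3⟩ := Prod.mk.inj he
  obtain ⟨h1, h2⟩ := Prod.mk.inj he1
  rcases Nat.mod_two_eq_zero_or_one k with h0 | h0
  · left
    rw [h0] at h1 h2 h3
    refine ⟨by simpa using h3.symm, ((k / 2 : ℕ) : ℤ), by omega, by omega, ?_, ?_⟩
    · simp only [if_true] at h1
      omega
    · simp only [if_true] at h2
      omega
  · right
    rw [h0] at h1 h2 h3
    refine ⟨by simpa using h3.symm, ((k / 2 : ℕ) : ℤ), by omega, by omega, ?_, ?_⟩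
    · simp only [one_ne_zero, if_false] at h1
      omega
    · simp only [one_ne_zero, if_false] at h2
      omega

theorem mem_zig_true {x y : ℤ} {h d1 d2 : Pt} {a : ℤ} (j : ℤ) (h0 : 0 ≤ j) (h1 : j < a)
    (hx : x = h.1 + j * (d1.1 + d2.1)) (hy : y = h.2 + j * (d1.2 + d2.2)) :
    ((x, y), true) ∈ zig h d1 d2 a := by
  simp only [zig, List.mem_map, List.mem_range]
  refine ⟨2 * j.toNat, by omega, ?_⟩
  have h2 : 2 * j.toNat % 2 = 0 := by omega
  have h3 : 2 * j.toNat / 2 = j.toNat := by omega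
  have h4 : ((j.toNat : ℕ) : ℤ) = j := Int.toNat_of_nonneg h0
  rw [h2, h3, h4]
  simp [hx, hy]

theorem mem_ptsOf {p : Pt} {l : List (Pt × Bool)} (h : p ∈ ptsOf l) : ∃ t, (p, t) ∈ l := by
  simp only [ptsOf, List.mem_map] at h
  obtain ⟨⟨q, t⟩, h1, rfl⟩ := h
  exact ⟨t, h1⟩

theorem mem_ps {p : Pt} {t : Bool} {l : List Pt} : (p, t) ∈ ps l ↔ p ∈ l ∧ t = false := by
  simp only [ps, List.mem_map, Prod.mk.injEq]
  constructor
  · rintro ⟨q, h1, rfl, rfl⟩; exact ⟨h1, rfl⟩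
  · rintro ⟨h1, rfl⟩; exact ⟨p, h1, rfl, rfl⟩

theorem mem_hs {p : Pt} {t : Bool} {l : List Pt} : (p, t) ∈ hs l ↔ p ∈ l ∧ t = true := by
  simp only [hs, List.mem_map, Prod.mk.injEq]
  constructor
  · rintro ⟨q, h1, rfl, rfl⟩; exact ⟨h1, rfl⟩
  · rintro ⟨h1, rfl⟩; exact ⟨p, h1, rfl, rfl⟩

/-- the points of the chord -/
theorem mem_chordCore {u : ℤ} {b : BinP} (hb : b.Ok u) {x y : ℤ} :
    (x, y) ∈ chordCore b ↔ (x = b.lT + 1 - b.t1 ∧ y = b.y1 - 1 + min b.t1 1) ∨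
      (1 ≤ y ∧ y ≤ b.y1 - 1 ∧ 1 ≤ x ∧ x ≤ b.x1 - 1 ∧ b.s0 + 1 ≤ x + y ∧ x + y ≤ b.s1 - 1) ∨
      (x = 1 - min b.t0 1 ∧ y = b.y1 - max (b.t0 - 1) 0) := by
  obtain ⟨o1, o2, o3, o4, o5, o6, o7, o8, o9, o10, o11, o12, o13, o14, o15, o16, o17, o18, o19,
    o20, o21, o22⟩ := hb
  have hx1 : b.x1 = b.lT + b.lUR := rfl
  have hy1 : b.y1 = b.lUL + b.lLL := rfl
  have hs0 : b.s0 = b.lLL := rfl
  have hs1 : b.s1 = b.lUL + b.lLL + b.lT := rfl
  simp only [chordCore, List.mem_cons, List.mem_append, firstH, u0pt, Prod.mk.injEq,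
    List.not_mem_nil, or_false]
  constructor
  · rintro (h | h | h | h)
    · exact Or.inl h
    · right; left
      simp only [chordA, List.mem_map, List.pure_def, List.bind_eq_flatMap, List.mem_flatMap,
        List.mem_range, List.mem_singleton, Prod.mk.injEq, BinP.xr] at h
      obtain ⟨_, ⟨j, hj, rfl⟩, h1, h2⟩ := h
      omega
    · right; left
      simp only [List.mem_flatMap, List.mem_range] at h
      obtain ⟨j, hj, h1⟩ := h
      unfold chordRow at h1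
      split_ifs at h1 with h2
      · have h3 := segL h1
        simp only [BinP.xr, BinP.xl] at h3
        omega
      · have h3 := segR h1
        simp only [BinP.xr, BinP.xl] at h3
        omega
    · exact Or.inr (Or.inr h)
  · rintro (h | h | h)
    · exact Or.inl h
    · right
      by_cases hxr : x = b.xr y
      · left
        simp only [chordA, List.mem_map, List.pure_def, List.bind_eq_flatMap, List.mem_flatMap,
          List.mem_range, List.mem_singleton, Prod.mk.injEq]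
        refine ⟨_, ⟨(b.y1 - 1 - y).toNat, by omega, rfl⟩, ?_, by omega⟩
        have : b.y1 - 1 - ((b.y1 - 1 - y).toNat : ℤ) = y := by omega
        rw [this, hxr]
      · right; left
        simp only [List.mem_flatMap, List.mem_range]
        refine ⟨(y - 1).toNat, by omega, ?_⟩
        have e1 : ((y - 1).toNat : ℤ) + 1 = y := by omega
        unfold chordRow
        rw [e1]
        have hxr1 : x < b.xr y := by
          simp only [BinP.xr] at hxr ⊢; omega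
        have hxl1 : b.xl y ≤ x := by
          simp only [BinP.xl]; omega
        split_ifs with h2
        · exact seg_mem (b.xr y - 1 - x) (by omega) (by omega) (by simp only; ring)
            (by simp only; ring)
        · exact seg_mem (x - b.xl y) (by omega) (by omega) (by simp only; ring)
            (by simp only; ring)
    · exact Or.inr (Or.inr (Or.inr h))

/-- All linear facts about an admissible bin. -/
theorem okf {u : ℤ} {b : BinP} (h : b.Ok u) :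
    (100 ≤ u ∧ 8 * u ≤ b.lT ∧ 100 * (b.lT - 8 * u) ≤ u ∧ 8 * u ≤ b.lUR ∧ 100 * (b.lUR - 8 * u) ≤ u ∧
      8 * u ≤ b.lLL ∧ 100 * (b.lLL - 8 * u) ≤ u ∧ 8 * u ≤ b.lUL ∧ 100 * (b.lUL - 8 * u) ≤ u) ∧
    (0 ≤ b.t0 ∧ b.t0 ≤ 2 ∧ 0 ≤ b.t1 ∧ b.t1 ≤ 2 ∧ 0 ≤ b.e2 ∧ b.e2 ≤ 1 ∧ 0 ≤ b.e3 ∧ b.e3 ≤ 1 ∧
      0 ≤ b.e4 ∧ b.e4 ≤ 1 ∧ 0 ≤ b.e5 ∧ b.e5 ≤ 1) ∧
    (b.x1 = b.lT + b.lUR ∧ b.y1 = b.lUL + b.lLL ∧ b.s0 = b.lLL ∧ b.s1 = b.lUL + b.lLL + b.lT ∧
      b.lLR = b.lUL + b.lLL - b.lUR ∧ b.lB = b.lT + b.lUR - b.lLL) := by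
  obtain ⟨o1, o2, o3, o4, o5, o6, o7, o8, o9, o10, o11, o12, o13, o14, o15, o16, o17, o18, o19,
    o20, o21, o22⟩ := h
  exact ⟨⟨o1, o2, o3, o4, o5, o6, o7, o8, o9⟩,
    ⟨o10, o11, o12, o13, o14, o15, o16, o17, o18, o19, o20, o21⟩, rfl, rfl, rfl, rfl, rfl, rfl⟩

end Pool.Agent.H329.SDAux
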