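import Pool.Agent.H329.StrandPath

/-!
# Strands lie in a box and have no repetitions
-/

namespace Pool.Agent.H329

attribute [-instance] Int.instConditionallyCompleteLinearOrder

open StrAux

theorem StrandBox_proof : S_StrandBox := by
  intro u b σ hb p hp
  obtain ⟨h1, h2, h3, h4, h5, h6, h7, h8, h9, t1, t2, t3, t4, e1, e2, e3, e4, e5, e6, e7, e8, hpar⟩ :=
    hb
  rw [ptsOf_strand, List.mem_append, List.mem_append] at hp
  cases σ
  · simp only [entryPt, enRuns, mem_runs_cons, mem_runs_nil, or_false, core, mem_pts_zig, firstH,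
      zd1, zd2, asz, exStart, exRuns] at hp
    simp only [BinP.x1, BinP.y1, BinP.s0, BinP.s1,
        BinP.lLR, BinP.lB, BinP.aT, BinP.aUR, BinP.aLR, BinP.aB, BinP.aLL, BinP.aUL, BinP.xr,
        BinP.xl] at *
    casesm* _ ∨ _, ∃ _, _, _ ∧ _ <;> omega
  · simp only [entryPt, enRuns, mem_runs_cons, mem_runs_nil, or_false, core, mem_pts_zig, firstH,
      zd1, zd2, asz, exStart, exRuns] at hp
    simp only [BinP.x1, BinP.y1, BinP.s0, BinP.s1,
        BinP.lLR, BinP.lB, BinP.aT, BinP.aUR, BinP.aLR, BinP.aB, BinP.aLL, BinP.aUL, BinP.xr,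
        BinP.xl] at *
    casesm* _ ∨ _, ∃ _, _, _ ∧ _ <;> omega
  · simp only [entryPt, enRuns, mem_runs_cons, mem_runs_nil, or_false, core, ptsOf_hs,
      mem_chordCore, u0pt, exStart, exRuns] at hp
    simp only [BinP.x1, BinP.y1, BinP.s0, BinP.s1,
        BinP.lLR, BinP.lB, BinP.aT, BinP.aUR, BinP.aLR, BinP.aB, BinP.aLL, BinP.aUL, BinP.xr,
        BinP.xl] at *
    casesm* _ ∨ _, ∃ _, _, _ ∧ _ <;> omega
  · simp only [entryPt, enRuns, mem_runs_cons, mem_runs_nil, or_false, core, mem_pts_zig, firstH,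
      zd1, zd2, asz, exStart, exRuns] at hp
    simp only [BinP.x1, BinP.y1, BinP.s0, BinP.s1,
        BinP.lLR, BinP.lB, BinP.aT, BinP.aUR, BinP.aLR, BinP.aB, BinP.aLL, BinP.aUL, BinP.xr,
        BinP.xl] at *
    casesm* _ ∨ _, ∃ _, _, _ ∧ _ <;> omega
  · simp only [entryPt, enRuns, mem_runs_cons, mem_runs_nil, or_false, core, mem_pts_zig, firstH,
      zd1, zd2, asz, exStart, exRuns] at hp
    simp only [BinP.x1, BinP.y1, BinP.s0, BinP.s1,
        BinP.lLR, BinP.lB, BinP.aT, BinP.aUR, BinP.aLR, BinP.aB, BinP.aLL, BinP.aUL, BinP.xr,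
        BinP.xl] at *
    casesm* _ ∨ _, ∃ _, _, _ ∧ _ <;> omega
  · simp only [entryPt, enRuns, mem_runs_cons, mem_runs_nil, or_false, core, mem_pts_zig, firstH,
      zd1, zd2, asz, exStart, exRuns] at hp
    simp only [BinP.x1, BinP.y1, BinP.s0, BinP.s1,
        BinP.lLR, BinP.lB, BinP.aT, BinP.aUR, BinP.aLR, BinP.aB, BinP.aLL, BinP.aUL, BinP.xr,
        BinP.xl] at *
    casesm* _ ∨ _, ∃ _, _, _ ∧ _ <;> omega
  · simp only [entryPt, enRuns, mem_runs_cons, mem_runs_nil, or_false, core, mem_pts_zig, firstH,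
      zd1, zd2, asz, exStart, exRuns] at hp
    simp only [BinP.x1, BinP.y1, BinP.s0, BinP.s1,
        BinP.lLR, BinP.lB, BinP.aT, BinP.aUR, BinP.aLR, BinP.aB, BinP.aLL, BinP.aUL, BinP.xr,
        BinP.xl] at *
    casesm* _ ∨ _, ∃ _, _, _ ∧ _ <;> omega

end Pool.Agent.H329
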