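import Pool.Agent.H329.StrandMem6

/-!
# The strands of a bin are disjoint
-/

namespace Pool.Agent.H329.SDAux

open Pool.Agent.H329

attribute [-instance] Int.instConditionallyCompleteLinearOrder

theorem disj_LR_UR {u : ℤ} {b : BinP} (hb : b.Ok u) {x y : ℤ} (h : DLR u b x y)
    (k : DUR u b x y) : False := by
  have ok := okf hb
  rcases h with h | h | h | h | h | h | h | h | h <;>
    rcases k with k | k | k | k | k | k | k | k <;> omega

theorem disj_LR_CH {u : ℤ} {b : BinP} (hb : b.Ok u) {x y : ℤ} (h : DLR u b x y)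
    (k : DCH u b x y) : False := by
  have ok := okf hb
  rcases h with h | h | h | h | h | h | h | h | h <;>
    rcases k with k | k | k | k | k | k | k | k | k <;> omega

theorem disj_LR_T {u : ℤ} {b : BinP} (hb : b.Ok u) {x y : ℤ} (h : DLR u b x y)
    (k : DT u b x y) : False := by
  have ok := okf hb
  rcases h with h | h | h | h | h | h | h | h | h <;>
    rcases k with k | k | k | k | k | k | k <;> omega

theorem disj_LR_B {u : ℤ} {b : BinP} (hb : b.Ok u) {x y : ℤ} (h : DLR u b x y)
    (k : DB u b x y) : False := by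
  have ok := okf hb
  rcases h with h | h | h | h | h | h | h | h | h <;>
    rcases k with k | k | k | k | k | k | k <;> omega

theorem disj_LR_LL {u : ℤ} {b : BinP} (hb : b.Ok u) {x y : ℤ} (h : DLR u b x y)
    (k : DLL u b x y) : False := by
  have ok := okf hb
  rcases h with h | h | h | h | h | h | h | h | h <;>
    rcases k with k | k | k | k | k | k | k | k <;> omega

theorem disj_LR_UL {u : ℤ} {b : BinP} (hb : b.Ok u) {x y : ℤ} (h : DLR u b x y)
    (k : DUL u b x y) : False := by
  have ok := okf hb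
  rcases h with h | h | h | h | h | h | h | h | h <;>
    rcases k with k | k | k | k | k | k | k | k | k <;> omega

theorem disj_UR_CH {u : ℤ} {b : BinP} (hb : b.Ok u) {x y : ℤ} (h : DUR u b x y)
    (k : DCH u b x y) : False := by
  have ok := okf hb
  rcases h with h | h | h | h | h | h | h | h <;>
    rcases k with k | k | k | k | k | k | k | k | k <;> omega

theorem disj_UR_T {u : ℤ} {b : BinP} (hb : b.Ok u) {x y : ℤ} (h : DUR u b x y)
    (k : DT u b x y) : False := by
  have ok := okf hb
  rcases h with h | h | h | h | h | h | h | h <;>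
    rcases k with k | k | k | k | k | k | k <;> omega

theorem disj_UR_B {u : ℤ} {b : BinP} (hb : b.Ok u) {x y : ℤ} (h : DUR u b x y)
    (k : DB u b x y) : False := by
  have ok := okf hb
  rcases h with h | h | h | h | h | h | h | h <;>
    rcases k with k | k | k | k | k | k | k <;> omega

theorem disj_UR_LL {u : ℤ} {b : BinP} (hb : b.Ok u) {x y : ℤ} (h : DUR u b x y)
    (k : DLL u b x y) : False := by
  have ok := okf hb
  rcases h with h | h | h | h | h | h | h | h <;>
    rcases k with k | k | k | k | k | k | k | k <;> omega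

theorem disj_UR_UL {u : ℤ} {b : BinP} (hb : b.Ok u) {x y : ℤ} (h : DUR u b x y)
    (k : DUL u b x y) : False := by
  have ok := okf hb
  rcases h with h | h | h | h | h | h | h | h <;>
    rcases k with k | k | k | k | k | k | k | k | k <;> omega

theorem disj_CH_T {u : ℤ} {b : BinP} (hb : b.Ok u) {x y : ℤ} (h : DCH u b x y)
    (k : DT u b x y) : False := by
  have ok := okf hb
  rcases h with h | h | h | h | h | h | h | h | h <;>
    rcases k with k | k | k | k | k | k | k <;> omega

theorem disj_CH_B {u : ℤ} {b : BinP} (hb : b.Ok u) {x y : ℤ} (h : DCH u b x y)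
    (k : DB u b x y) : False := by
  have ok := okf hb
  rcases h with h | h | h | h | h | h | h | h | h <;>
    rcases k with k | k | k | k | k | k | k <;> omega

theorem disj_CH_LL {u : ℤ} {b : BinP} (hb : b.Ok u) {x y : ℤ} (h : DCH u b x y)
    (k : DLL u b x y) : False := by
  have ok := okf hb
  rcases h with h | h | h | h | h | h | h | h | h <;>
    rcases k with k | k | k | k | k | k | k | k <;> omega

theorem disj_CH_UL {u : ℤ} {b : BinP} (hb : b.Ok u) {x y : ℤ} (h : DCH u b x y)
    (k : DUL u b x y) : False := by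
  have ok := okf hb
  rcases h with h | h | h | h | h | h | h | h | h <;>
    rcases k with k | k | k | k | k | k | k | k | k <;> omega

theorem disj_T_B {u : ℤ} {b : BinP} (hb : b.Ok u) {x y : ℤ} (h : DT u b x y)
    (k : DB u b x y) : False := by
  have ok := okf hb
  rcases h with h | h | h | h | h | h | h <;>
    rcases k with k | k | k | k | k | k | k <;> omega

theorem disj_T_LL {u : ℤ} {b : BinP} (hb : b.Ok u) {x y : ℤ} (h : DT u b x y)
    (k : DLL u b x y) : False := by
  have ok := okf hb
  rcases h with h | h | h | h | h | h | h <;>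
    rcases k with k | k | k | k | k | k | k | k <;> omega

theorem disj_T_UL {u : ℤ} {b : BinP} (hb : b.Ok u) {x y : ℤ} (h : DT u b x y)
    (k : DUL u b x y) : False := by
  have ok := okf hb
  rcases h with h | h | h | h | h | h | h <;>
    rcases k with k | k | k | k | k | k | k | k | k <;> omega

theorem disj_B_LL {u : ℤ} {b : BinP} (hb : b.Ok u) {x y : ℤ} (h : DB u b x y)
    (k : DLL u b x y) : False := by
  have ok := okf hb
  rcases h with h | h | h | h | h | h | h <;>
    rcases k with k | k | k | k | k | k | k | k <;> omega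

theorem disj_B_UL {u : ℤ} {b : BinP} (hb : b.Ok u) {x y : ℤ} (h : DB u b x y)
    (k : DUL u b x y) : False := by
  have ok := okf hb
  rcases h with h | h | h | h | h | h | h <;>
    rcases k with k | k | k | k | k | k | k | k | k <;> omega

theorem disj_LL_UL {u : ℤ} {b : BinP} (hb : b.Ok u) {x y : ℤ} (h : DLL u b x y)
    (k : DUL u b x y) : False := by
  have ok := okf hb
  rcases h with h | h | h | h | h | h | h | h <;>
    rcases k with k | k | k | k | k | k | k | k | k <;> omega

end Pool.Agent.H329.SDAux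

namespace Pool.Agent.H329

open SDAux in
theorem StrandDisj_proof : S_StrandDisj := by
  rintro u b σ τ hb hst ⟨x, y⟩ hp hq
  cases σ <;> cases τ
  · exact hst rfl
  · exact disj_LR_UR hb (mem_LR hb hp) (mem_UR hb hq)
  · exact disj_LR_CH hb (mem_LR hb hp) (mem_CH hb hq)
  · exact disj_LR_T hb (mem_LR hb hp) (mem_T hb hq)
  · exact disj_LR_B hb (mem_LR hb hp) (mem_B hb hq)
  · exact disj_LR_LL hb (mem_LR hb hp) (mem_LL hb hq)
  · exact disj_LR_UL hb (mem_LR hb hp) (mem_UL hb hq)
  · exact disj_LR_UR hb (mem_LR hb hq) (mem_UR hb hp)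
  · exact hst rfl
  · exact disj_UR_CH hb (mem_UR hb hp) (mem_CH hb hq)
  · exact disj_UR_T hb (mem_UR hb hp) (mem_T hb hq)
  · exact disj_UR_B hb (mem_UR hb hp) (mem_B hb hq)
  · exact disj_UR_LL hb (mem_UR hb hp) (mem_LL hb hq)
  · exact disj_UR_UL hb (mem_UR hb hp) (mem_UL hb hq)
  · exact disj_LR_CH hb (mem_LR hb hq) (mem_CH hb hp)
  · exact disj_UR_CH hb (mem_UR hb hq) (mem_CH hb hp)
  · exact hst rfl
  · exact disj_CH_T hb (mem_CH hb hp) (mem_T hb hq)
  · exact disj_CH_B hb (mem_CH hb hp) (mem_B hb hq)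
  · exact disj_CH_LL hb (mem_CH hb hp) (mem_LL hb hq)
  · exact disj_CH_UL hb (mem_CH hb hp) (mem_UL hb hq)
  · exact disj_LR_T hb (mem_LR hb hq) (mem_T hb hp)
  · exact disj_UR_T hb (mem_UR hb hq) (mem_T hb hp)
  · exact disj_CH_T hb (mem_CH hb hq) (mem_T hb hp)
  · exact hst rfl
  · exact disj_T_B hb (mem_T hb hp) (mem_B hb hq)
  · exact disj_T_LL hb (mem_T hb hp) (mem_LL hb hq)
  · exact disj_T_UL hb (mem_T hb hp) (mem_UL hb hq)
  · exact disj_LR_B hb (mem_LR hb hq) (mem_B hb hp)
  · exact disj_UR_B hb (mem_UR hb hq) (mem_B hb hp)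
  · exact disj_CH_B hb (mem_CH hb hq) (mem_B hb hp)
  · exact disj_T_B hb (mem_T hb hq) (mem_B hb hp)
  · exact hst rfl
  · exact disj_B_LL hb (mem_B hb hp) (mem_LL hb hq)
  · exact disj_B_UL hb (mem_B hb hp) (mem_UL hb hq)
  · exact disj_LR_LL hb (mem_LR hb hq) (mem_LL hb hp)
  · exact disj_UR_LL hb (mem_UR hb hq) (mem_LL hb hp)
  · exact disj_CH_LL hb (mem_CH hb hq) (mem_LL hb hp)
  · exact disj_T_LL hb (mem_T hb hq) (mem_LL hb hp)
  · exact disj_B_LL hb (mem_B hb hq) (mem_LL hb hp)
  · exact hst rfl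
  · exact disj_LL_UL hb (mem_LL hb hp) (mem_UL hb hq)
  · exact disj_LR_UL hb (mem_LR hb hq) (mem_UL hb hp)
  · exact disj_UR_UL hb (mem_UR hb hq) (mem_UL hb hp)
  · exact disj_CH_UL hb (mem_CH hb hq) (mem_UL hb hp)
  · exact disj_T_UL hb (mem_T hb hq) (mem_UL hb hp)
  · exact disj_B_UL hb (mem_B hb hq) (mem_UL hb hp)
  · exact disj_LL_UL hb (mem_LL hb hq) (mem_UL hb hp)
  · exact hst rfl

end Pool.Agent.H329
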