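import Pool.Agent.H329.StrandAux6

/-!
# The `H`-sites of the strands of a bin are the hexagon
-/

namespace Pool.Agent.H329.SDAux

open Pool.Agent.H329

attribute [-instance] Int.instConditionallyCompleteLinearOrder

theorem mem_strand_true {u : ℤ} {b : BinP} {σ : Side} {p : Pt} :
    (p, true) ∈ strand u b σ ↔ (p, true) ∈ core b σ := by
  simp only [strand, List.mem_append, mem_ps, Bool.true_eq_false, and_false, or_false, false_or]

theorem inLR {u : ℤ} {b : BinP} (hb : b.Ok u) {x y : ℤ} :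
    ((x, y), true) ∈ core b .LR ↔ x = b.x1 ∧ b.e3 ≤ y ∧ y ≤ b.lLR + b.e2 - 1 := by
  have ok := okf hb
  constructor
  · intro h
    rcases zig_mem h with ⟨-, j, j0, j1, h1, h2⟩ | ⟨h, -⟩
    · simp only [firstH, zd1, zd2, asz, BinP.aLR] at h1 h2 j1
      omega
    · cases h
  · intro h
    apply mem_zig_true (y - b.e3) <;> (try simp only [firstH, zd1, zd2, asz, BinP.aLR]) <;> omega

theorem inUR {u : ℤ} {b : BinP} (hb : b.Ok u) {x y : ℤ} :
    ((x, y), true) ∈ core b .UR ↔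
      x + y = b.x1 + b.lLR ∧ b.lLR + b.e2 ≤ y ∧ y ≤ b.y1 + b.t1 - 2 := by
  have ok := okf hb
  constructor
  · intro h
    rcases zig_mem h with ⟨-, j, j0, j1, h1, h2⟩ | ⟨h, -⟩
    · simp only [firstH, zd1, zd2, asz, BinP.aUR] at h1 h2 j1
      omega
    · cases h
  · intro h
    apply mem_zig_true (y - b.lLR - b.e2) <;> (try simp only [firstH, zd1, zd2, asz, BinP.aUR]) <;> omega

theorem inT {u : ℤ} {b : BinP} (hb : b.Ok u) {x y : ℤ} :
    ((x, y), true) ∈ core b .T ↔ y = b.y1 ∧ 2 - b.t0 ≤ x ∧ x ≤ b.lT - b.t1 := by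
  have ok := okf hb
  constructor
  · intro h
    rcases zig_mem h with ⟨-, j, j0, j1, h1, h2⟩ | ⟨h, -⟩
    · simp only [firstH, zd1, zd2, asz, BinP.aT] at h1 h2 j1
      omega
    · cases h
  · intro h
    apply mem_zig_true (x - 2 + b.t0) <;> (try simp only [firstH, zd1, zd2, asz, BinP.aT]) <;> omega

theorem inB {u : ℤ} {b : BinP} (hb : b.Ok u) {x y : ℤ} :
    ((x, y), true) ∈ core b .B ↔ y = 0 ∧ b.s0 + b.e4 ≤ x ∧ x ≤ b.x1 - 1 + b.e3 := by
  have ok := okf hb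
  constructor
  · intro h
    rcases zig_mem h with ⟨-, j, j0, j1, h1, h2⟩ | ⟨h, -⟩
    · simp only [firstH, zd1, zd2, asz, BinP.aB] at h1 h2 j1
      omega
    · cases h
  · intro h
    apply mem_zig_true (b.x1 - 1 + b.e3 - x) <;> (try simp only [firstH, zd1, zd2, asz, BinP.aB]) <;>
      omega

theorem inLL {u : ℤ} {b : BinP} (hb : b.Ok u) {x y : ℤ} :
    ((x, y), true) ∈ core b .LL ↔ x + y = b.s0 ∧ 1 - b.e4 ≤ y ∧ y ≤ b.s0 - b.e5 := by
  have ok := okf hb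
  constructor
  · intro h
    rcases zig_mem h with ⟨-, j, j0, j1, h1, h2⟩ | ⟨h, -⟩
    · simp only [firstH, zd1, zd2, asz, BinP.aLL] at h1 h2 j1
      omega
    · cases h
  · intro h
    apply mem_zig_true (y - 1 + b.e4) <;> (try simp only [firstH, zd1, zd2, asz, BinP.aLL]) <;> omega

theorem inUL {u : ℤ} {b : BinP} (hb : b.Ok u) {x y : ℤ} :
    ((x, y), true) ∈ core b .UL ↔ x = 0 ∧ b.s0 + 1 - b.e5 ≤ y ∧ y ≤ b.y1 - b.t0 := by
  have ok := okf hb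
  constructor
  · intro h
    rcases zig_mem h with ⟨-, j, j0, j1, h1, h2⟩ | ⟨h, -⟩
    · simp only [firstH, zd1, zd2, asz, BinP.aUL] at h1 h2 j1
      omega
    · cases h
  · intro h
    apply mem_zig_true (y - b.s0 - 1 + b.e5) <;> (try simp only [firstH, zd1, zd2, asz, BinP.aUL]) <;>
      omega

theorem inCH {u : ℤ} {b : BinP} (hb : b.Ok u) {x y : ℤ} :
    ((x, y), true) ∈ core b .CH ↔ (x = b.lT + 1 - b.t1 ∧ y = b.y1 - 1 + min b.t1 1) ∨
      (1 ≤ y ∧ y ≤ b.y1 - 1 ∧ 1 ≤ x ∧ x ≤ b.x1 - 1 ∧ b.s0 + 1 ≤ x + y ∧ x + y ≤ b.s1 - 1) ∨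
      (x = 1 - min b.t0 1 ∧ y = b.y1 - max (b.t0 - 1) 0) := by
  rw [← mem_chordCore hb]
  simp only [core, mem_hs, and_true]

theorem mem_hex {b : BinP} {x y : ℤ} : (x, y) ∈ b.hex ↔
    0 ≤ x ∧ x ≤ b.x1 ∧ 0 ≤ y ∧ y ≤ b.y1 ∧ b.s0 ≤ x + y ∧ x + y ≤ b.s1 := by
  simp only [BinP.hex, Finset.mem_filter, Finset.mem_product, Finset.mem_Icc]
  tauto

end Pool.Agent.H329.SDAux

namespace Pool.Agent.H329

open SDAux

theorem StrandHex_proof : S_StrandHex := by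
  rintro u b hb ⟨x, y⟩
  have ok := okf hb
  rw [mem_hex]
  constructor
  · rintro ⟨σ, h⟩
    rw [mem_strand_true] at h
    cases σ
    · rw [inLR hb] at h; omega
    · rw [inUR hb] at h; omega
    · rw [inCH hb] at h; omega
    · rw [inT hb] at h; omega
    · rw [inB hb] at h; omega
    · rw [inLL hb] at h; omega
    · rw [inUL hb] at h; omega
  · rintro ⟨h1, h2, h3, h4, h5, h6⟩
    simp only [mem_strand_true]
    have key : (x = b.x1 ∧ b.e3 ≤ y ∧ y ≤ b.lLR + b.e2 - 1) ∨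
        (x + y = b.x1 + b.lLR ∧ b.lLR + b.e2 ≤ y ∧ y ≤ b.y1 + b.t1 - 2) ∨
        (y = b.y1 ∧ 2 - b.t0 ≤ x ∧ x ≤ b.lT - b.t1) ∨
        (y = 0 ∧ b.s0 + b.e4 ≤ x ∧ x ≤ b.x1 - 1 + b.e3) ∨
        (x + y = b.s0 ∧ 1 - b.e4 ≤ y ∧ y ≤ b.s0 - b.e5) ∨
        (x = 0 ∧ b.s0 + 1 - b.e5 ≤ y ∧ y ≤ b.y1 - b.t0) ∨
        ((x = b.lT + 1 - b.t1 ∧ y = b.y1 - 1 + min b.t1 1) ∨
        (1 ≤ y ∧ y ≤ b.y1 - 1 ∧ 1 ≤ x ∧ x ≤ b.x1 - 1 ∧ b.s0 + 1 ≤ x + y ∧ x + y ≤ b.s1 - 1) ∨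
        (x = 1 - min b.t0 1 ∧ y = b.y1 - max (b.t0 - 1) 0)) := by
      have c : (1 ≤ y ∧ y ≤ b.y1 - 1 ∧ 1 ≤ x ∧ x ≤ b.x1 - 1 ∧ b.s0 + 1 ≤ x + y ∧
          x + y ≤ b.s1 - 1) ∨ y = b.y1 ∨ y = 0 ∨ x = 0 ∨ x = b.x1 ∨ x + y = b.s0 ∨
          x + y = b.s1 := by omega
      rcases c with c | c | c | c | c | c | c
      · exact Or.inr (Or.inr (Or.inr (Or.inr (Or.inr (Or.inr (Or.inr (Or.inl c)))))))
      · -- top
        have d : (2 - b.t0 ≤ x ∧ x ≤ b.lT - b.t1) ∨ (x = 0 ∧ b.t0 = 0) ∨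
            (x = 1 - min b.t0 1 ∧ b.t0 ≤ 1) ∨ (x = b.lT + 1 - b.t1 ∧ 1 ≤ b.t1) ∨
            (x = b.lT ∧ b.t1 = 2) := by omega
        rcases d with d | d | d | d | d
        · exact Or.inr (Or.inr (Or.inl (by omega)))
        · exact Or.inr (Or.inr (Or.inr (Or.inr (Or.inr (Or.inl (by omega))))))
        · exact Or.inr (Or.inr (Or.inr (Or.inr (Or.inr (Or.inr (Or.inr (Or.inr (by omega))))))))
        · exact Or.inr (Or.inr (Or.inr (Or.inr (Or.inr (Or.inr (Or.inl (by omega)))))))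
        · exact Or.inr (Or.inl (by omega))
      · -- bottom
        have d : (b.s0 + b.e4 ≤ x ∧ x ≤ b.x1 - 1 + b.e3) ∨ (x = b.s0 ∧ b.e4 = 1) ∨
            (x = b.x1 ∧ b.e3 = 0) := by omega
        rcases d with d | d | d
        · exact Or.inr (Or.inr (Or.inr (Or.inl (by omega))))
        · exact Or.inr (Or.inr (Or.inr (Or.inr (Or.inl (by omega)))))
        · exact Or.inl (by omega)
      · -- left
        have d : (b.s0 + 1 - b.e5 ≤ y ∧ y ≤ b.y1 - b.t0) ∨ (y = b.s0 ∧ b.e5 = 0) ∨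
            (y = b.y1 - max (b.t0 - 1) 0 ∧ 1 ≤ b.t0) ∨ (y = b.y1 ∧ b.t0 = 2) := by omega
        rcases d with d | d | d | d
        · exact Or.inr (Or.inr (Or.inr (Or.inr (Or.inr (Or.inl (by omega))))))
        · exact Or.inr (Or.inr (Or.inr (Or.inr (Or.inl (by omega)))))
        · exact Or.inr (Or.inr (Or.inr (Or.inr (Or.inr (Or.inr (Or.inr (Or.inr (by omega))))))))
        · exact Or.inr (Or.inr (Or.inl (by omega)))
      · -- right
        have d : (b.e3 ≤ y ∧ y ≤ b.lLR + b.e2 - 1) ∨ (y = 0 ∧ b.e3 = 1) ∨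
            (y = b.lLR ∧ b.e2 = 0) := by omega
        rcases d with d | d | d
        · exact Or.inl (by omega)
        · exact Or.inr (Or.inr (Or.inr (Or.inl (by omega))))
        · exact Or.inr (Or.inl (by omega))
      · -- lower left
        have d : (1 - b.e4 ≤ y ∧ y ≤ b.s0 - b.e5) ∨ (y = 0 ∧ b.e4 = 0) ∨
            (y = b.s0 ∧ b.e5 = 1) := by omega
        rcases d with d | d | d
        · exact Or.inr (Or.inr (Or.inr (Or.inr (Or.inl (by omega)))))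
        · exact Or.inr (Or.inr (Or.inr (Or.inl (by omega))))
        · exact Or.inr (Or.inr (Or.inr (Or.inr (Or.inr (Or.inl (by omega))))))
      · -- upper right
        have d : (b.lLR + b.e2 ≤ y ∧ y ≤ b.y1 + b.t1 - 2) ∨ (y = b.lLR ∧ b.e2 = 1) ∨
            (y = b.y1 - 1 + min b.t1 1 ∧ b.t1 ≤ 1) ∨ (y = b.y1 ∧ b.t1 = 0) := by omega
        rcases d with d | d | d | d
        · exact Or.inr (Or.inl (by omega))
        · exact Or.inl (by omega)
        · exact Or.inr (Or.inr (Or.inr (Or.inr (Or.inr (Or.inr (Or.inl (by omega)))))))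
        · exact Or.inr (Or.inr (Or.inl (by omega)))
    rcases key with k | k | k | k | k | k | k
    · exact ⟨.LR, (inLR hb).2 k⟩
    · exact ⟨.UR, (inUR hb).2 k⟩
    · exact ⟨.T, (inT hb).2 k⟩
    · exact ⟨.B, (inB hb).2 k⟩
    · exact ⟨.LL, (inLL hb).2 k⟩
    · exact ⟨.UL, (inUL hb).2 k⟩
    · exact ⟨.CH, (inCH hb).2 k⟩

end Pool.Agent.H329
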