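import Pool.Agent.H329.StrandAux6

/-!
# The strands of a bin are disjoint
-/

namespace Pool.Agent.H329.SDAux

open Pool.Agent.H329

attribute [-instance] Int.instConditionallyCompleteLinearOrder

/-- The points of the strand `LR`. -/
def DLR (u : ℤ) (b : BinP) (x y : ℤ) : Prop :=
  (y = u ∧ 17 * u < x ∧ x ≤ 20 * u) ∨
  (x = 17 * u ∧ b.e3 ≤ y ∧ y ≤ u) ∨
  (y = b.e3 - 1 ∧ b.x1 + 1 < x ∧ x ≤ 17 * u) ∨
  (x = b.x1 + 1 ∧ y = b.e3 - 1) ∨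
  (x = b.x1 ∧ b.e3 ≤ y ∧ y ≤ b.lLR + b.e2 - 1) ∨
  (x = b.x1 + 1 ∧ b.e3 ≤ y ∧ y ≤ b.lLR + b.e2 - 2) ∨
  (y = b.lLR + b.e2 - 1 ∧ b.x1 + 1 ≤ x ∧ x < 17 * u) ∨
  (x = 17 * u ∧ 2 * u < y ∧ y ≤ b.lLR + b.e2 - 1) ∨
  (y = 2 * u ∧ 17 * u ≤ x ∧ x ≤ 20 * u)

/-- The points of the strand `UR`. -/
def DUR (u : ℤ) (b : BinP) (x y : ℤ) : Prop :=
  (y = 9 * u ∧ 17 * u < x ∧ x ≤ 20 * u) ∨
  (x = 17 * u ∧ b.lLR + b.e2 < y ∧ y ≤ 9 * u) ∨
  (y = b.lLR + b.e2 ∧ b.x1 + 1 - b.e2 < x ∧ x ≤ 17 * u) ∨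
  (x = b.x1 + 1 - b.e2 ∧ y = b.lLR + b.e2) ∨
  (x + y = b.x1 + b.lLR ∧ b.lLR + b.e2 ≤ y ∧ y ≤ b.y1 + b.t1 - 2) ∨
  (x + y = b.x1 + b.lLR + 1 ∧ b.lLR + b.e2 + 1 ≤ y ∧ y ≤ b.y1 + b.t1 - 2) ∨
  (x = b.lT + 2 - b.t1 ∧ b.y1 - 1 + b.t1 ≤ y ∧ y < 17 * u) ∨
  (y = 17 * u ∧ b.lT + 2 - b.t1 ≤ x ∧ x ≤ 20 * u)

/-- The points of the strand `CH`. -/
def DCH (u : ℤ) (b : BinP) (x y : ℤ) : Prop :=
  (y = 21 * u ∧ b.lT + 1 - b.t1 < x ∧ x ≤ 20 * u) ∨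
  (x = b.lT + 1 - b.t1 ∧ b.y1 + min b.t1 1 < y ∧ y ≤ 21 * u) ∨
  (x = b.lT + 1 - b.t1 ∧ y = b.y1 + min b.t1 1) ∨
  (x = b.lT + 1 - b.t1 ∧ y = b.y1 - 1 + min b.t1 1) ∨
  (1 ≤ y ∧ y ≤ b.y1 - 1 ∧ 1 ≤ x ∧ x ≤ b.x1 - 1 ∧ b.s0 + 1 ≤ x + y ∧ x + y ≤ b.s1 - 1) ∨
  (x = 1 - min b.t0 1 ∧ y = b.y1 - max (b.t0 - 1) 0) ∨
  (x = - min b.t0 1 ∧ y = b.y1 - max (b.t0 - 1) 0 + 1) ∨
  (x = -1 - min b.t0 1 ∧ b.y1 - max (b.t0 - 1) 0 + 2 ≤ y ∧ y < 24 * u) ∨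
  (y = 24 * u ∧ -1 - min b.t0 1 ≤ x ∧ x ≤ 20 * u)

/-- The points of the strand `T`. -/
def DT (u : ℤ) (b : BinP) (x y : ℤ) : Prop :=
  (y = 23 * u ∧ 1 - b.t0 < x ∧ x ≤ 20 * u) ∨
  (x = 1 - b.t0 ∧ b.y1 + 1 < y ∧ y ≤ 23 * u) ∨
  (x = 1 - b.t0 ∧ y = b.y1 + 1) ∨
  (y = b.y1 ∧ 2 - b.t0 ≤ x ∧ x ≤ b.lT - b.t1) ∨
  (y = b.y1 + 1 ∧ 2 - b.t0 ≤ x ∧ x ≤ b.lT - b.t1 - 1) ∨
  (x = b.lT - b.t1 ∧ b.y1 + 1 ≤ y ∧ y < 22 * u) ∨
  (y = 22 * u ∧ b.lT - b.t1 ≤ x ∧ x ≤ 20 * u)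

/-- The points of the strand `B`. -/
def DB (u : ℤ) (b : BinP) (x y : ℤ) : Prop :=
  (y = -3 * u ∧ -4 * u ≤ x ∧ x < b.x1 + b.e3) ∨
  (x = b.x1 + b.e3 ∧ -3 * u ≤ y ∧ y < -1) ∨
  (x = b.x1 + b.e3 ∧ y = -1) ∨
  (y = 0 ∧ b.s0 + b.e4 ≤ x ∧ x ≤ b.x1 - 1 + b.e3) ∨
  (y = -1 ∧ b.s0 + b.e4 + 1 ≤ x ∧ x ≤ b.x1 - 1 + b.e3) ∨
  (x = b.s0 + b.e4 ∧ -2 * u < y ∧ y ≤ -1) ∨
  (y = -2 * u ∧ -4 * u ≤ x ∧ x ≤ b.s0 + b.e4)

/-- The points of the strand `LL`. -/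
def DLL (u : ℤ) (b : BinP) (x y : ℤ) : Prop :=
  (y = -u ∧ -4 * u ≤ x ∧ x < b.s0 - 1 + b.e4) ∨
  (x = b.s0 - 1 + b.e4 ∧ -u ≤ y ∧ y < -b.e4) ∨
  (x = b.s0 - 1 + b.e4 ∧ y = -b.e4) ∨
  (x + y = b.s0 ∧ 1 - b.e4 ≤ y ∧ y ≤ b.s0 - b.e5) ∨
  (x + y = b.s0 - 1 ∧ 1 - b.e4 ≤ y ∧ y ≤ b.s0 - b.e5 - 1) ∨
  (y = b.s0 - b.e5 ∧ -u < x ∧ x ≤ b.e5 - 1) ∨
  (x = -u ∧ 0 < y ∧ y ≤ b.s0 - b.e5) ∨
  (y = 0 ∧ -4 * u ≤ x ∧ x ≤ -u)

/-- The points of the strand `UL`. -/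
def DUL (u : ℤ) (b : BinP) (x y : ℤ) : Prop :=
  (y = 12 * u ∧ -4 * u ≤ x ∧ x < -u) ∨
  (x = -u ∧ b.s0 + 1 - b.e5 < y ∧ y ≤ 12 * u) ∨
  (y = b.s0 + 1 - b.e5 ∧ -u ≤ x ∧ x < -1) ∨
  (x = -1 ∧ y = b.s0 + 1 - b.e5) ∨
  (x = 0 ∧ b.s0 + 1 - b.e5 ≤ y ∧ y ≤ b.y1 - b.t0) ∨
  (x = -1 ∧ b.s0 + 2 - b.e5 ≤ y ∧ y ≤ b.y1 - b.t0) ∨
  (y = b.y1 + 1 - b.t0 ∧ -u < x ∧ x ≤ -1) ∨
  (x = -u ∧ 13 * u < y ∧ y ≤ b.y1 + 1 - b.t0) ∨
  (y = 13 * u ∧ -4 * u ≤ x ∧ x ≤ -u)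

theorem mem_LR {u : ℤ} {b : BinP} (hb : b.Ok u) {x y : ℤ}
    (h : (x, y) ∈ ptsOf (strand u b .LR)) : DLR u b x y := by
  have ok := okf hb
  obtain ⟨t, h⟩ := mem_ptsOf h
  simp only [strand, List.mem_append, mem_ps, runs, entryPt, enRuns, exRuns, exStart, core,
    List.not_mem_nil, or_false] at h
  rcases h with ⟨h | h | h | h, -⟩ | h | ⟨h | h | h, -⟩
  · have h1 := segL h
    exact Or.inl (by omega)
  · have h1 := segD h
    exact Or.inr (Or.inl (by omega))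
  · have h1 := segL h
    exact Or.inr (Or.inr (Or.inl (by omega)))
  · have h1 := seg1 h
    exact Or.inr (Or.inr (Or.inr (Or.inl (by omega))))
  · rcases zig_mem h with ⟨-, j, j0, j1, h1, h2⟩ | ⟨-, j, j0, j1, h1, h2⟩
    · simp only [firstH, zd1, zd2, asz, BinP.aLR] at h1 h2 j1
      exact Or.inr (Or.inr (Or.inr (Or.inr (Or.inl (by omega)))))
    · simp only [firstH, zd1, zd2, asz, BinP.aLR] at h1 h2 j1
      exact Or.inr (Or.inr (Or.inr (Or.inr (Or.inr (Or.inl (by omega))))))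
  · have h1 := segR h
    exact Or.inr (Or.inr (Or.inr (Or.inr (Or.inr (Or.inr (Or.inl (by omega)))))))
  · have h1 := segD h
    exact Or.inr (Or.inr (Or.inr (Or.inr (Or.inr (Or.inr (Or.inr (Or.inl (by omega))))))))
  · have h1 := segR h
    exact Or.inr (Or.inr (Or.inr (Or.inr (Or.inr (Or.inr (Or.inr (Or.inr ((by omega)))))))))

theorem mem_UR {u : ℤ} {b : BinP} (hb : b.Ok u) {x y : ℤ}
    (h : (x, y) ∈ ptsOf (strand u b .UR)) : DUR u b x y := by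
  have ok := okf hb
  obtain ⟨t, h⟩ := mem_ptsOf h
  simp only [strand, List.mem_append, mem_ps, runs, entryPt, enRuns, exRuns, exStart, core,
    List.not_mem_nil, or_false] at h
  rcases h with ⟨h | h | h | h, -⟩ | h | ⟨h | h, -⟩
  · have h1 := segL h
    exact Or.inl (by omega)
  · have h1 := segD h
    exact Or.inr (Or.inl (by omega))
  · have h1 := segL h
    exact Or.inr (Or.inr (Or.inl (by omega)))
  · have h1 := seg1 h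
    exact Or.inr (Or.inr (Or.inr (Or.inl (by omega))))
  · rcases zig_mem h with ⟨-, j, j0, j1, h1, h2⟩ | ⟨-, j, j0, j1, h1, h2⟩
    · simp only [firstH, zd1, zd2, asz, BinP.aUR] at h1 h2 j1
      exact Or.inr (Or.inr (Or.inr (Or.inr (Or.inl (by omega)))))
    · simp only [firstH, zd1, zd2, asz, BinP.aUR] at h1 h2 j1
      exact Or.inr (Or.inr (Or.inr (Or.inr (Or.inr (Or.inl (by omega))))))
  · have h1 := segU h
    exact Or.inr (Or.inr (Or.inr (Or.inr (Or.inr (Or.inr (Or.inl (by omega)))))))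
  · have h1 := segR h
    exact Or.inr (Or.inr (Or.inr (Or.inr (Or.inr (Or.inr (Or.inr ((by omega))))))))

theorem mem_CH {u : ℤ} {b : BinP} (hb : b.Ok u) {x y : ℤ}
    (h : (x, y) ∈ ptsOf (strand u b .CH)) : DCH u b x y := by
  have ok := okf hb
  obtain ⟨t, h⟩ := mem_ptsOf h
  simp only [strand, List.mem_append, mem_ps, runs, entryPt, enRuns, exRuns, exStart, core, u0pt,
    List.not_mem_nil, or_false] at h
  rcases h with ⟨h | h | h, -⟩ | h | ⟨h | h | h, -⟩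
  · have h1 := segL h
    exact Or.inl (by omega)
  · have h1 := segD h
    exact Or.inr (Or.inl (by omega))
  · have h1 := seg1 h
    exact Or.inr (Or.inr (Or.inl (by omega)))
  · rcases (mem_chordCore hb).1 (mem_hs.1 h).1 with h1 | h1 | h1
    · exact Or.inr (Or.inr (Or.inr (Or.inl h1)))
    · exact Or.inr (Or.inr (Or.inr (Or.inr (Or.inl h1))))
    · exact Or.inr (Or.inr (Or.inr (Or.inr (Or.inr (Or.inl h1)))))
  · have h1 := seg1 h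
    exact Or.inr (Or.inr (Or.inr (Or.inr (Or.inr (Or.inr (Or.inl (by omega)))))))
  · have h1 := segU h
    exact Or.inr (Or.inr (Or.inr (Or.inr (Or.inr (Or.inr (Or.inr (Or.inl (by omega))))))))
  · have h1 := segR h
    exact Or.inr (Or.inr (Or.inr (Or.inr (Or.inr (Or.inr (Or.inr (Or.inr ((by omega)))))))))

theorem mem_T {u : ℤ} {b : BinP} (hb : b.Ok u) {x y : ℤ}
    (h : (x, y) ∈ ptsOf (strand u b .T)) : DT u b x y := by
  have ok := okf hb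
  obtain ⟨t, h⟩ := mem_ptsOf h
  simp only [strand, List.mem_append, mem_ps, runs, entryPt, enRuns, exRuns, exStart, core,
    List.not_mem_nil, or_false] at h
  rcases h with ⟨h | h | h, -⟩ | h | ⟨h | h, -⟩
  · have h1 := segL h
    exact Or.inl (by omega)
  · have h1 := segD h
    exact Or.inr (Or.inl (by omega))
  · have h1 := seg1 h
    exact Or.inr (Or.inr (Or.inl (by omega)))
  · rcases zig_mem h with ⟨-, j, j0, j1, h1, h2⟩ | ⟨-, j, j0, j1, h1, h2⟩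
    · simp only [firstH, zd1, zd2, asz, BinP.aT] at h1 h2 j1
      exact Or.inr (Or.inr (Or.inr (Or.inl (by omega))))
    · simp only [firstH, zd1, zd2, asz, BinP.aT] at h1 h2 j1
      exact Or.inr (Or.inr (Or.inr (Or.inr (Or.inl (by omega)))))
  · have h1 := segU h
    exact Or.inr (Or.inr (Or.inr (Or.inr (Or.inr (Or.inl (by omega))))))
  · have h1 := segR h
    exact Or.inr (Or.inr (Or.inr (Or.inr (Or.inr (Or.inr ((by omega)))))))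

theorem mem_B {u : ℤ} {b : BinP} (hb : b.Ok u) {x y : ℤ}
    (h : (x, y) ∈ ptsOf (strand u b .B)) : DB u b x y := by
  have ok := okf hb
  obtain ⟨t, h⟩ := mem_ptsOf h
  simp only [strand, List.mem_append, mem_ps, runs, entryPt, enRuns, exRuns, exStart, core,
    List.not_mem_nil, or_false] at h
  rcases h with ⟨h | h | h, -⟩ | h | ⟨h | h, -⟩
  · have h1 := segR h
    exact Or.inl (by omega)
  · have h1 := segU h
    exact Or.inr (Or.inl (by omega))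
  · have h1 := seg1 h
    exact Or.inr (Or.inr (Or.inl (by omega)))
  · rcases zig_mem h with ⟨-, j, j0, j1, h1, h2⟩ | ⟨-, j, j0, j1, h1, h2⟩
    · simp only [firstH, zd1, zd2, asz, BinP.aB] at h1 h2 j1
      exact Or.inr (Or.inr (Or.inr (Or.inl (by omega))))
    · simp only [firstH, zd1, zd2, asz, BinP.aB] at h1 h2 j1
      exact Or.inr (Or.inr (Or.inr (Or.inr (Or.inl (by omega)))))
  · have h1 := segD h
    exact Or.inr (Or.inr (Or.inr (Or.inr (Or.inr (Or.inl (by omega))))))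
  · have h1 := segL h
    exact Or.inr (Or.inr (Or.inr (Or.inr (Or.inr (Or.inr ((by omega)))))))

theorem mem_LL {u : ℤ} {b : BinP} (hb : b.Ok u) {x y : ℤ}
    (h : (x, y) ∈ ptsOf (strand u b .LL)) : DLL u b x y := by
  have ok := okf hb
  obtain ⟨t, h⟩ := mem_ptsOf h
  simp only [strand, List.mem_append, mem_ps, runs, entryPt, enRuns, exRuns, exStart, core,
    List.not_mem_nil, or_false] at h
  rcases h with ⟨h | h | h, -⟩ | h | ⟨h | h | h, -⟩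
  · have h1 := segR h
    exact Or.inl (by omega)
  · have h1 := segU h
    exact Or.inr (Or.inl (by omega))
  · have h1 := seg1 h
    exact Or.inr (Or.inr (Or.inl (by omega)))
  · rcases zig_mem h with ⟨-, j, j0, j1, h1, h2⟩ | ⟨-, j, j0, j1, h1, h2⟩
    · simp only [firstH, zd1, zd2, asz, BinP.aLL] at h1 h2 j1
      exact Or.inr (Or.inr (Or.inr (Or.inl (by omega))))
    · simp only [firstH, zd1, zd2, asz, BinP.aLL] at h1 h2 j1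
      exact Or.inr (Or.inr (Or.inr (Or.inr (Or.inl (by omega)))))
  · have h1 := segL h
    exact Or.inr (Or.inr (Or.inr (Or.inr (Or.inr (Or.inl (by omega))))))
  · have h1 := segD h
    exact Or.inr (Or.inr (Or.inr (Or.inr (Or.inr (Or.inr (Or.inl (by omega)))))))
  · have h1 := segL h
    exact Or.inr (Or.inr (Or.inr (Or.inr (Or.inr (Or.inr (Or.inr ((by omega))))))))

theorem mem_UL {u : ℤ} {b : BinP} (hb : b.Ok u) {x y : ℤ}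
    (h : (x, y) ∈ ptsOf (strand u b .UL)) : DUL u b x y := by
  have ok := okf hb
  obtain ⟨t, h⟩ := mem_ptsOf h
  simp only [strand, List.mem_append, mem_ps, runs, entryPt, enRuns, exRuns, exStart, core,
    List.not_mem_nil, or_false] at h
  rcases h with ⟨h | h | h | h, -⟩ | h | ⟨h | h | h, -⟩
  · have h1 := segR h
    exact Or.inl (by omega)
  · have h1 := segD h
    exact Or.inr (Or.inl (by omega))
  · have h1 := segR h
    exact Or.inr (Or.inr (Or.inl (by omega)))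
  · have h1 := seg1 h
    exact Or.inr (Or.inr (Or.inr (Or.inl (by omega))))
  · rcases zig_mem h with ⟨-, j, j0, j1, h1, h2⟩ | ⟨-, j, j0, j1, h1, h2⟩
    · simp only [firstH, zd1, zd2, asz, BinP.aUL] at h1 h2 j1
      exact Or.inr (Or.inr (Or.inr (Or.inr (Or.inl (by omega)))))
    · simp only [firstH, zd1, zd2, asz, BinP.aUL] at h1 h2 j1
      exact Or.inr (Or.inr (Or.inr (Or.inr (Or.inr (Or.inl (by omega))))))
  · have h1 := segL h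
    exact Or.inr (Or.inr (Or.inr (Or.inr (Or.inr (Or.inr (Or.inl (by omega)))))))
  · have h1 := segD h
    exact Or.inr (Or.inr (Or.inr (Or.inr (Or.inr (Or.inr (Or.inr (Or.inl (by omega))))))))
  · have h1 := segL h
    exact Or.inr (Or.inr (Or.inr (Or.inr (Or.inr (Or.inr (Or.inr (Or.inr ((by omega)))))))))

end Pool.Agent.H329.SDAux
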