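import Pool.Agent.H329.StrandPath

/-!
# Strands have no repetitions
-/

namespace Pool.Agent.H329

attribute [-instance] Int.instConditionallyCompleteLinearOrder

open StrAux

namespace StrAux

theorem nodup_runs_one {p d : Pt} {n : ℤ} (hd : d.1 ≠ 0 ∨ d.2 ≠ 0) : (runs p [(d, n)]).Nodup := by
  rw [runs, runs, List.append_nil]
  exact nodup_seg hd

theorem en_nodup {u : ℤ} {b : BinP} (σ : Side) (hb : b.Ok u) :
    (runs (entryPt u σ) (enRuns u b σ)).Nodup := by
  obtain ⟨h1, h2, h3, h4, h5, h6, h7, h8, h9, t1, t2, t3, t4, e1, e2, e3, e4, e5, e6, e7, e8, hp⟩ :=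
    hb
  cases σ <;> simp only [entryPt, enRuns]
  · refine nodup_runs_cons (by decide) ?_ (fun x j q1 q2 q3 q4 hx => ?_)
    on_goal 2 =>
      simp only [mem_runs_cons, mem_runs_nil, or_false] at hx
      simp only [BinP.x1, BinP.y1, BinP.s0, BinP.s1,
          BinP.lLR, BinP.lB, BinP.aT, BinP.aUR, BinP.aLR, BinP.aB, BinP.aLL, BinP.aUL, BinP.xr,
          BinP.xl] at *
      casesm* _ ∨ _, ∃ _, _, _ ∧ _ <;> omega
    refine nodup_runs_cons (by decide) ?_ (fun x j q1 q2 q3 q4 hx => ?_)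
    on_goal 2 =>
      simp only [mem_runs_cons, mem_runs_nil, or_false] at hx
      simp only [BinP.x1, BinP.y1, BinP.s0, BinP.s1,
          BinP.lLR, BinP.lB, BinP.aT, BinP.aUR, BinP.aLR, BinP.aB, BinP.aLL, BinP.aUL, BinP.xr,
          BinP.xl] at *
      casesm* _ ∨ _, ∃ _, _, _ ∧ _ <;> omega
    refine nodup_runs_cons (by decide) ?_ (fun x j q1 q2 q3 q4 hx => ?_)
    on_goal 2 =>
      simp only [mem_runs_cons, mem_runs_nil, or_false] at hx
      simp only [BinP.x1, BinP.y1, BinP.s0, BinP.s1,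
          BinP.lLR, BinP.lB, BinP.aT, BinP.aUR, BinP.aLR, BinP.aB, BinP.aLL, BinP.aUL, BinP.xr,
          BinP.xl] at *
      casesm* _ ∨ _, ∃ _, _, _ ∧ _ <;> omega
    exact nodup_runs_one (by decide)
  · refine nodup_runs_cons (by decide) ?_ (fun x j q1 q2 q3 q4 hx => ?_)
    on_goal 2 =>
      simp only [mem_runs_cons, mem_runs_nil, or_false] at hx
      simp only [BinP.x1, BinP.y1, BinP.s0, BinP.s1,
          BinP.lLR, BinP.lB, BinP.aT, BinP.aUR, BinP.aLR, BinP.aB, BinP.aLL, BinP.aUL, BinP.xr,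
          BinP.xl] at *
      casesm* _ ∨ _, ∃ _, _, _ ∧ _ <;> omega
    refine nodup_runs_cons (by decide) ?_ (fun x j q1 q2 q3 q4 hx => ?_)
    on_goal 2 =>
      simp only [mem_runs_cons, mem_runs_nil, or_false] at hx
      simp only [BinP.x1, BinP.y1, BinP.s0, BinP.s1,
          BinP.lLR, BinP.lB, BinP.aT, BinP.aUR, BinP.aLR, BinP.aB, BinP.aLL, BinP.aUL, BinP.xr,
          BinP.xl] at *
      casesm* _ ∨ _, ∃ _, _, _ ∧ _ <;> omega
    refine nodup_runs_cons (by decide) ?_ (fun x j q1 q2 q3 q4 hx => ?_)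
    on_goal 2 =>
      simp only [mem_runs_cons, mem_runs_nil, or_false] at hx
      simp only [BinP.x1, BinP.y1, BinP.s0, BinP.s1,
          BinP.lLR, BinP.lB, BinP.aT, BinP.aUR, BinP.aLR, BinP.aB, BinP.aLL, BinP.aUL, BinP.xr,
          BinP.xl] at *
      casesm* _ ∨ _, ∃ _, _, _ ∧ _ <;> omega
    exact nodup_runs_one (by decide)
  · refine nodup_runs_cons (by decide) ?_ (fun x j q1 q2 q3 q4 hx => ?_)
    on_goal 2 =>
      simp only [mem_runs_cons, mem_runs_nil, or_false] at hx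
      simp only [BinP.x1, BinP.y1, BinP.s0, BinP.s1,
          BinP.lLR, BinP.lB, BinP.aT, BinP.aUR, BinP.aLR, BinP.aB, BinP.aLL, BinP.aUL, BinP.xr,
          BinP.xl] at *
      casesm* _ ∨ _, ∃ _, _, _ ∧ _ <;> omega
    refine nodup_runs_cons (by decide) ?_ (fun x j q1 q2 q3 q4 hx => ?_)
    on_goal 2 =>
      simp only [mem_runs_cons, mem_runs_nil, or_false] at hx
      simp only [BinP.x1, BinP.y1, BinP.s0, BinP.s1,
          BinP.lLR, BinP.lB, BinP.aT, BinP.aUR, BinP.aLR, BinP.aB, BinP.aLL, BinP.aUL, BinP.xr,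
          BinP.xl] at *
      casesm* _ ∨ _, ∃ _, _, _ ∧ _ <;> omega
    exact nodup_runs_one (by decide)
  · refine nodup_runs_cons (by decide) ?_ (fun x j q1 q2 q3 q4 hx => ?_)
    on_goal 2 =>
      simp only [mem_runs_cons, mem_runs_nil, or_false] at hx
      simp only [BinP.x1, BinP.y1, BinP.s0, BinP.s1,
          BinP.lLR, BinP.lB, BinP.aT, BinP.aUR, BinP.aLR, BinP.aB, BinP.aLL, BinP.aUL, BinP.xr,
          BinP.xl] at *
      casesm* _ ∨ _, ∃ _, _, _ ∧ _ <;> omega
    refine nodup_runs_cons (by decide) ?_ (fun x j q1 q2 q3 q4 hx => ?_)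
    on_goal 2 =>
      simp only [mem_runs_cons, mem_runs_nil, or_false] at hx
      simp only [BinP.x1, BinP.y1, BinP.s0, BinP.s1,
          BinP.lLR, BinP.lB, BinP.aT, BinP.aUR, BinP.aLR, BinP.aB, BinP.aLL, BinP.aUL, BinP.xr,
          BinP.xl] at *
      casesm* _ ∨ _, ∃ _, _, _ ∧ _ <;> omega
    exact nodup_runs_one (by decide)
  · refine nodup_runs_cons (by decide) ?_ (fun x j q1 q2 q3 q4 hx => ?_)
    on_goal 2 =>
      simp only [mem_runs_cons, mem_runs_nil, or_false] at hx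
      simp only [BinP.x1, BinP.y1, BinP.s0, BinP.s1,
          BinP.lLR, BinP.lB, BinP.aT, BinP.aUR, BinP.aLR, BinP.aB, BinP.aLL, BinP.aUL, BinP.xr,
          BinP.xl] at *
      casesm* _ ∨ _, ∃ _, _, _ ∧ _ <;> omega
    refine nodup_runs_cons (by decide) ?_ (fun x j q1 q2 q3 q4 hx => ?_)
    on_goal 2 =>
      simp only [mem_runs_cons, mem_runs_nil, or_false] at hx
      simp only [BinP.x1, BinP.y1, BinP.s0, BinP.s1,
          BinP.lLR, BinP.lB, BinP.aT, BinP.aUR, BinP.aLR, BinP.aB, BinP.aLL, BinP.aUL, BinP.xr,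
          BinP.xl] at *
      casesm* _ ∨ _, ∃ _, _, _ ∧ _ <;> omega
    exact nodup_runs_one (by decide)
  · refine nodup_runs_cons (by decide) ?_ (fun x j q1 q2 q3 q4 hx => ?_)
    on_goal 2 =>
      simp only [mem_runs_cons, mem_runs_nil, or_false] at hx
      simp only [BinP.x1, BinP.y1, BinP.s0, BinP.s1,
          BinP.lLR, BinP.lB, BinP.aT, BinP.aUR, BinP.aLR, BinP.aB, BinP.aLL, BinP.aUL, BinP.xr,
          BinP.xl] at *
      casesm* _ ∨ _, ∃ _, _, _ ∧ _ <;> omega
    refine nodup_runs_cons (by decide) ?_ (fun x j q1 q2 q3 q4 hx => ?_)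
    on_goal 2 =>
      simp only [mem_runs_cons, mem_runs_nil, or_false] at hx
      simp only [BinP.x1, BinP.y1, BinP.s0, BinP.s1,
          BinP.lLR, BinP.lB, BinP.aT, BinP.aUR, BinP.aLR, BinP.aB, BinP.aLL, BinP.aUL, BinP.xr,
          BinP.xl] at *
      casesm* _ ∨ _, ∃ _, _, _ ∧ _ <;> omega
    exact nodup_runs_one (by decide)
  · refine nodup_runs_cons (by decide) ?_ (fun x j q1 q2 q3 q4 hx => ?_)
    on_goal 2 =>
      simp only [mem_runs_cons, mem_runs_nil, or_false] at hx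
      simp only [BinP.x1, BinP.y1, BinP.s0, BinP.s1,
          BinP.lLR, BinP.lB, BinP.aT, BinP.aUR, BinP.aLR, BinP.aB, BinP.aLL, BinP.aUL, BinP.xr,
          BinP.xl] at *
      casesm* _ ∨ _, ∃ _, _, _ ∧ _ <;> omega
    refine nodup_runs_cons (by decide) ?_ (fun x j q1 q2 q3 q4 hx => ?_)
    on_goal 2 =>
      simp only [mem_runs_cons, mem_runs_nil, or_false] at hx
      simp only [BinP.x1, BinP.y1, BinP.s0, BinP.s1,
          BinP.lLR, BinP.lB, BinP.aT, BinP.aUR, BinP.aLR, BinP.aB, BinP.aLL, BinP.aUL, BinP.xr,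
          BinP.xl] at *
      casesm* _ ∨ _, ∃ _, _, _ ∧ _ <;> omega
    refine nodup_runs_cons (by decide) ?_ (fun x j q1 q2 q3 q4 hx => ?_)
    on_goal 2 =>
      simp only [mem_runs_cons, mem_runs_nil, or_false] at hx
      simp only [BinP.x1, BinP.y1, BinP.s0, BinP.s1,
          BinP.lLR, BinP.lB, BinP.aT, BinP.aUR, BinP.aLR, BinP.aB, BinP.aLL, BinP.aUL, BinP.xr,
          BinP.xl] at *
      casesm* _ ∨ _, ∃ _, _, _ ∧ _ <;> omega
    exact nodup_runs_one (by decide)

theorem ex_nodup {u : ℤ} {b : BinP} (σ : Side) (hb : b.Ok u) :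
    (runs (exStart b σ) (exRuns u b σ)).Nodup := by
  obtain ⟨h1, h2, h3, h4, h5, h6, h7, h8, h9, t1, t2, t3, t4, e1, e2, e3, e4, e5, e6, e7, e8, hp⟩ :=
    hb
  cases σ <;> simp only [exStart, exRuns, u0pt]
  · refine nodup_runs_cons (by decide) ?_ (fun x j q1 q2 q3 q4 hx => ?_)
    on_goal 2 =>
      simp only [mem_runs_cons, mem_runs_nil, or_false] at hx
      simp only [BinP.x1, BinP.y1, BinP.s0, BinP.s1,
          BinP.lLR, BinP.lB, BinP.aT, BinP.aUR, BinP.aLR, BinP.aB, BinP.aLL, BinP.aUL, BinP.xr,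
          BinP.xl] at *
      casesm* _ ∨ _, ∃ _, _, _ ∧ _ <;> omega
    refine nodup_runs_cons (by decide) ?_ (fun x j q1 q2 q3 q4 hx => ?_)
    on_goal 2 =>
      simp only [mem_runs_cons, mem_runs_nil, or_false] at hx
      simp only [BinP.x1, BinP.y1, BinP.s0, BinP.s1,
          BinP.lLR, BinP.lB, BinP.aT, BinP.aUR, BinP.aLR, BinP.aB, BinP.aLL, BinP.aUL, BinP.xr,
          BinP.xl] at *
      casesm* _ ∨ _, ∃ _, _, _ ∧ _ <;> omega
    exact nodup_runs_one (by decide)
  · refine nodup_runs_cons (by decide) ?_ (fun x j q1 q2 q3 q4 hx => ?_)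
    on_goal 2 =>
      simp only [mem_runs_cons, mem_runs_nil, or_false] at hx
      simp only [BinP.x1, BinP.y1, BinP.s0, BinP.s1,
          BinP.lLR, BinP.lB, BinP.aT, BinP.aUR, BinP.aLR, BinP.aB, BinP.aLL, BinP.aUL, BinP.xr,
          BinP.xl] at *
      casesm* _ ∨ _, ∃ _, _, _ ∧ _ <;> omega
    exact nodup_runs_one (by decide)
  · refine nodup_runs_cons (by decide) ?_ (fun x j q1 q2 q3 q4 hx => ?_)
    on_goal 2 =>
      simp only [mem_runs_cons, mem_runs_nil, or_false] at hx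
      simp only [BinP.x1, BinP.y1, BinP.s0, BinP.s1,
          BinP.lLR, BinP.lB, BinP.aT, BinP.aUR, BinP.aLR, BinP.aB, BinP.aLL, BinP.aUL, BinP.xr,
          BinP.xl] at *
      casesm* _ ∨ _, ∃ _, _, _ ∧ _ <;> omega
    refine nodup_runs_cons (by decide) ?_ (fun x j q1 q2 q3 q4 hx => ?_)
    on_goal 2 =>
      simp only [mem_runs_cons, mem_runs_nil, or_false] at hx
      simp only [BinP.x1, BinP.y1, BinP.s0, BinP.s1,
          BinP.lLR, BinP.lB, BinP.aT, BinP.aUR, BinP.aLR, BinP.aB, BinP.aLL, BinP.aUL, BinP.xr,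
          BinP.xl] at *
      casesm* _ ∨ _, ∃ _, _, _ ∧ _ <;> omega
    exact nodup_runs_one (by decide)
  · refine nodup_runs_cons (by decide) ?_ (fun x j q1 q2 q3 q4 hx => ?_)
    on_goal 2 =>
      simp only [mem_runs_cons, mem_runs_nil, or_false] at hx
      simp only [BinP.x1, BinP.y1, BinP.s0, BinP.s1,
          BinP.lLR, BinP.lB, BinP.aT, BinP.aUR, BinP.aLR, BinP.aB, BinP.aLL, BinP.aUL, BinP.xr,
          BinP.xl] at *
      casesm* _ ∨ _, ∃ _, _, _ ∧ _ <;> omega
    exact nodup_runs_one (by decide)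
  · refine nodup_runs_cons (by decide) ?_ (fun x j q1 q2 q3 q4 hx => ?_)
    on_goal 2 =>
      simp only [mem_runs_cons, mem_runs_nil, or_false] at hx
      simp only [BinP.x1, BinP.y1, BinP.s0, BinP.s1,
          BinP.lLR, BinP.lB, BinP.aT, BinP.aUR, BinP.aLR, BinP.aB, BinP.aLL, BinP.aUL, BinP.xr,
          BinP.xl] at *
      casesm* _ ∨ _, ∃ _, _, _ ∧ _ <;> omega
    exact nodup_runs_one (by decide)
  · refine nodup_runs_cons (by decide) ?_ (fun x j q1 q2 q3 q4 hx => ?_)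
    on_goal 2 =>
      simp only [mem_runs_cons, mem_runs_nil, or_false] at hx
      simp only [BinP.x1, BinP.y1, BinP.s0, BinP.s1,
          BinP.lLR, BinP.lB, BinP.aT, BinP.aUR, BinP.aLR, BinP.aB, BinP.aLL, BinP.aUL, BinP.xr,
          BinP.xl] at *
      casesm* _ ∨ _, ∃ _, _, _ ∧ _ <;> omega
    refine nodup_runs_cons (by decide) ?_ (fun x j q1 q2 q3 q4 hx => ?_)
    on_goal 2 =>
      simp only [mem_runs_cons, mem_runs_nil, or_false] at hx
      simp only [BinP.x1, BinP.y1, BinP.s0, BinP.s1,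
          BinP.lLR, BinP.lB, BinP.aT, BinP.aUR, BinP.aLR, BinP.aB, BinP.aLL, BinP.aUL, BinP.xr,
          BinP.xl] at *
      casesm* _ ∨ _, ∃ _, _, _ ∧ _ <;> omega
    exact nodup_runs_one (by decide)
  · refine nodup_runs_cons (by decide) ?_ (fun x j q1 q2 q3 q4 hx => ?_)
    on_goal 2 =>
      simp only [mem_runs_cons, mem_runs_nil, or_false] at hx
      simp only [BinP.x1, BinP.y1, BinP.s0, BinP.s1,
          BinP.lLR, BinP.lB, BinP.aT, BinP.aUR, BinP.aLR, BinP.aB, BinP.aLL, BinP.aUL, BinP.xr,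
          BinP.xl] at *
      casesm* _ ∨ _, ∃ _, _, _ ∧ _ <;> omega
    refine nodup_runs_cons (by decide) ?_ (fun x j q1 q2 q3 q4 hx => ?_)
    on_goal 2 =>
      simp only [mem_runs_cons, mem_runs_nil, or_false] at hx
      simp only [BinP.x1, BinP.y1, BinP.s0, BinP.s1,
          BinP.lLR, BinP.lB, BinP.aT, BinP.aUR, BinP.aLR, BinP.aB, BinP.aLL, BinP.aUL, BinP.xr,
          BinP.xl] at *
      casesm* _ ∨ _, ∃ _, _, _ ∧ _ <;> omega
    exact nodup_runs_one (by decide)

theorem chordA_nodup (b : BinP) : (chordA b).Nodup := by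
  rw [chordA_eq]
  refine (List.nodup_map_iff_inj_on List.nodup_range).2 ?_
  intro i _ j _ h
  have h2 := congrArg Prod.snd h
  simp only at h2
  omega

theorem rows_nodup (b : BinP) (n : ℕ) : ((List.range n).flatMap (chordRow b)).Nodup := by
  rw [List.nodup_flatMap]
  constructor
  · intro j _
    unfold chordRow
    split_ifs
    · exact nodup_seg (by decide)
    · exact nodup_seg (by decide)
  · refine List.Pairwise.imp ?_ (List.nodup_range (n := n))
    intro i j hij x hx hy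
    rw [mem_chordRow] at hx hy
    omega

theorem chord_nodup {u : ℤ} {b : BinP} (hb : b.Ok u) : (chordCore b).Nodup := by
  obtain ⟨h1, h2, h3, h4, h5, h6, h7, h8, h9, t1, t2, t3, t4, e1, e2, e3, e4, e5, e6, e7, e8, hp⟩ :=
    hb
  unfold chordCore
  rw [List.nodup_cons]
  constructor
  · intro hx
    rw [List.mem_append, List.mem_append, mem_chordA, mem_chordRows, List.mem_singleton,
      Prod.ext_iff] at hx
    simp only [firstH, u0pt] at hx
    simp only [BinP.x1, BinP.y1, BinP.s0, BinP.s1,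
        BinP.lLR, BinP.lB, BinP.aT, BinP.aUR, BinP.aLR, BinP.aB, BinP.aLL, BinP.aUL, BinP.xr,
        BinP.xl] at *
    casesm* _ ∨ _, ∃ _, _, _ ∧ _ <;> omega
  · refine nodup_app (chordA_nodup b) (nodup_app (rows_nodup b _) (List.nodup_singleton _) ?_) ?_
    · intro x hx hy
      rw [mem_chordRows] at hx
      rw [List.mem_singleton, Prod.ext_iff] at hy
      simp only [u0pt] at hy
      simp only [BinP.x1, BinP.y1, BinP.s0, BinP.s1,
          BinP.lLR, BinP.lB, BinP.aT, BinP.aUR, BinP.aLR, BinP.aB, BinP.aLL, BinP.aUL, BinP.xr,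
          BinP.xl] at *
      omega
    · intro x hx hy
      rw [mem_chordA] at hx
      rw [List.mem_append, mem_chordRows, List.mem_singleton, Prod.ext_iff] at hy
      simp only [u0pt] at hy
      simp only [BinP.x1, BinP.y1, BinP.s0, BinP.s1,
          BinP.lLR, BinP.lB, BinP.aT, BinP.aUR, BinP.aLR, BinP.aB, BinP.aLL, BinP.aUL, BinP.xr,
          BinP.xl] at *
      omega

theorem core_nodup {u : ℤ} {b : BinP} (σ : Side) (hb : b.Ok u) : (ptsOf (core b σ)).Nodup := by
  by_cases hσ : σ = .CH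
  · subst hσ
    have e : ptsOf (core b .CH) = chordCore b := ptsOf_hs _
    rw [e]
    exact chord_nodup hb
  · have e : core b σ = zig (firstH b σ) (zd1 σ) (zd2 σ) (asz b σ) := by
      cases σ <;> first | rfl | exact absurd rfl hσ
    rw [e]
    refine nodup_zig ?_
    cases σ <;> first | decide | exact absurd rfl hσ

end StrAux

theorem StrandNodup_proof : S_StrandNodup := by
  intro u b σ hb
  rw [ptsOf_strand]
  refine nodup_app (en_nodup σ hb) (nodup_app (core_nodup σ hb) (ex_nodup σ hb) ?_) ?_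
  · obtain ⟨h1, h2, h3, h4, h5, h6, h7, h8, h9, t1, t2, t3, t4, e1, e2, e3, e4, e5, e6, e7, e8,
      hp⟩ := hb
    intro x hx hy
    cases σ <;> simp only [core, mem_pts_zig, ptsOf_hs, mem_chordCore, firstH, zd1, zd2, asz] at hx <;>
      simp only [exStart, exRuns, u0pt, mem_runs_cons, mem_runs_nil, or_false] at hy <;> simp only [BinP.x1, BinP.y1, BinP.s0, BinP.s1,
          BinP.lLR, BinP.lB, BinP.aT, BinP.aUR, BinP.aLR, BinP.aB, BinP.aLL, BinP.aUL, BinP.xr,
          BinP.xl] at * <;>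
      casesm* _ ∨ _, ∃ _, _, _ ∧ _ <;> omega
  · obtain ⟨h1, h2, h3, h4, h5, h6, h7, h8, h9, t1, t2, t3, t4, e1, e2, e3, e4, e5, e6, e7, e8,
      hp⟩ := hb
    intro x hx hy
    rw [List.mem_append] at hy
    cases σ <;> simp only [entryPt, enRuns, mem_runs_cons, mem_runs_nil, or_false] at hx <;>
      simp only [core, mem_pts_zig, ptsOf_hs, mem_chordCore, firstH, zd1, zd2, asz,
        exStart, exRuns, u0pt, mem_runs_cons, mem_runs_nil, or_false] at hy <;> simp only [BinP.x1, BinP.y1, BinP.s0, BinP.s1,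
            BinP.lLR, BinP.lB, BinP.aT, BinP.aUR, BinP.aLR, BinP.aB, BinP.aLL, BinP.aUL, BinP.xr,
            BinP.xl] at * <;>
      casesm* _ ∨ _, ∃ _, _, _ ∧ _ <;> omega

end Pool.Agent.H329
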