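import Pool.Agent.H329.StrAux

/-!
# Strands are paths, with the right letters
-/

namespace Pool.Agent.H329

attribute [-instance] Int.instConditionallyCompleteLinearOrder

namespace StrAux

theorem en_ok {u : ℤ} {b : BinP} (σ : Side) (hb : b.Ok u) :
    ∀ r ∈ enRuns u b σ, 0 ≤ r.2 ∧ Adj (0, 0) r.1 := by
  obtain ⟨h1, h2, h3, h4, h5, h6, h7, h8, h9, t1, t2, t3, t4, e1, e2, e3, e4, e5, e6, e7, e8, hp⟩ :=
    hb
  cases σ <;> intro r hr <;>
    simp only [enRuns, List.mem_cons, List.not_mem_nil, or_false] at hr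
  · rcases hr with rfl | rfl | rfl | rfl <;> refine ⟨?_, by dsimp only; decide⟩ <;> simp only [BinP.x1, BinP.y1, BinP.s0, BinP.s1,
      BinP.lLR, BinP.lB, BinP.aT, BinP.aUR, BinP.aLR, BinP.aB, BinP.aLL, BinP.aUL, BinP.xr,
      BinP.xl] at * <;> omega
  · rcases hr with rfl | rfl | rfl | rfl <;> refine ⟨?_, by dsimp only; decide⟩ <;> simp only [BinP.x1, BinP.y1, BinP.s0, BinP.s1,
      BinP.lLR, BinP.lB, BinP.aT, BinP.aUR, BinP.aLR, BinP.aB, BinP.aLL, BinP.aUL, BinP.xr,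
      BinP.xl] at * <;> omega
  · rcases hr with rfl | rfl | rfl <;> refine ⟨?_, by dsimp only; decide⟩ <;> simp only [BinP.x1, BinP.y1, BinP.s0, BinP.s1,
      BinP.lLR, BinP.lB, BinP.aT, BinP.aUR, BinP.aLR, BinP.aB, BinP.aLL, BinP.aUL, BinP.xr,
      BinP.xl] at * <;> omega
  · rcases hr with rfl | rfl | rfl <;> refine ⟨?_, by dsimp only; decide⟩ <;> simp only [BinP.x1, BinP.y1, BinP.s0, BinP.s1,
      BinP.lLR, BinP.lB, BinP.aT, BinP.aUR, BinP.aLR, BinP.aB, BinP.aLL, BinP.aUL, BinP.xr,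
      BinP.xl] at * <;> omega
  · rcases hr with rfl | rfl | rfl <;> refine ⟨?_, by dsimp only; decide⟩ <;> simp only [BinP.x1, BinP.y1, BinP.s0, BinP.s1,
      BinP.lLR, BinP.lB, BinP.aT, BinP.aUR, BinP.aLR, BinP.aB, BinP.aLL, BinP.aUL, BinP.xr,
      BinP.xl] at * <;> omega
  · rcases hr with rfl | rfl | rfl <;> refine ⟨?_, by dsimp only; decide⟩ <;> simp only [BinP.x1, BinP.y1, BinP.s0, BinP.s1,
      BinP.lLR, BinP.lB, BinP.aT, BinP.aUR, BinP.aLR, BinP.aB, BinP.aLL, BinP.aUL, BinP.xr,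
      BinP.xl] at * <;> omega
  · rcases hr with rfl | rfl | rfl | rfl <;> refine ⟨?_, by dsimp only; decide⟩ <;> simp only [BinP.x1, BinP.y1, BinP.s0, BinP.s1,
      BinP.lLR, BinP.lB, BinP.aT, BinP.aUR, BinP.aLR, BinP.aB, BinP.aLL, BinP.aUL, BinP.xr,
      BinP.xl] at * <;> omega

theorem ex_ok {u : ℤ} {b : BinP} (σ : Side) (hb : b.Ok u) :
    ∀ r ∈ exRuns u b σ, 0 ≤ r.2 ∧ Adj (0, 0) r.1 := by
  obtain ⟨h1, h2, h3, h4, h5, h6, h7, h8, h9, t1, t2, t3, t4, e1, e2, e3, e4, e5, e6, e7, e8, hp⟩ :=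
    hb
  cases σ <;> intro r hr <;>
    simp only [exRuns, List.mem_cons, List.not_mem_nil, or_false] at hr
  · rcases hr with rfl | rfl | rfl <;> refine ⟨?_, by dsimp only; decide⟩ <;> simp only [BinP.x1, BinP.y1, BinP.s0, BinP.s1,
      BinP.lLR, BinP.lB, BinP.aT, BinP.aUR, BinP.aLR, BinP.aB, BinP.aLL, BinP.aUL, BinP.xr,
      BinP.xl] at * <;> omega
  · rcases hr with rfl | rfl <;> refine ⟨?_, by dsimp only; decide⟩ <;> simp only [BinP.x1, BinP.y1, BinP.s0, BinP.s1,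
      BinP.lLR, BinP.lB, BinP.aT, BinP.aUR, BinP.aLR, BinP.aB, BinP.aLL, BinP.aUL, BinP.xr,
      BinP.xl] at * <;> omega
  · rcases hr with rfl | rfl | rfl <;> refine ⟨?_, by dsimp only; decide⟩ <;> simp only [BinP.x1, BinP.y1, BinP.s0, BinP.s1,
      BinP.lLR, BinP.lB, BinP.aT, BinP.aUR, BinP.aLR, BinP.aB, BinP.aLL, BinP.aUL, BinP.xr,
      BinP.xl] at * <;> omega
  · rcases hr with rfl | rfl <;> refine ⟨?_, by dsimp only; decide⟩ <;> simp only [BinP.x1, BinP.y1, BinP.s0, BinP.s1,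
      BinP.lLR, BinP.lB, BinP.aT, BinP.aUR, BinP.aLR, BinP.aB, BinP.aLL, BinP.aUL, BinP.xr,
      BinP.xl] at * <;> omega
  · rcases hr with rfl | rfl <;> refine ⟨?_, by dsimp only; decide⟩ <;> simp only [BinP.x1, BinP.y1, BinP.s0, BinP.s1,
      BinP.lLR, BinP.lB, BinP.aT, BinP.aUR, BinP.aLR, BinP.aB, BinP.aLL, BinP.aUL, BinP.xr,
      BinP.xl] at * <;> omega
  · rcases hr with rfl | rfl | rfl <;> refine ⟨?_, by dsimp only; decide⟩ <;> simp only [BinP.x1, BinP.y1, BinP.s0, BinP.s1,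
      BinP.lLR, BinP.lB, BinP.aT, BinP.aUR, BinP.aLR, BinP.aB, BinP.aLL, BinP.aUL, BinP.xr,
      BinP.xl] at * <;> omega
  · rcases hr with rfl | rfl | rfl <;> refine ⟨?_, by dsimp only; decide⟩ <;> simp only [BinP.x1, BinP.y1, BinP.s0, BinP.s1,
      BinP.lLR, BinP.lB, BinP.aT, BinP.aUR, BinP.aLR, BinP.aB, BinP.aLL, BinP.aUL, BinP.xr,
      BinP.xl] at * <;> omega

theorem en_end (u : ℤ) (b : BinP) (σ : Side) :
    runsEnd (entryPt u σ) (enRuns u b σ) = firstH b σ := by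
  cases σ <;> simp only [enRuns, runsEnd, entryPt, firstH, Prod.mk.injEq] <;> simp only [BinP.x1, BinP.y1, BinP.s0, BinP.s1,
      BinP.lLR, BinP.lB, BinP.aT, BinP.aUR, BinP.aLR, BinP.aB, BinP.aLL, BinP.aUL, BinP.xr,
      BinP.xl] at * <;>
    constructor <;> omega

theorem ex_end (u : ℤ) (b : BinP) (σ : Side) :
    runsEnd (exStart b σ) (exRuns u b σ) = exitPt u σ := by
  cases σ <;> simp only [exRuns, runsEnd, exitPt, exStart, u0pt, Prod.mk.injEq] <;> simp only [BinP.x1, BinP.y1, BinP.s0, BinP.s1,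
      BinP.lLR, BinP.lB, BinP.aT, BinP.aUR, BinP.aLR, BinP.aB, BinP.aLL, BinP.aUL, BinP.xr,
      BinP.xl] at * <;>
    constructor <;> omega

theorem en_path {u : ℤ} {b : BinP} (σ : Side) (hb : b.Ok u) :
    IsPath (entryPt u σ) (runs (entryPt u σ) (enRuns u b σ)) (firstH b σ) :=
  isPath_cast (isPath_runs (en_ok σ hb)) rfl (en_end u b σ)

theorem ex_path {u : ℤ} {b : BinP} (σ : Side) (hb : b.Ok u) :
    IsPath (exStart b σ) (runs (exStart b σ) (exRuns u b σ)) (exitPt u σ) :=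
  isPath_cast (isPath_runs (ex_ok σ hb)) rfl (ex_end u b σ)

theorem asz_pos {u : ℤ} {b : BinP} (hb : b.Ok u) {σ : Side} (hσ : σ ≠ .CH) : 3 ≤ asz b σ := by
  obtain ⟨h1, h2, h3, h4, h5, h6, h7, h8, h9, t1, t2, t3, t4, e1, e2, e3, e4, e5, e6, e7, e8, hp⟩ :=
    hb
  cases σ <;> simp only [asz, ne_eq, not_true_eq_false] at hσ ⊢ <;> simp only [BinP.x1, BinP.y1, BinP.s0, BinP.s1,
      BinP.lLR, BinP.lB, BinP.aT, BinP.aUR, BinP.aLR, BinP.aB, BinP.aLL, BinP.aUL, BinP.xr,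
      BinP.xl] at * <;> omega

/-- the item cores are paths -/
theorem zig_path {u : ℤ} {b : BinP} (hb : b.Ok u) {σ : Side} (hσ : σ ≠ .CH) :
    IsPath (firstH b σ) (ptsOf (zig (firstH b σ) (zd1 σ) (zd2 σ) (asz b σ))) (exStart b σ) := by
  have h3 := asz_pos hb hσ
  have h1 : Adj (0, 0) (zd1 σ) := by
    cases σ <;> simp only [ne_eq, not_true_eq_false] at hσ <;> decide
  have h2 : Adj (0, 0) (zd2 σ) := by
    cases σ <;> simp only [ne_eq, not_true_eq_false] at hσ <;> decide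
  refine isPath_cast (isPath_zig (by omega) h1 h2) rfl ?_
  cases σ <;> simp only [ne_eq, not_true_eq_false] at hσ <;>
    simp only [firstH, zd1, zd2, asz, exStart, Prod.mk.injEq] <;> simp only [BinP.x1, BinP.y1, BinP.s0, BinP.s1,
        BinP.lLR, BinP.lB, BinP.aT, BinP.aUR, BinP.aLR, BinP.aB, BinP.aLL, BinP.aUL, BinP.xr,
        BinP.xl] at * <;> constructor <;> omega

theorem adj_of {p q : Pt} (h : (q.1 = p.1 + 1 ∧ q.2 = p.2) ∨ (q.1 = p.1 ∧ q.2 = p.2 + 1) ∨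
    (q.1 = p.1 - 1 ∧ q.2 = p.2 + 1) ∨ (q.1 = p.1 - 1 ∧ q.2 = p.2) ∨ (q.1 = p.1 ∧ q.2 = p.2 - 1) ∨
    (q.1 = p.1 + 1 ∧ q.2 = p.2 - 1)) : Adj p q := by
  unfold Adj
  rcases h with ⟨h1, h2⟩ | ⟨h1, h2⟩ | ⟨h1, h2⟩ | ⟨h1, h2⟩ | ⟨h1, h2⟩ | ⟨h1, h2⟩ <;>
    rw [h1, h2] <;> ring

theorem chordA_path {u : ℤ} {b : BinP} (hb : b.Ok u) :
    IsPath (b.xr (b.y1 - 1), b.y1 - 1) (chordA b) (b.xr 1 - 1, 1) := by
  obtain ⟨h1, h2, h3, h4, h5, h6, h7, h8, h9, t1, t2, t3, t4, e1, e2, e3, e4, e5, e6, e7, e8, hp⟩ :=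
    hb
  obtain ⟨m, hm⟩ : ∃ m : ℕ, b.y1 - 1 = (m : ℤ) + 1 := ⟨(b.y1 - 2).toNat, by
    simp only [BinP.x1, BinP.y1, BinP.s0, BinP.s1,
      BinP.lLR, BinP.lB, BinP.aT, BinP.aUR, BinP.aLR, BinP.aB, BinP.aLL, BinP.aUL, BinP.xr,
      BinP.xl] at *
    omega⟩
  rw [chordA_eq, show (b.y1 - 1).toNat = m + 1 by omega, List.range_succ, List.map_append,
    List.map_singleton]
  refine isPath_append (q := (b.xr (b.y1 - 1 - m), b.y1 - 1 - m)) ?_ (isPath_single ?_)
  · refine isPath_cast (isPath_map (f := fun j : ℕ =>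
      ((b.xr (b.y1 - 1 - j), b.y1 - 1 - j) : Pt)) (n := m) ?_) (by simp) rfl
    intro j hj
    refine adj_of ?_
    dsimp only
    push_cast
    simp only [BinP.x1, BinP.y1, BinP.s0, BinP.s1,
        BinP.lLR, BinP.lB, BinP.aT, BinP.aUR, BinP.aLR, BinP.aB, BinP.aLL, BinP.aUL, BinP.xr,
        BinP.xl] at *
    omega
  · refine adj_of ?_
    dsimp only
    simp only [BinP.x1, BinP.y1, BinP.s0, BinP.s1,
        BinP.lLR, BinP.lB, BinP.aT, BinP.aUR, BinP.aLR, BinP.aB, BinP.aLL, BinP.aUL, BinP.xr,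
        BinP.xl] at *
    omega

/-- first vertex of a row -/
def rowStart (b : BinP) (j : ℕ) : Pt :=
  if j % 2 = 0 then (b.xr (j + 1) - 1, (j + 1 : ℤ)) else (b.xl (j + 1), (j + 1 : ℤ))

theorem row_path {u : ℤ} {b : BinP} (hb : b.Ok u) {j : ℕ} (hj : (j : ℤ) + 1 ≤ b.y1 - 1) {q : Pt}
    (hq : Adj (if j % 2 = 0 then (b.xl (j + 1), (j + 1 : ℤ)) else (b.xr (j + 1) - 1, (j + 1 : ℤ))) q) :
    IsPath (rowStart b j) (chordRow b j) q := by
  obtain ⟨h1, h2, h3, h4, h5, h6, h7, h8, h9, t1, t2, t3, t4, e1, e2, e3, e4, e5, e6, e7, e8, hp⟩ :=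
    hb
  have hlen : 1 ≤ b.xr (j + 1) - b.xl (j + 1) := by
    simp only [BinP.x1, BinP.y1, BinP.s0, BinP.s1,
        BinP.lLR, BinP.lB, BinP.aT, BinP.aUR, BinP.aLR, BinP.aB, BinP.aLL, BinP.aUL, BinP.xr,
        BinP.xl] at *
    omega
  unfold rowStart chordRow
  split_ifs with h0
  · rw [if_pos h0] at hq
    refine isPath_seg' hlen (by decide) ?_
    refine cast (congrArg (fun z => Adj z q) ?_) hq
    refine Prod.ext ?_ ?_ <;> dsimp only <;> ring
  · rw [if_neg h0] at hq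
    refine isPath_seg' hlen (by decide) ?_
    refine cast (congrArg (fun z => Adj z q) ?_) hq
    refine Prod.ext ?_ ?_ <;> dsimp only <;> ring

theorem chord_path {u : ℤ} {b : BinP} (hb : b.Ok u) :
    IsPath (firstH b .CH) (chordCore b) (exStart b .CH) := by
  have hb' := hb
  obtain ⟨h1, h2, h3, h4, h5, h6, h7, h8, h9, t1, t2, t3, t4, e1, e2, e3, e4, e5, e6, e7, e8, hp⟩ :=
    hb'
  obtain ⟨m, hm⟩ : ∃ m : ℕ, b.y1 - 1 = (m : ℤ) + 1 := ⟨(b.y1 - 2).toNat, by
    simp only [BinP.x1, BinP.y1, BinP.s0, BinP.s1,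
      BinP.lLR, BinP.lB, BinP.aT, BinP.aUR, BinP.aLR, BinP.aB, BinP.aLL, BinP.aUL, BinP.xr,
      BinP.xl] at *
    omega⟩
  have hm2 : m % 2 = 0 := by omega
  have hlo : 8 * u ≤ b.s0 ∧ b.s0 + 10 ≤ b.y1 := by
    simp only [BinP.x1, BinP.y1, BinP.s0, BinP.s1,
      BinP.lLR, BinP.lB, BinP.aT, BinP.aUR, BinP.aLR, BinP.aB, BinP.aLL, BinP.aUL, BinP.xr,
      BinP.xl] at *
    omega
  unfold chordCore
  rw [show firstH b .CH :: (chordA b ++ ((List.range (b.y1 - 1).toNat).flatMap (chordRow b) ++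
    [u0pt b])) = [firstH b .CH] ++ (chordA b ++ ((List.range (b.y1 - 1).toNat).flatMap (chordRow b) ++
    [u0pt b])) from rfl]
  refine isPath_append (q := (b.xr (b.y1 - 1), b.y1 - 1)) (isPath_single (adj_of ?_)) ?_
  · simp only [firstH]
    simp only [BinP.x1, BinP.y1, BinP.s0, BinP.s1,
        BinP.lLR, BinP.lB, BinP.aT, BinP.aUR, BinP.aLR, BinP.aB, BinP.aLL, BinP.aUL, BinP.xr,
        BinP.xl] at *
    omega
  refine isPath_append (chordA_path hb) ?_
  refine isPath_append (q := u0pt b) ?_ (isPath_single (adj_of ?_))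
  · rw [show (b.y1 - 1).toNat = m + 1 by omega, List.range_succ, List.flatMap_append]
    refine isPath_append (q := rowStart b m) ?_ ?_
    · refine isPath_cast (isPath_flatMap (f := rowStart b) (n := m) ?_) (by simp [rowStart]) rfl
      intro j hj
      refine row_path hb (by omega) (adj_of ?_)
      rcases Nat.mod_two_eq_zero_or_one j with h0 | h0
      · have h0' : (j + 1) % 2 = 1 := by omega
        simp only [rowStart, h0, h0', ite_true, one_ne_zero, ite_false]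
        push_cast
        simp only [BinP.x1, BinP.y1, BinP.s0, BinP.s1,
            BinP.lLR, BinP.lB, BinP.aT, BinP.aUR, BinP.aLR, BinP.aB, BinP.aLL, BinP.aUL, BinP.xr,
            BinP.xl] at *
        simp only [and_true]
        omega
      · have h0' : (j + 1) % 2 = 0 := by omega
        simp only [rowStart, h0, h0', ite_true, one_ne_zero, ite_false]
        push_cast
        simp only [BinP.x1, BinP.y1, BinP.s0, BinP.s1,
            BinP.lLR, BinP.lB, BinP.aT, BinP.aUR, BinP.aLR, BinP.aB, BinP.aLL, BinP.aUL, BinP.xr,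
            BinP.xl] at *
        simp only [and_true]
        omega
    · rw [List.flatMap_singleton]
      refine row_path hb (by omega) (adj_of ?_)
      simp only [hm2, ite_true, u0pt]
      simp only [BinP.x1, BinP.y1, BinP.s0, BinP.s1,
          BinP.lLR, BinP.lB, BinP.aT, BinP.aUR, BinP.aLR, BinP.aB, BinP.aLL, BinP.aUL, BinP.xr,
          BinP.xl] at *
      omega
  · simp only [u0pt, exStart, true_and, true_or, or_true]

theorem core_path {u : ℤ} {b : BinP} (σ : Side) (hb : b.Ok u) :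
    IsPath (firstH b σ) (ptsOf (core b σ)) (exStart b σ) := by
  by_cases hσ : σ = .CH
  · subst hσ
    have e : ptsOf (core b .CH) = chordCore b := ptsOf_hs _
    rw [e]
    exact chord_path hb
  · have e : core b σ = zig (firstH b σ) (zd1 σ) (zd2 σ) (asz b σ) := by
      cases σ <;> first | rfl | exact absurd rfl hσ
    rw [e]
    exact zig_path hb hσ

end StrAux

theorem StrandPath_proof : S_StrandPath := by
  intro u b σ hb
  rw [StrAux.ptsOf_strand]
  exact StrAux.isPath_append (StrAux.en_path σ hb)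
    (StrAux.isPath_append (StrAux.core_path σ hb) (StrAux.ex_path σ hb))

theorem StrandLetters_proof : S_StrandLetters := by
  intro u b σ hb
  have hen := StrAux.en_ok σ hb
  have hex := StrAux.ex_ok σ hb
  have l1 : 0 ≤ enLen u b σ ∧ (runs (entryPt u σ) (enRuns u b σ)).length = (enLen u b σ).toNat := by
    rw [StrAux.length_runs]
    cases σ <;> simp only [enRuns, enLen, List.mem_cons, List.not_mem_nil, or_false,
      forall_eq_or_imp, forall_eq, List.map_cons, List.map_nil, List.sum_cons, List.sum_nil]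
        at hen ⊢ <;> simp only [BinP.x1, BinP.y1, BinP.s0, BinP.s1,
            BinP.lLR, BinP.lB, BinP.aT, BinP.aUR, BinP.aLR, BinP.aB, BinP.aLL, BinP.aUL, BinP.xr,
            BinP.xl] at * <;> omega
  have l2 : 0 ≤ exLen u b σ ∧ (runs (exStart b σ) (exRuns u b σ)).length = (exLen u b σ).toNat := by
    rw [StrAux.length_runs]
    cases σ <;> simp only [exRuns, exLen, List.mem_cons, List.not_mem_nil, or_false,
      forall_eq_or_imp, forall_eq, List.map_cons, List.map_nil, List.sum_cons, List.sum_nil]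
        at hex ⊢ <;> simp only [BinP.x1, BinP.y1, BinP.s0, BinP.s1,
            BinP.lLR, BinP.lB, BinP.aT, BinP.aUR, BinP.aLR, BinP.aB, BinP.aLL, BinP.aUL, BinP.xr,
            BinP.xl] at * <;> omega
  refine ⟨l1.1, l2.1, ?_⟩
  unfold strand pp0
  rw [List.map_append, List.map_append, StrAux.ps_snd, StrAux.ps_snd, l1.2, l2.2]

end Pool.Agent.H329
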