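import Pool.Agent.H329.Spec

/-!
# The structure theorem from its parts
-/

namespace Pool.Agent.H329

open Finset in
/-- The structure theorem. -/
theorem Structure_proof (hPos : S_Pos) (hComp : S_Comp) (hArith : S_Arith)
    (hLay : S_TokLayout) : S_Structure := by
  intro ι _ B l p hsep hnd hnum hfold
  have hsz : ∀ j ∈ labels l, 1 ≤ B.size j := by
    intro j hj
    have hj' := List.mem_toFinset.2 hj
    cases h : B.item j with
    | true => exact hnum.item_pos j hj' h
    | false => have := hnum.chord_ge j hj' h; omega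
  obtain ⟨⟨o, ho⟩, hK, -⟩ := hLay ι B l hsep hnd hsz
  obtain ⟨f, hf, hc⟩ := hfold
  obtain ⟨S, HS, HB, PB, hT, c1, c2, c3⟩ := hPos ι B _ o _ ho hnum.item_pos hnum.chord_ge hnum.n3a
    f hf (by rw [← hK]; exact hc)
  obtain ⟨κ, hκ⟩ := hComp ι _ S HS HB PB hT
  refine hArith ι B _ p κ hnum ?_
  intro t ht
  obtain ⟨d1, d2⟩ := hκ t ht
  have memJ : ∀ j ∈ (labels l).toFinset.filter (fun j => κ j = t), j ∈ (labels l).toFinset :=
    fun j hj => (Finset.mem_filter.1 hj).1
  constructor
  · have e1 : ∑ j ∈ (labels l).toFinset.filter (fun j => κ j = t), (PB j).card =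
        ∑ j ∈ (labels l).toFinset.filter (fun j => κ j = t),
          ((HB j).card + if B.item j = true then 1 else 0) := by
      refine Finset.sum_congr rfl fun j hj => ?_
      rw [c2 j (memJ j hj), c3 j (memJ j hj)]
      cases h : B.item j <;> simp
    rw [e1, Finset.sum_add_distrib, ← Finset.card_filter] at d1
    omega
  · have e1 : ∑ j ∈ (labels l).toFinset.filter (fun j => κ j = t), B.size j =
        ∑ j ∈ (labels l).toFinset.filter (fun j => κ j = t), (HS j).card :=
      Finset.sum_congr rfl fun j hj => (c1 j (memJ j hj)).symm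
    have e2 : ∑ j ∈ (labels l).toFinset.filter (fun j => κ j = t),
          (if B.item j then 2 * B.size j + 1 else 4) =
        ∑ j ∈ (labels l).toFinset.filter (fun j => κ j = t), ((HB j).card + (PB j).card) := by
      refine Finset.sum_congr rfl fun j hj => ?_
      rw [c2 j (memJ j hj), c3 j (memJ j hj)]
      cases h : B.item j <;> simp
      ring
    rw [e1, e2]
    exact d2

end Pool.Agent.H329
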