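import Pool.Agent.H329.Spec

/-!
# Sums over the labels of an instance
-/

namespace Pool.Agent.H329

open Finset

namespace NumAux

/-! ### Bounds for the codes -/

theorem one_le_n0 (G : Grid) : 1 ≤ n0 G := by unfold n0; omega

theorem one_le_RR (G : Grid) : 1 ≤ RR G := by unfold RR; omega

theorem code_le (G : Grid) (x : ℕ) (hx : x ≤ n0 G) : 32 * code G x + 4 ≤ D0 G := by
  have h1 : code G x ≤ 24 * (n0 G * RR G) ^ 24 := by
    unfold code
    have h2 : ∀ e ∈ range 24, (x * RR G) ^ e ≤ (n0 G * RR G) ^ 24 := by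
      intro e he
      have he' : e ≤ 24 := (Finset.mem_range.1 he).le
      calc (x * RR G) ^ e ≤ (n0 G * RR G) ^ e := Nat.pow_le_pow_left (Nat.mul_le_mul_right _ hx) e
        _ ≤ (n0 G * RR G) ^ 24 := Nat.pow_le_pow_right (Nat.mul_pos (one_le_n0 G) (one_le_RR G)) he'
    calc _ ≤ (range 24).card • ((n0 G * RR G) ^ 24) := Finset.sum_le_card_nsmul _ _ _ h2
      _ = _ := by rw [Finset.card_range, smul_eq_mul]
  unfold D0
  omega

theorem id_le (G : Grid) {c i : ℕ} (hc : c ≤ G.M) (hi : i ≤ G.N) :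
    idV G c i ≤ n0 G ∧ idC G c i ≤ n0 G := by
  unfold idV idC n0
  have h1 : c * (G.N + 1) ≤ G.M * (G.N + 1) := Nat.mul_le_mul_right _ hc
  have h2 : 2 * (G.M + 1) * (G.N + 1) = 2 * (G.M * (G.N + 1)) + 2 * (G.N + 1) := by ring
  omega

theorem n0_le_D0 (G : Grid) : n0 G ≤ D0 G := by
  unfold D0
  have h1 : n0 G ≤ (n0 G * RR G) ^ 24 := by
    calc n0 G ≤ n0 G * RR G := Nat.le_mul_of_pos_right _ (one_le_RR G)
      _ ≤ (n0 G * RR G) ^ 24 := Nat.le_self_pow (by norm_num) _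
  omega

theorem MN_le (G : Grid) : G.M * G.N ≤ D0 G := by
  refine le_trans ?_ (n0_le_D0 G)
  unfold n0
  have h2 : 2 * (G.M + 1) * (G.N + 1) = 2 * (G.M * G.N) + 2 * G.M + 2 * G.N + 2 := by ring
  omega

theorem D0_le (G : Grid) : 100 * (D0 G + 1) ≤ uu G := by
  unfold uu
  have h1 : D0 G + 1 ≤ (D0 G + 1) ^ 2 := Nat.le_self_pow (by norm_num) _
  omega

/-- the side lengths of the hexagon of a bin -/
structure Sides (G : Grid) (c i : ℕ) : Prop where
  T1 : 8 * uu G ≤ lT G c i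
  T2 : lT G c i ≤ 8 * uu G + D0 G
  UR1 : 8 * uu G ≤ lUR G c i
  UR2 : lUR G c i ≤ 8 * uu G + D0 G
  LL1 : 8 * uu G ≤ lLL G c i
  LL2 : lLL G c i ≤ 8 * uu G + D0 G
  UL1 : 8 * uu G ≤ lUL G c i
  UL2 : lUL G c i ≤ 8 * uu G + D0 G
  odd1 : ∃ k, lLL G c i = 2 * k + 1
  odd2 : ∃ k, lUL G c i = 2 * k + 1

theorem sides {G : Grid} (hG : G.Valid) {c i : ℕ} (h1 : 1 ≤ c) (h2 : c ≤ G.M) (h3 : 1 ≤ i)
    (h4 : i ≤ G.N) : Sides G c i := by
  have k1 := code_le G _ (id_le G h2 h4).1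
  have k2 := code_le G _ (id_le G h2 h4).2
  have k3 := code_le G _ (id_le G (show c - 1 ≤ G.M by omega) h4).1
  have k4 := code_le G _ (id_le G h2 (show i - 1 ≤ G.N by omega)).2
  have w1 := hG.w_range c i
  have w2 := hG.w_range (c - 1) i
  constructor
  · unfold lT AV; omega
  · unfold lT AV; omega
  · unfold lUR AC; omega
  · unfold lUR AC; omega
  · unfold lLL AV; omega
  · unfold lLL AV; omega
  · unfold lUL AC; omega
  · unfold lUL AC; omega
  · refine ⟨4 * uu G + 16 * code G (idV G (c - 1) i), ?_⟩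
    unfold lLL AV; omega
  · refine ⟨4 * uu G + 16 * code G (idC G c (i - 1)), ?_⟩
    unfold lUL AC; omega

/-- the six items of a bin -/
theorem pp_eq {G : Grid} (hG : G.Valid) {c i : ℕ} (h1 : 1 ≤ c) (h2 : c ≤ G.M) (h3 : 1 ≤ i)
    (h4 : i ≤ G.N) : pp G c i - 2 = (AV G (c - 1) i + G.w (c - 1) i) + AV G c i + lLR G c i +
      lB G c i + (AC G c (i - 1) + AC G c i + 1) := by
  have hs := sides hG h1 h2 h3 h4
  have hD := D0_le G
  have w2 := hG.w_range (c - 1) i
  have e1 := hs.T1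
  have e2 := hs.UR2
  have e3 := hs.LL1
  have e4 := hs.LL2
  have e5 := hs.UL1
  have e6 : lUR G c i ≤ lUL G c i + lLL G c i := by omega
  have e7 : lLL G c i ≤ lT G c i + lUR G c i := by
    have := hs.UR1
    omega
  unfold pp lLR lB
  unfold lT lUR lLL lUL at *
  omega

/-! ### Kinds of labels -/

/-- the kind of a label -/
def kind : Lab → Fin 7
  | .vH _ _ => 0
  | .vL _ _ => 1
  | .cH _ _ => 2
  | .cL _ _ => 3
  | .lr _ _ => 4
  | .b _ _ => 5
  | .ch _ _ => 6

theorem sum_kind (J : Finset Lab) (K : ℕ → ℕ → Lab)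
    (hinj : ∀ c i c' i', K c i = K c' i' → c = c' ∧ i = i') (k : Fin 7)
    (hk : ∀ j, kind j = k ↔ ∃ c i, j = K c i) (S : Finset (ℕ × ℕ))
    (hS : ∀ c i, K c i ∈ J ↔ (c, i) ∈ S) (F : Lab → ℕ) :
    ∑ j ∈ J with kind j = k, F j = ∑ x ∈ S, F (K x.1 x.2) := by
  have h1 : (J.filter fun j => kind j = k) = S.image (fun x => K x.1 x.2) := by
    ext j
    simp only [Finset.mem_filter, Finset.mem_image]
    constructor
    · rintro ⟨hj, hkj⟩
      obtain ⟨c, i, rfl⟩ := (hk j).1 hkj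
      exact ⟨(c, i), (hS c i).1 hj, rfl⟩
    · rintro ⟨x, hx, rfl⟩
      exact ⟨(hS _ _).2 hx, (hk _).2 ⟨_, _, rfl⟩⟩
  rw [h1, Finset.sum_image]
  intro x _ y _ hxy
  obtain ⟨h2, h3⟩ := hinj _ _ _ _ hxy
  exact Prod.ext h2 h3

/-- sum over all labels of the items -/
theorem sum_items {G : Grid} (hG : G.Valid) (J : Finset Lab) (hJ : ∀ j, j ∈ J ↔ LabOk G j)
    (F : Lab → ℕ) : ∑ j ∈ J.filter (fun j => j.item = true), F j =
      ∑ c ∈ Icc 1 G.M, ∑ i ∈ Icc 1 G.N, (F (.vH (c - 1) i) + F (.vL c i) + F (.lr c i) +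
        F (.b c i)) +
      ∑ c ∈ Icc 1 G.M, (∑ i ∈ range (G.N - 1), (F (.cH c (i + 1)) + F (.cL c (i + 1))) +
        (if G.hL c = 1 then F (.cL c 0) else F (.cH c 0)) +
        (if G.hR c = 1 then F (.cH c G.N) else F (.cL c G.N))) := by
  set J' := J.filter (fun j => j.item = true) with hJ'
  have hN := hG.N_pos
  have hmem : ∀ j, j ∈ J' ↔ LabOk G j ∧ j.item = true := by
    intro j
    rw [hJ', Finset.mem_filter, hJ]
  -- the bins
  have bins : ∀ f : ℕ × ℕ → ℕ, ∑ x ∈ Icc 1 G.M ×ˢ Icc 1 G.N, f x =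
      ∑ c ∈ Icc 1 G.M, ∑ i ∈ Icc 1 G.N, f (c, i) := fun f => Finset.sum_product _ _ _
  have s1 : ∑ j ∈ J' with kind j = 1, F j = ∑ c ∈ Icc 1 G.M, ∑ i ∈ Icc 1 G.N, F (.vL c i) := by
    rw [sum_kind J' Lab.vL (by simp) 1 (by intro j; cases j <;> simp [kind])
      (Icc 1 G.M ×ˢ Icc 1 G.N) (by
        intro c i
        rw [hmem]
        simp only [LabOk, Lab.item, and_true, Finset.mem_product, Finset.mem_Icc]
        tauto) F, bins]
  have s4 : ∑ j ∈ J' with kind j = 4, F j = ∑ c ∈ Icc 1 G.M, ∑ i ∈ Icc 1 G.N, F (.lr c i) := by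
    rw [sum_kind J' Lab.lr (by simp) 4 (by intro j; cases j <;> simp [kind])
      (Icc 1 G.M ×ˢ Icc 1 G.N) (by
        intro c i
        rw [hmem]
        simp only [LabOk, Lab.item, and_true, Finset.mem_product, Finset.mem_Icc]
        tauto) F, bins]
  have s5 : ∑ j ∈ J' with kind j = 5, F j = ∑ c ∈ Icc 1 G.M, ∑ i ∈ Icc 1 G.N, F (.b c i) := by
    rw [sum_kind J' Lab.b (by simp) 5 (by intro j; cases j <;> simp [kind])
      (Icc 1 G.M ×ˢ Icc 1 G.N) (by
        intro c i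
        rw [hmem]
        simp only [LabOk, Lab.item, and_true, Finset.mem_product, Finset.mem_Icc]
        tauto) F, bins]
  have s6 : ∑ j ∈ J' with kind j = 6, F j = 0 := by
    rw [sum_kind J' Lab.ch (by simp) 6 (by intro j; cases j <;> simp [kind])
      ∅ (by
        intro c i
        rw [hmem]
        simp [LabOk, Lab.item]) F, Finset.sum_empty]
  have s0 : ∑ j ∈ J' with kind j = 0, F j =
      ∑ c ∈ Icc 1 G.M, ∑ i ∈ Icc 1 G.N, F (.vH (c - 1) i) := by
    rw [sum_kind J' Lab.vH (by simp) 0 (by intro j; cases j <;> simp [kind])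
      (range G.M ×ˢ Icc 1 G.N) (by
        intro c i
        rw [hmem]
        simp only [LabOk, Lab.item, and_true, Finset.mem_product, Finset.mem_Icc,
          Finset.mem_range]
        constructor
        · rintro ⟨h1, h2, h3⟩
          exact ⟨by omega, h2, h3⟩
        · rintro ⟨h1, h2, h3⟩
          exact ⟨by omega, h2, h3⟩) F, Finset.sum_product]
    have h1 : Icc 1 G.M = (range G.M).map (addRightEmbedding 1) := by
      rw [Finset.range_eq_Ico, Finset.map_add_right_Ico]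
      ext x
      simp only [Finset.mem_Icc, Finset.mem_Ico]
      omega
    rw [h1, Finset.sum_map]
    simp
  have s2 : ∑ j ∈ J' with kind j = 2, F j = ∑ c ∈ Icc 1 G.M, ∑ i ∈ range (G.N + 1),
      (if (1 ≤ i ∧ i + 1 ≤ G.N) ∨ (i = 0 ∧ G.hL c ≠ 1) ∨ (i = G.N ∧ G.hR c = 1)
        then F (.cH c i) else 0) := by
    rw [sum_kind J' Lab.cH (by simp) 2 (by intro j; cases j <;> simp [kind])
      ((Icc 1 G.M ×ˢ range (G.N + 1)).filter fun x => (1 ≤ x.2 ∧ x.2 + 1 ≤ G.N) ∨
        (x.2 = 0 ∧ G.hL x.1 ≠ 1) ∨ (x.2 = G.N ∧ G.hR x.1 = 1)) (by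
        intro c i
        rw [hmem]
        simp only [LabOk, Lab.item, and_true, Finset.mem_filter, Finset.mem_product,
          Finset.mem_Icc, Finset.mem_range]
        constructor
        · rintro ⟨h1, h2, h3⟩
          refine ⟨⟨⟨h1, h2⟩, ?_⟩, h3⟩
          omega
        · rintro ⟨⟨⟨h1, h2⟩, -⟩, h3⟩
          exact ⟨h1, h2, h3⟩) F, Finset.sum_filter, Finset.sum_product]
  have s3 : ∑ j ∈ J' with kind j = 3, F j = ∑ c ∈ Icc 1 G.M, ∑ i ∈ range (G.N + 1),
      (if (1 ≤ i ∧ i + 1 ≤ G.N) ∨ (i = 0 ∧ G.hL c = 1) ∨ (i = G.N ∧ G.hR c ≠ 1)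
        then F (.cL c i) else 0) := by
    rw [sum_kind J' Lab.cL (by simp) 3 (by intro j; cases j <;> simp [kind])
      ((Icc 1 G.M ×ˢ range (G.N + 1)).filter fun x => (1 ≤ x.2 ∧ x.2 + 1 ≤ G.N) ∨
        (x.2 = 0 ∧ G.hL x.1 = 1) ∨ (x.2 = G.N ∧ G.hR x.1 ≠ 1)) (by
        intro c i
        rw [hmem]
        simp only [LabOk, Lab.item, and_true, Finset.mem_filter, Finset.mem_product,
          Finset.mem_Icc, Finset.mem_range]
        constructor
        · rintro ⟨h1, h2, h3⟩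
          refine ⟨⟨⟨h1, h2⟩, ?_⟩, h3⟩
          omega
        · rintro ⟨⟨⟨h1, h2⟩, -⟩, h3⟩
          exact ⟨h1, h2, h3⟩) F, Finset.sum_filter, Finset.sum_product]
  have s23 : ∑ j ∈ J' with kind j = 2, F j + ∑ j ∈ J' with kind j = 3, F j =
      ∑ c ∈ Icc 1 G.M, (∑ i ∈ range (G.N - 1), (F (.cH c (i + 1)) + F (.cL c (i + 1))) +
        (if G.hL c = 1 then F (.cL c 0) else F (.cH c 0)) +
        (if G.hR c = 1 then F (.cH c G.N) else F (.cL c G.N))) := by
    rw [s2, s3, ← Finset.sum_add_distrib]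
    refine Finset.sum_congr rfl fun c _ => ?_
    obtain ⟨n, hn⟩ : ∃ n, G.N = n + 1 := ⟨G.N - 1, by omega⟩
    rw [hn, Finset.sum_range_succ, Finset.sum_range_succ', Finset.sum_range_succ _ (n + 1),
      Finset.sum_range_succ' _ n, Nat.add_sub_cancel]
    have e1 : ∀ i ∈ range n, (if (1 ≤ i + 1 ∧ i + 1 + 1 ≤ n + 1) ∨ (i + 1 = 0 ∧ G.hL c ≠ 1) ∨
        (i + 1 = n + 1 ∧ G.hR c = 1) then F (.cH c (i + 1)) else 0) = F (.cH c (i + 1)) := by
      intro i hi
      rw [if_pos]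
      left
      have := Finset.mem_range.1 hi
      omega
    have e2 : ∀ i ∈ range n, (if (1 ≤ i + 1 ∧ i + 1 + 1 ≤ n + 1) ∨ (i + 1 = 0 ∧ G.hL c = 1) ∨
        (i + 1 = n + 1 ∧ G.hR c ≠ 1) then F (.cL c (i + 1)) else 0) = F (.cL c (i + 1)) := by
      intro i hi
      rw [if_pos]
      left
      have := Finset.mem_range.1 hi
      omega
    rw [Finset.sum_congr rfl e1, Finset.sum_congr rfl e2, Finset.sum_add_distrib]
    by_cases hL : G.hL c = 1 <;> by_cases hR : G.hR c = 1 <;> simp [hL, hR] <;> ring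
  rw [← Finset.sum_fiberwise J' kind F, Fin.sum_univ_seven, s0, s1, s4, s5, s6]
  rw [add_zero]
  have h9 : ∀ a b x y p q : ℕ, a + b + x + y + p + q = (a + b + p + q) + (x + y) := by
    intros; ring
  rw [h9, s23]
  congr 1
  simp only [Finset.sum_add_distrib]

theorem sum_chords {G : Grid} (J : Finset Lab) (hJ : ∀ j, j ∈ J ↔ LabOk G j)
    (F : Lab → ℕ) : ∑ j ∈ J.filter (fun j => j.item = false), F j =
      ∑ c ∈ Icc 1 G.M, ∑ i ∈ Icc 1 G.N, F (.ch c i) := by
  have h1 : (J.filter fun j => j.item = false) = J.filter fun j => kind j = 6 := by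
    ext j
    simp only [Finset.mem_filter]
    cases j <;> simp [Lab.item, kind]
  rw [h1, sum_kind J Lab.ch (by simp) 6 (by intro j; cases j <;> simp [kind])
      (Icc 1 G.M ×ˢ Icc 1 G.N) (by
        intro c i
        rw [hJ]
        simp only [LabOk, Finset.mem_product, Finset.mem_Icc]
        tauto) F, Finset.sum_product]

end NumAux

open NumAux

theorem CodeLe_aux : S_CodeLe := fun G x hx => NumAux.code_le G x hx

theorem Sums_proof (hI : S_Inst) : S_Sums := by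
  intro G hG
  obtain ⟨-, -, hlab⟩ := hI G hG
  have hJ : ∀ j, j ∈ (labels (toks G)).toFinset ↔ LabOk G j := by
    intro j
    rw [List.mem_toFinset, hlab]
  have hN := hG.N_pos
  constructor
  · rw [Finset.card_eq_sum_ones, Finset.card_eq_sum_ones, sum_items hG _ hJ, sum_chords _ hJ]
    simp only [Finset.sum_const, Nat.card_Icc, Finset.card_range, smul_eq_mul, ite_self]
    obtain ⟨n, hn⟩ : ∃ n, G.N = n + 1 := ⟨G.N - 1, by omega⟩
    rw [hn]
    simp only [Nat.add_sub_cancel]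
    ring
  · rw [sum_items hG _ hJ]
    have h1 : ∑ c ∈ Icc 1 G.M, ∑ i ∈ Icc 1 G.N, (pp G c i - 2) =
        ∑ c ∈ Icc 1 G.M, ∑ i ∈ Icc 1 G.N, (Lab.size G (.vH (c - 1) i) + Lab.size G (.vL c i) +
          Lab.size G (.lr c i) + Lab.size G (.b c i)) +
        ∑ c ∈ Icc 1 G.M, ∑ i ∈ Icc 1 G.N, (AC G c (i - 1) + AC G c i + 1) := by
      rw [← Finset.sum_add_distrib]
      refine Finset.sum_congr rfl fun c hc => ?_
      rw [← Finset.sum_add_distrib]
      refine Finset.sum_congr rfl fun i hi => ?_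
      rw [Finset.mem_Icc] at hc hi
      rw [pp_eq hG hc.1 hc.2 hi.1 hi.2]
      rfl
    rw [h1]
    congr 1
    -- the items of the classes `C`
    have h2 : ∀ c ∈ Icc 1 G.M, (∑ i ∈ range (G.N - 1), (Lab.size G (.cH c (i + 1)) +
        Lab.size G (.cL c (i + 1))) +
        (if G.hL c = 1 then Lab.size G (.cL c 0) else Lab.size G (.cH c 0)) +
        (if G.hR c = 1 then Lab.size G (.cH c G.N) else Lab.size G (.cL c G.N))) + G.hL c =
        ∑ i ∈ Icc 1 G.N, (AC G c (i - 1) + AC G c i + 1) + G.hR c := by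
      intro c _
      obtain ⟨n, hn⟩ : ∃ n, G.N = n + 1 := ⟨G.N - 1, by omega⟩
      have hL := hG.hL_range c
      have hR := hG.hR_range c
      have e1 : ∑ i ∈ Icc 1 (n + 1), (AC G c (i - 1) + AC G c i + 1) =
          ∑ i ∈ range (n + 1), (AC G c i + AC G c (i + 1) + 1) := by
        have h3 : Icc 1 (n + 1) = (range (n + 1)).map (addRightEmbedding 1) := by
          rw [Finset.range_eq_Ico, Finset.map_add_right_Ico]
          ext x
          simp only [Finset.mem_Icc, Finset.mem_Ico]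
          omega
        rw [h3, Finset.sum_map]
        simp
      rw [hn, e1, Nat.add_sub_cancel]
      have e2 : ∑ i ∈ range (n + 1), (AC G c i + AC G c (i + 1) + 1) =
          (∑ i ∈ range n, AC G c (i + 1) + AC G c 0) +
            (∑ i ∈ range n, AC G c (i + 1) + AC G c (n + 1)) + (n + 1) := by
        rw [Finset.sum_add_distrib, Finset.sum_add_distrib, Finset.sum_range_succ',
          Finset.sum_range_succ]
        simp
      have e3 : ∑ i ∈ range n, (Lab.size G (.cH c (i + 1)) + Lab.size G (.cL c (i + 1))) =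
          ∑ i ∈ range n, AC G c (i + 1) + ∑ i ∈ range n, AC G c (i + 1) + n := by
        simp only [Lab.size]
        rw [Finset.sum_add_distrib, Finset.sum_add_distrib]
        simp
        ring
      rw [e2, e3]
      simp only [Lab.size]
      by_cases k1 : G.hL c = 1 <;> by_cases k2 : G.hR c = 1
      · rw [if_pos k1, if_pos k2]; omega
      · rw [if_pos k1, if_neg k2]; omega
      · rw [if_neg k1, if_pos k2]; omega
      · rw [if_neg k1, if_neg k2]; omega
    have h3 : (∑ c ∈ Icc 1 G.M, (∑ i ∈ range (G.N - 1), (Lab.size G (.cH c (i + 1)) +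
        Lab.size G (.cL c (i + 1))) +
        (if G.hL c = 1 then Lab.size G (.cL c 0) else Lab.size G (.cH c 0)) +
        (if G.hR c = 1 then Lab.size G (.cH c G.N) else Lab.size G (.cL c G.N)))) +
        ∑ c ∈ Icc 1 G.M, G.hL c =
        (∑ c ∈ Icc 1 G.M, ∑ i ∈ Icc 1 G.N, (AC G c (i - 1) + AC G c i + 1)) +
        ∑ c ∈ Icc 1 G.M, G.hR c := by
      rw [← Finset.sum_add_distrib, ← Finset.sum_add_distrib]
      exact Finset.sum_congr rfl h2
    rw [hG.balance] at h3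
    exact Nat.add_right_cancel h3

end Pool.Agent.H329
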