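import Pool.Agent.H329.Spec
-- TokLayout_proof done

/-!
Project HP folding (MP_dec383_lc), job TokLayout. Owner helper329.
Routine. Suggestion: prove by induction on the token list a general statement for l = any list with the chain condition and gaps >= 2: define
o j = length of the word of the tokens before the (unique, by Nodup) occurrence of blk j. Word of l1 ++ blk j :: l2 = word l1 ++ blkWord j ++ word l2. Since j is
preceded and followed by gap tokens of length >= 2 (Sep), 1 <= o j, o j + len < total length, and the extended intervals [o j - 1, o j + len] of different blocks are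
disjoint. Letters of gaps are false. hh: consecutive true letters occur only inside chord words (itemWord alternates true,false), each chord of size c has c-1 of
them. K is a sum over the list; labels are Nodup so it is a sum over the Finset.
Keep the statement of TARGET unchanged; auxiliary lemmas before it, in namespace Pool.Agent.H329.TokLayoutAux.
-/

namespace Pool.Agent.H329


open Finset





namespace TokLayoutAux

theorem hh_nil : hh [] = 0 := rfl

theorem hh_one (a : Bool) : hh [a] = 0 := rfl

theorem hh_cons (a b : Bool) (s : List Bool) :
    hh (a :: b :: s) = (if a && b then 1 else 0) + hh (b :: s) := by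
  unfold hh
  have e : (a :: b :: s).length - 1 = ((b :: s).length - 1) + 1 := by simp
  rw [e, List.range_succ_eq_map, List.filter_cons, List.filter_map]
  have e2 : ((fun i => (a :: b :: s).getD i false && (a :: b :: s).getD (i + 1) false) ∘ Nat.succ) =
      fun i => (b :: s).getD i false && (b :: s).getD (i + 1) false := by
    funext i
    simp
  rw [e2]
  have e3 : ((a :: b :: s).getD 0 false && (a :: b :: s).getD (0 + 1) false) = (a && b) := by simp
  rw [e3]
  by_cases h : (a && b) = true
  · rw [if_pos h, if_pos h]
    simp [add_comm]
  · rw [if_neg h, if_neg h]
    simp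

theorem hh_false (s : List Bool) : hh (false :: s) = hh s := by
  cases s with
  | nil => rfl
  | cons b s => rw [hh_cons]; simp

theorem hh_gap (n : ℕ) (s : List Bool) : hh (List.replicate n false ++ s) = hh s := by
  induction n with
  | zero => simp
  | succ n ih => rw [List.replicate_succ, List.cons_append, hh_false, ih]

theorem hh_append (u v : List Bool) (hv : ∀ x w, v = x :: w → x = false) :
    hh (u ++ v) = hh u + hh v := by
  induction u with
  | nil => simp [hh_nil]
  | cons a u ih =>
    cases u with
    | nil =>
      rw [hh_one, zero_add, List.cons_append, List.nil_append]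
      cases v with
      | nil => rfl
      | cons x w =>
        rw [hv x w rfl, hh_cons]
        simp
    | cons b u =>
      have e : (a :: b :: u) ++ v = a :: b :: (u ++ v) := rfl
      rw [e, hh_cons, hh_cons]
      have e2 : b :: (u ++ v) = (b :: u) ++ v := rfl
      rw [e2, ih]
      ring

theorem hh_true (m : ℕ) : hh (List.replicate m true) = m - 1 := by
  induction m with
  | zero => rfl
  | succ m ih =>
    cases m with
    | zero => rfl
    | succ m =>
      rw [List.replicate_succ, List.replicate_succ, hh_cons, ← List.replicate_succ, ih]
      simp
      omega

theorem hh_item (a : ℕ) : hh (itemWord a) = 0 := by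
  unfold hh itemWord
  rw [List.length_eq_zero_iff, List.filter_eq_nil_iff]
  intro i hi
  rw [List.mem_range] at hi
  simp only [List.length_map, List.length_range] at hi
  have h1 : i < 2 * a - 1 := by omega
  have h2 : i + 1 < 2 * a - 1 := by omega
  rw [List.getD_eq_getElem?_getD, List.getD_eq_getElem?_getD]
  simp [h1, h2]
  omega

variable {ι : Type} [DecidableEq ι] (B : BlkData ι)

/-- the chain relation -/
abbrev Rel (a b : Tok ι) : Prop := a.isGap = true ∨ b.isGap = true

omit [DecidableEq ι] in
theorem word_cons (t : Tok ι) (l : List (Tok ι)) : B.word (t :: l) = B.tokWord t ++ B.word l := rfl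

omit [DecidableEq ι] in
theorem labels_gap (n : ℕ) (l : List (Tok ι)) : labels (Tok.gap n :: l) = labels l := rfl

omit [DecidableEq ι] in
theorem labels_blk (j : ι) (l : List (Tok ι)) : labels (Tok.blk j :: l) = j :: labels l := rfl

omit [DecidableEq ι] in
/-- after a block comes nothing or a gap -/
theorem after_blk {j : ι} {l : List (Tok ι)} (h : (Tok.blk j :: l).IsChain Rel) :
    l = [] ∨ ∃ n l', l = Tok.gap n :: l' := by
  cases l with
  | nil => exact Or.inl rfl
  | cons t l' =>
    cases t with
    | gap n => exact Or.inr ⟨n, l', rfl⟩
    | blk i =>
      rw [List.isChain_cons_cons] at h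
      rcases h.1 with h | h <;> simp [Tok.isGap] at h

omit [DecidableEq ι] in
theorem hh_word (l : List (Tok ι)) (hc : l.IsChain Rel) (h2 : ∀ n, Tok.gap n ∈ l → 2 ≤ n) :
    hh (B.word l) = ((labels l).map fun j => if B.item j then 0 else B.size j - 1).sum := by
  induction l with
  | nil => rfl
  | cons t l ih =>
    have ih' := ih hc.tail (fun n hn => h2 n (List.mem_cons_of_mem _ hn))
    cases t with
    | gap n =>
      rw [word_cons, labels_gap, ← ih']
      exact hh_gap n _
    | blk j =>
      rw [word_cons, labels_blk, List.map_cons, List.sum_cons, ← ih', hh_append]
      · congr 1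
        change hh (B.blkWord j) = _
        unfold BlkData.blkWord
        by_cases h : B.item j = true
        · rw [if_pos h, if_pos h, hh_item]
        · rw [if_neg h, if_neg h, hh_true]
      · intro x w hx
        rcases after_blk hc with h | ⟨n, l', h⟩
        · rw [h] at hx
          exact absurd hx (by simp [BlkData.word])
        · rw [h, word_cons] at hx
          have hn : 2 ≤ n := h2 n (by rw [h]; simp)
          obtain ⟨k, rfl⟩ : ∃ k, n = k + 1 := ⟨n - 1, by omega⟩
          change List.replicate (k + 1) false ++ _ = _ at hx
          rw [List.replicate_succ, List.cons_append, List.cons.injEq] at hx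
          exact hx.1.symm

omit [DecidableEq ι] in
theorem K_word (l : List (Tok ι)) :
    B.K l = ((labels l).map fun j => if B.item j then 2 * B.size j else 2 * (B.size j - 2)).sum := by
  induction l with
  | nil => rfl
  | cons t l ih =>
    have e : B.K (t :: l) = B.kval t + B.K l := by
      unfold BlkData.K
      rw [List.map_cons, List.sum_cons]
    rw [e, ih]
    cases t with
    | gap n => rw [labels_gap]; simp [BlkData.kval]
    | blk j => rw [labels_blk, List.map_cons, List.sum_cons]; rfl

theorem layout (l : List (Tok ι)) (hc : l.IsChain Rel) (h2 : ∀ n, Tok.gap n ∈ l → 2 ≤ n)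
    (hnd : (labels l).Nodup) : ∃ o : ι → ℕ,
      (∀ j ∈ labels l, o j + (B.blkWord j).length ≤ (B.word l).length) ∧
      (∀ i ∈ labels l, ∀ j ∈ labels l, i ≠ j → o i + (B.blkWord i).length + 2 ≤ o j ∨
        o j + (B.blkWord j).length + 2 ≤ o i) ∧
      (∀ k, (B.word l).getD k false = true ↔ ∃ j ∈ labels l, o j ≤ k ∧
        k < o j + (B.blkWord j).length ∧ (B.blkWord j).getD (k - o j) false = true) ∧
      (∀ n l', l = Tok.gap n :: l' → ∀ j ∈ labels l, 2 ≤ o j) := by
  induction l with
  | nil =>
    refine ⟨fun _ => 0, ?_, ?_, ?_, ?_⟩
    · intro j hj; simp [labels] at hj
    · intro j hj; simp [labels] at hj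
    · intro k
      simp [labels, BlkData.word]
    · intro n l' h; simp at h
  | cons t l ih =>
    cases t with
    | gap n =>
      obtain ⟨o, ha, hb, hl, -⟩ := ih hc.tail (fun n hn => h2 n (List.mem_cons_of_mem _ hn)) hnd
      have hn : 2 ≤ n := h2 n (by simp)
      have hw : B.word (Tok.gap n :: l) = List.replicate n false ++ B.word l := rfl
      obtain ⟨o', ho⟩ : ∃ o' : ι → ℕ, ∀ j, o' j = n + o j := ⟨_, fun _ => rfl⟩
      refine ⟨o', ?_, ?_, ?_, ?_⟩
      · intro j hj
        have := ha j hj
        rw [hw, List.length_append, List.length_replicate, ho]
        omega
      · intro i hi j hj hij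
        have := hb i hi j hj hij
        rw [ho, ho]
        omega
      · intro k
        rw [hw]
        by_cases hk : k < n
        · rw [List.getD_append _ _ _ _ (by rw [List.length_replicate]; exact hk)]
          constructor
          · intro h
            rw [List.getD_eq_getElem?_getD] at h
            simp [hk] at h
          · rintro ⟨j, -, h, -⟩
            rw [ho] at h
            omega
        · rw [List.getD_append_right _ _ _ _ (by rw [List.length_replicate]; omega),
            List.length_replicate, hl]
          constructor
          · rintro ⟨j, hj, h3, h4, h5⟩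
            have := ho j
            refine ⟨j, hj, by omega, by omega, ?_⟩
            rw [← h5]
            congr 1
            omega
          · rintro ⟨j, hj, h3, h4, h5⟩
            have := ho j
            refine ⟨j, hj, by omega, by omega, ?_⟩
            rw [← h5]
            congr 1
            omega
      · intro m l' _ j _
        have := ho j
        omega
    | blk j0 =>
      rw [labels_blk, List.nodup_cons] at hnd
      obtain ⟨o, ha, hb, hl, hd⟩ := ih hc.tail (fun n hn => h2 n (List.mem_cons_of_mem _ hn)) hnd.2
      have hd' : ∀ j ∈ labels l, 2 ≤ o j := by
        intro j hj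
        rcases after_blk hc with h | ⟨n, l', h⟩
        · rw [h] at hj
          simp [labels] at hj
        · exact hd n l' h j hj
      have hw : B.word (Tok.blk j0 :: l) = B.blkWord j0 ++ B.word l := rfl
      have hne : ∀ j ∈ labels l, j ≠ j0 := fun j hj h => hnd.1 (h ▸ hj)
      obtain ⟨o', ho0, ho1⟩ : ∃ o' : ι → ℕ, o' j0 = 0 ∧
          ∀ j ∈ labels l, o' j = (B.blkWord j0).length + o j :=
        ⟨fun j => if j = j0 then 0 else (B.blkWord j0).length + o j, if_pos rfl,
          fun j hj => if_neg (hne j hj)⟩
      refine ⟨o', ?_, ?_, ?_, ?_⟩
      · intro j hj
        rw [hw, List.length_append]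
        rcases List.mem_cons.1 hj with h | h
        · rw [h, ho0]; omega
        · rw [ho1 j h]
          have := ha j h
          omega
      · intro i hi j hj hij
        rcases List.mem_cons.1 hi with h | h <;> rcases List.mem_cons.1 hj with h' | h'
        · exact absurd (h.trans h'.symm) hij
        · left
          rw [h, ho0, ho1 j h']
          have := hd' j h'
          omega
        · right
          rw [h', ho0, ho1 i h]
          have := hd' i h
          omega
        · rw [ho1 i h, ho1 j h']
          have := hb i h j h' hij
          omega
      · intro k
        rw [hw]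
        by_cases hk : k < (B.blkWord j0).length
        · rw [List.getD_append _ _ _ _ hk]
          constructor
          · intro h
            refine ⟨j0, List.mem_cons_self, ?_, ?_, ?_⟩
            · rw [ho0]; omega
            · rw [ho0]; omega
            · rw [ho0]; exact h
          · rintro ⟨j, hj, h3, h4, h5⟩
            rcases List.mem_cons.1 hj with h | h
            · rw [h, ho0] at h5
              exact h5
            · rw [ho1 j h] at h3
              omega
        · rw [List.getD_append_right _ _ _ _ (by omega), hl]
          constructor
          · rintro ⟨j, hj, h3, h4, h5⟩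
            have h6 := ho1 j hj
            refine ⟨j, List.mem_cons_of_mem _ hj, by omega, by omega, ?_⟩
            rw [← h5]
            congr 1
            omega
          · rintro ⟨j, hj, h3, h4, h5⟩
            rcases List.mem_cons.1 hj with h | h
            · rw [h, ho0] at h4
              omega
            · have h6 := ho1 j h
              refine ⟨j, h, by omega, by omega, ?_⟩
              rw [← h5]
              congr 1
              omega
      · intro m l' h
        simp at h

end TokLayoutAux

open TokLayoutAux in
/-- TARGET -/
theorem TokLayout_proof : S_TokLayout := by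
  intro ι _ B l hS hnd hsz
  refine ⟨?_, ?_, ?_⟩
  · obtain ⟨n, t, rfl⟩ := hS.last
    have hlab : labels (t ++ [Tok.gap n]) = labels t := by
      unfold labels
      rw [List.flatMap_append]
      simp [Tok.labs]
    have hw : B.word (t ++ [Tok.gap n]) = B.word t ++ List.replicate n false := by
      unfold BlkData.word
      rw [List.flatMap_append]
      simp [BlkData.tokWord]
    have hn : 2 ≤ n := hS.two n (by simp)
    rw [hlab] at hnd ⊢
    obtain ⟨o, ha, hb, hl, hd⟩ := layout B t (List.IsChain.left_of_append hS.chain)
      (fun m hm => hS.two m (List.mem_append_left _ hm)) hnd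
    have hd' : ∀ j ∈ labels t, 2 ≤ o j := by
      intro j hj
      obtain ⟨m, u, hu⟩ := hS.head
      cases t with
      | nil => simp [labels] at hj
      | cons a t =>
        rw [List.cons_append, List.cons.injEq] at hu
        exact hd m t (by rw [hu.1]) j hj
    refine ⟨o, ?_, ?_, ?_, ?_⟩
    · intro j hj
      have := hd' j (List.mem_toFinset.1 hj)
      omega
    · intro j hj
      have := ha j (List.mem_toFinset.1 hj)
      rw [hw, List.length_append, List.length_replicate]
      omega
    · intro i hi j hj hij
      have := hb i (List.mem_toFinset.1 hi) j (List.mem_toFinset.1 hj) hij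
      omega
    · intro k
      simp only [List.mem_toFinset]
      rw [← hl k, hw]
      by_cases hk : k < (B.word t).length
      · rw [List.getD_append _ _ _ _ hk]
      · rw [List.getD_append_right _ _ _ _ (by omega)]
        have h1 : (B.word t).getD k false = false := by
          rw [List.getD_eq_getElem?_getD, List.getElem?_eq_none (by omega)]
          rfl
        rw [h1]
        have h2 : (List.replicate n false).getD (k - (B.word t).length) false = false := by
          rw [List.getD_eq_getElem?_getD, List.getElem?_replicate]
          split_ifs <;> rfl
        rw [h2]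
  · rw [List.sum_toFinset _ hnd, K_word]
  · rw [List.sum_toFinset _ hnd, hh_word B l hS.chain hS.two]

end Pool.Agent.H329
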